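import Mathlib
import Pool.Agent.Lib.MP_50e386_al.Bridge

section
/-!
Definitions for the homological Artin-Rees property (paper section 4). Pure commutative algebra.
-/

namespace MP50e386N

/-- Artin-Rees property of `X ≤ Y` with respect to the ideal `h` -/
def AR {A M : Type} [CommRing A] [AddCommGroup M] [Module A M] (h : Ideal A)
    (X Y : Submodule A M) : Prop :=
  ∀ K : ℕ, ∃ K' : ℕ, X ⊓ h ^ K' • Y ≤ h ^ K • X

/-- `Good_n(Q)`: there is a free cover `π : F → Q` with `AR(ker π, F)` and `Good_(n-1)(ker π)`. -/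
def Good {A : Type} [CommRing A] (h : Ideal A) :
    ℕ → ∀ (Q : Type) [AddCommGroup Q] [Module A Q], Prop
  | 0, _, _, _ => True
  | n + 1, Q, _, _ => ∃ (ι : Type) (π : (ι →₀ A) →ₗ[A] Q), Function.Surjective π ∧
      AR h (LinearMap.ker π) ⊤ ∧ Good h n (LinearMap.ker π)

end MP50e386N
end

section
/-!
Definitions for the proof that `Sym(Sym^2(ℂ^∞))` is `Sp_∞`-noetherian (paper: MP_50e386_paper.md).
-/

namespace MP50e386N

open MvPolynomial Pool.Agent.Lib.MP50e386

/-- `V = ℂ^∞` -/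
abbrev V := ℕ →₀ ℂ

/-- the basis vector `e i` -/
noncomputable abbrev ee (i : ℕ) : V := Finsupp.single i 1

/-- the symplectic form -/
noncomputable abbrev om (u v : V) : ℂ := sympForm u v

/-- `V_R` -/
abbrev VR (R : Type) [CommRing R] := ℕ →₀ R

/-- A commutative `ℂ`-algebra generated by symmetric elements `x i j` on which substitutions act. -/
class GLRing (R : Type) [CommRing R] [Algebra ℂ R] where
  x : ℕ → ℕ → R
  x_symm : ∀ i j, x i j = x j i
  gen : Algebra.adjoin ℂ (Set.range fun p : ℕ × ℕ => x p.1 p.2) = ⊤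
  sb : (ℕ → VR R) → R →ₐ[ℂ] R
  sb_x : ∀ (ψ : ℕ → VR R) (i j : ℕ),
    sb ψ (x i j) = (ψ i).sum fun k a => (ψ j).sum fun l b => a * b * x k l

variable {R : Type} [CommRing R] [Algebra ℂ R] [GLRing R]

/-- the `R`-bilinear form `x(y, y')` on `V_R` -/
noncomputable def xf : VR R →ₗ[R] VR R →ₗ[R] R :=
  Finsupp.linearCombination R (fun k => Finsupp.linearCombination R (fun l => GLRing.x k l))

/-- `V → V_R` -/
noncomputable def cst : V →ₗ[ℂ] VR R := Finsupp.mapRange.linearMap (Algebra.linearMap ℂ R)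

/-- `x(v, w)` for `v, w ∈ V` -/
noncomputable def xv (v w : V) : R := xf (cst v) (cst w)

/-- `U_R = R[z_{a,i}]`, `a` slot label, `i` letter -/
abbrev U (R : Type) [CommRing R] := MvPolynomial (ℕ × ℕ) R

/-- `z_a(y) = ∑ y_k z_{a,k}` -/
noncomputable def zf (a : ℕ) : VR R →ₗ[R] U R :=
  Finsupp.linearCombination R (fun i => (X (a, i) : U R))

/-- the substitution `e_i ↦ ψ_i` on `U_R` -/
noncomputable def sbU (ψ : ℕ → VR R) : U R →+* U R :=
  eval₂Hom ((C : R →+* U R).comp (GLRing.sb ψ : R →ₐ[ℂ] R).toRingHom) (fun p => zf p.1 (ψ p.2))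

/-- the substitution `e_i ↦ φ_i`, `φ_i ∈ V` -/
noncomputable def sbC (φ : ℕ → V) : U R →+* U R := sbU (fun i => cst (φ i))

/-- the substitution `e_i ↦ φ_i` on `R` -/
noncomputable def sbR (φ : ℕ → V) : R →ₐ[ℂ] R := GLRing.sb (fun i => cst (φ i))

/-- stable under all `ℂ`-linear substitutions -/
def GLS (N : Submodule R (U R)) : Prop := ∀ φ : ℕ → V, ∀ f ∈ N, sbC φ f ∈ N

/-- stable under `ℂ^* · Sp_∞` -/
def GS (N : Submodule R (U R)) : Prop :=
  ∀ g : Cinf ≃ₗ[ℂ] Cinf, IsSp g → ∀ c : ℂ, c ≠ 0 → ∀ f ∈ N, sbC (fun i => c • g (ee i)) f ∈ N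

/-- the same for ideals of `R` -/
def GLSI (I : Ideal R) : Prop := ∀ φ : ℕ → V, ∀ f ∈ I, sbR φ f ∈ I

def GSI (I : Ideal R) : Prop :=
  ∀ g : Cinf ≃ₗ[ℂ] Cinf, IsSp g → ∀ c : ℂ, c ≠ 0 → ∀ f ∈ I, sbR (fun i => c • g (ee i)) f ∈ I

/-- slot degree of a monomial -/
def sdeg (a : ℕ) (m : ℕ × ℕ →₀ ℕ) : ℕ := m.sum fun p k => if p.1 = a then k else 0

variable (R) in
/-- `M_S`: multilinear in the slots `a ∈ S`, no other slots -/
noncomputable def MS (S : Finset ℕ) : Submodule R (U R) :=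
  restrictSupport R {m | ∀ a, sdeg a m = if a ∈ S then 1 else 0}

variable (R) in
/-- `BD(L,D)`: labels `< L`, degree `≤ D` in the `z` -/
noncomputable def BD (L D : ℕ) : Submodule R (U R) :=
  restrictSupport R {m | (∀ p ∈ m.support, p.1 < L) ∧ m.degree ≤ D}

/-- the contraction of the slots `a` and `b` -/
noncomputable def tr (a b : ℕ) : U R →ₗ[R] U R :=
  (basisMonomials (ℕ × ℕ) R).constr R (fun m => ∑ p ∈ m.support, ∑ q ∈ m.support,
    if p.1 = a ∧ q.1 = b then
      (algebraMap ℂ R (om (ee p.2) (ee q.2))) • pderiv p (pderiv q (monomial m (1 : R))) else 0)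

variable (R) in
/-- polynomials with letters in `T` -/
noncomputable def LT (T : Set ℕ) : Subalgebra ℂ (U R) :=
  Algebra.adjoin ℂ ({f | ∃ i ∈ T, ∃ j ∈ T, f = C (GLRing.x i j)} ∪
    {f | ∃ a, ∃ i ∈ T, f = X (a, i)})

/-- `f` has multidegree `κ` in the letters -/
def MW (κ : ℕ →₀ ℕ) (f : U R) : Prop :=
  ∀ t : ℕ → ℂ, sbC (fun i => t i • ee i) f = (κ.prod fun i k => t i ^ k) • f

/-- `f` is homogeneous of weight `d` (number of letters) -/
def HW (d : ℕ) (f : U R) : Prop := ∀ c : ℂ, sbC (fun i => c • ee i) f = c ^ d • f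

/-- a family of vectors is isotropic -/
def Iso {ι : Type} (φ : ι → V) : Prop := ∀ i j, om (φ i) (φ j) = 0

/-- `nn(M₁)` -/
noncomputable def nn (M : Submodule R (U R)) : Submodule R (U R) :=
  Submodule.span R {f | ∃ φ : ℕ → V, Iso φ ∧ ∃ g ∈ M, f = sbC φ g}

/-- Gram matrix -/
noncomputable def gramM {ι : Type} (v : ι → V) : Matrix ι ι R := Matrix.of fun i j => xv (v i) (v j)

/-- `Delta(v)` -/
noncomputable def Dl {ι : Type} [Fintype ι] [DecidableEq ι] (v : ι → V) : R := (gramM v).det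

/-- `pi~_v(c) ∈ V_R` -/
noncomputable def pit {r : ℕ} (v : Fin r → V) (c : V) : VR R :=
  ∑ k, (∑ l, (xv c (v l) : R) * (gramM v : Matrix (Fin r) (Fin r) R).adjugate l k) •
    (cst (v k) : VR R)

/-- `c~ = Delta(v) c - pi~_v(c) ∈ V_R` -/
noncomputable def til {r : ℕ} (v : Fin r → V) (c : V) : VR R := (Dl v : R) • cst c - pit v c

/-- `Delta(v,c)` -/
noncomputable def Dl1 {r : ℕ} (v : Fin r → V) (c : V) : R := Dl (Fin.snoc v c : Fin (r + 1) → V)

/-- `E_k(v;c)` -/
noncomputable def Ek (s : ℕ) {r k : ℕ} (v : Fin r → V) (c : Fin k → V) : R :=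
  ∏ j, (Dl1 v (c j) : R) ^ s

/-- `E_k(v;c) Delta(v)^q` for `w = (v;c)` -/
noncomputable def hh (s q : ℕ) {r k : ℕ} (v : Fin r → V) (c : Fin k → V) : R :=
  Ek s v c * Dl v ^ q

/-- every chain of submodules satisfying `P` between `X` and `Y` is eventually constant -/
def NoethInt (P : Submodule R (U R) → Prop) (X Y : Submodule R (U R)) : Prop :=
  ∀ N : ℕ → Submodule R (U R), Monotone N → (∀ i, P (N i) ∧ X ≤ N i ∧ N i ≤ Y) →
    ∃ n0, ∀ n ≥ n0, N n = N n0

/-- The package `Pkg(R,r,s,h)`. -/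
structure Pkg (R : Type) [CommRing R] [Algebra ℂ R] [GLRing R] (r s : ℕ) (h : Ideal R) : Prop where
  gl : GLSI h
  p1 : ∀ w : Fin (r + 1) → V, (Dl w : R) ^ (s + 1) = 0
  p2 : ∀ v : Fin r → V, LinearIndependent ℂ v → (Dl v : R) ∈ nonZeroDivisors R
  p3 : ∀ (D k q : ℕ) (v : Fin D → Fin r → ℕ) (c : Fin D → Fin k → ℕ),
    Function.Injective (fun p : Fin D × (Fin r ⊕ Fin k) => Sum.elim (v p.1) (c p.1) p.2) →
    (∏ d, hh s q (fun i => ee (v d i)) (fun j => ee (c d j)) : R) ≠ 0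
  p4 : ∀ a : ℕ, ∃ k q : ℕ, ∀ (v : Fin r → V) (c : Fin k → V), hh s q v c ∈ h ^ a
  p5 : ∀ I : Ideal R, GLSI I → I ≠ ⊥ → ∃ q, h ^ q ≤ I
  p6 : ∀ L D, NoethInt (R := R) GLS ⊥ (BD R L D)
  p7 : ∀ L D, ∀ N Y : Submodule R (U R), GLS N → GLS Y → N ≤ Y → Y ≤ BD R L D → AR h N Y
  p8 : ∀ L D, ∀ Y : Submodule R (U R), GLS Y → Y ≤ BD R L D → NoethInt GS (h • Y) Y

end MP50e386N
end

section
/-! More definitions (block T). -/

namespace MP50e386N

open MvPolynomial Pool.Agent.Lib.MP50e386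

variable {R : Type} [CommRing R] [Algebra ℂ R] [GLRing R]

/-- the linear extension `V → V_R` of `ψ` -/
noncomputable def linR (ψ : ℕ → VR R) : V →ₗ[ℂ] VR R := Finsupp.linearCombination ℂ ψ

/-- the linear extension `V → V` of `φ` -/
noncomputable def linC (φ : ℕ → V) : V →ₗ[ℂ] V := Finsupp.linearCombination ℂ φ

/-- the semilinear map `∑ a_k e_k ↦ ∑ sb(a_k) ψ_k` on `V_R` -/
noncomputable def actR (ψ : ℕ → VR R) (y : VR R) : VR R := y.sum fun k a => GLRing.sb ψ a • ψ k

theorem sbU_C (ψ : ℕ → VR R) (a : R) : sbU ψ (C a) = C (GLRing.sb ψ a) := by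
  unfold sbU
  rw [eval₂Hom_C]
  rfl

theorem sbU_X (ψ : ℕ → VR R) (a i : ℕ) : sbU ψ (X (a, i)) = zf a (ψ i) := by
  unfold sbU
  rw [eval₂Hom_X']

theorem sbU_smul (ψ : ℕ → VR R) (a : R) (f : U R) :
    sbU ψ (a • f) = GLRing.sb ψ a • sbU ψ f := by
  rw [smul_eq_C_mul, map_mul, sbU_C, smul_eq_C_mul]

theorem sbC_smul (φ : ℕ → V) (a : R) (f : U R) :
    sbC φ (a • f) = sbR φ a • sbC φ f := sbU_smul _ _ _

/-- `M₁(N)` -/
noncomputable def M1 (S : Finset ℕ) (N : Submodule R (U R)) : Submodule R (U R) where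
  carrier := {f | f ∈ MS R S ∧ ∀ φ : ℕ → V, Iso φ → sbC φ f ∈ N}
  zero_mem' := ⟨Submodule.zero_mem _, fun φ _ => by rw [map_zero]; exact Submodule.zero_mem _⟩
  add_mem' := by
    rintro a b ⟨ha, ha'⟩ ⟨hb, hb'⟩
    refine ⟨Submodule.add_mem _ ha hb, fun φ hφ => ?_⟩
    rw [map_add]
    exact Submodule.add_mem _ (ha' φ hφ) (hb' φ hφ)
  smul_mem' := by
    rintro c a ⟨ha, ha'⟩
    refine ⟨Submodule.smul_mem _ c ha, fun φ hφ => ?_⟩
    rw [sbC_smul]
    exact Submodule.smul_mem _ _ (ha' φ hφ)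

/-- an ideal of `R` as a submodule of `U_R` -/
noncomputable def ofI (I : Ideal R) : Submodule R (U R) :=
  Submodule.map (Algebra.linearMap R (U R)) I

/-- `f` is multilinear in the letters `0, …, n-1` (and contains no other letters) -/
def ML (n : ℕ) (f : U R) : Prop := MW (∑ i ∈ Finset.range n, Finsupp.single i 1) f

/-- radical of the form `E • x(.,.)` -/
noncomputable def Rad (E : R) : Submodule R (VR R) where
  carrier := {y | ∀ y', E * xf y y' = 0}
  zero_mem' := fun y' => by rw [map_zero, LinearMap.zero_apply, mul_zero]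
  add_mem' := by
    intro a b ha hb y'
    rw [map_add, LinearMap.add_apply, mul_add, ha y', hb y', add_zero]
  smul_mem' := by
    intro c a ha y'
    rw [map_smul, LinearMap.smul_apply, smul_eq_mul, mul_left_comm, ha y', mul_zero]

end MP50e386N
end

section
/-! Substitutions with coefficients in an algebra. -/

namespace MP50e386N

open MvPolynomial Pool.Agent.Lib.MP50e386

/-- the substitution `x_ij ↦ ∑ ψ_i(k) ψ_j(l) φ(x_kl)` -/
noncomputable def Psub {S : Type} [CommRing S] [Algebra ℂ S] (φ : MP50e386.A →ₐ[ℂ] S)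
    (ψ : ℕ → ℕ →₀ S) : MP50e386.A →ₐ[ℂ] S :=
  aeval (Sym2.lift ⟨fun i j => (ψ i).sum fun k a => (ψ j).sum fun l b => a * b * φ (X s(k, l)),
    fun i j => by
      beta_reduce
      rw [Finsupp.sum_comm]
      apply Finsupp.sum_congr
      intro k _
      apply Finsupp.sum_congr
      intro l _
      rw [mul_comm ((ψ i) l), Sym2.eq_swap]⟩)

theorem Psub_X {S : Type} [CommRing S] [Algebra ℂ S] (φ : MP50e386.A →ₐ[ℂ] S)
    (ψ : ℕ → ℕ →₀ S) (i j : ℕ) : Psub φ ψ (X s(i, j)) =
      (ψ i).sum fun k a => (ψ j).sum fun l b => a * b * φ (X s(k, l)) := by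
  unfold Psub
  rw [aeval_X]
  rfl

/-- a polynomial over a `ℂ`-algebra which vanishes at all complex points is zero -/
private theorem eq_zero_of_eval {S σ : Type} [CommRing S] [Algebra ℂ S] (F : MvPolynomial σ S)
    (h : ∀ t : σ → ℂ, eval (fun p => algebraMap ℂ S (t p)) F = 0) : F = 0 := by
  classical
  ext d
  rw [coeff_zero]
  refine (Module.forall_dual_apply_eq_zero_iff ℂ (coeff d F)).1 fun ℓ => ?_
  set G : MvPolynomial σ ℂ := ∑ e ∈ F.support, monomial e (ℓ (coeff e F)) with hG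
  have hG0 : G = 0 := by
    apply MvPolynomial.funext
    intro t
    rw [map_zero, hG, map_sum]
    have h1 := congrArg ℓ (h t)
    rw [map_zero, eval_eq, map_sum] at h1
    rw [← h1]
    refine Finset.sum_congr rfl fun e _ => ?_
    rw [eval_monomial]
    have h2 : ∏ i ∈ e.support, (algebraMap ℂ S (t i)) ^ e i =
        algebraMap ℂ S (e.prod fun n k => t n ^ k) := by
      rw [Finsupp.prod, map_prod]
      refine Finset.prod_congr rfl fun i _ => ?_
      rw [map_pow]
    rw [h2, mul_comm (coeff e F), ← Algebra.smul_def, map_smul, smul_eq_mul, mul_comm]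
  have h3 : coeff d G = ℓ (coeff d F) := by
    rw [hG, coeff_sum]
    simp only [coeff_monomial]
    rw [Finset.sum_ite_eq' F.support d]
    split_ifs with hd
    · rfl
    · rw [notMem_support_iff.1 hd, map_zero]
  rw [← h3, hG0, coeff_zero]

/-- the formal substitution with coefficients `X (i, k)`, `k < m` -/
private noncomputable def genY {S : Type} [CommRing S] [Algebra ℂ S] (φ : MP50e386.A →ₐ[ℂ] S)
    (m : ℕ) : Sym2 ℕ → MvPolynomial (ℕ × ℕ) S :=
  Sym2.lift ⟨fun i j => ∑ k ∈ Finset.range m, ∑ l ∈ Finset.range m,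
    X (i, k) * X (j, l) * C (φ (X s(k, l))), fun i j => by
      beta_reduce
      rw [Finset.sum_comm]
      refine Finset.sum_congr rfl fun k _ => Finset.sum_congr rfl fun l _ => ?_
      rw [Sym2.eq_swap, mul_comm (X (i, l))]⟩

/-- if `J` is stable under complex substitutions and `φ` kills `J`, then the formal substitution
kills `J` -/
theorem Psub_eq_zero {S : Type} [CommRing S] [Algebra ℂ S] (J : Ideal MP50e386.A)
    (hJ : ∀ w : ℕ → MP50e386.V, ∀ f ∈ J, MP50e386.sub w f ∈ J) (φ : MP50e386.A →ₐ[ℂ] S)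
    (hφ : ∀ f ∈ J, φ f = 0) (ψ : ℕ → ℕ →₀ S) (f : MP50e386.A) (hf : f ∈ J) :
    Psub φ ψ f = 0 := by
  classical
  obtain ⟨n, hn⟩ := MP50e386.exists_lev f
  set m : ℕ := (Finset.range n).sup (fun i => (ψ i).support.sup id) + 1 with hm
  have hsupp : ∀ i < n, (ψ i).support ⊆ Finset.range m := by
    intro i hi k hk
    have h1 : k ≤ (ψ i).support.sup id := Finset.le_sup (f := id) hk
    have h2 : (ψ i).support.sup id ≤ (Finset.range n).sup (fun i => (ψ i).support.sup id) :=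
      Finset.le_sup (f := fun i => (ψ i).support.sup id) (Finset.mem_range.2 hi)
    rw [Finset.mem_range]
    omega
  -- the formal substitution kills `f`
  have hG : (aeval (genY φ m) f : MvPolynomial (ℕ × ℕ) S) = 0 := by
    apply eq_zero_of_eval
    intro t
    let w : ℕ → MP50e386.V := fun i => ∑ k ∈ Finset.range m, t (i, k) • MP50e386.ee k
    let E : MvPolynomial (ℕ × ℕ) S →ₐ[ℂ] S :=
      (aeval (fun p => algebraMap ℂ S (t p)) : MvPolynomial (ℕ × ℕ) S →ₐ[S] S).restrictScalars ℂ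
    have hE : ∀ F, E F = eval (fun p => algebraMap ℂ S (t p)) F := by
      intro F
      change aeval (fun p => algebraMap ℂ S (t p)) F = _
      rw [aeval_eq_eval]
    have hcomp : E.comp (aeval (genY φ m) : MP50e386.A →ₐ[ℂ] MvPolynomial (ℕ × ℕ) S) =
        φ.comp (MP50e386.sub w) := by
      apply MvPolynomial.algHom_ext
      intro s
      induction s using Sym2.ind with
      | _ i j =>
        rw [AlgHom.comp_apply, AlgHom.comp_apply, aeval_X, MP50e386.sub_X, hE]
        change eval _ (∑ k ∈ Finset.range m, ∑ l ∈ Finset.range m,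
          X (i, k) * X (j, l) * C (φ (X s(k, l)))) = _
        rw [map_sum]
        have h1 : MP50e386.bil (w i) (w j) = ∑ k ∈ Finset.range m, ∑ l ∈ Finset.range m,
            (t (i, k) * t (j, l)) • (X s(k, l) : MP50e386.A) := by
          change MP50e386.bil (∑ k ∈ Finset.range m, t (i, k) • MP50e386.ee k)
            (∑ k ∈ Finset.range m, t (j, k) • MP50e386.ee k) = _
          rw [LinearMap.map_sum₂]
          refine Finset.sum_congr rfl fun k _ => ?_
          rw [map_smul, LinearMap.smul_apply, map_sum, Finset.smul_sum]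
          refine Finset.sum_congr rfl fun l _ => ?_
          rw [map_smul, MP50e386.bil_ee, smul_smul]
        rw [h1, map_sum]
        refine Finset.sum_congr rfl fun k _ => ?_
        rw [map_sum, map_sum]
        refine Finset.sum_congr rfl fun l _ => ?_
        rw [map_mul, map_mul, eval_X, eval_X, eval_C, map_smul, Algebra.smul_def, map_mul]
    have h2 := congrArg (fun g : MP50e386.A →ₐ[ℂ] S => g f) hcomp
    simp only [AlgHom.comp_apply] at h2
    rw [← hE, h2]
    exact hφ _ (hJ w f hf)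
  -- specialise
  let E : MvPolynomial (ℕ × ℕ) S →ₐ[ℂ] S :=
    (aeval (fun p => ψ p.1 p.2) : MvPolynomial (ℕ × ℕ) S →ₐ[S] S).restrictScalars ℂ
  have h3 : aeval (fun s => E (genY φ m s)) f = 0 := by
    have h4 : aeval (fun s => E (genY φ m s)) f = E (aeval (genY φ m) f) := by
      have h5 : (aeval (fun s => E (genY φ m s)) : MP50e386.A →ₐ[ℂ] S) =
          E.comp (aeval (genY φ m)) := by
        apply MvPolynomial.algHom_ext
        intro s
        rw [AlgHom.comp_apply, aeval_X, aeval_X]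
      rw [h5, AlgHom.comp_apply]
    rw [h4, hG, map_zero]
  rw [← h3]
  unfold Psub
  apply MP50e386.aeval_congr_lev hn
  intro i hi j hj
  have h6 : E (genY φ m s(i, j)) = ∑ k ∈ Finset.range m, ∑ l ∈ Finset.range m,
      ψ i k * ψ j l * φ (X s(k, l)) := by
    change aeval (fun p : ℕ × ℕ => ψ p.1 p.2) (∑ k ∈ Finset.range m, ∑ l ∈ Finset.range m,
      (X (i, k) * X (j, l) * C (φ (X s(k, l))) : MvPolynomial (ℕ × ℕ) S)) = _
    rw [map_sum]
    refine Finset.sum_congr rfl fun k _ => ?_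
    rw [map_sum]
    refine Finset.sum_congr rfl fun l _ => ?_
    rw [map_mul, map_mul, aeval_X, aeval_X, aeval_C]
    rfl
  rw [h6]
  change (ψ i).sum (fun k a => (ψ j).sum fun l b => a * b * φ (X s(k, l))) = _
  rw [Finsupp.sum_of_support_subset _ (hsupp i hi)]
  · refine Finset.sum_congr rfl fun k _ => ?_
    rw [Finsupp.sum_of_support_subset _ (hsupp j hj)]
    intro l _
    rw [mul_zero, zero_mul]
  · intro k _
    rw [Finsupp.sum]
    refine Finset.sum_eq_zero fun l _ => ?_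
    rw [zero_mul, zero_mul]

end MP50e386N
end

section
/-! The rings `A` and `A ⧸ J`. -/

namespace MP50e386N

open MvPolynomial Pool.Agent.Lib.MP50e386

theorem adjoin_x {S : Type} [CommRing S] [Algebra ℂ S] (φ : MP50e386.A →ₐ[ℂ] S)
    (hφ : Function.Surjective φ) :
    Algebra.adjoin ℂ (Set.range fun p : ℕ × ℕ => φ (X s(p.1, p.2))) = ⊤ := by
  have h1 : (Set.range fun p : ℕ × ℕ => φ (X s(p.1, p.2))) =
      φ '' (Set.range (X : Sym2 ℕ → MP50e386.A)) := by
    ext y
    constructor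
    · rintro ⟨p, rfl⟩
      exact ⟨X s(p.1, p.2), ⟨s(p.1, p.2), rfl⟩, rfl⟩
    · rintro ⟨_, ⟨s, rfl⟩, rfl⟩
      induction s using Sym2.ind with
      | _ i j => exact ⟨(i, j), rfl⟩
  rw [h1, ← AlgHom.map_adjoin, MvPolynomial.adjoin_range_X, Algebra.map_top]
  exact (AlgHom.range_eq_top φ).2 hφ

noncomputable instance instGLRingA : GLRing MP50e386.A where
  x i j := X s(i, j)
  x_symm i j := by rw [Sym2.eq_swap]
  gen := by
    have := adjoin_x (AlgHom.id ℂ MP50e386.A) Function.surjective_id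
    simpa using this
  sb ψ := Psub (AlgHom.id ℂ MP50e386.A) ψ
  sb_x ψ i j := Psub_X _ _ _ _

/-- ideals of `A` stable under all complex substitutions -/
class GLIdeal (J : Ideal MP50e386.A) : Prop where
  st : ∀ w : ℕ → MP50e386.V, ∀ f ∈ J, MP50e386.sub w f ∈ J

noncomputable instance instGLRingQuot (J : Ideal MP50e386.A) [GLIdeal J] :
    GLRing (MP50e386.A ⧸ J) where
  x i j := Ideal.Quotient.mkₐ ℂ J (X s(i, j))
  x_symm i j := by rw [Sym2.eq_swap]
  gen := adjoin_x (Ideal.Quotient.mkₐ ℂ J) (Ideal.Quotient.mkₐ_surjective ℂ J)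
  sb ψ := Ideal.Quotient.liftₐ J (Psub (Ideal.Quotient.mkₐ ℂ J) ψ) (fun f hf =>
    Psub_eq_zero J GLIdeal.st (Ideal.Quotient.mkₐ ℂ J)
      (fun g hg => Ideal.Quotient.eq_zero_iff_mem.2 hg) ψ f hf)
  sb_x ψ i j := by
    have h := Psub_X (Ideal.Quotient.mkₐ ℂ J) ψ i j
    rw [← h]
    rfl

noncomputable instance (M N0 : ℕ) : GLIdeal (MP50e386.detIdeal M N0) where
  st w := MP50e386.detIdeal_stable M N0 w

/-- `R_{r|s}` -/
abbrev Rrs (r s : ℕ) := MP50e386.A ⧸ MP50e386.detIdeal (r + 1) (s + 1)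

/-- the ideal `h_{r|s}` of `R_{r|s}` -/
noncomputable def hrs (r s : ℕ) : Ideal (Rrs r s) :=
  Ideal.map (Ideal.Quotient.mk _) (MP50e386.detIdeal r (s + 1) * MP50e386.detIdeal (r + 1) s)

end MP50e386N
end

section
/-! Definitions for block L (paper section 7): reduction from `A` to `A ⧸ J`. -/

namespace MP50e386N

open MvPolynomial Pool.Agent.Lib.MP50e386

/-- reduction of the coefficients -/
noncomputable def red (J : Ideal MP50e386.A) : U MP50e386.A →+* U (MP50e386.A ⧸ J) :=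
  MvPolynomial.map (Ideal.Quotient.mk J)

/-- preimage of a submodule in `BD(L,D)` -/
noncomputable def pull (J : Ideal MP50e386.A) (N : Submodule (MP50e386.A ⧸ J) (U (MP50e386.A ⧸ J))) :
    Submodule MP50e386.A (U MP50e386.A) where
  carrier := {f | red J f ∈ N}
  zero_mem' := by
    show red J 0 ∈ N
    rw [map_zero]
    exact N.zero_mem
  add_mem' := by
    intro a b ha hb
    show red J (a + b) ∈ N
    rw [map_add]
    exact N.add_mem ha hb
  smul_mem' := by
    intro c a ha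
    show red J (c • a) ∈ N
    have h1 : red J (c • a) = (Ideal.Quotient.mk J c) • red J a := by
      unfold red
      rw [smul_eq_C_mul, map_mul, map_C, smul_eq_C_mul]
    rw [h1]
    exact N.smul_mem _ ha

/-- chains of `GS` submodules of `MS S` containing `J • MS S` are eventually constant -/
def NI (J : Ideal MP50e386.A) : Prop :=
  ∀ S : Finset ℕ, NoethInt (R := MP50e386.A) GS (J • MS MP50e386.A S) (MS MP50e386.A S)

end MP50e386N
end

section
/-! Definitions for block Q. -/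

namespace MP50e386N

open MvPolynomial Pool.Agent.Lib.MP50e386

variable {R : Type} [CommRing R] [Algebra ℂ R] [GLRing R]

/-- hypothesis (P1) -/
def HP1 (R : Type) [CommRing R] [Algebra ℂ R] [GLRing R] (r s : ℕ) : Prop :=
  ∀ w : Fin (r + 1) → V, (Dl w : R) ^ (s + 1) = 0

/-- hypothesis (P2) -/
def HP2 (R : Type) [CommRing R] [Algebra ℂ R] [GLRing R] (r : ℕ) : Prop :=
  ∀ v : Fin r → V, LinearIndependent ℂ v → (Dl v : R) ∈ nonZeroDivisors R

/-- `Ev(y)` for a frame `y = (v; c)` -/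
noncomputable def Ev (s : ℕ) {r k : ℕ} (y : Fin r ⊕ Fin k → V) : R :=
  Ek s (fun i => y (Sum.inl i)) (fun j => y (Sum.inr j))

/-- `dl(y)` -/
noncomputable def dl {r k : ℕ} (y : Fin r ⊕ Fin k → V) : R := Dl (fun i => y (Sum.inl i))

end MP50e386N
end

section
/-! Definitions for block G: the maps `Th`. -/

namespace MP50e386N

open MvPolynomial Pool.Agent.Lib.MP50e386

variable {R : Type} [CommRing R] [Algebra ℂ R] [GLRing R]

/-- `Th_g : ∏_k z_{lab k, j_k} ↦ g(e_{j_0}, …, e_{j_{n-1}})`, `R`-linear -/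
noncomputable def Th (g : U R) (lab : ℕ → ℕ) : U R →ₗ[R] U R :=
  (basisMonomials (ℕ × ℕ) R).constr R
    (fun m => sbC (fun k => m.sum fun p e => if p.1 = lab k then (e : ℂ) • ee p.2 else 0) g)

/-- the set of labels -/
def labS (n : ℕ) (lab : ℕ → ℕ) : Finset ℕ := (Finset.range n).image lab

/-- the `R`-span of all substitutions of `g` -/
noncomputable def spn (g : U R) : Submodule R (U R) :=
  Submodule.span R (Set.range fun φ : ℕ → V => sbC φ g)

end MP50e386N
end

section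
/-! Definitions for the main step (paper section 6). -/

namespace MP50e386N

open MvPolynomial Pool.Agent.Lib.MP50e386

variable {R : Type} [CommRing R] [Algebra ℂ R] [GLRing R]

/-- iterated kernels of traces -/
noncomputable def kerL (l : List (ℕ × ℕ)) (N : Submodule R (U R)) : Submodule R (U R) :=
  l.foldr (fun p N' => N' ⊓ LinearMap.ker (tr p.1 p.2)) N

/-- `M₂`: the elements of `M` killed by all traces -/
noncomputable def M2 (S : Finset ℕ) (M : Submodule R (U R)) : Submodule R (U R) :=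
  kerL S.offDiag.toList M

/-- the statement `Claim(S)` of the main step -/
def ClaimS (h : Ideal R) (S : Finset ℕ) : Prop :=
  (∀ N : Submodule R (U R), GS N → N ≤ MS R S → ∀ n, Good h n N) ∧
    NoethInt (R := R) GS ⊥ (MS R S)

end MP50e386N
end

section
/-! Definitions for block C (paper 5.1-5.6). -/

namespace MP50e386N

open MvPolynomial Pool.Agent.Lib.MP50e386

variable {R : Type} [CommRing R] [Algebra ℂ R] [GLRing R]

/-- slot dependent substitution `z_{a,i} ↦ z_a(Y a i)`, `R`-linear -/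
noncomputable def mev (Y : ℕ → ℕ → VR R) : U R →ₐ[R] U R := aeval (fun p => zf p.1 (Y p.1 p.2))

/-- the coefficients of `f` are substituted by `ψ` -/
noncomputable def cfs (ψ : ℕ → VR R) : U R →+* U R :=
  MvPolynomial.map ((GLRing.sb ψ : R →ₐ[ℂ] R) : R →+* R)

open Classical in
/-- the coefficient of `λ_0 ⋯ λ_(j-1)` in `mev (ψ' + ∑ λ_t φ_t) F` for `F` multilinear in the slots
`S` -/
noncomputable def DDm (S : Finset ℕ) (F : U R) (ψ' : ℕ → VR R) {j : ℕ} (φ : Fin j → ℕ → VR R) :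
    U R :=
  ∑ c ∈ (Finset.univ : Finset (S → Option (Fin j))).filter (fun c => ∀ t, ∃! a, c a = some t),
    mev (fun a => if h : a ∈ S then Option.elim (c ⟨a, h⟩) ψ' φ else 0) F

/-- scaling of the letters `< 2n` -/
noncomputable def scT (n : ℕ) (c : ℂ) (i : ℕ) : V := if i < 2 * n then c • ee i else ee i

/-- `T`-degree at most `D`, `T = {0, …, 2n-1}` -/
def TD (n D : ℕ) (f : U R) : Prop :=
  ∃ g : ℕ → U R, f = ∑ d ∈ Finset.range (D + 1), g d ∧ ∀ d, ∀ c : ℂ, sbC (scT n c) (g d) = c ^ d • g d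

/-- all traces vanish -/
def TrZ (S : Finset ℕ) (f : U R) : Prop := ∀ a ∈ S, ∀ b ∈ S, a ≠ b → tr a b f = 0

/-- property (F) of paper 5.4 -/
def FProp (r s k q n D : ℕ) (S : Finset ℕ) (M : Submodule R (U R)) : Prop :=
  ∀ Z : Set ℕ, Z.Finite → (∀ z ∈ Z, 2 * n ≤ z) → (∀ z ∈ Z, ∀ z' ∈ Z, om (ee z) (ee z') = 0) →
    ∀ f ∈ M, TrZ S f → f ∈ LT R (Set.Iio (2 * n) ∪ Z) → TD n D f →
      ∀ (u : Fin r → V) (b : Fin k → V), Iso (Sum.elim u b) →
        (∀ i, ∀ z ∈ Set.Iio (2 * n) ∪ Z, om (Sum.elim u b i) (ee z) = 0) →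
        (hh s q u b : R) • f ∈ nn M

/-- the auxiliary vectors of claim 0: `u` and the hyperbolic pairs `p a b, q a b` -/
structure Aux (r n : ℕ) (Z : Set ℕ) (u : Fin r → V) (p q : ℕ → ℕ → V) : Prop where
  uu : ∀ i j, om (u i) (u j) = 0
  uT : ∀ i, ∀ k ∈ Set.Iio (2 * n) ∪ Z, om (u i) (ee k) = 0
  up : ∀ i a b, om (u i) (p a b) = 0
  uq : ∀ i a b, om (u i) (q a b) = 0
  pT : ∀ a b, ∀ k ∈ Set.Iio (2 * n) ∪ Z, om (p a b) (ee k) = 0
  qT : ∀ a b, ∀ k ∈ Set.Iio (2 * n) ∪ Z, om (q a b) (ee k) = 0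
  pp : ∀ a b a' b', om (p a b) (p a' b') = 0
  qq : ∀ a b a' b', om (q a b) (q a' b') = 0
  pq : ∀ a b a' b', om (p a b) (q a' b') = if a = a' ∧ b = b' then 1 else 0

end MP50e386N
end
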