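import Mathlib
import Pool.Agent.Lib.MP_50e386_al.B.Da

section
/-! Vandermonde: coefficients of a polynomial with values in a subspace. -/

namespace MP50e386N

open MvPolynomial

theorem vand1 {W : Type} [AddCommGroup W] [Module ℂ W] (N : Submodule ℂ W) (n : ℕ) (f : ℕ → W)
    (h : {t : ℂ | ∑ k ∈ Finset.range n, t ^ k • f k ∈ N}.Infinite) : ∀ k < n, f k ∈ N := by
  intro k hkn
  by_contra hk
  obtain ⟨l, hl1, hl2⟩ := Submodule.exists_le_ker_of_notMem hk
  set r : Polynomial ℂ := ∑ i ∈ Finset.range n, Polynomial.monomial i (l (f i)) with hr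
  have hr0 : r = 0 := by
    apply Polynomial.eq_zero_of_infinite_isRoot
    apply h.mono
    intro s hs
    change r.eval s = 0
    have h1 := hl2 hs
    rw [LinearMap.mem_ker, map_sum] at h1
    rw [hr, Polynomial.eval_finsetSum, ← h1]
    apply Finset.sum_congr rfl
    intro i _
    rw [Polynomial.eval_monomial, map_smul, smul_eq_mul, mul_comm]
  have h2 : r.coeff k = l (f k) := by
    rw [hr, Polynomial.finsetSum_coeff]
    simp only [Polynomial.coeff_monomial]
    rw [Finset.sum_ite_eq', if_pos (Finset.mem_range.2 hkn)]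
  rw [hr0, Polynomial.coeff_zero] at h2
  exact hl1 h2.symm

/-- values at all `t` with nonzero coordinates -/
theorem vandM {W σ : Type} [AddCommGroup W] [Module ℂ W] (N : Submodule ℂ W)
    (s : Finset (σ →₀ ℕ)) (f : (σ →₀ ℕ) → W)
    (h : ∀ t : σ → ℂ, (∀ i, t i ≠ 0) → ∑ m ∈ s, (m.prod fun i k => t i ^ k) • f m ∈ N) :
    ∀ m ∈ s, f m ∈ N := by
  classical
  intro m hm
  by_contra hk
  obtain ⟨l, hl1, hl2⟩ := Submodule.exists_le_ker_of_notMem hk
  set r : MvPolynomial σ ℂ := ∑ i ∈ s, monomial i (l (f i)) with hr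
  have hr0 : r = 0 := by
    apply MvPolynomial.funext_set (fun _ : σ => ({0}ᶜ : Set ℂ))
      (fun _ => (Set.finite_singleton (0 : ℂ)).infinite_compl)
    intro t ht
    rw [map_zero]
    have ht0 : ∀ i, t i ≠ 0 := fun i => ht i (Set.mem_univ i)
    have h1 := hl2 (h t ht0)
    rw [LinearMap.mem_ker, map_sum] at h1
    rw [hr, map_sum, ← h1]
    apply Finset.sum_congr rfl
    intro i _
    rw [eval_monomial, map_smul, smul_eq_mul, mul_comm]
  have h2 : r.coeff m = l (f m) := by
    rw [hr, coeff_sum]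
    simp only [coeff_monomial]
    rw [Finset.sum_ite_eq', if_pos hm]
  rw [hr0, coeff_zero] at h2
  exact hl1 h2.symm

theorem vand_poly {S : Type} [CommRing S] [Algebra ℂ S] (N : Submodule ℂ S) (P : Polynomial S)
    (h : {t : ℂ | P.eval (algebraMap ℂ S t) ∈ N}.Infinite) (k : ℕ) : P.coeff k ∈ N := by
  by_cases hk : k < P.natDegree + 1
  · refine vand1 N (P.natDegree + 1) P.coeff (h.mono ?_) k hk
    intro t ht
    simp only [Set.mem_ofPred_eq] at ht ⊢
    rw [Polynomial.eval_eq_sum_range] at ht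
    have e : ∑ k ∈ Finset.range (P.natDegree + 1), t ^ k • P.coeff k =
        ∑ i ∈ Finset.range (P.natDegree + 1), P.coeff i * (algebraMap ℂ S t) ^ i := by
      apply Finset.sum_congr rfl
      intro i _
      rw [← map_pow, mul_comm (P.coeff i), ← Algebra.smul_def]
    rw [e]
    exact ht
  · rw [Polynomial.coeff_eq_zero_of_natDegree_lt (by omega)]
    exact N.zero_mem

theorem vand_mvpoly {S σ : Type} [CommRing S] [Algebra ℂ S] (N : Submodule ℂ S)
    (P : MvPolynomial σ S)
    (h : ∀ t : σ → ℂ, (∀ i, t i ≠ 0) → eval (fun i => algebraMap ℂ S (t i)) P ∈ N)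
    (m : σ →₀ ℕ) : P.coeff m ∈ N := by
  by_cases hm : m ∈ P.support
  · refine vandM N P.support (fun m => P.coeff m) ?_ m hm
    intro t ht
    have h1 := h t ht
    rw [eval_eq] at h1
    have e : ∑ m ∈ P.support, (m.prod fun i k => t i ^ k) • P.coeff m =
        ∑ d ∈ P.support, coeff d P * ∏ i ∈ d.support, (algebraMap ℂ S (t i)) ^ d i := by
      apply Finset.sum_congr rfl
      intro d _
      rw [mul_comm (coeff d P), Algebra.smul_def, Finsupp.prod, map_prod]
      congr 1
      apply Finset.prod_congr rfl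
      intro i _
      rw [map_pow]
    rw [e]
    exact h1
  · rw [notMem_support_iff.1 hm]
    exact N.zero_mem

end MP50e386N
end

section
/-! Basic facts about the substitutions. -/

namespace MP50e386N

open MvPolynomial Pool.Agent.Lib.MP50e386

variable {R : Type} [CommRing R] [Algebra ℂ R] [GLRing R]

theorem xf_single (i j : ℕ) (a b : R) :
    xf (Finsupp.single i a) (Finsupp.single j b) = a * b * (GLRing.x i j : R) := by
  simp only [xf, Finsupp.linearCombination_single, LinearMap.smul_apply, smul_eq_mul, mul_assoc]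

theorem xf_comm (y y' : VR R) : xf y y' = xf y' y := by
  induction y using Finsupp.induction_linear with
  | zero => simp
  | add f g hf hg => simp only [map_add, LinearMap.add_apply, hf, hg]
  | single i a =>
    induction y' using Finsupp.induction_linear with
    | zero => simp
    | add f g hf hg => simp only [map_add, LinearMap.add_apply, hf, hg]
    | single j b =>
      rw [xf_single, xf_single, GLRing.x_symm i j, mul_comm a b]

private theorem T2_cst_single (i : ℕ) (a : ℂ) : (cst (Finsupp.single i a) : VR R) =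
    Finsupp.single i (algebraMap ℂ R a) := by
  simp [cst]

theorem xv_ee (i j : ℕ) : (xv (ee i) (ee j) : R) = GLRing.x i j := by
  simp only [xv, ee, T2_cst_single, map_one, xf_single, one_mul]

theorem xv_comm (v w : V) : (xv v w : R) = xv w v := xf_comm _ _

theorem zf_single (a i : ℕ) (c : R) : zf a (Finsupp.single i c) = c • (X (a, i) : U R) := by
  simp only [zf, Finsupp.linearCombination_single]

private theorem T2_xf_eq_sum (y y' : VR R) : (xf y y' : R) =
    y.sum fun k a => y'.sum fun l b => a * b * GLRing.x k l := by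
  simp only [xf, Finsupp.linearCombination_apply, Finsupp.sum, LinearMap.sum_apply,
    LinearMap.smul_apply, smul_eq_mul, Finset.mul_sum, mul_assoc]

theorem sb_x' (ψ : ℕ → VR R) (i j : ℕ) : GLRing.sb ψ (GLRing.x i j : R) = xf (ψ i) (ψ j) := by
  rw [GLRing.sb_x, T2_xf_eq_sum]

theorem actR_add (ψ : ℕ → VR R) (y y' : VR R) : actR ψ (y + y') = actR ψ y + actR ψ y' := by
  unfold actR
  refine Finsupp.sum_add_index' ?_ ?_
  · intro i; rw [map_zero, zero_smul]
  · intro i a b; rw [map_add, add_smul]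

private theorem T2_actR_zero (ψ : ℕ → VR R) : actR ψ (0 : VR R) = 0 := by
  unfold actR; exact Finsupp.sum_zero_index

private theorem T2_actR_single (ψ : ℕ → VR R) (i : ℕ) (a : R) :
    actR ψ (Finsupp.single i a) = GLRing.sb ψ a • ψ i := by
  unfold actR
  rw [Finsupp.sum_single_index]
  rw [map_zero, zero_smul]

theorem actR_smul (ψ : ℕ → VR R) (c : R) (y : VR R) :
    actR ψ (c • y) = GLRing.sb ψ c • actR ψ y := by
  induction y using Finsupp.induction_linear with
  | zero => rw [smul_zero, T2_actR_zero, smul_zero]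
  | add f g hf hg => rw [smul_add, actR_add, hf, hg, actR_add, smul_add]
  | single i a =>
    rw [Finsupp.smul_single, smul_eq_mul, T2_actR_single, T2_actR_single, map_mul, mul_smul]

theorem sb_xf (ψ : ℕ → VR R) (y y' : VR R) :
    GLRing.sb ψ (xf y y' : R) = xf (actR ψ y) (actR ψ y') := by
  induction y using Finsupp.induction_linear with
  | zero => simp [T2_actR_zero]
  | add f g hf hg => simp only [map_add, LinearMap.add_apply, hf, hg, actR_add]
  | single i a =>
    induction y' using Finsupp.induction_linear with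
    | zero => simp [T2_actR_zero]
    | add f g hf hg => simp only [map_add, hf, hg, actR_add]
    | single j b =>
      rw [xf_single, map_mul, map_mul, sb_x', T2_actR_single, T2_actR_single, map_smul, map_smul,
        LinearMap.smul_apply, smul_eq_mul, smul_eq_mul]
      ring

theorem sbU_zf (ψ : ℕ → VR R) (a : ℕ) (y : VR R) : sbU ψ (zf a y) = zf a (actR ψ y) := by
  induction y using Finsupp.induction_linear with
  | zero => simp [T2_actR_zero]
  | add f g hf hg => simp only [map_add, hf, hg, actR_add]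
  | single i c =>
    rw [zf_single, sbU_smul, sbU_X, T2_actR_single, map_smul]

theorem actR_cst (ψ : ℕ → VR R) (v : V) : actR ψ (cst v) = linR ψ v := by
  induction v using Finsupp.induction_linear with
  | zero => simp [T2_actR_zero]
  | add f g hf hg => simp only [map_add, hf, hg, actR_add]
  | single i c =>
    rw [T2_cst_single, T2_actR_single, AlgHom.commutes, linR, Finsupp.linearCombination_single,
      algebraMap_smul]

theorem linR_cst (φ : ℕ → V) (v : V) :
    linR (R := R) (fun i => cst (φ i)) v = cst (linC φ v) := by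
  induction v using Finsupp.induction_linear with
  | zero => simp
  | add f g hf hg => simp only [map_add, hf, hg]
  | single i c =>
    rw [linR, linC, Finsupp.linearCombination_single, Finsupp.linearCombination_single, map_smul]

theorem linC_ee (φ : ℕ → V) (i : ℕ) : linC φ (ee i) = φ i := by
  rw [linC, Finsupp.linearCombination_single, one_smul]

theorem linC_id (v : V) : linC ee v = v := by
  induction v using Finsupp.induction_linear with
  | zero => simp
  | add f g hf hg => simp only [map_add, hf, hg]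
  | single i c =>
    rw [linC, Finsupp.linearCombination_single, Finsupp.smul_single, smul_eq_mul, mul_one]

theorem sb_x_cst (φ : ℕ → V) (v w : V) : sbR φ (xv v w : R) = xv (linC φ v) (linC φ w) := by
  unfold sbR xv
  rw [sb_xf, actR_cst, actR_cst, linR_cst, linR_cst]

/-- substitutions are determined by generators -/
theorem sb_ext {S : Type} [Semiring S] (g g' : R →+* S) (hC : ∀ c : ℂ, g (algebraMap ℂ R c) =
    g' (algebraMap ℂ R c)) (h : ∀ i j, g (GLRing.x i j) = g' (GLRing.x i j)) : g = g' := by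
  ext a
  have ha : a ∈ Algebra.adjoin ℂ (Set.range fun p : ℕ × ℕ => (GLRing.x p.1 p.2 : R)) := by
    rw [GLRing.gen]; trivial
  induction ha using Algebra.adjoin_induction with
  | mem x hx =>
    obtain ⟨p, rfl⟩ := hx
    exact h _ _
  | algebraMap r => exact hC r
  | add x y _ _ hx hy => rw [map_add, map_add, hx, hy]
  | mul x y _ _ hx hy => rw [map_mul, map_mul, hx, hy]

theorem U_ext {S : Type} [Semiring S] (g g' : U R →+* S)
    (hC : ∀ c : ℂ, g (C (algebraMap ℂ R c)) = g' (C (algebraMap ℂ R c)))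
    (h : ∀ i j, g (C (GLRing.x i j)) = g' (C (GLRing.x i j)))
    (hX : ∀ a i, g (X (a, i)) = g' (X (a, i))) : g = g' := by
  apply MvPolynomial.ringHom_ext
  · intro r
    have := sb_ext (g.comp C) (g'.comp C) hC h
    exact DFunLike.congr_fun this r
  · intro p
    exact hX p.1 p.2

private theorem T2_actR_actR (ψ ψ' : ℕ → VR R) (h : ∀ a : R, GLRing.sb ψ (GLRing.sb ψ' a) =
    GLRing.sb (fun i => actR ψ (ψ' i)) a) (y : VR R) :
    actR ψ (actR ψ' y) = actR (fun i => actR ψ (ψ' i)) y := by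
  induction y using Finsupp.induction_linear with
  | zero => simp [T2_actR_zero]
  | add f g hf hg => simp only [hf, hg, actR_add]
  | single i c => rw [T2_actR_single, actR_smul, h, T2_actR_single]

theorem sb_sb (ψ ψ' : ℕ → VR R) (a : R) :
    GLRing.sb ψ (GLRing.sb ψ' a) = GLRing.sb (fun i => actR ψ (ψ' i)) a := by
  have := sb_ext (((GLRing.sb ψ : R →ₐ[ℂ] R) : R →+* R).comp ((GLRing.sb ψ' : R →ₐ[ℂ] R) : R →+* R))
    ((GLRing.sb (fun i => actR ψ (ψ' i)) : R →ₐ[ℂ] R) : R →+* R) (by
      intro c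
      simp) (by
      intro i j
      simp only [RingHom.comp_apply, RingHom.coe_coe, sb_x', sb_xf])
  exact DFunLike.congr_fun this a

theorem sbU_sbU (ψ ψ' : ℕ → VR R) (f : U R) :
    sbU ψ (sbU ψ' f) = sbU (fun i => actR ψ (ψ' i)) f := by
  have := U_ext ((sbU ψ).comp (sbU ψ')) (sbU (fun i => actR ψ (ψ' i))) (by
      intro c
      simp only [RingHom.comp_apply, sbU_C, sb_sb]) (by
      intro i j
      simp only [RingHom.comp_apply, sbU_C, sb_sb]) (by
      intro a i
      simp only [RingHom.comp_apply, sbU_X, sbU_zf])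
  exact DFunLike.congr_fun this f

theorem sbC_sbC (φ φ' : ℕ → V) (f : U R) :
    sbC φ (sbC φ' f) = sbC (fun i => linC φ (φ' i)) f := by
  unfold sbC
  rw [sbU_sbU]
  simp only [actR_cst, linR_cst]

theorem sbR_sbR (φ φ' : ℕ → V) (a : R) :
    sbR φ (sbR φ' a) = sbR (fun i => linC φ (φ' i)) a := by
  unfold sbR
  rw [sb_sb]
  simp only [actR_cst, linR_cst]

private theorem T2_sb_id (a : R) : GLRing.sb (fun i => (Finsupp.single i 1 : VR R)) a = a := by
  have := sb_ext ((GLRing.sb (fun i => (Finsupp.single i 1 : VR R)) : R →ₐ[ℂ] R) : R →+* R)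
    (RingHom.id R) (by intro c; simp) (by
      intro i j
      simp only [RingHom.coe_coe, RingHom.id_apply, sb_x', xf_single, one_mul])
  exact DFunLike.congr_fun this a

theorem sbU_id (f : U R) : sbU (fun i => Finsupp.single i 1) f = f := by
  have := U_ext (sbU (fun i => (Finsupp.single i 1 : VR R))) (RingHom.id (U R)) (by
      intro c
      rw [sbU_C, T2_sb_id]; rfl) (by
      intro i j
      rw [sbU_C, T2_sb_id]; rfl) (by
      intro a i
      rw [sbU_X, zf_single, one_smul]; rfl)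
  exact DFunLike.congr_fun this f

private theorem T2_cst_ee (i : ℕ) : (cst (ee i) : VR R) = Finsupp.single i 1 := by
  rw [ee, T2_cst_single, map_one]

theorem sbC_id (f : U R) : sbC ee f = f := by
  unfold sbC
  simp only [T2_cst_ee]
  exact sbU_id f

theorem sbR_id (a : R) : sbR ee a = a := by
  unfold sbR
  simp only [T2_cst_ee]
  exact T2_sb_id a

theorem sbC_C (φ : ℕ → V) (a : R) : sbC φ (C a : U R) = C (sbR φ a) := sbU_C _ _

theorem sbC_X (φ : ℕ → V) (a i : ℕ) : sbC φ (X (a, i) : U R) = zf a (cst (φ i)) := sbU_X _ _ _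

theorem sbU_smulC (ψ : ℕ → VR R) (c : ℂ) (f : U R) : sbU ψ (c • f) = c • sbU ψ f := by
  rw [← algebraMap_smul R c f, sbU_smul, AlgHom.commutes, algebraMap_smul]

theorem sbC_smulC (φ : ℕ → V) (c : ℂ) (f : U R) : sbC φ (c • f) = c • sbC φ f := sbU_smulC _ _ _

/-- a submodule over `R` is closed under complex scalars -/
theorem smulC_mem (N : Submodule R (U R)) (c : ℂ) {f : U R} (hf : f ∈ N) : c • f ∈ N := by
  rw [← algebraMap_smul R c f]
  exact N.smul_mem _ hf

private theorem T2_sdeg_add (a : ℕ) (m m' : ℕ × ℕ →₀ ℕ) :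
    sdeg a (m + m') = sdeg a m + sdeg a m' := by
  unfold sdeg
  refine Finsupp.sum_add_index' ?_ ?_
  · intro p; simp
  · intro p b c; split_ifs <;> simp

private theorem T2_sdeg_zero (a : ℕ) : sdeg a (0 : ℕ × ℕ →₀ ℕ) = 0 := by
  unfold sdeg; exact Finsupp.sum_zero_index

private theorem T2_sdeg_single (a : ℕ) (p : ℕ × ℕ) (k : ℕ) :
    sdeg a (Finsupp.single p k) = if p.1 = a then k else 0 := by
  unfold sdeg
  rw [Finsupp.sum_single_index]
  simp

private theorem T2_le_sdeg (m : ℕ × ℕ →₀ ℕ) (p : ℕ × ℕ) : m p ≤ sdeg p.1 m := by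
  by_cases hp : p ∈ m.support
  · unfold sdeg Finsupp.sum
    have := Finset.single_le_sum (f := fun q : ℕ × ℕ => if q.1 = p.1 then m q else 0)
      (fun q _ => Nat.zero_le _) hp
    simpa using this
  · rw [Finsupp.notMem_support_iff.1 hp]
    exact Nat.zero_le _

private theorem T2_exists_of_sdeg (m : ℕ × ℕ →₀ ℕ) (a : ℕ) (h : sdeg a m ≠ 0) :
    ∃ p ∈ m.support, p.1 = a := by
  by_contra hcon
  push Not at hcon
  apply h
  unfold sdeg Finsupp.sum
  exact Finset.sum_eq_zero fun p hp => if_neg (hcon p hp)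

private theorem T2_degree_eq (m : ℕ × ℕ →₀ ℕ) (L : ℕ) (h : ∀ p ∈ m.support, p.1 < L) :
    m.degree = ∑ a ∈ Finset.range L, sdeg a m := by
  unfold sdeg Finsupp.sum
  rw [Finset.sum_comm, Finsupp.degree_apply]
  refine Finset.sum_congr rfl fun p hp => ?_
  rw [Finset.sum_ite_eq, if_pos (Finset.mem_range.2 (h p hp))]

private def T2_wt (d : ℕ → ℕ) : Set (ℕ × ℕ →₀ ℕ) := {m | ∀ a, sdeg a m = d a}

private theorem T2_mul_mem {d d' : ℕ → ℕ} {f g : U R} (hf : f ∈ restrictSupport R (T2_wt d))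
    (hg : g ∈ restrictSupport R (T2_wt d')) :
    f * g ∈ restrictSupport R (T2_wt (fun a => d a + d' a)) := by
  have h1 : f * g ∈ restrictSupport R (T2_wt d) * restrictSupport R (T2_wt d') :=
    Submodule.mul_mem_mul hf hg
  rw [← restrictSupport_add] at h1
  refine restrictSupport_mono R ?_ h1
  rintro _ ⟨m, hm, m', hm', rfl⟩ a
  change sdeg a (m + m') = d a + d' a
  rw [T2_sdeg_add, hm a, hm' a]

private theorem T2_one_mem : (1 : U R) ∈ restrictSupport R (T2_wt (fun _ => 0)) := by
  have : (1 : U R) = monomial 0 1 := rfl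
  rw [this]
  exact (monomial_mem_restrictSupport R).2 (Or.inl fun a => T2_sdeg_zero a)

private theorem T2_pow_mem {d : ℕ → ℕ} {f : U R} (hf : f ∈ restrictSupport R (T2_wt d)) (k : ℕ) :
    f ^ k ∈ restrictSupport R (T2_wt (fun a => k * d a)) := by
  induction k with
  | zero =>
    simp only [pow_zero, zero_mul]
    exact T2_one_mem
  | succ k ih =>
    have := T2_mul_mem ih hf
    rw [pow_succ]
    simp only [Nat.succ_mul]
    exact this

private theorem T2_zf_mem (a : ℕ) (y : VR R) :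
    zf a y ∈ restrictSupport R (T2_wt (fun b => if a = b then 1 else 0)) := by
  induction y using Finsupp.induction_linear with
  | zero => rw [map_zero]; exact Submodule.zero_mem _
  | add f g hf hg => rw [map_add]; exact Submodule.add_mem _ hf hg
  | single i c =>
    rw [zf_single]
    refine Submodule.smul_mem _ _ ?_
    have : (X (a, i) : U R) = monomial (Finsupp.single (a, i) 1) 1 := rfl
    rw [this]
    exact (monomial_mem_restrictSupport R).2 (Or.inl fun b => T2_sdeg_single b (a, i) 1)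

private theorem T2_prod_mem (ψ : ℕ → VR R) (m : ℕ × ℕ →₀ ℕ) :
    (m.prod fun p k => (zf p.1 (ψ p.2) : U R) ^ k) ∈
      restrictSupport R (T2_wt (fun a => sdeg a m)) := by
  induction m using Finsupp.induction_linear with
  | zero =>
    rw [Finsupp.prod_zero_index]
    simp only [T2_sdeg_zero]
    exact T2_one_mem
  | add f g hf hg =>
    rw [Finsupp.prod_add_index' (fun p => pow_zero _) (fun p b c => pow_add _ _ _)]
    simp only [T2_sdeg_add]
    exact T2_mul_mem hf hg
  | single p k =>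
    have he : ((Finsupp.single p k).prod fun p k => (zf p.1 (ψ p.2) : U R) ^ k) =
        (zf p.1 (ψ p.2) : U R) ^ k := Finsupp.prod_single_index (pow_zero _)
    rw [he]
    have := T2_pow_mem (T2_zf_mem p.1 (ψ p.2)) k
    simp only [T2_sdeg_single]
    simpa only [mul_ite, mul_one, mul_zero] using this

private theorem T2_main (ψ : ℕ → VR R) (Q : Set (ℕ × ℕ →₀ ℕ))
    (hQ : ∀ m ∈ Q, ∀ m', (∀ a, sdeg a m' = sdeg a m) → m' ∈ Q) (f : U R)
    (hf : f ∈ restrictSupport R Q) : sbU ψ f ∈ restrictSupport R Q := by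
  rw [f.as_sum, map_sum]
  refine Submodule.sum_mem _ fun m hm => ?_
  have hmQ : m ∈ Q := hf hm
  have h1 : sbU ψ (monomial m (coeff m f)) =
      GLRing.sb ψ (coeff m f) • (m.prod fun p k => (zf p.1 (ψ p.2) : U R) ^ k) := by
    rw [smul_eq_C_mul]
    unfold sbU
    rw [coe_eval₂Hom, eval₂_monomial]
    rfl
  rw [h1]
  refine Submodule.smul_mem _ _ (restrictSupport_mono R ?_ (T2_prod_mem ψ m))
  intro m' hm'
  exact hQ m hmQ m' hm'

theorem sbU_MS (ψ : ℕ → VR R) (S : Finset ℕ) (f : U R) (hf : f ∈ MS R S) :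
    sbU ψ f ∈ MS R S := by
  refine T2_main ψ _ ?_ f hf
  intro m hm m' h a
  rw [h a]
  exact hm a

theorem sbU_BD (ψ : ℕ → VR R) (L D : ℕ) (f : U R) (hf : f ∈ BD R L D) :
    sbU ψ f ∈ BD R L D := by
  refine T2_main ψ _ ?_ f hf
  rintro m ⟨hm1, hm2⟩ m' h
  have h1 : ∀ p ∈ m'.support, p.1 < L := by
    intro p hp
    have h2 := T2_le_sdeg m' p
    have h3 : m' p ≠ 0 := Finsupp.mem_support_iff.1 hp
    rw [h p.1] at h2
    obtain ⟨q, hq, hq1⟩ := T2_exists_of_sdeg m p.1 (by omega)
    rw [← hq1]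
    exact hm1 q hq
  refine ⟨h1, ?_⟩
  rw [T2_degree_eq m' L h1]
  rw [T2_degree_eq m L hm1] at hm2
  simp only [h]
  exact hm2

theorem GLS_MS (S : Finset ℕ) : GLS (MS R S) := fun _ f hf => sbU_MS _ S f hf

theorem GLS_BD (L D : ℕ) : GLS (BD R L D) := fun _ f hf => sbU_BD _ L D f hf

theorem MS_le_BD (S : Finset ℕ) (L : ℕ) (hL : ∀ a ∈ S, a < L) : MS R S ≤ BD R L S.card := by
  refine restrictSupport_mono R ?_
  intro m hm
  have h1 : ∀ p ∈ m.support, p.1 < L := by
    intro p hp
    have h2 := T2_le_sdeg m p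
    have h3 : m p ≠ 0 := Finsupp.mem_support_iff.1 hp
    rw [hm p.1] at h2
    by_contra hcon
    have : p.1 ∉ S := fun h => hcon (hL _ h)
    rw [if_neg this] at h2
    omega
  refine ⟨h1, ?_⟩
  rw [T2_degree_eq m L h1]
  simp only [show ∀ a, sdeg a m = if a ∈ S then 1 else 0 from hm]
  rw [Finset.sum_ite_mem, Finset.sum_const, smul_eq_mul, mul_one]
  exact Finset.card_le_card Finset.inter_subset_right

/-! stability for one substitution -/

private theorem T2_sup (φ : ℕ → V) {N N' : Submodule R (U R)} (h : ∀ f ∈ N, sbC φ f ∈ N)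
    (h' : ∀ f ∈ N', sbC φ f ∈ N') : ∀ f ∈ N ⊔ N', sbC φ f ∈ N ⊔ N' := by
  intro f hf
  obtain ⟨a, ha, b, hb, rfl⟩ := Submodule.mem_sup.1 hf
  rw [map_add]
  exact Submodule.add_mem_sup (h a ha) (h' b hb)

private theorem T2_smul (φ : ℕ → V) {I : Ideal R} {N : Submodule R (U R)}
    (h : ∀ f ∈ I, sbR φ f ∈ I)
    (h' : ∀ f ∈ N, sbC φ f ∈ N) : ∀ f ∈ I • N, sbC φ f ∈ I • N := by
  intro f hf
  refine Submodule.smul_induction_on hf ?_ ?_
  · intro r hr n hn
    rw [sbC_smul]
    exact Submodule.smul_mem_smul (h r hr) (h' n hn)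
  · intro x y hx hy
    rw [map_add]
    exact Submodule.add_mem _ hx hy

private theorem T2_mul (φ : ℕ → V) {I I' : Ideal R} (h : ∀ f ∈ I, sbR φ f ∈ I)
    (h' : ∀ f ∈ I', sbR φ f ∈ I') : ∀ f ∈ I * I', sbR φ f ∈ I * I' := by
  intro f hf
  refine Submodule.mul_induction_on hf ?_ ?_
  · intro r hr n hn
    rw [map_mul]
    exact Ideal.mul_mem_mul (h r hr) (h' n hn)
  · intro x y hx hy
    rw [map_add]
    exact Ideal.add_mem _ hx hy

private theorem T2_pow (φ : ℕ → V) {I : Ideal R} (h : ∀ f ∈ I, sbR φ f ∈ I) (n : ℕ) :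
    ∀ f ∈ I ^ n, sbR φ f ∈ I ^ n := by
  induction n with
  | zero =>
    intro f _
    rw [pow_zero, Ideal.one_eq_top]
    trivial
  | succ n ih =>
    rw [pow_succ]
    exact T2_mul φ ih h

private theorem T2_span (φ : ℕ → V) (s : Set (U R))
    (h : ∀ f ∈ s, sbC φ f ∈ Submodule.span R s) :
    ∀ f ∈ Submodule.span R s, sbC φ f ∈ Submodule.span R s := by
  intro f hf
  induction hf using Submodule.span_induction with
  | mem x hx => exact h x hx
  | zero => rw [map_zero]; exact Submodule.zero_mem _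
  | add x y _ _ hx hy => rw [map_add]; exact Submodule.add_mem _ hx hy
  | smul a x _ hx => rw [sbC_smul]; exact Submodule.smul_mem _ _ hx

theorem GLS.sup {N N' : Submodule R (U R)} (h : GLS N) (h' : GLS N') : GLS (N ⊔ N') :=
  fun φ => T2_sup φ (h φ) (h' φ)

theorem GLS.inf {N N' : Submodule R (U R)} (h : GLS N) (h' : GLS N') : GLS (N ⊓ N') :=
  fun φ f hf => ⟨h φ f hf.1, h' φ f hf.2⟩

theorem GLS.smul {I : Ideal R} {N : Submodule R (U R)} (hI : GLSI I) (h : GLS N) :
    GLS (I • N) := fun φ => T2_smul φ (hI φ) (h φ)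

theorem GLSI.pow {I : Ideal R} (hI : GLSI I) (n : ℕ) : GLSI (I ^ n) :=
  fun φ => T2_pow φ (hI φ) n

theorem GLSI.mul {I I' : Ideal R} (hI : GLSI I) (hI' : GLSI I') : GLSI (I * I') :=
  fun φ => T2_mul φ (hI φ) (hI' φ)

theorem GS.sup {N N' : Submodule R (U R)} (h : GS N) (h' : GS N') : GS (N ⊔ N') :=
  fun g hg c hc => T2_sup _ (h g hg c hc) (h' g hg c hc)

theorem GS.inf {N N' : Submodule R (U R)} (h : GS N) (h' : GS N') : GS (N ⊓ N') :=
  fun g hg c hc f hf => ⟨h g hg c hc f hf.1, h' g hg c hc f hf.2⟩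

theorem GS.smul {I : Ideal R} {N : Submodule R (U R)} (hI : GSI I) (h : GS N) :
    GS (I • N) := fun g hg c hc => T2_smul _ (hI g hg c hc) (h g hg c hc)

theorem GLS.gs {N : Submodule R (U R)} (h : GLS N) : GS N := fun _ _ _ _ => h _

theorem GLSI.gsi {I : Ideal R} (h : GLSI I) : GSI I := fun _ _ _ _ => h _

/-- stability of a span -/
theorem GLS_span (s : Set (U R)) (h : ∀ φ : ℕ → V, ∀ f ∈ s, sbC φ f ∈ Submodule.span R s) :
    GLS (Submodule.span R s) := fun φ => T2_span φ s (h φ)

theorem GS_span (s : Set (U R)) (h : ∀ g : Cinf ≃ₗ[ℂ] Cinf, IsSp g → ∀ c : ℂ, c ≠ 0 → ∀ f ∈ s,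
    sbC (fun i => c • g (ee i)) f ∈ Submodule.span R s) : GS (Submodule.span R s) :=
  fun g hg c hc => T2_span _ s (h g hg c hc)

/-- ideals as submodules -/
theorem C_mem_ofI (I : Ideal R) (a : R) : (C a : U R) ∈ ofI I ↔ a ∈ I := by
  unfold ofI
  rw [Submodule.mem_map]
  constructor
  · rintro ⟨b, hb, hab⟩
    have : b = a := C_injective _ _ hab
    exact this ▸ hb
  · intro ha
    exact ⟨a, ha, rfl⟩

theorem mem_ofI (I : Ideal R) (f : U R) : f ∈ ofI I ↔ ∃ a ∈ I, f = C a := by
  unfold ofI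
  rw [Submodule.mem_map]
  constructor
  · rintro ⟨b, hb, hab⟩
    exact ⟨b, hb, hab.symm⟩
  · rintro ⟨a, ha, rfl⟩
    exact ⟨a, ha, rfl⟩

theorem ofI_le (I I' : Ideal R) : ofI I ≤ ofI I' ↔ I ≤ I' := by
  constructor
  · intro h a ha
    exact (C_mem_ofI I' a).1 (h ((C_mem_ofI I a).2 ha))
  · intro h
    exact Submodule.map_mono h

theorem ofI_smul (I I' : Ideal R) : I • ofI I' = ofI (I * I') := by
  unfold ofI
  rw [← smul_eq_mul, Submodule.map_smul'']

theorem GLS_ofI (I : Ideal R) : GLS (ofI I) ↔ GLSI I := by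
  constructor
  · intro h φ a ha
    have := h φ (C a) ((C_mem_ofI I a).2 ha)
    rw [sbC_C] at this
    exact (C_mem_ofI I _).1 this
  · intro h φ f hf
    obtain ⟨a, ha, rfl⟩ := (mem_ofI I f).1 hf
    rw [sbC_C]
    exact (C_mem_ofI I _).2 (h φ a ha)

theorem GS_ofI (I : Ideal R) : GS (ofI I) ↔ GSI I := by
  constructor
  · intro h g hg c hc a ha
    have := h g hg c hc (C a) ((C_mem_ofI I a).2 ha)
    rw [sbC_C] at this
    exact (C_mem_ofI I _).1 this
  · intro h g hg c hc f hf
    obtain ⟨a, ha, rfl⟩ := (mem_ofI I f).1 hf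
    rw [sbC_C]
    exact (C_mem_ofI I _).2 (h g hg c hc a ha)

private theorem T2_eq_C (f : U R) (h : ∀ m ∈ f.support, m = 0) : f = C (coeff 0 f) := by
  ext m
  rw [coeff_C]
  split_ifs with h0
  · rw [h0]
  · by_contra hne
    exact h0 (h m (mem_support_iff.2 hne)).symm

theorem MS_empty : MS R ∅ = ofI (⊤ : Ideal R) := by
  ext f
  constructor
  · intro hf
    rw [mem_ofI]
    refine ⟨coeff 0 f, trivial, T2_eq_C f fun m hm => ?_⟩
    have h1 := hf hm
    ext p
    have h2 := T2_le_sdeg m p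
    have h3 := h1 p.1
    simp only [Finset.notMem_empty, if_false] at h3
    rw [h3] at h2
    simpa using h2
  · intro hf
    obtain ⟨a, -, rfl⟩ := (mem_ofI _ f).1 hf
    have : (C a : U R) = monomial 0 a := rfl
    rw [this]
    refine (monomial_mem_restrictSupport R).2 (Or.inl fun b => ?_)
    rw [T2_sdeg_zero]
    simp

theorem BD_zero : BD R 0 0 = ofI (⊤ : Ideal R) := by
  ext f
  constructor
  · intro hf
    rw [mem_ofI]
    refine ⟨coeff 0 f, trivial, T2_eq_C f fun m hm => ?_⟩
    have h1 := (hf hm).2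
    exact (Finsupp.degree_eq_zero_iff m).1 (Nat.le_zero.1 h1)
  · intro hf
    obtain ⟨a, -, rfl⟩ := (mem_ofI _ f).1 hf
    have : (C a : U R) = monomial 0 a := rfl
    rw [this]
    refine (monomial_mem_restrictSupport R).2 (Or.inl ⟨?_, ?_⟩)
    · intro p hp
      simp at hp
    · simp

/-- submodules of `ofI ⊤` are ideals -/
theorem eq_ofI (N : Submodule R (U R)) (h : N ≤ ofI ⊤) : N = ofI (N.comap (Algebra.linearMap R (U R))) := by
  ext f
  constructor
  · intro hf
    obtain ⟨a, -, rfl⟩ := (mem_ofI _ f).1 (h hf)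
    rw [C_mem_ofI]
    exact hf
  · intro hf
    obtain ⟨a, ha, rfl⟩ := (mem_ofI _ f).1 hf
    exact ha

end MP50e386N
end

section
/-! Letters, and substitutions with coefficients in `R`, (rc). -/

namespace MP50e386N

open MvPolynomial Pool.Agent.Lib.MP50e386

variable {R : Type} [CommRing R] [Algebra ℂ R] [GLRing R]

theorem LT_mono {T T' : Set ℕ} (h : T ⊆ T') : LT R T ≤ LT R T' := by
  apply Algebra.adjoin_mono
  rintro f (⟨i, hi, j, hj, rfl⟩ | ⟨a, i, hi, rfl⟩)
  · exact Or.inl ⟨i, h hi, j, h hj, rfl⟩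
  · exact Or.inr ⟨a, i, h hi, rfl⟩

private theorem t3_C_mem (a : R) : (C a : U R) ∈ LT R Set.univ := by
  have h : a ∈ Algebra.adjoin ℂ (Set.range fun p : ℕ × ℕ => (GLRing.x p.1 p.2 : R)) := by
    rw [GLRing.gen]
    exact Algebra.mem_top
  induction h using Algebra.adjoin_induction with
  | mem x hx =>
    obtain ⟨p, rfl⟩ := hx
    exact Algebra.subset_adjoin (Or.inl ⟨p.1, trivial, p.2, trivial, rfl⟩)
  | algebraMap c => exact Subalgebra.algebraMap_mem (LT R Set.univ) c
  | add x y _ _ hx hy =>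
    rw [map_add]
    exact Subalgebra.add_mem _ hx hy
  | mul x y _ _ hx hy =>
    rw [map_mul]
    exact Subalgebra.mul_mem _ hx hy

theorem LT_univ : LT R Set.univ = ⊤ := by
  rw [eq_top_iff]
  intro f _
  induction f using MvPolynomial.induction_on with
  | C a => exact t3_C_mem a
  | add p q hp hq => exact Subalgebra.add_mem _ (hp trivial) (hq trivial)
  | mul_X p i hp =>
    exact Subalgebra.mul_mem _ (hp trivial)
      (Algebra.subset_adjoin (Or.inr ⟨i.1, i.2, trivial, rfl⟩))

theorem exists_LT (f : U R) : ∃ n, f ∈ LT R (Set.Iio n) := by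
  have h : f ∈ LT R Set.univ := by rw [LT_univ]; exact Algebra.mem_top
  unfold LT at h
  induction h using Algebra.adjoin_induction with
  | mem x hx =>
    rcases hx with ⟨i, -, j, -, rfl⟩ | ⟨a, i, -, rfl⟩
    · refine ⟨max i j + 1, Algebra.subset_adjoin (Or.inl ⟨i, ?_, j, ?_, rfl⟩)⟩
      · exact Nat.lt_succ_of_le (le_max_left _ _)
      · exact Nat.lt_succ_of_le (le_max_right _ _)
    · exact ⟨i + 1, Algebra.subset_adjoin (Or.inr ⟨a, i, Nat.lt_succ_self _, rfl⟩)⟩
  | algebraMap c => exact ⟨0, Subalgebra.algebraMap_mem _ c⟩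
  | add x y _ _ hx hy =>
    obtain ⟨n, hn⟩ := hx
    obtain ⟨m, hm⟩ := hy
    exact ⟨max n m, Subalgebra.add_mem _
      (LT_mono (Set.Iio_subset_Iio (le_max_left _ _)) hn)
      (LT_mono (Set.Iio_subset_Iio (le_max_right _ _)) hm)⟩
  | mul x y _ _ hx hy =>
    obtain ⟨n, hn⟩ := hx
    obtain ⟨m, hm⟩ := hy
    exact ⟨max n m, Subalgebra.mul_mem _
      (LT_mono (Set.Iio_subset_Iio (le_max_left _ _)) hn)
      (LT_mono (Set.Iio_subset_Iio (le_max_right _ _)) hm)⟩

private theorem t3_alg (ψ : ℕ → VR R) (c : ℂ) :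
    sbU ψ (algebraMap ℂ (U R) c) = algebraMap ℂ (U R) c := by
  have h : (algebraMap ℂ (U R) c) = C (algebraMap ℂ R c) := rfl
  rw [h, sbU_C, AlgHom.commutes]

theorem sbU_congr {T : Set ℕ} {f : U R} (hf : f ∈ LT R T) (ψ ψ' : ℕ → VR R)
    (h : ∀ i ∈ T, ψ i = ψ' i) : sbU ψ f = sbU ψ' f := by
  unfold LT at hf
  induction hf using Algebra.adjoin_induction with
  | mem x hx =>
    rcases hx with ⟨i, hi, j, hj, rfl⟩ | ⟨a, i, hi, rfl⟩
    · rw [sbU_C, sbU_C, GLRing.sb_x, GLRing.sb_x, h i hi, h j hj]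
    · rw [sbU_X, sbU_X, h i hi]
  | algebraMap c => rw [t3_alg, t3_alg]
  | add x y _ _ hx hy => rw [map_add, map_add, hx, hy]
  | mul x y _ _ hx hy => rw [map_mul, map_mul, hx, hy]

theorem sbC_congr {T : Set ℕ} {f : U R} (hf : f ∈ LT R T) (φ φ' : ℕ → V)
    (h : ∀ i ∈ T, φ i = φ' i) : sbC φ f = sbC φ' f :=
  sbU_congr hf _ _ fun i hi => by rw [h i hi]

private theorem t3_smul_mem {T' : Set ℕ} {f : U R} (hf : f ∈ LT R T') (c : ℂ) :
    (C (algebraMap ℂ R c) : U R) * f ∈ LT R T' :=
  Subalgebra.mul_mem _ (Subalgebra.algebraMap_mem (LT R T') c) hf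

omit [GLRing R] in
private theorem t3_cst_apply (v : V) (k : ℕ) : (cst v : VR R) k = algebraMap ℂ R (v k) := rfl

omit [GLRing R] in
private theorem t3_cst_supp {v : V} {k : ℕ} (hk : k ∈ (cst v : VR R).support) : v k ≠ 0 := by
  intro h0
  rw [Finsupp.mem_support_iff, t3_cst_apply, h0, map_zero] at hk
  exact hk rfl

theorem sbC_LT {T T' : Set ℕ} {f : U R} (hf : f ∈ LT R T) (φ : ℕ → V)
    (h : ∀ i ∈ T, ∀ j, φ i j ≠ 0 → j ∈ T') : sbC φ f ∈ LT R T' := by
  unfold LT at hf
  unfold sbC
  induction hf using Algebra.adjoin_induction with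
  | mem x hx =>
    rcases hx with ⟨i, hi, j, hj, rfl⟩ | ⟨a, i, hi, rfl⟩
    · rw [sbU_C, GLRing.sb_x]
      unfold Finsupp.sum
      rw [map_sum]
      refine Subalgebra.sum_mem _ fun k hk => ?_
      rw [map_sum]
      refine Subalgebra.sum_mem _ fun l hl => ?_
      beta_reduce
      rw [t3_cst_apply, t3_cst_apply, ← map_mul, map_mul C]
      exact t3_smul_mem (Algebra.subset_adjoin (Or.inl ⟨k, h i hi k (t3_cst_supp hk), l,
        h j hj l (t3_cst_supp hl), rfl⟩)) _
    · rw [sbU_X]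
      unfold zf
      rw [Finsupp.linearCombination_apply]
      unfold Finsupp.sum
      refine Subalgebra.sum_mem _ fun k hk => ?_
      beta_reduce
      rw [t3_cst_apply, smul_eq_C_mul]
      exact t3_smul_mem (Algebra.subset_adjoin (Or.inr ⟨a, k, h i hi k (t3_cst_supp hk), rfl⟩)) _
  | algebraMap c =>
    rw [t3_alg]
    exact Subalgebra.algebraMap_mem _ c
  | add x y _ _ hx hy =>
    rw [map_add]
    exact Subalgebra.add_mem _ hx hy
  | mul x y _ _ hx hy =>
    rw [map_mul]
    exact Subalgebra.mul_mem _ hx hy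

/-- the components of a polynomial family of substitutions -/
theorem exists_sbU_poly {σ : Type} (ψ : ℕ → VR (MvPolynomial σ R)) (f : U R) :
    ∃ P : MvPolynomial σ (U R), ∀ t : σ → R,
      sbU (fun i => (ψ i).mapRange (eval t) (map_zero _)) f = eval (fun i => C (t i)) P := by
  have h : f ∈ LT R Set.univ := by rw [LT_univ]; exact Algebra.mem_top
  unfold LT at h
  have key : ∀ (t : σ → R) (p : MvPolynomial σ R),
      eval (fun i => (C (t i) : U R)) (MvPolynomial.map (C : R →+* U R) p) = C (eval t p) := by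
    intro t p
    rw [eval_map]
    exact (eval₂_comp_left (C : R →+* U R) (RingHom.id R) t p).symm
  induction h using Algebra.adjoin_induction with
  | mem x hx =>
    rcases hx with ⟨i, -, j, -, rfl⟩ | ⟨a, i, -, rfl⟩
    · refine ⟨(ψ i).sum fun k p => (ψ j).sum fun l q =>
        MvPolynomial.map (C : R →+* U R) p * MvPolynomial.map (C : R →+* U R) q *
          C (C (GLRing.x k l)), fun t => ?_⟩
      rw [sbU_C, GLRing.sb_x, Finsupp.sum_mapRange_index (fun k => by simp)]
      unfold Finsupp.sum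
      rw [map_sum, map_sum]
      refine Finset.sum_congr rfl fun k _ => ?_
      have h2 : (Finsupp.mapRange (eval t) (map_zero _) (ψ j)).sum
          (fun l b => eval t (ψ i k) * b * (GLRing.x k l : R)) =
          (ψ j).sum fun l q => eval t (ψ i k) * eval t q * (GLRing.x k l : R) :=
        Finsupp.sum_mapRange_index (fun l => by simp)
      unfold Finsupp.sum at h2
      beta_reduce at h2 ⊢
      rw [h2, map_sum, map_sum]
      refine Finset.sum_congr rfl fun l _ => ?_
      rw [map_mul, map_mul, map_mul, map_mul, key, key, eval_C]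
    · refine ⟨(ψ i).sum fun k p => MvPolynomial.map (C : R →+* U R) p * C (X (a, k)),
        fun t => ?_⟩
      rw [sbU_X]
      unfold zf
      rw [Finsupp.linearCombination_apply, Finsupp.sum_mapRange_index (fun k => by simp)]
      unfold Finsupp.sum
      rw [map_sum]
      refine Finset.sum_congr rfl fun k _ => ?_
      beta_reduce
      rw [map_mul, key, eval_C, smul_eq_C_mul]
  | algebraMap c =>
    refine ⟨C (algebraMap ℂ (U R) c), fun t => ?_⟩
    rw [t3_alg, eval_C]
  | add x y _ _ hx hy =>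
    obtain ⟨P, hP⟩ := hx
    obtain ⟨Q, hQ⟩ := hy
    exact ⟨P + Q, fun t => by rw [map_add, map_add, hP, hQ]⟩
  | mul x y _ _ hx hy =>
    obtain ⟨P, hP⟩ := hx
    obtain ⟨Q, hQ⟩ := hy
    exact ⟨P * Q, fun t => by rw [map_mul, map_mul, hP, hQ]⟩

/-- (rc), general form -/
theorem rc_gen (W : Submodule ℂ V) (N : Submodule R (U R)) (f : U R)
    (h : ∀ φ : ℕ → V, (∀ i, φ i ∈ W) → sbC φ f ∈ N) (ψ : ℕ → VR R)
    (hψ : ∀ i, ψ i ∈ Submodule.span R ((fun v => (cst v : VR R)) '' (W : Set V))) :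
    sbU ψ f ∈ N := by
  have h1 : ∀ i, ∃ (n : ℕ) (r : Fin n → R) (v : Fin n → V), (∀ k, v k ∈ W) ∧
      ∑ k, r k • (cst (v k) : VR R) = ψ i := by
    intro i
    obtain ⟨n, r, g, hg⟩ := Submodule.mem_span_set'.1 (hψ i)
    choose v hv hvg using fun k => (g k).2
    refine ⟨n, r, v, hv, ?_⟩
    rw [← hg]
    exact Finset.sum_congr rfl fun k _ => by rw [← hvg k]
  choose n r v hv hr using h1
  let σ : Type := Σ i : ℕ, Fin (n i)
  let Ψ : ℕ → VR (MvPolynomial σ R) := fun i =>
    ∑ k, (X (⟨i, k⟩ : σ) : MvPolynomial σ R) •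
      (cst (v i k) : VR R).mapRange (C : R →+* MvPolynomial σ R) (map_zero _)
  have hΨ : ∀ (t : σ → R) (i : ℕ), (Ψ i).mapRange (eval t) (map_zero _) =
      ∑ k, t ⟨i, k⟩ • (cst (v i k) : VR R) := by
    intro t i
    ext l
    rw [Finsupp.mapRange_apply, Finsupp.finsetSum_apply, Finsupp.finsetSum_apply, map_sum]
    refine Finset.sum_congr rfl fun k _ => ?_
    rw [Finsupp.smul_apply, Finsupp.smul_apply, smul_eq_mul, smul_eq_mul, map_mul, eval_X,
      Finsupp.mapRange_apply, eval_C]
  obtain ⟨P, hP⟩ := exists_sbU_poly Ψ f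
  have hco : ∀ m, P.coeff m ∈ N := by
    intro m
    have := vand_mvpoly (N.restrictScalars ℂ) P (fun t _ => ?_) m
    · exact this
    · have h2 := hP (fun s => algebraMap ℂ R (t s))
      have h3 : (fun i => (algebraMap ℂ (U R)) (t i)) =
          fun i : σ => (C (algebraMap ℂ R (t i)) : U R) := rfl
      rw [h3, ← h2]
      have h4 : (fun i => (Ψ i).mapRange (eval fun s => algebraMap ℂ R (t s)) (map_zero _)) =
          fun i => cst (∑ k, t ⟨i, k⟩ • v i k) := by
        funext i
        rw [hΨ, map_sum]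
        refine Finset.sum_congr rfl fun k _ => ?_
        rw [map_smul, algebraMap_smul]
      rw [h4]
      exact h _ fun i => Submodule.sum_mem _ fun k _ => Submodule.smul_mem _ _ (hv i k)
  have h5 := hP (fun s => r s.1 s.2)
  have h6 : (fun i => (Ψ i).mapRange (eval fun s : σ => r s.1 s.2) (map_zero _)) = ψ := by
    funext i
    rw [hΨ]
    exact hr i
  rw [h6] at h5
  rw [h5, eval_eq]
  refine Submodule.sum_mem _ fun m _ => ?_
  have h7 : (∏ i ∈ m.support, (C (r i.1 i.2) : U R) ^ m i) =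
      C (∏ i ∈ m.support, r i.1 i.2 ^ m i) := by
    rw [map_prod]
    exact Finset.prod_congr rfl fun i _ => by rw [map_pow]
  rw [h7, mul_comm, ← smul_eq_C_mul]
  exact Submodule.smul_mem _ _ (hco m)

theorem rc {N : Submodule R (U R)} (hN : GLS N) {f : U R} (hf : f ∈ N) (ψ : ℕ → VR R) :
    sbU ψ f ∈ N := by
  refine rc_gen ⊤ N f (fun φ _ => hN φ f hf) ψ fun i => ?_
  have h1 : ψ i = (ψ i).sum fun k a => a • (cst (ee k) : VR R) := by
    conv_lhs => rw [← Finsupp.sum_single (ψ i)]
    refine Finsupp.sum_congr fun k _ => ?_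
    ext l
    rw [Finsupp.smul_apply, t3_cst_apply, smul_eq_mul]
    by_cases hkl : k = l
    · subst hkl
      simp [ee]
    · simp [ee, hkl]
  rw [h1]
  exact Submodule.sum_mem _ fun k _ => Submodule.smul_mem _ _
    (Submodule.subset_span ⟨ee k, trivial, rfl⟩)

theorem rcI {I : Ideal R} (hI : GLSI I) {a : R} (ha : a ∈ I) (ψ : ℕ → VR R) :
    GLRing.sb ψ a ∈ I := by
  have h := rc ((GLS_ofI I).2 hI) ((C_mem_ofI I a).2 ha) ψ
  rw [sbU_C] at h
  exact (C_mem_ofI I _).1 h

theorem rc_nn {M : Submodule R (U R)} {f : U R} (hf : f ∈ M) (W : Submodule ℂ V)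
    (hW : ∀ v ∈ W, ∀ w ∈ W, om v w = 0) (ψ : ℕ → VR R)
    (hψ : ∀ i, ψ i ∈ Submodule.span R ((fun v => (cst v : VR R)) '' (W : Set V))) :
    sbU ψ f ∈ nn M := by
  refine rc_gen W (nn M) f (fun φ hφ => ?_) ψ hψ
  exact Submodule.subset_span ⟨φ, fun i j => hW _ (hφ i) _ (hφ j), f, hf, rfl⟩

end MP50e386N
end
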