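import Mathlib
import Pool.Agent.Lib.MP_50e386_al.B.Ta

section
/-! Gram determinants and the key identity (KI), paper section 1. -/

namespace MP50e386N

open MvPolynomial Pool.Agent.Lib.MP50e386

/-! ### bordered determinants -/

private theorem Q1_bord_reg {S : Type} [CommRing S] {m : Type} [Fintype m] [DecidableEq m]
    (A : Matrix m m S) (B : Matrix m (Fin 1) S) (C' : Matrix (Fin 1) m S)
    (D : Matrix (Fin 1) (Fin 1) S) (hA : IsRegular A.det) :
    (Matrix.fromBlocks A B C' D).det = A.det * D 0 0 - (C' * A.adjugate * B) 0 0 := by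
  have h1 : Matrix.fromBlocks A B C' D *
      Matrix.fromBlocks 1 (-(A.adjugate * B)) 0 (A.det • (1 : Matrix (Fin 1) (Fin 1) S)) =
      Matrix.fromBlocks A 0 C' (A.det • D - C' * A.adjugate * B) := by
    rw [Matrix.fromBlocks_multiply]
    congr 1
    · simp
    · rw [Matrix.mul_neg, ← Matrix.mul_assoc, Matrix.mul_adjugate]
      simp
    · simp
    · rw [Matrix.mul_neg, ← Matrix.mul_assoc]
      simp only [Matrix.mul_smul, Matrix.mul_one]
      abel
  have h2 := congrArg Matrix.det h1
  rw [Matrix.det_mul, Matrix.det_fromBlocks_zero₂₁, Matrix.det_fromBlocks_zero₁₂] at h2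
  simp only [Matrix.det_one, one_mul, Matrix.det_fin_one, Matrix.smul_apply, Matrix.one_apply_eq,
    smul_eq_mul, mul_one, Matrix.sub_apply] at h2
  rw [mul_comm] at h2
  exact hA.left h2

private theorem Q1_bord {S : Type} [CommRing S] {m : Type} [Fintype m] [DecidableEq m]
    (A : Matrix m m S) (B : Matrix m (Fin 1) S) (C' : Matrix (Fin 1) m S)
    (D : Matrix (Fin 1) (Fin 1) S) :
    (Matrix.fromBlocks A B C' D).det = A.det * D 0 0 - (C' * A.adjugate * B) 0 0 := by
  set φ : Polynomial S →+* S := Polynomial.evalRingHom 0 with hφ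
  have hmap : ∀ {p q : Type} (N : Matrix p q S), (N.map Polynomial.C).map φ = N := by
    intro p q N
    ext i j
    simp [hφ]
  have hA : (Matrix.charmatrix (-A)).map φ = A := by
    ext i j
    by_cases hij : i = j
    · subst hij
      simp [hφ, Matrix.charmatrix_apply_eq]
    · simp [hφ, Matrix.charmatrix_apply_ne _ _ _ hij]
  have hreg : IsRegular (Matrix.charmatrix (-A)).det := by
    have := (Matrix.charpoly_monic (-A))
    exact this.isRegular
  have h1 := Q1_bord_reg (Matrix.charmatrix (-A)) (B.map Polynomial.C) (C'.map Polynomial.C)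
    (D.map Polynomial.C) hreg
  have h2 := congrArg φ h1
  rw [RingHom.map_det, RingHom.mapMatrix_apply, Matrix.fromBlocks_map, hA, hmap, hmap, hmap,
    map_sub, map_mul, RingHom.map_det, RingHom.mapMatrix_apply, hA] at h2
  rw [h2]
  congr 1
  · simp [hφ]
  · have h3 : φ ((C'.map Polynomial.C * (Matrix.charmatrix (-A)).adjugate *
        B.map Polynomial.C) 0 0) =
        ((C'.map Polynomial.C * (Matrix.charmatrix (-A)).adjugate *
          B.map Polynomial.C).map φ) 0 0 := rfl
    rw [h3, Matrix.map_mul, Matrix.map_mul, hmap, hmap]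
    have h4 : (Matrix.charmatrix (-A)).adjugate.map φ = A.adjugate := by
      have := φ.map_adjugate (Matrix.charmatrix (-A))
      rw [RingHom.mapMatrix_apply, RingHom.mapMatrix_apply, hA] at this
      exact this
    rw [h4]

variable {R : Type} [CommRing R] [Algebra ℂ R] [GLRing R]

/-! ### bilinearity -/

private theorem Q1_xv_eq (v w : V) : (xv v w : R) = xf (cst v) (cst w) := rfl

private theorem Q1_xf_smul_left (a : ℂ) (y y' : VR R) :
    (xf (a • y) y' : R) = algebraMap ℂ R a * xf y y' := by
  rw [← algebraMap_smul R a y, map_smul, LinearMap.smul_apply, smul_eq_mul]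

private theorem Q1_xf_smul_right (a : ℂ) (y y' : VR R) :
    (xf y (a • y') : R) = algebraMap ℂ R a * xf y y' := by
  rw [← algebraMap_smul R a y', map_smul, smul_eq_mul]

private theorem Q1_xv_add_left (v v' w : V) : (xv (v + v') w : R) = xv v w + xv v' w := by
  simp only [Q1_xv_eq, map_add, LinearMap.add_apply]

private theorem Q1_xv_smul_left (a : ℂ) (v w : V) :
    (xv (a • v) w : R) = algebraMap ℂ R a * xv v w := by
  rw [Q1_xv_eq, map_smul, Q1_xf_smul_left]
  rfl

private theorem Q1_xv_sum {r : ℕ} (a b : Fin r → ℂ) (v w : Fin r → V) :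
    (xv (∑ i, a i • v i) (∑ j, b j • w j) : R) =
      ∑ i, ∑ j, algebraMap ℂ R (a i) * xv (v i) (w j) * algebraMap ℂ R (b j) := by
  rw [Q1_xv_eq, map_sum, map_sum, map_sum, LinearMap.sum_apply]
  refine Finset.sum_congr rfl fun i _ => ?_
  rw [map_sum]
  refine Finset.sum_congr rfl fun j _ => ?_
  rw [map_smul (cst : V →ₗ[ℂ] VR R), map_smul (cst : V →ₗ[ℂ] VR R), Q1_xf_smul_left,
    Q1_xf_smul_right, Q1_xv_eq]
  ring

theorem Dl_zero (v : Fin 0 → V) : (Dl v : R) = 1 := by
  unfold Dl
  exact Matrix.det_isEmpty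

theorem sbR_Dl {r : ℕ} (φ : ℕ → V) (v : Fin r → V) :
    sbR φ (Dl v : R) = Dl (fun i => linC φ (v i)) := by
  unfold Dl
  rw [AlgHom.map_det]
  congr 1
  ext i j
  exact sb_x_cst φ (v i) (v j)

private theorem Q1_sbR_Dl1 {r : ℕ} (φ : ℕ → V) (v : Fin r → V) (c : V) :
    sbR φ (Dl1 v c : R) = Dl1 (fun i => linC φ (v i)) (linC φ c) := by
  unfold Dl1
  rw [sbR_Dl]
  congr 1
  exact Fin.comp_snoc (linC φ) v c

theorem sbR_hh (s q : ℕ) {r k : ℕ} (φ : ℕ → V) (v : Fin r → V) (c : Fin k → V) :
    sbR φ (hh s q v c : R) = hh s q (fun i => linC φ (v i)) (fun j => linC φ (c j)) := by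
  unfold hh Ek
  rw [map_mul, map_prod, map_pow, sbR_Dl]
  congr 1
  refine Finset.prod_congr rfl fun j _ => ?_
  rw [map_pow, Q1_sbR_Dl1]

theorem Dl_mat {r : ℕ} (g : Matrix (Fin r) (Fin r) ℂ) (v : Fin r → V) :
    (Dl (fun j => ∑ i, g i j • v i) : R) = algebraMap ℂ R (g.det ^ 2) * Dl v := by
  have h1 : (gramM (fun j => ∑ i, g i j • v i) : Matrix (Fin r) (Fin r) R) =
      ((algebraMap ℂ R).mapMatrix g).transpose * gramM v * (algebraMap ℂ R).mapMatrix g := by
    ext i j
    simp only [gramM, Matrix.of_apply, Matrix.mul_apply, Matrix.transpose_apply,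
      RingHom.mapMatrix_apply, Matrix.map_apply]
    rw [Q1_xv_sum]
    rw [Finset.sum_comm]
    refine Finset.sum_congr rfl fun k _ => ?_
    rw [Finset.sum_mul]
  unfold Dl
  rw [h1, Matrix.det_mul, Matrix.det_mul, Matrix.det_transpose, ← RingHom.map_det, map_pow]
  ring

theorem Dl_eq_zero {r : ℕ} (v : Fin r → V) (hv : ¬ LinearIndependent ℂ v) : (Dl v : R) = 0 := by
  rw [Fintype.not_linearIndependent_iff] at hv
  obtain ⟨g, hg, i0, hi0⟩ := hv
  have h1 := Dl_mat (R := R) (Matrix.updateCol (1 : Matrix (Fin r) (Fin r) ℂ) i0 g) v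
  have h2 : (Matrix.updateCol (1 : Matrix (Fin r) (Fin r) ℂ) i0 g).det = g i0 := by
    rw [← Matrix.cramer_apply, Matrix.cramer_one]
    rfl
  rw [h2] at h1
  have h3 : (Dl (fun j => ∑ i, Matrix.updateCol (1 : Matrix (Fin r) (Fin r) ℂ) i0 g i j • v i) :
      R) = 0 := by
    unfold Dl
    apply Matrix.det_eq_zero_of_row_eq_zero i0
    intro j
    have h4 : ∑ i, Matrix.updateCol (1 : Matrix (Fin r) (Fin r) ℂ) i0 g i i0 • v i = 0 := by
      simp only [Matrix.updateCol_self]
      exact hg
    simp only [gramM, Matrix.of_apply]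
    rw [h4, Q1_xv_eq, map_zero, map_zero, LinearMap.zero_apply]
  rw [h3] at h1
  have h5 : IsUnit (algebraMap ℂ R (g i0 ^ 2)) :=
    (IsUnit.mk0 _ (pow_ne_zero 2 hi0)).map (algebraMap ℂ R)
  exact (h5.mul_right_eq_zero).1 h1.symm

private theorem Q1_smul (a : ℂ) (b : R) (y : VR R) :
    a • (b • y) = (algebraMap ℂ R a * b) • y := by
  rw [← algebraMap_smul R a (b • y), smul_smul]

theorem pit_add {r : ℕ} (v : Fin r → V) (c c' : V) :
    (pit v (c + c') : VR R) = pit v c + pit v c' := by
  unfold pit
  rw [← Finset.sum_add_distrib]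
  refine Finset.sum_congr rfl fun k _ => ?_
  rw [← add_smul, ← Finset.sum_add_distrib]
  congr 1
  refine Finset.sum_congr rfl fun l _ => ?_
  rw [Q1_xv_add_left, add_mul]

private theorem Q1_pit_smul {r : ℕ} (v : Fin r → V) (a : ℂ) (c : V) :
    (pit v (a • c) : VR R) = a • pit v c := by
  unfold pit
  rw [Finset.smul_sum]
  refine Finset.sum_congr rfl fun k _ => ?_
  rw [Q1_smul]
  congr 1
  rw [Finset.mul_sum]
  refine Finset.sum_congr rfl fun l _ => ?_
  rw [Q1_xv_smul_left, mul_assoc]

theorem til_add {r : ℕ} (v : Fin r → V) (c c' : V) :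
    (til v (c + c') : VR R) = til v c + til v c' := by
  unfold til
  rw [pit_add, map_add, smul_add]
  abel

theorem til_smul {r : ℕ} (v : Fin r → V) (a : ℂ) (c : V) :
    (til v (a • c) : VR R) = a • til v c := by
  unfold til
  rw [Q1_pit_smul, map_smul, smul_sub, smul_comm]

theorem til_self {r : ℕ} (v : Fin r → V) (i : Fin r) : (til v (v i) : VR R) = 0 := by
  have h1 : (pit v (v i) : VR R) = (Dl v : R) • cst (v i) := by
    unfold pit
    have h2 : ∀ k, ∑ l, (xv (v i) (v l) : R) *
        (gramM v : Matrix (Fin r) (Fin r) R).adjugate l k =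
        (Dl v : R) * (1 : Matrix (Fin r) (Fin r) R) i k := by
      intro k
      have h3 := congrFun (congrFun (Matrix.mul_adjugate (gramM v : Matrix (Fin r) (Fin r) R)) i) k
      rw [Matrix.mul_apply, Matrix.smul_apply, smul_eq_mul] at h3
      exact h3
    simp_rw [h2]
    rw [Finset.sum_eq_single i]
    · rw [Matrix.one_apply_eq, mul_one]
    · intro k _ hk
      rw [Matrix.one_apply_ne (Ne.symm hk), mul_zero, zero_smul]
    · intro h
      exact absurd (Finset.mem_univ i) h
  unfold til
  rw [h1, sub_self]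

/-- `til v c` and `pit v c` lie in the `R`-span of `v` and `c`, resp. of `v` -/
theorem pit_mem_span {r : ℕ} (v : Fin r → V) (c : V) :
    (pit v c : VR R) ∈ Submodule.span R ((fun w => (cst w : VR R)) '' (Set.range v)) := by
  unfold pit
  refine Submodule.sum_mem _ fun k _ => Submodule.smul_mem _ _ (Submodule.subset_span ?_)
  exact ⟨v k, ⟨k, rfl⟩, rfl⟩

theorem til_mem_span {r : ℕ} (v : Fin r → V) (c : V) :
    (til v c : VR R) ∈ Submodule.span R ((fun w => (cst w : VR R)) '' (Set.range v ∪ {c})) := by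
  unfold til
  refine Submodule.sub_mem _ (Submodule.smul_mem _ _ (Submodule.subset_span ?_)) ?_
  · exact ⟨c, Or.inr rfl, rfl⟩
  · exact Submodule.span_mono (Set.image_mono Set.subset_union_left) (pit_mem_span v c)

private theorem Q1_xf_til {r : ℕ} (v : Fin r → V) (c y : V) :
    (xf (til v c) (cst y) : R) = Dl v * xv c y - ∑ k, (∑ l, (xv c (v l) : R) *
      (gramM v : Matrix (Fin r) (Fin r) R).adjugate l k) * xv (v k) y := by
  unfold til pit
  rw [map_sub, LinearMap.sub_apply, map_smul, LinearMap.smul_apply, smul_eq_mul, map_sum,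
    LinearMap.sum_apply]
  congr 1
  refine Finset.sum_congr rfl fun k _ => ?_
  rw [map_smul, LinearMap.smul_apply, smul_eq_mul]
  rfl

/-- the form `B(v,c,y) = x(c~, y)` as a bordered determinant -/
theorem det_border {r : ℕ} (v : Fin r → V) (c y : V) :
    (Matrix.det (Matrix.of fun i j : Fin (r + 1) =>
      (xv ((Fin.snoc v c : Fin (r + 1) → V) i) ((Fin.snoc v y : Fin (r + 1) → V) j) : R))) =
      xf (til v c) (cst y) := by
  have h1 : (Matrix.of fun i j : Fin (r + 1) =>
      (xv ((Fin.snoc v c : Fin (r + 1) → V) i) ((Fin.snoc v y : Fin (r + 1) → V) j) : R)).submatrix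
        finSumFinEquiv finSumFinEquiv =
      Matrix.fromBlocks (gramM v) (Matrix.of fun i _ => xv (v i) y)
        (Matrix.of fun _ j => xv c (v j)) (Matrix.of fun (_ _ : Fin 1) => xv c y) := by
    have hl : ∀ (w : V) (i : Fin r), (Fin.snoc v w : Fin (r + 1) → V) (finSumFinEquiv (Sum.inl i)) =
        v i := by
      intro w i
      rw [finSumFinEquiv_apply_left]
      exact Fin.snoc_castSucc (α := fun _ => V) w v i
    have hr : ∀ (w : V) (i : Fin 1), (Fin.snoc v w : Fin (r + 1) → V) (finSumFinEquiv (Sum.inr i)) =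
        w := by
      intro w i
      have h2 : (finSumFinEquiv (Sum.inr i) : Fin (r + 1)) = Fin.last r := by
        rw [finSumFinEquiv_apply_right]
        ext
        simp
      rw [h2]
      exact Fin.snoc_last (α := fun _ => V) w v
    ext i j
    rcases i with i | i <;> rcases j with j | j <;>
      simp only [Matrix.submatrix_apply, Matrix.of_apply, hl, hr, Matrix.fromBlocks_apply₁₁,
        Matrix.fromBlocks_apply₁₂, Matrix.fromBlocks_apply₂₁, Matrix.fromBlocks_apply₂₂, gramM]
  rw [← Matrix.det_submatrix_equiv_self finSumFinEquiv, h1, Q1_bord, Q1_xf_til]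
  simp only [Matrix.of_apply, Matrix.mul_apply]
  rfl

theorem Dl1_eq {r : ℕ} (v : Fin r → V) (c : V) : (Dl1 v c : R) = xf (til v c) (cst c) := by
  rw [← det_border]
  rfl

theorem xf_til_comm {r : ℕ} (v : Fin r → V) (c y : V) :
    (xf (til v c) (cst y) : R) = xf (til v y) (cst c) := by
  rw [← det_border, ← det_border, ← Matrix.det_transpose]
  congr 1
  ext i j
  simp only [Matrix.transpose_apply, Matrix.of_apply]
  exact xv_comm _ _

theorem Dl1_add {r : ℕ} (v : Fin r → V) (c y : V) (a : ℂ) :
    (Dl1 v (c + a • y) : R) = Dl1 v c + (2 * a) • xf (til v c) (cst y) + a ^ 2 • Dl1 v y := by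
  rw [Dl1_eq, Dl1_eq, Dl1_eq, til_add, til_smul, map_add (cst : V →ₗ[ℂ] VR R),
    map_smul (cst : V →ₗ[ℂ] VR R)]
  simp only [map_add, LinearMap.add_apply, Q1_xf_smul_left, Q1_xf_smul_right]
  rw [xf_til_comm v y c, Algebra.smul_def, Algebra.smul_def, map_mul, map_pow, map_ofNat]
  ring

theorem Dl1_mem {r : ℕ} (v : Fin r → V) (i : Fin r) : (Dl1 v (v i) : R) = 0 := by
  rw [Dl1_eq, til_self, map_zero, LinearMap.zero_apply]

/-- (KI) -/
theorem KI {r s : ℕ} (h1 : HP1 R r s) (v : Fin r → V) (c : V) (y : VR R) :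
    (Dl1 v c : R) ^ s * xf (til v c) y = 0 := by
  have key : ∀ y : V, (Dl1 v c : R) ^ s * xf (til v c) (cst y) = 0 := by
    intro y
    set A : R := Dl1 v c with hA
    set B : R := xf (til v c) (cst y) with hB
    set D : R := Dl1 v y with hD
    set Q : Polynomial R := Polynomial.C A + Polynomial.C (2 * B) * Polynomial.X +
      Polynomial.C D * Polynomial.X ^ 2 with hQ
    have h2 : ∀ t : ℂ, (Q ^ (s + 1)).eval (algebraMap ℂ R t) ∈ (⊥ : Submodule ℂ R) := by
      intro t
      rw [Submodule.mem_bot]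
      have h3 := h1 (Fin.snoc v (c + t • y))
      have h4 := Dl1_add (R := R) v c y t
      unfold Dl1 at h4
      rw [h4] at h3
      rw [Polynomial.eval_pow]
      rw [← h3]
      congr 1
      rw [hQ]
      simp only [Polynomial.eval_add, Polynomial.eval_mul, Polynomial.eval_C, Polynomial.eval_X,
        Polynomial.eval_pow, Polynomial.eval_ofNat, Algebra.smul_def, map_mul, map_pow, map_ofNat]
      rw [hA, hB, hD]
      unfold Dl1
      ring
    have h5 : (Q ^ (s + 1)).coeff 1 ∈ (⊥ : Submodule ℂ R) := by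
      apply vand_poly
      have : {t : ℂ | (Q ^ (s + 1)).eval (algebraMap ℂ R t) ∈ (⊥ : Submodule ℂ R)} = Set.univ := by
        ext t
        simp only [Set.mem_univ, iff_true]
        exact h2 t
      rw [this]
      exact Set.infinite_univ
    rw [Submodule.mem_bot] at h5
    have h6 : (Q ^ (s + 1)).coeff 1 = ((s : R) + 1) * (A ^ s * (2 * B)) := by
      have h7 := Polynomial.coeff_derivative (Q ^ (s + 1)) 0
      rw [Nat.cast_zero, zero_add, zero_add, mul_one] at h7
      rw [← h7, Polynomial.coeff_zero_eq_eval_zero, Polynomial.derivative_pow_succ]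
      have h8 : Q.eval 0 = A := by
        rw [hQ]; simp
      have h9 : Q.derivative.eval 0 = 2 * B := by
        rw [hQ]; simp
      rw [Polynomial.eval_mul, Polynomial.eval_mul, Polynomial.eval_pow, h8, h9]
      simp only [Polynomial.eval_C]
      push_cast
      ring
    rw [h6] at h5
    have h10 : ((s : R) + 1) * (A ^ s * (2 * B)) =
        algebraMap ℂ R (((s : ℂ) + 1) * 2) * (A ^ s * B) := by
      rw [map_mul, map_add, map_natCast, map_one, map_ofNat]
      ring
    rw [h10] at h5
    have h11 : IsUnit (algebraMap ℂ R (((s : ℂ) + 1) * 2)) := by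
      refine (IsUnit.mk0 _ ?_).map (algebraMap ℂ R)
      have : ((s : ℂ) + 1) ≠ 0 := Nat.cast_add_one_ne_zero s
      exact mul_ne_zero this (by norm_num)
    exact (h11.mul_right_eq_zero).1 h5
  induction y using Finsupp.induction_linear with
  | zero => rw [map_zero, mul_zero]
  | add f g hf hg => rw [map_add, mul_add, hf, hg, add_zero]
  | single i a =>
    have h3 : (Finsupp.single i a : VR R) = a • cst (ee i) := by
      simp [cst]
    rw [h3, map_smul, smul_eq_mul, mul_left_comm, key, mul_zero]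

theorem til_mem_Rad {r s k : ℕ} (h1 : HP1 R r s) (v : Fin r → V) (c : Fin k → V) (c' : V)
    (hc' : c' ∈ Submodule.span ℂ (Set.range v ∪ Set.range c)) :
    (til v c' : VR R) ∈ Rad (Ek s v c : R) := by
  induction hc' using Submodule.span_induction with
  | mem x hx =>
    rcases hx with ⟨i, rfl⟩ | ⟨j, rfl⟩
    · rw [til_self]
      exact Submodule.zero_mem _
    · intro y'
      unfold Ek
      rw [← Finset.mul_prod_erase Finset.univ _ (Finset.mem_univ j), mul_right_comm,
        KI h1, zero_mul]
  | zero =>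
    have h2 := til_smul (R := R) v 0 0
    rw [zero_smul, zero_smul] at h2
    rw [h2]
    exact Submodule.zero_mem _
  | add x y _ _ hx hy =>
    rw [til_add]
    exact Submodule.add_mem _ hx hy
  | smul a x _ hx =>
    rw [til_smul, ← algebraMap_smul R a]
    exact Submodule.smul_mem _ _ hx

theorem Rad_mul (E E' : R) : Rad E ≤ Rad (E * E') := by
  intro y hy y'
  rw [mul_right_comm, hy y', zero_mul]

private theorem Q1_gen (E : R) (ψ ψ' : ℕ → VR R) {i j : ℕ} (hi : ψ i - ψ' i ∈ Rad E)
    (hj : ψ j - ψ' j ∈ Rad E) :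
    E * GLRing.sb ψ (GLRing.x i j : R) = E * GLRing.sb ψ' (GLRing.x i j : R) := by
  rw [sb_x', sb_x']
  have h1 := hi (ψ j)
  have h2 := hj (ψ' i)
  rw [map_sub, LinearMap.sub_apply, mul_sub] at h1 h2
  rw [xf_comm (ψ j), xf_comm (ψ' j)] at h2
  have h3 : E * xf (ψ i) (ψ j) = E * xf (ψ' i) (ψ j) := sub_eq_zero.1 h1
  have h4 : E * xf (ψ' i) (ψ j) = E * xf (ψ' i) (ψ' j) := sub_eq_zero.1 h2
  rw [h3, h4]

omit [Algebra ℂ R] [GLRing R] in
private theorem Q1_mul (E a b a' b' : R) (h : E * a = E * a') (h' : E * b = E * b') :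
    E * (a * b) = E * (a' * b') := by
  calc E * (a * b) = (E * a) * b := by ring
    _ = (E * b) * a' := by rw [h]; ring
    _ = E * (a' * b') := by rw [h']; ring

/-- (sbE) -/
theorem sbE (E : R) (ψ ψ' : ℕ → VR R) (h : ∀ i, ψ i - ψ' i ∈ Rad E) (a : R) :
    E * GLRing.sb ψ a = E * GLRing.sb ψ' a := by
  have ha : a ∈ Algebra.adjoin ℂ (Set.range fun p : ℕ × ℕ => (GLRing.x p.1 p.2 : R)) := by
    rw [GLRing.gen]; trivial
  induction ha using Algebra.adjoin_induction with
  | mem x hx =>
    obtain ⟨p, rfl⟩ := hx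
    exact Q1_gen E ψ ψ' (h p.1) (h p.2)
  | algebraMap r => rw [AlgHom.commutes, AlgHom.commutes]
  | add x y _ _ hx hy => rw [map_add, map_add, mul_add, mul_add, hx, hy]
  | mul x y _ _ hx hy =>
    rw [map_mul, map_mul]
    exact Q1_mul E _ _ _ _ hx hy

/-- (sbE) for elements with letters in `T` -/
theorem sbE' (E : R) (ψ ψ' : ℕ → VR R) (T : Set ℕ) (h : ∀ i ∈ T, ψ i - ψ' i ∈ Rad E) (a : R)
    (ha : (C a : U R) ∈ LT R T) : E * GLRing.sb ψ a = E * GLRing.sb ψ' a := by
  have key : ∀ f ∈ LT R T, E * GLRing.sb ψ (constantCoeff f) =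
      E * GLRing.sb ψ' (constantCoeff f) := by
    intro f hf
    unfold LT at hf
    induction hf using Algebra.adjoin_induction with
    | mem x hx =>
      rcases hx with ⟨i, hi, j, hj, rfl⟩ | ⟨a, i, hi, rfl⟩
      · rw [constantCoeff_C]
        exact Q1_gen E ψ ψ' (h i hi) (h j hj)
      · rw [constantCoeff_X, map_zero, map_zero]
    | algebraMap r =>
      have h2 : constantCoeff (algebraMap ℂ (U R) r) = algebraMap ℂ R r := by
        rw [IsScalarTower.algebraMap_apply ℂ R (U R), MvPolynomial.algebraMap_eq,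
          constantCoeff_C]
      rw [h2, AlgHom.commutes, AlgHom.commutes]
    | add x y _ _ hx hy => rw [map_add, map_add, map_add, mul_add, mul_add, hx, hy]
    | mul x y _ _ hx hy =>
      rw [map_mul, map_mul, map_mul]
      exact Q1_mul E _ _ _ _ hx hy
  have := key _ ha
  rwa [constantCoeff_C] at this

theorem Ek_mono (s : ℕ) {r k k' : ℕ} (v : Fin r → V) (c : Fin k → V) (c' : Fin k' → V)
    (h : ∃ e : Fin k ↪ Fin k', ∀ j, c' (e j) = c j) : (Ek s v c : R) ∣ Ek s v c' := by
  obtain ⟨e, he⟩ := h
  have h1 : (Ek s v c : R) = ∏ j ∈ Finset.univ.map e, (Dl1 v (c' j) : R) ^ s := by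
    unfold Ek
    rw [Finset.prod_map]
    exact Finset.prod_congr rfl fun j _ => by rw [he]
  rw [h1]
  exact Finset.prod_dvd_prod_of_subset _ _ _ (Finset.subset_univ _)

end MP50e386N
end

section
/-! Frame change, paper 5.7 (b). -/

namespace MP50e386N

open MvPolynomial Pool.Agent.Lib.MP50e386

variable {R : Type} [CommRing R] [Algebra ℂ R] [GLRing R]

/-! ### Gram determinants of vectors with coefficients in `R` -/

/-- Gram determinant -/
private noncomputable def Q2_D {n : ℕ} (w : Fin n → VR R) : R :=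
  Matrix.det (Matrix.of fun i j => (xf (w i) (w j) : R))

private theorem Q2_Dl {n : ℕ} (v : Fin n → V) : (Dl v : R) = Q2_D (fun i => cst (v i)) := rfl

private theorem Q2_mat {n : ℕ} (g : Matrix (Fin n) (Fin n) R) (w : Fin n → VR R) :
    Q2_D (fun j => ∑ i, g i j • w i) = g.det ^ 2 * Q2_D w := by
  have h : (Matrix.of fun a b => (xf (∑ i, g i a • w i) (∑ i, g i b • w i) : R)) =
      g.transpose * (Matrix.of fun i j => (xf (w i) (w j) : R)) * g := by
    ext a b
    simp only [Matrix.mul_apply, Matrix.transpose_apply, Matrix.of_apply, map_sum, map_smul,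
      LinearMap.sum_apply, LinearMap.smul_apply, smul_eq_mul, Finset.sum_mul, Finset.mul_sum]
    refine Finset.sum_congr rfl fun j _ => Finset.sum_congr rfl fun i _ => ?_
    ring
  unfold Q2_D
  rw [h, Matrix.det_mul, Matrix.det_mul, Matrix.det_transpose]
  ring

private theorem Q2_ann {n : ℕ} (E : R) (A B : Matrix (Fin n) (Fin n) R)
    (h : ∀ i j, E * A i j = E * B i j) : E * A.det = E * B.det := by
  let I : Ideal R := LinearMap.ker (LinearMap.mulLeft R E)
  have hI : ∀ x : R, x ∈ I ↔ E * x = 0 := fun x => LinearMap.mem_ker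
  have h1 : Ideal.Quotient.mk I A.det = Ideal.Quotient.mk I B.det := by
    rw [RingHom.map_det, RingHom.map_det]
    congr 1
    ext i j
    rw [RingHom.mapMatrix_apply, RingHom.mapMatrix_apply, Matrix.map_apply, Matrix.map_apply,
      Ideal.Quotient.eq, hI, mul_sub, h i j, sub_self]
  rw [Ideal.Quotient.eq, hI, mul_sub] at h1
  exact sub_eq_zero.1 h1

private theorem Q2_annP {ι : Type} (E : R) (t : Finset ι) (A B : ι → R) (s : ℕ)
    (h : ∀ i ∈ t, E * A i = E * B i) : E * ∏ i ∈ t, A i ^ s = E * ∏ i ∈ t, B i ^ s := by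
  let I : Ideal R := LinearMap.ker (LinearMap.mulLeft R E)
  have hI : ∀ x : R, x ∈ I ↔ E * x = 0 := fun x => LinearMap.mem_ker
  have h1 : Ideal.Quotient.mk I (∏ i ∈ t, A i ^ s) = Ideal.Quotient.mk I (∏ i ∈ t, B i ^ s) := by
    rw [map_prod, map_prod]
    refine Finset.prod_congr rfl fun i hi => ?_
    rw [map_pow, map_pow]
    congr 1
    rw [Ideal.Quotient.eq, hI, mul_sub, h i hi, sub_self]
  rw [Ideal.Quotient.eq, hI, mul_sub] at h1
  exact sub_eq_zero.1 h1

private theorem Q2_congr {n : ℕ} (E : R) (w w' : Fin n → VR R)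
    (h : ∀ i, w i - w' i ∈ Rad E) : E * Q2_D w = E * Q2_D w' := by
  unfold Q2_D
  refine Q2_ann E _ _ fun i j => ?_
  rw [Matrix.of_apply, Matrix.of_apply]
  have h1 : E * xf (w i - w' i) (w j) = 0 := h i (w j)
  have h2 : E * xf (w j - w' j) (w' i) = 0 := h j (w' i)
  rw [map_sub, LinearMap.sub_apply, mul_sub] at h1 h2
  rw [xf_comm (w' i) (w' j), ← sub_eq_zero.1 h2, xf_comm (w j) (w' i)]
  exact sub_eq_zero.1 h1

/-- a column operation -/
private theorem Q2_upd {n : ℕ} (w : Fin n → VR R) (b : Fin n) (u : Fin n → R) :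
    Q2_D (Function.update w b (∑ i, u i • w i)) = u b ^ 2 * Q2_D w := by
  have h := Q2_mat ((1 : Matrix (Fin n) (Fin n) R).updateCol b u) w
  have hdet : ((1 : Matrix (Fin n) (Fin n) R).updateCol b u).det = u b := by
    rw [← Matrix.cramer_apply, Matrix.cramer_one]
    rfl
  rw [hdet] at h
  rw [← h]
  congr 1
  funext j
  by_cases hj : j = b
  · subst hj
    rw [Function.update_self]
    refine Finset.sum_congr rfl fun i _ => ?_
    rw [Matrix.updateCol_self]
  · rw [Function.update_of_ne hj]
    have : ∀ i, (1 : Matrix (Fin n) (Fin n) R).updateCol b u i j • w i =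
        if i = j then w i else 0 := by
      intro i
      rw [Matrix.updateCol_ne hj, Matrix.one_apply]
      split_ifs
      · rw [one_smul]
      · rw [zero_smul]
    rw [Finset.sum_congr rfl fun i _ => this i, Finset.sum_ite_eq' Finset.univ j w,
      if_pos (Finset.mem_univ j)]

private theorem Q2_scale {n : ℕ} (w : Fin n → VR R) (b : Fin n) (t : R) (z : VR R) :
    Q2_D (Function.update w b (t • z)) = t ^ 2 * Q2_D (Function.update w b z) := by
  have h := Q2_upd (Function.update w b z) b (Pi.single b t)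
  rw [Pi.single_eq_same] at h
  rw [← h]
  congr 1
  have h1 : ∑ i, (Pi.single b t : Fin n → R) i • Function.update w b z i = t • z := by
    rw [Finset.sum_eq_single b]
    · rw [Pi.single_eq_same, Function.update_self]
    · intro i _ hi
      rw [Pi.single_eq_of_ne hi, zero_smul]
    · intro hb
      exact absurd (Finset.mem_univ b) hb
  rw [h1, Function.update_idem]

/-- the basic computation modulo the radical -/
private theorem Q2_core {n : ℕ} (E : R) (w : Fin n → VR R) (b : Fin n) (c : VR R) (a D : R)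
    (cof : Fin n → R) (h : D • c - ∑ l, cof l • w l ∈ Rad E) :
    E * (D ^ 2 * Q2_D (Function.update w b (w b + a • c))) =
      E * ((D + a * cof b) ^ 2 * Q2_D w) := by
  rw [← Q2_scale]
  have h1 := Q2_upd w b (fun l => (Pi.single b D : Fin n → R) l + a * cof l)
  simp only [Pi.single_eq_same] at h1
  rw [← h1]
  refine Q2_congr E _ _ fun i => ?_
  by_cases hi : i = b
  · subst hi
    rw [Function.update_self, Function.update_self]
    have h2 : D • (w i + a • c) - ∑ l, ((Pi.single i D : Fin n → R) l + a * cof l) • w l =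
        a • (D • c - ∑ l, cof l • w l) := by
      have h3 : ∑ l, ((Pi.single i D : Fin n → R) l + a * cof l) • w l =
          D • w i + a • ∑ l, cof l • w l := by
        simp only [add_smul]
        rw [Finset.sum_add_distrib, Finset.smul_sum]
        congr 1
        · rw [Finset.sum_eq_single i]
          · rw [Pi.single_eq_same]
          · intro l _ hl
            rw [Pi.single_eq_of_ne hl, zero_smul]
          · intro hb
            exact absurd (Finset.mem_univ i) hb
        · refine Finset.sum_congr rfl fun l _ => ?_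
          rw [mul_smul]
      rw [h3, smul_sub, smul_add, smul_comm D a c]
      abel
    rw [h2]
    exact (Rad E).smul_mem a h
  · rw [Function.update_of_ne hi, Function.update_of_ne hi, sub_self]
    exact (Rad E).zero_mem

/-! ### linear independence -/

omit [Algebra ℂ R] [GLRing R] [CommRing R] in
private theorem Q2_li {ι : Type} [Fintype ι] [DecidableEq ι] (y : ι → V)
    (hy : LinearIndependent ℂ y) (g : Matrix ι ι ℂ) (hg : g.det ≠ 0) :
    LinearIndependent ℂ (fun j => ∑ i, g i j • y i) := by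
  rw [Fintype.linearIndependent_iff] at hy ⊢
  intro c hc
  have h1 : ∑ i, (∑ j, c j * g i j) • y i = 0 := by
    rw [← hc]
    simp only [Finset.smul_sum, Finset.sum_smul, smul_smul]
    exact Finset.sum_comm
  have h2 := hy _ h1
  have h3 : g.mulVec c = 0 := by
    funext i
    rw [Matrix.mulVec, dotProduct, Pi.zero_apply, ← h2 i]
    exact Finset.sum_congr rfl fun j _ => mul_comm _ _
  exact fun i => congrFun (Matrix.eq_zero_of_mulVec_eq_zero hg h3) i

omit [Algebra ℂ R] [GLRing R] [CommRing R] in
private theorem Q2_inl {r k : ℕ} {y : Fin r ⊕ Fin k → V} (hy : LinearIndependent ℂ y) :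
    LinearIndependent ℂ (fun i => y (Sum.inl i)) :=
  hy.comp Sum.inl Sum.inl_injective

/-! ### transvections -/

/-- `Delta` of a family of `V` with one vector changed by a multiple of another one -/
private theorem Q2_trans {n : ℕ} (v : Fin n → V) (i j : Fin n) (hij : i ≠ j) (a : ℂ) :
    (Dl (Function.update v j (v j + a • v i)) : R) = Dl v := by
  have h := Dl_mat (R := R) (Matrix.transvection i j a) v
  rw [Matrix.det_transvection_of_ne i j hij, one_pow, map_one, one_mul] at h
  rw [← h]
  congr 1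
  funext l
  have h1 : ∀ m, Matrix.transvection i j a m l • v m =
      (if m = l then v m else 0) + (if m = i then (if l = j then a • v m else 0) else 0) := by
    intro m
    rw [Matrix.transvection, Matrix.add_apply, Matrix.one_apply, Matrix.single_apply, add_smul]
    congr 1
    · split_ifs
      · rw [one_smul]
      · rw [zero_smul]
    · by_cases hm : m = i
      · subst hm
        by_cases hl : l = j
        · subst hl
          simp
        · rw [if_neg (fun hh => hl hh.2.symm), if_pos rfl, if_neg hl, zero_smul]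
      · rw [if_neg (fun hh => hm hh.1.symm), if_neg hm, zero_smul]
  rw [Finset.sum_congr rfl fun m _ => h1 m, Finset.sum_add_distrib,
    Finset.sum_ite_eq' Finset.univ l v, if_pos (Finset.mem_univ l),
    Finset.sum_ite_eq' Finset.univ i, if_pos (Finset.mem_univ i)]
  by_cases hl : l = j
  · subst hl
    rw [Function.update_self, if_pos rfl]
  · rw [Function.update_of_ne hl, if_neg hl, add_zero]

omit [Algebra ℂ R] [GLRing R] [CommRing R] in
private theorem Q2_snoc_upd {r : ℕ} (v : Fin r → V) (j : Fin r) (z c : V) :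
    (Fin.snoc (Function.update v j z) c : Fin (r + 1) → V) =
      Function.update (Fin.snoc v c : Fin (r + 1) → V) j.castSucc z := by
  rw [Fin.snoc_update]

/-- `Dl1` is unchanged if a multiple of `v i` is added to `v j` -/
private theorem Q2_Dl1_vv {r : ℕ} (v : Fin r → V) (i j : Fin r) (hij : i ≠ j) (a : ℂ) (c : V) :
    (Dl1 (Function.update v j (v j + a • v i)) c : R) = Dl1 v c := by
  unfold Dl1
  rw [Q2_snoc_upd]
  have h := Q2_trans (R := R) (Fin.snoc v c : Fin (r + 1) → V) i.castSucc j.castSucc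
    (fun h => hij (Fin.castSucc_injective r h)) a
  rw [Fin.snoc_castSucc, Fin.snoc_castSucc] at h
  exact h

/-- `Dl1` is unchanged if a multiple of `c` is added to `v j` -/
private theorem Q2_Dl1_vc {r : ℕ} (v : Fin r → V) (j : Fin r) (a : ℂ) (c : V) :
    (Dl1 (Function.update v j (v j + a • c)) c : R) = Dl1 v c := by
  unfold Dl1
  rw [Q2_snoc_upd]
  have h := Q2_trans (R := R) (Fin.snoc v c : Fin (r + 1) → V) (Fin.last r) j.castSucc
    (Fin.castSucc_lt_last j).ne' a
  rw [Fin.snoc_castSucc, Fin.snoc_last] at h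
  exact h

/-- `Dl1` is unchanged if a multiple of `v i` is added to `c` -/
private theorem Q2_Dl1_cv {r : ℕ} (v : Fin r → V) (i : Fin r) (a : ℂ) (c : V) :
    (Dl1 v (c + a • v i) : R) = Dl1 v c := by
  rw [Dl1_add, Dl1_mem, xf_til_comm, til_self, map_zero, LinearMap.zero_apply, smul_zero,
    smul_zero, add_zero, add_zero]

/-- the ratio relation -/
private theorem Q2_ratio {r s : ℕ} (h1 : HP1 R r s) (h2 : HP2 R r) (v : Fin r → V)
    (hv : LinearIndependent ℂ v) (j : Fin r) (a : ℂ) (c d : V) :
    (Dl1 v c : R) ^ s * (Dl1 (Function.update v j (v j + a • c)) d * Dl v) =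
      (Dl1 v c : R) ^ s * (Dl (Function.update v j (v j + a • c)) * Dl1 v d) := by
  set E : R := (Dl1 v c : R) ^ s with hE
  set D : R := (Dl v : R) with hD
  set cof : Fin r → R := fun k => ∑ l, (xv c (v l) : R) *
    (gramM v : Matrix (Fin r) (Fin r) R).adjugate l k with hcof
  have hrad : (til v c : VR R) ∈ Rad E := fun y' => KI h1 v c y'
  have hpit : (til v c : VR R) = D • cst c - ∑ k, cof k • (cst (v k) : VR R) := rfl
  have hcst : (algebraMap ℂ R a) • (cst c : VR R) = cst (a • c) := by
    rw [map_smul, algebraMap_smul]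
  have k1 : E * (D ^ 2 * Dl (Function.update v j (v j + a • c))) =
      E * ((D + algebraMap ℂ R a * cof j) ^ 2 * Dl v) := by
    have h3 := Q2_core E (fun i => (cst (v i) : VR R)) j (cst c) (algebraMap ℂ R a) D cof
      (by rw [← hpit]; exact hrad)
    rw [Q2_Dl, Q2_Dl]
    rw [← h3]
    congr 3
    funext i
    by_cases hi : i = j
    · subst hi
      simp only [Function.update_self, map_add]
      rw [hcst]
    · simp only [Function.update_of_ne hi]
  have k2 : E * (D ^ 2 * Dl1 (Function.update v j (v j + a • c)) d) =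
      E * ((D + algebraMap ℂ R a * cof j) ^ 2 * Dl1 v d) := by
    have h3 := Q2_core E (fun i => (cst ((Fin.snoc v d : Fin (r + 1) → V) i) : VR R))
      j.castSucc (cst c) (algebraMap ℂ R a) D (Fin.snoc cof 0 : Fin (r + 1) → R) (by
        rw [Fin.sum_univ_castSucc]
        simp only [Fin.snoc_castSucc, Fin.snoc_last, zero_smul, add_zero]
        rw [← hpit]
        exact hrad)
    rw [Fin.snoc_castSucc, Fin.snoc_castSucc] at h3
    unfold Dl1
    rw [Q2_Dl, Q2_Dl, Q2_snoc_upd, ← h3]
    congr 3
    funext i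
    by_cases hi : i = j.castSucc
    · subst hi
      simp only [Function.update_self, map_add, Fin.snoc_castSucc]
      rw [hcst]
    · simp only [Function.update_of_ne hi]
  have hnz := h2 v hv
  have k3 : (E * (Dl1 (Function.update v j (v j + a • c)) d * Dl v) -
      E * (Dl (Function.update v j (v j + a • c)) * Dl1 v d)) * D ^ 2 = 0 := by
    have : (E * (Dl1 (Function.update v j (v j + a • c)) d * Dl v) -
      E * (Dl (Function.update v j (v j + a • c)) * Dl1 v d)) * D ^ 2 =
      (E * (D ^ 2 * Dl1 (Function.update v j (v j + a • c)) d)) * Dl v -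
      (E * (D ^ 2 * Dl (Function.update v j (v j + a • c)))) * Dl1 v d := by ring
    rw [this, k1, k2]
    ring
  have k4 := (mem_nonZeroDivisors_iff_right.1 (pow_mem hnz 2)) _ k3
  exact sub_eq_zero.1 k4

/-- the transvection of type `v_j ↦ v_j + a c_i` -/
theorem frame_trans3 {r s k : ℕ} (h1 : HP1 R r s) (h2 : HP2 R r) (y : Fin r ⊕ Fin k → V)
    (hy : LinearIndependent ℂ y) (i : Fin k) (j : Fin r) (a : ℂ) :
    (Ev s (Function.update y (Sum.inl j) (y (Sum.inl j) + a • y (Sum.inr i))) : R) *
        dl y ^ (s * k) *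
        dl (Function.update y (Sum.inl j) (y (Sum.inl j) + a • y (Sum.inr i))) ^ s =
      Ev s y * dl (Function.update y (Sum.inl j) (y (Sum.inl j) + a • y (Sum.inr i))) ^ (s * k) *
        dl y ^ s := by
  classical
  set v : Fin r → V := fun i => y (Sum.inl i) with hv
  have hvli : LinearIndependent ℂ v := Q2_inl hy
  set c : Fin k → V := fun i => y (Sum.inr i) with hc
  set y' := Function.update y (Sum.inl j) (y (Sum.inl j) + a • y (Sum.inr i)) with hy'
  have e1 : (fun l => y' (Sum.inl l)) = Function.update v j (v j + a • c i) := by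
    funext l
    by_cases hl : l = j
    · subst hl
      rw [hy', Function.update_self, Function.update_self]
    · rw [hy', Function.update_of_ne (fun h => hl (Sum.inl_injective h)),
        Function.update_of_ne hl]
  have e2 : (fun l => y' (Sum.inr l)) = c := by
    funext l
    rw [hy', Function.update_of_ne Sum.inr_ne_inl]
  have e3 : (dl y' : R) = Dl (Function.update v j (v j + a • c i)) := by
    unfold dl
    rw [e1]
  have e4 : (dl y : R) = Dl v := rfl
  have e5 : (Ev s y : R) = ∏ l, (Dl1 v (c l) : R) ^ s := rfl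
  have e6 : (Ev s y' : R) =
      ∏ l, (Dl1 (Function.update v j (v j + a • c i)) (c l) : R) ^ s := by
    unfold Ev Ek
    rw [e1, e2]
  set v' := Function.update v j (v j + a • c i) with hv'
  have e7 : (Dl1 v' (c i) : R) = Dl1 v (c i) := Q2_Dl1_vc v j a (c i)
  have hr : ∀ l, (Dl1 v (c i) : R) ^ s * (Dl1 v' (c l) * Dl v) =
      (Dl1 v (c i) : R) ^ s * (Dl v' * Dl1 v (c l)) := fun l =>
    Q2_ratio h1 h2 v hvli j a (c i) (c l)
  have hp := Q2_annP ((Dl1 v (c i) : R) ^ s) (Finset.univ.erase i)
    (fun l => (Dl1 v' (c l) * Dl v : R)) (fun l => (Dl v' * Dl1 v (c l) : R)) s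
    (fun l _ => hr l)
  have hL : (Ev s y' : R) * dl y ^ (s * k) =
      (Dl1 v (c i) : R) ^ s * Dl v ^ s * ∏ l ∈ Finset.univ.erase i, (Dl1 v' (c l) * Dl v : R) ^ s := by
    have : (dl y : R) ^ (s * k) = ∏ _l : Fin k, (Dl v : R) ^ s := by
      rw [Finset.prod_const, Finset.card_univ, Fintype.card_fin, ← pow_mul, e4]
    rw [this, e6, ← Finset.prod_mul_distrib, ← Finset.mul_prod_erase _ _ (Finset.mem_univ i), e7]
    congr 1
    refine Finset.prod_congr rfl fun l _ => ?_
    rw [mul_pow]
  have hR : (Ev s y : R) * dl y' ^ (s * k) =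
      (Dl1 v (c i) : R) ^ s * Dl v' ^ s * ∏ l ∈ Finset.univ.erase i, (Dl v' * Dl1 v (c l) : R) ^ s := by
    have : (dl y' : R) ^ (s * k) = ∏ _l : Fin k, (Dl v' : R) ^ s := by
      rw [Finset.prod_const, Finset.card_univ, Fintype.card_fin, ← pow_mul, e3]
    rw [this, e5, ← Finset.prod_mul_distrib, ← Finset.mul_prod_erase _ _ (Finset.mem_univ i)]
    congr 1
    refine Finset.prod_congr rfl fun l _ => ?_
    rw [mul_pow, mul_comm]
  rw [hL, hR, e3, e4]
  calc _ = (Dl1 v (c i) : R) ^ s * (∏ l ∈ Finset.univ.erase i, (Dl1 v' (c l) * Dl v : R) ^ s) *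
        (Dl v ^ s * Dl v' ^ s) := by ring
    _ = (Dl1 v (c i) : R) ^ s * (∏ l ∈ Finset.univ.erase i, (Dl v' * Dl1 v (c l) : R) ^ s) *
        (Dl v ^ s * Dl v' ^ s) := by rw [hp]
    _ = _ := by ring

omit [Algebra ℂ R] [GLRing R] [CommRing R] in
private theorem Q2_transv {ι : Type} [Fintype ι] [DecidableEq ι] (y : ι → V) (i j : ι) (a : ℂ) :
    (fun l => ∑ m, Matrix.transvection i j a m l • y m) =
      Function.update y j (y j + a • y i) := by
  funext l
  have h1 : ∀ m, Matrix.transvection i j a m l • y m =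
      (if m = l then y m else 0) + (if m = i then (if l = j then a • y m else 0) else 0) := by
    intro m
    rw [Matrix.transvection, Matrix.add_apply, Matrix.one_apply, Matrix.single_apply, add_smul]
    congr 1
    · split_ifs
      · rw [one_smul]
      · rw [zero_smul]
    · by_cases hm : m = i
      · subst hm
        by_cases hl : l = j
        · subst hl
          simp
        · rw [if_neg (fun hh => hl hh.2.symm), if_pos rfl, if_neg hl, zero_smul]
      · rw [if_neg (fun hh => hm hh.1.symm), if_neg hm, zero_smul]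
  rw [Finset.sum_congr rfl fun m _ => h1 m, Finset.sum_add_distrib,
    Finset.sum_ite_eq' Finset.univ l y, if_pos (Finset.mem_univ l),
    Finset.sum_ite_eq' Finset.univ i, if_pos (Finset.mem_univ i)]
  by_cases hl : l = j
  · subst hl
    rw [Function.update_self, if_pos rfl]
  · rw [Function.update_of_ne hl, if_neg hl, add_zero]

private theorem Q2_diag {n : ℕ} (D : Fin n → ℂ) (v : Fin n → V) :
    (Dl (fun j => D j • v j) : R) = algebraMap ℂ R ((∏ i, D i) ^ 2) * Dl v := by
  have h := Dl_mat (R := R) (Matrix.diagonal D) v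
  rw [Matrix.det_diagonal] at h
  rw [← h]
  congr 1
  funext j
  rw [Finset.sum_eq_single j]
  · rw [Matrix.diagonal_apply_eq]
  · intro i _ hi
    rw [Matrix.diagonal_apply_ne _ hi, zero_smul]
  · intro hj
    exact absurd (Finset.mem_univ j) hj

private theorem Q2_diag1 {r : ℕ} (D : Fin r → ℂ) (d : ℂ) (v : Fin r → V) (c : V) :
    (Dl1 (fun j => D j • v j) (d • c) : R) = algebraMap ℂ R (((∏ i, D i) * d) ^ 2) * Dl1 v c := by
  unfold Dl1
  have h := Q2_diag (R := R) (Fin.snoc D d : Fin (r + 1) → ℂ) (Fin.snoc v c : Fin (r + 1) → V)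
  rw [Fin.prod_univ_castSucc] at h
  simp only [Fin.snoc_castSucc, Fin.snoc_last] at h
  rw [← h]
  congr 1
  funext j
  refine Fin.lastCases ?_ (fun i => ?_) j
  · simp only [Fin.snoc_last]
  · simp only [Fin.snoc_castSucc]

theorem frame {r s k : ℕ} (h1 : HP1 R r s) (h2 : HP2 R r) (y : Fin r ⊕ Fin k → V)
    (hy : LinearIndependent ℂ y) (g : Matrix (Fin r ⊕ Fin k) (Fin r ⊕ Fin k) ℂ)
    (hg : g.det ≠ 0) :
    (Ev s (fun j => ∑ i, g i j • y i) : R) * dl y ^ (s * k) *
        dl (fun j => ∑ i, g i j • y i) ^ s =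
      algebraMap ℂ R (g.det ^ (2 * s)) *
        (Ev s y * dl (fun j => ∑ i, g i j • y i) ^ (s * k) * dl y ^ s) := by
  classical
  revert y
  refine Matrix.diagonal_transvection_induction_of_det_ne_zero
    (fun g => ∀ y : Fin r ⊕ Fin k → V, LinearIndependent ℂ y →
    (Ev s (fun j => ∑ i, g i j • y i) : R) * dl y ^ (s * k) *
        dl (fun j => ∑ i, g i j • y i) ^ s =
      algebraMap ℂ R (g.det ^ (2 * s)) *
        (Ev s y * dl (fun j => ∑ i, g i j • y i) ^ (s * k) * dl y ^ s)) g hg ?_ ?_ ?_
  · -- diagonal matrices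
    intro D _ y _
    have e0 : (fun j => ∑ i, Matrix.diagonal D i j • y i) = fun j => D j • y j := by
      funext j
      rw [Finset.sum_eq_single j]
      · rw [Matrix.diagonal_apply_eq]
      · intro i _ hi
        rw [Matrix.diagonal_apply_ne _ hi, zero_smul]
      · intro hj
        exact absurd (Finset.mem_univ j) hj
    rw [e0, Matrix.det_diagonal, Fintype.prod_sum_type]
    have e1 : (dl (fun j => D j • y j) : R) =
        algebraMap ℂ R ((∏ i : Fin r, D (Sum.inl i)) ^ 2) * dl y := by
      unfold dl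
      exact Q2_diag (fun i => D (Sum.inl i)) (fun i => y (Sum.inl i))
    have e2 : (Ev s (fun j => D j • y j) : R) =
        (∏ j : Fin k, (algebraMap ℂ R (((∏ i : Fin r, D (Sum.inl i)) * D (Sum.inr j)) ^ 2)) ^ s) *
          Ev s y := by
      unfold Ev Ek
      rw [← Finset.prod_mul_distrib]
      refine Finset.prod_congr rfl fun j _ => ?_
      rw [← mul_pow]
      congr 1
      exact Q2_diag1 (fun i => D (Sum.inl i)) (D (Sum.inr j)) (fun i => y (Sum.inl i))
        (y (Sum.inr j))
    rw [e1, e2]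
    have e3 : (∏ j : Fin k, (algebraMap ℂ R (((∏ i : Fin r, D (Sum.inl i)) *
        D (Sum.inr j)) ^ 2)) ^ s) = algebraMap ℂ R ((∏ i : Fin r, D (Sum.inl i)) ^ (2 * s * k) *
          (∏ j : Fin k, D (Sum.inr j)) ^ (2 * s)) := by
      rw [map_mul, map_pow, map_pow, map_prod (algebraMap ℂ R) (fun j => D (Sum.inr j)),
        ← Finset.prod_pow]
      have : (algebraMap ℂ R (∏ i : Fin r, D (Sum.inl i))) ^ (2 * s * k) =
          ∏ _j : Fin k, (algebraMap ℂ R (∏ i : Fin r, D (Sum.inl i))) ^ (2 * s) := by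
        rw [Finset.prod_const, Finset.card_univ, Fintype.card_fin, ← pow_mul]
      rw [this, ← Finset.prod_mul_distrib]
      refine Finset.prod_congr rfl fun j _ => ?_
      rw [← map_pow, ← map_pow, ← map_pow, ← map_mul]
      congr 1
      ring
    rw [e3]
    simp only [map_mul, map_pow, mul_pow]
    ring
  · -- transvections
    rintro ⟨i, j, hij, a⟩ y hy
    rw [Matrix.TransvectionStruct.toMatrix_mk, Q2_transv,
      Matrix.det_transvection_of_ne i j hij, one_pow, map_one, one_mul]
    rcases i with i | i <;> rcases j with j | j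
    · -- both in the first block
      have hne : i ≠ j := fun h => hij (by rw [h])
      have e1 : (fun l => Function.update y (Sum.inl j) (y (Sum.inl j) + a • y (Sum.inl i))
          (Sum.inl l)) = Function.update (fun l => y (Sum.inl l)) j
            (y (Sum.inl j) + a • y (Sum.inl i)) := by
        funext l
        by_cases hl : l = j
        · subst hl
          rw [Function.update_self, Function.update_self]
        · rw [Function.update_of_ne (fun h => hl (Sum.inl_injective h)),
            Function.update_of_ne hl]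
      have e2 : (dl (Function.update y (Sum.inl j) (y (Sum.inl j) + a • y (Sum.inl i))) : R) =
          dl y := by
        unfold dl
        rw [e1]
        exact Q2_trans (fun l => y (Sum.inl l)) i j hne a
      have e3 : (Ev s (Function.update y (Sum.inl j) (y (Sum.inl j) + a • y (Sum.inl i))) : R) =
          Ev s y := by
        unfold Ev Ek
        rw [e1]
        refine Finset.prod_congr rfl fun l _ => ?_
        beta_reduce
        rw [Function.update_of_ne Sum.inr_ne_inl]
        congr 1
        exact Q2_Dl1_vv (fun l => y (Sum.inl l)) i j hne a _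
      rw [e2, e3]
    · -- `c_j ↦ c_j + a v_i`
      have e1 : (fun l => Function.update y (Sum.inr j) (y (Sum.inr j) + a • y (Sum.inl i))
          (Sum.inl l)) = (fun l => y (Sum.inl l)) := by
        funext l
        rw [Function.update_of_ne Sum.inl_ne_inr]
      have e2 : (dl (Function.update y (Sum.inr j) (y (Sum.inr j) + a • y (Sum.inl i))) : R) =
          dl y := by
        unfold dl
        rw [e1]
      have e3 : (Ev s (Function.update y (Sum.inr j) (y (Sum.inr j) + a • y (Sum.inl i))) : R) =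
          Ev s y := by
        unfold Ev Ek
        rw [e1]
        refine Finset.prod_congr rfl fun l _ => ?_
        congr 1
        beta_reduce
        by_cases hl : l = j
        · subst hl
          rw [Function.update_self]
          exact Q2_Dl1_cv (fun l => y (Sum.inl l)) i a _
        · rw [Function.update_of_ne (fun h => hl (Sum.inr_injective h))]
      rw [e2, e3]
    · exact frame_trans3 h1 h2 y hy i j a
    · -- both in the second block
      have hne : i ≠ j := fun h => hij (by rw [h])
      have e1 : (fun l => Function.update y (Sum.inr j) (y (Sum.inr j) + a • y (Sum.inr i))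
          (Sum.inl l)) = (fun l => y (Sum.inl l)) := by
        funext l
        rw [Function.update_of_ne Sum.inl_ne_inr]
      have e2 : (dl (Function.update y (Sum.inr j) (y (Sum.inr j) + a • y (Sum.inr i))) : R) =
          dl y := by
        unfold dl
        rw [e1]
      have e3 : (Ev s (Function.update y (Sum.inr j) (y (Sum.inr j) + a • y (Sum.inr i))) : R) =
          Ev s y := by
        unfold Ev Ek
        rw [e1, ← Finset.mul_prod_erase _ _ (Finset.mem_univ i),
          ← Finset.mul_prod_erase Finset.univ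
            (fun l => (Dl1 (fun i => y (Sum.inl i)) (y (Sum.inr l)) : R) ^ s)
            (Finset.mem_univ i)]
        beta_reduce
        rw [Function.update_of_ne (fun h => hne (Sum.inr_injective h))]
        refine Q2_annP _ _ _ _ s fun l _ => ?_
        by_cases hl : l = j
        · subst hl
          rw [Function.update_self, Dl1_add, mul_add, mul_add]
          have f1 : (Dl1 (fun i => y (Sum.inl i)) (y (Sum.inr i)) : R) ^ s *
              (2 * a) • xf (til (fun i => y (Sum.inl i)) (y (Sum.inr l)))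
                (cst (y (Sum.inr i))) = 0 := by
            rw [xf_til_comm, mul_smul_comm, KI h1, smul_zero]
          have f2 : (Dl1 (fun i => y (Sum.inl i)) (y (Sum.inr i)) : R) ^ s *
              a ^ 2 • Dl1 (fun i => y (Sum.inl i)) (y (Sum.inr i)) = 0 := by
            rw [mul_smul_comm, ← pow_succ]
            unfold Dl1
            rw [h1, smul_zero]
          rw [f1, f2, add_zero, add_zero]
        · rw [Function.update_of_ne (fun h => hl (Sum.inr_injective h))]
      rw [e2, e3]
  · -- products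
    intro A B hA hB PA PB y hy
    have hy' := Q2_li y hy A hA
    have q1 := PA y hy
    have q2 := PB _ hy'
    have e0 : (fun j => ∑ i, (A * B) i j • y i) =
        fun j => ∑ i, B i j • ∑ l, A l i • y l := by
      funext j
      simp only [Matrix.mul_apply, Finset.sum_smul, Finset.smul_sum, smul_smul]
      rw [Finset.sum_comm]
      refine Finset.sum_congr rfl fun l _ => Finset.sum_congr rfl fun i _ => ?_
      rw [mul_comm]
    rw [e0, Matrix.det_mul, mul_pow, map_mul]
    set y' : Fin r ⊕ Fin k → V := fun j => ∑ i, A i j • y i with hy'def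
    set y'' : Fin r ⊕ Fin k → V := fun j => ∑ i, B i j • y' i with hy''def
    have hnz : (dl y' : R) ^ (s * k) ∈ nonZeroDivisors R :=
      pow_mem (h2 _ (Q2_inl hy')) _
    have k3 : ((Ev s y'' : R) * dl y ^ (s * k) * dl y'' ^ s -
        algebraMap ℂ R (A.det ^ (2 * s)) * algebraMap ℂ R (B.det ^ (2 * s)) *
          (Ev s y * dl y'' ^ (s * k) * dl y ^ s)) * dl y' ^ (s * k) = 0 := by
      calc _ = (Ev s y'' * dl y' ^ (s * k) * dl y'' ^ s) * dl y ^ (s * k) -
            algebraMap ℂ R (B.det ^ (2 * s)) * dl y'' ^ (s * k) *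
              (algebraMap ℂ R (A.det ^ (2 * s)) *
                (Ev s y * dl y' ^ (s * k) * dl y ^ s)) := by ring
        _ = 0 := by
          rw [q2, ← q1]
          ring
    exact sub_eq_zero.1 ((mem_nonZeroDivisors_iff_right.1 hnz) _ k3)

/-- paper 5.7 (c2) -/
theorem det_mul_Ev {r s k : ℕ} (h1 : HP1 R r s) (y : Fin r ⊕ Fin k → V) (a b : Fin (r + 1) → V)
    (ha : ∀ i, a i ∈ Submodule.span ℂ (Set.range y)) :
    (Matrix.det (Matrix.of fun i j : Fin (r + 1) => (xv (a i) (b j) : R))) *
      (Ev s y * dl y ^ (r + 1)) = 0 := by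
  set v : Fin r → V := fun i => y (Sum.inl i) with hv
  set E : R := Ev s y with hE
  set X : Matrix (Fin (r + 1)) (Fin (r + 1)) R := Matrix.of fun i j => (xv (a i) (b j) : R)
    with hX
  have hspan : ∀ i, a i ∈ Submodule.span ℂ (Set.range v ∪ Set.range fun j => y (Sum.inr j)) := by
    intro i
    refine Submodule.span_mono ?_ (ha i)
    rintro _ ⟨l, rfl⟩
    rcases l with l | l
    · exact Or.inl ⟨l, rfl⟩
    · exact Or.inr ⟨l, rfl⟩
  have hrad : ∀ i, (til v (a i) : VR R) ∈ Rad E := fun i =>
    til_mem_Rad h1 v (fun j => y (Sum.inr j)) (a i) (hspan i)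
  have k1 : E * ((dl y : R) • X).det =
      E * (Matrix.of fun i j => (xf (pit v (a i)) (cst (b j)) : R)).det := by
    refine Q2_ann E _ _ fun i j => ?_
    rw [Matrix.smul_apply, Matrix.of_apply, hX, Matrix.of_apply, smul_eq_mul]
    have h3 : E * xf (til v (a i)) (cst (b j)) = 0 := hrad i (cst (b j))
    unfold til at h3
    rw [map_sub, LinearMap.sub_apply, map_smul, LinearMap.smul_apply, smul_eq_mul, mul_sub] at h3
    exact sub_eq_zero.1 h3
  have k2 : (Matrix.of fun i j : Fin (r + 1) => (xf (pit v (a i)) (cst (b j)) : R)).det = 0 := by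
    let Cm : Matrix (Fin (r + 1)) (Fin (r + 1)) R := Matrix.of fun i =>
      (Fin.snoc (fun k => ∑ l, (xv (a i) (v l) : R) *
        (gramM v : Matrix (Fin r) (Fin r) R).adjugate l k) 0 : Fin (r + 1) → R)
    let Xm : Matrix (Fin (r + 1)) (Fin (r + 1)) R := Matrix.of fun k j =>
      (Fin.snoc (fun k => (xf (cst (v k)) (cst (b j)) : R)) 0 : Fin (r + 1) → R) k
    have h4 : (Matrix.of fun i j : Fin (r + 1) => (xf (pit v (a i)) (cst (b j)) : R)) =
        Cm * Xm := by
      ext i j
      rw [Matrix.mul_apply, Fin.sum_univ_castSucc]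
      simp only [Cm, Xm, Matrix.of_apply, Fin.snoc_castSucc, Fin.snoc_last, mul_zero, add_zero]
      unfold pit
      rw [map_sum, LinearMap.sum_apply]
      refine Finset.sum_congr rfl fun l _ => ?_
      rw [map_smul, LinearMap.smul_apply, smul_eq_mul]
    have h5 : Cm.det = 0 := by
      apply Matrix.det_eq_zero_of_column_eq_zero (Fin.last r)
      intro i
      simp only [Cm, Matrix.of_apply, Fin.snoc_last]
    rw [h4, Matrix.det_mul, h5, zero_mul]
  rw [k2, mul_zero, Matrix.det_smul, Fintype.card_fin] at k1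
  calc _ = E * ((dl y : R) ^ (r + 1) * X.det) := by ring
    _ = 0 := k1

end MP50e386N
end

section
/-! Lemma (LA) of paper 5.7: pure linear algebra. -/

namespace MP50e386N

open Module

/-- two submodules that do not contain `U` do not cover `U` -/
private theorem LA_avoid {W : Type} [AddCommGroup W] [Module ℂ W] (U A B : Submodule ℂ W)
    (hA : ¬ U ≤ A) (hB : ¬ U ≤ B) : ∃ v ∈ U, v ∉ A ∧ v ∉ B := by
  obtain ⟨a, haU, haA⟩ := Set.not_subset.1 hA
  obtain ⟨b, hbU, hbB⟩ := Set.not_subset.1 hB
  by_cases h1 : a ∈ B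
  · by_cases h2 : b ∈ A
    · refine ⟨a + b, U.add_mem haU hbU, fun h => haA ?_, fun h => hbB ?_⟩
      · have := A.sub_mem h h2
        rwa [add_sub_cancel_right] at this
      · have := B.sub_mem h h1
        rwa [add_sub_cancel_left] at this
    · exact ⟨b, hbU, h2, hbB⟩
  · exact ⟨a, haU, haA, h1⟩

/-- adding a vector outside `Z ⊔ U` keeps disjointness with `Z` -/
private theorem LA_disj {W : Type} [AddCommGroup W] [Module ℂ W] (U Z : Submodule ℂ W) (v : W)
    (h : Disjoint U Z) (hv : v ∉ Z ⊔ U) : Disjoint (U ⊔ Submodule.span ℂ {v}) Z := by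
  rw [Submodule.disjoint_def] at h ⊢
  intro x hx hxZ
  obtain ⟨u, hu, w, hw, rfl⟩ := Submodule.mem_sup.1 hx
  obtain ⟨c, rfl⟩ := Submodule.mem_span_singleton.1 hw
  have hc : c = 0 := by
    by_contra hc
    apply hv
    have h1 : c • v ∈ Z ⊔ U := by
      have h2 : c • v = (u + c • v) - u := by abel
      rw [h2]
      exact Submodule.sub_mem _ ((le_sup_left : Z ≤ Z ⊔ U) hxZ) ((le_sup_right : U ≤ Z ⊔ U) hu)
    have h3 := Submodule.smul_mem (Z ⊔ U) c⁻¹ h1
    rwa [smul_smul, inv_mul_cancel₀ hc, one_smul] at h3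
  subst hc
  rw [zero_smul, add_zero] at hxZ ⊢
  exact h u hu hxZ

/-- the greedy construction of the isotropic subspace -/
private theorem LA_step {W : Type} [AddCommGroup W] [Module ℂ W] [FiniteDimensional ℂ W]
    (ω : LinearMap.BilinForm ℂ W) (hω : ω.IsAlt) (hnd : ω.Nondegenerate) (Z : Submodule ℂ W)
    (r : ℕ) (hr : finrank ℂ Z + r = finrank ℂ W) (h : 4 * r ≤ finrank ℂ W) (j : ℕ) :
    j ≤ r → ∃ U : Submodule ℂ W, finrank ℂ U = j ∧ (∀ x ∈ U, ∀ y ∈ U, ω x y = 0) ∧
      Disjoint U Z ∧ Disjoint U (ω.orthogonal Z) := by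
  have hrefl : ω.IsRefl := hω.isRefl
  induction j with
  | zero =>
    intro _
    refine ⟨⊥, finrank_bot ℂ W, ?_, disjoint_bot_left, disjoint_bot_left⟩
    intro x hx y _
    rw [(Submodule.mem_bot ℂ).1 hx]
    simp
  | succ j ih =>
    intro hj
    obtain ⟨U, hU, hiso, hdZ, hdP⟩ := ih (by omega)
    have hO : finrank ℂ (ω.orthogonal U) = finrank ℂ W - j := by
      rw [LinearMap.BilinForm.finrank_orthogonal hnd, hU]
    have hP : finrank ℂ (ω.orthogonal Z) = r := by
      rw [LinearMap.BilinForm.finrank_orthogonal hnd]; omega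
    -- not contained in `Z ⊔ U`
    have hA : ¬ ω.orthogonal U ≤ Z ⊔ U := by
      intro hle
      have h1 : ω.orthogonal (Z ⊔ U) ≤ ω.orthogonal (ω.orthogonal U) :=
        LinearMap.BilinForm.orthogonal_le hle
      rw [LinearMap.BilinForm.orthogonal_orthogonal hnd hrefl] at h1
      have h2 : ω.orthogonal (Z ⊔ U) = ⊥ := by
        rw [eq_bot_iff]
        intro x hx
        have h3 : x ∈ U := h1 hx
        have h4 : x ∈ ω.orthogonal Z := by
          intro n hn
          exact hx n ((le_sup_left : Z ≤ Z ⊔ U) hn)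
        exact (Submodule.mem_bot ℂ).2 ((Submodule.disjoint_def.1 hdP) x h3 h4)
      have h5 : finrank ℂ (ω.orthogonal (Z ⊔ U)) = finrank ℂ W - finrank ℂ (Z ⊔ U : Submodule ℂ W) :=
        LinearMap.BilinForm.finrank_orthogonal hnd _
      rw [h2, finrank_bot] at h5
      have h6 : finrank ℂ (Z ⊔ U : Submodule ℂ W) ≤ finrank ℂ Z + finrank ℂ U :=
        Submodule.finrank_add_le_finrank_add_finrank Z U
      omega
    have hB : ¬ ω.orthogonal U ≤ ω.orthogonal Z ⊔ U := by
      intro hle
      have h1 := Submodule.finrank_mono hle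
      have h6 : finrank ℂ (ω.orthogonal Z ⊔ U : Submodule ℂ W) ≤
          finrank ℂ (ω.orthogonal Z) + finrank ℂ U :=
        Submodule.finrank_add_le_finrank_add_finrank _ U
      omega
    obtain ⟨v, hvO, hvZ, hvP⟩ := LA_avoid _ _ _ hA hB
    have hvU : v ∉ U := fun h => hvZ ((le_sup_right : U ≤ Z ⊔ U) h)
    have hv0 : v ≠ 0 := fun h => hvU (h ▸ U.zero_mem)
    refine ⟨U ⊔ Submodule.span ℂ {v}, ?_, ?_, LA_disj U Z v hdZ hvZ, LA_disj U _ v hdP hvP⟩
    · have h1 := Submodule.finrank_sup_add_finrank_inf_eq U (Submodule.span ℂ {v})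
      have h2 : U ⊓ Submodule.span ℂ {v} = ⊥ := by
        rw [eq_bot_iff]
        intro x hx
        obtain ⟨hx1, hx2⟩ := Submodule.mem_inf.1 hx
        obtain ⟨c, rfl⟩ := Submodule.mem_span_singleton.1 hx2
        by_cases hc : c = 0
        · subst hc; simp
        · exfalso
          apply hvU
          have h3 := U.smul_mem c⁻¹ hx1
          rwa [smul_smul, inv_mul_cancel₀ hc, one_smul] at h3
      rw [h2, finrank_bot, finrank_span_singleton hv0, hU] at h1
      omega
    · intro x hx y hy
      obtain ⟨u, hu, w, hw, rfl⟩ := Submodule.mem_sup.1 hx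
      obtain ⟨c, rfl⟩ := Submodule.mem_span_singleton.1 hw
      obtain ⟨u', hu', w', hw', rfl⟩ := Submodule.mem_sup.1 hy
      obtain ⟨c', rfl⟩ := Submodule.mem_span_singleton.1 hw'
      have e1 : ω u v = 0 := hvO u hu
      have e2 : ω v u' = 0 := hrefl _ _ (hvO u' hu')
      have e3 : ω v v = 0 := hω v
      have e4 : ω u u' = 0 := hiso u hu u' hu'
      simp only [map_add, LinearMap.add_apply, map_smul, LinearMap.smul_apply, e1, e2, e3, e4,
        smul_zero, add_zero]

/-- a symmetric form of rank `r` on a symplectic space of dimension at least `4r` is nondegenerate on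
some isotropic subspace of dimension `r` -/
theorem LA {W : Type} [AddCommGroup W] [Module ℂ W] [FiniteDimensional ℂ W]
    (ω X : LinearMap.BilinForm ℂ W) (hω : ω.IsAlt) (hnd : ω.Nondegenerate) (hX : X.IsSymm)
    (r : ℕ) (hr : finrank ℂ (LinearMap.ker X) + r = finrank ℂ W) (h : 4 * r ≤ finrank ℂ W) :
    ∃ v : Fin r → W, (∀ i j, ω (v i) (v j) = 0) ∧
      (Matrix.of fun i j : Fin r => X (v i) (v j)).det ≠ 0 := by
  obtain ⟨U, hU, hiso, hdZ, -⟩ := LA_step ω hω hnd (LinearMap.ker X) r hr h r le_rfl
  let b : Basis (Fin r) ℂ U := finBasisOfFinrankEq ℂ U hU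
  refine ⟨fun i => (b i : W), fun i j => hiso _ (b i).2 _ (b j).2, fun hdet => ?_⟩
  obtain ⟨c, hc0, hc⟩ := Matrix.exists_mulVec_eq_zero_iff.2 hdet
  have hy1 : ∀ i, X (b i : W) (∑ j, c j • (b j : W)) = 0 := by
    intro i
    have h1 := congrFun hc i
    simp only [Matrix.mulVec, dotProduct, Matrix.of_apply, Pi.zero_apply] at h1
    rw [map_sum, ← h1]
    refine Finset.sum_congr rfl fun j _ => ?_
    rw [map_smul, smul_eq_mul, mul_comm]
  have hyU : (∑ j, c j • (b j : W)) = ((∑ j, c j • b j : U) : W) := by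
    simp
  have hsup : LinearMap.ker X ⊔ U = ⊤ := by
    apply Submodule.eq_top_of_finrank_eq
    have h1 := Submodule.finrank_sup_add_finrank_inf_eq (LinearMap.ker X) U
    rw [hdZ.symm.eq_bot, finrank_bot, hU] at h1
    omega
  have hall : ∀ x ∈ U, X x (∑ j, c j • (b j : W)) = 0 := by
    intro x hx
    generalize (∑ j, c j • (b j : W)) = y at hy1
    obtain ⟨d, hd⟩ : ∃ d : Fin r → ℂ, x = ∑ i, d i • (b i : W) := by
      refine ⟨fun i => b.repr ⟨x, hx⟩ i, ?_⟩
      have h2 : ((∑ i, b.repr ⟨x, hx⟩ i • b i : U) : W) = x := by rw [b.sum_repr]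
      refine h2.symm.trans ?_
      simp only [Submodule.coe_sum, Submodule.coe_smul]
    rw [hd, map_sum, LinearMap.sum_apply]
    refine Finset.sum_eq_zero fun i _ => ?_
    rw [map_smul, LinearMap.smul_apply, hy1 i, smul_zero]
  have hker : (∑ j, c j • (b j : W)) ∈ LinearMap.ker X := by
    rw [LinearMap.mem_ker]
    ext x
    rw [LinearMap.zero_apply, hX.eq x _ |>.symm]
    have hx : x ∈ LinearMap.ker X ⊔ U := hsup ▸ Submodule.mem_top
    obtain ⟨z, hz, u, hu, rfl⟩ := Submodule.mem_sup.1 hx
    rw [map_add, LinearMap.add_apply, LinearMap.mem_ker.1 hz, LinearMap.zero_apply, hall u hu,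
      add_zero]
  have hz : (∑ j, c j • b j : U) = 0 := by
    have h1 : ((∑ j, c j • b j : U) : W) ∈ LinearMap.ker X := hyU ▸ hker
    have h2 := (Submodule.disjoint_def.1 hdZ) _ (∑ j, c j • b j : U).2 h1
    exact Subtype.ext h2
  have hli := b.linearIndependent
  rw [Fintype.linearIndependent_iff] at hli
  exact hc0 (funext fun i => hli c hz i)

end MP50e386N
end
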