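import Mathlib
import Pool.Agent.Lib.MP_50e386_al.B.Ta

section
/-! Multidegrees and polarisation, (pol). -/

namespace MP50e386N

open MvPolynomial Pool.Agent.Lib.MP50e386

variable {R : Type} [CommRing R] [Algebra ℂ R] [GLRing R]

/-! ### the character of a multidegree -/

private noncomputable def chr (κ : ℕ →₀ ℕ) (t : ℕ → ℂ) : ℂ := κ.prod fun i k => t i ^ k

private theorem chr_zero (t : ℕ → ℂ) : chr 0 t = 1 := Finsupp.prod_zero_index

private theorem chr_add (κ κ' : ℕ →₀ ℕ) (t : ℕ → ℂ) : chr (κ + κ') t = chr κ t * chr κ' t :=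
  Finsupp.prod_add_index' (fun _ => pow_zero _) (fun _ _ _ => pow_add _ _ _)

private theorem chr_single (i k : ℕ) (t : ℕ → ℂ) : chr (Finsupp.single i k) t = t i ^ k :=
  Finsupp.prod_single_index (pow_zero _)

private theorem MW_iff {κ : ℕ →₀ ℕ} {f : U R} :
    MW κ f ↔ ∀ t : ℕ → ℂ, sbC (fun i => t i • ee i) f = chr κ t • f := Iff.rfl

theorem MW_add {κ : ℕ →₀ ℕ} {f g : U R} (hf : MW κ f) (hg : MW κ g) : MW κ (f + g) := by
  intro t
  rw [map_add, hf t, hg t, smul_add]

private theorem MW_zero (κ : ℕ →₀ ℕ) : MW κ (0 : U R) := by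
  intro t
  rw [map_zero, smul_zero]

private theorem MW_smul {κ : ℕ →₀ ℕ} {f : U R} (hf : MW κ f) (c : ℂ) : MW κ (c • f) := by
  intro t
  rw [sbC_smulC, hf t, smul_comm]

theorem MW_mul {κ κ' : ℕ →₀ ℕ} {f g : U R} (hf : MW κ f) (hg : MW κ' g) : MW (κ + κ') (f * g) := by
  rw [MW_iff] at hf hg ⊢
  intro t
  rw [map_mul, hf t, hg t, chr_add, smul_mul_smul_comm]

omit [GLRing R] in
/-- Vandermonde for characters -/
private theorem MW_vand (N : Submodule ℂ (U R)) (s : Finset (ℕ →₀ ℕ)) (g : (ℕ →₀ ℕ) → U R)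
    (h : ∀ t : ℕ → ℂ, (∀ i, t i ≠ 0) → ∑ κ ∈ s, chr κ t • g κ ∈ N) : ∀ κ ∈ s, g κ ∈ N :=
  vandM N s g h

theorem MW_unique {κ κ' : ℕ →₀ ℕ} {f : U R} (hf : MW κ f) (hf' : MW κ' f) (h : f ≠ 0) : κ = κ' := by
  classical
  by_contra hne
  apply h
  have h1 := MW_vand (R := R) ⊥ {κ, κ'} (fun m => if m = κ then f else -f) (by
    intro t _
    rw [Finset.sum_pair hne, if_pos rfl, if_neg (Ne.symm hne), smul_neg,
      ← (MW_iff.1 hf) t, ← (MW_iff.1 hf') t, add_neg_cancel]
    exact Submodule.zero_mem _) κ (Finset.mem_insert_self _ _)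
  simpa using h1

/-- components lie in torus stable subspaces -/
theorem MW_comp_mem (N : Submodule ℂ (U R))
    (hN : ∀ t : ℕ → ℂ, (∀ i, t i ≠ 0) → ∀ f ∈ N, sbC (fun i => t i • ee i) f ∈ N)
    (s : Finset (ℕ →₀ ℕ)) (g : (ℕ →₀ ℕ) → U R) (hg : ∀ κ ∈ s, MW κ (g κ))
    (h : ∑ κ ∈ s, g κ ∈ N) : ∀ κ ∈ s, g κ ∈ N := by
  refine MW_vand N s g ?_
  intro t ht
  have h1 := hN t ht _ h
  rw [map_sum] at h1
  have h2 : ∑ κ ∈ s, sbC (fun i => t i • ee i) (g κ) = ∑ κ ∈ s, chr κ t • g κ :=
    Finset.sum_congr rfl fun κ hκ => hg κ hκ t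
  rwa [h2] at h1

/-- the components of an element of a GL-stable submodule lie in it -/
theorem GLS_MW_comp {N : Submodule R (U R)} (hN : GLS N) (s : Finset (ℕ →₀ ℕ))
    (g : (ℕ →₀ ℕ) → U R) (hg : ∀ κ ∈ s, MW κ (g κ)) (h : ∑ κ ∈ s, g κ ∈ N) :
    ∀ κ ∈ s, g κ ∈ N := by
  have h1 := MW_comp_mem (N.restrictScalars ℂ) (fun t _ f hf => hN _ f hf) s g hg h
  exact h1

/-! ### decomposition -/

private theorem supp_add_left (κ κ' : ℕ →₀ ℕ) : (κ.support : Set ℕ) ⊆ ((κ + κ').support : Set ℕ) := by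
  intro i hi
  simp only [Finset.mem_coe, Finsupp.mem_support_iff, Finsupp.add_apply] at hi ⊢
  omega

private theorem supp_add_right (κ κ' : ℕ →₀ ℕ) :
    (κ'.support : Set ℕ) ⊆ ((κ + κ').support : Set ℕ) := by
  intro i hi
  simp only [Finset.mem_coe, Finsupp.mem_support_iff, Finsupp.add_apply] at hi ⊢
  omega

private theorem supp_add_sub {κ κ' : ℕ →₀ ℕ} {T : Set ℕ} (h : (κ.support : Set ℕ) ⊆ T)
    (h' : (κ'.support : Set ℕ) ⊆ T) : ((κ + κ').support : Set ℕ) ⊆ T := by
  intro i hi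
  simp only [Finset.mem_coe, Finsupp.mem_support_iff, Finsupp.add_apply] at hi
  by_cases h1 : κ i = 0
  · refine h' ?_
    simp only [Finset.mem_coe, Finsupp.mem_support_iff]
    omega
  · exact h (by simpa using h1)

/-- the homogeneous polynomials in the letters of `T` -/
private noncomputable def Wsub (T : Set ℕ) (κ : ℕ →₀ ℕ) : Submodule ℂ (U R) where
  carrier := {f | ((κ.support : Set ℕ) ⊆ T ∨ f = 0) ∧ MW κ f ∧ f ∈ LT R T ∧
    f ∈ LT R (κ.support : Set ℕ)}
  zero_mem' := ⟨Or.inr rfl, MW_zero κ, Subalgebra.zero_mem _, Subalgebra.zero_mem _⟩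
  add_mem' := by
    rintro a b ⟨ha1, ha2, ha3, ha4⟩ ⟨hb1, hb2, hb3, hb4⟩
    refine ⟨?_, MW_add ha2 hb2, Subalgebra.add_mem _ ha3 hb3, Subalgebra.add_mem _ ha4 hb4⟩
    rcases ha1 with h | h
    · exact Or.inl h
    · rcases hb1 with h' | h'
      · exact Or.inl h'
      · exact Or.inr (by rw [h, h', add_zero])
  smul_mem' := by
    rintro c a ⟨ha1, ha2, ha3, ha4⟩
    refine ⟨?_, MW_smul ha2 c, Subalgebra.smul_mem _ ha3 c, Subalgebra.smul_mem _ ha4 c⟩
    rcases ha1 with h | h
    · exact Or.inl h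
    · exact Or.inr (by rw [h, smul_zero])

private theorem Wsub_mul {T : Set ℕ} {κ κ' : ℕ →₀ ℕ} {f g : U R} (hf : f ∈ Wsub (R := R) T κ)
    (hg : g ∈ Wsub (R := R) T κ') : f * g ∈ Wsub (R := R) T (κ + κ') := by
  obtain ⟨ha1, ha2, ha3, ha4⟩ := hf
  obtain ⟨hb1, hb2, hb3, hb4⟩ := hg
  refine ⟨?_, MW_mul ha2 hb2, Subalgebra.mul_mem _ ha3 hb3,
    Subalgebra.mul_mem _ (LT_mono (supp_add_left _ _) ha4) (LT_mono (supp_add_right _ _) hb4)⟩
  rcases ha1 with h | h
  · rcases hb1 with h' | h'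
    · exact Or.inl (supp_add_sub h h')
    · exact Or.inr (by rw [h', mul_zero])
  · exact Or.inr (by rw [h, zero_mul])

private theorem MW_one (c : ℂ) : MW 0 (algebraMap ℂ (U R) c) := by
  intro t
  rw [Finsupp.prod_zero_index, one_smul, Algebra.algebraMap_eq_smul_one, sbC_smulC, map_one]

private theorem MW_X (a i : ℕ) : MW (Finsupp.single i 1) (X (a, i) : U R) := by
  rw [MW_iff]
  intro t
  rw [sbC_X, chr_single, pow_one]
  have h1 : (cst (t i • ee i) : VR R) = Finsupp.single i (algebraMap ℂ R (t i)) := by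
    unfold cst
    simp [Finsupp.mapRange.linearMap_apply, Finsupp.mapRange_single]
  rw [h1, zf_single, algebraMap_smul]

private theorem MW_x (i j : ℕ) :
    MW (Finsupp.single i 1 + Finsupp.single j 1) (C (GLRing.x i j) : U R) := by
  rw [MW_iff]
  intro t
  rw [sbC_C, chr_add, chr_single, chr_single, pow_one, pow_one]
  have h1 : ∀ i, (cst (t i • ee i) : VR R) = Finsupp.single i (algebraMap ℂ R (t i)) := by
    intro i
    unfold cst
    simp [Finsupp.mapRange.linearMap_apply, Finsupp.mapRange_single]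
  have h2 : sbR (fun i => t i • ee i) (GLRing.x i j : R) =
      (t i * t j) • (GLRing.x i j : R) := by
    unfold sbR
    rw [sb_x', h1, h1, xf_single, Algebra.smul_def, map_mul]
  rw [h2]
  rw [Algebra.smul_def, C_mul, Algebra.smul_def]
  rfl

private theorem LT_le_iSup (T : Set ℕ) (f : U R) (hf : f ∈ LT R T) :
    f ∈ ⨆ κ, Wsub (R := R) T κ := by
  unfold LT at hf
  induction hf using Algebra.adjoin_induction with
  | mem f h =>
    rcases h with ⟨i, hi, j, hj, rfl⟩ | ⟨a, i, hi, rfl⟩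
    · refine Submodule.mem_iSup_of_mem (Finsupp.single i 1 + Finsupp.single j 1) ?_
      refine ⟨Or.inl ?_, MW_x i j, ?_, ?_⟩
      · refine supp_add_sub ?_ ?_
        · intro k hk
          rw [Finset.mem_coe, Finsupp.mem_support_single] at hk
          rw [hk.1]
          exact hi
        · intro k hk
          rw [Finset.mem_coe, Finsupp.mem_support_single] at hk
          rw [hk.1]
          exact hj
      · exact Algebra.subset_adjoin (Or.inl ⟨i, hi, j, hj, rfl⟩)
      · refine Algebra.subset_adjoin (Or.inl ⟨i, ?_, j, ?_, rfl⟩)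
        · exact supp_add_left _ _ (by simp)
        · exact supp_add_right _ _ (by simp)
    · refine Submodule.mem_iSup_of_mem (Finsupp.single i 1) ?_
      refine ⟨Or.inl ?_, MW_X a i, ?_, ?_⟩
      · intro k hk
        rw [Finset.mem_coe, Finsupp.mem_support_single] at hk
        rw [hk.1]
        exact hi
      · exact Algebra.subset_adjoin (Or.inr ⟨a, i, hi, rfl⟩)
      · exact Algebra.subset_adjoin (Or.inr ⟨a, i, by simp, rfl⟩)
  | algebraMap c =>
    refine Submodule.mem_iSup_of_mem 0 ?_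
    exact ⟨Or.inl (by simp), MW_one c, Subalgebra.algebraMap_mem _ c,
      Subalgebra.algebraMap_mem _ c⟩
  | add f g _ _ hf hg => exact Submodule.add_mem _ hf hg
  | mul f g _ _ hf hg =>
    refine Submodule.iSup_induction (p := fun κ => Wsub (R := R) T κ)
      (motive := fun f => f * g ∈ ⨆ κ, Wsub (R := R) T κ) hf ?_ ?_ ?_
    · intro κ x hx
      refine Submodule.iSup_induction (p := fun κ => Wsub (R := R) T κ)
        (motive := fun g => x * g ∈ ⨆ κ, Wsub (R := R) T κ) hg ?_ ?_ ?_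
      · intro κ' y hy
        exact Submodule.mem_iSup_of_mem (κ + κ') (Wsub_mul hx hy)
      · rw [mul_zero]
        exact Submodule.zero_mem _
      · intro y z hy hz
        rw [mul_add]
        exact Submodule.add_mem _ hy hz
    · rw [zero_mul]
      exact Submodule.zero_mem _
    · intro y z hy hz
      rw [add_mul]
      exact Submodule.add_mem _ hy hz

/-- decomposition in multidegree components, which are polynomials in the given letters -/
theorem exists_MW_decomp {T : Set ℕ} {f : U R} (hf : f ∈ LT R T) :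
    ∃ (s : Finset (ℕ →₀ ℕ)) (g : (ℕ →₀ ℕ) → U R), f = ∑ κ ∈ s, g κ ∧
      (∀ κ ∈ s, MW κ (g κ) ∧ g κ ∈ LT R T ∧ g κ ∈ LT R (κ.support : Set ℕ)) ∧
      (∀ κ ∈ s, (κ.support : Set ℕ) ⊆ T) := by
  obtain ⟨g, hg, hs⟩ := (Submodule.mem_iSup_iff_exists_finsupp _ _).1 (LT_le_iSup T f hf)
  refine ⟨g.support, fun κ => g κ, ?_, ?_, ?_⟩
  · rw [← hs]
    rfl
  · intro κ _
    exact ⟨(hg κ).2.1, (hg κ).2.2.1, (hg κ).2.2.2⟩
  · intro κ hκ
    rcases (hg κ).1 with h | h
    · exact h
    · exact absurd h (Finsupp.mem_support_iff.1 hκ)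

/-- comparison of components -/
private theorem MW_compare {κ : ℕ →₀ ℕ} {f : U R} (hf : MW κ f) (s : Finset (ℕ →₀ ℕ))
    (g : (ℕ →₀ ℕ) → U R) (hg : ∀ κ ∈ s, MW κ (g κ)) (h : f = ∑ κ ∈ s, g κ) :
    f = 0 ∨ (κ ∈ s ∧ f = g κ) := by
  classical
  have h1 := MW_vand (R := R) ⊥ (insert κ s)
    (fun m => (if m ∈ s then g m else 0) - (if m = κ then f else 0)) (by
    intro t _
    have e1 : ∑ m ∈ insert κ s, chr m t • ((if m ∈ s then g m else 0) -
        (if m = κ then f else 0)) = ∑ m ∈ s, chr m t • g m - chr κ t • f := by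
      simp_rw [smul_sub, smul_ite, smul_zero]
      rw [Finset.sum_sub_distrib]
      congr 1
      · rw [← Finset.sum_filter]
        congr 1
        ext m
        simp only [Finset.mem_filter, Finset.mem_insert]
        tauto
      · rw [Finset.sum_ite_eq']
        simp
    rw [e1, ← (MW_iff.1 hf) t, h, map_sum]
    have e2 : ∑ m ∈ s, chr m t • g m = ∑ m ∈ s, sbC (fun i => t i • ee i) (g m) :=
      Finset.sum_congr rfl fun m hm => ((MW_iff.1 (hg m hm)) t).symm
    rw [e2, sub_self]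
    exact Submodule.zero_mem _) κ (Finset.mem_insert_self _ _)
  simp only [if_true, Submodule.mem_bot] at h1
  by_cases hκ : κ ∈ s
  · rw [if_pos hκ, sub_eq_zero] at h1
    exact Or.inr ⟨hκ, h1.symm⟩
  · rw [if_neg hκ, zero_sub, neg_eq_zero] at h1
    exact Or.inl h1

theorem MW_LT {κ : ℕ →₀ ℕ} {f : U R} (hf : MW κ f) : f ∈ LT R (κ.support : Set ℕ) := by
  have hfT : f ∈ LT R Set.univ := by
    rw [LT_univ]
    exact Algebra.mem_top
  obtain ⟨s, g, h1, h2, -⟩ := exists_MW_decomp hfT
  rcases MW_compare hf s g (fun κ hκ => (h2 κ hκ).1) h1 with h | ⟨h, h'⟩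
  · rw [h]
    exact Subalgebra.zero_mem _
  · rw [h']
    exact (h2 κ h).2.2

/-! ### polarisation -/

/-- every multidegree is the multidegree of a word -/
private theorem exists_word (κ : ℕ →₀ ℕ) :
    ∃ (D : ℕ) (b : ℕ → ℕ), κ = ∑ j ∈ Finset.range D, Finsupp.single (b j) 1 := by
  induction κ using Finsupp.induction_linear with
  | zero => exact ⟨0, fun _ => 0, by simp⟩
  | add κ κ' h h' =>
    obtain ⟨D, b, hb⟩ := h
    obtain ⟨D', b', hb'⟩ := h'
    refine ⟨D + D', fun j => if j < D then b j else b' (j - D), ?_⟩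
    rw [Finset.sum_range_add, hb, hb']
    congr 1
    · refine Finset.sum_congr rfl fun j hj => ?_
      simp only [Finset.mem_range.1 hj, if_true]
    · refine Finset.sum_congr rfl fun j hj => ?_
      have h1 : ¬ (D + j < D) := by omega
      simp only [h1, if_false, Nat.add_sub_cancel_left]
  | single i k =>
    refine ⟨k, fun _ => i, ?_⟩
    rw [Finset.sum_const, Finset.card_range, Finsupp.smul_single, smul_eq_mul, mul_one]

/-- the coefficient of `t_0 ⋯ t_{D-1}` in a product of block sums does not vanish -/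
private theorem block_coeff (D : ℕ) (b : ℕ → ℕ) :
    (∏ j ∈ Finset.range D, ∑ i ∈ (Finset.range D).filter (fun i => b i = b j),
      (X i : MvPolynomial ℕ ℂ)).coeff (∑ i ∈ Finset.range D, Finsupp.single i 1) ≠ 0 := by
  classical
  rw [Finset.prod_sum]
  have e1 : ∀ p ∈ (Finset.range D).pi fun j => (Finset.range D).filter (fun i => b i = b j),
      (∏ x ∈ (Finset.range D).attach, (X (p x.1 x.2) : MvPolynomial ℕ ℂ)) =
        monomial (∑ x ∈ (Finset.range D).attach, Finsupp.single (p x.1 x.2) 1) 1 := by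
    intro p _
    rw [monomial_sum_one]
    rfl
  rw [Finset.sum_congr rfl e1, coeff_sum]
  simp only [coeff_monomial]
  rw [Finset.sum_boole, Nat.cast_ne_zero, Finset.card_ne_zero]
  refine ⟨fun j _ => j, ?_⟩
  rw [Finset.mem_filter]
  constructor
  · rw [Finset.mem_pi]
    intro j hj
    rw [Finset.mem_filter]
    exact ⟨hj, rfl⟩
  · exact Finset.sum_attach (Finset.range D) (fun j => Finsupp.single j 1)

/-- polarisation -/
theorem pol_one {N : Submodule R (U R)} (hN : GLS N) {κ : ℕ →₀ ℕ} {f : U R} (hf : f ∈ N)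
    (hκ : MW κ f) : ∃ (n : ℕ) (g : U R) (b : ℕ → ℕ), g ∈ N ∧ ML n g ∧
      f = sbC (fun i => ee (b i)) g := by
  classical
  obtain ⟨D, b, hb⟩ := exists_word κ
  set φ1 : ℕ → V := fun i => ∑ j ∈ (Finset.range D).filter (fun j => b j = i), ee j with hφ1
  set F : U R := sbC φ1 f with hF
  have hFN : F ∈ N := hN φ1 f hf
  have hFT : F ∈ LT R Set.univ := by
    rw [LT_univ]
    exact Algebra.mem_top
  obtain ⟨s, g, h1, h2, -⟩ := exists_MW_decomp hFT
  have hgN : ∀ m ∈ s, g m ∈ N := GLS_MW_comp hN s g (fun m hm => (h2 m hm).1) (h1 ▸ hFN)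
  set κD : ℕ →₀ ℕ := ∑ i ∈ Finset.range D, Finsupp.single i 1 with hκD
  set Q : MvPolynomial ℕ ℂ := ∏ j ∈ Finset.range D,
    ∑ i ∈ (Finset.range D).filter (fun i => b i = b j), X i with hQ
  set σ : U R →+* U R := sbC (fun i => ee (b i)) with hσ
  -- the value of the substitution
  have key : ∀ t : ℕ → ℂ, σ (sbC (fun i => t i • ee i) F) = (eval t Q) • f := by
    intro t
    rw [hF, hσ, sbC_sbC, sbC_sbC]
    have e1 : (fun i => linC (fun i => linC (fun i => ee (b i)) (t i • ee i)) (φ1 i)) =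
        fun i => (∑ j ∈ (Finset.range D).filter (fun j => b j = i), t j) • ee i := by
      funext i
      rw [hφ1]
      simp only
      rw [map_sum, Finset.sum_smul]
      refine Finset.sum_congr rfl fun j hj => ?_
      rw [linC_ee, map_smul, linC_ee, (Finset.mem_filter.1 hj).2]
    rw [e1, hκ]
    congr 1
    have e2 : (κ.prod fun i k => (∑ j ∈ (Finset.range D).filter (fun j => b j = i), t j) ^ k) =
        chr κ (fun i => ∑ j ∈ (Finset.range D).filter (fun j => b j = i), t j) := rfl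
    rw [e2, hb]
    have e3 : ∀ u : ℕ → ℂ, chr (∑ j ∈ Finset.range D, Finsupp.single (b j) 1) u =
        ∏ j ∈ Finset.range D, u (b j) := by
      intro u
      unfold chr
      rw [← Finsupp.prod_finsetSum_index (fun _ => pow_zero _) (fun _ _ _ => pow_add _ _ _)]
      refine Finset.prod_congr rfl fun j _ => ?_
      have e4 := chr_single (b j) 1 u
      rw [pow_one] at e4
      exact e4
    rw [e3, hQ, map_prod]
    refine Finset.prod_congr rfl fun j _ => ?_
    rw [map_sum]
    refine Finset.sum_congr rfl fun i _ => ?_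
    rw [eval_X]
  have key2 : ∀ t : ℕ → ℂ, σ (sbC (fun i => t i • ee i) F) = ∑ m ∈ s, chr m t • σ (g m) := by
    intro t
    rw [h1, map_sum, map_sum]
    refine Finset.sum_congr rfl fun m hm => ?_
    rw [(MW_iff.1 (h2 m hm).1) t, hσ, sbC_smulC]
  have h3 := MW_vand (R := R) ⊥ (s ∪ Q.support ∪ {κD})
    (fun m => (if m ∈ s then σ (g m) else 0) - Q.coeff m • f) (by
    intro t _
    have e1 : ∑ m ∈ s ∪ Q.support ∪ {κD}, chr m t • ((if m ∈ s then σ (g m) else 0) -
        Q.coeff m • f) = ∑ m ∈ s, chr m t • σ (g m) - (eval t Q) • f := by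
      simp_rw [smul_sub, smul_ite, smul_zero]
      rw [Finset.sum_sub_distrib]
      congr 1
      · rw [← Finset.sum_filter]
        congr 1
        ext m
        simp only [Finset.mem_filter, Finset.mem_union, Finset.mem_singleton]
        tauto
      · rw [eval_eq, Finset.sum_smul]
        symm
        refine Finset.sum_subset_zero_on_sdiff ?_ ?_ ?_
        · intro m hm
          simp only [Finset.mem_union]
          exact Or.inl (Or.inr hm)
        · intro m hm
          rw [Finset.mem_sdiff, notMem_support_iff] at hm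
          rw [hm.2, zero_smul, smul_zero]
        · intro m _
          rw [smul_smul, mul_comm]
          rfl
    rw [e1, ← key, key2, sub_self]
    exact Submodule.zero_mem _) κD (by simp)
  simp only [Submodule.mem_bot] at h3
  have hc : Q.coeff κD ≠ 0 := block_coeff D b
  by_cases hs : κD ∈ s
  · rw [if_pos hs, sub_eq_zero] at h3
    refine ⟨D, (Q.coeff κD)⁻¹ • g κD, b, smulC_mem N _ (hgN _ hs), MW_smul (h2 _ hs).1 _, ?_⟩
    rw [sbC_smulC, ← hσ, h3, smul_smul, inv_mul_cancel₀ hc, one_smul]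
  · rw [if_neg hs, zero_sub, neg_eq_zero] at h3
    have hf0 : f = 0 := by
      rcases smul_eq_zero.1 h3 with h | h
      · exact absurd h hc
      · exact h
    exact ⟨D, 0, b, Submodule.zero_mem _, MW_zero _, by rw [hf0, map_zero]⟩

/-- every element is a sum of substitutions of multilinear elements -/
theorem pol_span {N : Submodule R (U R)} (hN : GLS N) {f : U R} (hf : f ∈ N) :
    f ∈ Submodule.span ℂ {f' : U R | ∃ (n : ℕ) (g : U R) (b : ℕ → ℕ), g ∈ N ∧ ML n g ∧
      f' = sbC (fun i => ee (b i)) g} := by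
  have hfT : f ∈ LT R Set.univ := by
    rw [LT_univ]
    exact Algebra.mem_top
  obtain ⟨s, g, h1, h2, -⟩ := exists_MW_decomp hfT
  have hgN : ∀ m ∈ s, g m ∈ N := GLS_MW_comp hN s g (fun m hm => (h2 m hm).1) (h1 ▸ hf)
  rw [h1]
  exact Submodule.sum_mem _ fun m hm =>
    Submodule.subset_span (pol_one hN (hgN m hm) (h2 m hm).1)

/-- a `GL`-stable submodule is determined by its multilinear elements -/
theorem pol_le {N N' : Submodule R (U R)} (hN : GLS N) (hN' : GLS N')
    (h : ∀ n, ∀ f ∈ N, ML n f → f ∈ N') : N ≤ N' := by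
  intro f hf
  have h1 := pol_span hN hf
  have h2 : Submodule.span ℂ {f' : U R | ∃ (n : ℕ) (g : U R) (b : ℕ → ℕ), g ∈ N ∧ ML n g ∧
      f' = sbC (fun i => ee (b i)) g} ≤ N'.restrictScalars ℂ := by
    rw [Submodule.span_le]
    rintro _ ⟨n, g, b, hg, hml, rfl⟩
    exact hN' _ g (h n g hg hml)
  exact h2 h1

theorem pol_gen {N : Submodule R (U R)} (hN : GLS N) :
    N = Submodule.span R {f' : U R | ∃ (n : ℕ) (g : U R) (φ : ℕ → V), g ∈ N ∧ ML n g ∧
      f' = sbC φ g} := by
  apply le_antisymm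
  · intro f hf
    have h1 := pol_span hN hf
    have h2 : Submodule.span ℂ {f' : U R | ∃ (n : ℕ) (g : U R) (b : ℕ → ℕ), g ∈ N ∧ ML n g ∧
        f' = sbC (fun i => ee (b i)) g} ≤ (Submodule.span R {f' : U R |
          ∃ (n : ℕ) (g : U R) (φ : ℕ → V), g ∈ N ∧ ML n g ∧
          f' = sbC φ g}).restrictScalars ℂ := by
      rw [Submodule.span_le]
      rintro _ ⟨n, g, b, hg, hml, rfl⟩
      exact Submodule.subset_span ⟨n, g, _, hg, hml, rfl⟩
    exact h2 h1
  · rw [Submodule.span_le]
    rintro _ ⟨n, g, φ, hg, -, rfl⟩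
    exact hN φ g hg

end MP50e386N
end

section
/-! (w1): Witt extension. -/

namespace MP50e386N

open MvPolynomial Pool.Agent.Lib.MP50e386

variable {R : Type} [CommRing R] [Algebra ℂ R] [GLRing R]

/-- an isometric family indexed by `0, …, 2n-1` is the beginning of an element of `Sp_∞` -/
theorem exists_sp (n : ℕ) (φ : ℕ → V)
    (h : ∀ i < 2 * n, ∀ j < 2 * n, om (φ i) (φ j) = om (ee i) (ee j)) :
    ∃ g : Cinf ≃ₗ[ℂ] Cinf, IsSp g ∧ ∀ i < 2 * n, g (ee i) = φ i := by
  obtain ⟨g, hg1, hg2, hg3⟩ := _root_.MP50e386.witt _root_.MP50e386.gdata_sp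
    _root_.MP50e386.step_sp (even_two_mul n) φ (by
      intro i hi j hj
      rw [← _root_.MP50e386.sympForm_eq, ← _root_.MP50e386.frm_ee,
        ← _root_.MP50e386.sympForm_eq]
      exact h i hi j hj)
  refine ⟨g, ⟨hg1, fun x y => ?_⟩, hg3⟩
  rw [_root_.MP50e386.sympForm_eq, _root_.MP50e386.sympForm_eq]
  exact hg2 x y

namespace T5

theorem gl_high {g : Cinf ≃ₗ[ℂ] Cinf} {n : ℕ}
    (h1 : ∀ i, n ≤ i → g (Finsupp.single i 1) = Finsupp.single i 1)
    (h2 : ∀ i < n, ∀ j, n ≤ j → g (Finsupp.single i 1) j = 0) (x : Cinf) (j : ℕ) (hj : n ≤ j) :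
    g x j = x j := by
  induction x using Finsupp.induction_linear with
  | zero => rw [map_zero]
  | add x y hx hy => rw [map_add, Finsupp.add_apply, Finsupp.add_apply, hx, hy]
  | single i a =>
    have e : (Finsupp.single i a : Cinf) = a • Finsupp.single i 1 := by
      rw [Finsupp.smul_single, smul_eq_mul, mul_one]
    rw [e, map_smul, Finsupp.smul_apply, Finsupp.smul_apply]
    by_cases hi : n ≤ i
    · rw [h1 i hi]
    · rw [h2 i (by omega) j hj, Finsupp.single_apply, if_neg (by omega)]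

end T5

theorem isSp_inv {g : Cinf ≃ₗ[ℂ] Cinf} (hg : IsSp g) : IsSp g.symm := by
  obtain ⟨⟨n, h1, h2⟩, h3⟩ := hg
  refine ⟨⟨n, fun i hi => ?_, fun i hi j hj => ?_⟩, fun x y => ?_⟩
  · rw [LinearEquiv.symm_apply_eq, h1 i hi]
  · rw [← T5.gl_high h1 h2 _ j hj, LinearEquiv.apply_symm_apply, Finsupp.single_apply,
      if_neg (by omega)]
  · rw [← h3, LinearEquiv.apply_symm_apply, LinearEquiv.apply_symm_apply]

theorem isSp_mul {g g' : Cinf ≃ₗ[ℂ] Cinf} (hg : IsSp g) (hg' : IsSp g') : IsSp (g'.trans g) := by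
  obtain ⟨⟨n, h1, h2⟩, h3⟩ := hg
  obtain ⟨⟨n', h1', h2'⟩, h3'⟩ := hg'
  refine ⟨⟨max n n', fun i hi => ?_, fun i hi j hj => ?_⟩, fun x y => ?_⟩
  · rw [LinearEquiv.trans_apply, h1' i (le_trans (le_max_right _ _) hi),
      h1 i (le_trans (le_max_left _ _) hi)]
  · rw [LinearEquiv.trans_apply, T5.gl_high h1 h2 _ j (le_trans (le_max_left _ _) hj),
      T5.gl_high h1' h2' _ j (le_trans (le_max_right _ _) hj), Finsupp.single_apply,
      if_neg (by omega)]
  · rw [LinearEquiv.trans_apply, LinearEquiv.trans_apply, h3, h3']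

namespace T5

open _root_.MP50e386 (frm pis sis gam gdata_sp)

/-- the symplectic form as a bilinear form -/
noncomputable abbrev B : LinearMap.BilinForm ℂ V := frm pis sis

theorem om_eq (x y : V) : om x y = B x y := _root_.MP50e386.sympForm_eq x y

theorem B_anti (x y : V) : B x y = - B y x := by
  have h := _root_.MP50e386.frm_refl_eps gdata_sp x y
  rw [neg_one_mul] at h
  exact h

theorem B_al (x y z : V) : B (x + y) z = B x z + B y z := by
  rw [map_add, LinearMap.add_apply]

theorem B_ar (x y z : V) : B x (y + z) = B x y + B x z := map_add _ _ _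

theorem B_sl (c : ℂ) (x z : V) : B (c • x) z = c * B x z := by
  rw [map_smul, LinearMap.smul_apply, smul_eq_mul]

theorem B_sr (c : ℂ) (x z : V) : B x (c • z) = c * B x z := by
  rw [map_smul, smul_eq_mul]

theorem B_suml {ι : Type} (s : Finset ι) (v : ι → V) (z : V) :
    B (∑ i ∈ s, v i) z = ∑ i ∈ s, B (v i) z := by
  rw [map_sum, LinearMap.sum_apply]

theorem B_sumr {ι : Type} (s : Finset ι) (v : ι → V) (z : V) :
    B z (∑ i ∈ s, v i) = ∑ i ∈ s, B z (v i) := map_sum _ _ _

theorem B_ee (i j : ℕ) : B (ee i) (ee j) = gam pis sis i j := _root_.MP50e386.frm_ee i j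

theorem pis_even {i : ℕ} (h : Even i) : pis i = i + 1 := by
  unfold pis
  rw [if_pos h]

theorem pis_odd {i : ℕ} (h : ¬ Even i) : pis i = i - 1 := by
  unfold pis
  rw [if_neg h]

/-- a far letter and a vector with low support -/
theorem B_far {n : ℕ} (x : V) (hx : ∀ j, 2 * n ≤ j → x j = 0) {k : ℕ} (hk : 2 * n ≤ k) :
    B (ee k) x = 0 := by
  have h1 : B (ee k) x = sis k * x (pis k) := _root_.MP50e386.frm_ee_left k x
  rw [h1, hx, mul_zero]
  by_contra hcon
  have h2 := _root_.MP50e386.pi_lt gdata_sp (even_two_mul n) (i := pis k) (by omega)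
  rw [gdata_sp.inv] at h2
  omega

theorem B_bb (n i j : ℕ) : B (ee (2 * n + 2 * i)) (ee (2 * n + 2 * j)) = 0 := by
  rw [B_ee]
  unfold gam
  have h : Even (2 * n + 2 * i) := ⟨n + i, by ring⟩
  rw [pis_even h, if_neg (by omega)]

theorem B_ss (n i j : ℕ) : B (ee (2 * n + 2 * i + 1)) (ee (2 * n + 2 * j + 1)) = 0 := by
  rw [B_ee]
  unfold gam
  have h : ¬ Even (2 * n + 2 * i + 1) := by
    rw [Nat.even_add_one, not_not]
    exact ⟨n + i, by ring⟩
  rw [pis_odd h, if_neg (by omega)]

theorem B_sb (n i j : ℕ) : B (ee (2 * n + 2 * i + 1)) (ee (2 * n + 2 * j)) =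
    if j = i then -1 else 0 := by
  rw [B_ee]
  unfold gam
  have h : ¬ Even (2 * n + 2 * i + 1) := by
    rw [Nat.even_add_one, not_not]
    exact ⟨n + i, by ring⟩
  rw [pis_odd h]
  have h2 : sis (2 * n + 2 * i + 1) = -1 := by
    unfold sis
    rw [if_neg h]
  by_cases hj : j = i
  · rw [if_pos (by omega), if_pos hj, h2]
  · rw [if_neg (by omega), if_neg hj]

theorem B_shift (n i j : ℕ) : B (ee (6 * n + i)) (ee (6 * n + j)) = B (ee i) (ee j) := by
  rw [B_ee, B_ee]
  have h : Even (6 * n) := ⟨3 * n, by ring⟩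
  rw [← _root_.MP50e386.gam_shift' gdata_sp h i j, add_comm i, add_comm j]

theorem B_farl (n i j : ℕ) (hj : j < 6 * n) : B (ee (6 * n + i)) (ee j) = 0 := by
  rw [B_ee]
  have h : Even (6 * n) := ⟨3 * n, by ring⟩
  exact _root_.MP50e386.gam_zero_right gdata_sp h (by omega) hj

end T5

/-- (w1) -/
theorem witt1 {N : Submodule R (U R)} (hN : GS N) {f : U R} (hf : f ∈ N) {T : Set ℕ}
    (hT : T.Finite) (hfT : f ∈ LT R T) (φ : ℕ → V)
    (h : ∀ i ∈ T, ∀ j ∈ T, om (φ i) (φ j) = om (ee i) (ee j)) : sbC φ f ∈ N := by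
  classical
  -- a level
  obtain ⟨n, hn1, hn2⟩ : ∃ n : ℕ, (∀ i ∈ T, i < 2 * n) ∧
      ∀ i ∈ T, ∀ j, 2 * n ≤ j → φ i j = 0 := by
    set S : Finset ℕ := hT.toFinset ∪ hT.toFinset.biUnion (fun i => (φ i).support) with hS
    refine ⟨S.sup id + 1, ?_, ?_⟩
    · intro i hi
      have h1 : i ∈ S := by
        rw [hS, Finset.mem_union]
        exact Or.inl (hT.mem_toFinset.2 hi)
      have h2 := Finset.le_sup (f := id) h1
      simp only [id] at h2
      omega
    · intro i hi j hj
      by_contra hne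
      have h1 : j ∈ S := by
        rw [hS, Finset.mem_union, Finset.mem_biUnion]
        exact Or.inr ⟨i, hT.mem_toFinset.2 hi, Finsupp.mem_support_iff.2 hne⟩
      have h2 := Finset.le_sup (f := id) h1
      simp only [id] at h2
      omega
  -- the family
  set T' : Finset ℕ := hT.toFinset with hT'
  have memT : ∀ i, i ∈ T' ↔ i ∈ T := fun i => hT.mem_toFinset
  set y : ℕ → V := fun i => ∑ j ∈ T', (- om (ee i) (ee j)) • ee (2 * n + 2 * j + 1) with hy
  set Ψ : ℂ → ℕ → V := fun t i => if i ∈ T then φ i + t • ee (2 * n + 2 * i) else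
    ee (6 * n + i) + t⁻¹ • y i with hΨ
  have hyb : ∀ i, ∀ j ∈ T, T5.B (y i) (ee (2 * n + 2 * j)) = om (ee i) (ee j) := by
    intro i j hj
    simp only [hy]
    rw [T5.B_suml, Finset.sum_eq_single j]
    · rw [T5.B_sl, T5.B_sb, if_pos rfl]
      ring
    · intro k _ hk
      rw [T5.B_sl, T5.B_sb, if_neg (fun h' => hk h'.symm), mul_zero]
    · intro h'
      exact absurd ((memT j).2 hj) h'
  have hyφ : ∀ i, ∀ j ∈ T, T5.B (y i) (φ j) = 0 := by
    intro i j hj
    simp only [hy]
    rw [T5.B_suml]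
    refine Finset.sum_eq_zero fun k _ => ?_
    rw [T5.B_sl, T5.B_far (φ j) (hn2 j hj) (by omega), mul_zero]
  have hyy : ∀ i i', T5.B (y i) (y i') = 0 := by
    intro i i'
    simp only [hy]
    rw [T5.B_suml]
    refine Finset.sum_eq_zero fun k _ => ?_
    rw [T5.B_sl, T5.B_sumr, Finset.sum_eq_zero, mul_zero]
    intro k' _
    rw [T5.B_sr, T5.B_ss, mul_zero]
  have hey : ∀ i i', T5.B (ee (6 * n + i)) (y i') = 0 := by
    intro i i'
    simp only [hy]
    rw [T5.B_sumr]
    refine Finset.sum_eq_zero fun k hk => ?_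
    have := hn1 k ((memT k).1 hk)
    rw [T5.B_sr, T5.B_farl n i _ (by omega), mul_zero]
  have heb : ∀ i, ∀ j ∈ T, T5.B (ee (6 * n + i)) (ee (2 * n + 2 * j)) = 0 := by
    intro i j hj
    have := hn1 j hj
    exact T5.B_farl n i _ (by omega)
  have heφ : ∀ i, ∀ j ∈ T, T5.B (ee (6 * n + i)) (φ j) = 0 := by
    intro i j hj
    have := hn1 j hj
    exact T5.B_far (φ j) (hn2 j hj) (by omega)
  have hbφ : ∀ i, ∀ j ∈ T, T5.B (ee (2 * n + 2 * i)) (φ j) = 0 := by
    intro i j hj
    exact T5.B_far (φ j) (hn2 j hj) (by omega)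
  -- mixed pairs
  have hmix : ∀ t : ℂ, t ≠ 0 → ∀ i, i ∉ T → ∀ j ∈ T,
      T5.B (Ψ t i) (Ψ t j) = om (ee i) (ee j) := by
    intro t ht i hi j hj
    simp only [hΨ]
    rw [if_neg hi, if_pos hj, T5.B_al, T5.B_ar, T5.B_ar, T5.B_sl, T5.B_sl, T5.B_sr, T5.B_sr,
      heφ i j hj, heb i j hj, hyφ i j hj, hyb i j hj]
    field_simp
    ring
  have hgram : ∀ t : ℂ, t ≠ 0 → ∀ i < 2 * n, ∀ j < 2 * n,
      om (Ψ t i) (Ψ t j) = om (ee i) (ee j) := by
    intro t ht i _ j _
    rw [T5.om_eq]
    by_cases hi : i ∈ T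
    · by_cases hj : j ∈ T
      · simp only [hΨ]
        rw [if_pos hi, if_pos hj, T5.B_al, T5.B_ar, T5.B_ar, T5.B_sl, T5.B_sl, T5.B_sr, T5.B_sr,
          T5.B_bb, hbφ i j hj, T5.B_anti (φ i) (ee (2 * n + 2 * j)), hbφ j i hi, ← T5.om_eq,
          h i hi j hj]
        ring
      · rw [T5.B_anti, hmix t ht j hj i hi, T5.om_eq, T5.om_eq, T5.B_anti (ee i)]
    · by_cases hj : j ∈ T
      · exact hmix t ht i hi j hj
      · simp only [hΨ]
        rw [if_neg hi, if_neg hj, T5.B_al, T5.B_ar, T5.B_ar, T5.B_sl, T5.B_sl, T5.B_sr, T5.B_sr,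
          hyy, hey, T5.B_anti (y i), hey, T5.B_shift, T5.om_eq]
        ring
  have hmem : ∀ t : ℂ, t ≠ 0 → sbC (fun i => φ i + t • ee (2 * n + 2 * i)) f ∈ N := by
    intro t ht
    obtain ⟨g, hg, hg'⟩ := exists_sp n (Ψ t) (hgram t ht)
    have h1 := hN g hg 1 one_ne_zero f hf
    rw [sbC_congr hfT _ (fun i => φ i + t • ee (2 * n + 2 * i))] at h1
    · exact h1
    · intro i hi
      rw [one_smul, hg' i (hn1 i hi)]
      simp only [hΨ]
      rw [if_pos hi]
  -- Vandermonde
  obtain ⟨P, hP⟩ := exists_sbU_poly (σ := Unit) (fun i =>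
    (cst (φ i) : VR R).mapRange (C : R →+* MvPolynomial Unit R) (map_zero _) +
      (X () : MvPolynomial Unit R) • (cst (ee (2 * n + 2 * i)) : VR R).mapRange
        (C : R →+* MvPolynomial Unit R) (map_zero _)) f
  have hP' : ∀ t : ℂ, sbC (fun i => φ i + t • ee (2 * n + 2 * i)) f =
      eval (fun _ => algebraMap ℂ (U R) t) P := by
    intro t
    have h1 := hP (fun _ => algebraMap ℂ R t)
    have h2 : (fun _ : Unit => (C (algebraMap ℂ R t) : U R)) =
        fun _ => algebraMap ℂ (U R) t := rfl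
    rw [h2] at h1
    rw [← h1]
    have h3 : (fun i => (cst (φ i + t • ee (2 * n + 2 * i)) : VR R)) = fun i =>
        ((cst (φ i) : VR R).mapRange (C : R →+* MvPolynomial Unit R) (map_zero _) +
      (X () : MvPolynomial Unit R) • (cst (ee (2 * n + 2 * i)) : VR R).mapRange
        (C : R →+* MvPolynomial Unit R) (map_zero _)).mapRange
          (eval fun _ : Unit => algebraMap ℂ R t) (map_zero _) := by
      funext i
      ext k
      by_cases hk : 2 * n + 2 * i = k
      · simp [cst, hk]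
      · simp [cst, hk]
    unfold sbC
    simp only [h3]
  have h3 := vand_mvpoly (N.restrictScalars ℂ) P (by
    intro t ht
    have h1 := hmem (t ()) (ht ())
    rw [hP'] at h1
    exact h1) 0
  have h4 := hP' 0
  rw [map_zero] at h4
  have h5 : eval (fun _ : Unit => (0 : U R)) P = P.coeff 0 := by
    rw [MvPolynomial.eval_zero', constantCoeff_eq]
  rw [h5] at h4
  rw [← h4] at h3
  simpa using h3

theorem T5.isSp_refl : IsSp (LinearEquiv.refl ℂ Cinf) := by
  refine ⟨⟨0, fun i _ => rfl, fun i hi => absurd hi (Nat.not_lt_zero i)⟩, fun x y => rfl⟩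

/-- (w1) with a scalar -/
theorem witt1_smul {N : Submodule R (U R)} (hN : GS N) {f : U R} (hf : f ∈ N) {T : Set ℕ}
    (hT : T.Finite) (hfT : f ∈ LT R T) (φ : ℕ → V) (c : ℂ) (hc : c ≠ 0)
    (h : ∀ i ∈ T, ∀ j ∈ T, om (φ i) (φ j) = c * om (ee i) (ee j)) : sbC φ f ∈ N := by
  obtain ⟨d, hd⟩ := IsAlgClosed.exists_pow_nat_eq c (n := 2) (by norm_num)
  have hd0 : d ≠ 0 := by
    rintro rfl
    apply hc
    rw [← hd]
    ring
  have h1 := witt1 hN hf hT hfT (fun i => d⁻¹ • φ i) (by
    intro i hi j hj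
    have h2 := h i hi j hj
    rw [T5.om_eq, T5.B_sl, T5.B_sr, ← T5.om_eq, h2, ← hd]
    field_simp)
  have h2 := hN _ T5.isSp_refl d hd0 _ h1
  rw [sbC_sbC] at h2
  have h3 : linC (fun i => d • (LinearEquiv.refl ℂ Cinf) (ee i)) = d • LinearMap.id := by
    apply Finsupp.lhom_ext'
    intro i
    apply LinearMap.ext_ring
    change linC (fun i => d • (LinearEquiv.refl ℂ Cinf) (ee i)) (ee i) = _
    rw [linC_ee]
    rfl
  have h4 : (fun i => (linC fun i => d • (LinearEquiv.refl ℂ Cinf) (ee i)) (d⁻¹ • φ i)) = φ := by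
    funext i
    rw [h3, LinearMap.smul_apply, LinearMap.id_apply, smul_smul, mul_inv_cancel₀ hd0, one_smul]
  rw [h4] at h2
  exact h2

/-- the same for ideals of `R` -/
theorem witt1I {I : Ideal R} (hI : GSI I) {a : R} (ha : a ∈ I) {T : Set ℕ}
    (hT : T.Finite) (haT : (C a : U R) ∈ LT R T) (φ : ℕ → V)
    (h : ∀ i ∈ T, ∀ j ∈ T, om (φ i) (φ j) = om (ee i) (ee j)) : sbR φ a ∈ I := by
  have h1 := witt1 ((GS_ofI I).2 hI) ((C_mem_ofI I a).2 ha) hT haT φ h
  rw [sbC_C, C_mem_ofI] at h1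
  exact h1

end MP50e386N
end

section
/-! Weights and (w2). -/

namespace MP50e386N

open MvPolynomial Pool.Agent.Lib.MP50e386

variable {R : Type} [CommRing R] [Algebra ℂ R] [GLRing R]

/-- strong homogeneity: scalars in `R` -/
private def SHW (d : ℕ) (f : U R) : Prop :=
  ∀ (c : R) (ψ : ℕ → VR R), sbU (fun i => c • ψ i) f = c ^ d • sbU ψ f

omit [GLRing R] in
private theorem cst_ee (i : ℕ) : (cst (ee i) : VR R) = Finsupp.single i 1 := by
  unfold cst
  rw [Finsupp.mapRange.linearMap_apply, Finsupp.mapRange_single, Algebra.linearMap_apply, map_one]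

omit [GLRing R] in
private theorem cst_smul (c : ℂ) (v : V) : (cst (c • v) : VR R) = algebraMap ℂ R c • cst v := by
  rw [map_smul]
  exact (algebraMap_smul R c _).symm

private theorem SHW.hw {d : ℕ} {f : U R} (hf : SHW d f) : HW d f := by
  intro c
  have h := hf (algebraMap ℂ R c) (fun i => cst (ee i))
  unfold sbC
  have e : (fun i => (cst (c • ee i) : VR R)) = fun i => algebraMap ℂ R c • cst (ee i) := by
    funext i
    exact cst_smul c _
  rw [e, h]
  have e2 : sbU (fun i => (cst (ee i) : VR R)) f = f := sbC_id f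
  rw [e2, ← map_pow, algebraMap_smul]

private theorem SHW.zero (d : ℕ) : SHW d (0 : U R) := by
  intro c ψ
  rw [map_zero, map_zero, smul_zero]

private theorem SHW.add {d : ℕ} {f g : U R} (hf : SHW d f) (hg : SHW d g) : SHW d (f + g) := by
  intro c ψ
  rw [map_add, map_add, hf c ψ, hg c ψ, smul_add]

private theorem SHW.mul {d e : ℕ} {f g : U R} (hf : SHW d f) (hg : SHW e g) :
    SHW (d + e) (f * g) := by
  intro c ψ
  rw [map_mul, map_mul, hf c ψ, hg c ψ, smul_mul_smul_comm, pow_add]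

private theorem SHW.sum {ι : Type} (s : Finset ι) (d : ℕ) (f : ι → U R)
    (h : ∀ i ∈ s, SHW d (f i)) : SHW d (∑ i ∈ s, f i) := by
  classical
  induction s using Finset.induction_on with
  | empty => rw [Finset.sum_empty]; exact SHW.zero d
  | insert a s ha ih =>
    rw [Finset.sum_insert ha]
    exact (h a (Finset.mem_insert_self _ _)).add
      (ih fun i hi => h i (Finset.mem_insert_of_mem hi))

private theorem SHW_C (a : ℂ) : SHW 0 (C (algebraMap ℂ R a) : U R) := by
  intro c ψ
  rw [sbU_C, sbU_C, AlgHom.commutes, AlgHom.commutes, pow_zero, one_smul]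

private theorem SHW_x (i j : ℕ) : SHW 2 (C (GLRing.x i j) : U R) := by
  intro c ψ
  have e : (xf (c • ψ i) (c • ψ j) : R) = c ^ 2 * xf (ψ i) (ψ j) := by
    rw [LinearMap.map_smul, LinearMap.map_smul, LinearMap.smul_apply, smul_smul, ← pow_two,
      smul_eq_mul]
  rw [sbU_C, sbU_C, sb_x', sb_x', e, smul_eq_C_mul, map_mul]

private theorem SHW_X (a i : ℕ) : SHW 1 (X (a, i) : U R) := by
  intro c ψ
  rw [sbU_X, sbU_X, map_smul, pow_one]

private theorem SHW.decomp_pad {n : ℕ} (m : ℕ) (hnm : n ≤ m) {f : U R} {g : ℕ → U R}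
    (h : f = ∑ d ∈ Finset.range n, g d) (hg : ∀ d, SHW d (g d)) :
    ∃ g' : ℕ → U R, f = ∑ d ∈ Finset.range m, g' d ∧ ∀ d, SHW d (g' d) := by
  refine ⟨fun d => if d < n then g d else 0, ?_, ?_⟩
  · rw [h, ← Finset.sum_subset (Finset.range_mono hnm)]
    · refine Finset.sum_congr rfl fun d hd => ?_
      rw [if_pos (Finset.mem_range.1 hd)]
    · intro d _ hd
      rw [if_neg (fun h => hd (Finset.mem_range.2 h))]
  · intro d
    dsimp only
    split_ifs
    · exact hg d
    · exact SHW.zero d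

private theorem exists_SHW_decomp (f : U R) :
    ∃ (n : ℕ) (g : ℕ → U R), f = ∑ d ∈ Finset.range n, g d ∧ ∀ d, SHW d (g d) := by
  have hf : f ∈ LT R Set.univ := by rw [LT_univ]; trivial
  have single : ∀ (e : ℕ) (u : U R), SHW e u →
      ∃ (n : ℕ) (g : ℕ → U R), u = ∑ d ∈ Finset.range n, g d ∧ ∀ d, SHW d (g d) := by
    intro e u hu
    refine ⟨e + 1, fun d => if d = e then u else 0, ?_, ?_⟩
    · rw [Finset.sum_ite_eq' (Finset.range (e + 1)) e (fun _ => u),
        if_pos (Finset.mem_range.2 (Nat.lt_succ_self e))]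
    · intro d
      dsimp only
      split_ifs with h
      · rw [h]; exact hu
      · exact SHW.zero d
  unfold LT at hf
  induction hf using Algebra.adjoin_induction with
  | mem u hu =>
    rcases hu with ⟨i, _, j, _, rfl⟩ | ⟨a, i, _, rfl⟩
    · exact single 2 _ (SHW_x i j)
    · exact single 1 _ (SHW_X a i)
  | algebraMap c =>
    refine single 0 _ ?_
    have := SHW_C (R := R) c
    exact this
  | add u v _ _ hu hv =>
    obtain ⟨n, g, hg, hg'⟩ := hu
    obtain ⟨m, k, hk, hk'⟩ := hv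
    obtain ⟨g1, h1, h1'⟩ := SHW.decomp_pad (max n m) (le_max_left _ _) hg hg'
    obtain ⟨k1, h2, h2'⟩ := SHW.decomp_pad (max n m) (le_max_right _ _) hk hk'
    refine ⟨max n m, fun d => g1 d + k1 d, ?_, fun d => (h1' d).add (h2' d)⟩
    rw [Finset.sum_add_distrib, ← h1, ← h2]
  | mul u v _ _ hu hv =>
    obtain ⟨n, g, hg, hg'⟩ := hu
    obtain ⟨m, k, hk, hk'⟩ := hv
    refine ⟨n + m, fun d => ∑ p ∈ (Finset.range n ×ˢ Finset.range m).filter
      (fun p => p.1 + p.2 = d), g p.1 * k p.2, ?_, ?_⟩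
    · rw [Finset.sum_fiberwise_of_maps_to (s := Finset.range n ×ˢ Finset.range m)
        (t := Finset.range (n + m)) (g := fun p => p.1 + p.2) ?_ (fun p => g p.1 * k p.2),
        hg, hk, Finset.sum_mul_sum, Finset.sum_product]
      intro p hp
      rw [Finset.mem_product, Finset.mem_range, Finset.mem_range] at hp
      rw [Finset.mem_range]
      omega
    · intro d
      refine SHW.sum _ _ _ fun p hp => ?_
      rw [Finset.mem_filter] at hp
      rw [← hp.2]
      exact (hg' _).mul (hk' _)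

theorem exists_HW_decomp (f : U R) :
    ∃ (n : ℕ) (g : ℕ → U R), f = ∑ d ∈ Finset.range n, g d ∧ ∀ d, HW d (g d) := by
  obtain ⟨n, g, h, h'⟩ := exists_SHW_decomp f
  exact ⟨n, g, h, fun d => (h' d).hw⟩

theorem HW_add {d : ℕ} {f g : U R} (hf : HW d f) (hg : HW d g) : HW d (f + g) := by
  intro c
  rw [map_add, hf c, hg c, smul_add]

theorem HW_mul {d d' : ℕ} {f g : U R} (hf : HW d f) (hg : HW d' g) : HW (d + d') (f * g) := by
  intro c
  rw [map_mul, hf c, hg c, smul_mul_smul_comm, pow_add]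

theorem HW_sbC {d : ℕ} {f : U R} (hf : HW d f) (φ : ℕ → V) : HW d (sbC φ f) := by
  intro c
  have h := congrArg (sbC φ) (hf c)
  rw [sbC_smulC, sbC_sbC] at h
  have h1 : (linC (fun i => c • ee i)) = c • (LinearMap.id : V →ₗ[ℂ] V) := by
    apply Finsupp.lhom_ext
    intro j b
    unfold linC
    rw [Finsupp.linearCombination_single, LinearMap.smul_apply, LinearMap.id_apply, smul_comm,
      Finsupp.smul_single, smul_eq_mul, mul_one]
  have h2 : (fun i => linC φ (c • ee i)) = fun i => linC (fun i => c • ee i) (φ i) := by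
    funext i
    rw [LinearMap.map_smul, linC_ee, h1, LinearMap.smul_apply, LinearMap.id_apply]
  rw [sbC_sbC, ← h, h2]

theorem HW_unique {d d' : ℕ} {f : U R} (hf : HW d f) (hf' : HW d' f) (h : f ≠ 0) : d = d' := by
  have e : (2 : ℂ) ^ d • f = (2 : ℂ) ^ d' • f := (hf 2).symm.trans (hf' 2)
  have e2 : ((2 : ℂ) ^ d - 2 ^ d') • f = 0 := by rw [sub_smul, e, sub_self]
  rcases smul_eq_zero.1 e2 with e3 | e3
  · have e4 : (2 : ℂ) ^ d = 2 ^ d' := sub_eq_zero.1 e3
    have e5 : (2 : ℕ) ^ d = 2 ^ d' := by exact_mod_cast e4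
    exact Nat.pow_right_injective le_rfl e5
  · exact absurd e3 h

private theorem inf_ne : {t : ℂ | t ≠ 0}.Infinite := by
  have : {t : ℂ | t ≠ 0} = ({0} : Set ℂ)ᶜ := by
    ext t
    simp
  rw [this]
  exact (Set.finite_singleton (0 : ℂ)).infinite_compl

/-- components of elements of a scaling stable subspace -/
theorem HW_comp_mem (N : Submodule ℂ (U R))
    (hN : ∀ t : ℂ, t ≠ 0 → ∀ f ∈ N, sbC (fun i => t • ee i) f ∈ N) (n : ℕ) (g : ℕ → U R)
    (hg : ∀ d, HW d (g d)) (h : ∑ d ∈ Finset.range n, g d ∈ N) : ∀ d < n, g d ∈ N := by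
  refine vand1 N n g (inf_ne.mono ?_)
  intro t ht
  have h1 := hN t ht _ h
  rw [map_sum] at h1
  show ∑ k ∈ Finset.range n, t ^ k • g k ∈ N
  have e : ∑ k ∈ Finset.range n, t ^ k • g k =
      ∑ x ∈ Finset.range n, sbC (fun i => t • ee i) (g x) :=
    Finset.sum_congr rfl fun d _ => (hg d t).symm
  rw [e]
  exact h1

/-- a homogeneous element is strongly homogeneous -/
private theorem HW.shw {d : ℕ} {f : U R} (hf : HW d f) : SHW d f := by
  obtain ⟨n, g, h, h'⟩ := exists_SHW_decomp f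
  -- all components `g e`, `e ≠ d`, vanish
  have key : ∀ e < n, e ≠ d → g e = 0 := by
    set G : ℕ → U R := fun e => g e - if e = d then f else 0 with hG
    have hGd : ∀ e, HW e (G e) := by
      intro e c
      rw [hG]
      dsimp only
      rw [map_sub, (h' e).hw c, smul_sub]
      congr 1
      split_ifs with hed
      · rw [hed]; exact hf c
      · rw [map_zero, smul_zero]
    by_cases hd : d < n
    · have hs : ∑ e ∈ Finset.range n, G e = 0 := by
        rw [hG]
        dsimp only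
        rw [Finset.sum_sub_distrib, ← h, Finset.sum_ite_eq' (Finset.range n) d (fun _ => f),
          if_pos (Finset.mem_range.2 hd), sub_self]
      have h0 := HW_comp_mem (⊥ : Submodule ℂ (U R)) (by
        intro t _ u hu
        rw [Submodule.mem_bot] at hu ⊢
        rw [hu, map_zero]) n G hGd (by rw [hs]; exact Submodule.zero_mem _)
      intro e he hne
      have h1 := h0 e he
      rw [Submodule.mem_bot, hG] at h1
      dsimp only at h1
      rwa [if_neg hne, sub_zero] at h1
    · -- pad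
      set G' : ℕ → U R := fun e => (if e < n then g e else 0) - if e = d then f else 0 with hG'
      have hGd' : ∀ e, HW e (G' e) := by
        intro e c
        rw [hG']
        dsimp only
        rw [map_sub, smul_sub]
        congr 1
        · split_ifs
          · exact (h' e).hw c
          · rw [map_zero, smul_zero]
        · split_ifs with hed
          · rw [hed]; exact hf c
          · rw [map_zero, smul_zero]
      have hs : ∑ e ∈ Finset.range (d + 1), G' e = 0 := by
        rw [hG']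
        dsimp only
        rw [Finset.sum_sub_distrib, Finset.sum_ite_eq' (Finset.range (d + 1)) d (fun _ => f),
          if_pos (Finset.mem_range.2 (Nat.lt_succ_self d))]
        rw [sub_eq_zero, h, ← Finset.sum_subset (Finset.range_mono (show n ≤ d + 1 by omega))]
        · refine Finset.sum_congr rfl fun e he => ?_
          rw [if_pos (Finset.mem_range.1 he)]
        · intro e _ he
          rw [if_neg (fun h => he (Finset.mem_range.2 h))]
      have h0 := HW_comp_mem (⊥ : Submodule ℂ (U R)) (by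
        intro t _ u hu
        rw [Submodule.mem_bot] at hu ⊢
        rw [hu, map_zero]) (d + 1) G' hGd' (by rw [hs]; exact Submodule.zero_mem _)
      intro e he hne
      have h1 := h0 e (by omega)
      rw [Submodule.mem_bot, hG'] at h1
      dsimp only at h1
      rwa [if_neg hne, sub_zero, if_pos he] at h1
  by_cases hd : d < n
  · have e : f = g d := by
      rw [h, Finset.sum_eq_single d]
      · intro b hb hne
        exact key b (Finset.mem_range.1 hb) hne
      · intro hb
        exact absurd (Finset.mem_range.2 hd) hb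
    rw [e]
    exact h' d
  · have e : f = 0 := by
      rw [h]
      refine Finset.sum_eq_zero fun b hb => ?_
      have hb' := Finset.mem_range.1 hb
      exact key b hb' (by omega)
    rw [e]
    exact SHW.zero d

/-- substitution of scaled vectors -/
theorem HW_smul {d : ℕ} {f : U R} (hf : HW d f) (c : R) (ψ : ℕ → VR R) :
    sbU (fun i => c • ψ i) f = c ^ d • sbU ψ f := HW.shw hf c ψ

private theorem isSp_one : IsSp (LinearEquiv.refl ℂ Cinf) := by
  refine ⟨⟨0, fun i _ => rfl, fun i hi => absurd hi (Nat.not_lt_zero i)⟩, fun x y => rfl⟩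

private theorem GS.scal {N : Submodule R (U R)} (hN : GS N) (t : ℂ) (ht : t ≠ 0) {f : U R}
    (hf : f ∈ N) : sbC (fun i => t • ee i) f ∈ N := hN _ isSp_one t ht f hf

theorem GS_HW_comp {N : Submodule R (U R)} (hN : GS N) (n : ℕ) (g : ℕ → U R)
    (hg : ∀ d, HW d (g d)) (h : ∑ d ∈ Finset.range n, g d ∈ N) : ∀ d < n, g d ∈ N :=
  HW_comp_mem (N.restrictScalars ℂ) (fun t ht _ hf => GS.scal hN t ht hf) n g hg h

/-- two graded submodules -/
theorem GS_le_of_HW {N N' : Submodule R (U R)} (hN : GS N)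
    (h : ∀ d, ∀ f ∈ N, HW d f → f ∈ N') : N ≤ N' := by
  intro f hf
  obtain ⟨n, g, hg, hg'⟩ := exists_HW_decomp f
  rw [hg] at hf ⊢
  refine Submodule.sum_mem _ fun d hd => ?_
  exact h d _ (GS_HW_comp hN n g hg' hf d (Finset.mem_range.1 hd)) (hg' d)

/-- elements of `MS S` and `BD` of weight `d`; the constants -/
theorem HW_C (a : ℂ) : HW 0 (C (algebraMap ℂ R a) : U R) := (SHW_C a).hw

private theorem om_frm (x y : V) : om x y = MP50e386.frm MP50e386.pis MP50e386.sis x y :=
  MP50e386.sympForm_eq x y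

private theorem pis_shift (j : ℕ) (k : ℕ) :
    MP50e386.pis (j + 2 * k) = MP50e386.pis j + 2 * k := by
  induction k with
  | zero => rfl
  | succ k ih =>
    have h := MP50e386.gdata_sp.shift (j + 2 * k)
    rw [show j + 2 * (k + 1) = j + 2 * k + 2 by ring, h, ih]
    ring

private theorem om_far (x : V) (j k : ℕ) (h : ∀ i, 2 * k ≤ i → x i = 0) :
    om x (ee (j + 2 * k)) = 0 ∧ om (ee (j + 2 * k)) x = 0 := by
  have h1 : x (MP50e386.pis (j + 2 * k)) = 0 := by
    apply h
    rw [pis_shift]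
    omega
  constructor
  · rw [om_frm]
    have := MP50e386.frm_ee_right MP50e386.gdata_sp x (j + 2 * k)
    rw [h1, mul_zero, mul_zero] at this
    exact this
  · rw [om_frm]
    have := MP50e386.frm_ee_left (π := MP50e386.pis) (σ := MP50e386.sis) (j + 2 * k) x
    rw [h1, mul_zero] at this
    exact this

private theorem om_ee_shift (i j k : ℕ) :
    om (ee (i + 2 * k)) (ee (j + 2 * k)) = om (ee i) (ee j) := by
  rw [om_frm, om_frm]
  have h1 := MP50e386.frm_ee (π := MP50e386.pis) (σ := MP50e386.sis) (i + 2 * k) (j + 2 * k)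
  have h2 := MP50e386.frm_ee (π := MP50e386.pis) (σ := MP50e386.sis) i j
  have h3 := MP50e386.gam_shift' MP50e386.gdata_sp (N := 2 * k) ⟨k, by ring⟩ i j
  exact h1.trans (h3.trans h2.symm)

private theorem om_add_smul (a b a' b' : V) (u : ℂ) : om (a + u • b) (a' + u • b') =
    om a a' + u * om a b' + u * om b a' + u ^ 2 * om b b' := by
  simp only [om_frm, map_add, map_smul, LinearMap.add_apply, LinearMap.smul_apply, smul_eq_mul]
  ring

omit [GLRing R] in
private theorem cst_mapRange (v : V) (σ : Type) (t : σ → R) :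
    ((cst v : VR R).mapRange (C : R →+* MvPolynomial σ R) (map_zero _)).mapRange (eval t)
      (map_zero _) = cst v := by
  ext i
  rw [Finsupp.mapRange_apply, Finsupp.mapRange_apply, eval_C]

/-- (w2) -/
theorem witt2 {N : Submodule R (U R)} (hN : GS N) {f : U R} (hf : f ∈ N) (φ : ℕ → V)
    (hφ : Iso φ) : sbC φ f ∈ N := by
  obtain ⟨n, hn⟩ := exists_LT f
  -- a bound for the supports
  obtain ⟨k, hk⟩ : ∃ k, ∀ i < n, ∀ j, 2 * k ≤ j → φ i j = 0 := by
    refine ⟨(Finset.range n).sup (fun i => (φ i).support.sup id) + 1, ?_⟩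
    intro i hi j hj
    by_contra hne
    have h1 : j ≤ (φ i).support.sup id :=
      Finset.le_sup (f := id) (Finsupp.mem_support_iff.2 hne)
    have h2 : (φ i).support.sup id ≤ (Finset.range n).sup (fun i => (φ i).support.sup id) :=
      Finset.le_sup (f := fun i => (φ i).support.sup id) (Finset.mem_range.2 hi)
    omega
  obtain ⟨P, hP⟩ := exists_sbU_poly (R := R) (σ := Unit)
    (fun i => (cst (φ i) : VR R).mapRange (C : R →+* MvPolynomial Unit R) (map_zero _) +
      Finsupp.single (i + 2 * k) (X ())) f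
  have hval : ∀ t : Unit → R, (fun i => ((cst (φ i) : VR R).mapRange
      (C : R →+* MvPolynomial Unit R) (map_zero _) +
      Finsupp.single (i + 2 * k) (X ())).mapRange (eval t) (map_zero _)) =
      fun i => cst (φ i) + t () • cst (ee (i + 2 * k)) := by
    intro t
    funext i
    rw [Finsupp.mapRange_add (map_add _), cst_mapRange, Finsupp.mapRange_single, eval_X, cst_ee,
      Finsupp.smul_single, smul_eq_mul, mul_one]
  have key : ∀ m, P.coeff m ∈ N.restrictScalars ℂ := by
    refine vand_mvpoly _ P ?_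
    intro t ht
    have h1 := hP (fun i => algebraMap ℂ R (t i))
    rw [hval] at h1
    have h2 : (fun i : Unit => (algebraMap ℂ (U R)) (t i)) =
        fun i => C (algebraMap ℂ R (t i)) := rfl
    rw [h2, ← h1]
    have h3 : (fun i => (cst (φ i) : VR R) + algebraMap ℂ R (t ()) • cst (ee (i + 2 * k))) =
        fun i => cst (φ i + t () • ee (i + 2 * k)) := by
      funext i
      rw [map_add, cst_smul]
    rw [h3]
    refine witt1_smul hN hf (Set.finite_Iio n) hn _ (t () ^ 2) (pow_ne_zero _ (ht ())) ?_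
    intro i hi j hj
    have hi' : i < n := hi
    have hj' : j < n := hj
    rw [om_add_smul, hφ i j, (om_far (φ i) j k (hk i hi')).1, (om_far (φ j) i k (hk j hj')).2,
      om_ee_shift]
    ring
  have h0 := key 0
  have h1 := hP (fun _ => 0)
  rw [hval] at h1
  have h2 : (fun i => (cst (φ i) : VR R) + (0 : R) • cst (ee (i + 2 * k))) =
      fun i => cst (φ i) := by
    funext i
    rw [zero_smul, add_zero]
  have h3 : (fun _ : Unit => (C (0 : R) : U R)) = 0 := by
    funext i
    rw [map_zero]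
    rfl
  rw [h2, h3, eval_zero, constantCoeff_eq] at h1
  have h4 : sbC φ f = P.coeff 0 := h1
  rw [h4]
  exact h0

/-- (w2) for finitely many letters -/
theorem witt2' {N : Submodule R (U R)} (hN : GS N) {f : U R} (hf : f ∈ N) {T : Set ℕ}
    (hfT : f ∈ LT R T) (φ : ℕ → V)
    (h : ∀ i ∈ T, ∀ j ∈ T, om (φ i) (φ j) = 0) : sbC φ f ∈ N := by
  classical
  have e : sbC φ f = sbC (fun i => if i ∈ T then φ i else 0) f :=
    sbC_congr hfT _ _ fun i hi => by rw [if_pos hi]
  rw [e]
  refine witt2 hN hf _ ?_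
  intro i j
  dsimp only
  split_ifs with h1 h2 h2
  · exact h i h1 j h2
  · rw [om_frm, map_zero]
  · rw [om_frm, map_zero, LinearMap.zero_apply]
  · rw [om_frm, map_zero]

theorem witt2I {I : Ideal R} (hI : GSI I) {a : R} (ha : a ∈ I) (φ : ℕ → V)
    (hφ : Iso φ) : sbR φ a ∈ I := by
  have h1 := witt2 ((GS_ofI I).2 hI) ((C_mem_ofI I a).2 ha) φ hφ
  rw [sbC_C] at h1
  exact (C_mem_ofI I _).1 h1

end MP50e386N
end

section
/-! The sandwich `nn (M1 N) ≤ N ≤ M1 N`, and chain conditions. -/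

namespace MP50e386N

open MvPolynomial Pool.Agent.Lib.MP50e386

variable {R : Type} [CommRing R] [Algebra ℂ R] [GLRing R]

/-- the symplectic form as a bilinear map -/
private noncomputable def omL : V →ₗ[ℂ] V →ₗ[ℂ] ℂ :=
  Finsupp.linearCombination ℂ (fun i =>
    (if Even i then Finsupp.lapply (i + 1) else -Finsupp.lapply (i - 1) : V →ₗ[ℂ] ℂ))

private theorem omL_eq (u v : V) : omL u v = om u v := by
  unfold omL
  rw [Finsupp.linearCombination_apply]
  change _ = sympForm u v
  unfold sympForm Finsupp.sum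
  rw [LinearMap.sum_apply]
  apply Finset.sum_congr rfl
  intro i _
  beta_reduce
  split_ifs
  · simp
  · simp

theorem Iso.lin {φ : ℕ → V} (h : Iso φ) (φ' : ℕ → V) : Iso (fun i => linC φ (φ' i)) := by
  have h0 : omL.compl₁₂ (linC φ) (linC φ) = 0 := by
    apply Finsupp.lhom_ext'
    intro i
    apply LinearMap.ext_ring
    apply Finsupp.lhom_ext'
    intro j
    apply LinearMap.ext_ring
    change omL (linC φ (ee i)) (linC φ (ee j)) = 0
    rw [linC_ee, linC_ee, omL_eq]
    exact h i j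
  intro i j
  have h1 := congrArg (fun f : V →ₗ[ℂ] V →ₗ[ℂ] ℂ => f (φ' i) (φ' j)) h0
  change omL (linC φ (φ' i)) (linC φ (φ' j)) = 0 at h1
  rw [omL_eq] at h1
  exact h1

theorem M1_le (S : Finset ℕ) (N : Submodule R (U R)) : M1 S N ≤ MS R S := fun _ hf => hf.1

theorem M1_GLS (S : Finset ℕ) (N : Submodule R (U R)) : GLS (M1 S N) := by
  intro φ f hf
  refine ⟨GLS_MS S φ f hf.1, fun φ' hφ' => ?_⟩
  rw [sbC_sbC]
  exact hf.2 _ (hφ'.lin φ)

theorem M1_mono {S : Finset ℕ} {N N' : Submodule R (U R)} (h : N ≤ N') : M1 S N ≤ M1 S N' :=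
  fun _ hf => ⟨hf.1, fun φ hφ => h (hf.2 φ hφ)⟩

theorem le_M1 {S : Finset ℕ} {N : Submodule R (U R)} (hN : GS N) (h : N ≤ MS R S) :
    N ≤ M1 S N := fun _ hf => ⟨h hf, fun φ hφ => witt2 hN hf φ hφ⟩

theorem nn_mono {M M' : Submodule R (U R)} (h : M ≤ M') : nn M ≤ nn M' := by
  unfold nn
  apply Submodule.span_mono
  rintro f ⟨φ, hφ, g, hg, rfl⟩
  exact ⟨φ, hφ, g, h hg, rfl⟩

private theorem linC_smul_g (g : Cinf ≃ₗ[ℂ] Cinf) (c : ℂ) (v : V) :
    linC (fun i => c • g (ee i)) v = c • g v := by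
  have h0 : linC (fun i => c • g (ee i)) = c • g.toLinearMap := by
    apply Finsupp.lhom_ext'
    intro i
    apply LinearMap.ext_ring
    change linC (fun i => c • g (ee i)) (ee i) = c • g (ee i)
    rw [linC_ee]
  rw [h0]
  rfl

theorem nn_GS {M : Submodule R (U R)} (hM : GLS M) : GS (nn M) := by
  unfold nn
  apply GS_span
  rintro g hg c hc f ⟨φ, hφ, h, hh, rfl⟩
  apply Submodule.subset_span
  refine ⟨fun i => linC (fun i => c • g (ee i)) (φ i), ?_, h, hh, sbC_sbC _ _ _⟩
  intro i j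
  simp only [linC_smul_g]
  rw [← omL_eq, map_smul, map_smul, LinearMap.smul_apply, omL_eq]
  change c • c • sympForm (g (φ i)) (g (φ j)) = 0
  rw [hg.2]
  have h3 : sympForm (φ i) (φ j) = 0 := hφ i j
  rw [h3, smul_zero, smul_zero]

theorem nn_le {M : Submodule R (U R)} (hM : GLS M) : nn M ≤ M := by
  unfold nn
  rw [Submodule.span_le]
  rintro f ⟨φ, hφ, g, hg, rfl⟩
  exact hM φ g hg

theorem nn_M1_le (S : Finset ℕ) (N : Submodule R (U R)) : nn (M1 S N) ≤ N := by
  unfold nn
  rw [Submodule.span_le]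
  rintro f ⟨φ, hφ, g, hg, rfl⟩
  exact hg.2 φ hφ

theorem mem_nn_of_iso_letters {M : Submodule R (U R)} {f : U R} (hf : f ∈ M) {T : Set ℕ}
    (hfT : f ∈ LT R T) (hT : ∀ i ∈ T, ∀ j ∈ T, om (ee i) (ee j) = 0) : f ∈ nn M := by
  classical
  unfold nn
  apply Submodule.subset_span
  refine ⟨fun i => if i ∈ T then ee i else 0, ?_, f, hf, ?_⟩
  · intro i j
    by_cases hi : i ∈ T
    · by_cases hj : j ∈ T
      · simp only [if_pos hi, if_pos hj]
        exact hT i hi j hj
      · simp only [if_neg hj]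
        rw [← omL_eq, map_zero]
    · simp only [if_neg hi]
      rw [← omL_eq, map_zero, LinearMap.zero_apply]
  · rw [← sbC_congr hfT ee (fun i => if i ∈ T then ee i else 0)
      (fun i hi => by simp only [if_pos hi]), sbC_id]

theorem smul_mem_nn {M : Submodule R (U R)} {f : U R} (a : R) (hf : f ∈ nn M) : a • f ∈ nn M :=
  Submodule.smul_mem _ a hf

/-! chain conditions -/

/-- (n1) -/
theorem NoethInt.trans {P : Submodule R (U R) → Prop}
    (hsup : ∀ N N', P N → P N' → P (N ⊔ N')) (hinf : ∀ N N', P N → P N' → P (N ⊓ N'))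
    {X Y Z : Submodule R (U R)} (hY : P Y) (hXY : X ≤ Y) (hYZ : Y ≤ Z)
    (h1 : NoethInt P X Y) (h2 : NoethInt P Y Z) : NoethInt P X Z := by
  intro N hmono hN
  obtain ⟨n1, hn1⟩ := h1 (fun i => N i ⊓ Y) (fun i j hij => inf_le_inf_right _ (hmono hij))
    (fun i => ⟨hinf _ _ (hN i).1 hY, le_inf (hN i).2.1 hXY, inf_le_right⟩)
  obtain ⟨n2, hn2⟩ := h2 (fun i => N i ⊔ Y) (fun i j hij => sup_le_sup_right (hmono hij) _)
    (fun i => ⟨hsup _ _ (hN i).1 hY, le_sup_right, sup_le (hN i).2.2 hYZ⟩)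
  refine ⟨max n1 n2, fun n hn => ?_⟩
  symm
  apply eq_of_le_of_inf_le_of_sup_le (z := Y)
  · exact hmono hn
  · exact le_of_eq ((hn1 n (le_trans (le_max_left _ _) hn)).trans (hn1 _ (le_max_left _ _)).symm)
  · exact le_of_eq ((hn2 n (le_trans (le_max_right _ _) hn)).trans (hn2 _ (le_max_right _ _)).symm)

theorem NoethInt.mono {P : Submodule R (U R) → Prop} {X X' Y Y' : Submodule R (U R)}
    (hX : X ≤ X') (hY : Y' ≤ Y) (h : NoethInt P X Y) : NoethInt P X' Y' :=
  fun N hmono hN => h N hmono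
    (fun i => ⟨(hN i).1, le_trans hX (hN i).2.1, le_trans (hN i).2.2 hY⟩)

theorem NoethInt.refl (P : Submodule R (U R) → Prop) (X : Submodule R (U R)) :
    NoethInt P X X := by
  intro N _ hN
  refine ⟨0, fun n _ => ?_⟩
  rw [le_antisymm (hN n).2.2 (hN n).2.1, le_antisymm (hN 0).2.2 (hN 0).2.1]

/-- (n2): a chain between `X` and `Y` is controlled by its preimages under a family of additive
maps whose images together with `X` generate `Y`; here for one map -/
theorem NoethInt.of_map {R' : Type} [CommRing R'] [Algebra ℂ R'] [GLRing R']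
    {P : Submodule R (U R) → Prop} {P' : Submodule R' (U R') → Prop}
    {X Y : Submodule R (U R)} {X' Y' : Submodule R' (U R')} (Th : U R' →+ U R)
    (hpre : ∀ N, P N → X ≤ N → N ≤ Y → ∃ N' : Submodule R' (U R'),
      (∀ f, f ∈ N' ↔ f ∈ Y' ∧ Th f ∈ N) ∧ P' N' ∧ X' ≤ N')
    (hY : ∀ y ∈ Y, ∃ f ∈ Y', ∃ x ∈ X, y = Th f + x) (h : NoethInt P' X' Y') :
    NoethInt P X Y := by
  intro N hmono hN
  choose N' hN' using fun i => hpre (N i) (hN i).1 (hN i).2.1 (hN i).2.2
  obtain ⟨n0, hn0⟩ := h N' (fun i j hij f hf => by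
      rw [(hN' j).1]
      rw [(hN' i).1] at hf
      exact ⟨hf.1, hmono hij hf.2⟩)
    (fun i => ⟨(hN' i).2.1, (hN' i).2.2, fun f hf => ((hN' i).1 f |>.1 hf).1⟩)
  refine ⟨n0, fun n hn => le_antisymm (fun y hy => ?_) (hmono hn)⟩
  obtain ⟨f, hf, x, hx, rfl⟩ := hY y ((hN n).2.2 hy)
  have h1 : Th f ∈ N n := by
    have h2 := Submodule.sub_mem _ hy ((hN n).2.1 hx)
    rwa [add_sub_cancel_right] at h2
  have h3 : f ∈ N' n0 := by
    rw [← hn0 n hn]
    exact ((hN' n).1 f).2 ⟨hf, h1⟩
  exact Submodule.add_mem _ (((hN' n0).1 f).1 h3).2 ((hN n0).2.1 hx)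

end MP50e386N
end

section
/-! The traces (contractions) `tr a b`, (T1), (T2) of paper section 5. -/

namespace MP50e386N

open MvPolynomial Pool.Agent.Lib.MP50e386

variable {R : Type} [CommRing R] [Algebra ℂ R] [GLRing R]

omit [Algebra ℂ R] [GLRing R] in
private theorem tR_C_supported (T : Set (ℕ × ℕ)) (r : R) :
    (C r : MvPolynomial (ℕ × ℕ) R) ∈ supported R T := by
  rw [mem_supported, vars_C, Finset.coe_empty]
  exact Set.empty_subset _

private theorem tR_supported {T : Set ℕ} {f : U R} (hf : f ∈ LT R T) :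
    f ∈ supported R {p : ℕ × ℕ | p.2 ∈ T} := by
  unfold LT at hf
  induction hf using Algebra.adjoin_induction with
  | mem x hx =>
    rcases hx with ⟨i, hi, j, hj, rfl⟩ | ⟨a, i, hi, rfl⟩
    · exact tR_C_supported _ _
    · exact Algebra.subset_adjoin ⟨(a, i), hi, rfl⟩
  | algebraMap c =>
    have h : (algebraMap ℂ (U R) c) = C (algebraMap ℂ R c) := rfl
    rw [h]
    exact tR_C_supported _ _
  | add x y hx hy ihx ihy => exact Subalgebra.add_mem _ ihx ihy
  | mul x y hx hy ihx ihy => exact Subalgebra.mul_mem _ ihx ihy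

omit [Algebra ℂ R] [GLRing R] in
private theorem tR_comm (p q : ℕ × ℕ) (m : ℕ × ℕ →₀ ℕ) (hp : p ∉ m.support) :
    pderiv p (pderiv q (monomial m (1 : R))) = 0 := by
  rw [pderiv_monomial, pderiv_monomial]
  have h1 : m p = 0 := Finsupp.notMem_support_iff.1 hp
  have h2 : (m - Finsupp.single q 1 : ℕ × ℕ →₀ ℕ) p = 0 := by
    rw [Finsupp.tsub_apply, h1, Nat.zero_sub]
  rw [h2]
  simp

omit [Algebra ℂ R] [GLRing R] in
private theorem tR_comm' (p q : ℕ × ℕ) (m : ℕ × ℕ →₀ ℕ) (hq : q ∉ m.support) :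
    pderiv p (pderiv q (monomial m (1 : R))) = 0 := by
  rw [pderiv_monomial]
  have h1 : m q = 0 := Finsupp.notMem_support_iff.1 hq
  rw [h1]
  simp

omit [GLRing R] in
private theorem tR_mono (a b : ℕ) (T : Finset ℕ) (m : ℕ × ℕ →₀ ℕ)
    (hm : ∀ p ∈ m.support, p.2 ∈ T) :
    tr a b (monomial m (1 : R)) = ∑ i ∈ T, ∑ j ∈ T,
      om (ee i) (ee j) • pderiv (a, i) (pderiv (b, j) (monomial m (1 : R))) := by
  classical
  unfold tr
  have hb : (monomial m (1 : R)) = basisMonomials (ℕ × ℕ) R m := by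
    rw [coe_basisMonomials]
  conv_lhs => rw [hb]
  rw [Module.Basis.constr_basis]
  have h1 : ∀ c : ℕ, m.support.filter (fun p => p.1 = c) ⊆ T.image (fun i => (c, i)) := by
    intro c p hp
    rw [Finset.mem_filter] at hp
    exact Finset.mem_image.2 ⟨p.2, hm p hp.1, Prod.ext hp.2.symm rfl⟩
  have hinj : ∀ c : ℕ, Set.InjOn (fun i : ℕ => (c, i)) (T : Set ℕ) := fun c x _ y _ h =>
    (Prod.ext_iff.1 h).2
  calc (∑ p ∈ m.support, ∑ q ∈ m.support, if p.1 = a ∧ q.1 = b then
        (algebraMap ℂ R (om (ee p.2) (ee q.2))) •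
          pderiv p (pderiv q (monomial m (1 : R))) else 0)
      = ∑ p ∈ m.support.filter (fun p => p.1 = a), ∑ q ∈ m.support.filter (fun p => p.1 = b),
          om (ee p.2) (ee q.2) • pderiv p (pderiv q (monomial m (1 : R))) := by
        rw [Finset.sum_filter]
        refine Finset.sum_congr rfl fun p _ => ?_
        by_cases hp : p.1 = a
        · rw [if_pos hp, Finset.sum_filter]
          refine Finset.sum_congr rfl fun q _ => ?_
          by_cases hq : q.1 = b
          · rw [if_pos ⟨hp, hq⟩, if_pos hq, algebraMap_smul]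
          · rw [if_neg (fun h => hq h.2), if_neg hq]
        · rw [if_neg hp]
          refine Finset.sum_eq_zero fun q _ => ?_
          rw [if_neg (fun h => hp h.1)]
    _ = ∑ p ∈ T.image (fun i => (a, i)), ∑ q ∈ T.image (fun i => (b, i)),
          om (ee p.2) (ee q.2) • pderiv p (pderiv q (monomial m (1 : R))) := by
        have e1 : ∀ p : ℕ × ℕ, ∑ q ∈ m.support.filter (fun p => p.1 = b),
            om (ee p.2) (ee q.2) • pderiv p (pderiv q (monomial m (1 : R))) =
            ∑ q ∈ T.image (fun i => (b, i)),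
              om (ee p.2) (ee q.2) • pderiv p (pderiv q (monomial m (1 : R))) := by
          intro p
          refine Finset.sum_subset (h1 b) fun q hq hq' => ?_
          have : q ∉ m.support := by
            intro h
            apply hq'
            rw [Finset.mem_filter]
            obtain ⟨i, _, rfl⟩ := Finset.mem_image.1 hq
            exact ⟨h, rfl⟩
          rw [tR_comm' p q m this, smul_zero]
        simp only [e1]
        refine Finset.sum_subset (h1 a) fun p hp hp' => ?_
        have : p ∉ m.support := by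
          intro h
          apply hp'
          rw [Finset.mem_filter]
          obtain ⟨i, _, rfl⟩ := Finset.mem_image.1 hp
          exact ⟨h, rfl⟩
        refine Finset.sum_eq_zero fun q _ => ?_
        rw [tR_comm p q m this, smul_zero]
    _ = _ := by
        rw [Finset.sum_image (hinj a)]
        refine Finset.sum_congr rfl fun i _ => ?_
        rw [Finset.sum_image (hinj b)]

/-- (T1) for a finite set of letters -/
theorem tr_eq' (a b : ℕ) (T : Finset ℕ) (f : U R) (hf : f ∈ LT R (T : Set ℕ)) :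
    tr a b f = ∑ i ∈ T, ∑ j ∈ T, om (ee i) (ee j) • pderiv (a, i) (pderiv (b, j) f) := by
  have h1 := mem_supported.1 (tR_supported hf)
  have h2 : ∀ m ∈ f.support, ∀ p ∈ m.support, p.2 ∈ T := by
    intro m hm p hp
    exact h1 ((mem_vars_iff_mem_support p).2 ⟨m, hm, hp⟩)
  have h3 : f = ∑ m ∈ f.support, coeff m f • monomial m (1 : R) := by
    conv_lhs => rw [as_sum f]
    refine Finset.sum_congr rfl fun m _ => ?_
    rw [smul_monomial, smul_eq_mul, mul_one]
  have h4 : ∀ i j, pderiv (a, i) (pderiv (b, j) f) = ∑ m ∈ f.support,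
      coeff m f • pderiv (a, i) (pderiv (b, j) (monomial m (1 : R))) := by
    intro i j
    conv_lhs => rw [h3]
    rw [map_sum, map_sum]
    refine Finset.sum_congr rfl fun m _ => ?_
    rw [Derivation.map_smul, Derivation.map_smul]
  conv_lhs => rw [h3]
  rw [map_sum]
  simp only [h4]
  have h5 : ∀ m ∈ f.support, tr a b (coeff m f • monomial m (1 : R)) =
      ∑ i ∈ T, ∑ j ∈ T, om (ee i) (ee j) •
        (coeff m f • pderiv (a, i) (pderiv (b, j) (monomial m (1 : R)))) := by
    intro m hm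
    rw [map_smul, tR_mono a b T m (h2 m hm), Finset.smul_sum]
    refine Finset.sum_congr rfl fun i _ => ?_
    rw [Finset.smul_sum]
    refine Finset.sum_congr rfl fun j _ => ?_
    rw [smul_comm]
  rw [Finset.sum_congr rfl h5, Finset.sum_comm]
  refine Finset.sum_congr rfl fun i _ => ?_
  rw [Finset.sum_comm]
  refine Finset.sum_congr rfl fun j _ => ?_
  rw [Finset.smul_sum]

/-- (T1) -/
theorem tr_eq (a b n : ℕ) (f : U R) (hf : f ∈ LT R (Set.Iio n)) :
    tr a b f = ∑ i ∈ Finset.range n, ∑ j ∈ Finset.range n,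
      om (ee i) (ee j) • pderiv (a, i) (pderiv (b, j) f) := by
  apply tr_eq'
  rw [Finset.coe_range]
  exact hf

theorem pderiv_LT {T : Set ℕ} {f : U R} (hf : f ∈ LT R T) (p : ℕ × ℕ) :
    pderiv p f ∈ LT R T := by
  classical
  have hf' := hf
  unfold LT at hf
  induction hf using Algebra.adjoin_induction with
  | mem x hx =>
    rcases hx with ⟨i, hi, j, hj, rfl⟩ | ⟨a, i, hi, rfl⟩
    · rw [pderiv_C]
      exact Subalgebra.zero_mem _
    · by_cases h : (a, i) = p
      · rw [← h, pderiv_X_self]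
        exact Subalgebra.one_mem _
      · rw [pderiv_X_of_ne h]
        exact Subalgebra.zero_mem _
  | algebraMap c =>
    have h : (algebraMap ℂ (U R) c) = C (algebraMap ℂ R c) := rfl
    rw [h, pderiv_C]
    exact Subalgebra.zero_mem _
  | add x y hx hy ihx ihy =>
    rw [map_add]
    exact Subalgebra.add_mem _ (ihx hx) (ihy hy)
  | mul x y hx hy ihx ihy =>
    rw [pderiv_mul]
    exact Subalgebra.add_mem _ (Subalgebra.mul_mem _ (ihx hx) hy)
      (Subalgebra.mul_mem _ hx (ihy hy))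

theorem pderiv_eq_zero_of_LT {T : Set ℕ} {f : U R} (hf : f ∈ LT R T) (a i : ℕ) (hi : i ∉ T) :
    pderiv (a, i) f = 0 := by
  apply pderiv_eq_zero_of_notMem_vars
  intro h
  exact hi (mem_supported.1 (tR_supported hf) h)

/-- (T2), chain rule -/
theorem pderiv_sbC (φ : ℕ → V) (a k n : ℕ) (f : U R) (hf : f ∈ LT R (Set.Iio n)) :
    pderiv (a, k) (sbC φ f) = ∑ i ∈ Finset.range n, φ i k • sbC φ (pderiv (a, i) f) := by
  classical
  unfold LT at hf
  induction hf using Algebra.adjoin_induction with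
  | mem x hx =>
    rcases hx with ⟨i, hi, j, hj, rfl⟩ | ⟨a', i, hi, rfl⟩
    · rw [sbC_C, pderiv_C]
      refine (Finset.sum_eq_zero fun i _ => ?_).symm
      rw [pderiv_C, map_zero, smul_zero]
    · have h1 : pderiv (a, k) (sbC φ (X (a', i) : U R)) =
          if a' = a then C (algebraMap ℂ R (φ i k)) else 0 := by
        rw [sbC_X]
        unfold zf
        rw [Finsupp.linearCombination_apply]
        unfold Finsupp.sum
        rw [map_sum]
        have h2 : ∀ l ∈ (cst (φ i) : VR R).support,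
            pderiv (a, k) ((cst (φ i) : VR R) l • (X (a', l) : U R)) =
              if a' = a ∧ l = k then C (algebraMap ℂ R (φ i k)) else 0 := by
          intro l _
          rw [Derivation.map_smul]
          by_cases h : (a', l) = (a, k)
          · rw [h, pderiv_X_self, if_pos (Prod.mk.inj h), smul_eq_C_mul, mul_one,
              (Prod.mk.inj h).2]
            rfl
          · rw [pderiv_X_of_ne h, smul_zero, if_neg (fun h' => h (Prod.ext h'.1 h'.2))]
        rw [Finset.sum_congr rfl h2]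
        by_cases ha : a' = a
        · simp only [ha, true_and, if_true]
          rw [Finset.sum_ite_eq']
          by_cases hk : k ∈ (cst (φ i) : VR R).support
          · rw [if_pos hk]
          · rw [if_neg hk]
            have : algebraMap ℂ R (φ i k) = 0 := Finsupp.notMem_support_iff.1 hk
            rw [this, C_0]
        · simp [ha]
      rw [h1, Finset.sum_eq_single i]
      · by_cases ha : a' = a
        · rw [if_pos ha, ha, pderiv_X_self, map_one, Algebra.smul_def, mul_one]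
          rfl
        · rw [if_neg ha, pderiv_X_of_ne (fun h => ha (Prod.mk.inj h).1), map_zero, smul_zero]
      · intro j _ hj
        rw [pderiv_X_of_ne (fun h => hj (Prod.mk.inj h).2.symm), map_zero, smul_zero]
      · intro h
        exact absurd (Finset.mem_range.2 hi) h
  | algebraMap c =>
    have h : (algebraMap ℂ (U R) c) = C (algebraMap ℂ R c) := rfl
    rw [h, sbC_C, pderiv_C]
    refine (Finset.sum_eq_zero fun i _ => ?_).symm
    rw [pderiv_C, map_zero, smul_zero]
  | add x y _ _ hx hy =>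
    rw [map_add, map_add, hx, hy, ← Finset.sum_add_distrib]
    refine Finset.sum_congr rfl fun i _ => ?_
    rw [map_add, map_add, smul_add]
  | mul x y _ _ hx hy =>
    rw [map_mul, pderiv_mul, hx, hy, Finset.sum_mul, Finset.mul_sum, ← Finset.sum_add_distrib]
    refine Finset.sum_congr rfl fun i _ => ?_
    rw [pderiv_mul, map_add, map_mul, map_mul, smul_add, smul_mul_assoc, mul_smul_comm]

private theorem tR_om_ee (k : ℕ) (y : V) :
    om (ee k) y = if Even k then y (k + 1) else -(y (k - 1)) := by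
  change sympForm (Finsupp.single k 1) y = _
  unfold sympForm
  rw [Finsupp.sum_single_index]
  · split_ifs <;> simp
  · split_ifs <;> simp

private theorem tR_om_left (x y : V) : om x y = x.sum fun k a => a * om (ee k) y := by
  change sympForm x y = _
  unfold sympForm
  refine Finsupp.sum_congr fun k _ => ?_
  rw [tR_om_ee]
  split_ifs <;> ring

private theorem tR_om_right (k : ℕ) (y : V) :
    om (ee k) y = y.sum fun l b => b * om (ee k) (ee l) := by
  have h1 : ∀ c : ℕ, (y.sum fun l b => b * (ee l : V) c) = y c := by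
    intro c
    unfold Finsupp.sum
    simp only [ee, Finsupp.single_apply, mul_ite, mul_one, mul_zero]
    rw [Finset.sum_ite_eq']
    split_ifs with h
    · rfl
    · exact (Finsupp.notMem_support_iff.1 h).symm
  simp only [tR_om_ee]
  split_ifs with h
  · exact (h1 (k + 1)).symm
  · rw [← h1 (k - 1)]
    unfold Finsupp.sum
    rw [← Finset.sum_neg_distrib]
    exact Finset.sum_congr rfl fun l _ => by ring

private theorem tR_om (x y : V) (N : ℕ) (hx : ∀ k, x k ≠ 0 → k < N) (hy : ∀ k, y k ≠ 0 → k < N) :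
    om x y = ∑ k ∈ Finset.range N, ∑ l ∈ Finset.range N, x k * y l * om (ee k) (ee l) := by
  have h1 : om x y = ∑ k ∈ Finset.range N, x k * om (ee k) y := by
    rw [tR_om_left]
    unfold Finsupp.sum
    refine Finset.sum_subset (fun k hk => ?_) fun k _ hk => ?_
    · exact Finset.mem_range.2 (hx k (Finsupp.mem_support_iff.1 hk))
    · beta_reduce
      rw [Finsupp.notMem_support_iff.1 hk, zero_mul]
  rw [h1]
  refine Finset.sum_congr rfl fun k _ => ?_
  have h2 : om (ee k) y = ∑ l ∈ Finset.range N, y l * om (ee k) (ee l) := by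
    rw [tR_om_right]
    unfold Finsupp.sum
    refine Finset.sum_subset (fun l hl => ?_) fun l _ hl => ?_
    · exact Finset.mem_range.2 (hy l (Finsupp.mem_support_iff.1 hl))
    · beta_reduce
      rw [Finsupp.notMem_support_iff.1 hl, zero_mul]
  rw [h2, Finset.mul_sum]
  exact Finset.sum_congr rfl fun l _ => by ring

theorem tr_sbC (φ : ℕ → V) (a b n : ℕ) (f : U R) (hf : f ∈ LT R (Set.Iio n)) :
    tr a b (sbC φ f) = ∑ i ∈ Finset.range n, ∑ j ∈ Finset.range n,
      om (φ i) (φ j) • sbC φ (pderiv (a, i) (pderiv (b, j) f)) := by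
  classical
  obtain ⟨N, hN⟩ : ∃ N : ℕ, ∀ i < n, ∀ k, φ i k ≠ 0 → k < N := by
    refine ⟨(Finset.range n).sup (fun i => (φ i).support.sup fun k => k + 1), ?_⟩
    intro i hi k hk
    have h1 : k + 1 ≤ (φ i).support.sup fun k => k + 1 :=
      Finset.le_sup (f := fun k => k + 1) (Finsupp.mem_support_iff.2 hk)
    have h2 : ((φ i).support.sup fun k => k + 1) ≤
        (Finset.range n).sup (fun i => (φ i).support.sup fun k => k + 1) :=
      Finset.le_sup (f := fun i => (φ i).support.sup fun k => k + 1) (Finset.mem_range.2 hi)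
    omega
  have h1 : sbC φ f ∈ LT R (Set.Iio N) := sbC_LT hf φ fun i hi k hk => hN i hi k hk
  rw [tr_eq a b N _ h1]
  have h2 : ∀ k l, pderiv (a, k) (pderiv (b, l) (sbC φ f)) =
      ∑ j ∈ Finset.range n, ∑ i ∈ Finset.range n,
        (φ j l * φ i k) • sbC φ (pderiv (a, i) (pderiv (b, j) f)) := by
    intro k l
    rw [pderiv_sbC φ b l n f hf, map_sum]
    refine Finset.sum_congr rfl fun j _ => ?_
    rw [Derivation.map_smul_of_tower, pderiv_sbC φ a k n _ (pderiv_LT hf _), Finset.smul_sum]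
    refine Finset.sum_congr rfl fun i _ => ?_
    rw [smul_smul]
  simp only [h2, Finset.smul_sum, smul_smul]
  have h3 : ∀ i ∈ Finset.range n, ∀ j ∈ Finset.range n,
      om (φ i) (φ j) • sbC φ (pderiv (a, i) (pderiv (b, j) f)) =
      ∑ k ∈ Finset.range N, ∑ l ∈ Finset.range N,
        (om (ee k) (ee l) * (φ j l * φ i k)) • sbC φ (pderiv (a, i) (pderiv (b, j) f)) := by
    intro i hi j hj
    rw [tR_om (φ i) (φ j) N (hN i (Finset.mem_range.1 hi)) (hN j (Finset.mem_range.1 hj)),
      Finset.sum_smul]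
    refine Finset.sum_congr rfl fun k _ => ?_
    rw [Finset.sum_smul]
    refine Finset.sum_congr rfl fun l _ => ?_
    congr 1
    ring
  rw [Finset.sum_congr rfl fun i hi => Finset.sum_congr rfl fun j hj => h3 i hi j hj]
  -- reorder the sums
  have e1 : ∀ G : ℕ → ℕ → ℕ → ℕ → U R,
      (∑ k ∈ Finset.range N, ∑ l ∈ Finset.range N, ∑ j ∈ Finset.range n,
        ∑ i ∈ Finset.range n, G k l j i) =
      ∑ i ∈ Finset.range n, ∑ j ∈ Finset.range n, ∑ k ∈ Finset.range N,
        ∑ l ∈ Finset.range N, G k l j i := by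
    intro G
    have s1 : ∀ k, ∑ l ∈ Finset.range N, ∑ j ∈ Finset.range n, ∑ i ∈ Finset.range n, G k l j i =
        ∑ i ∈ Finset.range n, ∑ j ∈ Finset.range n, ∑ l ∈ Finset.range N, G k l j i := by
      intro k
      have s2 : ∀ l, ∑ j ∈ Finset.range n, ∑ i ∈ Finset.range n, G k l j i =
          ∑ i ∈ Finset.range n, ∑ j ∈ Finset.range n, G k l j i := fun l => Finset.sum_comm
      simp only [s2]
      rw [Finset.sum_comm]
      refine Finset.sum_congr rfl fun i _ => ?_
      rw [Finset.sum_comm]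
    simp only [s1]
    rw [Finset.sum_comm]
    refine Finset.sum_congr rfl fun i _ => ?_
    rw [Finset.sum_comm]
  exact e1 _

theorem tr_sbC_iso (φ : ℕ → V) (a b : ℕ) (T : Set ℕ) (f : U R) (hf : f ∈ LT R T) (c : ℂ)
    (h : ∀ i ∈ T, ∀ j ∈ T, om (φ i) (φ j) = c * om (ee i) (ee j)) :
    tr a b (sbC φ f) = c • sbC φ (tr a b f) := by
  obtain ⟨n, hn⟩ := exists_LT f
  rw [tr_sbC φ a b n f hn, tr_eq a b n f hn, map_sum, Finset.smul_sum]
  refine Finset.sum_congr rfl fun i _ => ?_
  rw [map_sum, Finset.smul_sum]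
  refine Finset.sum_congr rfl fun j _ => ?_
  by_cases hi : i ∈ T
  · by_cases hj : j ∈ T
    · rw [h i hi j hj, sbC_smulC, smul_smul]
    · rw [pderiv_eq_zero_of_LT hf b j hj]
      simp
  · rw [pderiv_eq_zero_of_LT (pderiv_LT hf _) a i hi]
    simp

theorem tr_LT {T : Set ℕ} {f : U R} (hf : f ∈ LT R T) (a b : ℕ) : tr a b f ∈ LT R T := by
  obtain ⟨n, hn⟩ := exists_LT f
  rw [tr_eq a b n f hn]
  exact Subalgebra.sum_mem _ fun i _ => Subalgebra.sum_mem _ fun j _ =>
    Subalgebra.smul_mem _ (pderiv_LT (pderiv_LT hf _) _) _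

private theorem tR_sdeg_add (a : ℕ) (m m' : ℕ × ℕ →₀ ℕ) :
    sdeg a (m + m') = sdeg a m + sdeg a m' := by
  unfold sdeg
  rw [Finsupp.sum_add_index']
  · intro p; simp
  · intro p k k'
    split_ifs <;> simp

private theorem tR_sdeg_single (a : ℕ) (p : ℕ × ℕ) :
    sdeg a (Finsupp.single p 1) = if p.1 = a then 1 else 0 := by
  unfold sdeg
  rw [Finsupp.sum_single_index]
  simp

omit [Algebra ℂ R] [GLRing R] in
private theorem tR_pderiv_MS {S : Finset ℕ} {a : ℕ} (ha : a ∈ S) (i : ℕ) {f : U R}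
    (hf : f ∈ MS R S) : pderiv (a, i) f ∈ MS R (S.erase a) := by
  unfold MS at hf ⊢
  rw [mem_restrictSupport_iff] at hf ⊢
  intro m hm a'
  have h1 : coeff (m + Finsupp.single (a, i) 1) f ≠ 0 := by
    intro h
    rw [Finset.mem_coe, mem_support_iff, coeff_pderiv, h, zero_mul] at hm
    exact hm rfl
  have h2 := hf (Finset.mem_coe.2 (mem_support_iff.2 h1)) a'
  rw [tR_sdeg_add, tR_sdeg_single] at h2
  by_cases haa : a' = a
  · subst haa
    simp only [if_true, if_pos ha] at h2
    rw [if_neg (Finset.notMem_erase _ _)]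
    omega
  · have h3 : ¬ (a = a') := fun h => haa h.symm
    simp only [h3, if_false, add_zero] at h2
    rw [h2]
    simp [Finset.mem_erase, haa]

omit [GLRing R] in
private theorem tR_smulC (N : Submodule R (U R)) (c : ℂ) {f : U R} (hf : f ∈ N) : c • f ∈ N := by
  rw [← algebraMap_smul R c f]
  exact Submodule.smul_mem _ _ hf

theorem tr_MS {S : Finset ℕ} {a b : ℕ} (ha : a ∈ S) (hb : b ∈ S) (hab : a ≠ b) {f : U R}
    (hf : f ∈ MS R S) : tr a b f ∈ MS R ((S.erase a).erase b) := by
  obtain ⟨n, hn⟩ := exists_LT f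
  rw [tr_eq a b n f hn, Finset.erase_right_comm]
  exact Submodule.sum_mem _ fun i _ => Submodule.sum_mem _ fun j _ =>
    tR_smulC _ _ (tR_pderiv_MS (Finset.mem_erase.2 ⟨hab, ha⟩) i (tR_pderiv_MS hb j hf))

private theorem tR_om_smul (c : ℂ) (x y : V) : om (c • x) (c • y) = c ^ 2 * om x y := by
  obtain ⟨N, hN⟩ : ∃ N : ℕ, ∀ k, x k ≠ 0 ∨ y k ≠ 0 → k < N := by
    classical
    refine ⟨(x.support ∪ y.support).sup (fun k => k + 1), fun k hk => ?_⟩
    have h1 : k ∈ x.support ∪ y.support := by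
      rw [Finset.mem_union, Finsupp.mem_support_iff, Finsupp.mem_support_iff]
      exact hk
    have h2 : k + 1 ≤ (x.support ∪ y.support).sup fun k => k + 1 :=
      Finset.le_sup (f := fun k => k + 1) h1
    omega
  have hs : ∀ (z : V) (k : ℕ), (c • z) k ≠ 0 → z k ≠ 0 := by
    intro z k hk h
    apply hk
    rw [Finsupp.smul_apply, h, smul_zero]
  rw [tR_om (c • x) (c • y) N (fun k hk => hN k (Or.inl (hs x k hk)))
    (fun k hk => hN k (Or.inr (hs y k hk))), tR_om x y N (fun k hk => hN k (Or.inl hk))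
    (fun k hk => hN k (Or.inr hk)), Finset.mul_sum]
  refine Finset.sum_congr rfl fun k _ => ?_
  rw [Finset.mul_sum]
  refine Finset.sum_congr rfl fun l _ => ?_
  rw [Finsupp.smul_apply, Finsupp.smul_apply, smul_eq_mul, smul_eq_mul]
  ring

theorem tr_sp (g : Cinf ≃ₗ[ℂ] Cinf) (hg : IsSp g) (c : ℂ) (a b : ℕ) (f : U R) :
    tr a b (sbC (fun i => c • g (ee i)) f) = c ^ 2 • sbC (fun i => c • g (ee i)) (tr a b f) := by
  refine tr_sbC_iso _ a b Set.univ f (by rw [LT_univ]; exact Algebra.mem_top) _ fun i _ j _ => ?_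
  rw [tR_om_smul]
  exact congrArg (fun z => c ^ 2 * z) (hg.2 (ee i) (ee j))

theorem GS_map_tr {N : Submodule R (U R)} (hN : GS N) (a b : ℕ) : GS (N.map (tr a b)) := by
  intro g hg c hc f' hf'
  obtain ⟨f, hf, rfl⟩ := Submodule.mem_map.1 hf'
  have h1 := tr_sp (R := R) g hg c a b f
  have h2 : sbC (fun i => c • g (ee i)) (tr a b f) =
      (c ^ 2)⁻¹ • tr a b (sbC (fun i => c • g (ee i)) f) := by
    rw [h1, smul_smul, inv_mul_cancel₀ (pow_ne_zero 2 hc), one_smul]
  rw [h2]
  exact tR_smulC _ _ (Submodule.mem_map_of_mem (hN g hg c hc f hf))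

theorem GS_ker_tr {N : Submodule R (U R)} (hN : GS N) (a b : ℕ) :
    GS (N ⊓ LinearMap.ker (tr a b)) := by
  intro g hg c hc f hf
  refine Submodule.mem_inf.2 ⟨hN g hg c hc f hf.1, ?_⟩
  rw [LinearMap.mem_ker, tr_sp g hg c a b f, LinearMap.mem_ker.1 hf.2, map_zero, smul_zero]

end MP50e386N
end
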