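import Mathlib
import Pool.Agent.Lib.MP_50e386_al.B.Qa
import Pool.Agent.Lib.MP_50e386_al.B.Tb

section
/-! Paper 5.1: substitutions with a radical. -/

set_option linter.unusedSectionVars false

namespace MP50e386N

open MvPolynomial Pool.Agent.Lib.MP50e386

variable {R : Type} [CommRing R] [Algebra ℂ R] [GLRing R]

theorem mev_X (Y : ℕ → ℕ → VR R) (a i : ℕ) : mev Y (X (a, i)) = zf a (Y a i) := by
  unfold mev
  rw [aeval_X]

private theorem C1_mev_C (Y : ℕ → ℕ → VR R) (c : R) : mev Y (C c) = C c := by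
  unfold mev
  rw [aeval_C]
  rfl

private theorem C1_cfs_support (ψ : ℕ → VR R) (f : U R) : (cfs ψ f).support ⊆ f.support :=
  support_map_subset _ _

theorem cfs_MS (ψ : ℕ → VR R) (S : Finset ℕ) (f : U R) (hf : f ∈ MS R S) :
    cfs ψ f ∈ MS R S := by
  unfold MS at hf ⊢
  rw [mem_restrictSupport_iff] at hf ⊢
  intro m hm
  exact hf (C1_cfs_support ψ f hm)

private theorem C1_cfs_C (ψ : ℕ → VR R) (c : R) : cfs ψ (C c) = C (GLRing.sb ψ c) := by
  unfold cfs
  rw [map_C]
  rfl

private theorem C1_cfs_X (ψ : ℕ → VR R) (p : ℕ × ℕ) : cfs ψ (X p) = X p := by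
  unfold cfs
  rw [map_X]

theorem sbU_eq_mev (ψ : ℕ → VR R) (f : U R) : sbU ψ f = mev (fun _ => ψ) (cfs ψ f) := by
  induction f using MvPolynomial.induction_on with
  | C r => rw [sbU_C, C1_cfs_C, C1_mev_C]
  | add p q hp hq => rw [map_add, map_add, map_add, hp, hq]
  | mul_X p n hp =>
    rw [map_mul, map_mul, map_mul, hp, C1_cfs_X]
    obtain ⟨a, i⟩ := n
    rw [sbU_X, mev_X]

theorem smul_sbU_eq (E : R) (T : Set ℕ) (ψ ψ' : ℕ → VR R)
    (h : ∀ i ∈ T, ψ i - ψ' i ∈ Rad E) (f : U R) (hf : f ∈ LT R T) :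
    E • sbU ψ f = E • mev (fun _ => ψ) (cfs ψ' f) := by
  unfold LT at hf
  induction hf using Algebra.adjoin_induction with
  | mem x hx =>
    rcases hx with ⟨i, hi, j, hj, rfl⟩ | ⟨a, i, hi, rfl⟩
    · rw [sbU_C, C1_cfs_C, C1_mev_C]
      have h1 : (C (GLRing.x i j : R) : U R) ∈ LT R T :=
        Algebra.subset_adjoin (Or.inl ⟨i, hi, j, hj, rfl⟩)
      have h2 := sbE' E ψ ψ' T h (GLRing.x i j) h1
      rw [smul_eq_C_mul, smul_eq_C_mul, ← C_mul, ← C_mul, h2]
    · rw [sbU_X, C1_cfs_X, mev_X]
  | algebraMap c =>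
    have h1 : (algebraMap ℂ (U R) c) = C (algebraMap ℂ R c) := rfl
    rw [h1, sbU_C, C1_cfs_C, C1_mev_C, AlgHom.commutes, AlgHom.commutes]
  | add x y _ _ hx hy =>
    rw [map_add, smul_add, hx, hy, map_add, map_add, smul_add]
  | mul x y _ _ hx hy =>
    rw [map_mul, map_mul, map_mul]
    rw [← smul_mul_assoc, hx, smul_mul_assoc, ← mul_smul_comm, hy, mul_smul_comm]

private theorem C1_mev_mono (Y : ℕ → ℕ → VR R) (m : ℕ × ℕ →₀ ℕ) (c : R) :
    mev Y (monomial m c) = C c * m.prod fun p k => zf p.1 (Y p.1 p.2) ^ k := by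
  unfold mev
  rw [aeval_monomial]
  rfl

private theorem C1_sum (Y Y' : ℕ → ℕ → VR R) (F : U R)
    (h : ∀ m ∈ F.support, ∀ p ∈ m.support, Y p.1 p.2 = Y' p.1 p.2) : mev Y F = mev Y' F := by
  rw [as_sum F, map_sum, map_sum]
  refine Finset.sum_congr rfl fun m hm => ?_
  rw [C1_mev_mono, C1_mev_mono]
  congr 1
  exact Finsupp.prod_congr fun p hp => by rw [h m hm p hp]

private theorem C1_sdeg_add (a : ℕ) (m m' : ℕ × ℕ →₀ ℕ) :
    sdeg a (m + m') = sdeg a m + sdeg a m' := by
  unfold sdeg
  refine Finsupp.sum_add_index' ?_ ?_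
  · intro p; simp
  · intro p b c; split_ifs <;> simp

private theorem C1_sdeg_single (a : ℕ) (p : ℕ × ℕ) (k : ℕ) :
    sdeg a (Finsupp.single p k) = if p.1 = a then k else 0 := by
  unfold sdeg
  rw [Finsupp.sum_single_index]
  simp

private theorem C1_le_sdeg (m : ℕ × ℕ →₀ ℕ) (p : ℕ × ℕ) : m p ≤ sdeg p.1 m := by
  by_cases hp : p ∈ m.support
  · unfold sdeg Finsupp.sum
    have := Finset.single_le_sum (f := fun q : ℕ × ℕ => if q.1 = p.1 then m q else 0)
      (fun q _ => Nat.zero_le _) hp
    simpa using this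
  · rw [Finsupp.notMem_support_iff.1 hp]
    exact Nat.zero_le _

private theorem C1_exists (m : ℕ × ℕ →₀ ℕ) (a : ℕ) (h : sdeg a m = 1) :
    ∃ (i : ℕ) (m' : ℕ × ℕ →₀ ℕ), m = Finsupp.single (a, i) 1 + m' ∧ sdeg a m' = 0 := by
  obtain ⟨p, hp, hpa⟩ : ∃ p ∈ m.support, p.1 = a := by
    by_contra hcon
    push Not at hcon
    have : sdeg a m = 0 := by
      unfold sdeg Finsupp.sum
      exact Finset.sum_eq_zero fun p hp => if_neg (hcon p hp)
    omega
  obtain ⟨b, i⟩ := p
  have hb : b = a := hpa
  subst hb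
  have h1 : Finsupp.single (b, i) 1 ≤ m := by
    rw [Finsupp.single_le_iff]
    exact Nat.one_le_iff_ne_zero.2 (Finsupp.mem_support_iff.1 hp)
  refine ⟨i, m - Finsupp.single (b, i) 1, (add_tsub_cancel_of_le h1).symm, ?_⟩
  have h2 := C1_sdeg_add b (Finsupp.single (b, i) 1) (m - Finsupp.single (b, i) 1)
  rw [add_tsub_cancel_of_le h1, C1_sdeg_single, h, if_pos rfl] at h2
  omega

private theorem C1_slot {S : Finset ℕ} {F : U R} (hF : F ∈ MS R S) {m : ℕ × ℕ →₀ ℕ}
    (hm : m ∈ F.support) (a : ℕ) : sdeg a m = if a ∈ S then 1 else 0 := by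
  unfold MS at hF
  rw [mem_restrictSupport_iff] at hF
  exact hF hm a

private theorem C1_mem_slot {S : Finset ℕ} {F : U R} (hF : F ∈ MS R S) {m : ℕ × ℕ →₀ ℕ}
    (hm : m ∈ F.support) {p : ℕ × ℕ} (hp : p ∈ m.support) : p.1 ∈ S := by
  by_contra h
  have h1 := C1_slot hF hm p.1
  rw [if_neg h] at h1
  have h2 := C1_le_sdeg m p
  rw [h1] at h2
  exact Finsupp.mem_support_iff.1 hp (Nat.le_zero.1 h2)

/-- on multilinear polynomials `mev` is multilinear in the slots -/
theorem mev_congr_MS (S : Finset ℕ) (F : U R) (hF : F ∈ MS R S) (Y Y' : ℕ → ℕ → VR R)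
    (h : ∀ a ∈ S, Y a = Y' a) : mev Y F = mev Y' F :=
  C1_sum Y Y' F fun m hm p hp => by rw [h p.1 (C1_mem_slot hF hm hp)]

private theorem C1_mono_update (Y : ℕ → ℕ → VR R) (a : ℕ) (y : ℕ → VR R) (i : ℕ)
    (m : ℕ × ℕ →₀ ℕ) (hm : sdeg a m = 0) (c : R) :
    mev (Function.update Y a y) (monomial (Finsupp.single (a, i) 1 + m) c) =
      zf a (y i) * mev Y (monomial m c) := by
  have h1 : (monomial (Finsupp.single (a, i) 1 + m) c : U R) = X (a, i) * monomial m c := by
    have h2 : (X (a, i) : U R) = monomial (Finsupp.single (a, i) 1) 1 := rfl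
    rw [h2, monomial_mul, one_mul]
  rw [h1, map_mul, mev_X, Function.update_self]
  congr 1
  rw [C1_mev_mono, C1_mev_mono]
  congr 1
  refine Finsupp.prod_congr fun p hp => ?_
  have h3 : p.1 ≠ a := by
    intro h4
    have h5 := C1_le_sdeg m p
    rw [h4, hm] at h5
    exact Finsupp.mem_support_iff.1 hp (Nat.le_zero.1 h5)
  rw [Function.update_of_ne h3]

theorem mev_add_MS (S : Finset ℕ) (F : U R) (hF : F ∈ MS R S) (Y : ℕ → ℕ → VR R) (a : ℕ)
    (ha : a ∈ S) (y y' : ℕ → VR R) :
    mev (Function.update Y a (y + y')) F =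
      mev (Function.update Y a y) F + mev (Function.update Y a y') F := by
  rw [as_sum F, map_sum, map_sum, map_sum, ← Finset.sum_add_distrib]
  refine Finset.sum_congr rfl fun m hm => ?_
  have h1 := C1_slot hF hm a
  rw [if_pos ha] at h1
  obtain ⟨i, m', hm', hs⟩ := C1_exists m a h1
  generalize coeff m F = c
  subst hm'
  rw [C1_mono_update Y a _ i m' hs, C1_mono_update Y a _ i m' hs, C1_mono_update Y a _ i m' hs,
    Pi.add_apply, map_add, add_mul]

theorem mev_smul_MS (S : Finset ℕ) (F : U R) (hF : F ∈ MS R S) (Y : ℕ → ℕ → VR R) (a : ℕ)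
    (ha : a ∈ S) (c : R) (y : ℕ → VR R) :
    mev (Function.update Y a (c • y)) F = c • mev (Function.update Y a y) F := by
  rw [as_sum F, map_sum, map_sum, Finset.smul_sum]
  refine Finset.sum_congr rfl fun m hm => ?_
  have h1 := C1_slot hF hm a
  rw [if_pos ha] at h1
  obtain ⟨i, m', hm', hs⟩ := C1_exists m a h1
  generalize coeff m F = d
  subst hm'
  rw [C1_mono_update Y a _ i m' hs, C1_mono_update Y a _ i m' hs, Pi.smul_apply, map_smul,
    smul_mul_assoc]

/-- the multilinear map in the slots -/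
theorem exists_mevM (S : Finset ℕ) (F : U R) (hF : F ∈ MS R S) :
    ∃ Φ : MultilinearMap R (fun _ : S => ℕ → VR R) (U R), ∀ Y : ℕ → ℕ → VR R,
      mev Y F = Φ (fun a => Y a) := by
  classical
  let ext : (S → ℕ → VR R) → ℕ → ℕ → VR R := fun y a => if h : a ∈ S then y ⟨a, h⟩ else 0
  have hupd : ∀ (inst : DecidableEq S) (y : S → ℕ → VR R) (a : S) (z : ℕ → VR R),
      ext (@Function.update S (fun _ => ℕ → VR R) inst y a z) = Function.update (ext y) a z := by
    intro inst y a z
    funext b
    by_cases hb : b = a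
    · subst hb
      rw [Function.update_self]
      have h1 : ext (@Function.update S (fun _ => ℕ → VR R) inst y a z) (a : ℕ) =
          (@Function.update S (fun _ => ℕ → VR R) inst y a z) ⟨(a : ℕ), a.2⟩ := dif_pos a.2
      rw [h1]
      exact Function.update_self _ _ _
    · rw [Function.update_of_ne hb]
      by_cases hbS : b ∈ S
      · have h1 : ext (@Function.update S (fun _ => ℕ → VR R) inst y a z) b =
            (@Function.update S (fun _ => ℕ → VR R) inst y a z) ⟨b, hbS⟩ := dif_pos hbS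
        have h2 : ext y b = y ⟨b, hbS⟩ := dif_pos hbS
        rw [h1, h2]
        exact Function.update_of_ne (fun h => hb (congrArg Subtype.val h)) _ _
      · have h1 : ext (@Function.update S (fun _ => ℕ → VR R) inst y a z) b = 0 := dif_neg hbS
        have h2 : ext y b = 0 := dif_neg hbS
        rw [h1, h2]
  have hadd : ∀ (inst : DecidableEq S) (y : S → ℕ → VR R) (a : S) (z z' : ℕ → VR R),
      mev (ext (@Function.update S (fun _ => ℕ → VR R) inst y a (z + z'))) F =
        mev (ext (@Function.update S (fun _ => ℕ → VR R) inst y a z)) F +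
          mev (ext (@Function.update S (fun _ => ℕ → VR R) inst y a z')) F := by
    intro inst y a z z'
    rw [hupd, hupd, hupd]
    exact mev_add_MS S F hF (ext y) a a.2 z z'
  have hsmul : ∀ (inst : DecidableEq S) (y : S → ℕ → VR R) (a : S) (c : R) (z : ℕ → VR R),
      mev (ext (@Function.update S (fun _ => ℕ → VR R) inst y a (c • z))) F =
        c • mev (ext (@Function.update S (fun _ => ℕ → VR R) inst y a z)) F := by
    intro inst y a c z
    rw [hupd, hupd]
    exact mev_smul_MS S F hF (ext y) a a.2 c z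
  refine ⟨MultilinearMap.mk (fun y => mev (ext y) F) (fun {inst} y a z z' => hadd inst y a z z')
    (fun {inst} y a c z => hsmul inst y a c z), fun Y => ?_⟩
  refine mev_congr_MS S F hF Y _ fun a ha => ?_
  have h1 : ext (fun b : S => Y b) a = (fun b : S => Y b) ⟨a, ha⟩ := dif_pos ha
  exact h1.symm

/-- only letters of `F` matter -/
theorem mev_congr_letters (S : Finset ℕ) (F : U R) (hF : F ∈ MS R S) (T : Set ℕ)
    (hT : ∀ m ∈ F.support, ∀ p ∈ m.support, p.2 ∈ T) (Y Y' : ℕ → ℕ → VR R)
    (h : ∀ a ∈ S, ∀ i ∈ T, Y a i = Y' a i) : mev Y F = mev Y' F :=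
  C1_sum Y Y' F fun m hm p hp => h p.1 (C1_mem_slot hF hm hp) p.2 (hT m hm p hp)

private theorem C1_C_supported (T : Set (ℕ × ℕ)) (r : R) :
    (C r : MvPolynomial (ℕ × ℕ) R) ∈ supported R T := by
  rw [mem_supported, vars_C, Finset.coe_empty]
  exact Set.empty_subset _

private theorem C1_supported {T : Set ℕ} {f : U R} (hf : f ∈ LT R T) :
    f ∈ supported R {p : ℕ × ℕ | p.2 ∈ T} := by
  unfold LT at hf
  induction hf using Algebra.adjoin_induction with
  | mem x hx =>
    rcases hx with ⟨i, hi, j, hj, rfl⟩ | ⟨a, i, hi, rfl⟩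
    · exact C1_C_supported _ _
    · exact Algebra.subset_adjoin ⟨(a, i), hi, rfl⟩
  | algebraMap c =>
    have h : (algebraMap ℂ (U R) c) = C (algebraMap ℂ R c) := rfl
    rw [h]
    exact C1_C_supported _ _
  | add x y hx hy ihx ihy => exact Subalgebra.add_mem _ ihx ihy
  | mul x y hx hy ihx ihy => exact Subalgebra.mul_mem _ ihx ihy

theorem cfs_letters (ψ : ℕ → VR R) (T : Set ℕ) (f : U R) (hf : f ∈ LT R T) :
    ∀ m ∈ (cfs ψ f).support, ∀ p ∈ m.support, p.2 ∈ T := by
  intro m hm p hp
  have h1 := mem_supported.1 (C1_supported hf)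
  exact h1 ((mem_vars_iff_mem_support p).2 ⟨m, C1_cfs_support ψ f hm, hp⟩)

end MP50e386N
end

section
/-! The polarised derivatives `DDm` (paper 5.1). -/

namespace MP50e386N

open MvPolynomial Pool.Agent.Lib.MP50e386

variable {R : Type} [CommRing R] [Algebra ℂ R] [GLRing R]

/-- the condition on the assignments -/
private def C2_cond {S : Finset ℕ} {j : ℕ} (c : S → Option (Fin j)) : Prop :=
  ∀ t, ∃! a, c a = some t

open Classical in
private theorem C2_DDm (S : Finset ℕ) (F : U R) (Φ : MultilinearMap R (fun _ : S => ℕ → VR R) (U R))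
    (hΦ : ∀ Y : ℕ → ℕ → VR R, mev Y F = Φ (fun a => Y a)) (ψ' : ℕ → VR R) {j : ℕ}
    (φ : Fin j → ℕ → VR R) :
    DDm S F ψ' φ = ∑ c ∈ (Finset.univ : Finset (S → Option (Fin j))).filter C2_cond,
      Φ (fun a => Option.elim (c a) ψ' φ) := by
  unfold DDm
  apply Finset.sum_congr
  · ext c
    simp [C2_cond]
  · intro c _
    rw [hΦ]
    congr 1
    funext a
    rw [dif_pos a.2]

private theorem C2_upd {S : Finset ℕ} {j : ℕ} (c : S → Option (Fin j)) (hc : C2_cond c)
    (ψ' : ℕ → VR R) (t : Fin j) :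
    ∃ a : S, ∀ (φ : Fin j → ℕ → VR R) (z : ℕ → VR R),
      (fun b => Option.elim (c b) ψ' (Function.update φ t z)) =
        Function.update (fun b => Option.elim (c b) ψ' φ) a z := by
  obtain ⟨a, ha, hu⟩ := hc t
  refine ⟨a, fun φ z => ?_⟩
  funext b
  by_cases hb : b = a
  · subst hb
    rw [Function.update_self, ha, Option.elim_some, Function.update_self]
  · rw [Function.update_of_ne hb]
    cases hcb : c b with
    | none => rfl
    | some t' =>
      rw [Option.elim_some, Option.elim_some, Function.update_of_ne]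
      rintro rfl
      exact hb (hu b hcb)

theorem exists_DDm (S : Finset ℕ) (F : U R) (hF : F ∈ MS R S) (ψ' : ℕ → VR R) (j : ℕ) :
    ∃ Φ : MultilinearMap R (fun _ : Fin j => ℕ → VR R) (U R), ∀ φ, DDm S F ψ' φ = Φ φ := by
  classical
  obtain ⟨Φ, hΦ⟩ := exists_mevM S F hF
  refine ⟨{ toFun := fun φ => DDm S F ψ' φ, map_update_add' := ?_, map_update_smul' := ?_ },
    fun φ => rfl⟩
  · intro inst m t x y
    rw [Subsingleton.elim inst (instDecidableEqFin j)]
    simp only [C2_DDm S F Φ hΦ]
    rw [← Finset.sum_add_distrib]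
    apply Finset.sum_congr rfl
    intro c hc
    obtain ⟨a, ha⟩ := C2_upd (R := R) c (Finset.mem_filter.1 hc).2 ψ' t
    rw [ha, ha, ha, Φ.map_update_add]
  · intro inst m t r x
    rw [Subsingleton.elim inst (instDecidableEqFin j)]
    simp only [C2_DDm S F Φ hΦ]
    rw [Finset.smul_sum]
    apply Finset.sum_congr rfl
    intro c hc
    obtain ⟨a, ha⟩ := C2_upd (R := R) c (Finset.mem_filter.1 hc).2 ψ' t
    rw [ha, ha, Φ.map_update_smul]

open Classical in
/-- support of an assignment -/
private noncomputable def C2_sup {S : Finset ℕ} {j : ℕ} (c : S → Option (Fin j)) : Finset S :=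
  Finset.univ.filter (fun a => c a ≠ none)

private theorem C2_mem_sup {S : Finset ℕ} {j : ℕ} (c : S → Option (Fin j)) (a : S) :
    a ∈ C2_sup c ↔ c a ≠ none := by
  classical
  simp [C2_sup]

/-- the bijection attached to an assignment -/
private theorem C2_equiv {S : Finset ℕ} {j : ℕ} (c : S → Option (Fin j)) (hc : C2_cond c) :
    ∃ e : Fin j ≃ C2_sup c, ∀ t, c (e t) = some t := by
  choose a ha hu using hc
  have hm : ∀ t, a t ∈ C2_sup c := fun t => by
    rw [C2_mem_sup, ha]
    exact Option.some_ne_none t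
  refine ⟨Equiv.ofBijective (fun t => ⟨a t, hm t⟩) ⟨?_, ?_⟩, fun t => ha t⟩
  · intro t t' htt
    have h1 : a t = a t' := congrArg Subtype.val htt
    have h2 := ha t
    rw [h1, ha t'] at h2
    exact (Option.some.inj h2).symm
  · rintro ⟨b, hb⟩
    rw [C2_mem_sup] at hb
    obtain ⟨t, ht⟩ := Option.ne_none_iff_exists'.1 hb
    exact ⟨t, Subtype.ext (hu t b ht).symm⟩

open Classical in
private theorem C2_card {S : Finset ℕ} {j : ℕ} (s : Finset S) :
    (((Finset.univ : Finset (S → Option (Fin j))).filter C2_cond).filter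
      (fun c => C2_sup c = s)).card = if s.card = j then j.factorial else 0 := by
  split_ifs with h
  · have h1 : Fintype.card (Fin j ≃ s) = j.factorial := by
      rw [Fintype.card_equiv (Fintype.equivOfCardEq (by simp [h])), Fintype.card_fin]
    rw [← h1, ← Finset.card_univ]
    symm
    apply Finset.card_bij (fun (e : Fin j ≃ s) _ => fun a : S =>
      if ha : a ∈ s then some (e.symm ⟨a, ha⟩) else none)
    · intro e _
      rw [Finset.mem_filter, Finset.mem_filter]
      refine ⟨⟨Finset.mem_univ _, fun t => ⟨(e t : S), ?_, ?_⟩⟩, ?_⟩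
      · beta_reduce
        rw [dif_pos (e t).2]
        simp
      · intro b hb
        beta_reduce at hb
        split_ifs at hb with hbs
        have h2 := Option.some.inj hb
        rw [← h2]
        simp
      · ext a
        rw [C2_mem_sup]
        by_cases ha : a ∈ s
        · simp [ha]
        · simp [ha]
    · intro e _ e' _ hee
      apply Equiv.symm_bijective.injective
      apply Equiv.ext
      rintro ⟨a, ha⟩
      have h2 := congrFun hee a
      beta_reduce at h2
      rw [dif_pos ha, dif_pos ha] at h2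
      exact Option.some.inj h2
    · intro c hc
      rw [Finset.mem_filter, Finset.mem_filter] at hc
      obtain ⟨⟨-, hc1⟩, rfl⟩ := hc
      obtain ⟨e, he⟩ := C2_equiv c hc1
      refine ⟨e, Finset.mem_univ _, ?_⟩
      funext a
      by_cases ha : a ∈ C2_sup c
      · rw [dif_pos ha]
        have h2 := he (e.symm ⟨a, ha⟩)
        rw [Equiv.apply_symm_apply] at h2
        exact h2.symm
      · rw [dif_neg ha]
        rw [C2_mem_sup, not_not] at ha
        exact ha.symm
  · rw [Finset.card_eq_zero, Finset.filter_eq_empty_iff]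
    rintro c hc rfl
    obtain ⟨e, -⟩ := C2_equiv c (Finset.mem_filter.1 hc).2
    apply h
    have h1 := Fintype.card_congr e
    rw [Fintype.card_fin, Fintype.card_coe] at h1
    exact h1.symm

open Classical in
private theorem C2_DDm_const (S : Finset ℕ) (F : U R)
    (Φ : MultilinearMap R (fun _ : S => ℕ → VR R) (U R))
    (hΦ : ∀ Y : ℕ → ℕ → VR R, mev Y F = Φ (fun a => Y a)) (ψ' φ : ℕ → VR R) (j : ℕ) :
    DDm S F ψ' (fun _ : Fin j => φ) = ∑ s : Finset S,
      (if s.card = j then j.factorial else 0) • Φ (s.piecewise (fun _ => φ) (fun _ => ψ')) := by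
  rw [C2_DDm S F Φ hΦ, ← Finset.sum_fiberwise _ C2_sup]
  apply Finset.sum_congr rfl
  intro s _
  rw [← C2_card (S := S) (j := j) s, ← Finset.sum_const]
  apply Finset.sum_congr rfl
  intro c hc
  have h1 := (Finset.mem_filter.1 hc).2
  congr 1
  funext a
  by_cases ha : a ∈ s
  · rw [Finset.piecewise_eq_of_mem _ _ _ ha]
    rw [← h1, C2_mem_sup] at ha
    obtain ⟨t, ht⟩ := Option.ne_none_iff_exists'.1 ha
    rw [ht, Option.elim_some]
  · rw [Finset.piecewise_eq_of_notMem _ _ _ ha]
    rw [← h1, C2_mem_sup, not_not] at ha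
    rw [ha, Option.elim_none]

/-- Taylor formula -/
theorem taylor (S : Finset ℕ) (F : U R) (hF : F ∈ MS R S) (ψ' φ : ℕ → VR R) :
    mev (fun _ i => ψ' i + φ i) F = ∑ j ∈ Finset.range (S.card + 1),
      ((j.factorial : ℂ)⁻¹) • DDm S F ψ' (fun _ : Fin j => φ) := by
  classical
  obtain ⟨Φ, hΦ⟩ := exists_mevM S F hF
  have h1 : mev (fun _ i => ψ' i + φ i) F =
      ∑ s : Finset S, Φ (s.piecewise (fun _ => φ) (fun _ => ψ')) := by
    rw [hΦ, ← Φ.map_add_univ]
    congr 1
    funext a
    funext i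
    simp only [Pi.add_apply]
    rw [add_comm]
  rw [h1]
  simp only [C2_DDm_const S F Φ hΦ, Finset.smul_sum]
  rw [Finset.sum_comm]
  apply Finset.sum_congr rfl
  intro s _
  rw [Finset.sum_eq_single s.card]
  · rw [if_pos rfl, ← Nat.cast_smul_eq_nsmul ℂ, smul_smul, inv_mul_cancel₀, one_smul]
    exact_mod_cast Nat.factorial_ne_zero _
  · intro j _ hj
    rw [if_neg (Ne.symm hj), zero_smul, smul_zero]
  · intro h
    exfalso
    apply h
    rw [Finset.mem_range]
    have h2 := Finset.card_le_univ s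
    rw [Fintype.card_coe] at h2
    omega

/-- extraction of the multilinear coefficient -/
theorem DD_mem (S : Finset ℕ) (F : U R) (hF : F ∈ MS R S) (ψ' : ℕ → VR R) {j : ℕ}
    (φ : Fin j → ℕ → VR R) (N : Submodule ℂ (U R)) (E : R)
    (h : ∀ t : Fin j → ℂ, E • mev (fun _ i => ψ' i + ∑ k, t k • φ k i) F ∈ N) :
    E • DDm S F ψ' φ ∈ N := by
  classical
  obtain ⟨Φ, hΦ⟩ := exists_mevM S F hF
  let mc : (S → Option (Fin j)) → (Fin j →₀ ℕ) := fun c =>
    Finsupp.equivFunOnFinite.symm (fun k => (Finset.univ.filter (fun a => c a = some k)).card)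
  let w : (Fin j → ℂ) → Option (Fin j) → ℂ := fun t o => o.elim 1 t
  have hmc : ∀ (t : Fin j → ℂ) (c : S → Option (Fin j)),
      ((mc c).prod fun i k => t i ^ k) = ∏ a, w t (c a) := by
    intro t c
    rw [Finsupp.prod_fintype _ _ (fun i => pow_zero _),
      ← Finset.prod_fiberwise' Finset.univ c (w t), Fintype.prod_option]
    have e1 : ∏ a : S with c a = none, w t none = 1 := by
      apply Finset.prod_eq_one
      intro a _
      rfl
    rw [e1, one_mul]
    apply Finset.prod_congr rfl
    intro k _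
    rw [Finset.prod_const]
    rfl
  have hexp : ∀ t : Fin j → ℂ, E • mev (fun _ i => ψ' i + ∑ k, t k • φ k i) F =
      ∑ c : S → Option (Fin j), ((mc c).prod fun i k => t i ^ k) •
        (E • Φ (fun a => Option.elim (c a) ψ' φ)) := by
    intro t
    have h1 : (fun a : S => (fun i => ψ' i + ∑ k, t k • φ k i : ℕ → VR R)) =
        fun a : S => ∑ o : Option (Fin j), (algebraMap ℂ R (w t o)) • Option.elim o ψ' φ := by
      funext a
      rw [Fintype.sum_option]
      funext i
      simp only [w, Option.elim_none, Option.elim_some, map_one, one_smul, Pi.add_apply,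
        Finset.sum_apply, Pi.smul_apply, algebraMap_smul]
    have h2 : mev (fun _ i => ψ' i + ∑ k, t k • φ k i) F =
        ∑ c : S → Option (Fin j), (∏ a, w t (c a)) • Φ (fun a => Option.elim (c a) ψ' φ) := by
      rw [hΦ]
      change Φ (fun a : S => (fun i => ψ' i + ∑ k, t k • φ k i : ℕ → VR R)) = _
      rw [h1, Φ.map_sum]
      apply Finset.sum_congr rfl
      intro c _
      rw [Φ.map_smul_univ (fun a => algebraMap ℂ R (w t (c a))), ← map_prod, algebraMap_smul]
    rw [h2, Finset.smul_sum]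
    apply Finset.sum_congr rfl
    intro c _
    rw [hmc, smul_comm]
  let s : Finset (Fin j →₀ ℕ) := Finset.univ.image mc
  let f : (Fin j →₀ ℕ) → U R := fun m =>
    ∑ c ∈ (Finset.univ : Finset (S → Option (Fin j))).filter (fun c => mc c = m),
      E • Φ (fun a => Option.elim (c a) ψ' φ)
  have hv : ∀ m ∈ s, f m ∈ N := by
    apply vandM N s f
    intro t _
    have h1 := h t
    rw [hexp t] at h1
    have e : ∑ m ∈ s, (m.prod fun i k => t i ^ k) • f m =
        ∑ c : S → Option (Fin j), ((mc c).prod fun i k => t i ^ k) •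
        (E • Φ (fun a => Option.elim (c a) ψ' φ)) := by
      rw [← Finset.sum_fiberwise_of_maps_to (s := Finset.univ) (t := s) (g := mc)
        (fun c hc => Finset.mem_image_of_mem mc hc)]
      apply Finset.sum_congr rfl
      intro m _
      simp only [f, Finset.smul_sum]
      apply Finset.sum_congr rfl
      intro c hc
      rw [(Finset.mem_filter.1 hc).2]
    rw [e]
    exact h1
  let m1 : Fin j →₀ ℕ := Finsupp.equivFunOnFinite.symm (fun _ => 1)
  have hD : E • DDm S F ψ' φ = f m1 := by
    rw [C2_DDm S F Φ hΦ, Finset.smul_sum]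
    apply Finset.sum_congr _ (fun _ _ => rfl)
    ext c
    rw [Finset.mem_filter, Finset.mem_filter]
    apply and_congr_right
    intro _
    have e2 : mc c = m1 ↔ ∀ k, (Finset.univ.filter (fun a => c a = some k)).card = 1 := by
      simp only [mc, m1]
      rw [Equiv.apply_eq_iff_eq, funext_iff]
    rw [e2]
    apply forall_congr'
    intro k
    rw [Finset.card_eq_one]
    constructor
    · rintro ⟨a, ha, hu⟩
      refine ⟨a, ?_⟩
      ext b
      rw [Finset.mem_filter, Finset.mem_singleton]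
      exact ⟨fun hb => hu b hb.2, fun hb => ⟨Finset.mem_univ _, hb ▸ ha⟩⟩
    · rintro ⟨a, ha⟩
      refine ⟨a, ?_, fun b hb => ?_⟩
      · have h5 : a ∈ Finset.univ.filter (fun b => c b = some k) := by
          rw [ha]
          exact Finset.mem_singleton_self a
        exact (Finset.mem_filter.1 h5).2
      · have h5 : b ∈ Finset.univ.filter (fun b => c b = some k) :=
          Finset.mem_filter.2 ⟨Finset.mem_univ _, hb⟩
        rw [ha] at h5
        exact Finset.mem_singleton.1 h5
  rw [hD]
  by_cases hm : m1 ∈ s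
  · exact hv m1 hm
  · have h0 : f m1 = 0 := by
      apply Finset.sum_eq_zero
      intro c hc
      exfalso
      apply hm
      rw [← (Finset.mem_filter.1 hc).2]
      exact Finset.mem_image_of_mem mc (Finset.mem_univ c)
    rw [h0]
    exact N.zero_mem

end MP50e386N
end

section
/-! Averaging over signs (paper 5.3). -/

namespace MP50e386N

theorem sign_avg {j : ℕ} (r : Fin j → Fin j) :
    (∑ ε : Sym2 (Fin j) → ℤˣ, ∏ a, (if r a = a then (1 : ℂ) else ((ε s(a, r a) : ℤ) : ℂ))) =
      if ∀ a, r (r a) = a then (Fintype.card (Sym2 (Fin j) → ℤˣ) : ℂ) else 0 := by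
  by_cases hr : ∀ a, r (r a) = a
  · rw [if_pos hr]
    have h1 : ∀ ε : Sym2 (Fin j) → ℤˣ,
        ∏ a, (if r a = a then (1 : ℂ) else ((ε s(a, r a) : ℤ) : ℂ)) = 1 := by
      intro ε
      refine Finset.prod_involution (fun a _ => r a) ?_ ?_ ?_ ?_
      · intro a _
        by_cases h : r a = a
        · rw [if_pos h, if_pos (by rw [h, h]), mul_one]
        · have h' : ¬ r (r a) = r a := by
            rw [hr a]
            exact fun e => h e.symm
          rw [if_neg h, if_neg h', hr a, Sym2.eq_swap]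
          have : ((ε s(r a, a) : ℤˣ) : ℤ) * (ε s(r a, a) : ℤˣ) = 1 := by
            rw [← Units.val_mul, Int.units_mul_self, Units.val_one]
          exact_mod_cast this
      · intro a _ h1 h2
        exact h1 (if_pos h2)
      · intro a _
        exact Finset.mem_univ _
      · intro a _
        exact hr a
    rw [Finset.sum_congr rfl fun ε _ => h1 ε, Finset.sum_const, Finset.card_univ, nsmul_eq_mul,
      mul_one]
  · rw [if_neg hr]
    push Not at hr
    obtain ⟨a0, ha0⟩ := hr
    have hne : r a0 ≠ a0 := by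
      intro h
      exact ha0 (by rw [h, h])
    let u : Sym2 (Fin j) → ℤˣ := fun e => if e = s(a0, r a0) then -1 else 1
    have hu : ∀ a, s(a, r a) = s(a0, r a0) ↔ a = a0 := by
      intro a
      constructor
      · intro h
        rw [Sym2.eq_iff] at h
        rcases h with ⟨h, -⟩ | ⟨h, h'⟩
        · exact h
        · exfalso
          rw [h] at h'
          exact ha0 h'
      · rintro rfl
        rfl
    have hflip : ∀ ε : Sym2 (Fin j) → ℤˣ,
        ∏ a, (if r a = a then (1 : ℂ) else (((u * ε) s(a, r a) : ℤ) : ℂ)) =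
          - ∏ a, (if r a = a then (1 : ℂ) else ((ε s(a, r a) : ℤ) : ℂ)) := by
      intro ε
      have hc : ∀ a, (if r a = a then (1 : ℂ) else (((u * ε) s(a, r a) : ℤ) : ℂ)) =
          (if a = a0 then (-1 : ℂ) else 1) *
            (if r a = a then (1 : ℂ) else ((ε s(a, r a) : ℤ) : ℂ)) := by
        intro a
        by_cases h : a = a0
        · subst h
          rw [if_neg hne, if_pos rfl, if_neg hne, Pi.mul_apply]
          have : u s(a, r a) = -1 := if_pos rfl
          rw [this]
          simp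
        · rw [if_neg h, one_mul]
          have : u s(a, r a) = 1 := if_neg (fun e => h ((hu a).1 e))
          rw [Pi.mul_apply, this, one_mul]
      rw [Finset.prod_congr rfl fun a _ => hc a, Finset.prod_mul_distrib, Finset.prod_ite_eq',
        if_pos (Finset.mem_univ _), neg_one_mul]
    have hsum := Equiv.sum_comp (Equiv.mulLeft u) (fun ε : Sym2 (Fin j) → ℤˣ =>
      ∏ a, (if r a = a then (1 : ℂ) else ((ε s(a, r a) : ℤ) : ℂ)))
    have hsum2 : ∑ ε : Sym2 (Fin j) → ℤˣ,
        ∏ a, (if r a = a then (1 : ℂ) else (((u * ε) s(a, r a) : ℤ) : ℂ)) =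
        ∑ ε : Sym2 (Fin j) → ℤˣ, ∏ a, (if r a = a then (1 : ℂ) else ((ε s(a, r a) : ℤ) : ℂ)) :=
      hsum
    rw [Finset.sum_congr rfl fun ε _ => hflip ε, Finset.sum_neg_distrib] at hsum2
    exact CharZero.neg_eq_self_iff.1 hsum2

/-- the averaged expansion of a multilinear map -/
theorem avg_mem {K X W : Type} [CommRing K] [Algebra ℂ K] [AddCommGroup X] [Module K X]
    [Module ℂ X] [IsScalarTower ℂ K X] [AddCommGroup W] [Module K W] [Module ℂ W]
    [IsScalarTower ℂ K W] {j : ℕ} (Φ : MultilinearMap K (fun _ : Fin j => X) W)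
    (C : Fin j → Fin j → X) (N : Submodule ℂ W) (E : K)
    (h : ∀ ε : Sym2 (Fin j) → ℤˣ,
      E • Φ (fun a => ∑ b, (if b = a then (1 : ℂ) else ((ε s(a, b) : ℤ) : ℂ)) • C a b) ∈ N) :
    E • ∑ r ∈ (Finset.univ : Finset (Fin j → Fin j)).filter (fun r => ∀ a, r (r a) = a),
      Φ (fun a => C a (r a)) ∈ N := by
  have hexp : ∀ ε : Sym2 (Fin j) → ℤˣ,
      Φ (fun a => ∑ b, (if b = a then (1 : ℂ) else ((ε s(a, b) : ℤ) : ℂ)) • C a b) =
        ∑ r : Fin j → Fin j, (∏ a, (if r a = a then (1 : ℂ) else ((ε s(a, r a) : ℤ) : ℂ))) •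
          Φ (fun a => C a (r a)) := by
    intro ε
    rw [MultilinearMap.map_sum]
    refine Finset.sum_congr rfl fun r _ => ?_
    have h1 : (fun a => (if r a = a then (1 : ℂ) else ((ε s(a, r a) : ℤ) : ℂ)) • C a (r a)) =
        fun a => (algebraMap ℂ K (if r a = a then (1 : ℂ) else ((ε s(a, r a) : ℤ) : ℂ))) •
          C a (r a) := by
      funext a
      rw [algebraMap_smul]
    rw [h1, MultilinearMap.map_smul_univ, ← map_prod, algebraMap_smul]
  have hsum : ∑ ε : Sym2 (Fin j) → ℤˣ,
      E • Φ (fun a => ∑ b, (if b = a then (1 : ℂ) else ((ε s(a, b) : ℤ) : ℂ)) • C a b) ∈ N :=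
    Submodule.sum_mem _ fun ε _ => h ε
  have heq : ∑ ε : Sym2 (Fin j) → ℤˣ,
      E • Φ (fun a => ∑ b, (if b = a then (1 : ℂ) else ((ε s(a, b) : ℤ) : ℂ)) • C a b) =
      (Fintype.card (Sym2 (Fin j) → ℤˣ) : ℂ) •
        (E • ∑ r ∈ (Finset.univ : Finset (Fin j → Fin j)).filter (fun r => ∀ a, r (r a) = a),
          Φ (fun a => C a (r a))) := by
    rw [← Finset.smul_sum]
    simp_rw [hexp]
    rw [Finset.sum_comm]
    simp_rw [← Finset.sum_smul, sign_avg]
    rw [Finset.sum_filter, smul_comm (Fintype.card (Sym2 (Fin j) → ℤˣ) : ℂ) E]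
    refine congrArg (fun w : W => E • w) ?_
    rw [Finset.smul_sum]
    refine Finset.sum_congr rfl fun r _ => ?_
    split_ifs with hr
    · rfl
    · rw [zero_smul, smul_zero]
  rw [heq] at hsum
  have hcard : (Fintype.card (Sym2 (Fin j) → ℤˣ) : ℂ) ≠ 0 := by
    rw [Nat.cast_ne_zero]
    exact Fintype.card_ne_zero
  have := N.smul_mem ((Fintype.card (Sym2 (Fin j) → ℤˣ) : ℂ)⁻¹) hsum
  rwa [smul_smul, inv_mul_cancel₀ hcard, one_smul] at this

end MP50e386N
end

section
/-! The contraction lemma (paper 5.2). -/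

namespace MP50e386N

open MvPolynomial Pool.Agent.Lib.MP50e386

variable {R : Type} [CommRing R] [Algebra ℂ R] [GLRing R]

private theorem C3_sdeg_add (a : ℕ) (m m' : ℕ × ℕ →₀ ℕ) :
    sdeg a (m + m') = sdeg a m + sdeg a m' := by
  unfold sdeg
  refine Finsupp.sum_add_index' ?_ ?_
  · intro p; simp
  · intro p b c; split_ifs <;> simp

private theorem C3_sdeg_single (a : ℕ) (p : ℕ × ℕ) (k : ℕ) :
    sdeg a (Finsupp.single p k) = if p.1 = a then k else 0 := by
  unfold sdeg
  rw [Finsupp.sum_single_index]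
  simp

/-- split off the letter in the slot `a` -/
private theorem C3_split (m : ℕ × ℕ →₀ ℕ) (a : ℕ) (h : sdeg a m = 1) :
    ∃ i0 m', m = Finsupp.single (a, i0) 1 + m' ∧ sdeg a m' = 0 ∧
      ∀ a', a' ≠ a → sdeg a' m' = sdeg a' m := by
  have h1 : ∃ p ∈ m.support, p.1 = a := by
    by_contra hcon
    push Not at hcon
    have h2 : sdeg a m = 0 := by
      unfold sdeg Finsupp.sum
      exact Finset.sum_eq_zero fun p hp => if_neg (hcon p hp)
    omega
  obtain ⟨⟨a0, i0⟩, hp, ha⟩ := h1
  have ha' : a0 = a := ha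
  subst ha'
  have hle : Finsupp.single (a0, i0) 1 ≤ m := by
    rw [Finsupp.single_le_iff]
    exact Nat.one_le_iff_ne_zero.2 (Finsupp.mem_support_iff.1 hp)
  have hm : m = Finsupp.single (a0, i0) 1 + (m - Finsupp.single (a0, i0) 1) :=
    (add_tsub_cancel_of_le hle).symm
  refine ⟨i0, m - Finsupp.single (a0, i0) 1, hm, ?_, ?_⟩
  · have h2 := h
    rw [hm, C3_sdeg_add, C3_sdeg_single, if_pos rfl] at h2
    omega
  · intro a' ha'
    conv_rhs => rw [hm]
    rw [C3_sdeg_add, C3_sdeg_single, if_neg (fun h => ha' h.symm), zero_add]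

private theorem C3_notMem (m : ℕ × ℕ →₀ ℕ) (a : ℕ) (h : sdeg a m = 0) (p : ℕ × ℕ)
    (hp : p ∈ m.support) : p.1 ≠ a := by
  intro hpa
  have h1 : (if p.1 = a then m p else 0) ≤ sdeg a m := by
    unfold sdeg Finsupp.sum
    exact Finset.single_le_sum (f := fun q : ℕ × ℕ => if q.1 = a then m q else 0)
      (fun q _ => Nat.zero_le _) hp
  rw [if_pos hpa] at h1
  exact Finsupp.mem_support_iff.1 hp (by omega)

omit [Algebra ℂ R] [GLRing R] in
private theorem C3_pderiv_mono (m : ℕ × ℕ →₀ ℕ) (a i : ℕ) (h : sdeg a m = 0) :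
    pderiv (a, i) (monomial m (1 : R)) = 0 := by
  rw [pderiv_monomial]
  have h1 : m (a, i) = 0 := by
    by_contra hne
    exact C3_notMem m a h (a, i) (Finsupp.mem_support_iff.2 hne) rfl
  rw [h1]
  simp

omit [Algebra ℂ R] [GLRing R] in
private theorem C3_mono_split (p : ℕ × ℕ) (m : ℕ × ℕ →₀ ℕ) :
    (monomial (Finsupp.single p 1 + m) (1 : R)) = X p * monomial m 1 := by
  rw [X, monomial_mul, one_mul]

omit [Algebra ℂ R] [GLRing R] in
private theorem C3_mev_mono (Y Y' : ℕ → ℕ → VR R) (m : ℕ × ℕ →₀ ℕ)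
    (h : ∀ p ∈ m.support, Y p.1 = Y' p.1) :
    mev Y (monomial m (1 : R)) = mev Y' (monomial m 1) := by
  unfold mev
  rw [aeval_monomial, aeval_monomial]
  congr 1
  refine Finsupp.prod_congr fun p hp => ?_
  rw [h p hp]

omit [Algebra ℂ R] [GLRing R] in
private theorem C3_mev_X (Y : ℕ → ℕ → VR R) (a i : ℕ) :
    mev Y (X (a, i) : U R) = zf a (Y a i) := by
  unfold mev
  rw [aeval_X]

omit [Algebra ℂ R] [GLRing R] in
private theorem C3_two_mono (S : Finset ℕ) (m : ℕ × ℕ →₀ ℕ)
    (hm : ∀ a, sdeg a m = if a ∈ S then 1 else 0) (Y : ℕ → ℕ → VR R) (a b i j : ℕ)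
    (ha : a ∈ S) (hb : b ∈ S) (hab : a ≠ b) (y y' : VR R) :
    mev (Function.update (Function.update Y a (Pi.single i y)) b (Pi.single j y'))
      (monomial m (1 : R)) =
      zf a y * zf b y' * mev Y (pderiv (a, i) (pderiv (b, j) (monomial m 1))) := by
  obtain ⟨i0, m1, h1, h2, h3⟩ := C3_split m a (by rw [hm a, if_pos ha])
  obtain ⟨j0, m2, h4, h5, h6⟩ := C3_split m1 b (by rw [h3 b hab.symm, hm b, if_pos hb])
  have h7 : sdeg a m2 = 0 := by rw [h6 a hab, h2]
  have e1 : (monomial m (1 : R)) = X (a, i0) * (X (b, j0) * monomial m2 1) := by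
    rw [h1, C3_mono_split, h4, C3_mono_split]
  have e2 : pderiv (b, j) (monomial m (1 : R)) =
      if j0 = j then X (a, i0) * monomial m2 1 else 0 := by
    rw [e1, pderiv_mul, pderiv_X_of_ne (fun h => hab (Prod.mk.inj h).1), zero_mul, zero_add,
      pderiv_mul, C3_pderiv_mono m2 b j h5, mul_zero, add_zero]
    by_cases hj : j0 = j
    · rw [if_pos hj, hj, pderiv_X_self, one_mul]
    · rw [if_neg hj, pderiv_X_of_ne (fun h => hj (Prod.mk.inj h).2), zero_mul, mul_zero]
  have e3 : pderiv (a, i) (pderiv (b, j) (monomial m (1 : R))) =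
      if j0 = j then (if i0 = i then monomial m2 1 else 0) else 0 := by
    rw [e2]
    by_cases hj : j0 = j
    · rw [if_pos hj, if_pos hj, pderiv_mul, C3_pderiv_mono m2 a i h7, mul_zero, add_zero]
      by_cases hi : i0 = i
      · rw [if_pos hi, hi, pderiv_X_self, one_mul]
      · rw [if_neg hi, pderiv_X_of_ne (fun h => hi (Prod.mk.inj h).2), zero_mul]
    · rw [if_neg hj, if_neg hj, map_zero]
  have e4 : mev (Function.update (Function.update Y a (Pi.single i y)) b (Pi.single j y'))
      (monomial m2 (1 : R)) = mev Y (monomial m2 1) := by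
    refine C3_mev_mono _ _ m2 fun p hp => ?_
    rw [Function.update_of_ne (C3_notMem m2 b h5 p hp),
      Function.update_of_ne (C3_notMem m2 a h7 p hp)]
  rw [e3, e1, map_mul, map_mul, C3_mev_X, C3_mev_X, e4, Function.update_self,
    Function.update_of_ne hab, Function.update_self]
  by_cases hj : j0 = j
  · rw [if_pos hj, hj, Pi.single_eq_same]
    by_cases hi : i0 = i
    · rw [if_pos hi, hi, Pi.single_eq_same]
      ring
    · rw [if_neg hi, Pi.single_eq_of_ne hi, map_zero, map_zero]
      ring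
  · rw [if_neg hj, Pi.single_eq_of_ne hj, map_zero, map_zero]
    ring

/-- two slots filled with elementary maps -/
theorem mev_two (S : Finset ℕ) (F : U R) (hF : F ∈ MS R S) (Y : ℕ → ℕ → VR R) (a b i j : ℕ)
    (ha : a ∈ S) (hb : b ∈ S) (hab : a ≠ b) (y y' : VR R) :
    mev (Function.update (Function.update Y a (Pi.single i y)) b (Pi.single j y')) F =
      zf a y * zf b y' * mev Y (pderiv (a, i) (pderiv (b, j) F)) := by
  have hF' : ∀ m ∈ F.support, ∀ a, sdeg a m = if a ∈ S then 1 else 0 := by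
    intro m hm
    unfold MS at hF
    rw [mem_restrictSupport_iff] at hF
    exact hF (Finset.mem_coe.2 hm)
  have h3 : F = ∑ m ∈ F.support, coeff m F • monomial m (1 : R) := by
    conv_lhs => rw [as_sum F]
    refine Finset.sum_congr rfl fun m _ => ?_
    rw [smul_monomial, smul_eq_mul, mul_one]
  have h4 : pderiv (a, i) (pderiv (b, j) F) = ∑ m ∈ F.support,
      coeff m F • pderiv (a, i) (pderiv (b, j) (monomial m (1 : R))) := by
    conv_lhs => rw [h3]
    rw [map_sum, map_sum]
    refine Finset.sum_congr rfl fun m _ => ?_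
    rw [Derivation.map_smul, Derivation.map_smul]
  rw [h4]
  conv_lhs => rw [h3]
  rw [map_sum, map_sum, Finset.mul_sum]
  refine Finset.sum_congr rfl fun m hm => ?_
  rw [map_smul, map_smul, C3_two_mono S m (hF' m hm) Y a b i j ha hb hab y y', mul_smul_comm]

theorem contraction (S : Finset ℕ) (F : U R) (hF : F ∈ MS R S) (T : Finset ℕ)
    (hT : ∀ a ∈ S, ∀ b ∈ S, a ≠ b → ∑ i ∈ T, ∑ j ∈ T,
      om (ee i) (ee j) • pderiv (a, i) (pderiv (b, j) F) = 0)
    (ψ' : ℕ → VR R) {l : ℕ} (φ : Fin l → ℕ → VR R) (t t' : Fin l) (htt : t ≠ t') (y y' : VR R) :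
    ∑ i ∈ T, ∑ j ∈ T, om (ee i) (ee j) •
      DDm S F ψ' (Function.update (Function.update φ t (Pi.single i y)) t' (Pi.single j y')) = 0 := by
  classical
  unfold DDm
  simp only [Finset.smul_sum]
  have h0 : ∀ G : ℕ → ℕ → (S → Option (Fin l)) → U R, ∀ C : Finset (S → Option (Fin l)),
      (∑ i ∈ T, ∑ j ∈ T, ∑ c ∈ C, G i j c) = ∑ c ∈ C, ∑ i ∈ T, ∑ j ∈ T, G i j c := by
    intro G C
    rw [Finset.sum_congr rfl fun i _ => Finset.sum_comm (s := T) (t := C) (f := fun j c => G i j c),
      Finset.sum_comm]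
  rw [h0]
  refine Finset.sum_eq_zero fun c hc => ?_
  have hc' : ∀ t, ∃! a, c a = some t := (Finset.mem_filter.1 hc).2
  obtain ⟨a, hca, hua⟩ := hc' t
  obtain ⟨b, hcb, hub⟩ := hc' t'
  have hab : a ≠ b := by
    intro h
    rw [h, hcb] at hca
    exact htt (Option.some.inj hca).symm
  have hab' : (a : ℕ) ≠ (b : ℕ) := fun h => hab (Subtype.ext h)
  set Y : ℕ → ℕ → VR R := fun s => if h : s ∈ S then Option.elim (c ⟨s, h⟩) ψ' φ else 0 with hY
  have h1 : ∀ i j : ℕ, (fun s => if h : s ∈ S then Option.elim (c ⟨s, h⟩) ψ'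
      (Function.update (Function.update φ t (Pi.single i y)) t' (Pi.single j y')) else 0) =
      Function.update (Function.update Y a (Pi.single i y)) b (Pi.single j y') := by
    intro i j
    funext s
    by_cases hsb : s = b
    · rw [hsb, Function.update_self, dif_pos b.2]
      have : (⟨(b : ℕ), b.2⟩ : S) = b := Subtype.ext rfl
      rw [this, hcb]
      show Function.update (Function.update φ t (Pi.single i y)) t' (Pi.single j y') t' = _
      rw [Function.update_self]
    · rw [Function.update_of_ne hsb]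
      by_cases hsa : s = a
      · rw [hsa, Function.update_self, dif_pos a.2]
        have : (⟨(a : ℕ), a.2⟩ : S) = a := Subtype.ext rfl
        rw [this, hca]
        show Function.update (Function.update φ t (Pi.single i y)) t' (Pi.single j y') t = _
        rw [Function.update_of_ne htt, Function.update_self]
      · rw [Function.update_of_ne hsa, hY]
        beta_reduce
        by_cases hs : s ∈ S
        · rw [dif_pos hs, dif_pos hs]
          cases hcs : c ⟨s, hs⟩ with
          | none => rfl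
          | some u =>
            have hu1 : u ≠ t := by
              intro h
              rw [h] at hcs
              have := hua _ hcs
              exact hsa (congrArg Subtype.val this)
            have hu2 : u ≠ t' := by
              intro h
              rw [h] at hcs
              have := hub _ hcs
              exact hsb (congrArg Subtype.val this)
            show Function.update (Function.update φ t (Pi.single i y)) t' (Pi.single j y') u = φ u
            rw [Function.update_of_ne hu2, Function.update_of_ne hu1]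
        · rw [dif_neg hs, dif_neg hs]
  have h2 : ∀ i j : ℕ, om (ee i) (ee j) • mev (fun s => if h : s ∈ S then Option.elim (c ⟨s, h⟩) ψ'
      (Function.update (Function.update φ t (Pi.single i y)) t' (Pi.single j y')) else 0) F =
      zf a y * zf b y' * mev Y (om (ee i) (ee j) • pderiv ((a : ℕ), i) (pderiv ((b : ℕ), j) F)) := by
    intro i j
    rw [h1 i j, mev_two S F hF Y a b i j a.2 b.2 hab' y y', ← algebraMap_smul R (om (ee i) (ee j))
      (pderiv ((a : ℕ), i) (pderiv ((b : ℕ), j) F)), map_smul, algebraMap_smul, mul_smul_comm]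
  simp only [h2]
  simp only [← Finset.mul_sum, ← map_sum]
  rw [hT a a.2 b b.2 hab', map_zero, mul_zero]

private theorem C3_om_single (x y : ℂ) (k l : ℕ) :
    om (Finsupp.single k x) (Finsupp.single l y) =
      if Even k then (if l = k + 1 then x * y else 0) else (if l = k - 1 then -(x * y) else 0) := by
  change sympForm (Finsupp.single k x) (Finsupp.single l y) = _
  unfold sympForm
  rw [Finsupp.sum_single_index]
  · split_ifs with h1 h2 h3
    · rw [h2, Finsupp.single_eq_same]
    · rw [Finsupp.single_eq_of_ne (fun h => h2 h.symm), mul_zero]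
    · rw [h3, Finsupp.single_eq_same]
    · rw [Finsupp.single_eq_of_ne (fun h => h3 h.symm), mul_zero, neg_zero]
  · split_ifs <;> simp

private theorem C3_om_comm (k l : ℕ) : om (ee k) (ee l) = - om (ee l) (ee k) := by
  rw [C3_om_single, C3_om_single]
  by_cases hk : Even k
  · by_cases hl : Even l
    · rw [if_pos hk, if_pos hl, if_neg, if_neg, neg_zero]
      · rintro rfl
        obtain ⟨r, hr⟩ := hk
        obtain ⟨s, hs⟩ := hl
        omega
      · rintro rfl
        obtain ⟨r, hr⟩ := hk
        obtain ⟨s, hs⟩ := hl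
        omega
    · rw [if_pos hk, if_neg hl]
      rw [Nat.not_even_iff_odd] at hl
      obtain ⟨s, hs⟩ := hl
      by_cases h : l = k + 1
      · rw [if_pos h, if_pos (by omega), neg_neg]
      · rw [if_neg h, if_neg (by omega), neg_zero]
  · by_cases hl : Even l
    · rw [if_neg hk, if_pos hl]
      rw [Nat.not_even_iff_odd] at hk
      obtain ⟨s, hs⟩ := hk
      by_cases h : l = k - 1
      · rw [if_pos h, if_pos (by omega)]
      · rw [if_neg h, if_neg (by omega), neg_zero]
    · rw [if_neg hk, if_neg hl, if_neg, if_neg, neg_zero]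
      · intro h
        rw [Nat.not_even_iff_odd] at hk hl
        obtain ⟨r, hr⟩ := hk
        obtain ⟨s, hs⟩ := hl
        omega
      · intro h
        rw [Nat.not_even_iff_odd] at hk hl
        obtain ⟨r, hr⟩ := hk
        obtain ⟨s, hs⟩ := hl
        omega

private theorem C3_cfs_smul (ψ' : ℕ → VR R) (c : ℂ) (f : U R) : cfs ψ' (c • f) = c • cfs ψ' f := by
  unfold cfs
  rw [← algebraMap_smul R c f, smul_eq_C_mul, map_mul, map_C,
    ← algebraMap_smul R c (MvPolynomial.map _ f), smul_eq_C_mul]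
  congr 2
  exact AlgHom.commutes _ _

/-- the hypothesis of `contraction` for `F = cfs ψ' f` -/
theorem contr_cfs (S : Finset ℕ) (f : U R) (hf : f ∈ MS R S) (htr : TrZ S f) (T : Finset ℕ)
    (Z : Set ℕ) (hfT : f ∈ LT R ((T : Set ℕ) ∪ Z))
    (hZ : ∀ i ∈ (T : Set ℕ) ∪ Z, ∀ z ∈ Z, z ∉ T → om (ee i) (ee z) = 0) (ψ' : ℕ → VR R) :
    ∀ a ∈ S, ∀ b ∈ S, a ≠ b → ∑ i ∈ T, ∑ j ∈ T,
      om (ee i) (ee j) • pderiv (a, i) (pderiv (b, j) (cfs ψ' f)) = 0 := by
  classical
  intro a ha b hb hab
  have h1 : ∀ i j : ℕ, om (ee i) (ee j) • pderiv (a, i) (pderiv (b, j) (cfs ψ' f)) =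
      cfs ψ' (om (ee i) (ee j) • pderiv (a, i) (pderiv (b, j) f)) := by
    intro i j
    rw [C3_cfs_smul]
    unfold cfs
    rw [pderiv_map, pderiv_map]
  simp only [h1]
  simp only [← map_sum]
  obtain ⟨n, hn⟩ := exists_LT f
  have h2 := htr a ha b hb hab
  rw [tr_eq a b n f hn] at h2
  have hn1 : ∀ i j : ℕ, n ≤ i → pderiv (a, i) (pderiv (b, j) f) = 0 := fun i j hi =>
    pderiv_eq_zero_of_LT (pderiv_LT hn _) a i (fun h => absurd (Set.mem_Iio.1 h) (by omega))
  have hn2 : ∀ i j : ℕ, n ≤ j → pderiv (a, i) (pderiv (b, j) f) = 0 := fun i j hj => by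
    rw [pderiv_eq_zero_of_LT hn b j (fun h => absurd (Set.mem_Iio.1 h) (by omega)), map_zero]
  have hT1 : ∀ i j : ℕ, i ∉ (T : Set ℕ) ∪ Z → pderiv (a, i) (pderiv (b, j) f) = 0 := fun i j hi =>
    pderiv_eq_zero_of_LT (pderiv_LT hfT _) a i hi
  have hT2 : ∀ i j : ℕ, j ∉ (T : Set ℕ) ∪ Z → pderiv (a, i) (pderiv (b, j) f) = 0 := fun i j hj => by
    rw [pderiv_eq_zero_of_LT hfT b j hj, map_zero]
  have key : ∀ i j : ℕ, ¬ (i ∈ T ∧ j ∈ T) →
      om (ee i) (ee j) • pderiv (a, i) (pderiv (b, j) f) = 0 := by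
    intro i j hij
    by_cases hi : i ∈ (T : Set ℕ) ∪ Z
    · by_cases hj : j ∈ (T : Set ℕ) ∪ Z
      · by_cases hjT : j ∈ T
        · have hiT : i ∉ T := fun h => hij ⟨h, hjT⟩
          have hiZ : i ∈ Z := by
            rcases hi with h | h
            · exact absurd (Finset.mem_coe.1 h) hiT
            · exact h
          rw [C3_om_comm, hZ j hj i hiZ hiT, neg_zero, zero_smul]
        · have hjZ : j ∈ Z := by
            rcases hj with h | h
            · exact absurd (Finset.mem_coe.1 h) hjT
            · exact h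
          rw [hZ i hi j hjZ hjT, zero_smul]
      · rw [hT2 i j hj, smul_zero]
    · rw [hT1 i j hi, smul_zero]
  have key2 : ∀ i j : ℕ, ¬ (i ∈ Finset.range n ∧ j ∈ Finset.range n) →
      om (ee i) (ee j) • pderiv (a, i) (pderiv (b, j) f) = 0 := by
    intro i j hij
    by_cases hi : i ∈ Finset.range n
    · have hj : n ≤ j := by
        by_contra h
        exact hij ⟨hi, Finset.mem_range.2 (by omega)⟩
      rw [hn2 i j hj, smul_zero]
    · rw [hn1 i j (by rw [Finset.mem_range] at hi; omega), smul_zero]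
  have h3 : ∀ A B : Finset ℕ, A ⊆ B → (∀ i j : ℕ, ¬ (i ∈ A ∧ j ∈ A) →
      om (ee i) (ee j) • pderiv (a, i) (pderiv (b, j) f) = 0) →
      ∑ i ∈ A, ∑ j ∈ A, om (ee i) (ee j) • pderiv (a, i) (pderiv (b, j) f) =
      ∑ i ∈ B, ∑ j ∈ B, om (ee i) (ee j) • pderiv (a, i) (pderiv (b, j) f) := by
    intro A B hAB hz
    rw [Finset.sum_congr rfl fun i _ => Finset.sum_subset hAB fun j _ hj =>
      hz i j (fun h => hj h.2)]
    exact Finset.sum_subset hAB fun i _ hi => Finset.sum_eq_zero fun j _ =>
      hz i j (fun h => hi h.1)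
  rw [h3 T (T ∪ Finset.range n) Finset.subset_union_left key,
    ← h3 (Finset.range n) (T ∪ Finset.range n) Finset.subset_union_right key2, h2, map_zero]

end MP50e386N
end

section
/-! `T`-degrees. -/

namespace MP50e386N

open MvPolynomial Pool.Agent.Lib.MP50e386

variable {R : Type} [CommRing R] [Algebra ℂ R] [GLRing R]

/-- the `T`-degree of a multidegree -/
private noncomputable def c6deg (n : ℕ) (κ : ℕ →₀ ℕ) : ℕ :=
  κ.sum fun i k => if i < 2 * n then k else 0

private theorem c6_scT (n : ℕ) (c : ℂ) :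
    scT n c = fun i => (if i < 2 * n then c else 1) • ee i := by
  funext i
  unfold scT
  split_ifs
  · rfl
  · rw [one_smul]

private theorem c6_prod (n : ℕ) (c : ℂ) (κ : ℕ →₀ ℕ) :
    (κ.prod fun i k => (if i < 2 * n then c else 1 : ℂ) ^ k) = c ^ c6deg n κ := by
  unfold c6deg Finsupp.prod Finsupp.sum
  rw [← Finset.prod_pow_eq_pow_sum]
  refine Finset.prod_congr rfl fun i _ => ?_
  beta_reduce
  split_ifs
  · rfl
  · rw [one_pow, pow_zero]

private theorem c6_MW {n : ℕ} {κ : ℕ →₀ ℕ} {f : U R} (hf : MW κ f) (c : ℂ) :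
    sbC (scT n c) f = c ^ c6deg n κ • f := by
  rw [c6_scT, hf, c6_prod]

open Classical in
/-- collecting the components of a decomposition by the `T`-degree -/
private theorem c6_collect (n D : ℕ) (s : Finset (ℕ →₀ ℕ)) (g : (ℕ →₀ ℕ) → U R)
    (hg : ∀ κ ∈ s, MW κ (g κ)) (hD : ∀ κ ∈ s, c6deg n κ ≤ D) :
    TD n D (∑ κ ∈ s, g κ) := by
  refine ⟨fun d => ∑ κ ∈ s.filter (fun κ => c6deg n κ = d), g κ, ?_, ?_⟩
  · rw [Finset.sum_fiberwise_of_maps_to]
    intro κ hκ
    rw [Finset.mem_range]
    exact Nat.lt_succ_of_le (hD κ hκ)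
  · intro d c
    rw [map_sum, Finset.smul_sum]
    refine Finset.sum_congr rfl fun κ hκ => ?_
    rw [Finset.mem_filter] at hκ
    rw [c6_MW (hg κ hκ.1), hκ.2]

theorem exists_TD (n : ℕ) (f : U R) : ∃ D, TD n D f := by
  obtain ⟨N, hN⟩ := exists_LT f
  obtain ⟨s, g, hf, hg, -⟩ := exists_MW_decomp hN
  refine ⟨s.sup (c6deg n), ?_⟩
  rw [hf]
  exact c6_collect n _ s g (fun κ hκ => (hg κ hκ).1) (fun κ hκ => Finset.le_sup hκ)

theorem TD_mono {n D D' : ℕ} (h : D ≤ D') {f : U R} (hf : TD n D f) : TD n D' f := by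
  obtain ⟨g, hfg, hg⟩ := hf
  refine ⟨fun d => if d < D + 1 then g d else 0, ?_, ?_⟩
  · rw [hfg]
    have h1 : Finset.range (D + 1) ⊆ Finset.range (D' + 1) :=
      Finset.range_subset_range.2 (by omega)
    rw [← Finset.sum_subset h1]
    · refine Finset.sum_congr rfl fun d hd => ?_
      rw [if_pos (Finset.mem_range.1 hd)]
    · intro d _ hd
      rw [if_neg (fun h => hd (Finset.mem_range.2 h))]
  · intro d c
    beta_reduce
    split_ifs
    · exact hg d c
    · rw [map_zero, smul_zero]

private theorem c6_deg_le (n : ℕ) (κ : ℕ →₀ ℕ) : c6deg n κ ≤ κ.degree := by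
  unfold c6deg Finsupp.sum
  rw [Finsupp.degree_apply]
  refine Finset.sum_le_sum fun i _ => ?_
  beta_reduce
  split_ifs
  · exact le_rfl
  · exact Nat.zero_le _

private theorem c6_HW_of_MW {κ : ℕ →₀ ℕ} {f : U R} (hf : MW κ f) : HW κ.degree f := by
  intro c
  have h := hf (fun _ => c)
  rw [h]
  congr 1
  unfold Finsupp.prod
  rw [Finset.prod_pow_eq_pow_sum, Finsupp.degree_apply]

open Classical in
theorem TD_of_HW {n D : ℕ} {f : U R} (hf : HW D f) : TD n D f := by
  obtain ⟨N, hN⟩ := exists_LT f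
  obtain ⟨s, g, hfs, hg, -⟩ := exists_MW_decomp hN
  set G : ℕ → U R := fun d => ∑ κ ∈ s.filter (fun κ => κ.degree = d), g κ with hG
  have hGHW : ∀ d, HW d (G d) := by
    intro d c
    rw [hG]
    beta_reduce
    rw [map_sum, Finset.smul_sum]
    refine Finset.sum_congr rfl fun κ hκ => ?_
    rw [Finset.mem_filter] at hκ
    have := c6_HW_of_MW (hg κ hκ.1).1 c
    rw [hκ.2] at this
    exact this
  set M : ℕ := max (D + 1) ((s.sup fun κ => κ.degree) + 1) with hM
  have hsumG : f = ∑ d ∈ Finset.range M, G d := by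
    rw [hG]
    conv_lhs => rw [hfs]
    rw [Finset.sum_fiberwise_of_maps_to]
    intro κ hκ
    rw [Finset.mem_range]
    have h1 : κ.degree ≤ s.sup fun κ => κ.degree :=
      Finset.le_sup (f := fun κ : ℕ →₀ ℕ => κ.degree) hκ
    omega
  have hDM : D < M := by omega
  have hz : G D - f = 0 := by
    have h1 := HW_comp_mem (⊥ : Submodule ℂ (U R)) (by
        intro t _ f hf
        rw [Submodule.mem_bot] at hf ⊢
        rw [hf, map_zero]) M (fun d => if d = D then G d - f else G d) (by
        intro d c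
        beta_reduce
        split_ifs with h
        · subst h
          rw [map_sub, hGHW d c, hf c, smul_sub]
        · exact hGHW d c) (by
        rw [Submodule.mem_bot]
        have h2 : ∀ d, (if d = D then G d - f else G d) = G d - (if d = D then f else 0) := by
          intro d
          split_ifs
          · rfl
          · rw [sub_zero]
        simp only [h2]
        rw [Finset.sum_sub_distrib, ← hsumG, Finset.sum_ite_eq', if_pos (Finset.mem_range.2 hDM),
          sub_self]) D hDM
    beta_reduce at h1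
    rw [if_pos rfl, Submodule.mem_bot] at h1
    exact h1
  have hfD : f = ∑ κ ∈ s.filter (fun κ => κ.degree = D), g κ := (sub_eq_zero.1 hz).symm
  rw [hfD]
  refine c6_collect n D _ g (fun κ hκ => (hg κ (Finset.mem_filter.1 hκ).1).1) (fun κ hκ => ?_)
  rw [← (Finset.mem_filter.1 hκ).2]
  exact c6_deg_le n κ

private theorem c6_om_ee (k : ℕ) (y : V) :
    om (ee k) y = if Even k then y (k + 1) else -(y (k - 1)) := by
  change sympForm (Finsupp.single k 1) y = _
  unfold sympForm
  rw [Finsupp.sum_single_index]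
  · split_ifs <;> simp
  · split_ifs <;> simp

private theorem c6_om_symm (i j : ℕ) : om (ee i) (ee j) = -om (ee j) (ee i) := by
  rw [c6_om_ee, c6_om_ee]
  simp only [ee, Finsupp.single_apply]
  by_cases hi : Even i <;> by_cases hj : Even j
  · rw [if_pos hi, if_pos hj, if_neg, if_neg, neg_zero]
    · rintro rfl
      exact (Nat.not_even_iff_odd.2 hj.add_one) hi
    · rintro rfl
      exact (Nat.not_even_iff_odd.2 hi.add_one) hj
  · rw [if_pos hi, if_neg hj, neg_neg]
    rw [Nat.not_even_iff_odd] at hj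
    have : 1 ≤ j := hj.pos
    by_cases h : j = i + 1
    · rw [if_pos h, if_pos (by omega)]
    · rw [if_neg h, if_neg (by omega)]
  · rw [if_neg hi, if_pos hj]
    rw [Nat.not_even_iff_odd] at hi
    have : 1 ≤ i := hi.pos
    by_cases h : i = j + 1
    · rw [if_pos h, if_pos (by omega)]
    · rw [if_neg h, if_neg (by omega)]
  · rw [if_neg hi, if_neg hj, if_neg, if_neg, neg_neg, neg_zero]
    · rw [Nat.not_even_iff_odd] at hi hj
      intro h
      have h1 : 1 ≤ j := hj.pos
      have h2 : i + 1 = j := by omega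
      rw [← h2] at hj
      exact (Nat.not_even_iff_odd.2 hj) hi.add_one
    · rw [Nat.not_even_iff_odd] at hi hj
      intro h
      have h1 : 1 ≤ i := hi.pos
      have h2 : j + 1 = i := by omega
      rw [← h2] at hi
      exact (Nat.not_even_iff_odd.2 hi) hj.add_one

private theorem c6_om_smul_ee (a b : ℂ) (i j : ℕ) :
    om (a • ee i) (b • ee j) = a * b * om (ee i) (ee j) := by
  have e : ∀ (a : ℂ) (i : ℕ) (y : V), om (a • ee i) y = a * om (ee i) y := by
    intro a i y
    rw [c6_om_ee, show (a • ee i : V) = Finsupp.single i a by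
      rw [ee, Finsupp.smul_single, smul_eq_mul, mul_one]]
    change sympForm (Finsupp.single i a) y = _
    unfold sympForm
    rw [Finsupp.sum_single_index]
    · split_ifs <;> simp
    · split_ifs <;> simp
  rw [e, mul_assoc]
  congr 1
  rw [c6_om_ee, c6_om_ee]
  split_ifs
  · rw [Finsupp.smul_apply, smul_eq_mul]
  · rw [Finsupp.smul_apply, smul_eq_mul, mul_neg]

/-- the components of `f ∈ M` killed by the traces are of the same kind -/
theorem TD_comp (n D : ℕ) (S : Finset ℕ) (M : Submodule R (U R)) (hM : GLS M) (T : Set ℕ)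
    (f : U R) (hf : f ∈ M) (hfT : f ∈ LT R T) (htr : TrZ S f)
    (htrn : ∀ i < 2 * n, ∀ j ≥ 2 * n, j ∈ T → om (ee i) (ee j) = 0)
    (htrZ : ∀ i ≥ 2 * n, ∀ j ≥ 2 * n, i ∈ T → j ∈ T → om (ee i) (ee j) = 0)
    (hD : TD n D f) : ∃ g : ℕ → U R, f = ∑ d ∈ Finset.range (D + 1), g d ∧
      ∀ d, g d ∈ M ∧ g d ∈ LT R T ∧ TrZ S (g d) ∧ ∀ c : ℂ, sbC (scT n c) (g d) = c ^ d • g d := by
  obtain ⟨g, hfg, hg⟩ := hD
  have hexp : ∀ c : ℂ, sbC (scT n c) f = ∑ d ∈ Finset.range (D + 1), c ^ d • g d := by
    intro c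
    conv_lhs => rw [hfg]
    rw [map_sum]
    exact Finset.sum_congr rfl fun d _ => hg d c
  have hinf : ∀ P : ℂ → Prop, (∀ c, P c) → {c : ℂ | P c}.Infinite := by
    intro P hP
    have : {c : ℂ | P c} = Set.univ := Set.eq_univ_of_forall hP
    rw [this]
    exact Set.infinite_univ
  have h1 : ∀ d < D + 1, g d ∈ M.restrictScalars ℂ := by
    refine vand1 (M.restrictScalars ℂ) (D + 1) g (hinf _ fun c => ?_)
    rw [← hexp c]
    exact hM _ f hf
  have h2 : ∀ d < D + 1, g d ∈ Subalgebra.toSubmodule (LT R T) := by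
    refine vand1 (Subalgebra.toSubmodule (LT R T)) (D + 1) g (hinf _ fun c => ?_)
    rw [← hexp c]
    refine sbC_LT hfT _ ?_
    intro i hi j hj
    have : j = i := by
      by_contra hne
      apply hj
      rw [c6_scT]
      beta_reduce
      rw [Finsupp.smul_apply, ee, Finsupp.single_eq_of_ne hne, smul_zero]
    rw [this]
    exact hi
  have h3 : ∀ a ∈ S, ∀ b ∈ S, a ≠ b → ∀ d < D + 1, tr a b (g d) = 0 := by
    intro a ha b hb hab
    have h4 := vand1 (⊥ : Submodule ℂ (U R)) (D + 1) (fun d => tr a b (g d)) (hinf _ fun c => by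
      rw [Submodule.mem_bot]
      have h5 : tr a b (sbC (scT n c) f) = c ^ 2 • sbC (scT n c) (tr a b f) := by
        refine tr_sbC_iso _ a b T f hfT _ ?_
        intro i hi j hj
        rw [c6_scT]
        beta_reduce
        rw [c6_om_smul_ee]
        by_cases hi2 : i < 2 * n <;> by_cases hj2 : j < 2 * n
        · rw [if_pos hi2, if_pos hj2]; ring
        · rw [htrn i hi2 j (by omega) hj]; ring
        · rw [c6_om_symm, htrn j hj2 i (by omega) hi]; ring
        · rw [htrZ i (by omega) j (by omega) hi hj]; ring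
      rw [htr a ha b hb hab, map_zero, smul_zero, hexp, map_sum] at h5
      rw [← h5]
      refine Finset.sum_congr rfl fun d _ => ?_
      rw [LinearMap.map_smul_of_tower])
    intro d hd
    have := h4 d hd
    rwa [Submodule.mem_bot] at this
  refine ⟨fun d => if d < D + 1 then g d else 0, ?_, ?_⟩
  · rw [hfg]
    refine Finset.sum_congr rfl fun d hd => ?_
    beta_reduce
    rw [if_pos (Finset.mem_range.1 hd)]
  · intro d
    by_cases hd : d < D + 1
    · simp only [if_pos hd]
      exact ⟨h1 d hd, h2 d hd, fun a ha b hb hab => h3 a ha b hb hab d hd, hg d⟩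
    · simp only [if_neg hd]
      refine ⟨Submodule.zero_mem _, Subalgebra.zero_mem _, fun a _ b _ _ => map_zero _, ?_⟩
      intro c
      rw [map_zero, smul_zero]

/-- elements of `T`-degree `0` have no letters in `T` -/
theorem LT_of_TD_zero {n : ℕ} {T : Set ℕ} {f : U R} (hf : f ∈ LT R T)
    (h : ∀ c : ℂ, sbC (scT n c) f = c ^ 0 • f) : f ∈ LT R (T \ Set.Iio (2 * n)) := by
  have h0 := h 0
  rw [pow_zero, one_smul] at h0
  rw [← h0]
  refine sbC_LT hf _ ?_
  intro i hi j hj
  have hin : ¬ i < 2 * n := by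
    intro hlt
    apply hj
    unfold scT
    rw [if_pos hlt, zero_smul]
    rfl
  have hji : j = i := by
    by_contra hne
    apply hj
    unfold scT
    rw [if_neg hin, ee, Finsupp.single_apply, if_neg (fun h => hne h.symm)]
  rw [hji]
  exact ⟨hi, hin⟩

/-- homogeneity may be tested with `c ≠ 0`, also with a negative exponent -/
private theorem c6_hom (n : ℕ) (f : U R) (D e : ℕ)
    (h : ∀ c : ℂ, c ≠ 0 → c ^ e • sbC (scT n c) f = c ^ D • f) :
    (∀ c : ℂ, sbC (scT n c) f = c ^ (D - e) • f) ∧ (e ≤ D ∨ f = 0) := by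
  obtain ⟨N, hN⟩ := exists_TD n f
  obtain ⟨g, hfg, hg⟩ := hN
  have hexp : ∀ c : ℂ, sbC (scT n c) f = ∑ d ∈ Finset.range (N + 1), c ^ d • g d := by
    intro c
    conv_lhs => rw [hfg]
    rw [map_sum]
    exact Finset.sum_congr rfl fun d _ => hg d c
  -- the coefficients of `c ^ k`
  set F : ℕ → U R := fun k => (if e ≤ k ∧ k - e < N + 1 then g (k - e) else 0) -
    (if k = D then f else 0) with hF
  set B : ℕ := max (D + 1) (e + N + 1) with hB
  have h1 : ∀ c : ℂ, c ≠ 0 → ∑ k ∈ Finset.range B, c ^ k • F k = 0 := by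
    intro c hc
    have h2 := h c hc
    rw [hexp] at h2
    rw [hF]
    simp only [smul_sub, Finset.sum_sub_distrib]
    rw [sub_eq_zero]
    have e1 : ∑ k ∈ Finset.range B, c ^ k • (if k = D then f else 0) = c ^ D • f := by
      rw [Finset.sum_eq_single D]
      · rw [if_pos rfl]
      · intro k _ hk
        rw [if_neg hk, smul_zero]
      · intro hk
        exact absurd (Finset.mem_range.2 (by omega)) hk
    have e2 : ∑ k ∈ Finset.range B, c ^ k • (if e ≤ k ∧ k - e < N + 1 then g (k - e) else 0) =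
        c ^ e • ∑ d ∈ Finset.range (N + 1), c ^ d • g d := by
      rw [Finset.smul_sum]
      have e3 : ∀ d ∈ Finset.range (N + 1), c ^ e • c ^ d • g d =
          (fun k => c ^ k • (if e ≤ k ∧ k - e < N + 1 then g (k - e) else 0)) (d + e) := by
        intro d hd
        beta_reduce
        rw [if_pos ⟨by omega, by
          rw [Nat.add_sub_cancel]
          exact Finset.mem_range.1 hd⟩, Nat.add_sub_cancel, smul_smul, ← pow_add,
          add_comm e d]
      rw [Finset.sum_congr rfl e3]
      rw [← Finset.sum_image (s := Finset.range (N + 1)) (g := fun d => d + e)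
        (f := fun k => c ^ k • (if e ≤ k ∧ k - e < N + 1 then g (k - e) else 0))]
      · symm
        apply Finset.sum_subset
        · intro k hk
          obtain ⟨d, hd, rfl⟩ := Finset.mem_image.1 hk
          have := Finset.mem_range.1 hd
          exact Finset.mem_range.2 (by omega)
        · intro k _ hk
          rw [if_neg, smul_zero]
          rintro ⟨h3, h4⟩
          apply hk
          exact Finset.mem_image.2 ⟨k - e, Finset.mem_range.2 h4, by omega⟩
      · intro a _ b _ hab
        exact Nat.add_right_cancel hab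
    rw [e1, e2, h2]
  have h3 : ∀ k < B, F k ∈ (⊥ : Submodule ℂ (U R)) := by
    refine vand1 ⊥ B F ?_
    have hsub : ({0}ᶜ : Set ℂ) ⊆ {t : ℂ | ∑ k ∈ Finset.range B, t ^ k • F k ∈
        (⊥ : Submodule ℂ (U R))} := by
      intro c hc
      change ∑ k ∈ Finset.range B, c ^ k • F k ∈ (⊥ : Submodule ℂ (U R))
      rw [h1 c hc]
      exact Submodule.zero_mem _
    exact (Set.finite_singleton (0 : ℂ)).infinite_compl.mono hsub
  have h4 : ∀ k < B, F k = 0 := fun k hk => by
    have := h3 k hk
    rwa [Submodule.mem_bot] at this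
  by_cases heD : e ≤ D
  · refine ⟨?_, Or.inl heD⟩
    -- `g d = 0` for `d ≠ D - e`, and the component `D - e` is `f`
    have h5 : ∀ d < N + 1, d ≠ D - e → g d = 0 := by
      intro d hd hne
      have := h4 (d + e) (by omega)
      rw [hF] at this
      beta_reduce at this
      rw [if_pos ⟨by omega, by rw [Nat.add_sub_cancel]; exact hd⟩, Nat.add_sub_cancel,
        if_neg (by omega), sub_zero] at this
      exact this
    intro c
    rw [hexp]
    have h6 := h4 D (by omega)
    rw [hF] at h6
    beta_reduce at h6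
    rw [if_pos rfl] at h6
    by_cases h7 : D - e < N + 1
    · rw [if_pos ⟨heD, h7⟩, sub_eq_zero] at h6
      rw [Finset.sum_eq_single (D - e)]
      · rw [h6]
      · intro d hd hne
        rw [h5 d (Finset.mem_range.1 hd) hne, smul_zero]
      · intro h8
        exact absurd (Finset.mem_range.2 h7) h8
    · rw [if_neg (fun h => h7 h.2), zero_sub, neg_eq_zero] at h6
      rw [h6, smul_zero]
      refine Finset.sum_eq_zero fun d hd => ?_
      have := Finset.mem_range.1 hd
      rw [h5 d this (by omega), smul_zero]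
  · have h6 := h4 D (by omega)
    rw [hF] at h6
    beta_reduce at h6
    rw [if_pos rfl, if_neg (fun h => heD h.1), zero_sub, neg_eq_zero] at h6
    refine ⟨fun c => ?_, Or.inr h6⟩
    rw [h6, map_zero, smul_zero]

private theorem c6_cst_single (i : ℕ) (a : ℂ) : (cst (Finsupp.single i a) : VR R) =
    Finsupp.single i (algebraMap ℂ R a) := by
  simp [cst]

/-- the substitution of `replace_letters` -/
private noncomputable def c6ph (n : ℕ) (y : ℕ → ℕ) (lam : ℕ → ℂ) (i : ℕ) : V :=
  if i < 2 * n then ee i + lam i • ee (y i) else ee i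

open Classical in
private theorem c6_poly (n : ℕ) (y : ℕ → ℕ) (f : U R) :
    ∃ P : MvPolynomial ℕ (U R), ∀ lam : ℕ → ℂ, sbC (c6ph n y lam) f =
      ∑ m ∈ P.support, (m.prod fun i k => lam i ^ k) • coeff m P := by
  obtain ⟨P, hP⟩ := exists_sbU_poly (R := R) (σ := ℕ)
    (fun i => if i < 2 * n then Finsupp.single i 1 + Finsupp.single (y i) (X i)
      else Finsupp.single i 1) f
  refine ⟨P, fun lam => ?_⟩
  have h1 := hP (fun i => algebraMap ℂ R (lam i))
  have h2 : (fun i => ((if i < 2 * n then Finsupp.single i 1 + Finsupp.single (y i) (X i)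
      else Finsupp.single i 1 : VR (MvPolynomial ℕ R)).mapRange
        (eval (fun i => algebraMap ℂ R (lam i))) (map_zero _) : VR R)) =
      fun i => cst (c6ph n y lam i) := by
    funext i
    unfold c6ph
    split_ifs
    · rw [Finsupp.mapRange_add (by intro a b; exact map_add _ a b), Finsupp.mapRange_single,
        Finsupp.mapRange_single, map_one, eval_X, map_add, map_smul]
      simp only [ee]
      rw [c6_cst_single, c6_cst_single, map_one, Finsupp.smul_single, Algebra.smul_def, mul_one]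
    · rw [Finsupp.mapRange_single, map_one]
      simp only [ee]
      rw [c6_cst_single, map_one]
  rw [h2] at h1
  unfold sbC
  rw [h1, eval_eq]
  refine Finset.sum_congr rfl fun m _ => ?_
  rw [mul_comm, Algebra.smul_def, Finsupp.prod, map_prod]
  congr 1
  refine Finset.prod_congr rfl fun i _ => ?_
  rw [map_pow]
  rfl

private theorem c6_linC_add (φ : ℕ → V) (a : ℂ) (i j : ℕ) :
    linC φ (ee i + a • ee j) = φ i + a • φ j := by
  rw [map_add, map_smul, linC_ee, linC_ee]

open Classical in
/-- replacing letters: `e_i ↦ e_i + t w_i` for `i < 2n` and expansion in powers of `t`; the terms with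
at least one replaced letter have smaller `T`-degree -/
theorem replace_letters (n D : ℕ) (f : U R)
    (hdeg : ∀ c : ℂ, sbC (scT n c) f = c ^ D • f) (y : ℕ → ℕ)
    (hy : ∀ i < 2 * n, 2 * n ≤ y i) :
    ∃ (s : Finset (ℕ →₀ ℕ)) (g : (ℕ →₀ ℕ) → U R),
      (∀ lam : ℕ → ℂ, sbC (fun i => if i < 2 * n then ee i + lam i • ee (y i) else ee i) f =
        ∑ m ∈ s, (m.prod fun i k => lam i ^ k) • g m) ∧
      0 ∈ s ∧ g 0 = f ∧ (∀ m ∈ s, ∀ i ∈ m.support, i < 2 * n) ∧
      ∀ m ∈ s, ∀ c : ℂ, sbC (scT n c) (g m) = c ^ (D - m.degree) • g m ∧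
        (m.degree ≤ D ∨ g m = 0) := by
  obtain ⟨P, hP⟩ := c6_poly n y f
  set s : Finset (ℕ →₀ ℕ) := (insert 0 P.support).filter (fun m => ∀ i ∈ m.support, i < 2 * n)
    with hs
  have hexp : ∀ lam : ℕ → ℂ, sbC (c6ph n y lam) f =
      ∑ m ∈ s, (m.prod fun i k => lam i ^ k) • coeff m P := by
    intro lam
    set lam' : ℕ → ℂ := fun i => if i < 2 * n then lam i else 0 with hlam'
    have e1 : c6ph n y lam = c6ph n y lam' := by
      funext i
      unfold c6ph
      split_ifs with h
      · rw [hlam']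
        simp only [if_pos h]
      · rfl
    rw [e1, hP lam']
    have e2 : ∑ m ∈ P.support, (m.prod fun i k => lam' i ^ k) • coeff m P =
        ∑ m ∈ insert 0 P.support, (m.prod fun i k => lam' i ^ k) • coeff m P := by
      apply Finset.sum_subset (Finset.subset_insert _ _)
      intro m _ hm
      rw [notMem_support_iff.1 hm, smul_zero]
    rw [e2, hs, Finset.sum_filter]
    refine Finset.sum_congr rfl fun m _ => ?_
    split_ifs with h
    · congr 1
      refine Finset.prod_congr rfl fun i hi => ?_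
      rw [hlam']
      simp only [if_pos (h i hi)]
    · push Not at h
      obtain ⟨i, hi, hin⟩ := h
      have : (m.prod fun i k => lam' i ^ k) = 0 := by
        unfold Finsupp.prod
        apply Finset.prod_eq_zero hi
        rw [hlam']
        beta_reduce
        rw [if_neg (by omega), zero_pow (Finsupp.mem_support_iff.1 hi)]
      rw [this, zero_smul]
  have h0s : (0 : ℕ →₀ ℕ) ∈ s := by
    rw [hs, Finset.mem_filter]
    exact ⟨Finset.mem_insert_self _ _, by intro i hi; simp at hi⟩
  have hg0 : coeff 0 P = f := by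
    have h1 := hexp (fun _ => 0)
    have h2 : c6ph n y (fun _ => 0) = ee := by
      funext i
      unfold c6ph
      split_ifs
      · rw [zero_smul, add_zero]
      · rfl
    rw [h2, sbC_id, Finset.sum_eq_single 0] at h1
    · rw [Finsupp.prod_zero_index, one_smul] at h1
      exact h1.symm
    · intro m _ hm
      obtain ⟨i, hi⟩ := Finsupp.support_nonempty_iff.2 hm
      have : (m.prod fun i k => (0 : ℂ) ^ k) = 0 := by
        unfold Finsupp.prod
        apply Finset.prod_eq_zero hi
        beta_reduce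
        rw [zero_pow (Finsupp.mem_support_iff.1 hi)]
      rw [this, zero_smul]
    · intro h
      exact absurd h0s h
  refine ⟨s, fun m => coeff m P, hexp, h0s, hg0, ?_, ?_⟩
  · intro m hm
    exact (Finset.mem_filter.1 hm).2
  · -- homogeneity
    have key : ∀ c : ℂ, c ≠ 0 → ∀ m ∈ s,
        c ^ m.degree • sbC (scT n c) (coeff m P) = c ^ D • coeff m P := by
      intro c hc m hm
      have h1 : ∀ lam : ℕ → ℂ, sbC (scT n c) (sbC (c6ph n y (fun i => c * lam i)) f) =
          c ^ D • sbC (c6ph n y lam) f := by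
        intro lam
        rw [← sbC_smulC, ← hdeg c, sbC_sbC, sbC_sbC]
        have hφ : ∀ i, linC (scT n c) (c6ph n y (fun i => c * lam i) i) =
            linC (c6ph n y lam) (scT n c i) := by
          intro i
          by_cases hi : i < 2 * n
          · have hyi : ¬ y i < 2 * n := by
              have := hy i hi
              omega
            have e1 : c6ph n y (fun i => c * lam i) i = ee i + (c * lam i) • ee (y i) := if_pos hi
            have e2 : scT n c i = c • ee i := if_pos hi
            have e3 : scT n c (y i) = ee (y i) := if_neg hyi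
            have e4 : c6ph n y lam i = ee i + lam i • ee (y i) := if_pos hi
            rw [e1, e2, c6_linC_add, map_smul, linC_ee, e2, e3, e4, smul_add, smul_smul]
          · have e1 : c6ph n y (fun i => c * lam i) i = ee i := if_neg hi
            have e2 : scT n c i = ee i := if_neg hi
            have e4 : c6ph n y lam i = ee i := if_neg hi
            rw [e1, e2, linC_ee, linC_ee, e2, e4]
        exact congrArg (fun φ : ℕ → V => sbC φ f) (funext hφ)
      have h2 := vandM (⊥ : Submodule ℂ (U R)) s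
        (fun m => c ^ m.degree • sbC (scT n c) (coeff m P) - c ^ D • coeff m P) (by
        intro lam _
        rw [Submodule.mem_bot]
        have h3 := h1 lam
        rw [hexp, hexp, map_sum, Finset.smul_sum] at h3
        simp only [smul_sub, Finset.sum_sub_distrib]
        rw [sub_eq_zero]
        have e1 : ∀ m : ℕ →₀ ℕ, sbC (scT n c) ((m.prod fun i k => (c * lam i) ^ k) • coeff m P) =
            (m.prod fun i k => lam i ^ k) • c ^ m.degree • sbC (scT n c) (coeff m P) := by
          intro m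
          rw [sbC_smulC, smul_smul]
          congr 1
          unfold Finsupp.prod
          simp only [mul_pow]
          rw [Finset.prod_mul_distrib, Finset.prod_pow_eq_pow_sum, Finsupp.degree_apply, mul_comm]
        rw [Finset.sum_congr rfl fun m _ => (e1 m).symm, h3]
        refine Finset.sum_congr rfl fun m _ => ?_
        rw [smul_comm]) m hm
      rw [Submodule.mem_bot, sub_eq_zero] at h2
      exact h2
    intro m hm c
    obtain ⟨h1, h2⟩ := c6_hom n (coeff m P) D m.degree (fun c hc => key c hc m hm)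
    exact ⟨h1 c, h2⟩

end MP50e386N
end
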