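import Mathlib
import Pool.Agent.Lib.MP_50e386_al.B.Ca
import Pool.Agent.Lib.MP_50e386_al.B.La

section
/-! (A), paper 5.5. -/

namespace MP50e386N

open MvPolynomial Pool.Agent.Lib.MP50e386

variable {R : Type} [CommRing R] [Algebra ℂ R] [GLRing R]

namespace C8

/-- one parameter families on `R` are polynomial -/
theorem sbR_poly (v w : ℕ → V) (a : R) :
    ∃ P : Polynomial R, ∀ t : ℂ, sbR (fun i => t • v i + w i) a = P.eval (algebraMap ℂ R t) := by
  have ha : a ∈ Algebra.adjoin ℂ (Set.range fun p : ℕ × ℕ => (GLRing.x p.1 p.2 : R)) := by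
    rw [GLRing.gen]; exact Algebra.mem_top
  induction ha using Algebra.adjoin_induction with
  | mem x hx =>
    obtain ⟨⟨i, j⟩, rfl⟩ := hx
    refine ⟨Polynomial.C (xv (v i) (v j)) * Polynomial.X ^ 2 +
      Polynomial.C (xv (v i) (w j) + xv (w i) (v j)) * Polynomial.X +
      Polynomial.C (xv (w i) (w j)), fun t => ?_⟩
    have h1 : sbR (fun i => t • v i + w i) (GLRing.x i j : R) =
        xf (cst (t • v i + w i)) (cst (t • v j + w j)) := sb_x' _ _ _
    simp only
    rw [h1]
    have h2 : ∀ u : V, (cst (t • u) : VR R) = (algebraMap ℂ R t) • cst u := by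
      intro u
      rw [map_smul, algebraMap_smul]
    simp only [map_add, h2, LinearMap.add_apply, map_smul, LinearMap.smul_apply, smul_eq_mul,
      Polynomial.eval_add, Polynomial.eval_mul, Polynomial.eval_C, Polynomial.eval_pow,
      Polynomial.eval_X, xv]
    ring
  | algebraMap c =>
    refine ⟨Polynomial.C (algebraMap ℂ R c), fun t => ?_⟩
    rw [AlgHom.commutes, Polynomial.eval_C]
  | add x y _ _ hx hy =>
    obtain ⟨P, hP⟩ := hx
    obtain ⟨Q, hQ⟩ := hy
    exact ⟨P + Q, fun t => by rw [map_add, hP, hQ, Polynomial.eval_add]⟩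
  | mul x y _ _ hx hy =>
    obtain ⟨P, hP⟩ := hx
    obtain ⟨Q, hQ⟩ := hy
    exact ⟨P * Q, fun t => by rw [map_mul, hP, hQ, Polynomial.eval_mul]⟩

theorem hh_LT {r k : ℕ} (T : Set ℕ) (s q : ℕ) (u : Fin r → ℕ) (b : Fin k → ℕ)
    (hu : ∀ i, u i ∈ T) (hb : ∀ j, b j ∈ T) :
    (C (hh s q (fun i => ee (u i)) (fun j => ee (b j))) : U R) ∈ LT R T := by
  classical
  have h1 : (C (hh s q (fun i => ee (u i)) (fun j => ee (b j))) : U R) =
      sbC (fun i => if i ∈ T then ee i else 0)
        (C (hh s q (fun i => ee (u i)) (fun j => ee (b j)))) := by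
    rw [sbC_C, sbR_hh]
    congr 2
    · funext i
      rw [linC_ee, if_pos (hu i)]
    · funext j
      rw [linC_ee, if_pos (hb j)]
  rw [h1]
  refine sbC_LT (T := Set.univ) (by rw [LT_univ]; exact Algebra.mem_top) _ ?_
  intro i _ j hij
  by_cases hi : i ∈ T
  · rw [if_pos hi] at hij
    by_cases h : i = j
    · exact h ▸ hi
    · exact absurd (Finsupp.single_eq_of_ne (Ne.symm h)) hij
  · rw [if_neg hi] at hij
    exact absurd rfl hij

theorem TD_of_hom {n D d : ℕ} {f : U R} (h : ∀ c : ℂ, sbC (scT n c) f = c ^ d • f) (hd : d ≤ D) :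
    TD n D f := by
  classical
  refine ⟨fun e => if e = d then f else 0, ?_, ?_⟩
  · rw [Finset.sum_ite_eq', if_pos (Finset.mem_range.2 (by omega))]
  · intro e c
    by_cases he : e = d
    · simp only [if_pos he]
      rw [h, he]
    · simp only [if_neg he]
      rw [map_zero, smul_zero]

/-- expansion of a one parameter replacement of the letters `< 2n` -/
theorem expand (n J : ℕ) (f : U R) (hdeg : ∀ c : ℂ, sbC (scT n c) f = c ^ J • f) (v : ℕ → V)
    (hv : ∀ i, ∀ l < 2 * n, v i l = 0) :
    ∃ f' : ℕ → U R, f' 0 = f ∧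
      (∀ τ : ℂ, sbC (fun i => if i < 2 * n then ee i + τ • v i else ee i) f =
        ∑ d ∈ Finset.range (J + 1), τ ^ d • f' d) ∧
      ∀ d, ∀ c : ℂ, sbC (scT n c) (f' d) = c ^ (J - d) • f' d := by
  classical
  obtain ⟨n', hn'⟩ := exists_LT f
  set L0 : ℕ := max (2 * n) n' with hL0
  obtain ⟨s, g, hg1, hg0, hg2, -, hg3⟩ := replace_letters n J f hdeg (fun i => L0 + i)
    (fun i _ => le_trans (le_max_left _ _) (Nat.le_add_right _ _))
  set β : ℕ → V := fun i => if L0 ≤ i ∧ i < L0 + 2 * n then v (i - L0) else ee i with hβ
  have hβlow : ∀ i < L0, β i = ee i := by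
    intro i hi
    simp only [hβ]
    rw [if_neg (by omega)]
  have hβf : sbC β f = f := by
    rw [sbC_congr hn' β ee (fun i hi => hβlow i (lt_of_lt_of_le hi (le_max_right _ _))), sbC_id]
  have hlinv : ∀ i (c : ℂ), linC (scT n c) (v i) = v i := by
    intro i c
    conv_rhs => rw [← linC_id (v i)]
    unfold linC
    rw [Finsupp.linearCombination_apply, Finsupp.linearCombination_apply]
    apply Finsupp.sum_congr
    intro l hl
    have hl' : ¬ l < 2 * n := fun h => (Finsupp.mem_support_iff.1 hl) (hv i l h)
    unfold scT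
    rw [if_neg hl']
  have hcomm : ∀ (c : ℂ) (h : U R), sbC (scT n c) (sbC β h) = sbC β (sbC (scT n c) h) := by
    intro c h
    have h0 : (fun i => linC (scT n c) (β i)) = fun i => linC β (scT n c i) := by
      funext i
      by_cases hi : L0 ≤ i ∧ i < L0 + 2 * n
      · have h1 : β i = v (i - L0) := by simp only [hβ]; rw [if_pos hi]
        have h2 : scT n c i = ee i := by
          unfold scT
          rw [if_neg (by omega)]
        rw [h1, hlinv, h2, linC_ee, h1]
      · have h1 : β i = ee i := by simp only [hβ]; rw [if_neg hi]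
        rw [h1, linC_ee]
        unfold scT
        by_cases hi2 : i < 2 * n
        · rw [if_pos hi2, map_smul, linC_ee, h1]
        · rw [if_neg hi2, linC_ee, h1]
    rw [sbC_sbC, sbC_sbC, h0]
  refine ⟨fun d => ∑ m ∈ s.filter (fun m => m.degree = d), sbC β (g m), ?_, ?_, ?_⟩
  · have h1 : s.filter (fun m => m.degree = 0) = {0} := by
      ext m
      rw [Finset.mem_filter, Finset.mem_singleton, Finsupp.degree_eq_zero_iff]
      constructor
      · exact fun h => h.2
      · rintro rfl
        exact ⟨hg0, rfl⟩
    simp only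
    rw [h1, Finset.sum_singleton, hg2, hβf]
  · intro τ
    have h1 := hg1 (fun _ => τ)
    have h2 := congrArg (sbC β) h1
    rw [sbC_sbC, map_sum] at h2
    have h3 : sbC (fun i => linC β (if i < 2 * n then ee i + τ • ee (L0 + i) else ee i)) f =
        sbC (fun i => if i < 2 * n then ee i + τ • v i else ee i) f := by
      apply sbC_congr hn'
      intro i hi
      have hi' : i < L0 := lt_of_lt_of_le hi (le_max_right _ _)
      by_cases hi2 : i < 2 * n
      · rw [if_pos hi2, if_pos hi2, map_add, map_smul, linC_ee, linC_ee, hβlow i hi']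
        congr 2
        simp only [hβ]
        rw [if_pos (by omega), Nat.add_sub_cancel_left]
      · rw [if_neg hi2, if_neg hi2, linC_ee, hβlow i hi']
    rw [h3] at h2
    rw [h2]
    have h4 : ∑ m ∈ s, sbC β ((m.prod fun _ k => τ ^ k) • g m) =
        ∑ m ∈ s.filter (fun m => m.degree ∈ Finset.range (J + 1)), τ ^ m.degree • sbC β (g m) := by
      rw [Finset.sum_filter]
      apply Finset.sum_congr rfl
      intro m hm
      have h5 : (m.prod fun _ k => τ ^ k) = τ ^ m.degree := by
        rw [Finsupp.prod, Finset.prod_pow_eq_pow_sum, Finsupp.degree]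
        rfl
      rw [sbC_smulC, h5]
      split_ifs with h6
      · rfl
      · have h7 : g m = 0 := by
          rcases (hg3 m hm 0).2 with h8 | h8
          · exact absurd (Finset.mem_range.2 (by omega)) h6
          · exact h8
        rw [h7, map_zero, smul_zero]
    have h4' := Finset.sum_fiberwise_of_maps_to
      (s := s.filter (fun m => m.degree ∈ Finset.range (J + 1))) (t := Finset.range (J + 1))
      (g := fun m : ℕ →₀ ℕ => m.degree) (fun m hm => (Finset.mem_filter.1 hm).2)
      (fun m => τ ^ m.degree • sbC β (g m))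
    rw [h4, ← h4']
    apply Finset.sum_congr rfl
    intro d hd
    rw [Finset.smul_sum, Finset.filter_filter]
    have h8 : s.filter (fun m => m.degree ∈ Finset.range (J + 1) ∧ m.degree = d) =
        s.filter (fun m => m.degree = d) := by
      apply Finset.filter_congr
      intro m _
      constructor
      · exact fun h => h.2
      · exact fun h => ⟨h ▸ hd, h⟩
    rw [h8]
    apply Finset.sum_congr rfl
    intro m hm
    rw [(Finset.mem_filter.1 hm).2]
  · intro d c
    simp only
    rw [map_sum, Finset.smul_sum]
    apply Finset.sum_congr rfl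
    intro m hm
    rw [hcomm, (hg3 m (Finset.mem_filter.1 hm).1 c).1, sbC_smulC, (Finset.mem_filter.1 hm).2]


end C8

end MP50e386N

section

/-! Paper 5.7 (c). -/

namespace MP50e386N

open MvPolynomial Pool.Agent.Lib.MP50e386

variable {R : Type} [CommRing R] [Algebra ℂ R] [GLRing R]

/-- the homomorphism from the polynomial ring on symmetric `M × M` matrices -/
noncomputable def toR (R : Type) [CommRing R] [Algebra ℂ R] [GLRing R] (M : ℕ) :
    MvPolynomial (Sym2 (Fin M)) ℂ →ₐ[ℂ] R :=
  aeval (Sym2.lift ⟨fun i j => (GLRing.x (i : ℕ) (j : ℕ) : R), fun i j => GLRing.x_symm _ _⟩)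

private theorem TL2_xv_add_left (v v' w : V) : (xv (v + v') w : R) = xv v w + xv v' w := by
  unfold xv
  rw [map_add, map_add, LinearMap.add_apply]

private theorem TL2_xv_smul_left (a : ℂ) (v w : V) : (xv (a • v) w : R) = a • xv v w := by
  unfold xv
  rw [map_smul, ← algebraMap_smul R a (cst v : VR R), map_smul, LinearMap.smul_apply,
    algebraMap_smul]

private theorem TL2_xv_add_right (v w w' : V) : (xv v (w + w') : R) = xv v w + xv v w' := by
  rw [xv_comm, TL2_xv_add_left, xv_comm w, xv_comm w']

private theorem TL2_xv_smul_right (a : ℂ) (v w : V) : (xv v (a • w) : R) = a • xv v w := by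
  rw [xv_comm, TL2_xv_smul_left, xv_comm w]

private noncomputable def TL2_xvL (R : Type) [CommRing R] [Algebra ℂ R] [GLRing R] :
    V →ₗ[ℂ] V →ₗ[ℂ] R :=
  LinearMap.mk₂ ℂ (fun v w => (xv v w : R)) TL2_xv_add_left TL2_xv_smul_left TL2_xv_add_right
    TL2_xv_smul_right

theorem toR_bilM (M : ℕ) (x y : Fin M → ℂ) :
    toR R M (MP50e386.bilM M x y) = xv (MP50e386.jN M x) (MP50e386.jN M y) := by
  have h0 : ∀ z : Fin M → ℂ, MP50e386.jN M z = ∑ i, z i • ee (i : ℕ) := by
    intro z
    unfold MP50e386.jN
    rw [Fintype.linearCombination_apply]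
  have h1 : ∀ i j : ℕ, TL2_xvL R (ee i) (ee j) = GLRing.x i j := fun i j => xv_ee i j
  have h2 : ∀ v w : V, (xv v w : R) = TL2_xvL R v w := fun _ _ => rfl
  rw [h2, h0, h0, LinearMap.map_sum₂]
  unfold MP50e386.bilM
  rw [map_sum]
  refine Finset.sum_congr rfl fun i _ => ?_
  rw [map_sum, map_sum]
  refine Finset.sum_congr rfl fun j _ => ?_
  rw [map_smul, map_smul, map_smul, LinearMap.smul_apply, h1, smul_smul, mul_comm (y j)]
  congr 1
  unfold toR
  rw [aeval_X, Sym2.lift_mk]


end MP50e386N
end

section

/-! The associated graded ideal and the final theorem (paper section 7). -/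

namespace MP50e386N

open MvPolynomial Pool.Agent.Lib.MP50e386

/-- ideal of the top degree parts -/
noncomputable def grI (I : Ideal MP50e386.A) : Ideal MP50e386.A :=
  Ideal.span {g | ∃ f ∈ I, g = homogeneousComponent f.totalDegree f}

theorem grI_mono {I I' : Ideal MP50e386.A} (h : I ≤ I') : grI I ≤ grI I' := by
  unfold grI
  apply Ideal.span_mono
  rintro g ⟨f, hf, rfl⟩
  exact ⟨f, h hf, rfl⟩

attribute [local instance] MvPolynomial.gradedAlgebra

private theorem l6_hc (f : MP50e386.A) (d : ℕ) :
    (DirectSum.decompose (homogeneousSubmodule (Sym2 ℕ) ℂ) f d : MP50e386.A) =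
      homogeneousComponent d f :=
  decomposition.decompose'_apply f d

private theorem l6_hc_mul {a : MP50e386.A} {k d : ℕ} (ha : a.IsHomogeneous k) (h : k ≤ d)
    (g : MP50e386.A) :
    homogeneousComponent d (a * g) = a * homogeneousComponent (d - k) g := by
  rw [← l6_hc, ← l6_hc]
  exact DirectSum.coe_decompose_mul_of_left_mem_of_le (homogeneousSubmodule (Sym2 ℕ) ℂ) ha h

private theorem l6_hc_mul0 {a : MP50e386.A} {k d : ℕ} (ha : a.IsHomogeneous k) (h : ¬ k ≤ d)
    (g : MP50e386.A) : homogeneousComponent d (a * g) = 0 := by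
  rw [← l6_hc]
  exact DirectSum.coe_decompose_mul_of_left_mem_of_not_le (homogeneousSubmodule (Sym2 ℕ) ℂ) ha h

/-- elements of `grI I` have all their components the top components of elements of `I` -/
private theorem l6_lift {I : Ideal MP50e386.A} {g : MP50e386.A} (hg : g ∈ grI I) :
    ∀ d, ∃ f ∈ I, f.totalDegree ≤ d ∧ homogeneousComponent d f = homogeneousComponent d g := by
  unfold grI at hg
  induction hg using Submodule.span_induction with
  | mem x hx =>
    obtain ⟨f, hf, rfl⟩ := hx
    intro d
    by_cases hd : d = f.totalDegree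
    · subst hd
      refine ⟨f, hf, le_refl _, ?_⟩
      rw [homogeneousComponent_of_mem (homogeneousComponent_mem _ _), if_pos rfl]
    · refine ⟨0, I.zero_mem, by simp, ?_⟩
      rw [homogeneousComponent_of_mem (homogeneousComponent_mem _ _), if_neg hd, map_zero]
  | zero =>
    intro d
    exact ⟨0, I.zero_mem, by simp, rfl⟩
  | add x y _ _ hx hy =>
    intro d
    obtain ⟨f, hf, hfd, hfc⟩ := hx d
    obtain ⟨f', hf', hfd', hfc'⟩ := hy d
    refine ⟨f + f', I.add_mem hf hf', ?_, ?_⟩
    · exact (totalDegree_add _ _).trans (max_le hfd hfd')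
    · rw [map_add, map_add, hfc, hfc']
  | smul a x _ hx =>
    intro d
    have key : ∀ k, ∃ f ∈ I, f.totalDegree ≤ d ∧
        homogeneousComponent d f = homogeneousComponent d (homogeneousComponent k a * x) := by
      intro k
      by_cases hk : k ≤ d
      · obtain ⟨f, hf, hfd, hfc⟩ := hx (d - k)
        refine ⟨homogeneousComponent k a * f, I.mul_mem_left _ hf, ?_, ?_⟩
        · refine (totalDegree_mul _ _).trans ?_
          have h1 := (homogeneousComponent_isHomogeneous k a).totalDegree_le
          omega
        · rw [l6_hc_mul (homogeneousComponent_isHomogeneous k a) hk,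
            l6_hc_mul (homogeneousComponent_isHomogeneous k a) hk, hfc]
      · refine ⟨0, I.zero_mem, by simp, ?_⟩
        rw [l6_hc_mul0 (homogeneousComponent_isHomogeneous k a) hk, map_zero]
    choose F hF1 hF2 hF3 using key
    refine ⟨∑ k ∈ Finset.range (a.totalDegree + 1), F k, I.sum_mem fun k _ => hF1 k, ?_, ?_⟩
    · refine (totalDegree_finsetSum _ _).trans (Finset.sup_le fun k _ => hF2 k)
    · rw [map_sum]
      conv_rhs => rw [← sum_homogeneousComponent a, smul_eq_mul, Finset.sum_mul, map_sum]
      exact Finset.sum_congr rfl fun k _ => hF3 k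

theorem eq_of_grI {I I' : Ideal MP50e386.A} (h : I ≤ I') (hg : grI I = grI I') : I = I' := by
  apply le_antisymm h
  have main : ∀ d : ℕ, ∀ f ∈ I', f.totalDegree ≤ d → f ∈ I := by
    intro d
    induction d using Nat.strong_induction_on with
    | _ d ih =>
      intro f hf hfd
      have hT : homogeneousComponent f.totalDegree f ∈ grI I := by
        rw [hg]
        exact Ideal.subset_span ⟨f, hf, rfl⟩
      obtain ⟨f1, hf1, hf1d, hf1c⟩ := l6_lift hT f.totalDegree
      rw [homogeneousComponent_of_mem (homogeneousComponent_mem _ _), if_pos rfl] at hf1c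
      have hsub : f - f1 ∈ I' := I'.sub_mem hf (h hf1)
      have hle : (f - f1).totalDegree ≤ f.totalDegree :=
        (totalDegree_sub _ _).trans (max_le (le_refl _) hf1d)
      have hz : homogeneousComponent f.totalDegree (f - f1) = 0 := by
        rw [map_sub, hf1c, sub_self]
      by_cases h0 : f.totalDegree = 0
      · -- degree zero
        have h1 : f - f1 = 0 := by
          have h2 := sum_homogeneousComponent (f - f1)
          have h3 : (f - f1).totalDegree = 0 := by omega
          rw [h3, zero_add, Finset.sum_range_one] at h2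
          rw [h0] at hz
          rw [← h2, hz]
        rw [sub_eq_zero] at h1
        rw [h1]
        exact hf1
      · have hlt : (f - f1).totalDegree ≤ f.totalDegree - 1 := by
          rcases Nat.lt_or_ge (f - f1).totalDegree f.totalDegree with hlt | hge
          · omega
          · exfalso
            have he : (f - f1).totalDegree = f.totalDegree := le_antisymm hle hge
            have hne : f - f1 ≠ 0 := by
              intro h5
              rw [h5, totalDegree_zero] at he
              omega
            -- the top component is nonzero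
            have h6 : homogeneousComponent (f - f1).totalDegree (f - f1) ≠ 0 := by
              intro h7
              have hne' : (f - f1).support.Nonempty := by
                rwa [Finset.nonempty_iff_ne_empty, Ne, support_eq_empty]
              obtain ⟨m, hm, hmd⟩ := Finset.exists_mem_eq_sup (f - f1).support hne'
                (fun m => m.sum fun _ e => e)
              have h8 := congrArg (coeff m) h7
              rw [coeff_homogeneousComponent, coeff_zero, if_pos] at h8
              · exact (mem_support_iff.1 hm) h8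
              · unfold totalDegree
                rw [hmd]
                rfl
            rw [he] at h6
            exact h6 hz
        have h9 := ih (f.totalDegree - 1) (by omega) (f - f1) hsub hlt
        have h10 := I.add_mem h9 hf1
        rwa [sub_add_cancel] at h10
  intro f hf
  exact main _ f hf (le_refl _)

private theorem l6_bil (u v : V) : (MP50e386.bil u v).IsHomogeneous 1 := by
  unfold MP50e386.bil
  rw [Finsupp.linearCombination_apply, Finsupp.sum, LinearMap.sum_apply]
  apply IsHomogeneous.sum
  intro i _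
  rw [LinearMap.smul_apply, Finsupp.linearCombination_apply, Finsupp.sum, smul_eq_C_mul]
  apply IsHomogeneous.C_mul
  apply IsHomogeneous.sum
  intro j _
  rw [smul_eq_C_mul]
  exact isHomogeneous_C_mul_X _ _

private theorem l6_det {M : ℕ} (u : Fin M → V) :
    (Matrix.det (Matrix.of fun i j : Fin M => MP50e386.bil (u i) (u j))).IsHomogeneous M := by
  rw [Matrix.det_apply]
  apply IsHomogeneous.sum
  intro σ _
  have h1 : (∏ i, (Matrix.of fun i j : Fin M => MP50e386.bil (u i) (u j)) (σ i) i).IsHomogeneous
      (∑ _i : Fin M, 1) := by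
    apply IsHomogeneous.prod
    intro i _
    exact l6_bil _ _
  rw [Finset.sum_const, Finset.card_univ, Fintype.card_fin, smul_eq_mul, mul_one] at h1
  rcases Int.units_eq_one_or (Equiv.Perm.sign σ) with h | h
  · rw [h, one_smul]
    exact h1
  · rw [h, Units.neg_smul, one_smul]
    exact h1.neg

/-- homogeneous elements of `I` lie in `grI I` -/
private theorem l6_homog_mem {I : Ideal MP50e386.A} {f : MP50e386.A} {k : ℕ} (hf : f ∈ I)
    (h : f.IsHomogeneous k) : f ∈ grI I := by
  by_cases h0 : f = 0
  · rw [h0]
    exact Submodule.zero_mem _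
  · apply Ideal.subset_span
    refine ⟨f, hf, ?_⟩
    rw [h.totalDegree h0, homogeneousComponent_eq_self h]

theorem detIdeal_le_grI {I : Ideal MP50e386.A} {M N0 : ℕ} (h : MP50e386.detIdeal M N0 ≤ I) :
    MP50e386.detIdeal M N0 ≤ grI I := by
  apply MP50e386.detIdeal_le
  intro u
  have h1 : (Matrix.det (Matrix.of fun i j : Fin M => MP50e386.bil (u i) (u j))) ^ N0 ∈ I :=
    h (Ideal.subset_span ⟨u, rfl⟩)
  exact l6_homog_mem h1 ((l6_det u).pow N0)

private theorem l6_sub_homog {f : MP50e386.A} {k : ℕ} (h : f.IsHomogeneous k) (w : ℕ → V) :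
    (MP50e386.sub w f).IsHomogeneous k := by
  unfold MP50e386.sub
  have h1 := IsHomogeneous.aeval h (MP50e386.Yw w) (n := 1) (by
    intro s
    induction s using Sym2.ind with
    | _ i j =>
      rw [MP50e386.Yw_mk]
      exact l6_bil _ _)
  rwa [one_mul] at h1

private theorem l6_sub_hc (f : MP50e386.A) (w : ℕ → V) (d : ℕ) :
    homogeneousComponent d (MP50e386.sub w f) = MP50e386.sub w (homogeneousComponent d f) := by
  conv_lhs => rw [← sum_homogeneousComponent f, map_sum, map_sum]
  by_cases hd : d ∈ Finset.range (f.totalDegree + 1)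
  · rw [Finset.sum_eq_single_of_mem d hd]
    · exact homogeneousComponent_eq_self
        (l6_sub_homog (homogeneousComponent_isHomogeneous d f) w)
    · intro k _ hkd
      rw [homogeneousComponent_of_mem
        (l6_sub_homog (homogeneousComponent_isHomogeneous k f) w), if_neg (Ne.symm hkd)]
  · rw [Finset.sum_eq_zero]
    · rw [Finset.mem_range, not_lt] at hd
      rw [homogeneousComponent_eq_zero _ _ (by omega), map_zero]
    · intro k hk
      rw [homogeneousComponent_of_mem
        (l6_sub_homog (homogeneousComponent_isHomogeneous k f) w), if_neg]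
      rintro rfl
      exact hd hk


end MP50e386N
end
end
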