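import Mathlib
import Pool.Agent.Lib.MP_50e386_al.B.Da

section
/-!
# MP_50e386_al: good modules (homological Artin-Rees)

`R` is a commutative ring, `h` an ideal. A linear map `f : X → Y` has the Artin-Rees property if for
every `K` there is `K'` with `f⁻¹(h^K' Y) ≤ h^K X`. A module `Q` is good if it has a free resolution
such that all inclusions of the syzygies have the Artin-Rees property.
-/

set_option autoImplicit false

namespace MP50e386N.GC

open LinearMap Function

section ARm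

variable {R : Type} [CommRing R] (h : Ideal R)

/-- the Artin-Rees property of a linear map -/
def ARm {X Y : Type} [AddCommGroup X] [Module R X] [AddCommGroup Y] [Module R Y]
    (f : X →ₗ[R] Y) : Prop :=
  ∀ K : ℕ, ∃ K' : ℕ, ∀ x : X, f x ∈ (h ^ K' • ⊤ : Submodule R Y) →
    x ∈ (h ^ K • ⊤ : Submodule R X)

/-- the Artin-Rees property of a pair of submodules -/
def AR {M : Type} [AddCommGroup M] [Module R M] (X Y : Submodule R M) : Prop :=
  ∀ K : ℕ, ∃ K' : ℕ, X ⊓ h ^ K' • Y ≤ h ^ K • X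

/-- `n`-good modules -/
def GoodN : ℕ → ∀ (Q : Type) [AddCommGroup Q] [Module R Q], Prop
  | 0, _, _, _ => True
  | n + 1, Q, _, _ => ∃ (F : Type) (_ : AddCommGroup F) (_ : Module R F) (π : F →ₗ[R] Q),
      Module.Free R F ∧ Surjective π ∧ ARm h (ker π).subtype ∧ GoodN n (ker π)

/-- good modules -/
def Good (Q : Type) [AddCommGroup Q] [Module R Q] : Prop := ∀ n, GoodN h n Q

variable {X Y Q W F F' X' Y' : Type} [AddCommGroup X] [Module R X] [AddCommGroup Y] [Module R Y]
  [AddCommGroup Q] [Module R Q] [AddCommGroup W] [Module R W] [AddCommGroup F] [Module R F]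
  [AddCommGroup F'] [Module R F'] [AddCommGroup X'] [Module R X'] [AddCommGroup Y'] [Module R Y']

theorem map_mem_smul (f : X →ₗ[R] Y) (K : ℕ) {x : X} (hx : x ∈ (h ^ K • ⊤ : Submodule R X)) :
    f x ∈ (h ^ K • ⊤ : Submodule R Y) := by
  have h1 : f x ∈ (h ^ K • ⊤ : Submodule R X).map f := Submodule.mem_map_of_mem hx
  rw [Submodule.map_smul''] at h1
  exact Submodule.smul_mono le_rfl le_top h1

theorem exists_lift_smul (f : X →ₗ[R] Y) (hf : Surjective f) (K : ℕ) {y : Y}
    (hy : y ∈ (h ^ K • ⊤ : Submodule R Y)) : ∃ x ∈ (h ^ K • ⊤ : Submodule R X), f x = y := by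
  have h1 : (h ^ K • ⊤ : Submodule R X).map f = h ^ K • ⊤ := by
    rw [Submodule.map_smul'', Submodule.map_top, LinearMap.range_eq_top.2 hf]
  rw [← h1] at hy
  exact hy

theorem smul_anti {K K' : ℕ} (hK : K ≤ K') {x : X} (hx : x ∈ (h ^ K' • ⊤ : Submodule R X)) :
    x ∈ (h ^ K • ⊤ : Submodule R X) :=
  Submodule.smul_mono_left (Ideal.pow_le_pow_right hK) hx

theorem ARm.comp {f : X →ₗ[R] Y} {g : Y →ₗ[R] Q} (hf : ARm h f) (hg : ARm h g) :
    ARm h (g ∘ₗ f) := by
  intro K
  obtain ⟨K1, h1⟩ := hf K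
  obtain ⟨K2, h2⟩ := hg K1
  exact ⟨K2, fun x hx => h1 x (h2 _ hx)⟩

/-- a factor -/
theorem ARm.of_comp {f : X →ₗ[R] Y} {g : Y →ₗ[R] Q} (hgf : ARm h (g ∘ₗ f)) : ARm h f := by
  intro K
  obtain ⟨K1, h1⟩ := hgf K
  exact ⟨K1, fun x hx => h1 x (map_mem_smul h g K1 hx)⟩

theorem ARm.of_equiv_left (e : X' ≃ₗ[R] X) {f : X →ₗ[R] Y} (hf : ARm h f) :
    ARm h (f ∘ₗ e.toLinearMap) := by
  intro K
  obtain ⟨K1, h1⟩ := hf K
  refine ⟨K1, fun x hx => ?_⟩
  have h2 := map_mem_smul h e.symm.toLinearMap K (h1 (e x) hx)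
  simpa using h2

/-- the basic constructor: a short exact sequence -/
theorem goodN_succ_of_exact {n : ℕ} (i : W →ₗ[R] F) (π : F →ₗ[R] Q) (hF : Module.Free R F)
    (hi : Injective i) (hπ : Surjective π) (hex : ∀ x, π x = 0 ↔ ∃ w, i w = x) (har : ARm h i)
    (hW : GoodN h n W)
    (hiso : ∀ {A B : Type} [AddCommGroup A] [Module R A] [AddCommGroup B] [Module R B],
      (A ≃ₗ[R] B) → GoodN h n A → GoodN h n B) : GoodN h (n + 1) Q := by
  refine ⟨F, inferInstance, inferInstance, π, hF, hπ, ?_, ?_⟩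
  · intro K
    obtain ⟨K', hK'⟩ := har K
    refine ⟨K', fun x hx => ?_⟩
    obtain ⟨w, hw⟩ := (hex x.1).1 x.2
    have h1 := hK' w (by rw [hw]; exact hx)
    let j : W →ₗ[R] ker π := i.codRestrict (ker π) fun w => (hex _).2 ⟨w, rfl⟩
    have h2 := map_mem_smul h j K h1
    have h3 : j w = x := Subtype.ext hw
    rwa [h3] at h2
  · let j : W →ₗ[R] ker π := i.codRestrict (ker π) fun w => (hex _).2 ⟨w, rfl⟩
    refine hiso (LinearEquiv.ofBijective j ⟨?_, ?_⟩) hW
    · intro a b hab
      exact hi (congrArg Subtype.val hab)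
    · intro x
      obtain ⟨w, hw⟩ := (hex x.1).1 x.2
      exact ⟨w, Subtype.ext hw⟩

theorem goodN_iso : ∀ (n : ℕ) {A B : Type} [AddCommGroup A] [Module R A] [AddCommGroup B]
    [Module R B], (A ≃ₗ[R] B) → GoodN h n A → GoodN h n B
  | 0, _, _, _, _, _, _, _, _ => trivial
  | n + 1, A, B, _, _, _, _, e, ⟨F, _, _, π, hF, hπ, har, hg⟩ => by
    refine goodN_succ_of_exact h (ker π).subtype (e.toLinearMap ∘ₗ π) hF
      (Submodule.injective_subtype _) (e.surjective.comp hπ) ?_ har hg (goodN_iso n)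
    intro x
    constructor
    · intro hx
      have h1 : π x = 0 := by
        have : e (π x) = 0 := hx
        simpa using this
      exact ⟨⟨x, h1⟩, rfl⟩
    · rintro ⟨w, rfl⟩
      have h1 : π w.1 = 0 := w.2
      change e (π w.1) = 0
      rw [h1, map_zero]

/-- the basic constructor: a short exact sequence -/
theorem goodN_succ {n : ℕ} (i : W →ₗ[R] F) (π : F →ₗ[R] Q) (hF : Module.Free R F)
    (hi : Injective i) (hπ : Surjective π) (hex : ∀ x, π x = 0 ↔ ∃ w, i w = x) (har : ARm h i)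
    (hW : GoodN h n W) : GoodN h (n + 1) Q :=
  goodN_succ_of_exact h i π hF hi hπ hex har hW (goodN_iso h n)

theorem goodN_of_succ : ∀ (n : ℕ) {Q : Type} [AddCommGroup Q] [Module R Q],
    GoodN h (n + 1) Q → GoodN h n Q
  | 0, _, _, _, _ => trivial
  | n + 1, Q, _, _, ⟨F, _, _, π, hF, hπ, har, hg⟩ =>
    ⟨F, inferInstance, inferInstance, π, hF, hπ, har, goodN_of_succ n hg⟩

/-- (g1) -/
theorem goodN_prod_free (hF' : Module.Free R F') : ∀ (n : ℕ) {Q : Type} [AddCommGroup Q]
    [Module R Q], GoodN h n Q → GoodN h n (Q × F')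
  | 0, _, _, _, _ => trivial
  | n + 1, Q, _, _, ⟨F, _, _, π, hF, hπ, har, hg⟩ => by
    have := hF
    have := hF'
    refine goodN_succ h (W := ker π) (F := F × F')
      ((LinearMap.inl R F F') ∘ₗ (ker π).subtype) (π.prodMap LinearMap.id) inferInstance
      (LinearMap.inl_injective.comp (Submodule.injective_subtype _)) ?_ ?_ ?_ hg
    · rintro ⟨q, f⟩
      obtain ⟨x, hx⟩ := hπ q
      exact ⟨(x, f), by simp [hx]⟩
    · rintro ⟨x, f⟩
      constructor
      · intro hx
        have h1 : π x = 0 ∧ f = 0 := by simpa using hx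
        exact ⟨⟨x, h1.1⟩, by simp [h1.2]⟩
      · rintro ⟨w, hw⟩
        have h1 : (w.1, (0 : F')) = (x, f) := hw
        have h2 : w.1 = x := congrArg Prod.fst h1
        have h3 : (0 : F') = f := congrArg Prod.snd h1
        rw [← h2, ← h3]
        have h4 : π w.1 = 0 := w.2
        simp [h4]
    · intro K
      obtain ⟨K', hK'⟩ := har K
      refine ⟨K', fun x hx => hK' x ?_⟩
      exact map_mem_smul h (LinearMap.fst R F F') K' hx

/-- (g1) for direct sums -/
theorem goodN_finsupp (ι : Type) : ∀ (n : ℕ) {X : Type} [AddCommGroup X] [Module R X],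
    GoodN h n X → GoodN h n (ι →₀ X)
  | 0, _, _, _, _ => trivial
  | n + 1, X, _, _, ⟨F, _, _, π, hF, hπ, har, hg⟩ => by
    have := hF
    classical
    refine goodN_succ h (W := ι →₀ ker π) (F := ι →₀ F)
      (Finsupp.mapRange.linearMap (ker π).subtype) (Finsupp.mapRange.linearMap π) inferInstance
      ?_ ?_ ?_ ?_ (goodN_finsupp ι n hg)
    · exact Finsupp.mapRange_injective _ (map_zero _) (Submodule.injective_subtype _)
    · exact Finsupp.mapRange_surjective _ (map_zero _) hπ
    · intro x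
      constructor
      · intro hx
        have h1 : ∀ i, π (x i) = 0 := by
          intro i
          have := DFunLike.congr_fun hx i
          simpa using this
        refine ⟨Finsupp.onFinset x.support (fun i => ⟨x i, h1 i⟩) ?_, ?_⟩
        · intro i hi
          rw [Finsupp.mem_support_iff]
          intro h2
          exact hi (Subtype.ext h2)
        · ext i
          simp
      · rintro ⟨w, rfl⟩
        ext i
        have h4 : π (w i).1 = 0 := (w i).2
        simp [h4]
    · intro K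
      obtain ⟨K', hK'⟩ := har K
      refine ⟨K', fun x hx => ?_⟩
      have h1 : ∀ i, x i ∈ (h ^ K • ⊤ : Submodule R (ker π)) := by
        intro i
        refine hK' (x i) ?_
        have h2 := map_mem_smul h (Finsupp.lapply i) K' hx
        simpa using h2
      rw [← Finsupp.sum_single x]
      exact Submodule.sum_mem _ fun i _ => map_mem_smul h (Finsupp.lsingle i) K (h1 i)

/-- (g2) -/
theorem goodN_of_prod_free (hF' : Module.Free R F') : ∀ (n : ℕ) {Q : Type} [AddCommGroup Q]
    [Module R Q], GoodN h n (Q × F') → GoodN h n Q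
  | 0, _, _, _, _ => trivial
  | n + 1, Q, _, _, ⟨F, _, _, π, hF, hπ, har, hg⟩ => by
    have := hF
    have := hF'
    -- a section over `F'`
    obtain ⟨s, hs⟩ := Module.projective_lifting_property π (LinearMap.inr R Q F') hπ
    have hs' : ∀ f, π (s f) = (0, f) := fun f => by
      have := DFunLike.congr_fun hs f
      simpa using this
    refine goodN_succ h (W := ker π × F') (F := F)
      ((ker π).subtype.coprod s) (LinearMap.fst R Q F' ∘ₗ π) hF
      ?_ ((Prod.fst_surjective (α := Q) (β := F')).comp hπ) ?_ ?_ (goodN_prod_free h hF' n hg)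
    · rw [← LinearMap.ker_eq_bot, LinearMap.ker_eq_bot']
      rintro ⟨w, f⟩ hwf
      have h1 : w.1 + s f = 0 := hwf
      have h2 : π w.1 + π (s f) = 0 := by rw [← map_add, h1, map_zero]
      have h4 : π w.1 = 0 := w.2
      rw [h4, hs' f, zero_add] at h2
      have h3 : f = 0 := congrArg Prod.snd h2
      subst h3
      rw [map_zero, add_zero] at h1
      exact Prod.ext (Subtype.ext h1) rfl
    · intro x
      constructor
      · intro hx
        have h1 : (π x).1 = 0 := hx
        refine ⟨(⟨x - s (π x).2, ?_⟩, (π x).2), ?_⟩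
        · change π (x - s (π x).2) = 0
          rw [map_sub, hs']
          exact sub_eq_zero.2 (Prod.ext h1 rfl)
        · change x - s (π x).2 + s (π x).2 = x
          abel
      · rintro ⟨⟨w, f⟩, rfl⟩
        change (π (w.1 + s f)).1 = 0
        have h4 : π w.1 = 0 := w.2
        rw [map_add, h4, hs']
        simp
    · intro K
      obtain ⟨K', hK'⟩ := har K
      refine ⟨max K K', fun x hx => ?_⟩
      obtain ⟨w, f⟩ := x
      have h1 : w.1 + s f ∈ (h ^ (max K K') • ⊤ : Submodule R F) := hx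
      have h2 : π (w.1 + s f) = (0, f) := by
        have h4 : π w.1 = 0 := w.2
        rw [map_add, h4, hs', zero_add]
      have h3 : f ∈ (h ^ (max K K') • ⊤ : Submodule R F') := by
        have := map_mem_smul h (LinearMap.snd R Q F' ∘ₗ π) (max K K') h1
        simpa [h2] using this
      have h5 : w.1 ∈ (h ^ K' • ⊤ : Submodule R F) := by
        have h6 := Submodule.sub_mem _ h1 (map_mem_smul h s _ h3)
        rw [add_sub_cancel_right] at h6
        exact smul_anti h (le_max_right _ _) h6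
      have h7 := hK' w h5
      have h8 := map_mem_smul h (LinearMap.inl R (ker π) F') K h7
      have h9 := map_mem_smul h (LinearMap.inr R (ker π) F') K (smul_anti h (le_max_left _ _) h3)
      have h10 := Submodule.add_mem _ h8 h9
      simpa using h10

/-- (g3) independence of the resolution -/
theorem goodN_indep {n : ℕ} (hQ : GoodN h (n + 1) Q) (hF : Module.Free R F) (π : F →ₗ[R] Q)
    (hπ : Surjective π) : ARm h (ker π).subtype ∧ GoodN h n (ker π) := by
  obtain ⟨F1, _, _, π1, hF1, hπ1, har, hg⟩ := hQ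
  have := hF1
  have := hF
  obtain ⟨th, hth⟩ := Module.projective_lifting_property π1 π hπ1
  obtain ⟨th', hth'⟩ := Module.projective_lifting_property π π1 hπ
  have h1 : ∀ x, π1 (th x) = π x := fun x => DFunLike.congr_fun hth x
  have h2 : ∀ x, π (th' x) = π1 x := fun x => DFunLike.congr_fun hth' x
  constructor
  · intro K
    obtain ⟨K', hK'⟩ := har K
    refine ⟨max K K', fun z hz => ?_⟩
    have hz0 : π z.1 = 0 := z.2
    have hz1 : z.1 ∈ (h ^ (max K K') • ⊤ : Submodule R F) := hz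
    -- `th z ∈ h^K W1`
    let w : ker π1 := ⟨th z.1, by change π1 (th z.1) = 0; rw [h1, hz0]⟩
    have h3 : w ∈ (h ^ K • ⊤ : Submodule R (ker π1)) :=
      hK' w (smul_anti h (le_max_right _ _) (map_mem_smul h th _ hz1))
    let t' : ker π1 →ₗ[R] ker π :=
      (th' ∘ₗ (ker π1).subtype).codRestrict (ker π) fun w => by
        change π (th' w.1) = 0
        rw [h2]
        exact w.2
    have h4 := map_mem_smul h t' K h3
    let t'' : F →ₗ[R] ker π := (LinearMap.id - th' ∘ₗ th).codRestrict (ker π) fun x => by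
      change π (x - th' (th x)) = 0
      rw [map_sub, h2, h1, sub_self]
    have h5 := map_mem_smul h t'' K (smul_anti h (le_max_left _ _) hz1)
    have h6 := Submodule.add_mem _ h4 h5
    have h7 : t' w + t'' z.1 = z := by
      refine Subtype.ext ?_
      change th' (th z.1) + (z.1 - th' (th z.1)) = z.1
      abel
    rwa [h7] at h6
  · -- Schanuel: `ker π1 × F ≃ ker π × F1`
    have h3 : GoodN h n (ker π1 × F) := goodN_prod_free h hF n hg
    refine goodN_of_prod_free h hF1 n (Q := ker π) (goodN_iso h n ?_ h3)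
    refine LinearEquiv.ofLinearMap
      (LinearMap.prod
        ((LinearMap.snd R (ker π1) F -
          th' ∘ₗ ((ker π1).subtype ∘ₗ LinearMap.fst R (ker π1) F +
            th ∘ₗ LinearMap.snd R (ker π1) F)).codRestrict (ker π) ?_)
        ((ker π1).subtype ∘ₗ LinearMap.fst R (ker π1) F +
            th ∘ₗ LinearMap.snd R (ker π1) F))
      (LinearMap.prod
        ((LinearMap.snd R (ker π) F1 -
          th ∘ₗ ((ker π).subtype ∘ₗ LinearMap.fst R (ker π) F1 +
            th' ∘ₗ LinearMap.snd R (ker π) F1)).codRestrict (ker π1) ?_)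
        ((ker π).subtype ∘ₗ LinearMap.fst R (ker π) F1 +
            th' ∘ₗ LinearMap.snd R (ker π) F1)) ?_ ?_
    · rintro ⟨w, f⟩
      change π (f - th' (w.1 + th f)) = 0
      have h4 : π1 w.1 = 0 := w.2
      rw [map_sub, h2, map_add, h4, h1, zero_add, sub_self]
    · rintro ⟨w, f⟩
      change π1 (f - th (w.1 + th' f)) = 0
      have h4 : π w.1 = 0 := w.2
      rw [map_sub, h1, map_add, h4, h2, zero_add, sub_self]
    · refine LinearMap.ext ?_
      rintro ⟨w, f⟩
      refine Prod.ext (Subtype.ext ?_) ?_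
      · change (w.1 + th' f) - th' ((f - th (w.1 + th' f)) + th (w.1 + th' f)) = w.1
        rw [sub_add_cancel, add_sub_cancel_right]
      · change (f - th (w.1 + th' f)) + th (w.1 + th' f) = f
        rw [sub_add_cancel]
    · refine LinearMap.ext ?_
      rintro ⟨w, f⟩
      refine Prod.ext (Subtype.ext ?_) ?_
      · change (w.1 + th f) - th ((f - th' (w.1 + th f)) + th' (w.1 + th f)) = w.1
        rw [sub_add_cancel, add_sub_cancel_right]
      · change (f - th' (w.1 + th f)) + th' (w.1 + th f) = f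
        rw [sub_add_cancel]

/-- free modules are good -/
theorem goodN_free : ∀ (n : ℕ) {F : Type} [AddCommGroup F] [Module R F], Module.Free R F →
    GoodN h n F
  | 0, _, _, _, _ => trivial
  | n + 1, F, _, _, hF => by
    refine goodN_succ h (W := PUnit) (F := F) 0 LinearMap.id hF
      (fun a b _ => Subsingleton.elim a b) surjective_id ?_ ?_ (goodN_free n inferInstance)
    · intro x
      constructor
      · intro hx
        exact ⟨0, hx.symm⟩
      · rintro ⟨w, rfl⟩
        rfl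
    · intro K
      refine ⟨0, fun x _ => ?_⟩
      rw [Subsingleton.elim x 0]
      exact Submodule.zero_mem _

/-- (g4, ext) -/
theorem goodN_ext : ∀ (n : ℕ) {X Y Q : Type} [AddCommGroup X] [Module R X] [AddCommGroup Y]
    [Module R Y] [AddCommGroup Q] [Module R Q] (i : X →ₗ[R] Y) (p : Y →ₗ[R] Q),
    Injective i → Surjective p → (∀ y, p y = 0 ↔ ∃ x, i x = y) → GoodN h n X → GoodN h n Q →
    GoodN h n Y
  | 0, _, _, _, _, _, _, _, _, _, _, _, _, _, _, _, _ => trivial
  | n + 1, X, Y, Q, _, _, _, _, _, _, i, p, hi, hp, hex, ⟨FX, _, _, πX, hFX, hπX, harX, hgX⟩,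
      ⟨FQ, _, _, πQ, hFQ, hπQ, harQ, hgQ⟩ => by
    have := hFX
    have := hFQ
    obtain ⟨s, hs⟩ := Module.projective_lifting_property p πQ hp
    have hs' : ∀ f, p (s f) = πQ f := fun f => DFunLike.congr_fun hs f
    let π : FX × FQ →ₗ[R] Y := (i ∘ₗ πX).coprod s
    have hπv : ∀ a b, π (a, b) = i (πX a) + s b := fun a b => rfl
    have hpi : ∀ x, p (i x) = 0 := fun x => (hex _).2 ⟨x, rfl⟩
    have hπ : Surjective π := by
      intro y
      obtain ⟨b, hb⟩ := hπQ (p y)
      have h1 : p (y - s b) = 0 := by rw [map_sub, hs', hb, sub_self]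
      obtain ⟨x, hx⟩ := (hex _).1 h1
      obtain ⟨a, rfl⟩ := hπX x
      refine ⟨(a, b), ?_⟩
      rw [hπv, hx, sub_add_cancel]
    have hW2 : ∀ w : ker π, πQ w.1.2 = 0 := by
      intro w
      have h1 : i (πX w.1.1) + s w.1.2 = 0 := w.2
      have h2 := congrArg p h1
      rw [map_add, hpi, zero_add, hs', map_zero] at h2
      exact h2
    -- the sequence of kernels
    let iW : ker πX →ₗ[R] ker π :=
      (LinearMap.inl R FX FQ ∘ₗ (ker πX).subtype).codRestrict (ker π) fun w => by
        change i (πX w.1) + s 0 = 0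
        have h4 : πX w.1 = 0 := w.2
        rw [h4, map_zero, map_zero, add_zero]
    let pW : ker π →ₗ[R] ker πQ :=
      (LinearMap.snd R FX FQ ∘ₗ (ker π).subtype).codRestrict (ker πQ) hW2
    have hpWs : Surjective pW := by
      intro b
      have h1 : p (s b.1) = 0 := by
        rw [hs']
        exact b.2
      obtain ⟨x, hx⟩ := (hex _).1 h1
      obtain ⟨a, rfl⟩ := hπX x
      refine ⟨⟨(-a, b.1), ?_⟩, rfl⟩
      change i (πX (-a)) + s b.1 = 0
      rw [map_neg, map_neg, hx, neg_add_cancel]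
    have hexW : ∀ y, pW y = 0 ↔ ∃ x, iW x = y := by
      intro y
      constructor
      · intro hy
        have h1 : y.1.2 = 0 := congrArg Subtype.val hy
        have h2 : i (πX y.1.1) + s y.1.2 = 0 := y.2
        rw [h1, map_zero, add_zero] at h2
        have h3 : πX y.1.1 = 0 := hi (by rw [h2, map_zero])
        exact ⟨⟨y.1.1, h3⟩, Subtype.ext (Prod.ext rfl h1.symm)⟩
      · rintro ⟨x, rfl⟩
        exact Subtype.ext rfl
    refine ⟨FX × FQ, inferInstance, inferInstance, π, inferInstance, hπ, ?_, ?_⟩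
    · intro K
      obtain ⟨K1, hK1⟩ := harX K
      obtain ⟨K2, hK2⟩ := harQ (max K K1)
      refine ⟨max K1 K2, fun z hz => ?_⟩
      have hz' : z.1 ∈ (h ^ (max K1 K2) • ⊤ : Submodule R (FX × FQ)) := hz
      have h1 : pW z ∈ (h ^ (max K K1) • ⊤ : Submodule R (ker πQ)) :=
        hK2 (pW z) (smul_anti h (le_max_right _ _)
          (map_mem_smul h (LinearMap.snd R FX FQ) _ hz'))
      obtain ⟨z', hz1, hz2⟩ := exists_lift_smul h pW hpWs _ h1
      obtain ⟨x, hx⟩ := (hexW (z - z')).1 (by rw [map_sub, hz2, sub_self])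
      have h2 : x ∈ (h ^ K • ⊤ : Submodule R (ker πX)) := by
        refine hK1 x ?_
        have h3 : (z - z').1 ∈ (h ^ K1 • ⊤ : Submodule R (FX × FQ)) :=
          Submodule.sub_mem _ (smul_anti h (le_max_left _ _) hz')
            (smul_anti h (le_max_right _ _) (map_mem_smul h (ker π).subtype _ hz1))
        rw [← hx] at h3
        exact map_mem_smul h (LinearMap.fst R FX FQ) _ h3
      have h4 := map_mem_smul h iW K h2
      rw [hx] at h4
      have h5 := Submodule.add_mem _ h4 (smul_anti h (le_max_left _ _) hz1)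
      rwa [sub_add_cancel] at h5
    · exact goodN_ext n iW pW (fun a b hab => Subtype.ext (congrArg (fun z => z.1.1) hab))
        hpWs hexW hgX hgQ

/-- (g4, quot) -/
theorem goodN_quot {n : ℕ} (i : X →ₗ[R] Y) (p : Y →ₗ[R] Q) (hi : Injective i)
    (hp : Surjective p) (hex : ∀ y, p y = 0 ↔ ∃ x, i x = y) (hY : GoodN h (n + 1) Y)
    (hX : GoodN h n X) (har : ARm h i) : GoodN h (n + 1) Q := by
  obtain ⟨F, _, _, π, hF, hπ, harY, hgY⟩ := hY
  -- `0 → W_Y → W_Q → X → 0`
  let iW : ker π →ₗ[R] ker (p ∘ₗ π) :=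
    (ker π).subtype.codRestrict _ fun w => by
      change p (π w.1) = 0
      have h4 : π w.1 = 0 := w.2
      rw [h4, map_zero]
  have e0 : ∀ w : ker (p ∘ₗ π), π w.1 ∈ range i := fun w => (hex _).1 w.2
  let eX : X ≃ₗ[R] range i := LinearEquiv.ofInjective i hi
  let pW : ker (p ∘ₗ π) →ₗ[R] X :=
    eX.symm.toLinearMap ∘ₗ (π ∘ₗ (ker (p ∘ₗ π)).subtype).codRestrict (range i) e0
  have hpW : ∀ w, i (pW w) = π w.1 := by
    intro w
    have h1 : eX (pW w) = ⟨π w.1, e0 w⟩ := eX.apply_symm_apply _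
    exact congrArg Subtype.val h1
  have hpWs : Surjective pW := by
    intro x
    obtain ⟨a, ha⟩ := hπ (i x)
    have h1 : p (π a) = 0 := by rw [ha]; exact (hex _).2 ⟨x, rfl⟩
    refine ⟨⟨a, h1⟩, hi ?_⟩
    rw [hpW, ha]
  have hexW : ∀ y, pW y = 0 ↔ ∃ x, iW x = y := by
    intro y
    constructor
    · intro hy
      have h1 := hpW y
      rw [hy, map_zero] at h1
      exact ⟨⟨y.1, h1.symm⟩, rfl⟩
    · rintro ⟨x, rfl⟩
      refine hi ?_
      rw [hpW, map_zero]
      exact x.2
  refine ⟨F, inferInstance, inferInstance, p ∘ₗ π, hF, hp.comp hπ, ?_,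
    goodN_ext h n iW pW (fun a b hab => Subtype.ext (congrArg (fun z => z.1) hab)) hpWs hexW hgY
      hX⟩
  intro K
  obtain ⟨K1, hK1⟩ := harY K
  obtain ⟨K2, hK2⟩ := har (max K K1)
  refine ⟨max K1 K2, fun z hz => ?_⟩
  have hz' : z.1 ∈ (h ^ (max K1 K2) • ⊤ : Submodule R F) := hz
  have h1 : pW z ∈ (h ^ (max K K1) • ⊤ : Submodule R X) := by
    refine hK2 _ ?_
    rw [hpW]
    exact smul_anti h (le_max_right _ _) (map_mem_smul h π _ hz')
  obtain ⟨z', hz1, hz2⟩ := exists_lift_smul h pW hpWs _ h1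
  obtain ⟨x, hx⟩ := (hexW (z - z')).1 (by rw [map_sub, hz2, sub_self])
  have h2 : x ∈ (h ^ K • ⊤ : Submodule R (ker π)) := by
    refine hK1 x ?_
    have h3 : (z - z').1 ∈ (h ^ K1 • ⊤ : Submodule R F) :=
      Submodule.sub_mem _ (smul_anti h (le_max_left _ _) hz')
        (smul_anti h (le_max_right _ _) (map_mem_smul h (ker (p ∘ₗ π)).subtype _ hz1))
    rw [← hx] at h3
    exact h3
  have h4 := map_mem_smul h iW K h2
  rw [hx] at h4
  have h5 := Submodule.add_mem _ h4 (smul_anti h (le_max_left _ _) hz1)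
  rwa [sub_add_cancel] at h5

/-- (g4, sub), the Artin-Rees part -/
theorem arm_of_goodN_quot (i : X →ₗ[R] Y) (p : Y →ₗ[R] Q) (hi : Injective i)
    (hp : Surjective p) (hex : ∀ y, p y = 0 ↔ ∃ x, i x = y) (hQ : GoodN h 1 Q) : ARm h i := by
  -- the free module on `Y`
  let π : (Y →₀ R) →ₗ[R] Y := Finsupp.linearCombination R id
  have hπ : Surjective π := Finsupp.linearCombination_id_surjective R Y
  obtain ⟨har, -⟩ := goodN_indep h hQ (F := Y →₀ R) inferInstance (p ∘ₗ π) (hp.comp hπ)
  intro K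
  obtain ⟨K', hK'⟩ := har K
  refine ⟨K', fun x hx => ?_⟩
  obtain ⟨z, hz1, hz2⟩ := exists_lift_smul h π hπ K' hx
  have h1 : (p ∘ₗ π) z = 0 := by
    change p (π z) = 0
    rw [hz2]
    exact (hex _).2 ⟨x, rfl⟩
  have h2 := hK' ⟨z, h1⟩ hz1
  let eX : X ≃ₗ[R] range i := LinearEquiv.ofInjective i hi
  let pW : ker (p ∘ₗ π) →ₗ[R] X :=
    eX.symm.toLinearMap ∘ₗ (π ∘ₗ (ker (p ∘ₗ π)).subtype).codRestrict (range i)
      fun w => (hex _).1 w.2
  have h3 := map_mem_smul h pW K h2
  have h4 : pW ⟨z, h1⟩ = x := by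
    refine hi ?_
    have h5 : eX (pW ⟨z, h1⟩) = ⟨π z, (hex _).1 h1⟩ := eX.apply_symm_apply _
    have h6 := congrArg Subtype.val h5
    rw [← hz2]
    exact h6
  rwa [h4] at h3

/-- (g4, sub) -/
theorem goodN_sub {n : ℕ} (i : X →ₗ[R] Y) (p : Y →ₗ[R] Q) (hi : Injective i)
    (hp : Surjective p) (hex : ∀ y, p y = 0 ↔ ∃ x, i x = y) (hY : GoodN h n Y)
    (hQ : GoodN h (n + 1) Q) : GoodN h n X := by
  cases n with
  | zero => trivial
  | succ n =>
    obtain ⟨F, _, _, π, hF, hπ, harY, hgY⟩ := hY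
    obtain ⟨harQ, hgQ⟩ := goodN_indep h hQ hF (p ∘ₗ π) (hp.comp hπ)
    let iW : ker π →ₗ[R] ker (p ∘ₗ π) :=
      (ker π).subtype.codRestrict _ fun w => by
        change p (π w.1) = 0
        have h4 : π w.1 = 0 := w.2
        rw [h4, map_zero]
    have e0 : ∀ w : ker (p ∘ₗ π), π w.1 ∈ range i := fun w => (hex _).1 w.2
    let eX : X ≃ₗ[R] range i := LinearEquiv.ofInjective i hi
    let pW : ker (p ∘ₗ π) →ₗ[R] X :=
      eX.symm.toLinearMap ∘ₗ (π ∘ₗ (ker (p ∘ₗ π)).subtype).codRestrict (range i) e0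
    have hpW : ∀ w, i (pW w) = π w.1 := by
      intro w
      have h1 : eX (pW w) = ⟨π w.1, e0 w⟩ := eX.apply_symm_apply _
      exact congrArg Subtype.val h1
    refine goodN_quot h iW pW (fun a b hab => Subtype.ext (congrArg (fun z => z.1) hab)) ?_ ?_ hgQ
      hgY ?_
    · intro x
      obtain ⟨a, ha⟩ := hπ (i x)
      have h1 : p (π a) = 0 := by rw [ha]; exact (hex _).2 ⟨x, rfl⟩
      refine ⟨⟨a, h1⟩, hi ?_⟩
      rw [hpW, ha]
    · intro y
      constructor
      · intro hy
        have h1 := hpW y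
        rw [hy, map_zero] at h1
        exact ⟨⟨y.1, h1.symm⟩, rfl⟩
      · rintro ⟨x, rfl⟩
        refine hi ?_
        rw [hpW, map_zero]
        exact x.2
    · exact ARm.of_comp h (g := (ker (p ∘ₗ π)).subtype) harY

/-! ### good modules -/

theorem good_iso {A B : Type} [AddCommGroup A] [Module R A] [AddCommGroup B]
    [Module R B] (e : A ≃ₗ[R] B) (hA : Good h A) : Good h B := fun n => goodN_iso h n e (hA n)

theorem good_finsupp (ι : Type) (hX : Good h X) : Good h (ι →₀ X) := fun n =>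
  goodN_finsupp h ι n (hX n)

theorem good_free (hF : Module.Free R F) : Good h F := fun n => goodN_free h n hF

theorem good_ext (i : X →ₗ[R] Y) (p : Y →ₗ[R] Q) (hi : Injective i) (hp : Surjective p)
    (hex : ∀ y, p y = 0 ↔ ∃ x, i x = y) (hX : Good h X) (hQ : Good h Q) : Good h Y := fun n =>
  goodN_ext h n i p hi hp hex (hX n) (hQ n)

theorem good_quot (i : X →ₗ[R] Y) (p : Y →ₗ[R] Q) (hi : Injective i) (hp : Surjective p)
    (hex : ∀ y, p y = 0 ↔ ∃ x, i x = y) (hX : Good h X) (hY : Good h Y) (har : ARm h i) :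
    Good h Q := fun n =>
  goodN_of_succ h n (goodN_quot h i p hi hp hex (hY (n + 1)) (hX n) har)

theorem good_sub (i : X →ₗ[R] Y) (p : Y →ₗ[R] Q) (hi : Injective i) (hp : Surjective p)
    (hex : ∀ y, p y = 0 ↔ ∃ x, i x = y) (hY : Good h Y) (hQ : Good h Q) :
    Good h X ∧ ARm h i :=
  ⟨fun n => goodN_sub h i p hi hp hex (hY n) (hQ (n + 1)),
    arm_of_goodN_quot h i p hi hp hex (hQ 1)⟩

/-- (g5) -/
theorem arm_of_pow (i : X →ₗ[R] Y) (hi : Injective i) (a : ℕ)
    (ha : ∀ y ∈ (h ^ a • ⊤ : Submodule R Y), ∃ x, i x = y) : ARm h i := by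
  intro K
  refine ⟨K + a, fun x hx => ?_⟩
  rw [pow_add, Submodule.mul_smul] at hx
  have h1 : (h ^ a • ⊤ : Submodule R Y) ≤ (⊤ : Submodule R X).map i := by
    intro y hy
    obtain ⟨x, hx⟩ := ha y hy
    exact ⟨x, trivial, hx⟩
  have h2 := Submodule.smul_mono (le_refl (h ^ K)) h1 hx
  rw [← Submodule.map_smul''] at h2
  obtain ⟨x', hx', hx''⟩ := h2
  rwa [hi hx''] at hx'

/-- a power of `h` times a free module -/
theorem goodN_pow_free (a : ℕ) (n : ℕ) (ha : GoodN h n (h ^ a : Ideal R)) (ι : Type) :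
    GoodN h n (h ^ a • ⊤ : Submodule R (ι →₀ R)) := by
  have hco : ∀ x : (h ^ a • ⊤ : Submodule R (ι →₀ R)), ∀ q, x.1 q ∈ h ^ a := by
    intro x q
    have h1 := Submodule.mem_map_of_mem (f := Finsupp.lapply (R := R) q) x.2
    rw [Submodule.map_smul''] at h1
    have h2 := Submodule.smul_mono (le_refl (h ^ a))
      (le_top (a := (⊤ : Submodule R (ι →₀ R)).map (Finsupp.lapply q))) h1
    simpa using h2
  have hback : ∀ y : ι →₀ (h ^ a : Ideal R),
      Finsupp.mapRange.linearMap (h ^ a : Ideal R).subtype y ∈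
        (h ^ a • ⊤ : Submodule R (ι →₀ R)) := by
    intro y
    rw [← Finsupp.sum_single (Finsupp.mapRange.linearMap (h ^ a : Ideal R).subtype y)]
    refine Submodule.sum_mem _ fun q _ => ?_
    have h1 : (Finsupp.single q ((y q : (h ^ a : Ideal R)) : R) : ι →₀ R) =
        ((y q : (h ^ a : Ideal R)) : R) • Finsupp.single q (1 : R) := by
      rw [Finsupp.smul_single, smul_eq_mul, mul_one]
    change Finsupp.single q ((y q : (h ^ a : Ideal R)) : R) ∈ _
    rw [h1]
    exact Submodule.smul_mem_smul (y q).2 trivial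
  let e : (ι →₀ (h ^ a : Ideal R)) →ₗ[R] (h ^ a • ⊤ : Submodule R (ι →₀ R)) :=
    (Finsupp.mapRange.linearMap (h ^ a : Ideal R).subtype).codRestrict _ hback
  refine goodN_iso h n (LinearEquiv.ofBijective e ⟨?_, ?_⟩) (goodN_finsupp h ι n ha)
  · intro x y hxy
    exact Finsupp.mapRange_injective _ (map_zero _) (Submodule.injective_subtype _)
      (congrArg Subtype.val hxy)
  · intro x
    classical
    refine ⟨Finsupp.onFinset x.1.support (fun q => ⟨x.1 q, hco x q⟩) ?_, ?_⟩
    · intro q hq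
      rw [Finsupp.mem_support_iff]
      intro h2
      exact hq (Subtype.ext h2)
    · refine Subtype.ext ?_
      ext q
      change (Finsupp.mapRange.linearMap (h ^ a : Ideal R).subtype
        (Finsupp.onFinset x.1.support (fun q => ⟨x.1 q, hco x q⟩) _)) q = x.1 q
      simp

theorem arm_of_killed (a : ℕ) (π : F →ₗ[R] Q) (hle : (h ^ a • ⊤ : Submodule R F) ≤ ker π) :
    ARm h (ker π).subtype := by
  have h0 : ∀ y ∈ (h ^ a • ⊤ : Submodule R F), ∃ x : ker π, (ker π).subtype x = y :=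
    fun y hy => ⟨⟨y, hle hy⟩, rfl⟩
  exact arm_of_pow h (ker π).subtype (Submodule.injective_subtype _) a h0

theorem goodN_ker_of_killed (a n : ℕ) (π : F →ₗ[R] Q)
    (hle : (h ^ a • ⊤ : Submodule R F) ≤ ker π)
    (h1 : GoodN h n (h ^ a • ⊤ : Submodule R F))
    (h2 : ∀ {P : Type} [AddCommGroup P] [Module R P], (∀ r ∈ h ^ a, ∀ q : P, r • q = 0) →
      GoodN h n P) : GoodN h n (ker π) := by
  -- `0 → h^a F → W → W / h^a F → 0`
  let i : (h ^ a • ⊤ : Submodule R F) →ₗ[R] ker π := Submodule.inclusion hle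
  have hi : Injective i := Submodule.inclusion_injective hle
  let p : ker π →ₗ[R] (ker π ⧸ range i) := (range i).mkQ
  have hp : Surjective p := Submodule.mkQ_surjective (range i)
  have hex : ∀ y, p y = 0 ↔ ∃ x, i x = y := by
    intro y
    rw [Submodule.mkQ_apply, Submodule.Quotient.mk_eq_zero]
    rfl
  have hQ' : GoodN h n (ker π ⧸ range i) := by
    refine h2 ?_
    intro r hr q
    obtain ⟨w, rfl⟩ := hp q
    rw [← map_smul, hex]
    exact ⟨⟨r • w.1, Submodule.smul_mem_smul hr trivial⟩, rfl⟩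
  exact goodN_ext h n i p hi hp hex h1 hQ'

/-- (g6) modules killed by a power of `h` -/
theorem good_of_killed (a : ℕ) (ha : Good h (h ^ a : Ideal R)) :
    ∀ (n : ℕ) {P : Type} [AddCommGroup P] [Module R P], (∀ r ∈ h ^ a, ∀ q : P, r • q = 0) →
      GoodN h n P := by
  intro n
  induction n with
  | zero => intro P _ _ _; trivial
  | succ n ih =>
    intro P _ _ hk
    -- the free module on `P`
    let π : (P →₀ R) →ₗ[R] P := Finsupp.linearCombination R id
    have hπ : Surjective π := Finsupp.linearCombination_id_surjective R P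
    have hle : (h ^ a • ⊤ : Submodule R (P →₀ R)) ≤ ker π := by
      intro y hy
      change π y = 0
      refine Submodule.smul_induction_on hy (fun r hr z _ => ?_) (fun x y hx hy => ?_)
      · rw [map_smul]
        exact hk r hr _
      · rw [map_add, hx, hy, add_zero]
    exact ⟨P →₀ R, _, _, π, inferInstance, hπ, arm_of_killed h a π hle,
      goodN_ker_of_killed h a n π hle (goodN_pow_free h a n (ha n) P) ih⟩

/-! ### submodules of a module -/

section Sub

variable {M : Type} [AddCommGroup M] [Module R M]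

theorem mem_smul_top_iff (X : Submodule R M) (K : ℕ) (x : X) :
    x ∈ (h ^ K • ⊤ : Submodule R X) ↔ (x : M) ∈ h ^ K • X := by
  have h1 : (h ^ K • ⊤ : Submodule R X).map X.subtype = h ^ K • X := by
    rw [Submodule.map_smul'', Submodule.map_top, Submodule.range_subtype]
  rw [← h1]
  constructor
  · intro hx
    exact ⟨x, hx, rfl⟩
  · rintro ⟨y, hy, hyx⟩
    have h2 : y = x := Subtype.ext hyx
    rwa [← h2]

theorem ar_iff_arm {X Y : Submodule R M} (hXY : X ≤ Y) :
    AR h X Y ↔ ARm h (Submodule.inclusion hXY) := by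
  constructor
  · intro H K
    obtain ⟨K', hK'⟩ := H K
    refine ⟨K', fun x hx => ?_⟩
    rw [mem_smul_top_iff] at hx ⊢
    exact hK' ⟨x.2, hx⟩
  · intro H K
    obtain ⟨K', hK'⟩ := H K
    refine ⟨K', ?_⟩
    rintro x ⟨hx, hx'⟩
    have h1 := hK' ⟨x, hx⟩ ((mem_smul_top_iff h Y K' _).2 hx')
    exact (mem_smul_top_iff h X K _).1 h1

/-- (g5) for submodules -/
theorem ar_of_pow_le {X Y : Submodule R M} (a : ℕ) (ha : h ^ a • Y ≤ X) : AR h X Y := by
  intro K
  refine ⟨K + a, ?_⟩
  rintro x ⟨_, hx⟩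
  rw [pow_add, Submodule.mul_smul] at hx
  exact Submodule.smul_mono le_rfl ha hx

/-- (g8) -/
theorem ar_trans {X Y Z : Submodule R M} (hXY : X ≤ Y) (h1 : AR h X Y)
    (h2 : AR h Y Z) : AR h X Z := by
  intro K
  obtain ⟨K1, hK1⟩ := h1 K
  obtain ⟨K2, hK2⟩ := h2 K1
  exact ⟨K2, fun x hx => hK1 ⟨hx.1, hK2 ⟨hXY hx.1, hx.2⟩⟩⟩

/-- a short exact sequence given by a linear map on a submodule: `X = Y ∩ ker f`, the quotient is
`f(Y)` -/
theorem good_ker {M' : Type} [AddCommGroup M'] [Module R M'] (f : M →ₗ[R] M')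
    {X Y : Submodule R M} (hX : X = Y ⊓ ker f) (hY : Good h Y) (hQ : Good h (Y.map f)) :
    Good h X ∧ AR h X Y := by
  have hXY : X ≤ Y := by rw [hX]; exact inf_le_left
  rw [ar_iff_arm h hXY]
  refine good_sub h (Submodule.inclusion hXY) (f.submoduleMap Y)
    (Submodule.inclusion_injective _) (f.submoduleMap_surjective Y) (fun y => ?_) hY hQ
  constructor
  · intro hy
    have h1 : f y.1 = 0 := congrArg Subtype.val hy
    have h2 : y.1 ∈ X := by rw [hX]; exact ⟨y.2, h1⟩
    exact ⟨⟨y.1, h2⟩, rfl⟩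
  · rintro ⟨x, rfl⟩
    have h1 : x.1 ∈ Y ⊓ ker f := by rw [← hX]; exact x.2
    exact Subtype.ext h1.2

theorem good_ker_ext {M' : Type} [AddCommGroup M'] [Module R M'] (f : M →ₗ[R] M')
    {X Y : Submodule R M} (hX : X = Y ⊓ ker f) (hX' : Good h X) (hQ : Good h (Y.map f)) :
    Good h Y := by
  have hXY : X ≤ Y := by rw [hX]; exact inf_le_left
  refine good_ext h (Submodule.inclusion hXY) (f.submoduleMap Y)
    (Submodule.inclusion_injective _) (f.submoduleMap_surjective Y) (fun y => ?_) hX' hQ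
  constructor
  · intro hy
    have h1 : f y.1 = 0 := congrArg Subtype.val hy
    have h2 : y.1 ∈ X := by rw [hX]; exact ⟨y.2, h1⟩
    exact ⟨⟨y.1, h2⟩, rfl⟩
  · rintro ⟨x, rfl⟩
    have h1 : x.1 ∈ Y ⊓ ker f := by rw [← hX]; exact x.2
    exact Subtype.ext h1.2

/-- (g7) -/
theorem good_sandwich {X Y : Submodule R M} (a : ℕ) (ha : Good h (h ^ a : Ideal R))
    (hXY : X ≤ Y) (hYX : h ^ a • Y ≤ X) (hY : Good h Y) : Good h X := by
  let i : X →ₗ[R] Y := Submodule.inclusion hXY
  refine (good_sub h i (range i).mkQ (Submodule.inclusion_injective _)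
    (Submodule.mkQ_surjective _) (fun y => ?_) hY
    (fun n => good_of_killed h a ha n ?_)).1
  · rw [Submodule.mkQ_apply, Submodule.Quotient.mk_eq_zero]
    rfl
  · intro r hr q
    obtain ⟨w, rfl⟩ := Submodule.mkQ_surjective _ q
    rw [← map_smul, Submodule.mkQ_apply, Submodule.Quotient.mk_eq_zero]
    exact ⟨⟨r • w.1, hYX (Submodule.smul_mem_smul hr w.2)⟩, rfl⟩

end Sub

/-- The coinductive principle: a class of modules such that every member has a free cover whose
kernel is in the class (up to isomorphism) and has the Artin-Rees property consists of good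
modules. -/
theorem good_of_class (P : ∀ (Q : Type) [AddCommGroup Q] [Module R Q], Prop)
    (hP : ∀ (Q : Type) [AddCommGroup Q] [Module R Q], P Q →
      ∃ (W F : Type) (_ : AddCommGroup W) (_ : Module R W) (_ : AddCommGroup F) (_ : Module R F)
        (i : W →ₗ[R] F) (π : F →ₗ[R] Q), Module.Free R F ∧ Injective i ∧ Surjective π ∧
        (∀ x, π x = 0 ↔ ∃ w, i w = x) ∧ ARm h i ∧ P W) :
    ∀ (n : ℕ) (Q : Type) [AddCommGroup Q] [Module R Q], P Q → GoodN h n Q
  | 0, _, _, _, _ => trivial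
  | n + 1, Q, _, _, hQ => by
    obtain ⟨W, F, _, _, _, _, i, π, hF, hi, hπ, hex, har, hW⟩ := hP Q hQ
    exact goodN_succ h i π hF hi hπ hex har (good_of_class P hP n W hW)

end ARm

end MP50e386N.GC
end

section
namespace MP50e386N

variable {A : Type} [CommRing A] (h : Ideal A)

private theorem ar_top_iff {M : Type} [AddCommGroup M] [Module A M] (X : Submodule A M) :
    AR h X ⊤ ↔ GC.ARm h X.subtype := by
  constructor
  · intro H K
    obtain ⟨K', hK'⟩ := H K
    refine ⟨K', fun x hx => ?_⟩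
    exact (GC.mem_smul_top_iff h X K x).2 (hK' ⟨x.2, hx⟩)
  · intro H K
    obtain ⟨K', hK'⟩ := H K
    refine ⟨K', ?_⟩
    rintro x ⟨hx, hx'⟩
    exact (GC.mem_smul_top_iff h X K _).1 (hK' ⟨x, hx⟩ hx')

theorem good_iff_goodN : ∀ (n : ℕ) (Q : Type) [AddCommGroup Q] [Module A Q],
    Good h n Q ↔ GC.GoodN h n Q
  | 0, _, _, _ => Iff.rfl
  | n + 1, Q, _, _ => by
    constructor
    · rintro ⟨ι, π, hπ, har, hg⟩
      exact ⟨ι →₀ A, _, _, π, inferInstance, hπ, (ar_top_iff h _).1 har,
        (good_iff_goodN n _).1 hg⟩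
    · intro hQ
      obtain ⟨h1, h2⟩ := GC.goodN_indep h hQ (F := Q →₀ A) inferInstance
        (Finsupp.linearCombination A id) (Finsupp.linearCombination_id_surjective A Q)
      exact ⟨Q, Finsupp.linearCombination A id, Finsupp.linearCombination_id_surjective A Q,
        (ar_top_iff h _).2 h1, (good_iff_goodN n _).2 h2⟩

theorem good_iso {n : ℕ} {Q Q' : Type} [AddCommGroup Q] [Module A Q] [AddCommGroup Q']
    [Module A Q'] (e : Q ≃ₗ[A] Q') (hQ : Good h n Q) : Good h n Q' :=
  (good_iff_goodN h n Q').2 (GC.goodN_iso h n e ((good_iff_goodN h n Q).1 hQ))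

theorem good_mono {n m : ℕ} (hmn : m ≤ n) {Q : Type} [AddCommGroup Q] [Module A Q]
    (hQ : Good h n Q) : Good h m Q := by
  induction n, hmn using Nat.le_induction with
  | base => exact hQ
  | succ n hn ih =>
    exact ih ((good_iff_goodN h n Q).2 (GC.goodN_of_succ h n ((good_iff_goodN h (n + 1) Q).1 hQ)))

theorem good_finsupp {n : ℕ} {Q : Type} [AddCommGroup Q] [Module A Q] (ι : Type)
    (hQ : Good h n Q) : Good h n (ι →₀ Q) :=
  (good_iff_goodN h n _).2 (GC.goodN_finsupp h ι n ((good_iff_goodN h n Q).1 hQ))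

theorem good_prod_free {n : ℕ} {Q : Type} [AddCommGroup Q] [Module A Q] (ι : Type)
    (hQ : Good h n Q) : Good h n (Q × (ι →₀ A)) :=
  (good_iff_goodN h n _).2 (GC.goodN_prod_free h inferInstance n ((good_iff_goodN h n Q).1 hQ))

theorem good_of_prod_free {n : ℕ} {Q : Type} [AddCommGroup Q] [Module A Q] (ι : Type)
    (hQ : Good h n (Q × (ι →₀ A))) : Good h n Q :=
  (good_iff_goodN h n _).2 (GC.goodN_of_prod_free h (F' := ι →₀ A) inferInstance n
    ((good_iff_goodN h n _).1 hQ))

theorem good_free (n : ℕ) (ι : Type) : Good h n (ι →₀ A) :=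
  (good_iff_goodN h n _).2 (GC.goodN_free h n inferInstance)

/-- independence of the free cover -/
theorem good_indep {n : ℕ} {Q : Type} [AddCommGroup Q] [Module A Q] (hQ : Good h (n + 1) Q)
    {ι : Type} (π : (ι →₀ A) →ₗ[A] Q) (hπ : Function.Surjective π) :
    AR h (LinearMap.ker π) ⊤ ∧ Good h n (LinearMap.ker π) := by
  obtain ⟨h1, h2⟩ := GC.goodN_indep h ((good_iff_goodN h (n + 1) Q).1 hQ) inferInstance π hπ
  exact ⟨(ar_top_iff h _).2 h1, (good_iff_goodN h n _).2 h2⟩

end MP50e386N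
end

section
namespace MP50e386N

variable {A : Type} [CommRing A] (h : Ideal A) {M : Type} [AddCommGroup M] [Module A M]

/-- (g5) -/
theorem ar_of_pow_smul_le {X Y : Submodule A M} {a : ℕ} (_hXY : X ≤ Y) (ha : h ^ a • Y ≤ X) :
    AR h X Y := GC.ar_of_pow_le h a ha

/-- (g8) -/
theorem ar_trans {X Y Z : Submodule A M} (hXY : X ≤ Y) (_hYZ : Y ≤ Z) (h1 : AR h X Y)
    (h2 : AR h Y Z) : AR h X Z := GC.ar_trans h hXY h1 h2

/-- (g6) -/
theorem good_of_pow_smul_eq_bot {a : ℕ} (hh : ∀ n, Good h n (h ^ a : Ideal A)) {Q : Type}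
    [AddCommGroup Q] [Module A Q] (hQ : ∀ c ∈ h ^ a, ∀ q : Q, c • q = 0) :
    ∀ n, Good h n Q := fun n =>
  (good_iff_goodN h n _).2 (GC.good_of_killed h a (fun k => (good_iff_goodN h k _).1 (hh k)) n hQ)

/-- (g7) -/
theorem good_of_pow_smul_le {X Y : Submodule A M} {a : ℕ} (hh : ∀ n, Good h n (h ^ a : Ideal A))
    (hXY : X ≤ Y) (ha : h ^ a • Y ≤ X) (hY : ∀ n, Good h n Y) : ∀ n, Good h n X := fun n =>
  (good_iff_goodN h n _).2 (GC.good_sandwich h a (fun k => (good_iff_goodN h k _).1 (hh k)) hXY ha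
    (fun k => (good_iff_goodN h k _).1 (hY k)) n)

/-- kernel and image of a linear map restricted to a submodule -/
theorem good_ker_of_map {M' : Type} [AddCommGroup M'] [Module A M'] (t : M →ₗ[A] M')
    {Y : Submodule A M} (hY : ∀ n, Good h n Y) (ht : ∀ n, Good h n (Y.map t)) :
    (∀ n, Good h n (Y ⊓ LinearMap.ker t : Submodule A M)) ∧
      AR h (Y ⊓ LinearMap.ker t) Y := by
  obtain ⟨h1, h2⟩ := GC.good_ker h t (X := Y ⊓ LinearMap.ker t) rfl
    (fun k => (good_iff_goodN h k _).1 (hY k)) (fun k => (good_iff_goodN h k _).1 (ht k))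
  exact ⟨fun n => (good_iff_goodN h n _).2 (h1 n), h2⟩

theorem good_of_ker_map {M' : Type} [AddCommGroup M'] [Module A M'] (t : M →ₗ[A] M')
    {Y : Submodule A M} (hk : ∀ n, Good h n (Y ⊓ LinearMap.ker t : Submodule A M))
    (ht : ∀ n, Good h n (Y.map t)) : ∀ n, Good h n Y := fun n =>
  (good_iff_goodN h n _).2 (GC.good_ker_ext h t (X := Y ⊓ LinearMap.ker t) rfl
    (fun k => (good_iff_goodN h k _).1 (hk k)) (fun k => (good_iff_goodN h k _).1 (ht k)) n)

end MP50e386N
end
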