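import Mathlib
import Pool.Agent.Lib.MP_50e386_al.B.Tb
import Pool.Agent.Lib.MP_50e386_al.B.Ga

section
/-! Multilinear elements and the maps `Th` (paper section 4, GL MODULES ARE GOOD). -/

namespace MP50e386N

open MvPolynomial Pool.Agent.Lib.MP50e386

variable {R : Type} [CommRing R] [Algebra ℂ R] [GLRing R]

/-! ### auxiliary facts -/

private theorem g1_cst_ee (j : ℕ) : (cst (ee j) : VR R) = Finsupp.single j 1 := by
  unfold cst
  simp [Finsupp.mapRange.linearMap_apply, Finsupp.mapRange_single]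

private theorem g1_cst_smul_ee (j : ℕ) (c : ℂ) : (cst (c • ee j) : VR R) =
    (algebraMap ℂ R c) • Finsupp.single j 1 := by
  rw [map_smul, g1_cst_ee, algebraMap_smul]

private theorem g1_supp (n : ℕ) :
    ((∑ i ∈ Finset.range n, Finsupp.single i 1 : ℕ →₀ ℕ).support : Set ℕ) ⊆ Set.Iio n := by
  intro k hk
  rw [Finset.mem_coe, Finsupp.mem_support_iff, Finsupp.finsetSum_apply] at hk
  by_contra hn
  apply hk
  refine Finset.sum_eq_zero fun i hi => ?_
  rw [Finsupp.single_apply, if_neg]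
  intro h
  apply hn
  rw [Set.mem_Iio, ← h]
  exact Finset.mem_range.1 hi

private theorem g1_congr {n : ℕ} {g : U R} (hg : ML n g) (ψ ψ' : ℕ → VR R)
    (h : ∀ k < n, ψ k = ψ' k) : sbU ψ g = sbU ψ' g :=
  sbU_congr (MW_LT hg) ψ ψ' fun i hi => h i (g1_supp n hi)

private theorem g1_actR_single (ψ : ℕ → VR R) (i : ℕ) (a : R) :
    actR ψ (Finsupp.single i a) = GLRing.sb ψ a • ψ i := by
  unfold actR
  rw [Finsupp.sum_single_index]
  rw [map_zero, zero_smul]

/-- homogeneity of degree `1` -/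
private theorem g1_homog {n : ℕ} {g : U R} (hg : ML n g) (ψ : ℕ → VR R) (k : ℕ) (hk : k < n)
    (y : VR R) (c : ℂ) :
    sbU (Function.update ψ k ((algebraMap ℂ R c) • y)) g = c • sbU (Function.update ψ k y) g := by
  have h1 := hg (Function.update (fun _ => (1 : ℂ)) k c)
  have h2 : (∑ i ∈ Finset.range n, Finsupp.single i 1 : ℕ →₀ ℕ).prod
      (fun i e => (Function.update (fun _ => (1 : ℂ)) k c) i ^ e) = c := by
    rw [← Finsupp.prod_finsetSum_index (fun _ => pow_zero _) (fun _ _ _ => pow_add _ _ _)]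
    have hs : ∀ b : ℕ, (Finsupp.single b 1 : ℕ →₀ ℕ).prod
        (fun i e => (Function.update (fun _ => (1 : ℂ)) k c) i ^ e) =
        Function.update (fun _ => (1 : ℂ)) k c b := fun b =>
      (Finsupp.prod_single_index
        (h := fun i e => (Function.update (fun _ => (1 : ℂ)) k c) i ^ e) (pow_zero _)).trans
        (pow_one _)
    refine (Finset.prod_congr rfl fun b _ => hs b).trans ?_
    rw [Finset.prod_eq_single_of_mem k (Finset.mem_range.2 hk)]
    · rw [Function.update_self]
    · intro b _ hb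
      rw [Function.update_of_ne hb]
  rw [h2] at h1
  have h3 := congrArg (sbU (Function.update ψ k y)) h1
  rw [sbU_smulC] at h3
  rw [← h3]
  unfold sbC
  rw [sbU_sbU]
  congr 2
  funext i
  rw [g1_cst_smul_ee, Finsupp.smul_single, smul_eq_mul, mul_one, g1_actR_single]
  have h4 : GLRing.sb (Function.update ψ k y)
      (algebraMap ℂ R (Function.update (fun _ => (1 : ℂ)) k c i)) =
      algebraMap ℂ R (Function.update (fun _ => (1 : ℂ)) k c i) := AlgHom.commutes _ _
  rw [h4]
  by_cases hi : i = k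
  · subst hi
    rw [Function.update_self, Function.update_self, Function.update_self]
  · rw [Function.update_of_ne hi, Function.update_of_ne hi, Function.update_of_ne hi, map_one,
      one_smul]

private theorem g1_poly (g : U R) (ψ : ℕ → VR R) (k : ℕ) (y y' : VR R) :
    ∃ P : MvPolynomial (Fin 2) (U R), ∀ t : Fin 2 → R,
      sbU (Function.update ψ k (t 0 • y + t 1 • y')) g = eval (fun i => C (t i)) P := by
  obtain ⟨P, hP⟩ := exists_sbU_poly (σ := Fin 2)
    (Function.update (fun i => (ψ i).mapRange (C : R → MvPolynomial (Fin 2) R) (map_zero _)) k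
      ((X 0 : MvPolynomial (Fin 2) R) • y.mapRange (C : R → MvPolynomial (Fin 2) R) (map_zero _) +
        (X 1 : MvPolynomial (Fin 2) R) • y'.mapRange (C : R → MvPolynomial (Fin 2) R)
          (map_zero _))) g
  refine ⟨P, fun t => ?_⟩
  rw [← hP t]
  congr 2
  funext i
  by_cases hi : i = k
  · subst hi
    rw [Function.update_self, Function.update_self]
    ext l
    simp
  · rw [Function.update_of_ne hi, Function.update_of_ne hi]
    ext l
    simp

private theorem g1_evalC {σ : Type} (P : MvPolynomial σ (U R)) (t : σ → ℂ) :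
    eval (fun i => (C (algebraMap ℂ R (t i)) : U R)) P =
      ∑ m ∈ P.support, (m.prod fun i k => t i ^ k) • coeff m P := by
  rw [eval_eq]
  refine Finset.sum_congr rfl fun m _ => ?_
  rw [Algebra.smul_def, mul_comm]
  congr 1
  rw [Finsupp.prod, map_prod]
  refine Finset.prod_congr rfl fun i _ => ?_
  rw [map_pow]
  rfl

private theorem g1_lin {n : ℕ} {g : U R} (hg : ML n g) (ψ : ℕ → VR R) (k : ℕ) (hk : k < n)
    (y y' : VR R) : ∃ p q : U R, ∀ a b : R,
      sbU (Function.update ψ k (a • y + b • y')) g = C a * p + C b * q := by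
  obtain ⟨P, hP⟩ := g1_poly g ψ k y y'
  have h1 : ∀ m ∈ P.support, ((2 : ℂ) ^ m.degree - 2) • coeff m P ∈ (⊥ : Submodule ℂ (U R)) := by
    apply vandM
    intro t _
    rw [Submodule.mem_bot]
    have e1 := hP (fun i => algebraMap ℂ R (t i))
    have e2 := hP (fun i => algebraMap ℂ R (2 * t i))
    rw [g1_evalC P t] at e1
    rw [g1_evalC P (fun i => 2 * t i)] at e2
    have e3 : algebraMap ℂ R (2 * t 0) • y + algebraMap ℂ R (2 * t 1) • y' =
        algebraMap ℂ R 2 • (algebraMap ℂ R (t 0) • y + algebraMap ℂ R (t 1) • y') := by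
      rw [map_mul, map_mul, smul_add, mul_smul, mul_smul]
    rw [e3, g1_homog hg ψ k hk, e1, Finset.smul_sum] at e2
    simp_rw [smul_smul, mul_sub, sub_smul]
    rw [Finset.sum_sub_distrib, sub_eq_zero]
    refine Eq.trans ?_ (Eq.trans e2.symm ?_)
    · refine Finset.sum_congr rfl fun m _ => ?_
      congr 1
      rw [Finsupp.prod, Finsupp.prod]
      simp_rw [mul_pow]
      rw [Finset.prod_mul_distrib, mul_comm, Finset.prod_pow_eq_pow_sum]
      rfl
    · refine Finset.sum_congr rfl fun m _ => ?_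
      rw [mul_comm, smul_smul]
  have h2 : ∀ m : Fin 2 →₀ ℕ, m.degree ≠ 1 → coeff m P = 0 := by
    intro m hm
    by_cases hs : m ∈ P.support
    · have h3 := h1 m hs
      rw [Submodule.mem_bot, smul_eq_zero] at h3
      rcases h3 with h3 | h3
      · exfalso
        rw [sub_eq_zero] at h3
        have h4 : (2 : ℕ) ^ m.degree = 2 ^ 1 := by
          rw [pow_one]
          exact_mod_cast h3
        exact hm (Nat.pow_right_injective le_rfl h4)
      · exact h3
    · exact notMem_support_iff.1 hs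
  have hdeg : ∀ m : Fin 2 →₀ ℕ, m.degree = 1 → m = Finsupp.single 0 1 ∨ m = Finsupp.single 1 1 := by
    intro m hm
    have h3 : m.degree = m 0 + m 1 := by
      rw [Finsupp.degree_eq_sum, Fin.sum_univ_two]
    rw [h3] at hm
    rcases Nat.eq_zero_or_pos (m 0) with h0 | h0
    · right
      ext i
      fin_cases i
      · simpa using h0
      · simp
        omega
    · left
      ext i
      fin_cases i
      · simp
        omega
      · simp
        omega
  refine ⟨coeff (Finsupp.single 0 1) P, coeff (Finsupp.single 1 1) P, fun a b => ?_⟩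
  have h3 := hP ![a, b]
  simp only [Matrix.cons_val_zero, Matrix.cons_val_one] at h3
  rw [h3, eval_eq]
  have h4 : P.support ⊆ {Finsupp.single 0 1, Finsupp.single 1 1} := by
    intro m hm
    rw [Finset.mem_insert, Finset.mem_singleton]
    apply hdeg
    by_contra h
    exact (mem_support_iff.1 hm) (h2 m h)
  rw [Finset.sum_subset h4 (fun m _ hm => by rw [notMem_support_iff.1 hm, zero_mul])]
  have h5 : (Finsupp.single (0 : Fin 2) 1 : Fin 2 →₀ ℕ) ≠ Finsupp.single 1 1 := by
    intro h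
    have := DFunLike.congr_fun h 0
    simp at this
  rw [Finset.sum_pair h5]
  rw [Finsupp.support_single_ne_zero _ one_ne_zero, Finsupp.support_single_ne_zero _ one_ne_zero]
  simp [mul_comm]

/-- a multilinear element is `R`-multilinear in the substituted vectors -/
theorem ML_add {n : ℕ} {g : U R} (hg : ML n g) (ψ : ℕ → VR R) (k : ℕ) (hk : k < n) (y y' : VR R) :
    sbU (Function.update ψ k (y + y')) g =
      sbU (Function.update ψ k y) g + sbU (Function.update ψ k y') g := by
  obtain ⟨p, q, h⟩ := g1_lin hg ψ k hk y y'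
  have h1 := h 1 1
  have h2 := h 1 0
  have h3 := h 0 1
  simp only [one_smul, zero_smul, add_zero, zero_add, map_one, map_zero, one_mul, zero_mul]
    at h1 h2 h3
  rw [h1, h2, h3]

theorem ML_smul {n : ℕ} {g : U R} (hg : ML n g) (ψ : ℕ → VR R) (k : ℕ) (hk : k < n) (a : R)
    (y : VR R) : sbU (Function.update ψ k (a • y)) g = a • sbU (Function.update ψ k y) g := by
  obtain ⟨p, q, h⟩ := g1_lin hg ψ k hk y 0
  have h1 := h a 0
  have h2 := h 1 0
  simp only [one_smul, zero_smul, add_zero, map_one, map_zero, one_mul, zero_mul] at h1 h2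
  rw [h1, h2, smul_eq_C_mul]

/-- the vector of a slot in a monomial -/
private noncomputable def g1_w (a : ℕ) (m : ℕ × ℕ →₀ ℕ) : V :=
  m.sum fun p e => if p.1 = a then (e : ℂ) • ee p.2 else 0

private theorem g1_w_add (a : ℕ) (m m' : ℕ × ℕ →₀ ℕ) : g1_w a (m + m') = g1_w a m + g1_w a m' := by
  unfold g1_w
  refine Finsupp.sum_add_index' ?_ ?_
  · intro p
    simp
  · intro p e e'
    split_ifs
    · rw [Nat.cast_add, add_smul]
    · rw [add_zero]

private theorem g1_w_zero (a : ℕ) : g1_w a 0 = 0 := by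
  unfold g1_w
  exact Finsupp.sum_zero_index

private theorem g1_w_single (a : ℕ) (p : ℕ × ℕ) :
    g1_w a (Finsupp.single p 1) = if p.1 = a then ee p.2 else 0 := by
  unfold g1_w
  rw [Finsupp.sum_single_index]
  · split_ifs
    · rw [Nat.cast_one, one_smul]
    · rfl
  · simp

private theorem g1_w_sum (a : ℕ) (s : Finset ℕ) (f : ℕ → (ℕ × ℕ →₀ ℕ)) :
    g1_w a (∑ k ∈ s, f k) = ∑ k ∈ s, g1_w a (f k) := by
  classical
  induction s using Finset.induction_on with
  | empty => rw [Finset.sum_empty, Finset.sum_empty, g1_w_zero]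
  | insert k s hk ih => rw [Finset.sum_insert hk, Finset.sum_insert hk, g1_w_add, ih]

private theorem g1_Th_monomial (g : U R) (lab : ℕ → ℕ) (m : ℕ × ℕ →₀ ℕ) :
    Th g lab (monomial m 1) = sbC (fun k => g1_w (lab k) m) g := by
  have h1 : (monomial m (1 : R) : U R) = basisMonomials (ℕ × ℕ) R m := by
    rw [coe_basisMonomials]
  rw [h1]
  unfold Th
  rw [Module.Basis.constr_basis]
  rfl

private theorem g1_prod_X (n : ℕ) (lab j : ℕ → ℕ) :
    (∏ k ∈ Finset.range n, X (lab k, j k) : U R) =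
      monomial (∑ k ∈ Finset.range n, Finsupp.single (lab k, j k) 1) 1 := by
  rw [monomial_sum_one]
  rfl

theorem Th_mono (g : U R) {n : ℕ} (hg : ML n g) (lab : ℕ → ℕ) (hlab : Set.InjOn lab (Set.Iio n))
    (j : ℕ → ℕ) : Th g lab (∏ k ∈ Finset.range n, X (lab k, j k)) = sbC (fun k => ee (j k)) g := by
  rw [g1_prod_X, g1_Th_monomial]
  unfold sbC
  refine g1_congr hg _ _ fun k hk => ?_
  congr 1
  simp only [g1_w_sum, g1_w_single]
  rw [Finset.sum_eq_single_of_mem k (Finset.mem_range.2 hk)]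
  · rw [if_pos rfl]
  · intro k' hk' hne
    rw [if_neg]
    intro h
    exact hne (hlab (Finset.mem_range.1 hk') hk h)

theorem Th_self (g : U R) {n : ℕ} (hg : ML n g) (lab : ℕ → ℕ) (hlab : Set.InjOn lab (Set.Iio n)) :
    Th g lab (∏ k ∈ Finset.range n, X (lab k, k)) = g := by
  have h1 := Th_mono g hg lab hlab (fun k => k)
  rw [h1]
  exact sbC_id g

private theorem g1_prod_update (n : ℕ) (lab : ℕ → ℕ) (y : ℕ → VR R) (K : ℕ) (hK : K < n)
    (v : VR R) :
    (∏ k ∈ Finset.range n, zf (lab k) (Function.update y K v k) : U R) =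
      zf (lab K) v * ∏ k ∈ (Finset.range n).erase K, zf (lab k) (y k) := by
  rw [← Finset.mul_prod_erase _ _ (Finset.mem_range.2 hK), Function.update_self]
  congr 1
  refine Finset.prod_congr rfl fun k hk => ?_
  rw [Function.update_of_ne (Finset.ne_of_mem_erase hk)]

private theorem g1_Th_prod (g : U R) {n : ℕ} (hg : ML n g) (lab : ℕ → ℕ)
    (hlab : Set.InjOn lab (Set.Iio n)) (K : ℕ) : ∀ y : ℕ → VR R,
    (∀ k, K ≤ k → k < n → ∃ j : ℕ, y k = Finsupp.single j 1) →
    Th g lab (∏ k ∈ Finset.range n, zf (lab k) (y k)) = sbU y g := by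
  induction K with
  | zero =>
    intro y hy
    choose! j hj using fun k (hk : k < n) => hy k (Nat.zero_le _) hk
    have e1 : (∏ k ∈ Finset.range n, zf (lab k) (y k) : U R) =
        ∏ k ∈ Finset.range n, X (lab k, j k) := by
      refine Finset.prod_congr rfl fun k hk => ?_
      rw [hj k (Finset.mem_range.1 hk), zf_single, one_smul]
    rw [e1, Th_mono g hg lab hlab]
    unfold sbC
    refine g1_congr hg _ _ fun k hk => ?_
    rw [g1_cst_ee, hj k hk]
  | succ K ih =>
    intro y hy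
    by_cases hK : K < n
    · have key : ∀ v : VR R, Th g lab (∏ k ∈ Finset.range n,
          zf (lab k) (Function.update y K v k)) = sbU (Function.update y K v) g := by
        intro v
        induction v using Finsupp.induction_linear with
        | zero =>
          have h1 := ML_smul hg y K hK 0 0
          rw [smul_zero, zero_smul] at h1
          rw [h1, g1_prod_update n lab y K hK, map_zero, zero_mul, map_zero]
        | add v v' hv hv' =>
          rw [ML_add hg y K hK, ← hv, ← hv', g1_prod_update n lab y K hK,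
            g1_prod_update n lab y K hK, g1_prod_update n lab y K hK, map_add, add_mul, map_add]
        | single i a =>
          have e1 : (Finsupp.single i a : VR R) = a • Finsupp.single i 1 := by
            rw [Finsupp.smul_single, smul_eq_mul, mul_one]
          have h2 := ih (Function.update y K (Finsupp.single i 1)) (by
            intro k hk1 hk2
            by_cases h : k = K
            · subst h
              exact ⟨i, by rw [Function.update_self]⟩
            · rw [Function.update_of_ne h]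
              exact hy k (by omega) hk2)
          rw [e1, ML_smul hg y K hK, ← h2, g1_prod_update n lab y K hK,
            g1_prod_update n lab y K hK, map_smul, smul_mul_assoc, map_smul]
      have h3 := key (y K)
      rwa [Function.update_eq_self] at h3
    · exact ih y fun k hk1 hk2 => absurd hk2 (by omega)

private theorem g1_Th_all (g : U R) {n : ℕ} (hg : ML n g) (lab : ℕ → ℕ)
    (hlab : Set.InjOn lab (Set.Iio n)) (y : ℕ → VR R) :
    Th g lab (∏ k ∈ Finset.range n, zf (lab k) (y k)) = sbU y g :=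
  g1_Th_prod g hg lab hlab n y fun k h1 h2 => absurd h2 (by omega)

/-! ### the structure of the multilinear monomials -/

private theorem g1_sdeg_pos {a : ℕ} {m : ℕ × ℕ →₀ ℕ} (h : sdeg a m = 1) :
    ∃ j : ℕ, m (a, j) = 1 ∧ ∀ j', m (a, j') ≠ 0 → j' = j := by
  classical
  unfold sdeg at h
  rw [Finsupp.sum] at h
  have h1 : ∃ p ∈ m.support, (if p.1 = a then m p else 0) ≠ 0 := by
    by_contra hc
    push Not at hc
    rw [Finset.sum_eq_zero hc] at h
    exact zero_ne_one h
  obtain ⟨p, hp, hne⟩ := h1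
  have hpa : p.1 = a := by
    by_contra hc
    rw [if_neg hc] at hne
    exact hne rfl
  rw [← Finset.add_sum_erase _ _ hp, if_pos hpa] at h
  rw [if_pos hpa] at hne
  have hp' : p = (a, p.2) := Prod.ext hpa rfl
  have h2 : m p = 1 := by omega
  have h3 : ∑ q ∈ m.support.erase p, (if q.1 = a then m q else 0) = 0 := by omega
  refine ⟨p.2, by rw [← hp']; exact h2, fun j' hj' => ?_⟩
  by_contra hc
  rw [Finset.sum_eq_zero_iff] at h3
  have h4 := h3 (a, j') (by
    rw [Finset.mem_erase, Finsupp.mem_support_iff]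
    refine ⟨fun he => hc ?_, hj'⟩
    rw [← he])
  rw [if_pos rfl] at h4
  exact hj' h4

private theorem g1_struct {n : ℕ} {lab : ℕ → ℕ} (hlab : Set.InjOn lab (Set.Iio n))
    {m : ℕ × ℕ →₀ ℕ} (hm : ∀ a, sdeg a m = if a ∈ labS n lab then 1 else 0) :
    ∃ j : ℕ → ℕ, m = ∑ k ∈ Finset.range n, Finsupp.single (lab k, j k) 1 := by
  classical
  have h1 : ∀ k, k < n → ∃ j : ℕ, m (lab k, j) = 1 ∧ ∀ j', m (lab k, j') ≠ 0 → j' = j := by
    intro k hk
    apply g1_sdeg_pos
    rw [hm, if_pos]
    exact Finset.mem_image_of_mem _ (Finset.mem_range.2 hk)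
  choose! j hj using h1
  refine ⟨j, ?_⟩
  ext ⟨a, i⟩
  rw [Finsupp.finsetSum_apply]
  by_cases ha : a ∈ labS n lab
  · obtain ⟨k, hk, rfl⟩ := Finset.mem_image.1 ha
    have hk' := Finset.mem_range.1 hk
    rw [Finset.sum_eq_single_of_mem k hk]
    · by_cases hi : i = j k
      · rw [hi, Finsupp.single_eq_same, (hj k hk').1]
      · rw [Finsupp.single_apply, if_neg]
        · by_contra hc
          exact hi ((hj k hk').2 i hc)
        · intro h
          exact hi (Prod.ext_iff.1 h).2.symm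
    · intro k' hk'' hne
      rw [Finsupp.single_apply, if_neg]
      intro h
      exact hne (hlab (Finset.mem_range.1 hk'') hk' (Prod.ext_iff.1 h).1)
  · have h2 : m (a, i) = 0 := by
      by_contra hc
      have h3 := hm a
      rw [if_neg ha] at h3
      unfold sdeg at h3
      rw [Finsupp.sum, Finset.sum_eq_zero_iff] at h3
      have h4 := h3 (a, i) (Finsupp.mem_support_iff.2 hc)
      rw [if_pos rfl] at h4
      exact hc h4
    rw [h2]
    symm
    refine Finset.sum_eq_zero fun k hk => ?_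
    rw [Finsupp.single_apply, if_neg]
    intro h
    apply ha
    have h' : lab k = a := (Prod.ext_iff.1 h).1
    rw [← h']
    exact Finset.mem_image_of_mem _ hk

private theorem g1_MS_ind {n : ℕ} {lab : ℕ → ℕ} (hlab : Set.InjOn lab (Set.Iio n))
    (p : U R → Prop) (h0 : p 0) (hadd : ∀ f f', p f → p f' → p (f + f'))
    (hs : ∀ (a : R) f, p f → p (a • f))
    (hm : ∀ j : ℕ → ℕ, p (∏ k ∈ Finset.range n, X (lab k, j k)))
    (f : U R) (hf : f ∈ MS R (labS n lab)) : p f := by
  classical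
  have h1 : ∀ m ∈ f.support, p (monomial m (coeff m f)) := by
    intro m hmf
    have h2 : m ∈ {m : ℕ × ℕ →₀ ℕ | ∀ a, sdeg a m = if a ∈ labS n lab then 1 else 0} :=
      ((mem_restrictSupport_iff R).1 hf) (by exact_mod_cast hmf)
    obtain ⟨j, hj⟩ := g1_struct hlab h2
    have h3 : (monomial m (coeff m f) : U R) = coeff m f • monomial m 1 := by
      rw [smul_monomial, smul_eq_mul, mul_one]
    have h4 : (monomial m (1 : R) : U R) = ∏ k ∈ Finset.range n, X (lab k, j k) := by
      rw [g1_prod_X, ← hj]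
    rw [h3, h4]
    exact hs _ _ (hm j)
  rw [f.as_sum]
  exact Finset.sum_induction _ p hadd h0 h1

theorem Th_sbU (g : U R) {n : ℕ} (hg : ML n g) (lab : ℕ → ℕ) (hlab : Set.InjOn lab (Set.Iio n))
    (ψ : ℕ → VR R) (f : U R) (hf : f ∈ MS R (labS n lab)) :
    Th g lab (sbU ψ f) = sbU ψ (Th g lab f) := by
  refine g1_MS_ind hlab (fun f => Th g lab (sbU ψ f) = sbU ψ (Th g lab f)) ?_ ?_ ?_ ?_ f hf
  · simp only [map_zero]
  · intro f f' h h'
    simp only [map_add, h, h']
  · intro a f h
    simp only [map_smul, sbU_smul, h]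
  · intro j
    rw [Th_mono g hg lab hlab, map_prod]
    simp_rw [sbU_X]
    rw [g1_Th_all g hg lab hlab (fun k => ψ (j k))]
    unfold sbC
    rw [sbU_sbU]
    congr 2
    funext i
    rw [g1_cst_ee, g1_actR_single, map_one, one_smul]

theorem Th_sbC (g : U R) {n : ℕ} (hg : ML n g) (lab : ℕ → ℕ) (hlab : Set.InjOn lab (Set.Iio n))
    (φ : ℕ → V) (f : U R) (hf : f ∈ MS R (labS n lab)) :
    Th g lab (sbC φ f) = sbC φ (Th g lab f) := Th_sbU g hg lab hlab _ f hf

theorem Th_mem {N : Submodule R (U R)} (hN : GLS N) {g : U R} (hg : g ∈ N) (lab : ℕ → ℕ)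
    (f : U R) : Th g lab f ∈ N := by
  rw [f.as_sum, map_sum]
  refine Submodule.sum_mem _ fun m _ => ?_
  have h3 : (monomial m (coeff m f) : U R) = coeff m f • monomial m 1 := by
    rw [smul_monomial, smul_eq_mul, mul_one]
  rw [h3, map_smul, g1_Th_monomial]
  exact Submodule.smul_mem _ _ (hN _ g hg)

theorem GLS_spn (g : U R) : GLS (spn g) := by
  unfold spn
  refine GLS_span _ ?_
  rintro φ _ ⟨φ', rfl⟩
  refine Submodule.subset_span ⟨fun i => linC φ (φ' i), ?_⟩
  simp only
  rw [sbC_sbC]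

theorem self_mem_spn (g : U R) : g ∈ spn g := by
  unfold spn
  refine Submodule.subset_span ⟨ee, ?_⟩
  simp only
  exact sbC_id g

theorem spn_le {N : Submodule R (U R)} (hN : GLS N) {g : U R} (hg : g ∈ N) : spn g ≤ N := by
  unfold spn
  rw [Submodule.span_le]
  rintro _ ⟨φ, rfl⟩
  exact hN φ g hg

private theorem g1_sdeg_add (a : ℕ) (m m' : ℕ × ℕ →₀ ℕ) :
    sdeg a (m + m') = sdeg a m + sdeg a m' := by
  unfold sdeg
  refine Finsupp.sum_add_index' ?_ ?_
  · intro p
    simp
  · intro p e e'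
    split_ifs
    · rfl
    · rfl

private theorem g1_sdeg_sum (a : ℕ) (s : Finset ℕ) (f : ℕ → (ℕ × ℕ →₀ ℕ)) :
    sdeg a (∑ k ∈ s, f k) = ∑ k ∈ s, sdeg a (f k) := by
  classical
  induction s using Finset.induction_on with
  | empty =>
    rw [Finset.sum_empty, Finset.sum_empty]
    unfold sdeg
    exact Finsupp.sum_zero_index
  | insert k s hk ih => rw [Finset.sum_insert hk, Finset.sum_insert hk, g1_sdeg_add, ih]

private theorem g1_prod_mem (n : ℕ) (lab j : ℕ → ℕ) (hlab : Set.InjOn lab (Set.Iio n)) :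
    (∏ k ∈ Finset.range n, X (lab k, j k) : U R) ∈ MS R (labS n lab) := by
  classical
  rw [g1_prod_X]
  unfold MS
  rw [mem_restrictSupport_iff]
  intro m hm
  have hm' : m = ∑ k ∈ Finset.range n, Finsupp.single (lab k, j k) 1 := by
    have := support_monomial_subset (Finset.mem_coe.1 hm)
    exact Finset.mem_singleton.1 this
  subst hm'
  intro a
  rw [g1_sdeg_sum]
  have h1 : ∀ k, sdeg a (Finsupp.single (lab k, j k) 1) = if lab k = a then 1 else 0 := by
    intro k
    unfold sdeg
    rw [Finsupp.sum_single_index]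
    simp
  simp_rw [h1]
  by_cases ha : a ∈ labS n lab
  · rw [if_pos ha]
    obtain ⟨k, hk, rfl⟩ := Finset.mem_image.1 ha
    rw [Finset.sum_eq_single_of_mem k hk]
    · rw [if_pos rfl]
    · intro k' hk' hne
      rw [if_neg]
      intro h
      exact hne (hlab (Finset.mem_range.1 hk') (Finset.mem_range.1 hk) h)
  · rw [if_neg ha]
    refine Finset.sum_eq_zero fun k hk => ?_
    rw [if_neg]
    intro h
    apply ha
    rw [← h]
    exact Finset.mem_image_of_mem _ hk

theorem map_Th (g : U R) {n : ℕ} (hg : ML n g) (lab : ℕ → ℕ) (hlab : Set.InjOn lab (Set.Iio n)) :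
    (MS R (labS n lab)).map (Th g lab) = spn g := by
  apply le_antisymm
  · rintro _ ⟨f, _, rfl⟩
    exact Th_mem (GLS_spn g) (self_mem_spn g) lab f
  · unfold spn
    rw [Submodule.span_le]
    rintro _ ⟨φ, rfl⟩
    have h1 := g1_prod_mem (R := R) n lab (fun k => k) hlab
    refine ⟨sbC φ (∏ k ∈ Finset.range n, X (lab k, k)), GLS_MS _ φ _ h1, ?_⟩
    rw [Th_sbC g hg lab hlab φ _ h1, Th_self g hg lab hlab]

/-- elements of multidegree `0` are constants -/
theorem ML_zero {g : U R} (hg : ML 0 g) : ∃ c : ℂ, g = C (algebraMap ℂ R c) := by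
  have h1 := MW_LT hg
  have h2 : ((∑ i ∈ Finset.range 0, Finsupp.single i 1 : ℕ →₀ ℕ).support : Set ℕ) = ∅ := by simp
  rw [h2] at h1
  unfold LT at h1
  have h3 : (({f | ∃ i ∈ (∅ : Set ℕ), ∃ j ∈ (∅ : Set ℕ), f = C (GLRing.x i j)} ∪
    {f | ∃ a, ∃ i ∈ (∅ : Set ℕ), f = X (a, i)}) : Set (U R)) = ∅ := by
    ext f
    simp
  rw [h3, Algebra.adjoin_empty, Algebra.mem_bot] at h1
  obtain ⟨c, hc⟩ := h1
  exact ⟨c, hc.symm⟩

end MP50e386N
end

section
/-! (cov): `GL`-stable submodules are finitely generated up to substitutions. -/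

namespace MP50e386N

open MvPolynomial Pool.Agent.Lib.MP50e386

variable {R : Type} [CommRing R] [Algebra ℂ R] [GLRing R]

/-- the submodule generated by a list of elements -/
private noncomputable def covN (l : List (ℕ × U R)) : Submodule R (U R) :=
  l.foldr (fun p N => spn p.2 ⊔ N) ⊥

private theorem covN_cons (p : ℕ × U R) (l : List (ℕ × U R)) :
    covN (p :: l) = spn p.2 ⊔ covN l := rfl

private theorem covN_le (l : List (ℕ × U R)) (X : Submodule R (U R)) :
    covN l ≤ X ↔ ∀ p ∈ l, spn p.2 ≤ X := by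
  induction l with
  | nil => simp [covN]
  | cons p l ih =>
    rw [covN_cons, sup_le_iff, ih, List.forall_mem_cons]

private theorem covN_GLS (l : List (ℕ × U R)) : GLS (covN l) := by
  induction l with
  | nil =>
    intro φ f hf
    rw [covN, List.foldr_nil, Submodule.mem_bot] at hf
    rw [hf, map_zero]
    exact Submodule.zero_mem _
  | cons p l ih => exact GLS.sup (GLS_spn p.2) ih

/-- a good list: multilinear elements of `Y`, at most one constant -/
private def covG (Y : Submodule R (U R)) (l : List (ℕ × U R)) : Prop :=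
  (∀ p ∈ l, p.2 ∈ Y ∧ ML p.1 p.2 ∧ p.2 ≠ 0) ∧ l.Pairwise fun p q => ¬ (p.1 = 0 ∧ q.1 = 0)

private theorem cov_step {Y : Submodule R (U R)} (hY : GLS Y) (l : List (ℕ × U R))
    (hl : covG Y l) (hne : covN l ≠ Y) : ∃ p, covG Y (p :: l) ∧ covN l < covN (p :: l) := by
  have hle : covN l ≤ Y := (covN_le l Y).2 fun p hp => spn_le hY (hl.1 p hp).1
  have h1 : ¬ Y ≤ covN l := fun h => hne (le_antisymm hle h)
  have h2 : ∃ n, ∃ f ∈ Y, ML n f ∧ f ∉ covN l := by
    by_contra hcon
    push Not at hcon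
    exact h1 (pol_le hY (covN_GLS l) fun n f hf hml => hcon n f hf hml)
  obtain ⟨n, f, hfY, hml, hf⟩ := h2
  have hf0 : f ≠ 0 := by
    rintro rfl
    exact hf (Submodule.zero_mem _)
  refine ⟨(n, f), ⟨?_, ?_⟩, ?_⟩
  · intro p hp
    rcases List.mem_cons.1 hp with rfl | hp
    · exact ⟨hfY, hml, hf0⟩
    · exact hl.1 p hp
  · rw [List.pairwise_cons]
    refine ⟨fun q hq h0 => ?_, hl.2⟩
    obtain ⟨h3, h4⟩ := h0
    simp only at h3
    obtain ⟨hq1, hq2, hq3⟩ := hl.1 q hq
    rw [h4] at hq2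
    rw [h3] at hml
    obtain ⟨c, hc⟩ := ML_zero hq2
    obtain ⟨c', hc'⟩ := ML_zero hml
    have hc0 : c ≠ 0 := by
      rintro rfl
      apply hq3
      rw [hc, map_zero, map_zero]
    apply hf
    have h5 : f = (c' * c⁻¹) • q.2 := by
      rw [hc, hc', Algebra.smul_def]
      have e1 : (algebraMap ℂ (U R)) (c' * c⁻¹) = C (algebraMap ℂ R (c' * c⁻¹)) := rfl
      rw [e1, ← C_mul, ← map_mul, inv_mul_cancel_right₀ hc0]
    rw [h5]
    apply smulC_mem
    have h6 : spn q.2 ≤ covN l := (covN_le l (covN l)).1 le_rfl q hq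
    exact h6 (self_mem_spn q.2)
  · rw [covN_cons]
    refine lt_of_le_of_ne le_sup_right fun h => ?_
    apply hf
    rw [h]
    exact Submodule.mem_sup_left (self_mem_spn f)

private theorem cov_exists {L D : ℕ} (h6 : NoethInt (R := R) GLS ⊥ (BD R L D))
    {Y : Submodule R (U R)} (hY : GLS Y) (hYD : Y ≤ BD R L D) : ∃ l, covG Y l ∧ covN l = Y := by
  by_contra hcon
  push Not at hcon
  have hstep : ∀ l : {l : List (ℕ × U R) // covG Y l}, ∃ l' : {l : List (ℕ × U R) // covG Y l},
      covN l.1 < covN l'.1 := by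
    rintro ⟨l, hl⟩
    obtain ⟨p, hp, hlt⟩ := cov_step hY l hl (hcon l hl)
    exact ⟨⟨p :: l, hp⟩, hlt⟩
  choose st hst using hstep
  have h0 : covG Y ([] : List (ℕ × U R)) := ⟨by simp, List.Pairwise.nil⟩
  let s : ℕ → {l : List (ℕ × U R) // covG Y l} := fun n => st^[n] ⟨[], h0⟩
  have hs : ∀ n, covN (s n).1 < covN (s (n + 1)).1 := by
    intro n
    have : s (n + 1) = st (s n) := Function.iterate_succ_apply' st n _
    rw [this]
    exact hst (s n)
  obtain ⟨n0, hn0⟩ := h6 (fun n => covN (s n).1) (monotone_nat_of_le_succ fun n => (hs n).le)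
    (fun n => ⟨covN_GLS _, bot_le, ((covN_le _ Y).2 fun p hp =>
      spn_le hY ((s n).2.1 p hp).1).trans hYD⟩)
  have h1 := hn0 (n0 + 1) (Nat.le_succ n0)
  exact absurd h1 (hs n0).ne'

/-- (cov); at most one generator has degree `0` -/
theorem cov (L D : ℕ) (h6 : NoethInt (R := R) GLS ⊥ (BD R L D)) (Y : Submodule R (U R))
    (hY : GLS Y) (hYD : Y ≤ BD R L D) :
    ∃ (m : ℕ) (d : Fin m → ℕ) (g : Fin m → U R), (∀ i, ML (d i) (g i)) ∧
      Y = ⨆ i, spn (g i) ∧ ∀ i j, d i = 0 → d j = 0 → i = j := by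
  obtain ⟨l, hl, hlY⟩ := cov_exists h6 hY hYD
  refine ⟨l.length, fun i => (l.get i).1, fun i => (l.get i).2, ?_, ?_, ?_⟩
  · intro i
    exact (hl.1 _ (List.get_mem l i)).2.1
  · rw [← hlY]
    apply le_antisymm
    · rw [covN_le]
      intro p hp
      obtain ⟨i, hi⟩ := List.mem_iff_get.1 hp
      rw [← hi]
      exact le_iSup (fun i => spn (l.get i).2) i
    · apply iSup_le
      intro i
      exact (covN_le l (covN l)).1 le_rfl _ (List.get_mem l i)
  · intro i j hi hj
    have h1 := List.pairwise_iff_get.1 hl.2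
    rcases lt_trichotomy i j with h | h | h
    · exact absurd ⟨hi, hj⟩ (h1 i j h)
    · exact h
    · exact absurd ⟨hj, hi⟩ (h1 j i h)

end MP50e386N
end

section
/-! GL modules are good (paper section 4). -/

namespace MP50e386N

open MvPolynomial Pool.Agent.Lib.MP50e386

variable {R : Type} [CommRing R] [Algebra ℂ R] [GLRing R]

omit [Algebra ℂ R] [GLRing R] in
private theorem g3_MS (S : Finset ℕ) : MS R S =
    restrictSupport R {m | ∀ a, sdeg a m = if a ∈ S then 1 else 0} := rfl

private theorem g3_labS (i n a : ℕ) :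
    a ∈ labS n (fun k => Nat.pair i k) ↔ ∃ k < n, Nat.pair i k = a := by
  simp [labS]

/-- the label sets are different -/
private theorem g3_disj {N : ℕ} (d : Fin N → ℕ) (h0 : ∀ i j, d i = 0 → d j = 0 → i = j)
    (i j : Fin N) (m : ℕ × ℕ →₀ ℕ)
    (hi : ∀ a, sdeg a m = if a ∈ labS (d i) (fun k => Nat.pair i k) then 1 else 0)
    (hj : ∀ a, sdeg a m = if a ∈ labS (d j) (fun k => Nat.pair j k) then 1 else 0) : i = j := by
  have h1 : ∀ a, a ∈ labS (d i) (fun k => Nat.pair i k) ↔
      a ∈ labS (d j) (fun k => Nat.pair j k) := by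
    intro a
    have h2 := (hi a).symm.trans (hj a)
    by_cases h3 : a ∈ labS (d i) (fun k => Nat.pair i k) <;>
      by_cases h4 : a ∈ labS (d j) (fun k => Nat.pair j k) <;> simp_all
  by_cases hdi : d i = 0
  · by_cases hdj : d j = 0
    · exact h0 i j hdi hdj
    · have h5 := (h1 (Nat.pair j 0)).2 ((g3_labS _ _ _).2 ⟨0, Nat.pos_of_ne_zero hdj, rfl⟩)
      obtain ⟨k, hk, -⟩ := (g3_labS _ _ _).1 h5
      omega
  · have h5 := (h1 (Nat.pair i 0)).1 ((g3_labS _ _ _).2 ⟨0, Nat.pos_of_ne_zero hdi, rfl⟩)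
    obtain ⟨k, hk, hk2⟩ := (g3_labS _ _ _).1 h5
    have h6 := (Nat.pair_eq_pair.1 hk2).1
    exact (Fin.ext h6).symm

open Classical in
/-- the cover -/
private noncomputable def g3_pi {N : ℕ} (d : Fin N → ℕ) (g : Fin N → U R) : U R →ₗ[R] U R :=
  (basisMonomials (ℕ × ℕ) R).constr R (fun m => ∑ i : Fin N,
    if (∀ a, sdeg a m = if a ∈ labS (d i) (fun k => Nat.pair i k) then 1 else 0) then
      Th (g i) (fun k => Nat.pair i k) (monomial m 1) else 0)

private theorem g3_pi_eq {N : ℕ} (d : Fin N → ℕ) (g : Fin N → U R)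
    (h0 : ∀ i j, d i = 0 → d j = 0 → i = j) (i : Fin N) (f : U R)
    (hf : f ∈ MS R (labS (d i) (fun k => Nat.pair i k))) :
    g3_pi d g f = Th (g i) (fun k => Nat.pair i k) f := by
  rw [g3_MS, restrictSupport_eq_span] at hf
  refine LinearMap.eqOn_span (f := g3_pi d g) (g := Th (g i) (fun k => Nat.pair i k)) ?_ hf
  rintro _ ⟨m, hm, rfl⟩
  have h1 : (monomial m (1 : R)) = basisMonomials (ℕ × ℕ) R m := by simp
  change g3_pi d g (monomial m 1) = Th (g i) (fun k => Nat.pair i k) (monomial m 1)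
  conv_lhs => rw [h1]
  unfold g3_pi
  rw [Module.Basis.constr_basis]
  rw [Finset.sum_eq_single i]
  · exact if_pos hm
  · intro j _ hj
    rw [if_neg]
    intro hm'
    exact hj (g3_disj d h0 j i m hm' hm)
  · intro h
    exact absurd (Finset.mem_univ i) h

omit [Algebra ℂ R] [GLRing R] in
private theorem g3_BD_mono (L D D' : ℕ) (h : D ≤ D') : BD R L D ≤ BD R L D' := by
  refine restrictSupport_mono R ?_
  rintro m ⟨h1, h2⟩
  exact ⟨h1, h2.trans h⟩

/-- a free cover of a `GL`-stable submodule inside `U_R` -/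
theorem exists_cover (h : Ideal R) (h6 : ∀ L D, NoethInt (R := R) GLS ⊥ (BD R L D))
    (h7 : ∀ L D, ∀ N Y : Submodule R (U R), GLS N → GLS Y → N ≤ Y → Y ≤ BD R L D → AR h N Y)
    (L D : ℕ) (Y : Submodule R (U R)) (hY : GLS Y) (hYD : Y ≤ BD R L D) :
    ∃ (L' D' : ℕ) (F W : Submodule R (U R)) (π : U R →ₗ[R] U R), GLS F ∧ GLS W ∧ F ≤ BD R L' D' ∧
      Module.Free R F ∧ W = F ⊓ LinearMap.ker π ∧ F.map π = Y ∧ AR h W F := by
  obtain ⟨N, d, g, hg, hYs, h0⟩ := cov L D (h6 L D) Y hY hYD
  set S : Fin N → Finset ℕ := fun i => labS (d i) (fun k => Nat.pair i k) with hS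
  have hlab : ∀ i : Fin N, Set.InjOn (fun k => Nat.pair (i : ℕ) k) (Set.Iio (d i)) := by
    intro i a _ b _ hab
    exact (Nat.pair_eq_pair.1 hab).2
  set T : Fin N → Set (ℕ × ℕ →₀ ℕ) := fun i => {m | ∀ a, sdeg a m = if a ∈ S i then 1 else 0}
    with hT
  have hF : restrictSupport R (⋃ i, T i) = ⨆ i, MS R (S i) := by
    rw [restrictSupport_eq_span, Set.image_iUnion, Submodule.span_iUnion]
    refine iSup_congr fun i => ?_
    rw [g3_MS, restrictSupport_eq_span]
  set F : Submodule R (U R) := restrictSupport R (⋃ i, T i) with hFdef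
  set π := g3_pi d g with hπ
  have hpi : ∀ i, ∀ f ∈ MS R (S i), π f = Th (g i) (fun k => Nat.pair i k) f :=
    fun i f hf => g3_pi_eq d g h0 i f hf
  have hFG : GLS F := by
    intro φ f hf
    rw [hF] at hf ⊢
    refine Submodule.iSup_induction (fun i => MS R (S i)) (motive := fun f =>
      sbC φ f ∈ ⨆ i, MS R (S i)) hf ?_ ?_ ?_
    · intro i x hx
      exact Submodule.mem_iSup_of_mem i (GLS_MS _ φ x hx)
    · rw [map_zero]
      exact Submodule.zero_mem _
    · intro x y hx hy
      rw [map_add]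
      exact Submodule.add_mem _ hx hy
  have hcomm : ∀ φ : ℕ → V, ∀ f ∈ F, π (sbC φ f) = sbC φ (π f) := by
    intro φ f hf
    rw [hF] at hf
    refine Submodule.iSup_induction (fun i => MS R (S i)) (motive := fun f =>
      π (sbC φ f) = sbC φ (π f)) hf ?_ ?_ ?_
    · intro i x hx
      rw [hpi i x hx, hpi i _ (GLS_MS _ φ x hx)]
      exact Th_sbC (g i) (hg i) _ (hlab i) φ x hx
    · rw [map_zero, map_zero, map_zero]
    · intro x y hx hy
      rw [map_add, map_add, map_add, map_add, hx, hy]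
  have hWG : GLS (F ⊓ LinearMap.ker π) := by
    rintro φ f ⟨hf1, hf2⟩
    refine ⟨hFG φ f hf1, ?_⟩
    rw [SetLike.mem_coe, LinearMap.mem_ker] at hf2 ⊢
    rw [hcomm φ f hf1, hf2, map_zero]
  obtain ⟨L', hL'⟩ : ∃ L', ∀ i, ∀ a ∈ S i, a < L' := by
    refine ⟨(Finset.univ.biUnion S).sup id + 1, fun i a ha => ?_⟩
    refine Nat.lt_succ_of_le ?_
    exact Finset.le_sup (f := id) (Finset.mem_biUnion.2 ⟨i, Finset.mem_univ i, ha⟩)
  have hFD : F ≤ BD R L' (∑ j, d j) := by
    rw [hF]
    refine iSup_le fun i => ?_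
    refine (MS_le_BD (S i) L' (hL' i)).trans (g3_BD_mono _ _ _ ?_)
    refine (Finset.card_image_le).trans ?_
    rw [Finset.card_range]
    exact Finset.single_le_sum (f := d) (fun j _ => Nat.zero_le _) (Finset.mem_univ i)
  refine ⟨L', ∑ j, d j, F, F ⊓ LinearMap.ker π, π, hFG, hWG, hFD,
    Module.Free.of_basis (basisRestrictSupport R (⋃ i, T i)), rfl, ?_,
    h7 L' _ _ _ hWG hFG inf_le_left hFD⟩
  rw [hF, Submodule.map_iSup, hYs]
  refine iSup_congr fun i => ?_
  rw [← map_Th (g i) (hg i) _ (hlab i)]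
  ext f
  constructor
  · rintro ⟨x, hx, rfl⟩
    exact ⟨x, hx, (hpi i x hx).symm⟩
  · rintro ⟨x, hx, rfl⟩
    exact ⟨x, hx, hpi i x hx⟩

theorem good_GLS (h : Ideal R) (h6 : ∀ L D, NoethInt (R := R) GLS ⊥ (BD R L D))
    (h7 : ∀ L D, ∀ N Y : Submodule R (U R), GLS N → GLS Y → N ≤ Y → Y ≤ BD R L D → AR h N Y)
    (L D : ℕ) (Y : Submodule R (U R)) (hY : GLS Y) (hYD : Y ≤ BD R L D) : ∀ n, Good h n Y := by
  intro n
  rw [good_iff_goodN]
  refine GC.good_of_class h (fun (Q : Type) [AddCommGroup Q] [Module R Q] =>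
    ∃ (L D : ℕ) (Y : Submodule R (U R)), GLS Y ∧ Y ≤ BD R L D ∧ Nonempty (Y ≃ₗ[R] Q)) ?_ n Y
    ⟨L, D, Y, hY, hYD, ⟨LinearEquiv.refl R Y⟩⟩
  rintro Q _ _ ⟨L1, D1, Y1, hY1, hYD1, ⟨e⟩⟩
  obtain ⟨L', D', F, W, π, hF, hW, hFD, hfree, hWF, hmap, har⟩ :=
    exists_cover h h6 h7 L1 D1 Y1 hY1 hYD1
  have hWle : W ≤ F := by rw [hWF]; exact inf_le_left
  have hmem : ∀ x : F, π.domRestrict F x ∈ Y1 := fun x => by
    rw [← hmap]
    exact ⟨x.1, x.2, rfl⟩
  refine ⟨W, F, inferInstance, inferInstance, inferInstance, inferInstance,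
    Submodule.inclusion hWle, e.toLinearMap ∘ₗ (π.domRestrict F).codRestrict Y1 hmem, hfree,
    Submodule.inclusion_injective _, ?_, ?_, (GC.ar_iff_arm h hWle).1 har,
    ⟨L', D', W, hW, hWle.trans hFD, ⟨LinearEquiv.refl R W⟩⟩⟩
  · intro q
    have h1 : (e.symm q).1 ∈ F.map π := by
      rw [hmap]
      exact (e.symm q).2
    obtain ⟨x, hx, hxq⟩ := h1
    refine ⟨⟨x, hx⟩, ?_⟩
    have h2 : (π.domRestrict F).codRestrict Y1 hmem ⟨x, hx⟩ = e.symm q := Subtype.ext hxq
    rw [LinearMap.comp_apply, h2]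
    exact e.apply_symm_apply q
  · intro x
    constructor
    · intro hx
      rw [LinearMap.comp_apply] at hx
      have h1 : (π.domRestrict F).codRestrict Y1 hmem x = 0 :=
        e.injective (hx.trans (map_zero e).symm)
      have h2 : π x.1 = 0 := congrArg Subtype.val h1
      have h3 : x.1 ∈ W := by
        rw [hWF]
        exact ⟨x.2, h2⟩
      exact ⟨⟨x.1, h3⟩, rfl⟩
    · rintro ⟨w, rfl⟩
      have h3 : w.1 ∈ F ⊓ LinearMap.ker π := by
        rw [← hWF]
        exact w.2
      have h1 : (π.domRestrict F).codRestrict Y1 hmem (Submodule.inclusion hWle w) = 0 :=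
        Subtype.ext h3.2
      rw [LinearMap.comp_apply, h1, map_zero]

/-- powers of `h` are good modules -/
theorem good_pow (h : Ideal R) (hh : GLSI h) (h6 : ∀ L D, NoethInt (R := R) GLS ⊥ (BD R L D))
    (h7 : ∀ L D, ∀ N Y : Submodule R (U R), GLS N → GLS Y → N ≤ Y → Y ≤ BD R L D → AR h N Y)
    (a : ℕ) : ∀ n, Good h n (h ^ a : Ideal R) := by
  intro n
  have h1 : ofI (h ^ a : Ideal R) ≤ BD R 0 0 := by
    rw [BD_zero]
    exact (ofI_le _ _).2 le_top
  have h2 := good_GLS h h6 h7 0 0 (ofI (h ^ a : Ideal R)) ((GLS_ofI _).2 (hh.pow a)) h1 n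
  have hinj : Function.Injective (Algebra.linearMap R (U R)) := C_injective _ _
  exact good_iso h (Submodule.equivMapOfInjective (Algebra.linearMap R (U R)) hinj
    (h ^ a : Ideal R)).symm h2

end MP50e386N
end
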