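import Mathlib
import Pool.Agent.Lib.MP_50e386_al.Bridge

section
/-!
Definitions for block HOOK (paper section 2) and the exterior evaluation ring `EB_{r|2s}`.
-/

namespace MP50e386N

open MvPolynomial

/-! ### the polynomial ring on symmetric `N × N` matrices -/

abbrev AN (N : ℕ) := MvPolynomial (Sym2 (Fin N)) ℂ

/-- Fischer weight of a variable: `1` on the diagonal, `1/2` off the diagonal -/
noncomputable def fw {N : ℕ} (v : Sym2 (Fin N)) : ℝ := if v.IsDiag then 1 else 1 / 2

/-- Fischer weight of a monomial -/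
noncomputable def fm {N : ℕ} (m : Sym2 (Fin N) →₀ ℕ) : ℝ :=
  ∏ v, ((m v).factorial : ℝ) * fw v ^ m v

/-- Fischer form, conjugate linear in the first variable -/
noncomputable def fis {N : ℕ} (f g : AN N) : ℂ :=
  ∑ m ∈ f.support, (starRingEnd ℂ) (f.coeff m) * g.coeff m * (fm m : ℂ)

/-- `E_ab`: the derivation replacing the letter `b` by `a` -/
noncomputable def Eop {N : ℕ} (a b : Fin N) : Derivation ℂ (AN N) (AN N) :=
  mkDerivation ℂ (Sym2.lift ⟨fun i j =>
    (if i = b then (X s(a, j) : AN N) else 0) + (if j = b then (X s(a, i) : AN N) else 0),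
    fun i j => add_comm _ _⟩)

/-- the leading minor of size `j + 1` -/
noncomputable def lead {N : ℕ} (j : Fin N) : AN N :=
  (Matrix.of fun a b : Fin (j.val + 1) =>
    (X s(Fin.castLE j.2 a, Fin.castLE j.2 b) : AN N)).det

/-- `Delta^alpha` -/
noncomputable def DelA {N : ℕ} (α : Fin N → ℕ) : AN N := ∏ j, lead j ^ α j

/-- substitution `e_i ↦ ∑_k g_ki e_k` on `AN N` -/
noncomputable def subN {N : ℕ} (g : Matrix (Fin N) (Fin N) ℂ) : AN N →ₐ[ℂ] AN N :=
  aeval (Sym2.lift ⟨fun i j => ∑ k, ∑ l, C (g k i * g l j) * (X s(k, l) : AN N),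
    fun i j => by
      show (∑ k, ∑ l, C (g k i * g l j) * (X s(k, l) : AN N)) =
        ∑ k, ∑ l, C (g k j * g l i) * (X s(k, l) : AN N)
      rw [Finset.sum_comm]
      refine Finset.sum_congr rfl fun k _ => Finset.sum_congr rfl fun l _ => ?_
      rw [mul_comm (g l i) (g k j), Sym2.eq_swap]⟩)

/-! ### the exterior evaluation -/

/-- even coordinates `g_{i,a}` -/
abbrev PG (r : ℕ) := MvPolynomial (ℕ × Fin r) ℂ

/-- `EB_{r|2s}` -/
abbrev EB (r s : ℕ) := ExteriorAlgebra (PG r) ((ℕ × (Fin s ⊕ Fin s)) →₀ PG r)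

/-- the odd coordinates `theta_{i,b}` -/
noncomputable def th {r s : ℕ} (i : ℕ) (b : Fin s ⊕ Fin s) : EB r s :=
  ExteriorAlgebra.ι (PG r) (Finsupp.single (i, b) 1)

/-- the even coordinates `g_{i,a}` in `EB` -/
noncomputable def gg {r s : ℕ} (i : ℕ) (a : Fin r) : EB r s := algebraMap (PG r) (EB r s) (X (i, a))

/-- the image of `x_ij` -/
noncomputable def xE (r s : ℕ) (i j : ℕ) : EB r s :=
  ∑ a, gg i a * gg j a + ∑ c : Fin s, (th i (Sum.inl c) * th j (Sum.inr c)
    - th i (Sum.inr c) * th j (Sum.inl c))

theorem ext_mul_mem_center {K M : Type} [CommRing K] [AddCommGroup M] [Module K M] (m m' : M)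
    (y : ExteriorAlgebra K M) :
    ExteriorAlgebra.ι K m * ExteriorAlgebra.ι K m' * y =
      y * (ExteriorAlgebra.ι K m * ExteriorAlgebra.ι K m') := by
  have key : ∀ a b : M, ExteriorAlgebra.ι K a * ExteriorAlgebra.ι K b =
      -(ExteriorAlgebra.ι K b * ExteriorAlgebra.ι K a) := by
    intro a b
    rw [eq_neg_iff_add_eq_zero]
    exact ExteriorAlgebra.ι_add_mul_swap a b
  induction y using ExteriorAlgebra.induction with
  | algebraMap c => exact (Algebra.commutes c _).symm
  | ι n =>
    rw [mul_assoc, key m' n, mul_neg, ← mul_assoc, key m n, neg_mul, neg_neg, mul_assoc]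
  | mul a b ha hb => rw [← mul_assoc, ha, mul_assoc, hb, mul_assoc]
  | add a b ha hb => rw [mul_add, ha, hb, add_mul]

theorem xE_mem_center (r s i j : ℕ) : xE r s i j ∈ Subalgebra.center ℂ (EB r s) := by
  rw [Subalgebra.mem_center_iff]
  intro y
  unfold xE
  rw [mul_add, add_mul]
  congr 1
  · rw [Finset.mul_sum, Finset.sum_mul]
    refine Finset.sum_congr rfl fun a _ => ?_
    unfold gg
    rw [← map_mul]
    exact (Algebra.commutes _ _).symm
  · rw [Finset.mul_sum, Finset.sum_mul]
    refine Finset.sum_congr rfl fun c _ => ?_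
    unfold th
    rw [mul_sub, sub_mul, ext_mul_mem_center, ext_mul_mem_center]

theorem xE_comm (r s i j : ℕ) : xE r s i j = xE r s j i := by
  have key : ∀ (i j : ℕ) (b b' : Fin s ⊕ Fin s), (th i b * th j b' : EB r s) =
      -(th j b' * th i b) := by
    intro i j b b'
    rw [eq_neg_iff_add_eq_zero]
    exact ExteriorAlgebra.ι_add_mul_swap _ _
  unfold xE
  congr 1
  · refine Finset.sum_congr rfl fun a _ => ?_
    unfold gg
    rw [← map_mul, ← map_mul, mul_comm]
  · refine Finset.sum_congr rfl fun c _ => ?_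
    rw [key i j (Sum.inl c) (Sum.inr c), key i j (Sum.inr c) (Sum.inl c)]
    abel

/-- the evaluation `A → center of EB_{r|2s}` -/
noncomputable def evE (r s : ℕ) : MP50e386.A →ₐ[ℂ] Subalgebra.center ℂ (EB r s) :=
  aeval (Sym2.lift ⟨fun i j => ⟨xE r s i j, xE_mem_center r s i j⟩, fun i j => by
    rw [Subtype.mk.injEq]; exact xE_comm r s i j⟩)

/-- the ideal `J_{r|s}` -/
noncomputable def Jrs (r s : ℕ) : Ideal MP50e386.A := RingHom.ker (evE r s)

end MP50e386N
end

section
/-! (f1), (f2): the Fischer form. -/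

namespace MP50e386N

open MvPolynomial

variable {N : ℕ}

private theorem h1_fw_pos (v : Sym2 (Fin N)) : 0 < fw v := by
  unfold fw; split <;> norm_num

theorem fm_pos (m : Sym2 (Fin N) →₀ ℕ) : 0 < fm m := by
  unfold fm
  exact Finset.prod_pos fun v _ => mul_pos (by positivity) (pow_pos (h1_fw_pos v) _)

private theorem h1_fis_eq (f g : AN N) {S : Finset (Sym2 (Fin N) →₀ ℕ)} (h : f.support ⊆ S) :
    fis f g = ∑ m ∈ S, (starRingEnd ℂ) (f.coeff m) * g.coeff m * (fm m : ℂ) := by
  unfold fis
  refine Finset.sum_subset h fun m _ hm => ?_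
  rw [notMem_support_iff.1 hm]; simp

theorem fis_add_right (f g g' : AN N) : fis f (g + g') = fis f g + fis f g' := by
  unfold fis
  rw [← Finset.sum_add_distrib]
  exact Finset.sum_congr rfl fun m _ => by rw [coeff_add]; ring

theorem fis_smul_right (f g : AN N) (c : ℂ) : fis f (c • g) = c * fis f g := by
  unfold fis
  rw [Finset.mul_sum]
  exact Finset.sum_congr rfl fun m _ => by rw [coeff_smul, smul_eq_mul]; ring

theorem fis_conj (f g : AN N) : fis g f = (starRingEnd ℂ) (fis f g) := by
  classical
  rw [h1_fis_eq f g (S := f.support ∪ g.support) Finset.subset_union_left,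
    h1_fis_eq g f (S := f.support ∪ g.support) Finset.subset_union_right, map_sum]
  refine Finset.sum_congr rfl fun m _ => ?_
  simp only [map_mul, Complex.conj_conj, Complex.conj_ofReal]
  ring

theorem fis_self_pos (f : AN N) (hf : f ≠ 0) : 0 < (fis f f).re := by
  unfold fis
  rw [Complex.re_sum]
  refine Finset.sum_pos (fun m hm => ?_) (support_nonempty.2 hf)
  have h1 : (starRingEnd ℂ) (f.coeff m) * f.coeff m = ((Complex.normSq (f.coeff m) : ℝ) : ℂ) := by
    rw [mul_comm, Complex.mul_conj]
  rw [h1, ← Complex.ofReal_mul, Complex.ofReal_re]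
  exact mul_pos (Complex.normSq_pos.2 (mem_support_iff.1 hm)) (fm_pos m)

private theorem h1_fm_add (v : Sym2 (Fin N)) (m : Sym2 (Fin N) →₀ ℕ) :
    fm (Finsupp.single v 1 + m) = fm m * (m v + 1) * fw v := by
  classical
  unfold fm
  rw [← Finset.mul_prod_erase Finset.univ _ (Finset.mem_univ v),
    ← Finset.mul_prod_erase Finset.univ (fun v => ((m v).factorial : ℝ) * fw v ^ m v)
      (Finset.mem_univ v)]
  set m' : Sym2 (Fin N) →₀ ℕ := Finsupp.single v 1 + m with hm'
  have h1 : ∏ x ∈ Finset.univ.erase v, ((m' x).factorial : ℝ) *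
      fw x ^ m' x = ∏ x ∈ Finset.univ.erase v, ((m x).factorial : ℝ) *
      fw x ^ m x := by
    refine Finset.prod_congr rfl fun x hx => ?_
    have : x ≠ v := (Finset.mem_erase.1 hx).1
    have h2 : m' x = m x := by
      rw [hm', Finsupp.add_apply, Finsupp.single_eq_of_ne this, zero_add]
    rw [h2]
  have h3 : m' v = m v + 1 := by
    rw [hm', Finsupp.add_apply, Finsupp.single_eq_same, add_comm]
  rw [h1, h3, Nat.factorial_succ, pow_succ]
  push_cast
  ring

/-- adjoint of the multiplication by a variable -/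
theorem fis_X_mul (v : Sym2 (Fin N)) (f g : AN N) :
    fis (X v * f) g = (fw v : ℂ) * fis f (pderiv v g) := by
  unfold fis
  rw [support_X_mul, Finset.sum_map, Finset.mul_sum]
  refine Finset.sum_congr rfl fun m _ => ?_
  simp only [addLeftEmbedding_apply]
  rw [coeff_X_mul, coeff_pderiv, h1_fm_add, add_comm m]
  push_cast
  ring

private theorem h1_fis_sum_right {ι : Type*} (s : Finset ι) (f : AN N) (g : ι → AN N) :
    fis f (∑ i ∈ s, g i) = ∑ i ∈ s, fis f (g i) := by
  classical
  induction s using Finset.induction_on with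
  | empty => simp [fis]
  | insert a s ha ih => rw [Finset.sum_insert ha, Finset.sum_insert ha, fis_add_right, ih]

private theorem h1_X_mul_right (v : Sym2 (Fin N)) (f g : AN N) :
    fis f (X v * g) = (fw v : ℂ) * fis (pderiv v f) g := by
  rw [fis_conj, fis_X_mul, map_mul, Complex.conj_ofReal, ← fis_conj]

private theorem h1_sum_apply {ι : Type*} (s : Finset ι) (D : ι → Derivation ℂ (AN N) (AN N))
    (f : AN N) : (∑ i ∈ s, D i) f = ∑ i ∈ s, D i f := by
  classical
  induction s using Finset.induction_on with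
  | empty => simp
  | insert a s ha ih => rw [Finset.sum_insert ha, Finset.sum_insert ha, Derivation.add_apply, ih]

private theorem h1_Eop (a b : Fin N) (f : AN N) :
    Eop a b f = ∑ j, (2 * fw s(b, j) : ℂ) • (X s(a, j) * pderiv s(b, j) f) := by
  classical
  let D : Derivation ℂ (AN N) (AN N) :=
    ∑ j, (2 * fw s(b, j) : ℂ) • ((X s(a, j) : AN N) • pderiv s(b, j))
  have h : Eop a b = D := by
    refine derivation_ext fun v => ?_
    induction v using Sym2.ind with
    | _ k l =>
      simp only [D, Eop, mkDerivation_X, Sym2.lift_mk, h1_sum_apply,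
        Derivation.coe_smul, Pi.smul_apply, pderiv_X, smul_eq_mul]
      have hne : ∀ j : Fin N, s(b, j) ≠ s(k, l) → (2 * fw s(b, j) : ℂ) •
          ((X s(a, j) : AN N) * (Pi.single s(b, j) 1 : Sym2 (Fin N) → AN N) s(k, l)) = 0 := by
        intro j hj
        rw [Pi.single_eq_of_ne (Ne.symm hj)]; simp
      have heq : ∀ j : Fin N, s(b, j) = s(k, l) → (2 * fw s(b, j) : ℂ) •
          ((X s(a, j) : AN N) * (Pi.single s(b, j) 1 : Sym2 (Fin N) → AN N) s(k, l)) =
          (2 * fw s(b, j) : ℂ) • (X s(a, j) : AN N) := by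
        intro j hj
        rw [← hj, Pi.single_eq_same, mul_one]
      by_cases hk : k = b
      · subst hk
        rw [Finset.sum_eq_single l (fun j _ hj => hne j (by
          intro h
          rcases Sym2.eq_iff.1 h with ⟨_, h⟩ | ⟨h1, h2⟩
          · exact hj h
          · exact hj (h2.trans h1))) (fun h => absurd (Finset.mem_univ _) h), heq l rfl]
        by_cases hl : l = k
        · subst hl
          simp only [if_true, fw, Sym2.isDiag_iff_proj_eq]
          norm_num
          rw [two_smul]
        · have : ¬ (k = l) := fun h => hl h.symm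
          simp [hl, fw, this]
      · by_cases hl : l = b
        · subst hl
          rw [Finset.sum_eq_single k (fun j _ hj => hne j (by
            intro h
            rcases Sym2.eq_iff.1 h with ⟨h1, h2⟩ | ⟨h1, h2⟩
            · exact hk h1.symm
            · exact hj h2)) (fun h => absurd (Finset.mem_univ _) h), heq k Sym2.eq_swap]
          have : ¬ (l = k) := fun h => hk h.symm
          simp [hk, fw, this]
        · rw [Finset.sum_eq_zero fun j _ => hne j (by
            intro h
            rcases Sym2.eq_iff.1 h with ⟨h1, h2⟩ | ⟨h1, h2⟩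
            · exact hk h1.symm
            · exact hl h1.symm)]
          simp [hk, hl]
  rw [h]
  simp [D, h1_sum_apply]

theorem fis_Eop (a b : Fin N) (f g : AN N) : fis (Eop a b f) g = fis f (Eop b a g) := by
  have h1 : fis (Eop a b f) g = ∑ j, (2 * fw s(b, j) * fw s(a, j) : ℂ) *
      fis (pderiv s(b, j) f) (pderiv s(a, j) g) := by
    rw [fis_conj, h1_Eop, h1_fis_sum_right, map_sum]
    refine Finset.sum_congr rfl fun j _ => ?_
    rw [fis_smul_right, map_mul, ← fis_conj, fis_X_mul]
    simp only [map_mul, Complex.conj_ofReal, map_ofNat]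
    ring
  have h2 : fis f (Eop b a g) = ∑ j, (2 * fw s(b, j) * fw s(a, j) : ℂ) *
      fis (pderiv s(b, j) f) (pderiv s(a, j) g) := by
    rw [h1_Eop, h1_fis_sum_right]
    refine Finset.sum_congr rfl fun j _ => ?_
    rw [fis_smul_right, h1_X_mul_right]
    ring
  rw [h1, h2]

private theorem h1_proj (L : Submodule ℂ (AN N)) (hL : L.FG) :
    ∀ f : AN N, ∃ u ∈ L, ∀ g ∈ L, fis g (f - u) = 0 := by
  classical
  have hneg : ∀ f g : AN N, fis f (-g) = -fis f g := by
    intro f g
    have := fis_smul_right f g (-1)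
    simpa using this
  have hsub : ∀ f g g' : AN N, fis f (g - g') = fis f g - fis f g' := by
    intro f g g'
    rw [sub_eq_add_neg, fis_add_right, hneg, sub_eq_add_neg]
  have hzero : ∀ f g : AN N, fis f g = 0 → fis g f = 0 := by
    intro f g h
    rw [fis_conj, h, map_zero]
  obtain ⟨S, rfl⟩ := hL
  induction S using Finset.induction_on with
  | empty =>
    intro f
    refine ⟨0, Submodule.zero_mem _, fun g hg => ?_⟩
    have : g = 0 := by simpa using hg
    subst this
    simp [fis]
  | insert x S hx ih =>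
    intro f
    obtain ⟨y, hy, hy'⟩ := ih x
    obtain ⟨u, hu, hu'⟩ := ih f
    have hS : Submodule.span ℂ (S : Set (AN N)) ≤
        Submodule.span ℂ ((insert x S : Finset (AN N)) : Set (AN N)) :=
      Submodule.span_mono (by simp)
    have hxm : x ∈ Submodule.span ℂ ((insert x S : Finset (AN N)) : Set (AN N)) :=
      Submodule.subset_span (by simp)
    by_cases h0 : x - y = 0
    · have hxS : x ∈ Submodule.span ℂ (S : Set (AN N)) := by
        rw [sub_eq_zero.1 h0]; exact hy
      refine ⟨u, hS hu, fun g hg => hu' g ?_⟩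
      have : Submodule.span ℂ ((insert x S : Finset (AN N)) : Set (AN N)) ≤
          Submodule.span ℂ (S : Set (AN N)) := by
        rw [Submodule.span_le]
        intro z hz
        rcases Finset.mem_insert.1 (Finset.mem_coe.1 hz) with rfl | hz
        · exact hxS
        · exact Submodule.subset_span hz
      exact this hg
    · have hp : fis (x - y) (x - y) ≠ 0 := by
        intro h
        have := fis_self_pos _ h0
        rw [h] at this
        simp at this
      set c : ℂ := fis (x - y) f / fis (x - y) (x - y) with hc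
      refine ⟨u + c • (x - y), Submodule.add_mem _ (hS hu)
        (Submodule.smul_mem _ _ (Submodule.sub_mem _ hxm (hS hy))), fun g hg => ?_⟩
      have h1 : fis (x - y) (f - (u + c • (x - y))) = 0 := by
        rw [hsub, fis_add_right, fis_smul_right, hzero _ _ (hy' u hu), hc,
          div_mul_cancel₀ _ hp]
        ring
      have h2 : ∀ g ∈ Submodule.span ℂ (S : Set (AN N)), fis g (f - (u + c • (x - y))) = 0 := by
        intro g hg
        rw [← sub_sub, hsub, hu' g hg, fis_smul_right, hy' g hg]
        ring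
      have h3 : fis x (f - (u + c • (x - y))) = 0 := by
        apply hzero
        have h4 := hzero _ _ h1
        have h5 := hzero _ _ (h2 y hy)
        rw [hsub] at h4
        rw [h5, sub_zero] at h4
        exact h4
      apply hzero
      have h6 : Submodule.span ℂ ((insert x S : Finset (AN N)) : Set (AN N)) ≤
          ({ carrier := {g | fis (f - (u + c • (x - y))) g = 0}
             add_mem' := fun {a b} ha hb => by
               show fis _ (a + b) = 0
               rw [fis_add_right, ha, hb, add_zero]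
             zero_mem' := by
               show fis _ 0 = 0
               simp [fis]
             smul_mem' := fun r a ha => by
               show fis _ (r • a) = 0
               rw [fis_smul_right, ha, mul_zero] } : Submodule ℂ (AN N)) := by
        rw [Submodule.span_le]
        intro z hz
        rcases Finset.mem_insert.1 (Finset.mem_coe.1 hz) with rfl | hz
        · exact hzero _ _ h3
        · exact hzero _ _ (h2 z (Submodule.subset_span hz))
      exact h6 hg

/-- orthogonal complement of a finite dimensional graded piece -/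
theorem fis_decomp (d : ℕ) (L : Submodule ℂ (AN N)) (hL : L ≤ homogeneousSubmodule _ ℂ d)
    (f : AN N) (hf : f ∈ homogeneousSubmodule (Sym2 (Fin N)) ℂ d) :
    ∃ u ∈ L, f - u ∈ homogeneousSubmodule (Sym2 (Fin N)) ℂ d ∧ ∀ g ∈ L, fis g (f - u) = 0 := by
  have hfg : L.FG := by
    have h1 : (homogeneousSubmodule (Sym2 (Fin N)) ℂ d).FG := homogeneousSubmodule_fg _ _ _
    exact Submodule.FG.of_le h1 hL
  obtain ⟨u, hu, h⟩ := h1_proj L hfg f
  exact ⟨u, hu, Submodule.sub_mem _ hf (hL hu), h⟩

end MP50e386N
end

section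
/-! (h1): existence of highest weight vectors; substitution stable implies `Eop` stable. -/

namespace MP50e386N

open MvPolynomial

variable {N : ℕ}

private theorem H2_Eop_X (a b i j : Fin N) : Eop a b (X s(i, j) : AN N) =
    (if i = b then (X s(a, j) : AN N) else 0) + (if j = b then (X s(a, i) : AN N) else 0) := by
  unfold Eop
  rw [mkDerivation_X, Sym2.lift_mk]

private theorem H2_Eop_X_homog (a b : Fin N) (v : Sym2 (Fin N)) :
    (Eop a b (X v : AN N)).IsHomogeneous 1 := by
  induction v using Sym2.ind with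
  | _ i j =>
    rw [H2_Eop_X]
    refine IsHomogeneous.add ?_ ?_
    · split_ifs
      · exact isHomogeneous_X _ _
      · exact isHomogeneous_zero _ _ _
    · split_ifs
      · exact isHomogeneous_X _ _
      · exact isHomogeneous_zero _ _ _

theorem Eop_homog (a b : Fin N) {d : ℕ} {f : AN N}
    (hf : f ∈ homogeneousSubmodule (Sym2 (Fin N)) ℂ d) :
    Eop a b f ∈ homogeneousSubmodule (Sym2 (Fin N)) ℂ d := by
  rw [mem_homogeneousSubmodule] at hf
  rw [f.as_sum, map_sum]
  refine Submodule.sum_mem _ fun m hm => ?_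
  have hd : m.degree = d := by
    have := hf (mem_support_iff.1 hm)
    rw [Finsupp.weight_apply] at this
    rw [← this, Finsupp.degree_apply, Finsupp.sum]
    refine Finset.sum_congr rfl fun i _ => ?_
    simp
  have h1 : Eop a b (monomial m (coeff m f)) = coeff m f • m.sum fun i k =>
      (monomial (m - Finsupp.single i 1) (k : ℂ) : AN N) • Eop a b (X i) := by
    unfold Eop
    rw [mkDerivation_monomial]
    simp only [mkDerivation_X]
  rw [h1]
  refine Submodule.smul_mem _ _ ?_
  unfold Finsupp.sum
  refine Submodule.sum_mem _ fun i hi => ?_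
  beta_reduce
  rw [smul_eq_mul, mem_homogeneousSubmodule]
  have h2 : (m - Finsupp.single i 1).degree = d - 1 := by
    have h3 : Finsupp.single i 1 ≤ m := by
      rw [Finsupp.single_le_iff]
      exact Nat.one_le_iff_ne_zero.2 (Finsupp.mem_support_iff.1 hi)
    have h4 : (m - Finsupp.single i 1 + Finsupp.single i 1).degree = d := by
      rw [tsub_add_cancel_of_le h3, hd]
    rw [map_add, Finsupp.degree_single] at h4
    omega
  have h5 : 1 ≤ d := by
    rw [← hd]
    have h6 : m i ≤ m.degree := Finsupp.le_degree i m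
    have h7 := Nat.one_le_iff_ne_zero.2 (Finsupp.mem_support_iff.1 hi)
    omega
  have h8 : (monomial (m - Finsupp.single i 1) ((m i : ℕ) : ℂ) : AN N).IsHomogeneous (d - 1) :=
    isHomogeneous_monomial _ h2
  have h9 := h8.mul (H2_Eop_X_homog a b i)
  rwa [Nat.sub_add_cancel h5] at h9

/-- multiplicity of a letter in a variable -/
private def H2_mu (a : Fin N) : Sym2 (Fin N) → ℕ :=
  Sym2.lift ⟨fun i j => (if i = a then 1 else 0) + (if j = a then 1 else 0),
    fun _ _ => add_comm _ _⟩

/-- multiplicity of a letter in a monomial -/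
private def H2_wt (a : Fin N) (m : Sym2 (Fin N) →₀ ℕ) : ℕ := m.sum fun v k => k * H2_mu a v

private theorem H2_mu_mk (a i j : Fin N) :
    H2_mu a s(i, j) = (if i = a then 1 else 0) + (if j = a then 1 else 0) := rfl

private theorem H2_Eop_diag_X (a : Fin N) (v : Sym2 (Fin N)) :
    Eop a a (X v : AN N) = (H2_mu a v : ℂ) • X v := by
  induction v using Sym2.ind with
  | _ i j =>
    rw [H2_Eop_X, H2_mu_mk]
    push_cast
    rw [add_smul]
    congr 1
    · split_ifs with h
      · rw [h, one_smul]
      · rw [zero_smul]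
    · split_ifs with h
      · rw [h, one_smul, Sym2.eq_swap]
      · rw [zero_smul]

private theorem H2_Eop_diag_monomial (a : Fin N) (m : Sym2 (Fin N) →₀ ℕ) (c : ℂ) :
    Eop a a (monomial m c : AN N) = (H2_wt a m : ℂ) • monomial m c := by
  have h1 : Eop a a (monomial m c : AN N) = c • m.sum fun i k =>
      (monomial (m - Finsupp.single i 1) (k : ℂ) : AN N) • Eop a a (X i) := by
    unfold Eop
    rw [mkDerivation_monomial]
    simp only [mkDerivation_X]
  rw [h1]
  unfold H2_wt Finsupp.sum
  rw [Nat.cast_sum, Finset.sum_smul, Finset.smul_sum]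
  refine Finset.sum_congr rfl fun i hi => ?_
  beta_reduce
  rw [H2_Eop_diag_X]
  have h3 : Finsupp.single i 1 ≤ m := by
    rw [Finsupp.single_le_iff]
    exact Nat.one_le_iff_ne_zero.2 (Finsupp.mem_support_iff.1 hi)
  have h4 : (monomial (m - Finsupp.single i 1) ((m i : ℕ) : ℂ) : AN N) * X i =
      monomial m ((m i : ℕ) : ℂ) := by
    rw [X, monomial_mul, tsub_add_cancel_of_le h3, mul_one]
  rw [smul_eq_mul, mul_smul_comm, h4, smul_monomial, smul_monomial, smul_monomial]
  congr 1
  push_cast
  simp only [smul_eq_mul]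
  ring

private theorem H2_coeff_diag (a : Fin N) (f : AN N) (m : Sym2 (Fin N) →₀ ℕ) :
    coeff m (Eop a a f) = (H2_wt a m : ℂ) * coeff m f := by
  induction f using MvPolynomial.induction_on' with
  | monomial u c =>
    rw [H2_Eop_diag_monomial, coeff_smul, smul_eq_mul, coeff_monomial]
    split_ifs with h
    · rw [h]
    · rw [mul_zero, mul_zero]
  | add p q hp hq => rw [map_add, coeff_add, hp, hq, coeff_add, mul_add]

private def H2_dl (i j : Fin N) : ℂ := if i = j then 1 else 0

private theorem H2_dl_mul (i b c : Fin N) :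
    H2_dl i c * H2_dl c b = H2_dl i b * H2_dl c b := by
  unfold H2_dl
  by_cases h : c = b
  · subst h
    rfl
  · simp [h]

private theorem H2_dl_comm (i j : Fin N) : H2_dl i j = H2_dl j i := by
  unfold H2_dl
  simp only [eq_comm]

private theorem H2_Eop_X' (a b i j : Fin N) : Eop a b (X s(i, j) : AN N) =
    C (H2_dl i b) * X s(a, j) + C (H2_dl j b) * X s(a, i) := by
  rw [H2_Eop_X]
  unfold H2_dl
  congr 1
  · split_ifs <;> simp
  · split_ifs <;> simp

private theorem H2_Eop_C (a b : Fin N) (r : ℂ) (f : AN N) :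
    Eop a b (C r * f) = C r * Eop a b f := by
  rw [C_mul', C_mul', Derivation.map_smul]

private theorem H2_comm (c a b : Fin N) (f : AN N) :
    Eop c c (Eop a b f) = Eop a b (Eop c c f) + (H2_dl c a - H2_dl c b) • Eop a b f := by
  have h : ⁅(Eop c c : Derivation ℂ (AN N) (AN N)), Eop a b⁆ =
      (H2_dl c a - H2_dl c b) • Eop a b := by
    apply MvPolynomial.derivation_ext
    intro v
    induction v using Sym2.ind with
    | _ i j =>
      rw [Derivation.commutator_apply, Derivation.smul_apply]
      simp only [H2_Eop_X', map_add, H2_Eop_C, smul_eq_C_mul]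
      have e1 := congrArg (C : ℂ → AN N) (H2_dl_mul i b c)
      have e2 := congrArg (C : ℂ → AN N) (H2_dl_mul j b c)
      simp only [map_mul] at e1 e2
      rw [H2_dl_comm c a]
      simp only [map_sub]
      have s1 : (X s(c, j) : AN N) * C (H2_dl a c) = X s(a, j) * C (H2_dl a c) := by
        unfold H2_dl
        split_ifs with h
        · rw [h]
        · simp
      have s2 : (X s(c, i) : AN N) * C (H2_dl a c) = X s(a, i) * C (H2_dl a c) := by
        unfold H2_dl
        split_ifs with h
        · rw [h]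
        · simp
      have s3 : (X s(a, c) : AN N) * C (H2_dl j c) = X s(a, j) * C (H2_dl j c) := by
        unfold H2_dl
        split_ifs with h
        · rw [h]
        · simp
      have s4 : (X s(a, c) : AN N) * C (H2_dl i c) = X s(a, i) * C (H2_dl i c) := by
        unfold H2_dl
        split_ifs with h
        · rw [h]
        · simp
      have s5 : s(c, a) = s(a, c) := Sym2.eq_swap
      rw [s5]
      linear_combination C (H2_dl i b) * s1 + C (H2_dl i b) * s3 + C (H2_dl j b) * s2 +
        C (H2_dl j b) * s4 - C (H2_dl i b) * s3 - C (H2_dl j b) * s4 - X s(a, j) * e1 -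
        X s(a, i) * e2
  have h1 := congrArg (fun D : Derivation ℂ (AN N) (AN N) => D f) h
  simp only [Derivation.commutator_apply, Derivation.smul_apply] at h1
  rw [← h1]
  abel

private theorem H2_weights {f : AN N} {κ : Fin N → ℕ} :
    (∀ m ∈ f.support, ∀ a, H2_wt a m = κ a) ↔ ∀ a, Eop a a f = (κ a : ℂ) • f := by
  constructor
  · intro h a
    ext m
    rw [H2_coeff_diag, coeff_smul, smul_eq_mul]
    by_cases hm : m ∈ f.support
    · rw [h m hm a]
    · rw [notMem_support_iff.1 hm, mul_zero, mul_zero]
  · intro h m hm a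
    have h1 := congrArg (coeff m) (h a)
    rw [H2_coeff_diag, coeff_smul, smul_eq_mul] at h1
    have h2 := mul_right_cancel₀ (mem_support_iff.1 hm) h1
    exact_mod_cast h2

private theorem H2_mu_le (a : Fin N) (v : Sym2 (Fin N)) : H2_mu a v ≤ 2 := by
  induction v using Sym2.ind with
  | _ i j =>
    rw [H2_mu_mk]
    split_ifs <;> omega

private theorem H2_wt_le (a : Fin N) (m : Sym2 (Fin N) →₀ ℕ) : H2_wt a m ≤ 2 * m.degree := by
  unfold H2_wt Finsupp.sum
  rw [Finsupp.degree_apply, Finset.mul_sum]
  refine Finset.sum_le_sum fun v _ => ?_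
  have := Nat.mul_le_mul_left (m v) (H2_mu_le a v)
  linarith

private theorem H2_exists_weight (L : Submodule ℂ (AN N)) (hne : L ≠ ⊥)
    (hE : ∀ a b : Fin N, ∀ f ∈ L, Eop a b f ∈ L) :
    ∃ f ∈ L, f ≠ 0 ∧ ∃ κ : Fin N → ℕ, ∀ a, Eop a a f = (κ a : ℂ) • f := by
  classical
  obtain ⟨f0, hf0, hf00⟩ := Submodule.exists_mem_ne_zero_of_ne_bot hne
  have hex : ∃ n : ℕ, ∃ f ∈ L, f ≠ 0 ∧ f.support.card = n := ⟨_, f0, hf0, hf00, rfl⟩
  obtain ⟨f, hf, hf0', hfc⟩ := Nat.find_spec hex
  have hmin : ∀ g ∈ L, g ≠ 0 → f.support.card ≤ g.support.card := by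
    intro g hg hg0
    rw [hfc]
    exact Nat.find_min' hex ⟨g, hg, hg0, rfl⟩
  refine ⟨f, hf, hf0', ?_⟩
  obtain ⟨m, hm⟩ := support_nonempty.2 hf0'
  refine ⟨fun a => H2_wt a m, ?_⟩
  rw [← H2_weights]
  intro m' hm' a
  by_contra hne'
  set g : AN N := Eop a a f - (H2_wt a m : ℂ) • f with hg
  have hgL : g ∈ L := L.sub_mem (hE a a f hf) (L.smul_mem _ hf)
  have hgc : ∀ u, coeff u g = ((H2_wt a u : ℂ) - (H2_wt a m : ℂ)) * coeff u f := by
    intro u
    rw [hg, coeff_sub, H2_coeff_diag, coeff_smul, smul_eq_mul]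
    ring
  have hg0 : g ≠ 0 := by
    intro h0
    have h1 := hgc m'
    rw [h0, coeff_zero] at h1
    rcases mul_eq_zero.1 h1.symm with h2 | h2
    · rw [sub_eq_zero] at h2
      exact hne' (by exact_mod_cast h2)
    · exact mem_support_iff.1 hm' h2
  have hsub : g.support ⊂ f.support := by
    rw [Finset.ssubset_iff_of_subset]
    · refine ⟨m, hm, ?_⟩
      rw [notMem_support_iff, hgc, sub_self, zero_mul]
    · intro u hu
      rw [mem_support_iff, hgc] at hu
      exact mem_support_iff.2 (right_ne_zero_of_mul hu)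
  exact absurd (hmin g hgL hg0) (not_le.2 (Finset.card_lt_card hsub))

theorem exists_hw (d : ℕ) (L : Submodule ℂ (AN N))
    (hL : L ≤ homogeneousSubmodule (Sym2 (Fin N)) ℂ d) (hne : L ≠ ⊥)
    (hE : ∀ a b : Fin N, ∀ f ∈ L, Eop a b f ∈ L) :
    ∃ f ∈ L, f ≠ 0 ∧ (∃ κ : Fin N → ℕ, ∀ a, Eop a a f = (κ a : ℂ) • f) ∧
      ∀ a b : Fin N, a < b → Eop a b f = 0 := by
  classical
  obtain ⟨f0, hf0, hf00, κ0, hκ0⟩ := H2_exists_weight L hne hE
  -- the set of values of the potential
  let Φ : (Fin N → ℕ) → ℕ := fun κ => ∑ a : Fin N, κ a * (N - a.val)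
  let P : ℕ → Prop := fun n => ∃ f ∈ L, f ≠ 0 ∧ ∃ κ : Fin N → ℕ,
    (∀ a, Eop a a f = (κ a : ℂ) • f) ∧ Φ κ = n
  have hbd : ∀ n, P n → n ≤ ∑ a : Fin N, 2 * d * (N - a.val) := by
    rintro n ⟨f, hf, hf0, κ, hκ, rfl⟩
    refine Finset.sum_le_sum fun a _ => Nat.mul_le_mul_right _ ?_
    obtain ⟨m, hm⟩ := support_nonempty.2 hf0
    rw [← H2_weights.2 hκ m hm a]
    have hd : m.degree = d := by
      have h1 := hL hf
      rw [mem_homogeneousSubmodule] at h1
      have h2 := h1 (mem_support_iff.1 hm)
      rw [Finsupp.weight_apply] at h2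
      rw [← h2, Finsupp.degree_apply, Finsupp.sum]
      refine Finset.sum_congr rfl fun i _ => ?_
      simp
    rw [← hd]
    exact H2_wt_le a m
  have hP0 : P (Φ κ0) := ⟨f0, hf0, hf00, κ0, hκ0, rfl⟩
  set B := ∑ a : Fin N, 2 * d * (N - a.val) with hB
  set n0 := Nat.findGreatest P B with hn0
  have hPn : P n0 := Nat.findGreatest_spec (hbd _ hP0) hP0
  have hmax : ∀ n, P n → n ≤ n0 := fun n hn => Nat.le_findGreatest (hbd n hn) hn
  obtain ⟨f, hf, hf0', κ, hκ, hΦ⟩ := hPn
  refine ⟨f, hf, hf0', ⟨κ, hκ⟩, ?_⟩
  intro a b hab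
  by_contra hg0
  set g := Eop a b f with hg
  have hgL : g ∈ L := hE a b f hf
  obtain ⟨m, hm⟩ := support_nonempty.2 hg0
  have hgc : ∀ c, Eop c c g = ((κ c : ℂ) + (H2_dl c a - H2_dl c b)) • g := by
    intro c
    rw [hg, H2_comm, hκ, Derivation.map_smul, add_smul]
  have hw : ∀ c, (H2_wt c m : ℂ) = (κ c : ℂ) + (H2_dl c a - H2_dl c b) := by
    intro c
    have h1 := congrArg (coeff m) (hgc c)
    rw [H2_coeff_diag, coeff_smul, smul_eq_mul] at h1
    exact mul_right_cancel₀ (mem_support_iff.1 hm) h1
  have hgP : P (Φ fun c => H2_wt c m) := by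
    refine ⟨g, hgL, hg0, fun c => H2_wt c m, fun c => ?_, rfl⟩
    rw [hgc c, hw c]
  have h1 := hmax _ hgP
  rw [← hΦ] at h1
  have h2 : ((Φ fun c => H2_wt c m : ℕ) : ℂ) = ((Φ κ : ℕ) : ℂ) + ((N - a.val : ℕ) : ℂ) -
      ((N - b.val : ℕ) : ℂ) := by
    simp only [Φ]
    push_cast
    simp only [hw]
    have e1 : ∑ c : Fin N, H2_dl c a * ((N - c.val : ℕ) : ℂ) = ((N - a.val : ℕ) : ℂ) := by
      unfold H2_dl
      rw [Finset.sum_eq_single a]
      · simp
      · intro c _ hc
        rw [if_neg hc, zero_mul]
      · intro h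
        exact absurd (Finset.mem_univ _) h
    have e2 : ∑ c : Fin N, H2_dl c b * ((N - c.val : ℕ) : ℂ) = ((N - b.val : ℕ) : ℂ) := by
      unfold H2_dl
      rw [Finset.sum_eq_single b]
      · simp
      · intro c _ hc
        rw [if_neg hc, zero_mul]
      · intro h
        exact absurd (Finset.mem_univ _) h
    rw [← e1, ← e2, ← Finset.sum_add_distrib, ← Finset.sum_sub_distrib]
    refine Finset.sum_congr rfl fun c _ => ?_
    ring
  have h3 : (Φ fun c => H2_wt c m) + (N - b.val) = Φ κ + (N - a.val) := by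
    have : (((Φ fun c => H2_wt c m) + (N - b.val) : ℕ) : ℂ) = ((Φ κ + (N - a.val) : ℕ) : ℂ) := by
      rw [Nat.cast_add, Nat.cast_add, h2]
      ring
    exact_mod_cast this
  have ha := a.2
  have hb := b.2
  have hab' : a.val < b.val := hab
  omega

/-- the generic one parameter substitution `e_b ↦ e_b + T e_a` -/
private noncomputable def H2_psi (a b : Fin N) : AN N →ₐ[ℂ] Polynomial (AN N) :=
  aeval (Sym2.lift ⟨fun i j => Polynomial.C (X s(i, j) : AN N) +
      Polynomial.X * Polynomial.C (Eop a b (X s(i, j))) +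
      Polynomial.X ^ 2 * Polynomial.C ((if i = b then 1 else 0) * (if j = b then 1 else 0) *
        (X s(a, a) : AN N)), fun i j => by
      show Polynomial.C (X s(i, j) : AN N) + Polynomial.X * Polynomial.C (Eop a b (X s(i, j))) +
        Polynomial.X ^ 2 * Polynomial.C ((if i = b then 1 else 0) * (if j = b then 1 else 0) *
          (X s(a, a) : AN N)) = Polynomial.C (X s(j, i) : AN N) +
        Polynomial.X * Polynomial.C (Eop a b (X s(j, i))) +
        Polynomial.X ^ 2 * Polynomial.C ((if j = b then 1 else 0) * (if i = b then 1 else 0) *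
          (X s(a, a) : AN N))
      rw [Sym2.eq_swap, mul_comm (if i = b then (1 : AN N) else 0)]⟩)

private theorem H2_psi_X (a b i j : Fin N) : H2_psi a b (X s(i, j)) =
    Polynomial.C (X s(i, j) : AN N) + Polynomial.X * Polynomial.C (Eop a b (X s(i, j))) +
      Polynomial.X ^ 2 * Polynomial.C ((if i = b then 1 else 0) * (if j = b then 1 else 0) *
        (X s(a, a) : AN N)) := by
  unfold H2_psi
  rw [aeval_X, Sym2.lift_mk]

private theorem H2_psi_coeff (a b : Fin N) (f : AN N) :
    (H2_psi a b f).coeff 0 = f ∧ (H2_psi a b f).coeff 1 = Eop a b f := by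
  induction f using MvPolynomial.induction_on with
  | C r =>
    rw [← algebraMap_eq, AlgHom.commutes, Derivation.map_algebraMap]
    rw [IsScalarTower.algebraMap_apply ℂ (AN N) (Polynomial (AN N))]
    rw [Polynomial.algebraMap_eq]
    constructor
    · rw [Polynomial.coeff_C_zero]
    · rw [Polynomial.coeff_C, if_neg one_ne_zero]
  | add p q hp hq =>
    rw [map_add, Polynomial.coeff_add, Polynomial.coeff_add, hp.1, hp.2, hq.1, hq.2, map_add]
    exact ⟨rfl, rfl⟩
  | mul_X p v hp =>
    have hX : (H2_psi a b (X v)).coeff 0 = X v ∧ (H2_psi a b (X v)).coeff 1 = Eop a b (X v) := by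
      induction v using Sym2.ind with
      | _ i j =>
        rw [H2_psi_X]
        constructor
        · simp [Polynomial.coeff_X_pow]
        · simp [Polynomial.coeff_X_pow, Polynomial.coeff_C]
    rw [map_mul, Polynomial.mul_coeff_zero, Polynomial.mul_coeff_one, hp.1, hp.2, hX.1, hX.2,
      Derivation.leibniz]
    refine ⟨rfl, ?_⟩
    rw [smul_eq_mul, smul_eq_mul]
    ring

private theorem H2_psi_eval (a b : Fin N) (t : ℂ) (f : AN N) :
    (H2_psi a b f).eval (algebraMap ℂ (AN N) t) =
      subN (1 + t • Matrix.single a b (1 : ℂ)) f := by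
  have h : ((Polynomial.evalRingHom (algebraMap ℂ (AN N) t)).comp
      (H2_psi a b).toRingHom) = (subN (1 + t • Matrix.single a b (1 : ℂ))).toRingHom := by
    apply MvPolynomial.ringHom_ext
    · intro r
      have e1 : (H2_psi a b) (C r) = Polynomial.C (C r) := by
        rw [← algebraMap_eq, AlgHom.commutes,
          IsScalarTower.algebraMap_apply ℂ (AN N) (Polynomial (AN N)), Polynomial.algebraMap_eq]
      have e2 : (subN (1 + t • Matrix.single a b (1 : ℂ))) (C r : AN N) = C r := by
        rw [← algebraMap_eq, AlgHom.commutes]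
      simp only [RingHom.comp_apply, AlgHom.toRingHom_eq_coe, RingHom.coe_coe]
      rw [e1, e2, Polynomial.coe_evalRingHom, Polynomial.eval_C]
    · intro v
      induction v using Sym2.ind with
      | _ i j =>
        simp only [RingHom.comp_apply, AlgHom.toRingHom_eq_coe, RingHom.coe_coe]
        rw [H2_psi_X, Polynomial.coe_evalRingHom]
        simp only [Polynomial.eval_add, Polynomial.eval_mul, Polynomial.eval_C,
          Polynomial.eval_X, Polynomial.eval_pow]
        unfold subN
        rw [aeval_X, Sym2.lift_mk]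
        have hg : ∀ k i : Fin N, (1 + t • Matrix.single a b (1 : ℂ)) k i =
            H2_dl k i + t * (H2_dl k a * H2_dl i b) := by
          intro k i
          rw [Matrix.add_apply, Matrix.smul_apply, Matrix.one_apply, smul_eq_mul,
            Matrix.single_apply]
          unfold H2_dl
          congr 2
          by_cases h1 : k = a
          · by_cases h2 : i = b
            · simp [h1, h2]
            · simp [h1, h2, Ne.symm h2]
          · simp [h1, Ne.symm h1]
        have hs : ∀ (k : Fin N) (F : Fin N → AN N), ∑ l, C (H2_dl l k) * F l = F k := by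
          intro k F
          unfold H2_dl
          rw [Finset.sum_eq_single k]
          · simp
          · intro l _ hl
            rw [if_neg hl, map_zero, zero_mul]
          · intro h
            exact absurd (Finset.mem_univ _) h
        have hin : ∀ k : Fin N, ∑ l, C ((1 + t • Matrix.single a b (1 : ℂ)) k i *
            (1 + t • Matrix.single a b (1 : ℂ)) l j) * (X s(k, l) : AN N) =
            C (H2_dl k i + t * (H2_dl k a * H2_dl i b)) *
              (X s(k, j) + C (t * H2_dl j b) * X s(k, a)) := by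
          intro k
          rw [← hs j fun l => (X s(k, l) : AN N), ← hs a fun l => (X s(k, l) : AN N),
            Finset.mul_sum, ← Finset.sum_add_distrib, Finset.mul_sum]
          refine Finset.sum_congr rfl fun l _ => ?_
          rw [hg, hg]
          simp only [map_mul, map_add]
          ring
        simp only [hin]
        have hout : ∑ k, C (H2_dl k i + t * (H2_dl k a * H2_dl i b)) *
              ((X s(k, j) : AN N) + C (t * H2_dl j b) * X s(k, a)) =
            (X s(i, j) + C (t * H2_dl j b) * X s(i, a)) +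
              C (t * H2_dl i b) * (X s(a, j) + C (t * H2_dl j b) * X s(a, a)) := by
          rw [← hs i fun k => ((X s(k, j) : AN N) + C (t * H2_dl j b) * X s(k, a)),
            ← hs a fun k => ((X s(k, j) : AN N) + C (t * H2_dl j b) * X s(k, a)),
            Finset.mul_sum, ← Finset.sum_add_distrib]
          refine Finset.sum_congr rfl fun k _ => ?_
          simp only [map_mul, map_add]
          ring
        rw [hout, H2_Eop_X', algebraMap_eq]
        have e1 : (if i = b then (1 : AN N) else 0) = C (H2_dl i b) := by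
          unfold H2_dl
          split_ifs <;> simp
        have e2 : (if j = b then (1 : AN N) else 0) = C (H2_dl j b) := by
          unfold H2_dl
          split_ifs <;> simp
        have e3 : s(i, a) = s(a, i) := Sym2.eq_swap
        rw [e1, e2, e3]
        simp only [map_mul]
        ring
  have h1 := congrArg (fun F : AN N →+* AN N => F f) h
  simpa using h1

/-- a subspace stable under all linear substitutions is `Eop` stable -/
theorem Eop_mem_of_subN (L : Submodule ℂ (AN N))
    (h : ∀ g : Matrix (Fin N) (Fin N) ℂ, ∀ f ∈ L, subN g f ∈ L) (a b : Fin N) (f : AN N)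
    (hf : f ∈ L) : Eop a b f ∈ L := by
  rw [← (H2_psi_coeff a b f).2]
  refine MP50e386.coeff_mem_of_infinite L (H2_psi a b f) Set.univ Set.infinite_univ ?_ 1
  intro t _
  rw [H2_psi_eval]
  exact h _ f hf

end MP50e386N
end
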