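import Mathlib
import Pool.Agent.Lib.MP_50e386_al.B.Hc
import Pool.Agent.Lib.MP_50e386_al.B.Hb

section
/-! (j1), (j2), (j3) and stability of `J_{r|s}` (paper section 1). -/

namespace MP50e386N

open MvPolynomial MP50e386

/-- homogeneous components of stable ideals -/
theorem h7_homog (J : Ideal MP50e386.A)
    (hJ : ∀ (w : ℕ → MP50e386.V) (f : MP50e386.A), f ∈ J → MP50e386.sub w f ∈ J)
    (f : MP50e386.A) (hf : f ∈ J) (d : ℕ) : homogeneousComponent d f ∈ J := by
  have hid : ∀ g : MP50e386.A, MP50e386.sub (fun i => MP50e386.ee i) g = g := by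
    intro g
    have : MP50e386.sub (fun i => MP50e386.ee i) = AlgHom.id ℂ MP50e386.A := by
      apply MvPolynomial.algHom_ext
      intro x
      induction x using Sym2.ind with
      | _ i j => rw [sub_X, bil_ee, AlgHom.id_apply]
    rw [this, AlgHom.id_apply]
  set P : Polynomial MP50e386.A := ∑ k ∈ Finset.range (f.totalDegree + 1),
    Polynomial.monomial (2 * k) (homogeneousComponent k f) with hP
  have hev : ∀ s ∈ (Set.univ : Set ℂ),
      P.eval (algebraMap ℂ MP50e386.A s) ∈ J.restrictScalars ℂ := by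
    intro s _
    have h1 : P.eval (algebraMap ℂ MP50e386.A s) =
        MP50e386.sub (fun i => s • MP50e386.ee i) f := by
      conv_rhs => rw [← sum_homogeneousComponent f]
      rw [map_sum, hP, Polynomial.eval_finsetSum]
      refine Finset.sum_congr rfl fun k _ => ?_
      rw [sub_smul_homog (homogeneousComponent_isHomogeneous k f), hid, Polynomial.eval_monomial,
        ← map_pow, Algebra.smul_def, mul_comm]
    rw [h1]
    exact hJ _ f hf
  have h2 := coeff_mem_of_infinite (J.restrictScalars ℂ) P Set.univ Set.infinite_univ hev (2 * d)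
  have h3 : P.coeff (2 * d) = homogeneousComponent d f := by
    rw [hP, Polynomial.finsetSum_coeff]
    by_cases hd : d < f.totalDegree + 1
    · rw [Finset.sum_eq_single d]
      · rw [Polynomial.coeff_monomial, if_pos rfl]
      · intro b _ hb
        rw [Polynomial.coeff_monomial, if_neg (by omega)]
      · intro h
        exact absurd (Finset.mem_range.2 hd) h
    · rw [homogeneousComponent_eq_zero _ _ (by omega)]
      refine Finset.sum_eq_zero fun b hb => ?_
      rw [Finset.mem_range] at hb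
      rw [Polynomial.coeff_monomial, if_neg (by omega)]
  rw [h3] at h2
  exact h2

/-! ### the bilinear form in `EB` -/

/-- the even coordinates of a vector -/
noncomputable def gP {r : ℕ} (a : Fin r) : MP50e386.V →ₗ[ℂ] PG r :=
  Finsupp.linearCombination ℂ (fun k => (X (k, a) : PG r))

/-- the odd coordinates of a vector -/
noncomputable def mV {r s : ℕ} (b : Fin s ⊕ Fin s) :
    MP50e386.V →ₗ[ℂ] ((ℕ × (Fin s ⊕ Fin s)) →₀ PG r) :=
  Finsupp.linearCombination ℂ (fun k => (Finsupp.single (k, b) 1 :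
    (ℕ × (Fin s ⊕ Fin s)) →₀ PG r))

/-- the odd coordinates of a vector, in `EB` -/
noncomputable def tV {r s : ℕ} (b : Fin s ⊕ Fin s) (v : MP50e386.V) : EB r s :=
  ExteriorAlgebra.ι (PG r) (mV b v)

/-- the even coordinates of a vector, in `EB` -/
noncomputable def gV {r s : ℕ} (a : Fin r) (v : MP50e386.V) : EB r s :=
  algebraMap (PG r) (EB r s) (gP a v)

theorem gP_ee {r : ℕ} (a : Fin r) (k : ℕ) : gP a (MP50e386.ee k) = X (k, a) := by
  unfold gP MP50e386.ee
  rw [Finsupp.linearCombination_single, one_smul]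

theorem tV_ee {r s : ℕ} (b : Fin s ⊕ Fin s) (k : ℕ) :
    (tV b (MP50e386.ee k) : EB r s) = th k b := by
  unfold tV th mV MP50e386.ee
  rw [Finsupp.linearCombination_single, one_smul]

theorem gV_ee {r s : ℕ} (a : Fin r) (k : ℕ) :
    (gV a (MP50e386.ee k) : EB r s) = gg k a := by
  unfold gV gg
  rw [gP_ee]

theorem tV_add {r s : ℕ} (b : Fin s ⊕ Fin s) (v v' : MP50e386.V) :
    (tV b (v + v') : EB r s) = tV b v + tV b v' := by
  unfold tV
  rw [map_add, map_add]

theorem gV_add {r s : ℕ} (a : Fin r) (v v' : MP50e386.V) :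
    (gV a (v + v') : EB r s) = gV a v + gV a v' := by
  unfold gV
  rw [map_add, map_add]

theorem tV_zero {r s : ℕ} (b : Fin s ⊕ Fin s) : (tV b 0 : EB r s) = 0 := by
  unfold tV
  rw [map_zero, map_zero]

theorem gV_zero {r s : ℕ} (a : Fin r) : (gV a 0 : EB r s) = 0 := by
  unfold gV
  rw [map_zero, map_zero]

theorem tV_smul {r s : ℕ} (b : Fin s ⊕ Fin s) (c : ℂ) (v : MP50e386.V) :
    (tV b (c • v) : EB r s) = c • tV b v := by
  unfold tV
  rw [map_smul, ← algebraMap_smul (PG r) c (mV b v), map_smul, algebraMap_smul]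

theorem gV_smul {r s : ℕ} (a : Fin r) (c : ℂ) (v : MP50e386.V) :
    (gV a (c • v) : EB r s) = c • gV a v := by
  unfold gV
  rw [map_smul, Algebra.smul_def, map_mul, Algebra.smul_def, EB_algebraMap]

theorem tV_swap {r s : ℕ} (b b' : Fin s ⊕ Fin s) (v v' : MP50e386.V) :
    (tV b v * tV b' v' : EB r s) = -(tV b' v' * tV b v) := by
  rw [eq_neg_iff_add_eq_zero]
  exact ExteriorAlgebra.ι_add_mul_swap _ _

/-- the symmetric bilinear form -/
noncomputable def xV {r s : ℕ} (v v' : MP50e386.V) : EB r s :=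
  ∑ a, gV a v * gV a v' + ∑ c : Fin s, (tV (Sum.inl c) v * tV (Sum.inr c) v'
    - tV (Sum.inr c) v * tV (Sum.inl c) v')

theorem xV_add_left {r s : ℕ} (v v' u : MP50e386.V) :
    (xV (v + v') u : EB r s) = xV v u + xV v' u := by
  unfold xV
  simp only [gV_add, tV_add, add_mul]
  rw [Finset.sum_add_distrib]
  have : ∀ c : Fin s, ((tV (Sum.inl c) v * tV (Sum.inr c) u + tV (Sum.inl c) v' *
      tV (Sum.inr c) u - (tV (Sum.inr c) v * tV (Sum.inl c) u + tV (Sum.inr c) v' *
      tV (Sum.inl c) u) : EB r s)) = (tV (Sum.inl c) v * tV (Sum.inr c) u -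
      tV (Sum.inr c) v * tV (Sum.inl c) u) + (tV (Sum.inl c) v' * tV (Sum.inr c) u -
      tV (Sum.inr c) v' * tV (Sum.inl c) u) := fun c => by abel
  simp only [this]
  rw [Finset.sum_add_distrib]
  abel

theorem xV_add_right {r s : ℕ} (u v v' : MP50e386.V) :
    (xV u (v + v') : EB r s) = xV u v + xV u v' := by
  unfold xV
  simp only [gV_add, tV_add, mul_add]
  rw [Finset.sum_add_distrib]
  have : ∀ c : Fin s, ((tV (Sum.inl c) u * tV (Sum.inr c) v + tV (Sum.inl c) u *
      tV (Sum.inr c) v' - (tV (Sum.inr c) u * tV (Sum.inl c) v + tV (Sum.inr c) u *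
      tV (Sum.inl c) v') : EB r s)) = (tV (Sum.inl c) u * tV (Sum.inr c) v -
      tV (Sum.inr c) u * tV (Sum.inl c) v) + (tV (Sum.inl c) u * tV (Sum.inr c) v' -
      tV (Sum.inr c) u * tV (Sum.inl c) v') := fun c => by abel
  simp only [this]
  rw [Finset.sum_add_distrib]
  abel

theorem xV_zero_left {r s : ℕ} (u : MP50e386.V) : (xV 0 u : EB r s) = 0 := by
  unfold xV
  simp only [gV_zero, tV_zero, zero_mul, sub_zero, Finset.sum_const_zero, add_zero]

theorem xV_zero_right {r s : ℕ} (u : MP50e386.V) : (xV u 0 : EB r s) = 0 := by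
  unfold xV
  simp only [gV_zero, tV_zero, mul_zero, sub_zero, Finset.sum_const_zero, add_zero]

theorem xV_smul_left {r s : ℕ} (c : ℂ) (v u : MP50e386.V) :
    (xV (c • v) u : EB r s) = c • xV v u := by
  unfold xV
  simp only [gV_smul, tV_smul, smul_mul_assoc]
  rw [smul_add, Finset.smul_sum, Finset.smul_sum]
  simp only [smul_sub]

theorem xV_smul_right {r s : ℕ} (c : ℂ) (v u : MP50e386.V) :
    (xV u (c • v) : EB r s) = c • xV u v := by
  unfold xV
  simp only [gV_smul, tV_smul, mul_smul_comm]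
  rw [smul_add, Finset.smul_sum, Finset.smul_sum]
  simp only [smul_sub]

theorem evE_bil {r s : ℕ} (v u : MP50e386.V) :
    ((evE r s (bil v u) : Subalgebra.center ℂ (EB r s)) : EB r s) = xV v u := by
  induction v using Finsupp.induction_linear with
  | zero =>
    rw [map_zero, LinearMap.zero_apply, map_zero, xV_zero_left]
    rfl
  | add f g hf hg =>
    rw [map_add, LinearMap.add_apply, map_add, xV_add_left, ← hf, ← hg]
    rfl
  | single i a =>
    induction u using Finsupp.induction_linear with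
    | zero =>
      rw [map_zero, map_zero, xV_zero_right]
      rfl
    | add f g hf hg =>
      rw [map_add, map_add, xV_add_right, ← hf, ← hg]
      rfl
    | single j b =>
      have e1 : (Finsupp.single i a : MP50e386.V) = a • MP50e386.ee i := by
        unfold MP50e386.ee
        rw [Finsupp.smul_single, smul_eq_mul, mul_one]
      have e2 : (Finsupp.single j b : MP50e386.V) = b • MP50e386.ee j := by
        unfold MP50e386.ee
        rw [Finsupp.smul_single, smul_eq_mul, mul_one]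
      have e4 : bil (a • MP50e386.ee i) (b • MP50e386.ee j) =
          a • b • (X s(i, j) : MP50e386.A) := by
        rw [LinearMap.map_smul₂, map_smul, bil_ee]
      rw [e1, e2, e4, xV_smul_left, xV_smul_right, map_smul, map_smul, h6_evE_X]
      have e3 : (xV (MP50e386.ee i) (MP50e386.ee j) : EB r s) = xE r s i j := by
        unfold xV xE
        simp only [gV_ee, tV_ee]
      rw [e3]
      rfl

theorem h7_exists_sub (r s : ℕ) (w : ℕ → MP50e386.V) : ∃ Ψ : EB r s →+* EB r s,
    (∀ c : ℂ, Ψ (algebraMap ℂ (EB r s) c) = algebraMap ℂ (EB r s) c) ∧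
    (∀ i (a : Fin r), Ψ (gg i a) = gV a (w i)) ∧
    ∀ i b, Ψ (th i b) = tV b (w i) := by
  obtain ⟨Ψ, h1, h2⟩ := exists_lift (r := r) (s := s)
    ((IsScalarTower.toAlgHom ℂ (PG r) (EB r s)).comp
      (aeval (fun p : ℕ × Fin r => gP p.2 (w p.1))))
    (fun p x => Algebra.commutes (aeval (fun p : ℕ × Fin r => gP p.2 (w p.1)) p) x)
    (fun x => tV x.2 (w x.1)) (fun x y => tV_swap _ _ _ _)
  refine ⟨Ψ, ?_, ?_, h2⟩
  · intro c
    rw [EB_algebraMap, h1]
    exact AlgHom.commutes _ c
  · intro i a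
    unfold gg
    rw [h1, AlgHom.comp_apply, aeval_X]
    rfl

/-- `J_{r|s}` is stable under all linear substitutions -/
theorem Jrs_stable (r s : ℕ) (w : ℕ → MP50e386.V) (f : MP50e386.A) (hf : f ∈ Jrs r s) :
    MP50e386.sub w f ∈ Jrs r s := by
  unfold Jrs at hf ⊢
  rw [RingHom.mem_ker] at hf ⊢
  obtain ⟨Ψ, h0, h1, h2⟩ := h7_exists_sub r s w
  have h3 : (Ψ.comp (((Subalgebra.center ℂ (EB r s)).val : _ →+* EB r s).comp
      (evE r s : MP50e386.A →+* Subalgebra.center ℂ (EB r s)))) =
      (((Subalgebra.center ℂ (EB r s)).val : _ →+* EB r s).comp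
        ((evE r s : MP50e386.A →+* Subalgebra.center ℂ (EB r s)).comp
          (MP50e386.sub w : MP50e386.A →+* MP50e386.A))) := by
    apply MvPolynomial.ringHom_ext
    · intro c
      simp only [RingHom.comp_apply, RingHom.coe_coe]
      have e1 : evE r s (C c) = algebraMap ℂ _ c := (evE r s).commutes c
      have e2 : MP50e386.sub w (C c) = C c := (MP50e386.sub w).commutes c
      rw [e1, e2, e1]
      exact h0 c
    · intro v
      simp only [RingHom.comp_apply, RingHom.coe_coe]
      induction v using Sym2.ind with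
      | _ i j =>
        rw [h6_evE_X, sub_X]
        refine Eq.trans ?_ (evE_bil (w i) (w j)).symm
        change Ψ (xE r s i j) = _
        unfold xE xV
        rw [map_add, map_sum, map_sum]
        simp only [map_mul, map_sub, h1, h2]
  have h4 := congrArg (fun F : MP50e386.A →+* EB r s => F f) h3
  simp only [RingHom.comp_apply, RingHom.coe_coe] at h4
  have hf' : evE r s f = 0 := hf
  rw [hf', map_zero, map_zero] at h4
  exact Subtype.ext h4.symm

theorem Jrs_homog (r s : ℕ) (f : MP50e386.A) (hf : f ∈ Jrs r s) (d : ℕ) :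
    homogeneousComponent d f ∈ Jrs r s :=
  h7_homog (Jrs r s) (fun w f hf => Jrs_stable r s w f hf) f hf d

/-! ### the filtration by words -/

section words

variable {K M : Type} [CommRing K] [AddCommGroup M] [Module K M]

/-- words with `k` letters in `B` -/
def Fw (B : Set M) (k : ℕ) : AddSubgroup (ExteriorAlgebra K M) :=
  AddSubgroup.closure {x | ∃ (m : Fin k → M) (y : ExteriorAlgebra K M), (∀ i, m i ∈ B) ∧
    x = ExteriorAlgebra.ιMulti K k m * y}

theorem Fw_word {B : Set M} {k : ℕ} (m : Fin k → M) (hm : ∀ i, m i ∈ B)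
    (y : ExteriorAlgebra K M) : ExteriorAlgebra.ιMulti K k m * y ∈ Fw B k :=
  AddSubgroup.subset_closure ⟨m, y, hm, rfl⟩

theorem Fw_mul_right {B : Set M} {k : ℕ} {x : ExteriorAlgebra K M} (hx : x ∈ Fw B k)
    (y : ExteriorAlgebra K M) : x * y ∈ Fw B k := by
  induction hx using AddSubgroup.closure_induction with
  | mem x hx =>
    obtain ⟨m, z, hm, rfl⟩ := hx
    rw [mul_assoc]
    exact Fw_word m hm _
  | zero => rw [zero_mul]; exact zero_mem _
  | add a b _ _ ha hb => rw [add_mul]; exact add_mem ha hb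
  | neg a _ ha => rw [neg_mul]; exact neg_mem ha

theorem word_comm_iota {k : ℕ} (n : M) (m : Fin k → M) : ∃ y' : ExteriorAlgebra K M,
    ExteriorAlgebra.ι K n * ExteriorAlgebra.ιMulti K k m =
      ExteriorAlgebra.ιMulti K k m * y' := by
  induction k with
  | zero => exact ⟨ExteriorAlgebra.ι K n, by simp⟩
  | succ k ih =>
    obtain ⟨y', hy⟩ := ih (Matrix.vecTail m)
    refine ⟨-y', ?_⟩
    have h := ExteriorAlgebra.ι_add_mul_swap (R := K) n (m 0)
    rw [← eq_neg_iff_add_eq_zero] at h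
    rw [ExteriorAlgebra.ιMulti_succ_apply, ← mul_assoc, h, neg_mul, mul_assoc, hy, mul_neg,
      mul_assoc]

theorem word_comm {k : ℕ} (y : ExteriorAlgebra K M) (m : Fin k → M) :
    ∃ y' : ExteriorAlgebra K M, y * ExteriorAlgebra.ιMulti K k m =
      ExteriorAlgebra.ιMulti K k m * y' := by
  induction y using ExteriorAlgebra.induction with
  | algebraMap c => exact ⟨_, Algebra.commutes c _⟩
  | ι n => exact word_comm_iota n m
  | mul a b ha hb =>
    obtain ⟨a', ha'⟩ := ha
    obtain ⟨b', hb'⟩ := hb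
    refine ⟨a' * b', ?_⟩
    rw [mul_assoc, hb', ← mul_assoc, ha', mul_assoc]
  | add a b ha hb =>
    obtain ⟨a', ha'⟩ := ha
    obtain ⟨b', hb'⟩ := hb
    refine ⟨a' + b', ?_⟩
    rw [add_mul, ha', hb', mul_add]

theorem Fw_mul {B : Set M} {k l : ℕ} {x y : ExteriorAlgebra K M} (hx : x ∈ Fw B k)
    (hy : y ∈ Fw B l) : x * y ∈ Fw B (k + l) := by
  induction hx using AddSubgroup.closure_induction with
  | mem x hx =>
    obtain ⟨m, z, hm, rfl⟩ := hx
    induction hy using AddSubgroup.closure_induction with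
    | mem y hy =>
      obtain ⟨m', z', hm', rfl⟩ := hy
      obtain ⟨z'', hz⟩ := word_comm z m'
      rw [mul_assoc, ← mul_assoc z, hz, mul_assoc _ z'' z', ← mul_assoc,
        ExteriorAlgebra.ιMulti_mul_ιMulti]
      apply Fw_word
      intro i
      refine Fin.addCases (fun a => ?_) (fun a => ?_) i
      · rw [Fin.append_left]; exact hm a
      · rw [Fin.append_right]; exact hm' a
    | zero => rw [mul_zero]; exact zero_mem _
    | add a b _ _ ha hb => rw [mul_add]; exact add_mem ha hb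
    | neg a _ ha => rw [mul_neg]; exact neg_mem ha
  | zero => rw [zero_mul]; exact zero_mem _
  | add a b _ _ ha hb => rw [add_mul]; exact add_mem ha hb
  | neg a _ ha => rw [neg_mul]; exact neg_mem ha

theorem Fw_mul' {B : Set M} {k l n : ℕ} (h : k + l = n) {x y : ExteriorAlgebra K M}
    (hx : x ∈ Fw B k) (hy : y ∈ Fw B l) : x * y ∈ Fw B n := by
  subst h
  exact Fw_mul hx hy

theorem Fw_pow {B : Set M} {k : ℕ} {x : ExteriorAlgebra K M} (hx : x ∈ Fw B k) (n : ℕ) :
    x ^ n ∈ Fw B (k * n) := by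
  induction n with
  | zero =>
    rw [pow_zero, mul_zero]
    have := Fw_word (K := K) (B := B) (k := 0) (fun i => i.elim0) (fun i => i.elim0) 1
    simpa using this
  | succ n ih =>
    rw [pow_succ, mul_add, mul_one]
    exact Fw_mul ih hx

theorem Fw_iota {B : Set M} {m : M} (hm : m ∈ B) : ExteriorAlgebra.ι K m ∈ Fw B 1 := by
  have := Fw_word (K := K) (B := B) (k := 1) (fun _ => m) (fun _ => hm) 1
  simpa using this

theorem Fw_mul_left {B : Set M} {k : ℕ} {x : ExteriorAlgebra K M} (hx : x ∈ Fw B k)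
    (y : ExteriorAlgebra K M) : y * x ∈ Fw B k := by
  have h : y ∈ Fw B 0 := by
    have := Fw_word (K := K) (B := B) (k := 0) (fun i => i.elim0) (fun i => i.elim0) y
    simpa using this
  have h2 := Fw_mul h hx
  rwa [zero_add] at h2

theorem Fw_sum2 {B : Set M} {s : ℕ} (m : (Fin s ⊕ Fin s) → M) (hm : ∀ b, m b ∈ B) :
    ∑ c : Fin s, (ExteriorAlgebra.ι K (m (Sum.inl c)) * ExteriorAlgebra.ι K (m (Sum.inr c)) -
        ExteriorAlgebra.ι K (m (Sum.inr c)) * ExteriorAlgebra.ι K (m (Sum.inl c))) ∈ Fw B 2 := by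
  refine sum_mem fun c _ => sub_mem ?_ ?_
  · exact Fw_mul' (k := 1) (l := 1) (n := 2) rfl (Fw_iota (hm _)) (Fw_iota (hm _))
  · exact Fw_mul' (k := 1) (l := 1) (n := 2) rfl (Fw_iota (hm _)) (Fw_iota (hm _))

theorem Fw_sum1 {B : Set M} {s : ℕ} (m n : (Fin s ⊕ Fin s) → M) (hm : ∀ b, m b ∈ B) :
    ∑ c : Fin s, (ExteriorAlgebra.ι K (m (Sum.inl c)) * ExteriorAlgebra.ι K (n (Sum.inr c)) -
        ExteriorAlgebra.ι K (m (Sum.inr c)) * ExteriorAlgebra.ι K (n (Sum.inl c))) ∈ Fw B 1 := by
  refine sum_mem fun c _ => sub_mem ?_ ?_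
  · exact Fw_mul_right (Fw_iota (hm _)) _
  · exact Fw_mul_right (Fw_iota (hm _)) _

theorem Fw_sum1' {B : Set M} {s : ℕ} (m n : (Fin s ⊕ Fin s) → M) (hn : ∀ b, n b ∈ B) :
    ∑ c : Fin s, (ExteriorAlgebra.ι K (m (Sum.inl c)) * ExteriorAlgebra.ι K (n (Sum.inr c)) -
        ExteriorAlgebra.ι K (m (Sum.inr c)) * ExteriorAlgebra.ι K (n (Sum.inl c))) ∈ Fw B 1 := by
  refine sum_mem fun c _ => sub_mem ?_ ?_
  · exact Fw_mul_left (Fw_iota (hn _)) _
  · exact Fw_mul_left (Fw_iota (hn _)) _

theorem Fw_eq_bot {ι : Type} [Fintype ι] (b : ι → M) {k : ℕ} (hk : Fintype.card ι < k)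
    {x : ExteriorAlgebra K M} (hx : x ∈ Fw (Set.range b) k) : x = 0 := by
  induction hx using AddSubgroup.closure_induction with
  | mem x hx =>
    obtain ⟨m, z, hm, rfl⟩ := hx
    choose φ hφ using hm
    have hni : ¬ Function.Injective m := by
      intro hinj
      have h1 : Function.Injective φ := by
        intro i j hij
        apply hinj
        rw [← hφ, ← hφ, hij]
      have h2 := Fintype.card_le_of_injective φ h1
      rw [Fintype.card_fin] at h2
      omega
    rw [ExteriorAlgebra.ιMulti_eq_zero_of_not_inj hni, zero_mul]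
  | zero => rfl
  | add a b _ _ ha hb => rw [ha, hb, add_zero]
  | neg a _ ha => rw [ha, neg_zero]

end words

/-! ### the centre -/

/-- `PG r → center` -/
noncomputable def aZ (r s : ℕ) : PG r →+* Subalgebra.center ℂ (EB r s) where
  toFun p := ⟨algebraMap (PG r) (EB r s) p, by
    rw [Subalgebra.mem_center_iff]
    intro y
    exact (Algebra.commutes p y).symm⟩
  map_one' := Subtype.ext (map_one _)
  map_mul' p q := Subtype.ext (map_mul _ p q)
  map_zero' := Subtype.ext (map_zero _)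
  map_add' p q := Subtype.ext (map_add _ p q)

theorem aZ_coe (r s : ℕ) (p : PG r) :
    ((aZ r s p : Subalgebra.center ℂ (EB r s)) : EB r s) = algebraMap (PG r) (EB r s) p := rfl

theorem aZ_mul_eq_zero {r s : ℕ} {p : PG r} {z : Subalgebra.center ℂ (EB r s)}
    (h : aZ r s p * z = 0) (hp : p ≠ 0) : z = 0 := by
  apply Subtype.ext
  have h1 := congrArg (fun z : Subalgebra.center ℂ (EB r s) => (z : EB r s)) h
  exact EB_smul_eq_zero h1 hp

/-- the filtration on the centre -/
noncomputable def FZ {r s : ℕ} (B : Set ((ℕ × (Fin s ⊕ Fin s)) →₀ PG r)) (k : ℕ) :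
    Ideal (Subalgebra.center ℂ (EB r s)) where
  carrier := {z | (z : EB r s) ∈ Fw B k}
  add_mem' {a b} ha hb := by
    change ((a + b : Subalgebra.center ℂ (EB r s)) : EB r s) ∈ Fw B k
    rw [Subalgebra.coe_add]
    exact add_mem ha hb
  zero_mem' := by
    change ((0 : Subalgebra.center ℂ (EB r s)) : EB r s) ∈ Fw B k
    rw [Subalgebra.coe_zero]
    exact zero_mem _
  smul_mem' c x hx := by
    change ((c * x : Subalgebra.center ℂ (EB r s)) : EB r s) ∈ Fw B k
    rw [Subalgebra.coe_mul]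
    exact Fw_mul_left hx _

theorem FZ_mem {r s : ℕ} (B : Set ((ℕ × (Fin s ⊕ Fin s)) →₀ PG r)) (k : ℕ)
    (z : Subalgebra.center ℂ (EB r s)) :
    z ∈ FZ B k ↔ (z : EB r s) ∈ Fw B k := Iff.rfl

theorem FZ_mul {r s : ℕ} {B : Set ((ℕ × (Fin s ⊕ Fin s)) →₀ PG r)} {k l n : ℕ} (h : k + l = n)
    {x y : Subalgebra.center ℂ (EB r s)} (hx : x ∈ FZ B k) (hy : y ∈ FZ B l) :
    x * y ∈ FZ B n :=
  Fw_mul' (B := B) h ((FZ_mem B k x).1 hx) ((FZ_mem B l y).1 hy)

theorem FZ_pow {r s : ℕ} {B : Set ((ℕ × (Fin s ⊕ Fin s)) →₀ PG r)} {k : ℕ}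
    {x : Subalgebra.center ℂ (EB r s)} (hx : x ∈ FZ B k) (n : ℕ) : x ^ n ∈ FZ B (k * n) := by
  induction n with
  | zero =>
    have h := Fw_pow (B := B) ((FZ_mem B k x).1 hx) 0
    rw [FZ_mem, Subalgebra.coe_pow]
    exact h
  | succ n ih =>
    rw [pow_succ]
    exact FZ_mul (by ring) ih hx

theorem FZ_eq_zero {r s : ℕ} {ι : Type} [Fintype ι] (b : ι → ((ℕ × (Fin s ⊕ Fin s)) →₀ PG r))
    {k : ℕ} (hk : Fintype.card ι < k) {x : Subalgebra.center ℂ (EB r s)}
    (hx : x ∈ FZ (Set.range b) k) : x = 0 :=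
  Subtype.ext (Fw_eq_bot b hk ((FZ_mem _ k x).1 hx))

/-- determinant of a matrix whose first row and column are small -/
theorem h7_det {R : Type} [CommRing R] {n : ℕ} (I1 I2 : Ideal R)
    (h12 : ∀ x ∈ I1, ∀ y ∈ I1, x * y ∈ I2) (Q : Matrix (Fin (n + 1)) (Fin (n + 1)) R)
    (h00 : Q 0 0 ∈ I2) (h0j : ∀ j, Q 0 j ∈ I1) (hj0 : ∀ j, Q j 0 ∈ I1) : Q.det ∈ I2 := by
  rw [Matrix.det_apply']
  refine Ideal.sum_mem _ fun σ _ => Ideal.mul_mem_left _ _ ?_
  by_cases h : σ 0 = 0
  · rw [← Finset.mul_prod_erase _ _ (Finset.mem_univ 0), h]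
    exact Ideal.mul_mem_right _ _ h00
  · have h1 : σ.symm 0 ∈ Finset.univ.erase (0 : Fin (n + 1)) := by
      rw [Finset.mem_erase]
      refine ⟨?_, Finset.mem_univ _⟩
      intro h2
      apply h
      rw [← h2, Equiv.apply_symm_apply, h2]
    rw [← Finset.mul_prod_erase _ _ (Finset.mem_univ 0), ← Finset.mul_prod_erase _ _ h1,
      ← mul_assoc, Equiv.apply_symm_apply]
    exact Ideal.mul_mem_right _ _ (h12 _ (hj0 _) _ (h0j _))

/-! ### (j1) -/

/-- the matrix with first column `e_0` and the even coordinates -/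
noncomputable def h7A (r : ℕ) : Matrix (Fin (r + 1)) (Fin (r + 1)) (PG r) :=
  Matrix.of fun i j => Fin.cases (if i = 0 then 1 else 0) (fun a => X (i.val, a)) j

theorem h7A_det (r : ℕ) : (h7A r).det ≠ 0 := by
  intro h
  have h1 := congrArg (aeval (fun p : ℕ × Fin r => if p.1 = p.2.val + 1 then (1 : ℂ) else 0)) h
  rw [AlgHom.map_det, map_zero] at h1
  have h2 : (aeval (fun p : ℕ × Fin r => if p.1 = p.2.val + 1 then (1 : ℂ) else 0)).mapMatrix
      (h7A r) = 1 := by
    ext1 i j
    rw [AlgHom.mapMatrix_apply, Matrix.map_apply, Matrix.one_apply]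
    unfold h7A
    rw [Matrix.of_apply]
    refine Fin.cases ?_ (fun a => ?_) j
    · rw [Fin.cases_zero]
      split_ifs
      · rw [map_one]
      · rw [map_zero]
    · rw [Fin.cases_succ, aeval_X]
      dsimp only
      by_cases hi : i = a.succ
      · subst hi
        rw [if_pos rfl, if_pos (Fin.val_succ a)]
      · rw [if_neg hi, if_neg]
        intro h'
        apply hi
        apply Fin.ext
        rw [Fin.val_succ]
        exact h'
  rw [h2, Matrix.det_one] at h1
  exact one_ne_zero h1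

theorem h7A_adj (r : ℕ) (a : Fin r) :
    ∑ i, (h7A r).adjugate 0 i * (X (i.val, a) : PG r) = 0 := by
  have h := congrArg (fun M : Matrix (Fin (r + 1)) (Fin (r + 1)) (PG r) => M 0 a.succ)
    (Matrix.adjugate_mul (h7A r))
  rw [Matrix.mul_apply] at h
  have h2 : ((h7A r).det • (1 : Matrix (Fin (r + 1)) (Fin (r + 1)) (PG r))) 0 a.succ = 0 := by
    rw [Matrix.smul_apply, Matrix.one_apply, if_neg (Fin.succ_ne_zero a).symm, smul_zero]
  rw [h2] at h
  exact h

/-- the odd vectors -/
noncomputable def h7m {r s : ℕ} (k : Fin (r + 1)) (b : Fin s ⊕ Fin s) :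
    (ℕ × (Fin s ⊕ Fin s)) →₀ PG r :=
  ∑ i : Fin (r + 1), (h7A r).adjugate k i • Finsupp.single (i.val, b) 1

theorem h7m_iota {r s : ℕ} (k : Fin (r + 1)) (b : Fin s ⊕ Fin s) :
    (ExteriorAlgebra.ι (PG r) (h7m k b) : EB r s) =
      ∑ i : Fin (r + 1), algebraMap (PG r) (EB r s) ((h7A r).adjugate k i) * th i.val b := by
  unfold h7m
  rw [map_sum]
  refine Finset.sum_congr rfl fun i _ => ?_
  rw [map_smul, Algebra.smul_def]
  rfl

/-- Gram matrix over the centre -/
noncomputable def h7G (r s : ℕ) :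
    Matrix (Fin (r + 1)) (Fin (r + 1)) (Subalgebra.center ℂ (EB r s)) :=
  Matrix.of fun i j => evE r s (X s(i.val, j.val))

/-- transformed Gram matrix -/
noncomputable def h7Q (r s : ℕ) :
    Matrix (Fin (r + 1)) (Fin (r + 1)) (Subalgebra.center ℂ (EB r s)) :=
  (h7A r).adjugate.map (aZ r s) * h7G r s * ((h7A r).adjugate.map (aZ r s)).transpose

theorem h7_prod {K E ι : Type} [CommRing K] [Ring E] [Algebra K E] [Fintype ι]
    (p q : ι → K) (x y : ι → E) :
    (∑ i, algebraMap K E (p i) * x i) * (∑ j, algebraMap K E (q j) * y j) =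
      ∑ j, ∑ i, algebraMap K E (p i * q j) * (x i * y j) := by
  rw [Finset.sum_mul_sum, Finset.sum_comm]
  refine Finset.sum_congr rfl fun j _ => Finset.sum_congr rfl fun i _ => ?_
  rw [map_mul, mul_assoc, ← mul_assoc (x i), ← Algebra.commutes (q j) (x i), mul_assoc, mul_assoc]

theorem h7_rearr {E ι α β : Type} [Ring E] [Fintype ι] [Fintype α] [Fintype β]
    (c : ι → ι → E) (a : ι → ι → α → E) (b d : ι → ι → β → E) :
    (∑ j, ∑ i, c i j * (∑ k, a i j k + ∑ k, (b i j k - d i j k))) =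
      ∑ k, ∑ j, ∑ i, c i j * a i j k +
      ∑ k, ((∑ j, ∑ i, c i j * b i j k) - ∑ j, ∑ i, c i j * d i j k) := by
  simp only [mul_add, Finset.mul_sum, mul_sub, Finset.sum_add_distrib, Finset.sum_sub_distrib]
  have h : ∀ {γ : Type} [Fintype γ] (f : ι → ι → γ → E),
      ∑ j, ∑ i, ∑ k, f i j k = ∑ k, ∑ j, ∑ i, f i j k := by
    intro γ _ f
    refine Eq.trans (Finset.sum_congr rfl fun j _ => Finset.sum_comm) ?_
    rw [Finset.sum_comm]
  rw [h, h, h]

theorem h7Q_coe0 (r s : ℕ) (k l : Fin (r + 1)) :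
    ((h7Q r s k l : Subalgebra.center ℂ (EB r s)) : EB r s) =
      ∑ j : Fin (r + 1), ∑ i : Fin (r + 1),
        algebraMap (PG r) (EB r s) ((h7A r).adjugate k i * (h7A r).adjugate l j) *
          xE r s i.val j.val := by
  unfold h7Q
  rw [Matrix.mul_apply, ← Subalgebra.coe_val, map_sum]
  refine Finset.sum_congr rfl fun j _ => ?_
  rw [Matrix.mul_apply, Matrix.transpose_apply, Matrix.map_apply, Finset.sum_mul, map_sum]
  refine Finset.sum_congr rfl fun i _ => ?_
  unfold h7G
  rw [Matrix.map_apply, Matrix.of_apply, h6_evE_X, map_mul, map_mul]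
  change algebraMap (PG r) (EB r s) _ * xE r s i.val j.val * algebraMap (PG r) (EB r s) _ = _
  rw [mul_assoc, ← Algebra.commutes, ← mul_assoc, ← map_mul]

theorem h7Q_coe (r s : ℕ) (k l : Fin (r + 1)) :
    ((h7Q r s k l : Subalgebra.center ℂ (EB r s)) : EB r s) =
      ∑ a : Fin r, algebraMap (PG r) (EB r s) (∑ i, (h7A r).adjugate k i * X (i.val, a)) *
        algebraMap (PG r) (EB r s) (∑ j, (h7A r).adjugate l j * X (j.val, a)) +
      ∑ c : Fin s, (ExteriorAlgebra.ι (PG r) (h7m k (Sum.inl c)) *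
        ExteriorAlgebra.ι (PG r) (h7m l (Sum.inr c)) -
        ExteriorAlgebra.ι (PG r) (h7m k (Sum.inr c)) *
        ExteriorAlgebra.ι (PG r) (h7m l (Sum.inl c))) := by
  rw [h7Q_coe0]
  unfold xE
  refine (h7_rearr (fun i j : Fin (r + 1) =>
    algebraMap (PG r) (EB r s) ((h7A r).adjugate k i * (h7A r).adjugate l j))
    (fun i j (a : Fin r) => gg i.val a * gg j.val a)
    (fun i j (c : Fin s) => th i.val (Sum.inl c) * th j.val (Sum.inr c))
    (fun i j (c : Fin s) => th i.val (Sum.inr c) * th j.val (Sum.inl c))).trans ?_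
  refine congrArg₂ (· + ·) (Finset.sum_congr rfl fun a _ => ?_)
    (Finset.sum_congr rfl fun c _ => congrArg₂ (· - ·) ?_ ?_)
  · rw [← h7_prod]
    refine congrArg₂ (· * ·) ?_ ?_
    · rw [map_sum]
      refine Finset.sum_congr rfl fun i _ => ?_
      rw [map_mul]
      rfl
    · rw [map_sum]
      refine Finset.sum_congr rfl fun i _ => ?_
      rw [map_mul]
      rfl
  · rw [← h7_prod, h7m_iota, h7m_iota]
  · rw [← h7_prod, h7m_iota, h7m_iota]

theorem h7_base (r s : ℕ) : (h7G r s).det ^ (s + 1) = 0 := by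
  set B : Set ((ℕ × (Fin s ⊕ Fin s)) →₀ PG r) := Set.range (fun b : Fin s ⊕ Fin s => h7m 0 b)
    with hB
  have hrow : ∀ l, ((h7Q r s 0 l : Subalgebra.center ℂ (EB r s)) : EB r s) =
      ∑ c : Fin s, (ExteriorAlgebra.ι (PG r) (h7m 0 (Sum.inl c)) *
        ExteriorAlgebra.ι (PG r) (h7m l (Sum.inr c)) -
        ExteriorAlgebra.ι (PG r) (h7m 0 (Sum.inr c)) *
        ExteriorAlgebra.ι (PG r) (h7m l (Sum.inl c))) := by
    intro l
    rw [h7Q_coe]
    simp only [h7A_adj, zero_mul, map_zero, Finset.sum_const_zero, zero_add]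
  have hcol : ∀ l, ((h7Q r s l 0 : Subalgebra.center ℂ (EB r s)) : EB r s) =
      ∑ c : Fin s, (ExteriorAlgebra.ι (PG r) (h7m l (Sum.inl c)) *
        ExteriorAlgebra.ι (PG r) (h7m 0 (Sum.inr c)) -
        ExteriorAlgebra.ι (PG r) (h7m l (Sum.inr c)) *
        ExteriorAlgebra.ι (PG r) (h7m 0 (Sum.inl c))) := by
    intro l
    rw [h7Q_coe]
    simp only [h7A_adj, mul_zero, map_zero, Finset.sum_const_zero, zero_add]
  have hdet : (h7Q r s).det ∈ FZ B 2 := by
    apply h7_det (FZ B 1) (FZ B 2) (fun x hx y hy => FZ_mul (k := 1) (l := 1) (n := 2) rfl hx hy)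
    · rw [FZ_mem, hrow]
      exact Fw_sum2 (fun b => h7m 0 b) (fun b => ⟨b, rfl⟩)
    · intro l
      rw [FZ_mem, hrow]
      exact Fw_sum1 (fun b => h7m 0 b) (fun b => h7m l b) (fun b => ⟨b, rfl⟩)
    · intro l
      rw [FZ_mem, hcol]
      exact Fw_sum1' (fun b => h7m l b) (fun b => h7m 0 b) (fun b => ⟨b, rfl⟩)
  have hz : (h7Q r s).det ^ (s + 1) = 0 := by
    refine FZ_eq_zero (fun b : Fin s ⊕ Fin s => h7m 0 b) ?_ (FZ_pow hdet (s + 1))
    rw [Fintype.card_sum, Fintype.card_fin]
    omega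
  have hQ : (h7Q r s).det = aZ r s ((h7A r).adjugate.det ^ 2) * (h7G r s).det := by
    unfold h7Q
    rw [Matrix.det_mul, Matrix.det_mul, Matrix.det_transpose]
    have : ((h7A r).adjugate.map (aZ r s)).det = aZ r s (h7A r).adjugate.det := by
      rw [RingHom.map_det]
      rfl
    rw [this, map_pow]
    ring
  rw [hQ, mul_pow, ← map_pow] at hz
  refine aZ_mul_eq_zero hz ?_
  rw [Matrix.det_adjugate]
  exact pow_ne_zero _ (pow_ne_zero _ (pow_ne_zero _ (h7A_det r)))

/-- (j1) -/
theorem detIdeal_le_Jrs (r s : ℕ) : detIdeal (r + 1) (s + 1) ≤ Jrs r s := by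
  unfold detIdeal
  rw [Ideal.span_le]
  rintro f ⟨u, rfl⟩
  rw [SetLike.mem_coe]
  have h1 : (Matrix.det (Matrix.of fun i j : Fin (r + 1) =>
      bil (MP50e386.ee i.val) (MP50e386.ee j.val))) ^ (s + 1) ∈ Jrs r s := by
    unfold Jrs
    rw [RingHom.mem_ker]
    change evE r s _ = 0
    rw [map_pow, AlgHom.map_det]
    have : (evE r s).mapMatrix (Matrix.of fun i j : Fin (r + 1) =>
        bil (MP50e386.ee i.val) (MP50e386.ee j.val)) = h7G r s := by
      ext1 i j
      unfold h7G
      rw [AlgHom.mapMatrix_apply, Matrix.map_apply, Matrix.of_apply, Matrix.of_apply, bil_ee]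
    rw [this]
    exact h7_base r s
  have h2 := Jrs_stable r s (fun i => if h : i < r + 1 then u ⟨i, h⟩ else 0) _ h1
  rw [sub_det] at h2
  have h3 : ∀ i : Fin (r + 1), lin (fun i => if h : i < r + 1 then u ⟨i, h⟩ else 0)
      (MP50e386.ee i.val) = u i := by
    intro i
    rw [lin_ee, dif_pos i.2]
  simp only [h3] at h2
  exact h2

/-! ### (j2) -/

theorem h7_gP_eval {r : ℕ} (φ : Fin r → (MP50e386.V →ₗ[ℂ] ℂ)) (a : Fin r) (v : MP50e386.V) :
    aeval (fun p : ℕ × Fin r => φ p.2 (MP50e386.ee p.1)) (gP a v) = φ a v := by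
  induction v using Finsupp.induction_linear with
  | zero => rw [map_zero, map_zero, map_zero]
  | add f g hf hg => rw [map_add, map_add, hf, hg, map_add]
  | single i c =>
    have e1 : (Finsupp.single i c : MP50e386.V) = c • MP50e386.ee i := by
      unfold MP50e386.ee
      rw [Finsupp.smul_single, smul_eq_mul, mul_one]
    rw [e1, map_smul, map_smul, gP_ee, aeval_X, map_smul]

theorem h7_gP_det {r : ℕ} (v : Fin r → MP50e386.V) (hv : LinearIndependent ℂ v) :
    (Matrix.of fun i a : Fin r => gP a (v i)).det ≠ 0 := by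
  obtain ⟨g, hg⟩ := LinearMap.exists_extend (hv.repr : _ →ₗ[ℂ] (Fin r →₀ ℂ))
  have hgv : ∀ i, g (v i) = Finsupp.single i 1 := by
    intro i
    have h1 := congrArg (fun F => F ⟨v i, Submodule.subset_span ⟨i, rfl⟩⟩) hg
    simp only [LinearMap.comp_apply, Submodule.subtype_apply] at h1
    rw [h1]
    exact hv.repr_eq_single i _ rfl
  intro h
  have h1 := congrArg (aeval (fun p : ℕ × Fin r =>
    ((Finsupp.lapply p.2).comp g) (MP50e386.ee p.1))) h
  rw [AlgHom.map_det, map_zero] at h1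
  have h2 : (aeval (fun p : ℕ × Fin r => ((Finsupp.lapply p.2).comp g) (MP50e386.ee p.1)) :
      PG r →ₐ[ℂ] ℂ).mapMatrix (Matrix.of fun i a : Fin r => gP a (v i)) = 1 := by
    ext1 i a
    rw [AlgHom.mapMatrix_apply, Matrix.map_apply, Matrix.of_apply,
      h7_gP_eval (fun a => (Finsupp.lapply a).comp g) a (v i), LinearMap.comp_apply, hgv,
      Finsupp.lapply_apply, Matrix.one_apply, Finsupp.single_apply]
  rw [h2, Matrix.det_one] at h1
  exact one_ne_zero h1

theorem h7_nil {R : Type} [CommRing R] (δ Γ b : R) (L : ℕ) (h : Γ * b = 0)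
    (hν : (Γ - δ) ^ L = 0) : δ ^ L * b = 0 := by
  have h1 : ∀ n, δ ^ n * b = (δ - Γ) ^ n * b := by
    intro n
    induction n with
    | zero => rw [pow_zero, pow_zero]
    | succ n ih =>
      rw [pow_succ (δ - Γ), mul_right_comm, ← ih, pow_succ]
      linear_combination (δ ^ n) * h
  rw [h1, ← neg_sub, neg_pow, hν, mul_zero, zero_mul]

theorem h7_det_sub {R : Type} [CommRing R] {n : ℕ} (I : Ideal R) (M N : Matrix (Fin n) (Fin n) R)
    (h : ∀ i j, M i j - N i j ∈ I) : M.det - N.det ∈ I := by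
  rw [← Ideal.Quotient.mk_eq_mk_iff_sub_mem, RingHom.map_det, RingHom.map_det]
  congr 1
  ext1 i j
  rw [RingHom.mapMatrix_apply, RingHom.mapMatrix_apply, Matrix.map_apply, Matrix.map_apply]
  exact (Ideal.Quotient.mk_eq_mk_iff_sub_mem _ _).2 (h i j)

/-- (j2) -/
theorem Dl_nonzeroDiv (r s : ℕ) (v : Fin r → MP50e386.V) (hv : LinearIndependent ℂ v)
    (f : MP50e386.A)
    (hf : (Matrix.det (Matrix.of fun i j : Fin r => bil (v i) (v j))) * f ∈ Jrs r s) :
    f ∈ Jrs r s := by
  unfold Jrs at hf ⊢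
  rw [RingHom.mem_ker] at hf ⊢
  change evE r s _ = 0 at hf
  change evE r s f = 0
  rw [map_mul, AlgHom.map_det] at hf
  set Γ : Matrix (Fin r) (Fin r) (Subalgebra.center ℂ (EB r s)) :=
    (evE r s).mapMatrix (Matrix.of fun i j : Fin r => bil (v i) (v j)) with hΓ
  set b := evE r s f with hb
  set G : Matrix (Fin r) (Fin r) (PG r) := Matrix.of fun i a : Fin r => gP a (v i) with hG
  set B : Set ((ℕ × (Fin s ⊕ Fin s)) →₀ PG r) :=
    Set.range (fun p : Fin r × (Fin s ⊕ Fin s) => mV p.2 (v p.1)) with hB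
  have hent : ∀ i j, Γ i j - ((G * G.transpose).map (aZ r s)) i j ∈ FZ B 1 := by
    intro i j
    rw [FZ_mem, Subalgebra.coe_sub]
    have e1 : ((Γ i j : Subalgebra.center ℂ (EB r s)) : EB r s) = xV (v i) (v j) := by
      rw [hΓ, AlgHom.mapMatrix_apply, Matrix.map_apply, Matrix.of_apply, evE_bil]
    have e2 : (((G * G.transpose).map (aZ r s) i j : Subalgebra.center ℂ (EB r s)) : EB r s) =
        ∑ a, gV a (v i) * gV a (v j) := by
      rw [Matrix.map_apply, aZ_coe, Matrix.mul_apply, map_sum]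
      refine Finset.sum_congr rfl fun a _ => ?_
      rw [Matrix.transpose_apply, map_mul]
      rfl
    rw [e1, e2]
    unfold xV
    rw [add_sub_cancel_left]
    exact Fw_sum1 (fun b => mV b (v i)) (fun b => mV b (v j)) (fun b => ⟨(i, b), rfl⟩)
  have hdet : Γ.det - aZ r s (G.det ^ 2) ∈ FZ B 1 := by
    have e1 : aZ r s (G.det ^ 2) = ((G * G.transpose).map (aZ r s)).det := by
      have e3 : ((G * G.transpose).map (aZ r s)).det = aZ r s (G * G.transpose).det := by
        rw [RingHom.map_det]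
        rfl
      rw [e3, Matrix.det_mul, Matrix.det_transpose, sq]
    rw [e1]
    exact h7_det_sub _ _ _ hent
  have hνL : (Γ.det - aZ r s (G.det ^ 2)) ^ (Fintype.card (Fin r × (Fin s ⊕ Fin s)) + 1) = 0 := by
    refine FZ_eq_zero (fun p : Fin r × (Fin s ⊕ Fin s) => mV p.2 (v p.1)) ?_ (FZ_pow hdet _)
    omega
  have h3 := h7_nil _ _ _ _ hf hνL
  rw [← map_pow] at h3
  exact aZ_mul_eq_zero h3 (pow_ne_zero _ (pow_ne_zero _ (h7_gP_det v hv)))

/-! ### (j3) -/

section j3

variable {r s D k : ℕ} (v : Fin D → Fin r → ℕ) (c : Fin D → Fin k → ℕ)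

/-- the letters of the frames -/
def h7V (i : ℕ) : Prop := ∃ d a, v d a = i

open Classical in
/-- the specialised variables -/
noncomputable def h7y (r s : ℕ) {D : ℕ} (v : Fin D → Fin r → ℕ) (i j : ℕ) :
    Subalgebra.center ℂ (EB r s) :=
  (∑ a : Fin r, if (∃ d, v d a = i) ∧ (∃ d, v d a = j) then 1 else 0) +
    if h7V v i ∨ h7V v j then 0 else ∑ b : Fin s, (zz b i j + zz b j i)

theorem h7y_comm (i j : ℕ) : h7y r s v i j = h7y r s v j i := by
  classical
  unfold h7y
  congr 1
  · refine Finset.sum_congr rfl fun a _ => ?_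
    by_cases h : (∃ d, v d a = i) ∧ (∃ d, v d a = j)
    · rw [if_pos h, if_pos h.symm]
    · rw [if_neg h, if_neg (fun h' => h h'.symm)]
  · by_cases h : h7V v i ∨ h7V v j
    · rw [if_pos h, if_pos h.symm]
    · rw [if_neg h, if_neg (fun h' => h h'.symm)]
      refine Finset.sum_congr rfl fun b _ => ?_
      rw [add_comm]

/-- the specialised evaluation -/
noncomputable def h7ev (r s : ℕ) {D : ℕ} (v : Fin D → Fin r → ℕ) :
    MP50e386.A →ₐ[ℂ] Subalgebra.center ℂ (EB r s) :=
  aeval (Sym2.lift ⟨fun i j => h7y r s v i j, fun i j => h7y_comm v i j⟩)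

theorem h7ev_X (i j : ℕ) : h7ev r s v (X s(i, j)) = h7y r s v i j := by
  unfold h7ev
  rw [aeval_X]
  rfl

theorem h7ev_of_evE (f : MP50e386.A) (hf : evE r s f = 0) : h7ev r s v f = 0 := by
  classical
  obtain ⟨Ψ, h1, h2⟩ := exists_lift (r := r) (s := s)
    ((Algebra.ofId ℂ (EB r s)).comp
      (aeval (fun p : ℕ × Fin r => if (∃ d, v d p.2 = p.1) then (1 : ℂ) else 0)))
    (fun p x => Algebra.commutes
      (aeval (fun p : ℕ × Fin r => if (∃ d, v d p.2 = p.1) then (1 : ℂ) else 0) p) x)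
    (fun x => if h7V v x.1 then 0 else th x.1 x.2) (by
      intro x y
      split_ifs
      · rw [mul_zero, neg_zero]
      · rw [mul_zero, zero_mul, neg_zero]
      · rw [mul_zero, zero_mul, neg_zero]
      · exact th_swap _ _ _ _)
  have h0 : ∀ c : ℂ, Ψ (algebraMap ℂ (EB r s) c) = algebraMap ℂ (EB r s) c := by
    intro c
    rw [EB_algebraMap, h1]
    exact AlgHom.commutes _ c
  have hg : ∀ i (a : Fin r), Ψ (gg i a) = if (∃ d, v d a = i) then 1 else 0 := by
    intro i a
    unfold gg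
    rw [h1, AlgHom.comp_apply, aeval_X, Algebra.ofId_apply]
    dsimp only
    split_ifs
    · rw [map_one]
    · rw [map_zero]
  have h3 : (Ψ.comp (((Subalgebra.center ℂ (EB r s)).val : _ →+* EB r s).comp
      (evE r s : MP50e386.A →+* Subalgebra.center ℂ (EB r s)))) =
      (((Subalgebra.center ℂ (EB r s)).val : _ →+* EB r s).comp
        (h7ev r s v : MP50e386.A →+* Subalgebra.center ℂ (EB r s))) := by
    apply MvPolynomial.ringHom_ext
    · intro c
      simp only [RingHom.comp_apply, RingHom.coe_coe]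
      have e1 : evE r s (C c) = algebraMap ℂ _ c := (evE r s).commutes c
      have e2 : h7ev r s v (C c) = algebraMap ℂ _ c := (h7ev r s v).commutes c
      rw [e1, e2]
      exact h0 c
    · intro x
      simp only [RingHom.comp_apply, RingHom.coe_coe]
      induction x using Sym2.ind with
      | _ i j =>
        rw [h6_evE_X, h7ev_X]
        change Ψ (xE r s i j) = _
        unfold xE h7y
        rw [map_add, map_add, map_sum, map_sum]
        congr 1
        · rw [map_sum]
          refine Finset.sum_congr rfl fun a _ => ?_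
          rw [map_mul, hg, hg]
          by_cases hi : ∃ d, v d a = i
          · by_cases hj : ∃ d, v d a = j
            · rw [if_pos hi, if_pos hj, one_mul, if_pos (show (∃ d, v d a = i) ∧
                (∃ d, v d a = j) from ⟨hi, hj⟩), map_one]
            · rw [if_neg hj, mul_zero, if_neg (fun h : (∃ d, v d a = i) ∧
                (∃ d, v d a = j) => hj h.2), map_zero]
          · rw [if_neg hi, zero_mul, if_neg (fun h : (∃ d, v d a = i) ∧
                (∃ d, v d a = j) => hi h.1), map_zero]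
        · by_cases h : h7V v i ∨ h7V v j
          · rw [if_pos h, map_zero]
            refine Finset.sum_eq_zero fun b _ => ?_
            rw [map_sub, map_mul, map_mul, h2, h2, h2, h2]
            dsimp only
            rcases h with h | h
            · rw [if_pos h, if_pos h, zero_mul, zero_mul, sub_zero]
            · rw [if_pos h, if_pos h, mul_zero, mul_zero, sub_zero]
          · rw [if_neg h, map_sum]
            refine Finset.sum_congr rfl fun b _ => ?_
            rw [map_sub, map_mul, map_mul, h2, h2, h2, h2]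
            dsimp only
            rw [not_or] at h
            rw [if_neg h.1, if_neg h.2, if_neg h.1, if_neg h.2, map_add,
              th_swap i j (Sum.inr b) (Sum.inl b), sub_neg_eq_add]
            rfl
  have h4 := congrArg (fun F : MP50e386.A →+* EB r s => F f) h3
  simp only [RingHom.comp_apply, RingHom.coe_coe] at h4
  rw [hf, map_zero, map_zero] at h4
  exact Subtype.ext h4.symm

variable (h : Function.Injective
  (fun p : Fin D × (Fin r ⊕ Fin k) => Sum.elim (v p.1) (c p.1) p.2))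

include h

theorem h7_inj_v {d d' : Fin D} {a a' : Fin r} (he : v d a = v d' a') : d = d' ∧ a = a' := by
  have h1 := @h (d, Sum.inl a) (d', Sum.inl a') he
  rw [Prod.mk.injEq, Sum.inl.injEq] at h1
  exact h1

theorem h7_inj_c {d d' : Fin D} {j j' : Fin k} (he : c d j = c d' j') : d = d' ∧ j = j' := by
  have h1 := @h (d, Sum.inr j) (d', Sum.inr j') he
  rw [Prod.mk.injEq, Sum.inr.injEq] at h1
  exact h1

theorem h7_not_V (d : Fin D) (j : Fin k) : ¬ h7V v (c d j) := by
  rintro ⟨d', a, he⟩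
  have h1 := @h (d', Sum.inl a) (d, Sum.inr j) he
  rw [Prod.mk.injEq] at h1
  exact absurd h1.2 (by simp)

theorem h7y_vv (d : Fin D) (a b : Fin r) :
    h7y r s v (v d a) (v d b) = if a = b then 1 else 0 := by
  classical
  unfold h7y
  rw [if_pos (Or.inl ⟨d, a, rfl⟩), add_zero]
  have h1 : ∀ a' : Fin r, ((∃ d', v d' a' = v d a) ∧ (∃ d', v d' a' = v d b)) ↔
      (a = a' ∧ a = b) := by
    intro a'
    constructor
    · rintro ⟨⟨d', h1⟩, ⟨d'', h2⟩⟩
      have h3 := (h7_inj_v v c h h1).2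
      have h4 := (h7_inj_v v c h h2).2
      exact ⟨h3.symm, h3.symm.trans h4⟩
    · rintro ⟨rfl, rfl⟩
      exact ⟨⟨d, rfl⟩, ⟨d, rfl⟩⟩
  simp only [h1]
  by_cases hab : a = b
  · simp only [hab, and_true, if_true]
    rw [Finset.sum_ite_eq, if_pos (Finset.mem_univ _)]
  · simp only [hab, and_false, if_false, Finset.sum_const_zero]

theorem h7y_vc (d : Fin D) (a : Fin r) (j : Fin k) : h7y r s v (c d j) (v d a) = 0 := by
  classical
  unfold h7y
  rw [if_pos (Or.inr ⟨d, a, rfl⟩), add_zero]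
  refine Finset.sum_eq_zero fun a' _ => ?_
  rw [if_neg]
  rintro ⟨⟨d', h1⟩, -⟩
  exact h7_not_V v c h d j ⟨d', a', h1⟩

theorem h7y_cc (d : Fin D) (j : Fin k) :
    h7y r s v (c d j) (c d j) = 2 * ∑ b : Fin s, zz b (c d j) (c d j) := by
  classical
  unfold h7y
  have hn := h7_not_V v c h d j
  rw [if_neg (fun h' : h7V v (c d j) ∨ h7V v (c d j) => h'.elim hn hn)]
  rw [Finset.sum_eq_zero, zero_add, Finset.mul_sum]
  · refine Finset.sum_congr rfl fun b _ => ?_
    rw [two_mul]
  · intro a' _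
    rw [if_neg]
    rintro ⟨⟨d', h1⟩, -⟩
    exact hn ⟨d', a', h1⟩

theorem h7_det_v (d : Fin D) :
    h7ev r s v (Matrix.det (Matrix.of fun a b : Fin r => (X s(v d a, v d b) : MP50e386.A))) = 1 := by
  rw [AlgHom.map_det]
  have : (h7ev r s v).mapMatrix (Matrix.of fun a b : Fin r => (X s(v d a, v d b) : MP50e386.A)) =
      1 := by
    ext1 a b
    rw [AlgHom.mapMatrix_apply, Matrix.map_apply, Matrix.of_apply, h7ev_X, h7y_vv v c h,
      Matrix.one_apply]
  rw [this, Matrix.det_one]

theorem h7_det_vc (d : Fin D) (j : Fin k) :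
    h7ev r s v (Matrix.det (Matrix.of fun a b : Fin (r + 1) =>
        (X s((Fin.snoc (v d) (c d j) : Fin (r + 1) → ℕ) a,
          (Fin.snoc (v d) (c d j) : Fin (r + 1) → ℕ) b) : MP50e386.A))) =
      2 * ∑ b : Fin s, zz b (c d j) (c d j) := by
  rw [AlgHom.map_det, Matrix.det_succ_row _ (Fin.last r), Finset.sum_eq_single (Fin.last r)]
  · rw [AlgHom.mapMatrix_apply, Matrix.map_apply, Matrix.of_apply, Fin.snoc_last, h7ev_X,
      h7y_cc v c h, ← two_mul, pow_mul]
    simp only [even_two, Even.neg_pow, one_pow, one_mul]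
    have : (((Matrix.of fun a b : Fin (r + 1) =>
        (X s((Fin.snoc (v d) (c d j) : Fin (r + 1) → ℕ) a,
          (Fin.snoc (v d) (c d j) : Fin (r + 1) → ℕ) b) : MP50e386.A)).map
          (h7ev r s v)).submatrix (Fin.last r).succAbove (Fin.last r).succAbove) = 1 := by
      ext1 a b
      rw [Matrix.submatrix_apply, Matrix.map_apply, Matrix.of_apply, Fin.succAbove_last,
        Fin.snoc_castSucc, Fin.snoc_castSucc, h7ev_X, h7y_vv v c h, Matrix.one_apply]
    rw [this, Matrix.det_one, mul_one]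
  · intro b _ hb
    obtain ⟨b', rfl⟩ := Fin.exists_castSucc_eq.2 hb
    rw [AlgHom.mapMatrix_apply, Matrix.map_apply, Matrix.of_apply, Fin.snoc_last,
      Fin.snoc_castSucc, h7ev_X, h7y_vc v c h, mul_zero, zero_mul]
  · intro h'
    exact absurd (Finset.mem_univ _) h'

end j3

/-- (j3) -/
theorem hh_not_mem_Jrs (r s D k q : ℕ) (v : Fin D → Fin r → ℕ) (c : Fin D → Fin k → ℕ)
    (h : Function.Injective (fun p : Fin D × (Fin r ⊕ Fin k) => Sum.elim (v p.1) (c p.1) p.2)) :
    (∏ d, ((∏ j, (Matrix.det (Matrix.of fun a b : Fin (r + 1) =>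
        (X s((Fin.snoc (v d) (c d j) : Fin (r + 1) → ℕ) a,
          (Fin.snoc (v d) (c d j) : Fin (r + 1) → ℕ) b) : MP50e386.A))) ^ s) *
        (Matrix.det (Matrix.of fun a b : Fin r => (X s(v d a, v d b) : MP50e386.A))) ^ q)) ∉
      Jrs r s := by
  classical
  intro h0
  unfold Jrs at h0
  rw [RingHom.mem_ker] at h0
  have h1 := h7ev_of_evE v _ h0
  rw [map_prod] at h1
  have h2 : ∀ d : Fin D, h7ev r s v ((∏ j, (Matrix.det (Matrix.of fun a b : Fin (r + 1) =>
        (X s((Fin.snoc (v d) (c d j) : Fin (r + 1) → ℕ) a,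
          (Fin.snoc (v d) (c d j) : Fin (r + 1) → ℕ) b) : MP50e386.A))) ^ s) *
        (Matrix.det (Matrix.of fun a b : Fin r => (X s(v d a, v d b) : MP50e386.A))) ^ q) =
      ∏ j : Fin k, ((2 ^ s * (s.factorial : Subalgebra.center ℂ (EB r s))) *
        ∏ b : Fin s, zz b (c d j) (c d j)) := by
    intro d
    rw [map_mul, map_pow, h7_det_v v c h, one_pow, mul_one, map_prod]
    refine Finset.prod_congr rfl fun j _ => ?_
    rw [map_pow, h7_det_vc v c h, mul_pow]
    have h3 := (h6_sum_pow Finset.univ (fun b : Fin s =>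
      (zz b (c d j) (c d j) : Subalgebra.center ℂ (EB r s)))
      (fun b => zz_mul_self_left b _ _ _)).1
    rw [Finset.card_univ, Fintype.card_fin] at h3
    rw [h3]
    ring
  simp only [h2] at h1
  simp only [Finset.prod_mul_distrib] at h1
  have h4 : (∏ d : Fin D, ∏ j : Fin k, ∏ b : Fin s,
      (zz b (c d j) (c d j) : Subalgebra.center ℂ (EB r s))) ≠ 0 := by
    have h5 := zz_prod_ne_zero (r := r) (Finset.univ.image
      (fun p : (Fin D × Fin k) × Fin s => (c p.1.1 p.1.2, p.2)))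
    rw [Finset.prod_image] at h5
    · rw [Fintype.prod_prod_type, Fintype.prod_prod_type] at h5
      exact h5
    · rintro ⟨⟨d, j⟩, b⟩ _ ⟨⟨d', j'⟩, b'⟩ _ hh
      rw [Prod.mk.injEq] at hh
      dsimp only at hh
      obtain ⟨e1, e2⟩ := h7_inj_c v c h hh.1
      rw [e1, e2, hh.2]
  have h6 : (∏ _d : Fin D, ∏ _j : Fin k, (2 ^ s *
      (s.factorial : Subalgebra.center ℂ (EB r s)))) =
      algebraMap ℂ (Subalgebra.center ℂ (EB r s))
        (∏ _d : Fin D, ∏ _j : Fin k, (2 ^ s * (s.factorial : ℂ))) := by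
    simp only [map_prod, map_mul, map_pow, map_ofNat, map_natCast]
  have h7 : (∏ _d : Fin D, ∏ _j : Fin k, (2 ^ s * (s.factorial : ℂ))) ≠ 0 := by
    refine Finset.prod_ne_zero_iff.2 fun d _ => Finset.prod_ne_zero_iff.2 fun j _ => ?_
    exact mul_ne_zero (pow_ne_zero _ two_ne_zero) (Nat.cast_ne_zero.2 (Nat.factorial_ne_zero _))
  simp only [Finset.prod_mul_distrib] at h6 h7
  rw [h6, ← Algebra.smul_def, smul_eq_zero] at h1
  rcases h1 with h1 | h1
  · exact h7 h1
  · exact h4 h1

end MP50e386N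
end

section
/-! HOOK: `J_{r|s}` is generated by the `Delta(w)^(s+1)`, `w ∈ V^(r+1)`. -/

namespace MP50e386N

open MvPolynomial MP50e386

/-- homogeneous components of stable ideals -/
theorem h8_homog (J : Ideal MP50e386.A)
    (hJ : ∀ (w : ℕ → MP50e386.V) (f : MP50e386.A), f ∈ J → MP50e386.sub w f ∈ J)
    (f : MP50e386.A) (hf : f ∈ J) (d : ℕ) : homogeneousComponent d f ∈ J := by
  have hid : ∀ g : MP50e386.A, MP50e386.sub (fun i => MP50e386.ee i) g = g := by
    intro g
    have : MP50e386.sub (fun i => MP50e386.ee i) = AlgHom.id ℂ MP50e386.A := by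
      apply MvPolynomial.algHom_ext
      intro x
      induction x using Sym2.ind with
      | _ i j => rw [sub_X, bil_ee, AlgHom.id_apply]
    rw [this, AlgHom.id_apply]
  set P : Polynomial MP50e386.A := ∑ k ∈ Finset.range (f.totalDegree + 1),
    Polynomial.monomial (2 * k) (homogeneousComponent k f) with hP
  have hev : ∀ s ∈ (Set.univ : Set ℂ),
      P.eval (algebraMap ℂ MP50e386.A s) ∈ J.restrictScalars ℂ := by
    intro s _
    have h1 : P.eval (algebraMap ℂ MP50e386.A s) =
        MP50e386.sub (fun i => s • MP50e386.ee i) f := by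
      conv_rhs => rw [← sum_homogeneousComponent f]
      rw [map_sum, hP, Polynomial.eval_finsetSum]
      refine Finset.sum_congr rfl fun k _ => ?_
      rw [sub_smul_homog (homogeneousComponent_isHomogeneous k f), hid, Polynomial.eval_monomial,
        ← map_pow, Algebra.smul_def, mul_comm]
    rw [h1]
    exact hJ _ f hf
  have h2 := coeff_mem_of_infinite (J.restrictScalars ℂ) P Set.univ Set.infinite_univ hev (2 * d)
  have h3 : P.coeff (2 * d) = homogeneousComponent d f := by
    rw [hP, Polynomial.finsetSum_coeff]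
    by_cases hd : d < f.totalDegree + 1
    · rw [Finset.sum_eq_single d]
      · rw [Polynomial.coeff_monomial, if_pos rfl]
      · intro b _ hb
        rw [Polynomial.coeff_monomial, if_neg (by omega)]
      · intro h
        exact absurd (Finset.mem_range.2 hd) h
    · rw [homogeneousComponent_eq_zero _ _ (by omega)]
      refine Finset.sum_eq_zero fun b hb => ?_
      rw [Finset.mem_range] at hb
      rw [Polynomial.coeff_monomial, if_neg (by omega)]
  rw [h3] at h2
  exact h2

/-- inclusion of the finite level -/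
noncomputable def h8i (N : ℕ) : AN N →ₐ[ℂ] MP50e386.A := rename (Sym2.map Fin.val)

theorem h8i_X (N : ℕ) (i j : Fin N) : h8i N (X s(i, j)) = X s(i.val, j.val) := by
  unfold h8i
  rw [rename_X]
  rfl

theorem h8_exists {N : ℕ} {f : MP50e386.A} (hf : Lev N f) : ∃ g : AN N, h8i N g = f := by
  apply exists_rename_eq_of_vars_subset_range f _ (Sym2.map.injective Fin.val_injective)
  intro s hs
  have h := hf s hs
  induction s using Sym2.ind with
  | _ i j =>
    exact ⟨s(⟨i, h i (Sym2.mem_mk_left i j)⟩, ⟨j, h j (Sym2.mem_mk_right i j)⟩), rfl⟩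

/-- the vectors of a substitution -/
noncomputable def h8w {N : ℕ} (g : Matrix (Fin N) (Fin N) ℂ) (i : ℕ) : MP50e386.V :=
  if h : i < N then ∑ k, g k ⟨i, h⟩ • MP50e386.ee k.val else 0

theorem h8w_val {N : ℕ} (g : Matrix (Fin N) (Fin N) ℂ) (i : Fin N) :
    h8w g i.val = ∑ k, g k i • MP50e386.ee k.val := by
  unfold h8w
  rw [dif_pos i.2]

theorem h8_sub {N : ℕ} (g : Matrix (Fin N) (Fin N) ℂ) (f : AN N) :
    h8i N (subN g f) = MP50e386.sub (h8w g) (h8i N f) := by
  have : (h8i N).comp (subN g) = (MP50e386.sub (h8w g)).comp (h8i N) := by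
    apply MvPolynomial.algHom_ext
    intro x
    induction x using Sym2.ind with
    | _ i j =>
      rw [AlgHom.comp_apply, AlgHom.comp_apply, h8i_X, sub_X, h8w_val, h8w_val]
      have h1 : subN g (X s(i, j)) = ∑ k, ∑ l, C (g k i * g l j) * (X s(k, l) : AN N) := by
        unfold subN
        rw [aeval_X]
        rfl
      rw [h1, map_sum, LinearMap.map_sum₂]
      refine Finset.sum_congr rfl fun k _ => ?_
      rw [map_sum, map_sum]
      refine Finset.sum_congr rfl fun l _ => ?_
      rw [C_mul', map_smul, h8i_X, map_smul, map_smul, LinearMap.smul_apply, bil_ee, smul_smul,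
        mul_comm]
  exact congrArg (fun F : AN N →ₐ[ℂ] MP50e386.A => F f) this

theorem h8_comp (N : ℕ) (f : AN N) (d : ℕ) :
    h8i N (homogeneousComponent d f) = homogeneousComponent d (h8i N f) := by
  have hinj : Function.Injective (Sym2.map (Fin.val : Fin N → ℕ)) :=
    Sym2.map.injective Fin.val_injective
  conv_rhs => rw [← sum_homogeneousComponent f]
  rw [map_sum, map_sum]
  have h1 : ∀ k, homogeneousComponent d (h8i N (homogeneousComponent k f)) =
      if d = k then h8i N (homogeneousComponent k f) else 0 := by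
    intro k
    have h2 : h8i N (homogeneousComponent k f) ∈ homogeneousSubmodule (Sym2 ℕ) ℂ k := by
      rw [mem_homogeneousSubmodule]
      exact (homogeneousComponent_isHomogeneous k f).rename_isHomogeneous
    exact homogeneousComponent_of_mem h2
  simp only [h1]
  rw [Finset.sum_ite_eq]
  split_ifs with h
  · rfl
  · rw [Finset.mem_range, not_lt] at h
    rw [homogeneousComponent_eq_zero _ _ (by omega), map_zero]

/-- the degree `d` part of the finite level of an ideal -/
noncomputable def h8L (J : Ideal MP50e386.A) (N d : ℕ) : Submodule ℂ (AN N) :=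
  (J.comap (h8i N)).restrictScalars ℂ ⊓ homogeneousSubmodule (Sym2 (Fin N)) ℂ d

theorem h8L_mem (J : Ideal MP50e386.A) (N d : ℕ) (f : AN N) :
    f ∈ h8L J N d ↔ h8i N f ∈ J ∧ f ∈ homogeneousSubmodule (Sym2 (Fin N)) ℂ d := Iff.rfl

theorem h8_E (J : Ideal MP50e386.A)
    (hJ : ∀ (w : ℕ → MP50e386.V) (f : MP50e386.A), f ∈ J → MP50e386.sub w f ∈ J) (N : ℕ)
    (a b : Fin N) (f : AN N) (hf : f ∈ J.comap (h8i N)) : Eop a b f ∈ J.comap (h8i N) := by
  refine Eop_mem_of_subN ((J.comap (h8i N)).restrictScalars ℂ) ?_ a b f hf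
  intro g f hf
  change h8i N (subN g f) ∈ J
  rw [h8_sub]
  exact hJ _ _ hf

theorem h8L_E (J : Ideal MP50e386.A)
    (hJ : ∀ (w : ℕ → MP50e386.V) (f : MP50e386.A), f ∈ J → MP50e386.sub w f ∈ J) (N d : ℕ)
    (a b : Fin N) (f : AN N) (hf : f ∈ h8L J N d) : Eop a b f ∈ h8L J N d := by
  rw [h8L_mem] at hf ⊢
  exact ⟨h8_E J hJ N a b f hf.1, Eop_homog a b hf.2⟩

theorem h8_lead (r s N : ℕ) (hr : r < N) :
    h8i N (lead ⟨r, hr⟩ ^ (s + 1)) ∈ detIdeal (r + 1) (s + 1) := by
  rw [map_pow]
  apply Ideal.subset_span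
  refine ⟨fun a => MP50e386.ee a.val, ?_⟩
  congr 1
  unfold lead
  rw [AlgHom.map_det]
  congr 1
  ext1 a b
  rw [AlgHom.mapMatrix_apply, Matrix.map_apply, Matrix.of_apply, Matrix.of_apply, h8i_X, bil_ee]
  rfl

theorem h8_level (r s N d : ℕ) (hr : r < N) :
    h8L (Jrs r s) N d ≤ h8L (detIdeal (r + 1) (s + 1)) N d := by
  by_contra hcon
  obtain ⟨α, h1, h2⟩ := exists_DelA d (h8L (Jrs r s) N d) (h8L (detIdeal (r + 1) (s + 1)) N d)
    inf_le_right inf_le_right
    (fun a b f hf => h8L_E (Jrs r s) (fun w f hf => Jrs_stable r s w f hf) N d a b f hf)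
    (fun a b f hf => h8L_E (detIdeal (r + 1) (s + 1))
      (fun w f hf => detIdeal_stable (r + 1) (s + 1) w f hf) N d a b f hf) hcon
  rw [h8L_mem] at h1
  have h3 : DelA α ∉ (detIdeal (r + 1) (s + 1)).comap (h8i N) := by
    intro h
    apply h2
    rw [h8L_mem]
    exact ⟨h, h1.2⟩
  have h4 : ¬ (s + 1 ≤ ∑ j ∈ Finset.univ.filter (fun j : Fin N => (⟨r, hr⟩ : Fin N) ≤ j), α j) := by
    intro h
    apply h3
    refine box ((detIdeal (r + 1) (s + 1)).comap (h8i N)) ?_ ?_ ⟨r, hr⟩ (s + 1) (h8_lead r s N hr)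
      α h
    · intro f hf e
      rw [Ideal.mem_comap, h8_comp]
      exact h8_homog (detIdeal (r + 1) (s + 1))
        (fun w f hf => detIdeal_stable (r + 1) (s + 1) w f hf) _ hf e
    · intro a b f hf
      exact h8_E (detIdeal (r + 1) (s + 1))
        (fun w f hf => detIdeal_stable (r + 1) (s + 1) w f hf) N a b f hf
  refine nonvanishing r s N α ?_ h1.1
  have h5 : (Finset.univ.filter (fun j : Fin N => r ≤ j.val)) =
      Finset.univ.filter (fun j : Fin N => (⟨r, hr⟩ : Fin N) ≤ j) := by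
    apply Finset.filter_congr
    intro j _
    rw [Fin.le_def]
  rw [h5]
  omega

theorem hook (r s : ℕ) : Jrs r s = detIdeal (r + 1) (s + 1) := by
  apply le_antisymm
  · intro f hf
    obtain ⟨n, hn⟩ := exists_lev f
    have hn' : Lev (n + r + 1) f := hn.mono (by omega)
    obtain ⟨g, hg⟩ := h8_exists hn'
    rw [← sum_homogeneousComponent f]
    refine Ideal.sum_mem _ fun d _ => ?_
    have h1 : homogeneousComponent d g ∈ h8L (Jrs r s) (n + r + 1) d := by
      rw [h8L_mem, h8_comp, hg]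
      exact ⟨Jrs_homog r s f hf d, homogeneousComponent_mem d g⟩
    have h2 := h8_level r s (n + r + 1) d (by omega) h1
    rw [h8L_mem, h8_comp, hg] at h2
    exact h2.1
  · exact detIdeal_le_Jrs r s

end MP50e386N
end
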