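import Mathlib
import Pool.Agent.Lib.MP_50e386_al.B.Ha
import Pool.Agent.Lib.MP_50e386_al.B.Tb

section
/-!
Block K (super letters, paper section 3): definitions.

`E` is the set of the even super letters, `O` the set of the odd super letters.
-/

namespace MP50e386N

open MvPolynomial Pool.Agent.Lib.MP50e386

/-- the polynomial ring `A[z_{a,i}]` -/
abbrev UA := U MP50e386.A

/-- sign of the exchange of two elements of parities `a`, `b` (`true` means odd) -/
def ss (a b : Bool) : ℤ := if a && b then -1 else 1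

/-- parity of a super letter -/
def par {E O : Type} (y : E ⊕ O) : Bool := y.isRight

/-- The free supercommutative algebra over `B` generated by `P y i`, `y` a super letter, `i ∈ ℕ`,
of parity `par y`, with the coefficient functionals of the monomials. -/
structure SAlg (E O B T : Type) [CommRing B] [Ring T] [Algebra B T] where
  P : E ⊕ O → ℕ → T
  comm : ∀ y i y' i', P y i * P y' i' = ss (par y) (par y') • (P y' i' * P y i)
  sq : ∀ b i, P (Sum.inr b) i * P (Sum.inr b) i = 0
  gen : Algebra.adjoin B {t | ∃ y i, t = P y i} = ⊤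
  coef : List ((E ⊕ O) × ℕ) → T →ₗ[B] B
  coef_self : ∀ l : List ((E ⊕ O) × ℕ), l.Nodup →
    coef l ((l.map fun p => P p.1 p.2).prod) = 1
  coef_ne : ∀ l l' : List ((E ⊕ O) × ℕ), ¬ l.Perm l' →
    coef l ((l'.map fun p => P p.1 p.2).prod) = 0

section SAlg

variable {E O B T : Type} [CommRing B] [Ring T] [Algebra B T] (S : SAlg E O B T)

/-- product of generators -/
def SAlg.pp (l : List ((E ⊕ O) × ℕ)) : T := (l.map fun p => S.P p.1 p.2).prod

/-- an element commuting with all generators is central -/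
theorem SAlg.central (x : T) (hx : ∀ y i, x * S.P y i = S.P y i * x) (t : T) : x * t = t * x := by
  have ht : t ∈ Algebra.adjoin B {t | ∃ y i, t = S.P y i} := by
    rw [S.gen]
    exact Algebra.mem_top
  induction ht using Algebra.adjoin_induction with
  | mem t ht =>
    obtain ⟨y, i, rfl⟩ := ht
    exact hx y i
  | algebraMap r => exact (Algebra.commutes r x).symm
  | add a b _ _ ha hb => rw [mul_add, add_mul, ha, hb]
  | mul a b _ _ ha hb => rw [← mul_assoc, ha, mul_assoc, hb, mul_assoc]

/-- products of two generators of equal parity are central -/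
theorem SAlg.pair_central (y y' : E ⊕ O) (h : par y = par y') (i j : ℕ) (t : T) :
    S.P y i * S.P y' j * t = t * (S.P y i * S.P y' j) := by
  refine S.central _ (fun w k => ?_) t
  have e1 := S.comm y' j w k
  have e2 := S.comm y i w k
  have e3 : ss (par y) (par w) * ss (par y) (par w) = 1 := by
    unfold ss
    split_ifs <;> norm_num
  calc S.P y i * S.P y' j * S.P w k = S.P y i * (S.P y' j * S.P w k) := mul_assoc _ _ _
    _ = ss (par y) (par w) • ((S.P y i * S.P w k) * S.P y' j) := by
        rw [e1, ← h, mul_smul_comm, mul_assoc]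
    _ = (ss (par y) (par w) * ss (par y) (par w)) • (S.P w k * S.P y i * S.P y' j) := by
        rw [e2, smul_mul_assoc, smul_smul]
    _ = S.P w k * (S.P y i * S.P y' j) := by rw [e3, one_smul, mul_assoc]

theorem SAlg.even_central (a : E) (i : ℕ) (t : T) :
    S.P (Sum.inl a) i * t = t * S.P (Sum.inl a) i := by
  refine S.central _ (fun w k => ?_) t
  have := S.comm (Sum.inl a) i w k
  rw [this]
  have e : ss (par (Sum.inl a : E ⊕ O)) (par w) = 1 := by simp [ss, par]
  rw [e, one_smul]

end SAlg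

/-! ### letters -/

/-- substitution of letters by letters -/
noncomputable def lsub (φ : ℕ → ℕ) : UA →+* UA := sbC (fun k => ee (φ k))

/-- extension of a map of the first `n` letters -/
def extd {n : ℕ} (φ : Fin n → ℕ) (k : ℕ) : ℕ := if h : k < n then φ ⟨k, h⟩ else k

/-- `f ∈ A[z]` is multilinear in the letters `0, …, n-1` -/
def UL (n : ℕ) : Submodule ℂ UA where
  carrier := {f | ∀ t : ℕ → ℂ, sbC (fun i => t i • ee i) f = (∏ i ∈ Finset.range n, t i) • f}
  zero_mem' := by
    intro t
    rw [map_zero, smul_zero]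
  add_mem' := by
    intro f g hf hg t
    rw [map_add, hf t, hg t, smul_add]
  smul_mem' := by
    intro c f hf t
    have h1 : sbC (R := MP50e386.A) (fun i => t i • ee i) (c • f) =
        c • sbC (fun i => t i • ee i) f := by
      rw [Algebra.smul_def, Algebra.smul_def, map_mul]
      congr 1
      have h2 : (algebraMap ℂ UA c) = C (algebraMap ℂ MP50e386.A c) := rfl
      rw [h2]
      unfold sbC sbU
      rw [eval₂Hom_C]
      simp only [RingHom.coe_comp, Function.comp_apply]
      congr 1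
      exact AlgHom.commutes _ c
    rw [h1, hf t, smul_comm]

/-- standard multilinear monomials: `e` edges, then legs with the labels `as` -/
noncomputable def mon : ℕ → List ℕ → UA
  | 0, [] => 1
  | 0, a :: as => X (a, 0) * lsub (· + 1) (mon 0 as)
  | e + 1, as => C (X s(0, 1)) * lsub (· + 2) (mon e as)

/-- polynomials in `z_{a,i}` with labels `a < L` -/
def LL (L : ℕ) : Set UA := {f | ∀ m ∈ f.support, ∀ p ∈ m.support, p.1 < L}

/-! ### the universal sign -/

/-- `ε` is the sign of the reordering `σ` of supercommuting elements with the parities `π` -/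
def IsSign {n : ℕ} (σ : Equiv.Perm (Fin n)) (π : Fin n → Bool) (ε : ℤ) : Prop :=
  (ε = 1 ∨ ε = -1) ∧ ∀ (T : Type) [Ring T] (p : Fin n → T),
    (∀ i j, i ≠ j → p i * p j = ss (π i) (π j) • (p j * p i)) →
      (List.ofFn fun k => p (σ k)).prod = ε • (List.ofFn p).prod

open Classical in
/-- the universal sign -/
noncomputable def kap {n : ℕ} (σ : Equiv.Perm (Fin n)) (π : Fin n → Bool) : ℤ :=
  if h : ∃ ε, IsSign σ π ε then h.choose else 1

/-- `e_τ f = ∑ ± σ f`, sum over the permutations with `τ ∘ σ = τ` -/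
noncomputable def eop {E O : Type} {n : ℕ} (τ : Fin n → E ⊕ O) (f : UA) : UA :=
  open Classical in
  ∑ σ ∈ Finset.univ.filter (fun σ : Equiv.Perm (Fin n) => τ ∘ σ = τ),
    kap σ (par ∘ τ) • lsub (extd fun k => (σ k : ℕ)) f

/-! ### super evaluation in the ring `T` over `A[z]` -/

section T

variable {E O T : Type} [Ring T] [Algebra UA T] [Algebra ℂ T]

/-- the list `(τ 0, φ 0), …, (τ (n-1), φ (n-1))` -/
def lis {E O : Type} {n : ℕ} (τ : Fin n → E ⊕ O) (φ : Fin n → ℕ) : List ((E ⊕ O) × ℕ) :=
  List.ofFn fun k => (τ k, φ k)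

/-- sequences of elements of `T` -/
def TN (_ : SAlg E O UA T) : Type := ℕ → T

variable (S : SAlg E O UA T)

noncomputable instance : Ring (TN S) := inferInstanceAs (Ring (ℕ → T))

noncomputable instance : Algebra ℂ (TN S) := inferInstanceAs (Algebra ℂ (ℕ → T))

/-- the super evaluation `f_τ` -/
noncomputable def ft {n : ℕ} (τ : Fin n → E ⊕ O) (f : UA) : TN S := fun m =>
  ∑ ι : Fin n → Fin m, algebraMap UA T (lsub (extd fun k => (ι k : ℕ)) f) *
    S.pp (lis τ fun k => (ι k : ℕ))

/-- `X_{yy'}` -/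
noncomputable def XX (y y' : E ⊕ O) : TN S := fun m =>
  ∑ i ∈ Finset.range m, ∑ j ∈ Finset.range m,
    algebraMap UA T (C (X s(i, j))) * (S.P y i * S.P y' j)

/-- `Z_{a,y}` -/
noncomputable def ZZ (a : ℕ) (y : E ⊕ O) : TN S := fun m =>
  ∑ i ∈ Finset.range m, algebraMap UA T (X (a, i)) * S.P y i

theorem XX_central (y y' : E ⊕ O) (h : par y = par y') (t : TN S) : XX S y y' * t = t * XX S y y' := by
  funext m
  change (∑ i ∈ Finset.range m, ∑ j ∈ Finset.range m,
    algebraMap UA T (C (X s(i, j))) * (S.P y i * S.P y' j)) * t m =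
    t m * ∑ i ∈ Finset.range m, ∑ j ∈ Finset.range m,
    algebraMap UA T (C (X s(i, j))) * (S.P y i * S.P y' j)
  rw [Finset.sum_mul, Finset.mul_sum]
  refine Finset.sum_congr rfl fun i _ => ?_
  rw [Finset.sum_mul, Finset.mul_sum]
  refine Finset.sum_congr rfl fun j _ => ?_
  rw [mul_assoc, S.pair_central y y' h, ← mul_assoc, Algebra.commutes, mul_assoc]

/-- the polynomial ring `K` in the variables `X_{aa'}`, `X_{bb'}` -/
abbrev KK (E O : Type) := MvPolynomial ((E × E) ⊕ (O × O)) ℂ

/-- `K → center` -/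
noncomputable def KH : KK E O →ₐ[ℂ] Subalgebra.center ℂ (TN S) :=
  aeval (Sum.elim
    (fun p => ⟨XX S (Sum.inl p.1) (Sum.inl p.2), by
      rw [Subalgebra.mem_center_iff]
      intro t
      exact (XX_central S (Sum.inl p.1) (Sum.inl p.2) rfl t).symm⟩)
    (fun p => ⟨XX S (Sum.inr p.1) (Sum.inr p.2), by
      rw [Subalgebra.mem_center_iff]
      intro t
      exact (XX_central S (Sum.inr p.1) (Sum.inr p.2) rfl t).symm⟩))

noncomputable instance instAlgKK : Algebra (KK E O) (TN S) :=
  ((Subalgebra.center ℂ (TN S)).val.toRingHom.comp (KH S).toRingHom).toAlgebra' (by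
    intro c x
    exact (Subalgebra.mem_center_iff.1 (KH S c).2 x).symm)

/-- `N ⊗ T_0` -/
def NT (N : Submodule MP50e386.A UA) : AddSubgroup T :=
  AddSubgroup.closure {x | ∃ f ∈ N, ∃ l : List ((E ⊕ O) × ℕ), x = algebraMap UA T f * S.pp l}

/-- the ideal `h` of `A` as a submodule of `A[z]` -/
noncomputable def IU (h : Ideal MP50e386.A) : Submodule MP50e386.A UA :=
  Submodule.map (Algebra.linearMap MP50e386.A UA) h

/-- products of at least `j` factors `χ = X_{ab}`, `a` even, `b` odd -/
noncomputable def Chi (j : ℕ) : Submodule (KK E O) (TN S) :=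
  Submodule.span (KK E O) {x | ∃ l : List (E × O), j ≤ l.length ∧
    x = (l.map fun p => XX S (Sum.inl p.1) (Sum.inr p.2)).prod}

/-- products of at most `D` factors `Z_{a,y}`, `a < L` -/
noncomputable def ZD (L D : ℕ) : Submodule (KK E O) (TN S) :=
  Submodule.span (KK E O) {x | ∃ l : List (ℕ × (E ⊕ O)), (∀ p ∈ l, p.1 < L) ∧ l.length ≤ D ∧
    x = (l.map fun p => ZZ S p.1 p.2).prod}

/-- `SS_{≤ D}` -/
noncomputable def SSD (L D : ℕ) : Submodule (KK E O) (TN S) := Chi S 0 * ZD S L D

end T

/-! ### forms and the exterior evaluation -/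

/-- a super form over `ℂ` with values of the legs -/
structure Form (E O : Type) where
  be : E → E → ℂ
  be_symm : ∀ a a', be a a' = be a' a
  ze : O → O → ℂ
  ze_anti : ∀ b b', ze b b' = - ze b' b
  le : ℕ → E → ℂ

/-- the standard form of the super space `r + L | 2 s` -/
def stdW (r L s : ℕ) : Form (Fin r ⊕ Fin L) (Fin s ⊕ Fin s) where
  be a a' := match a, a' with
    | Sum.inl i, Sum.inl j => if i = j then 1 else 0
    | _, _ => 0
  be_symm a a' := by
    rcases a with i | i <;> rcases a' with j | j <;> simp [eq_comm]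
  ze b b' := match b, b' with
    | Sum.inl i, Sum.inr j => if i = j then 1 else 0
    | Sum.inr i, Sum.inl j => if i = j then -1 else 0
    | _, _ => 0
  ze_anti b b' := by
    rcases b with i | i <;> rcases b' with j | j <;> simp [eq_comm] <;> split_ifs <;> norm_num
  le a y := match y with
    | Sum.inl _ => 0
    | Sum.inr k => if a = k.val then 1 else 0

/-- evaluation of an element of `K` at a form -/
noncomputable def kev {E O : Type} (W : Form E O) : KK E O →ₐ[ℂ] ℂ :=
  aeval (Sum.elim (fun p => W.be p.1 p.2) (fun p => W.ze p.1 p.2))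

/-- pull back of a form -/
noncomputable def Form.pull {E O E' O' : Type} [Fintype E'] [Fintype O'] (W : Form E' O')
    (M : E' → E → ℂ) (M' : O' → O → ℂ) : Form E O where
  be a a' := ∑ u, ∑ u', M u a * M u' a' * W.be u u'
  be_symm a a' := by
    rw [Finset.sum_comm]
    refine Finset.sum_congr rfl fun u _ => Finset.sum_congr rfl fun u' _ => ?_
    rw [W.be_symm u' u, mul_comm (M u' a)]
  ze b b' := ∑ u, ∑ u', M' u b * M' u' b' * W.ze u u'
  ze_anti b b' := by
    rw [Finset.sum_comm, ← Finset.sum_neg_distrib]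
    refine Finset.sum_congr rfl fun u _ => ?_
    rw [← Finset.sum_neg_distrib]
    refine Finset.sum_congr rfl fun u' _ => ?_
    rw [W.ze_anti u' u, mul_comm (M' u' b)]
    ring
  le l a := ∑ u, M u a * W.le l u

section EV

variable {E O T : Type} [Fintype E] [Fintype O] [Ring T] [Algebra ℂ T] (S : SAlg E O ℂ T)
  (W : Form E O)

/-- the image of `x_ij` -/
noncomputable def evx (i j : ℕ) : T :=
  ∑ a, ∑ a', W.be a a' • (S.P (Sum.inl a) i * S.P (Sum.inl a') j) +
    ∑ b, ∑ b', W.ze b b' • (S.P (Sum.inr b) i * S.P (Sum.inr b') j)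

/-- the image of `z_{a,i}` -/
noncomputable def evz (a i : ℕ) : T := ∑ y, W.le a y • S.P (Sum.inl y) i

theorem evx_mem_center (i j : ℕ) : evx S W i j ∈ Subalgebra.center ℂ T := by
  rw [Subalgebra.mem_center_iff]
  intro t
  unfold evx
  rw [mul_add, add_mul]
  congr 1
  · rw [Finset.mul_sum, Finset.sum_mul]
    refine Finset.sum_congr rfl fun a _ => ?_
    rw [Finset.mul_sum, Finset.sum_mul]
    refine Finset.sum_congr rfl fun a' _ => ?_
    rw [smul_mul_assoc, mul_smul_comm, S.pair_central (Sum.inl a) (Sum.inl a') rfl]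
  · rw [Finset.mul_sum, Finset.sum_mul]
    refine Finset.sum_congr rfl fun a _ => ?_
    rw [Finset.mul_sum, Finset.sum_mul]
    refine Finset.sum_congr rfl fun a' _ => ?_
    rw [smul_mul_assoc, mul_smul_comm, S.pair_central (Sum.inr a) (Sum.inr a') rfl]

theorem evz_mem_center (a i : ℕ) : evz S W a i ∈ Subalgebra.center ℂ T := by
  rw [Subalgebra.mem_center_iff]
  intro t
  unfold evz
  rw [Finset.mul_sum, Finset.sum_mul]
  refine Finset.sum_congr rfl fun y _ => ?_
  rw [smul_mul_assoc, mul_smul_comm, S.even_central]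

theorem evx_comm (i j : ℕ) : evx S W i j = evx S W j i := by
  unfold evx
  congr 1
  · rw [Finset.sum_comm]
    refine Finset.sum_congr rfl fun a _ => Finset.sum_congr rfl fun a' _ => ?_
    rw [W.be_symm a' a, S.even_central]
  · rw [Finset.sum_comm]
    refine Finset.sum_congr rfl fun b _ => Finset.sum_congr rfl fun b' _ => ?_
    rw [W.ze_anti b' b, S.comm (Sum.inr b') i (Sum.inr b) j]
    have e : ss (par (Sum.inr b' : E ⊕ O)) (par (Sum.inr b : E ⊕ O)) = -1 := by simp [ss, par]
    have e2 : ∀ x : T, (-1 : ℤ) • x = -x := fun x => by simp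
    rw [e, e2, smul_neg, neg_smul, neg_neg]

/-- the exterior evaluation `A[z] → center T` of the form `W` -/
noncomputable def evF : UA →+* Subalgebra.center ℂ T :=
  eval₂Hom ((aeval (Sym2.lift ⟨fun i j => (⟨evx S W i j, evx_mem_center S W i j⟩ :
      Subalgebra.center ℂ T), fun i j => by
        rw [Subtype.mk.injEq]; exact evx_comm S W i j⟩) :
      MP50e386.A →ₐ[ℂ] Subalgebra.center ℂ T).toRingHom)
    (fun p => ⟨evz S W p.1 p.2, evz_mem_center S W p.1 p.2⟩)

end EV

/-- `w` is the table of the values of the multilinear element `f ∈ A[z]` at the form `W`: the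
exterior evaluation is `∑_τ w(τ) ∏_k P_{τ(k), φ(k)}`. -/
def IsW {E O : Type} [Fintype E] [Fintype O] [DecidableEq E] [DecidableEq O] (n : ℕ)
    (W : Form E O) (f : UA) (w : (Fin n → E ⊕ O) → ℂ) : Prop :=
  ∀ (T : Type) [Ring T] [Algebra ℂ T] (S : SAlg E O ℂ T) (φ : Fin n → ℕ),
    ((evF S W (lsub (extd φ) f) : Subalgebra.center ℂ T) : T) = ∑ τ, w τ • S.pp (lis τ φ)

end MP50e386N
end

section
/-! [N50 K28] the relations of `K`, and the Nullstellensatz. -/

namespace MP50e386N

open MvPolynomial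

/-- `F₀` -/
noncomputable def F0 (E O : Type) [Fintype E] [Fintype O] [DecidableEq E] [DecidableEq O] :
    KK E O :=
  (Matrix.of fun a a' : E => (X (Sum.inl (a, a')) : KK E O)).det *
    (Matrix.of fun b b' : O => (X (Sum.inr (b, b')) : KK E O)).det

/-- `K`-relations: `X_{aa'} = X_{a'a}`, `X_{bb'} = - X_{b'b}` -/
noncomputable def Rel (E O : Type) : Ideal (KK E O) :=
  Ideal.span ({P | ∃ a a' : E, P = X (Sum.inl (a, a')) - X (Sum.inl (a', a))} ∪
    {P | ∃ b b' : O, P = X (Sum.inr (b, b')) + X (Sum.inr (b', b))})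

private theorem k28_XX_inl {E O T : Type} [Ring T] [Algebra UA T] [Algebra ℂ T]
    (S : SAlg E O UA T) (a a' : E) :
    XX S (Sum.inl a) (Sum.inl a') = XX S (Sum.inl a') (Sum.inl a) := by
  funext m
  change (∑ i ∈ Finset.range m, ∑ j ∈ Finset.range m,
    algebraMap UA T (C (X s(i, j))) * (S.P (Sum.inl a) i * S.P (Sum.inl a') j)) =
    ∑ i ∈ Finset.range m, ∑ j ∈ Finset.range m,
    algebraMap UA T (C (X s(i, j))) * (S.P (Sum.inl a') i * S.P (Sum.inl a) j)
  rw [Finset.sum_comm]
  refine Finset.sum_congr rfl fun i _ => Finset.sum_congr rfl fun j _ => ?_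
  rw [S.even_central, Sym2.eq_swap]

private theorem k28_XX_inr {E O T : Type} [Ring T] [Algebra UA T] [Algebra ℂ T]
    (S : SAlg E O UA T) (b b' : O) :
    XX S (Sum.inr b) (Sum.inr b') = - XX S (Sum.inr b') (Sum.inr b) := by
  funext m
  change (∑ i ∈ Finset.range m, ∑ j ∈ Finset.range m,
    algebraMap UA T (C (X s(i, j))) * (S.P (Sum.inr b) i * S.P (Sum.inr b') j)) =
    - ∑ i ∈ Finset.range m, ∑ j ∈ Finset.range m,
    algebraMap UA T (C (X s(i, j))) * (S.P (Sum.inr b') i * S.P (Sum.inr b) j)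
  rw [Finset.sum_comm, ← Finset.sum_neg_distrib]
  refine Finset.sum_congr rfl fun i _ => ?_
  rw [← Finset.sum_neg_distrib]
  refine Finset.sum_congr rfl fun j _ => ?_
  have e : ss (par (Sum.inr b : E ⊕ O)) (par (Sum.inr b' : E ⊕ O)) = -1 := by simp [ss, par]
  have e2 : ∀ x : T, (-1 : ℤ) • x = -x := fun x => by simp
  rw [S.comm (Sum.inr b) j (Sum.inr b') i, e, e2, Sym2.eq_swap, mul_neg]

private theorem k28_ker {E O T : Type} [Ring T] [Algebra UA T] [Algebra ℂ T]
    (S : SAlg E O UA T) : Rel E O ≤ RingHom.ker (KH S) := by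
  unfold Rel
  rw [Ideal.span_le]
  rintro P (⟨a, a', rfl⟩ | ⟨b, b', rfl⟩)
  · change KH S _ = 0
    rw [map_sub, sub_eq_zero]
    unfold KH
    rw [aeval_X, aeval_X]
    apply Subtype.ext
    exact k28_XX_inl S a a'
  · change KH S _ = 0
    rw [map_add, ← eq_neg_iff_add_eq_zero]
    unfold KH
    rw [aeval_X, aeval_X]
    apply Subtype.ext
    exact k28_XX_inr S b b'

theorem Rel_smul {E O T : Type} [Ring T] [Algebra UA T] [Algebra ℂ T] (S : SAlg E O UA T)
    {P : KK E O} (hP : P ∈ Rel E O) (F : TN S) : P • F = 0 := by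
  have h : KH S P = 0 := k28_ker S hP
  have h2 : P • F = ((KH S P : Subalgebra.center ℂ (TN S)) : TN S) * F := rfl
  rw [h2, h, ZeroMemClass.coe_zero, zero_mul]

/-- a polynomial vanishing at all forms with `G = 0` has a power in `(G) + Rel` -/
theorem nullst {E O : Type} [Fintype E] [Fintype O] [DecidableEq E] [DecidableEq O]
    (bb : Ideal (KK E O)) (G : KK E O) (h : ∀ P ∈ bb, ∀ W : Form E O, kev W G = 0 → kev W P = 0) :
    ∃ e, bb ^ e ≤ Ideal.span {G} ⊔ Rel E O := by
  set I : Ideal (KK E O) := Ideal.span {G} ⊔ Rel E O with hI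
  have h1 : bb ≤ I.radical := by
    intro P hP
    rw [← vanishingIdeal_zeroLocus_eq_radical (K := ℂ) I, mem_vanishingIdeal_iff]
    intro x hx
    rw [mem_zeroLocus_iff] at hx
    have hr : Rel E O ≤ I := le_sup_right
    have hG : G ∈ I := (le_sup_left : Ideal.span {G} ≤ I) (Ideal.mem_span_singleton_self G)
    let W : Form E O :=
      { be := fun a a' => x (Sum.inl (a, a'))
        be_symm := fun a a' => by
          have h2 := hx _ (hr (Ideal.subset_span (Or.inl ⟨a, a', rfl⟩)))
          rw [map_sub, aeval_X, aeval_X, sub_eq_zero] at h2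
          exact h2
        ze := fun b b' => x (Sum.inr (b, b'))
        ze_anti := fun b b' => by
          have h2 := hx _ (hr (Ideal.subset_span (Or.inr ⟨b, b', rfl⟩)))
          rw [map_add, aeval_X, aeval_X, ← eq_neg_iff_add_eq_zero] at h2
          exact h2
        le := fun _ _ => 0 }
    have hW : ∀ Q : KK E O, kev W Q = aeval x Q := by
      intro Q
      have e : (Sum.elim (fun p : E × E => W.be p.1 p.2) (fun p : O × O => W.ze p.1 p.2)) = x := by
        funext p
        rcases p with p | p <;> rfl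
      unfold kev
      rw [e]
    rw [← hW]
    exact h P hP W (by rw [hW]; exact hx G hG)
  obtain ⟨n, hn⟩ := Ideal.exists_radical_pow_le_of_fg I (IsNoetherian.noetherian _)
  exact ⟨n, (Ideal.pow_right_mono h1 n).trans hn⟩

end MP50e386N
end

section
/-! [N50 K01] the free supercommutative algebra exists. -/

namespace MP50e386N

open MvPolynomial

/-- the concrete free supercommutative algebra; `TT (Fin r) (Fin s ⊕ Fin s) ℂ = EB r s` -/
abbrev TT (E O B : Type) [CommRing B] :=
  ExteriorAlgebra (MvPolynomial (ℕ × E) B) ((ℕ × O) →₀ MvPolynomial (ℕ × E) B)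

section k01

variable {S Q : Type} [CommRing S]

/-- coordinates along a list -/
private noncomputable def k01_crd (lo : List Q) (n : ℕ) : (Q →₀ S) →ₗ[S] (Fin n → S) :=
  LinearMap.pi fun k => (lo[(k : ℕ)]?).elim 0 fun q => Finsupp.lapply q

open Classical in
private theorem k01_crd_single (lo : List Q) (n : ℕ) (q : Q) (k : Fin n) :
    k01_crd (S := S) lo n (Finsupp.single q 1) k = if lo[(k : ℕ)]? = some q then 1 else 0 := by
  unfold k01_crd
  rw [LinearMap.pi_apply]
  cases h : lo[(k : ℕ)]? with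
  | none => simp
  | some q' =>
    simp only [Option.elim_some, Finsupp.lapply_apply, Option.some.injEq]
    rw [Finsupp.single_apply]
    by_cases h1 : q = q'
    · rw [if_pos h1, if_pos h1.symm]
    · rw [if_neg h1, if_neg fun h2 => h1 h2.symm]

/-- the functional given by a list -/
private noncomputable def k01_D (lo : List Q) : ExteriorAlgebra S (Q →₀ S) →ₗ[S] S :=
  ExteriorAlgebra.liftAlternating fun n => if n = lo.length then
    (Matrix.detRowAlternating (R := S) (n := Fin n)).compLinearMap (k01_crd lo n) else 0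

/-- the monomial given by a list -/
private noncomputable def k01_m (lo : List Q) : ExteriorAlgebra S (Q →₀ S) :=
  (lo.map fun q => ExteriorAlgebra.ι S (Finsupp.single q (1 : S))).prod

open Classical in
/-- the matrix -/
private noncomputable def k01_M (S : Type) [CommRing S] (lo lo' : List Q) :
    Matrix (Fin lo'.length) (Fin lo'.length) S :=
  fun j k => if lo[(k : ℕ)]? = some (lo'.get j) then 1 else 0

private theorem k01_D_m (lo lo' : List Q) :
    k01_D (S := S) lo (k01_m lo') = if lo'.length = lo.length then (k01_M S lo lo').det else 0 := by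
  have h1 : (k01_m lo' : ExteriorAlgebra S (Q →₀ S)) =
      ExteriorAlgebra.ιMulti S lo'.length (fun j => Finsupp.single (lo'.get j) (1 : S)) := by
    rw [ExteriorAlgebra.ιMulti_apply]
    unfold k01_m
    conv_lhs => rw [← List.ofFn_get lo', List.map_ofFn]
    rfl
  rw [h1]
  unfold k01_D
  rw [ExteriorAlgebra.liftAlternating_apply_ιMulti]
  split_ifs with h
  · rw [AlternatingMap.compLinearMap_apply]
    change Matrix.det _ = _
    congr 1
    funext j k
    exact k01_crd_single lo _ _ k
  · rfl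

private theorem k01_D_int (lo lo' : List Q) :
    ∃ z : ℤ, ∀ (S : Type) [CommRing S], k01_D (S := S) lo (k01_m lo') = (z : S) := by
  classical
  by_cases h : lo'.length = lo.length
  · refine ⟨(k01_M ℤ lo lo').det, fun S _ => ?_⟩
    rw [k01_D_m, if_pos h]
    have h1 : k01_M S lo lo' = (Int.castRingHom S).mapMatrix (k01_M ℤ lo lo') := by
      funext j k
      change _ = Int.castRingHom S (k01_M ℤ lo lo' j k)
      unfold k01_M
      split_ifs <;> simp
    rw [h1, ← RingHom.map_det]
    rfl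
  · refine ⟨0, fun S _ => ?_⟩
    rw [k01_D_m, if_neg h, Int.cast_zero]

private theorem k01_D_self (lo : List Q) (h : lo.Nodup) :
    k01_D (S := S) lo (k01_m lo) = 1 := by
  classical
  rw [k01_D_m, if_pos rfl]
  have h1 : k01_M S lo lo = 1 := by
    funext j k
    unfold k01_M
    rw [Matrix.one_apply]
    have h2 : lo[(k : ℕ)]? = some (lo.get k) := by simp
    rw [h2]
    by_cases hjk : j = k
    · rw [if_pos hjk, hjk, if_pos rfl]
    · rw [if_neg hjk, if_neg]
      intro h3
      exact hjk ((List.Nodup.get_inj_iff h).1 (Option.some.inj h3)).symm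
  rw [h1, Matrix.det_one]

private theorem k01_D_ne (lo lo' : List Q) (h : ¬ lo.Perm lo') :
    k01_D (S := S) lo (k01_m lo') = 0 := by
  classical
  rw [k01_D_m]
  split_ifs with hl
  · by_cases hn : lo'.Nodup
    · have h1 : ∃ q ∈ lo', q ∉ lo := by
        by_contra hc
        push Not at hc
        exact h ((hn.subperm hc).perm_of_length_le hl.ge).symm
      obtain ⟨q, hq, hq'⟩ := h1
      obtain ⟨j, hj⟩ := List.get_of_mem hq
      refine Matrix.det_eq_zero_of_row_eq_zero j fun k => ?_
      unfold k01_M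
      rw [if_neg]
      intro h2
      rw [hj] at h2
      exact hq' (List.mem_of_getElem? h2)
    · rw [List.nodup_iff_injective_get] at hn
      unfold Function.Injective at hn
      push Not at hn
      obtain ⟨i, j, hij, hne⟩ := hn
      refine Matrix.det_zero_of_row_eq hne ?_
      funext k
      unfold k01_M
      rw [hij]
  · rfl

end k01

section k01'

variable {E O B : Type} [CommRing B]

/-- the odd part of a list -/
private def k01_lo (l : List ((E ⊕ O) × ℕ)) : List (ℕ × O) :=
  l.filterMap fun p => p.1.elim (fun _ => none) (fun b => some (p.2, b))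

/-- the even part of a list -/
private noncomputable def k01_me : List ((E ⊕ O) × ℕ) → (ℕ × E) →₀ ℕ
  | [] => 0
  | (Sum.inl a, i) :: l => Finsupp.single (i, a) 1 + k01_me l
  | (Sum.inr _, _) :: l => k01_me l

private theorem k01_lo_inl (a : E) (i : ℕ) (l : List ((E ⊕ O) × ℕ)) :
    k01_lo ((Sum.inl a, i) :: l) = k01_lo l := List.filterMap_cons_none rfl

private theorem k01_lo_inr (b : O) (i : ℕ) (l : List ((E ⊕ O) × ℕ)) :
    k01_lo ((Sum.inr b, i) :: l) = (i, b) :: k01_lo l := List.filterMap_cons_some rfl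

private theorem k01_perm (l l' : List ((E ⊕ O) × ℕ)) (h : (k01_lo l).Perm (k01_lo l'))
    (h' : k01_me l = k01_me l') : l.Perm l' := by
  have : DecidableEq E := Classical.decEq _
  have : DecidableEq O := Classical.decEq _
  let inst : BEq ((E ⊕ O) × ℕ) := instBEqOfDecidableEq
  have c1 : ∀ (l : List ((E ⊕ O) × ℕ)) (a : E) (i : ℕ),
      l.count (Sum.inl a, i) = k01_me l (i, a) := by
    intro l a i
    induction l with
    | nil => simp [k01_me]
    | cons p l ih =>
      obtain ⟨y | y, j⟩ := p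
      · rw [List.count_cons, ih]
        simp only [k01_me, Finsupp.add_apply, Finsupp.single_apply, Prod.mk.injEq, beq_iff_eq,
          Sum.inl.injEq]
        by_cases h1 : y = a <;> by_cases h2 : j = i <;> simp [h1, h2, add_comm]
      · rw [List.count_cons, ih]
        simp [k01_me]
  have c2 : ∀ (l : List ((E ⊕ O) × ℕ)) (b : O) (i : ℕ),
      l.count (Sum.inr b, i) = (k01_lo l).count (i, b) := by
    intro l b i
    induction l with
    | nil => simp [k01_lo]
    | cons p l ih =>
      obtain ⟨y | y, j⟩ := p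
      · rw [List.count_cons, ih]
        rw [k01_lo_inl]
        simp
      · rw [List.count_cons, ih]
        rw [k01_lo_inr, List.count_cons]
        by_cases h1 : y = b <;> by_cases h2 : j = i <;> simp [h1, h2]
  rw [List.perm_iff_count]
  rintro ⟨y | y, i⟩
  · rw [c1, c1, h']
  · rw [c2, c2, h.count_eq]

/-- the generators -/
private noncomputable def k01_P (B : Type) [CommRing B] (y : E ⊕ O) (i : ℕ) : TT E O B :=
  y.elim (fun a => algebraMap (MvPolynomial (ℕ × E) B) (TT E O B) (X (i, a)))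
    (fun b => ExteriorAlgebra.ι (MvPolynomial (ℕ × E) B) (Finsupp.single (i, b) 1))

private theorem k01_pp (l : List ((E ⊕ O) × ℕ)) :
    (l.map fun p => k01_P B p.1 p.2).prod =
      algebraMap (MvPolynomial (ℕ × E) B) (TT E O B) (monomial (k01_me l) 1) *
        k01_m (k01_lo l) := by
  induction l with
  | nil => simp [k01_me, k01_lo, k01_m]
  | cons p l ih =>
    obtain ⟨y | y, j⟩ := p
    · rw [List.map_cons, List.prod_cons, ih]
      rw [k01_lo_inl, ← mul_assoc]
      congr 1
      change algebraMap (MvPolynomial (ℕ × E) B) (TT E O B) (X (j, y)) * _ = _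
      rw [← map_mul]
      congr 1
      change monomial _ _ * monomial _ _ = monomial (Finsupp.single (j, y) 1 + k01_me l) 1
      rw [monomial_mul, one_mul]
    · rw [List.map_cons, List.prod_cons, ih]
      rw [k01_lo_inr, ← mul_assoc, ← Algebra.commutes, mul_assoc]
      congr 1

private noncomputable def k01_coef (l : List ((E ⊕ O) × ℕ)) : TT E O B →ₗ[B] B :=
  (MvPolynomial.lcoeff B (k01_me l)).comp ((k01_D (k01_lo l)).restrictScalars B)

private theorem k01_coef_pp (l l' : List ((E ⊕ O) × ℕ)) :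
    k01_coef l ((l'.map fun p => k01_P B p.1 p.2).prod) =
      coeff (k01_me l) (monomial (k01_me l') (1 : B) * k01_D (k01_lo l) (k01_m (k01_lo l'))) := by
  rw [k01_pp]
  unfold k01_coef
  rw [LinearMap.comp_apply, LinearMap.restrictScalars_apply, ← Algebra.smul_def, map_smul,
    smul_eq_mul]
  rfl

private theorem k01_comm (y : E ⊕ O) (i : ℕ) (y' : E ⊕ O) (i' : ℕ) :
    k01_P B y i * k01_P B y' i' = ss (par y) (par y') • (k01_P B y' i' * k01_P B y i) := by
  rcases y with a | b
  · have h : ss (par (Sum.inl a : E ⊕ O)) (par y') = 1 := by simp [ss, par]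
    rw [h, one_smul]
    exact Algebra.commutes _ _
  · rcases y' with a' | b'
    · have h : ss (par (Sum.inr b : E ⊕ O)) (par (Sum.inl a' : E ⊕ O)) = 1 := by simp [ss, par]
      rw [h, one_smul]
      exact (Algebra.commutes _ _).symm
    · have h : ss (par (Sum.inr b : E ⊕ O)) (par (Sum.inr b' : E ⊕ O)) = -1 := by simp [ss, par]
      rw [h, neg_smul, one_smul]
      exact eq_neg_of_add_eq_zero_left (ExteriorAlgebra.ι_add_mul_swap _ _)

private theorem k01_gen :
    Algebra.adjoin B {t | ∃ (y : E ⊕ O) (i : ℕ), t = k01_P B y i} = ⊤ := by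
  rw [Algebra.eq_top_iff]
  intro t
  have halg : ∀ r : MvPolynomial (ℕ × E) B, algebraMap (MvPolynomial (ℕ × E) B) (TT E O B) r ∈
      Algebra.adjoin B {t | ∃ (y : E ⊕ O) (i : ℕ), t = k01_P B y i} := by
    intro r
    induction r using MvPolynomial.induction_on with
    | C c =>
      have : algebraMap (MvPolynomial (ℕ × E) B) (TT E O B) (C c) = algebraMap B (TT E O B) c :=
        (IsScalarTower.algebraMap_apply B (MvPolynomial (ℕ × E) B) (TT E O B) c).symm
      rw [this]
      exact Subalgebra.algebraMap_mem _ c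
    | add p q hp hq =>
      rw [map_add]
      exact Subalgebra.add_mem _ hp hq
    | mul_X p x hp =>
      rw [map_mul]
      exact Subalgebra.mul_mem _ hp (Algebra.subset_adjoin ⟨Sum.inl x.2, x.1, rfl⟩)
  induction t using ExteriorAlgebra.induction with
  | algebraMap r => exact halg r
  | ι x =>
    induction x using Finsupp.induction_linear with
    | zero =>
      rw [map_zero]
      exact Subalgebra.zero_mem _
    | add x y hx hy =>
      rw [map_add]
      exact Subalgebra.add_mem _ hx hy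
    | single q r =>
      have h1 : (Finsupp.single q r : (ℕ × O) →₀ MvPolynomial (ℕ × E) B) =
          r • Finsupp.single q 1 := by
        rw [Finsupp.smul_single, smul_eq_mul, mul_one]
      rw [h1, map_smul, Algebra.smul_def]
      exact Subalgebra.mul_mem _ (halg r) (Algebra.subset_adjoin ⟨Sum.inr q.2, q.1, rfl⟩)
  | mul a b ha hb => exact Subalgebra.mul_mem _ ha hb
  | add a b ha hb => exact Subalgebra.add_mem _ ha hb

private theorem k01_nodup (l : List ((E ⊕ O) × ℕ)) (h : l.Nodup) : (k01_lo l).Nodup := by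
  unfold k01_lo
  refine h.filterMap ?_
  rintro ⟨y | y, i⟩ ⟨y' | y', i'⟩ q hq hq'
  · exact absurd hq (by simp)
  · exact absurd hq (by simp)
  · exact absurd hq' (by simp)
  · simp only [Sum.elim_inr, Option.mem_def, Option.some.injEq] at hq hq'
    rw [← hq'] at hq
    simp only [Prod.mk.injEq] at hq
    rw [hq.1, hq.2]

/-- the free supercommutative algebra -/
private noncomputable def k01_S (E O B : Type) [CommRing B] : SAlg E O B (TT E O B) where
  P := k01_P B
  comm := k01_comm
  sq := fun b i => ExteriorAlgebra.ι_sq_zero _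
  gen := k01_gen
  coef := k01_coef
  coef_self := by
    classical
    intro l hl
    rw [k01_coef_pp, k01_D_self _ (k01_nodup l hl), mul_one, coeff_monomial, if_pos rfl]
  coef_ne := by
    classical
    intro l l' hl
    rw [k01_coef_pp]
    by_cases h : (k01_lo l).Perm (k01_lo l')
    · have h' : k01_me l' ≠ k01_me l := fun h' => hl (k01_perm l l' h h'.symm)
      obtain ⟨z, hz⟩ := k01_D_int (k01_lo l) (k01_lo l')
      rw [hz]
      have h1 : ((z : ℤ) : MvPolynomial (ℕ × E) B) = C (z : B) := by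
        rw [map_intCast]
      rw [h1, mul_comm, coeff_C_mul, coeff_monomial, if_neg h', mul_zero]
    · rw [k01_D_ne _ _ h, mul_zero, coeff_zero]

end k01'

theorem exists_SAlg_TT (E O B : Type) [CommRing B] : ∃ S : SAlg E O B (TT E O B),
    (∀ a i, S.P (Sum.inl a) i = algebraMap (MvPolynomial (ℕ × E) B) (TT E O B) (X (i, a))) ∧
    ∀ b i, S.P (Sum.inr b) i =
      ExteriorAlgebra.ι (MvPolynomial (ℕ × E) B) (Finsupp.single (i, b) 1) :=
  ⟨k01_S E O B, fun _ _ => rfl, fun _ _ => rfl⟩

theorem exists_SAlg (E O B : Type) [CommRing B] [Algebra ℂ B] :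
    ∃ (T : Type) (_ : Ring T) (_ : Algebra B T) (_ : Algebra ℂ T) (_ : IsScalarTower ℂ B T),
      Nonempty (SAlg E O B T) := by
  obtain ⟨S, -, -⟩ := exists_SAlg_TT E O B
  let i1 : Algebra ℂ (TT E O B) := Algebra.compHom (TT E O B) (algebraMap ℂ B)
  refine ⟨TT E O B, inferInstance, inferInstance, i1, ?_, ⟨S⟩⟩
  refine ⟨fun c b t => ?_⟩
  change (c • b) • t = algebraMap ℂ B c • (b • t)
  have h : c • b = algebraMap ℂ B c * b := Algebra.smul_def c b
  rw [h, mul_smul]

end MP50e386N
end

section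
/-! [N50 K03] the universal sign. -/

namespace MP50e386N

private theorem k03_ss (a b : Bool) : ss a b = 1 ∨ ss a b = -1 := by
  unfold ss
  split_ifs
  · exact Or.inr rfl
  · exact Or.inl rfl

private theorem k03_list {ι : Type} (π : ι → Bool) {l l' : List ι} (h : l.Perm l') :
    l.Nodup → ∃ ε : ℤ, (ε = 1 ∨ ε = -1) ∧ ∀ (T : Type) [Ring T] (p : ι → T),
      (∀ i j, i ≠ j → p i * p j = ss (π i) (π j) • (p j * p i)) →
        (l.map p).prod = ε • (l'.map p).prod := by
  induction h with
  | nil =>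
    intro _
    exact ⟨1, Or.inl rfl, fun T _ p _ => by rw [one_smul]⟩
  | cons x _ ih =>
    intro hn
    obtain ⟨ε, h1, h2⟩ := ih (List.nodup_cons.1 hn).2
    refine ⟨ε, h1, fun T _ p hp => ?_⟩
    rw [List.map_cons, List.map_cons, List.prod_cons, List.prod_cons, h2 T p hp, mul_smul_comm]
  | swap x y l =>
    intro hn
    have hne : y ≠ x := by
      intro h
      subst h
      exact (List.nodup_cons.1 hn).1 List.mem_cons_self
    refine ⟨ss (π y) (π x), k03_ss _ _, fun T _ p hp => ?_⟩
    simp only [List.map_cons, List.prod_cons]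
    rw [← mul_assoc, hp y x hne, smul_mul_assoc, mul_assoc]
  | trans h1 _ ih1 ih2 =>
    intro hn
    obtain ⟨ε, a1, a2⟩ := ih1 hn
    obtain ⟨ε', b1, b2⟩ := ih2 (h1.nodup_iff.1 hn)
    refine ⟨ε * ε', ?_, fun T _ p hp => ?_⟩
    · rcases a1 with rfl | rfl <;> rcases b1 with rfl | rfl <;> norm_num
    · rw [a2 T p hp, b2 T p hp, smul_smul]

theorem exists_sign {n : ℕ} (σ : Equiv.Perm (Fin n)) (π : Fin n → Bool) : ∃ ε, IsSign σ π ε := by
  have hperm : (List.ofFn (id ∘ σ)).Perm (List.ofFn (id : Fin n → Fin n)) :=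
    Equiv.Perm.ofFn_comp_perm σ id
  obtain ⟨ε, h1, h2⟩ := k03_list π hperm (List.nodup_ofFn.2 σ.injective)
  refine ⟨ε, h1, fun T _ p hp => ?_⟩
  have h3 := h2 T p hp
  rw [List.map_ofFn, List.map_ofFn] at h3
  exact h3

theorem kap_spec {n : ℕ} (σ : Equiv.Perm (Fin n)) (π : Fin n → Bool) : IsSign σ π (kap σ π) := by
  unfold kap
  rw [dif_pos (exists_sign σ π)]
  exact (exists_sign σ π).choose_spec

theorem kap_mul_self {n : ℕ} (σ : Equiv.Perm (Fin n)) (π : Fin n → Bool) :
    kap σ π * kap σ π = 1 := by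
  rcases (kap_spec σ π).1 with h | h <;> rw [h] <;> norm_num

/-- reordering of a product of generators -/
theorem pp_perm {E O B T : Type} [CommRing B] [Ring T] [Algebra B T] (S : SAlg E O B T) {n : ℕ}
    (τ : Fin n → E ⊕ O) (φ : Fin n → ℕ) (σ : Equiv.Perm (Fin n)) :
    S.pp (lis (τ ∘ σ) (φ ∘ σ)) = kap σ (par ∘ τ) • S.pp (lis τ φ) := by
  have h := (kap_spec σ (par ∘ τ)).2 T (fun k => S.P (τ k) (φ k))
    (fun i j _ => S.comm (τ i) (φ i) (τ j) (φ j))
  unfold SAlg.pp lis
  rw [List.map_ofFn, List.map_ofFn]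
  exact h

/-- products of generators over permuted lists differ by a sign -/
theorem pp_of_perm {E O B T : Type} [CommRing B] [Ring T] [Algebra B T] (S : SAlg E O B T)
    {l l' : List ((E ⊕ O) × ℕ)} (h : l.Perm l') :
    S.pp l = S.pp l' ∨ S.pp l = - S.pp l' := by
  unfold SAlg.pp
  induction h with
  | nil => exact Or.inl rfl
  | cons x _ ih =>
    simp only [List.map_cons, List.prod_cons]
    rcases ih with h | h
    · left
      rw [h]
    · right
      rw [h, mul_neg]
  | swap x y l =>
    simp only [List.map_cons, List.prod_cons]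
    rw [← mul_assoc, S.comm y.1 y.2 x.1 x.2]
    rcases k03_ss (par y.1) (par x.1) with h | h
    · left
      rw [h, one_smul, mul_assoc]
    · right
      rw [h, neg_smul, one_smul, neg_mul, mul_assoc]
  | trans _ _ ih1 ih2 =>
    rcases ih1 with h1 | h1 <;> rcases ih2 with h2 | h2
    · exact Or.inl (h1.trans h2)
    · exact Or.inr (h1.trans h2)
    · right
      rw [h1, h2]
    · left
      rw [h1, h2, neg_neg]

end MP50e386N
end

section
/-! [N50 K04] substitution of letters, multilinear elements. -/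

namespace MP50e386N

open MvPolynomial

private theorem k04_cst_single (i : ℕ) (a : ℂ) :
    (cst (Finsupp.single i a) : VR MP50e386.A) = Finsupp.single i (algebraMap ℂ MP50e386.A a) := by
  simp [cst]

private theorem k04_cst_smul_ee (i : ℕ) (a : ℂ) :
    (cst (a • ee i) : VR MP50e386.A) = Finsupp.single i (algebraMap ℂ MP50e386.A a) := by
  rw [ee, Finsupp.smul_single, smul_eq_mul, mul_one, k04_cst_single]

/-- torus action after a substitution of letters -/
theorem k04_torus (φ : ℕ → ℕ) (t : ℕ → ℂ) (f : UA) :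
    sbC (fun i => t i • ee i) (lsub φ f) = lsub φ (sbC (fun i => t (φ i) • ee i) f) := by
  unfold lsub
  rw [sbC_sbC, sbC_sbC]
  exact congrArg (fun χ : ℕ → V => sbC χ f) (funext fun i => by rw [linC_ee, map_smul, linC_ee])

theorem lsub_C_X (φ : ℕ → ℕ) (i j : ℕ) :
    lsub φ (C (X s(i, j))) = (C (X s(φ i, φ j)) : UA) := by
  unfold lsub
  rw [sbC_C]
  refine congrArg (fun z : MP50e386.A => (C z : UA)) ?_
  have h1 : (X s(i, j) : MP50e386.A) = xv (ee i) (ee j) := (xv_ee i j).symm
  rw [h1, sb_x_cst, linC_ee, linC_ee, xv_ee]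
  rfl

theorem lsub_X (φ : ℕ → ℕ) (a i : ℕ) : lsub φ (X (a, i)) = (X (a, φ i) : UA) := by
  unfold lsub
  rw [sbC_X, ee, k04_cst_single, map_one, zf_single, one_smul]

theorem lsub_smul (φ : ℕ → ℕ) (c : ℂ) (f : UA) : lsub φ (c • f) = c • lsub φ f :=
  sbC_smulC _ c f

theorem lsub_C (φ : ℕ → ℕ) (f : MP50e386.A) :
    lsub φ (C f) = (C (MP50e386.sub (fun k => MP50e386.ee (φ k)) f) : UA) := by
  unfold lsub
  rw [sbC_C]
  refine congrArg (fun z : MP50e386.A => (C z : UA)) ?_
  have h : (sbR (fun k => ee (φ k)) : MP50e386.A →ₐ[ℂ] MP50e386.A) =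
      MP50e386.sub (fun k => MP50e386.ee (φ k)) := by
    apply MvPolynomial.algHom_ext
    intro s
    induction s using Sym2.ind with
    | _ i j =>
      have h1 : (X s(i, j) : MP50e386.A) = xv (ee i) (ee j) := (xv_ee i j).symm
      rw [MP50e386.sub_X, MP50e386.bil_ee, h1, sb_x_cst, linC_ee, linC_ee, xv_ee]
      rfl
  rw [h]

theorem lsub_lsub (φ ψ : ℕ → ℕ) (f : UA) : lsub φ (lsub ψ f) = lsub (φ ∘ ψ) f := by
  unfold lsub
  rw [sbC_sbC]
  exact congrArg (fun χ : ℕ → V => sbC χ f) (funext fun i => by rw [linC_ee]; rfl)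

theorem lsub_id (f : UA) : lsub id f = f := sbC_id f

/-- a multilinear element only depends on the letters `< n` -/
theorem lsub_congr {n : ℕ} {f : UA} (hf : f ∈ UL n) {φ ψ : ℕ → ℕ} (h : ∀ k < n, φ k = ψ k) :
    lsub φ f = lsub ψ f := by
  have h1 := hf (fun i => if i < n then 1 else 0)
  have h2 : (∏ i ∈ Finset.range n, (if i < n then (1 : ℂ) else 0)) = 1 := by
    refine Finset.prod_eq_one fun i hi => ?_
    rw [if_pos (Finset.mem_range.1 hi)]
  rw [h2, one_smul] at h1
  rw [← h1]
  unfold lsub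
  rw [sbC_sbC, sbC_sbC]
  refine congrArg (fun χ : ℕ → V => sbC χ f) (funext fun i => ?_)
  rw [map_smul, map_smul, linC_ee, linC_ee]
  by_cases hi : i < n
  · rw [h i hi]
  · rw [if_neg hi, zero_smul, zero_smul]

theorem GLS.lsub_mem {N : Submodule MP50e386.A UA} (hN : GLS N) (φ : ℕ → ℕ) {f : UA}
    (hf : f ∈ N) : lsub φ f ∈ N := hN _ f hf

theorem UL_perm {n : ℕ} {f : UA} (hf : f ∈ UL n) (σ : Equiv.Perm (Fin n)) :
    lsub (extd fun k => (σ k : ℕ)) f ∈ UL n := by
  intro t
  rw [k04_torus, hf (fun i => t (extd (fun k => (σ k : ℕ)) i)), lsub_smul]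
  refine congrArg (fun c : ℂ => c • lsub (extd fun k => (σ k : ℕ)) f) ?_
  rw [Finset.prod_range, Finset.prod_range]
  have h1 : ∀ i : Fin n, t (extd (fun k => (σ k : ℕ)) (i : ℕ)) = t ((σ i : Fin n) : ℕ) := by
    intro i
    unfold extd
    rw [dif_pos i.2]
  simp only [h1]
  exact Equiv.prod_comp σ (fun i : Fin n => t (i : ℕ))

theorem UL_cat {n' n : ℕ} {h f : UA} (hh : h ∈ UL n') (hf : f ∈ UL n) :
    h * lsub (· + n') f ∈ UL (n' + n) := by
  intro t
  rw [map_mul, hh t, k04_torus, hf (fun i => t (i + n')), lsub_smul, smul_mul_smul_comm,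
    Finset.prod_range_add]
  have key : ∏ i ∈ Finset.range n, t (i + n') = ∏ i ∈ Finset.range n, t (n' + i) :=
    Finset.prod_congr rfl fun i _ => by rw [add_comm]
  rw [key]

theorem one_mem_UL : (1 : UA) ∈ UL 0 := by
  intro t
  rw [map_one, Finset.prod_range_zero, one_smul]

theorem edge_mem_UL : (C (X s(0, 1)) : UA) ∈ UL 2 := by
  intro t
  rw [sbC_C, Finset.prod_range_succ, Finset.prod_range_succ, Finset.prod_range_zero, one_mul]
  have h1 : (X s(0, 1) : MP50e386.A) = xv (ee 0) (ee 1) := (xv_ee 0 1).symm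
  have h2 : sbR (fun i => t i • ee i) (X s(0, 1) : MP50e386.A) = (t 0 * t 1) • X s(0, 1) := by
    rw [h1, sb_x_cst, linC_ee, linC_ee]
    unfold xv
    rw [k04_cst_smul_ee, k04_cst_smul_ee, ee, ee, k04_cst_single, k04_cst_single, xf_single,
      xf_single, map_one, one_mul, one_mul, ← map_mul, ← Algebra.smul_def]
  rw [h2, Algebra.smul_def, Algebra.smul_def, map_mul]
  rfl

theorem leg_mem_UL (a : ℕ) : (X (a, 0) : UA) ∈ UL 1 := by
  intro t
  rw [sbC_X, Finset.prod_range_succ, Finset.prod_range_zero, one_mul, k04_cst_smul_ee, zf_single,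
    algebraMap_smul]

theorem mon_mem_UL (e : ℕ) (as : List ℕ) : mon e as ∈ UL (2 * e + as.length) := by
  induction e with
  | zero =>
    induction as with
    | nil =>
      rw [mon]
      exact one_mem_UL
    | cons a as ih =>
      rw [mon]
      have h1 := UL_cat (leg_mem_UL a) ih
      have h2 : 1 + (2 * 0 + as.length) = 2 * 0 + (a :: as).length := by
        rw [List.length_cons]; omega
      rw [h2] at h1
      exact h1
  | succ e ih =>
    rw [mon]
    have h1 := UL_cat edge_mem_UL ih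
    have h2 : 2 + (2 * e + as.length) = 2 * (e + 1) + as.length := by omega
    rw [h2] at h1
    exact h1

/-- every element lies in some `BD(L,D)` -/
theorem exists_BD (f : UA) : ∃ L D, f ∈ BD MP50e386.A L D := by
  refine ⟨(f.support.sup fun m => m.support.sup Prod.fst) + 1, f.support.sup fun m => m.degree, ?_⟩
  unfold BD
  rw [mem_restrictSupport_iff]
  intro m hm
  have hm' : m ∈ f.support := hm
  refine ⟨fun p hp => ?_, ?_⟩
  · have h1 : p.1 ≤ m.support.sup Prod.fst := Finset.le_sup (f := Prod.fst) hp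
    have h2 : m.support.sup Prod.fst ≤ f.support.sup fun m => m.support.sup Prod.fst :=
      Finset.le_sup (f := fun m : ℕ × ℕ →₀ ℕ => m.support.sup Prod.fst) hm'
    omega
  · exact Finset.le_sup (f := fun m : ℕ × ℕ →₀ ℕ => m.degree) hm'

theorem extd_comp {n : ℕ} (φ : Fin n → ℕ) (σ : Equiv.Perm (Fin n)) (k : ℕ) (hk : k < n) :
    extd φ (extd (fun k => (σ k : ℕ)) k) = extd (φ ∘ σ) k := by
  have h1 : extd (fun k => (σ k : ℕ)) k = (σ ⟨k, hk⟩ : ℕ) := by
    unfold extd
    rw [dif_pos hk]
  rw [h1]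
  unfold extd
  rw [dif_pos hk, dif_pos (σ ⟨k, hk⟩).2]
  rfl

end MP50e386N
end

section
/-! [N50 K14] decomposition into multidegrees. -/

namespace MP50e386N

open MvPolynomial

private theorem ones_prod (n : ℕ) (t : ℕ → ℂ) :
    ((∑ i ∈ Finset.range n, Finsupp.single i 1 : ℕ →₀ ℕ).prod fun i k => t i ^ k) =
      ∏ i ∈ Finset.range n, t i := by
  rw [← Finsupp.prod_finsetSum_index]
  · refine Finset.prod_congr rfl fun i _ => ?_
    have h0 : (Finsupp.single i 1 : ℕ →₀ ℕ).prod (fun i k => t i ^ k) = t i ^ 1 :=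
      Finsupp.prod_single_index (h := fun i k => t i ^ k) (pow_zero _)
    rw [h0, pow_one]
  · intro a
    exact pow_zero _
  · intro a b c
    exact pow_add _ _ _

theorem UL_iff_MW (n : ℕ) (f : UA) :
    f ∈ UL n ↔ MW (∑ i ∈ Finset.range n, Finsupp.single i 1) f := by
  constructor
  · intro h t
    rw [ones_prod]
    exact h t
  · intro h t
    have := h t
    rw [ones_prod] at this
    exact this

theorem UL_iff_ML (n : ℕ) (f : UA) : f ∈ UL n ↔ ML n f := UL_iff_MW n f

private theorem MW_sub' {κ : ℕ →₀ ℕ} {f g : UA} (hf : MW κ f) (hg : MW κ g) : MW κ (f - g) := by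
  intro t
  rw [map_sub, hf t, hg t, smul_sub]

/-- an element of a stable submodule is the sum of its components, which are in the submodule -/
theorem exists_MW (N : Submodule MP50e386.A UA) (hN : GLS N) (f : UA) (hf : f ∈ N) :
    ∃ (F : Finset (ℕ →₀ ℕ)) (g : (ℕ →₀ ℕ) → UA), (∀ κ, MW κ (g κ) ∧ g κ ∈ N) ∧
      f = ∑ κ ∈ F, g κ := by
  classical
  have hfT : f ∈ LT MP50e386.A Set.univ := by
    rw [LT_univ]
    exact Algebra.mem_top
  obtain ⟨s, g, h1, h2, -⟩ := exists_MW_decomp hfT
  have hgN : ∀ m ∈ s, g m ∈ N := GLS_MW_comp hN s g (fun m hm => (h2 m hm).1) (h1 ▸ hf)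
  refine ⟨s, fun κ => if κ ∈ s then g κ else 0, fun κ => ?_, ?_⟩
  · by_cases hκ : κ ∈ s
    · simp only [if_pos hκ]
      exact ⟨(h2 κ hκ).1, hgN κ hκ⟩
    · simp only [if_neg hκ]
      refine ⟨fun t => ?_, Submodule.zero_mem _⟩
      rw [map_zero, smul_zero]
  · rw [h1]
    exact Finset.sum_congr rfl fun κ hκ => (if_pos hκ).symm

/-- components of different multidegrees are linearly independent -/
theorem MW_uniq (F : Finset (ℕ →₀ ℕ)) (f g : (ℕ →₀ ℕ) → UA) (hf : ∀ κ ∈ F, MW κ (f κ))
    (hg : ∀ κ ∈ F, MW κ (g κ)) (h : ∑ κ ∈ F, f κ = ∑ κ ∈ F, g κ) : ∀ κ ∈ F, f κ = g κ := by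
  intro κ hκ
  have h1 := MW_comp_mem (R := MP50e386.A) ⊥ (fun t _ f hf => by
    rw [Submodule.mem_bot] at hf ⊢
    rw [hf, map_zero]) F (fun κ => f κ - g κ) (fun κ hκ => MW_sub' (hf κ hκ) (hg κ hκ)) (by
    rw [Finset.sum_sub_distrib, h, sub_self]
    exact Submodule.zero_mem _) κ hκ
  rw [Submodule.mem_bot] at h1
  exact sub_eq_zero.1 h1

/-- multilinear elements of a sum -/
theorem UL_sup (N N' : Submodule MP50e386.A UA) (hN : GLS N) (hN' : GLS N') (n : ℕ) (f : UA)
    (hf : f ∈ UL n) (hfN : f ∈ N ⊔ N') :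
    ∃ g g' : UA, g ∈ UL n ∧ g ∈ N ∧ g' ∈ UL n ∧ g' ∈ N' ∧ f = g + g' := by
  classical
  obtain ⟨u, hu, v, hv, rfl⟩ := Submodule.mem_sup.1 hfN
  obtain ⟨s, g, hg, hus⟩ := exists_MW N hN u hu
  obtain ⟨s', g', hg', hvs⟩ := exists_MW N' hN' v hv
  set κ₀ : ℕ →₀ ℕ := ∑ i ∈ Finset.range n, Finsupp.single i 1 with hκ₀
  set G : (ℕ →₀ ℕ) → UA := fun κ => if κ ∈ s then g κ else 0 with hG
  set G' : (ℕ →₀ ℕ) → UA := fun κ => if κ ∈ s' then g' κ else 0 with hG'
  have hz : ∀ κ, MW κ (0 : UA) := fun κ t => by rw [map_zero, smul_zero]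
  have hGm : ∀ κ, MW κ (G κ) ∧ G κ ∈ N := by
    intro κ
    simp only [hG]
    split_ifs
    · exact hg κ
    · exact ⟨hz κ, Submodule.zero_mem _⟩
  have hGm' : ∀ κ, MW κ (G' κ) ∧ G' κ ∈ N' := by
    intro κ
    simp only [hG']
    split_ifs
    · exact hg' κ
    · exact ⟨hz κ, Submodule.zero_mem _⟩
  set F : Finset (ℕ →₀ ℕ) := insert κ₀ (s ∪ s') with hF
  have e1 : u = ∑ κ ∈ F, G κ := by
    rw [hus]
    simp only [hG]
    rw [Finset.sum_ite_mem]
    congr 1
    rw [Finset.inter_eq_right.2]
    exact fun κ hκ => Finset.mem_insert_of_mem (Finset.mem_union_left _ hκ)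
  have e2 : v = ∑ κ ∈ F, G' κ := by
    rw [hvs]
    simp only [hG']
    rw [Finset.sum_ite_mem]
    congr 1
    rw [Finset.inter_eq_right.2]
    exact fun κ hκ => Finset.mem_insert_of_mem (Finset.mem_union_right _ hκ)
  have hfW := (UL_iff_MW n _).1 hf
  have key := MW_uniq F (fun κ => if κ = κ₀ then u + v else 0) (fun κ => G κ + G' κ) (by
    intro κ _
    by_cases h : κ = κ₀
    · simp only [if_pos h]
      rw [h]
      exact hfW
    · simp only [if_neg h]
      exact hz κ) (fun κ _ => MW_add (hGm κ).1 (hGm' κ).1) (by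
    rw [Finset.sum_add_distrib, ← e1, ← e2, Finset.sum_ite_eq' F κ₀, if_pos]
    exact Finset.mem_insert_self _ _) κ₀ (Finset.mem_insert_self _ _)
  simp only [if_true] at key
  exact ⟨G κ₀, G' κ₀, (UL_iff_MW n _).2 (hGm κ₀).1, (hGm κ₀).2, (UL_iff_MW n _).2 (hGm' κ₀).1,
    (hGm' κ₀).2, key⟩

end MP50e386N
end

section
/-! [N50 K15] (pol): a stable submodule is determined by its multilinear elements. -/

namespace MP50e386N

open MvPolynomial

theorem le_of_UL (N N' : Submodule MP50e386.A UA) (hN : GLS N) (hN' : GLS N')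
    (h : ∀ n, ∀ f ∈ UL n, f ∈ N' → f ∈ N) : N' ≤ N :=
  pol_le hN' hN fun n f hf hML => h n f ((UL_iff_ML n f).2 hML) hf

end MP50e386N
end

section
/-! [N50 K09] (t5): the coefficient of the super evaluation is `e_τ f`. -/

namespace MP50e386N

open MvPolynomial

variable {E O T : Type} [Ring T] [Algebra UA T] [Algebra ℂ T] (S : SAlg E O UA T)

theorem lis_nodup {n : ℕ} (τ : Fin n → E ⊕ O) : (lis τ fun k => (k : ℕ)).Nodup := by
  unfold lis
  rw [List.nodup_ofFn]
  intro a b h
  simp only [Prod.mk.injEq] at h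
  exact Fin.ext h.2

/-- if the list `(τ k, ι k)` is a reordering of `(τ k, k)` then `ι` is a permutation
preserving `τ` -/
private theorem k09_perm {n : ℕ} (τ : Fin n → E ⊕ O) (ι : Fin n → Fin n)
    (h : (lis τ fun k => (k : ℕ)).Perm (lis τ fun k => (ι k : ℕ))) :
    ∃ σ : Equiv.Perm (Fin n), τ ∘ σ = τ ∧ ⇑σ = ι := by
  have h1 : ∀ k, ∃ j, τ j = τ k ∧ ι j = k := by
    intro k
    have hk : (τ k, (k : ℕ)) ∈ lis τ fun k => (k : ℕ) := by
      unfold lis
      rw [List.mem_ofFn]
      exact ⟨k, rfl⟩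
    have hk' := h.mem_iff.1 hk
    unfold lis at hk'
    rw [List.mem_ofFn] at hk'
    obtain ⟨j, hj⟩ := hk'
    simp only [Prod.mk.injEq] at hj
    exact ⟨j, hj.1, Fin.ext hj.2⟩
  have hs : Function.Surjective ι := fun k => by
    obtain ⟨j, _, hj⟩ := h1 k
    exact ⟨j, hj⟩
  have hb : Function.Bijective ι := (Finite.injective_iff_surjective.2 hs |> fun hi => ⟨hi, hs⟩)
  refine ⟨Equiv.ofBijective ι hb, ?_, rfl⟩
  funext j
  obtain ⟨j', h2, h3⟩ := h1 (ι j)
  have h4 : j' = j := hb.1 h3
  subst h4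
  exact h2.symm

private theorem k09_coef_mul (l : List ((E ⊕ O) × ℕ)) (g : UA) (t : T) :
    S.coef l (algebraMap UA T g * t) = g * S.coef l t := by
  rw [← Algebra.smul_def, map_smul, smul_eq_mul]

/-- (t5) -/
theorem coef_ft {n : ℕ} (τ : Fin n → E ⊕ O) {f : UA} (hf : f ∈ UL n) :
    S.coef (lis τ fun k => (k : ℕ)) (ft S τ f n) = eop τ f := by
  classical
  unfold ft eop
  rw [map_sum]
  symm
  refine Finset.sum_of_injOn (fun σ : Equiv.Perm (Fin n) => (⇑σ : Fin n → Fin n))
    (fun a _ b _ h => DFunLike.coe_injective h) (fun _ _ => Finset.mem_coe.2 (Finset.mem_univ _))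
    (fun ι _ hι => ?_) (fun σ hσ => ?_)
  · rw [k09_coef_mul]
    have h0 : S.coef (lis τ fun k => (k : ℕ)) (S.pp (lis τ fun k => (ι k : ℕ))) = 0 := by
      refine S.coef_ne _ _ fun hp => ?_
      obtain ⟨σ, h1, h2⟩ := k09_perm τ ι hp
      refine hι ⟨σ, ?_, h2⟩
      exact Finset.mem_coe.2 (Finset.mem_filter.2 ⟨Finset.mem_univ _, h1⟩)
    rw [h0, mul_zero]
  · have hσ' : τ ∘ σ = τ := (Finset.mem_filter.1 hσ).2
    rw [k09_coef_mul]
    have h1 := pp_perm S τ (fun k => (k : ℕ)) σ
    rw [hσ'] at h1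
    have h2 : (fun k => ((σ k : Fin n) : ℕ)) = (fun k : Fin n => (k : ℕ)) ∘ σ := rfl
    rw [h2, h1, map_zsmul]
    have h3 : S.coef (lis τ fun k => (k : ℕ)) (S.pp (lis τ fun k => (k : ℕ))) = 1 :=
      S.coef_self _ (lis_nodup τ)
    rw [h3, mul_smul_comm, mul_one]

theorem coef_mem_of_NT {N : Submodule MP50e386.A UA} {l : List ((E ⊕ O) × ℕ)} (hl : l.Nodup)
    {x : T} (hx : x ∈ NT S N) : S.coef l x ∈ N := by
  unfold NT at hx
  induction hx using AddSubgroup.closure_induction with
  | mem x hx =>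
    obtain ⟨f, hf, l', rfl⟩ := hx
    rw [k09_coef_mul]
    by_cases hp : l.Perm l'
    · have h1 : S.coef l (S.pp l) = 1 := S.coef_self l hl
      rcases pp_of_perm S hp with h | h
      · rw [← h, h1, mul_one]
        exact hf
      · have h2 : S.pp l' = - S.pp l := by rw [h, neg_neg]
        rw [h2, map_neg, h1, mul_neg, mul_one]
        exact N.neg_mem hf
    · have h0 : S.coef l (S.pp l') = 0 := S.coef_ne l l' hp
      rw [h0, mul_zero]
      exact N.zero_mem
  | zero =>
    rw [map_zero]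
    exact N.zero_mem
  | add x y _ _ hx hy =>
    rw [map_add]
    exact N.add_mem hx hy
  | neg x _ hx =>
    rw [map_neg]
    exact N.neg_mem hx

/-- recovery -/
theorem eop_mem {N : Submodule MP50e386.A UA} {n : ℕ} (τ : Fin n → E ⊕ O) {f : UA}
    (hf : f ∈ UL n) (hft : ft S τ f n ∈ NT (T := T) S N) : eop τ f ∈ N := by
  rw [← coef_ft S τ hf]
  exact coef_mem_of_NT S (lis_nodup τ) hft

end MP50e386N
end
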