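import Mathlib
import Pool.Agent.Lib.MP_50e386_al.B.Ka

section
/-! [N50 K05] multilinear elements are combinations of multilinear monomials. -/

namespace MP50e386N

open MvPolynomial

/-- the monomial with the edges `es` and the legs `ls` (pairs (label, letter)) -/
noncomputable def mL (es ls : List (ℕ × ℕ)) : UA :=
  C ((es.map fun p => (X s(p.1, p.2) : MP50e386.A)).prod) * (ls.map fun p => (X p : UA)).prod

/-- the letters of `mL es ls` -/
def lets (es ls : List (ℕ × ℕ)) : List ℕ := (es.flatMap fun p => [p.1, p.2]) ++ ls.map Prod.snd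

private theorem k05_cst (i : ℕ) (c : ℂ) :
    (cst (c • ee i) : VR MP50e386.A) = Finsupp.single i (algebraMap ℂ MP50e386.A c) := by
  rw [Finsupp.smul_single, smul_eq_mul, mul_one]
  simp [cst]

private theorem k05_edge (t : ℕ → ℂ) (i j : ℕ) :
    sbC (fun i => t i • ee i) (C (X s(i, j)) : UA) = (t i * t j) • (C (X s(i, j)) : UA) := by
  rw [sbC_C]
  have h : (X s(i, j) : MP50e386.A) = xv (ee i) (ee j) := (xv_ee i j).symm
  have h2 : sbR (fun i => t i • ee i) (X s(i, j) : MP50e386.A) =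
      (t i * t j) • (X s(i, j) : MP50e386.A) := by
    rw [h, sb_x_cst, linC_ee, linC_ee]
    unfold xv
    rw [k05_cst, k05_cst, xf_single, ← one_smul ℂ (ee i), ← one_smul ℂ (ee j), k05_cst, k05_cst,
      xf_single, map_one, one_mul, one_mul, ← map_mul, Algebra.smul_def]
  rw [h2]
  exact LinearMap.map_smul_of_tower (monomial 0 : MP50e386.A →ₗ[MP50e386.A] UA) (t i * t j) _

private theorem k05_leg (t : ℕ → ℂ) (p : ℕ × ℕ) :
    sbC (fun i => t i • ee i) (X p : UA) = (t p.2) • (X p : UA) := by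
  obtain ⟨a, i⟩ := p
  rw [sbC_X, k05_cst, zf_single, algebraMap_smul]

private theorem k05_list {α : Type} (g : α → UA) (c : α → ℂ) (l : List α) :
    (l.map fun p => c p • g p).prod = (l.map c).prod • (l.map g).prod := by
  induction l with
  | nil => simp
  | cons a l ih =>
    simp only [List.map_cons, List.prod_cons]
    rw [ih, smul_mul_smul_comm]

private theorem k05_mL_eq (es ls : List (ℕ × ℕ)) :
    mL es ls = (es.map fun p => (C (X s(p.1, p.2)) : UA)).prod * (ls.map fun p => (X p : UA)).prod := by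
  unfold mL
  rw [map_list_prod, List.map_map]
  rfl

private theorem k05_lets (t : ℕ → ℂ) (es ls : List (ℕ × ℕ)) :
    ((lets es ls).map t).prod = (es.map fun p => t p.1 * t p.2).prod * (ls.map fun p => t p.2).prod := by
  unfold lets
  rw [List.map_append, List.prod_append, List.map_map]
  congr 1
  induction es with
  | nil => simp
  | cons a l ih =>
    rw [List.flatMap_cons, List.map_append, List.prod_append, ih, List.map_cons, List.prod_cons]
    simp

private theorem k05_mL (t : ℕ → ℂ) (es ls : List (ℕ × ℕ)) :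
    sbC (fun i => t i • ee i) (mL es ls) = ((lets es ls).map t).prod • mL es ls := by
  rw [k05_mL_eq, map_mul, map_list_prod, map_list_prod, List.map_map, List.map_map, k05_lets,
    ← smul_mul_smul_comm, ← k05_list, ← k05_list]
  exact congrArg₂ (· * ·)
    (congrArg List.prod (List.map_congr_left fun p _ => k05_edge t p.1 p.2))
    (congrArg List.prod (List.map_congr_left fun p _ => k05_leg t p))

/-- the edges of a monomial -/
private noncomputable def k05E (s : Sym2 ℕ →₀ ℕ) : List (ℕ × ℕ) :=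
  (Finsupp.toMultiset s).toList.map fun e => Quot.out e

private noncomputable def k05L (m : ℕ × ℕ →₀ ℕ) : List (ℕ × ℕ) := (Finsupp.toMultiset m).toList

private theorem k05_prod {σ R : Type} [CommRing R] (s : σ →₀ ℕ) :
    ((Finsupp.toMultiset s).toList.map fun e => (X e : MvPolynomial σ R)).prod = monomial s 1 := by
  classical
  have h : ((Finsupp.toMultiset s).toList.map fun e => (X e : MvPolynomial σ R)).prod =
      ((Finsupp.toMultiset s).map fun e => (X e : MvPolynomial σ R)).prod := by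
    conv_rhs => rw [← Multiset.coe_toList (Finsupp.toMultiset s)]
    rw [Multiset.map_coe, Multiset.prod_coe]
  rw [h, Finsupp.toMultiset_map, Finsupp.prod_toMultiset, Finsupp.prod_mapDomain_index
    (fun _ => pow_zero _) (fun _ _ _ => pow_add _ _ _), monomial_eq, C_1, one_mul]

private theorem k05_monL (s : Sym2 ℕ →₀ ℕ) (m : ℕ × ℕ →₀ ℕ) :
    mL (k05E s) (k05L m) = C (monomial s 1) * monomial m 1 := by
  unfold mL k05E k05L
  rw [k05_prod, List.map_map]
  congr 2
  rw [← k05_prod s]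
  congr 1
  apply List.map_congr_left
  intro e _
  have h : s((Quot.out e).1, (Quot.out e).2) = e := Quot.out_eq e
  change X s((Quot.out e).1, (Quot.out e).2) = X e
  rw [h]

private theorem k05_mon (s : Sym2 ℕ →₀ ℕ) (m : ℕ × ℕ →₀ ℕ) (c : ℂ) :
    (monomial m (monomial s c) : UA) = c • mL (k05E s) (k05L m) := by
  rw [k05_monL, C_mul_monomial, mul_one]
  have h : (monomial s c : MP50e386.A) = c • monomial s 1 := by
    rw [smul_monomial, smul_eq_mul, mul_one]
  rw [h]
  exact LinearMap.map_smul_of_tower (monomial m : MP50e386.A →ₗ[MP50e386.A] UA) c _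

private theorem k05_cf (t : ℕ → ℂ) (s : Sym2 ℕ →₀ ℕ) (m : ℕ × ℕ →₀ ℕ) (f : UA) :
    coeff s (coeff m (sbC (fun i => t i • ee i) f)) =
      ((lets (k05E s) (k05L m)).map t).prod * coeff s (coeff m f) := by
  classical
  induction f using MvPolynomial.induction_on' with
  | add p q hp hq => rw [map_add, coeff_add, coeff_add, coeff_add, coeff_add, hp, hq, mul_add]
  | monomial m' a =>
    induction a using MvPolynomial.induction_on' with
    | add p q hp hq =>
      rw [map_add, map_add, coeff_add, coeff_add, coeff_add, coeff_add, hp, hq, mul_add]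
    | monomial s' c =>
      rw [k05_mon, sbC_smulC, k05_mL, smul_comm, ← k05_mon, coeff_smul, coeff_smul, smul_eq_mul,
        coeff_monomial]
      split_ifs with h
      · rw [coeff_monomial]
        split_ifs with h2
        · rw [h, h2]
        · rw [mul_zero, mul_zero]
      · rw [coeff_zero, mul_zero, mul_zero]

private theorem k05_count (i : ℕ) (l : List ℕ) :
    (l.map fun j => if j = i then (2 : ℂ) else 1).prod = 2 ^ l.count i := by
  induction l with
  | nil => simp
  | cons a l ih =>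
    rw [List.map_cons, List.prod_cons, ih, List.count_cons]
    split_ifs with h1 h2 h2
    · rw [pow_succ, mul_comm]
    · exact absurd (by simpa using h1) h2
    · exact absurd (by simpa using h2) h1
    · rw [add_zero, one_mul]

private theorem k05_range (t : ℕ → ℂ) (n : ℕ) :
    ∏ i ∈ Finset.range n, t i = ((List.range n).map t).prod := by
  induction n with
  | zero => simp
  | succ n ih => rw [Finset.prod_range_succ, ih, List.range_succ]; simp

theorem span_mL (n L D : ℕ) (f : UA) (hf : f ∈ UL n) (hfD : f ∈ BD MP50e386.A L D) :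
    f ∈ Submodule.span ℂ {g : UA | ∃ es ls : List (ℕ × ℕ), (lets es ls).Perm (List.range n) ∧
      ls.length ≤ D ∧ (∀ p ∈ ls, p.1 < L) ∧ g = mL es ls} := by
  classical
  rw [f.as_sum]
  refine Submodule.sum_mem _ fun m hm => ?_
  have h1 : (monomial m (coeff m f) : UA) = ∑ s ∈ (coeff m f).support,
      monomial m (monomial s (coeff s (coeff m f))) := by
    conv_lhs => rw [(coeff m f).as_sum]
    rw [map_sum]
  rw [h1]
  refine Submodule.sum_mem _ fun s hs => ?_
  rw [k05_mon]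
  refine Submodule.smul_mem _ _ (Submodule.subset_span ⟨k05E s, k05L m, ?_, ?_, ?_, rfl⟩)
  · rw [List.perm_iff_count]
    intro i
    have h2 := k05_cf (fun j => if j = i then (2 : ℂ) else 1) s m f
    rw [hf, coeff_smul, coeff_smul, smul_eq_mul, k05_range, k05_count, k05_count] at h2
    have h3 := mul_right_cancel₀ (mem_support_iff.1 hs) h2
    have h4 : (2 : ℕ) ^ (List.range n).count i = 2 ^ (lets (k05E s) (k05L m)).count i := by
      exact_mod_cast h3
    exact (Nat.pow_right_injective le_rfl h4).symm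
  · have := (hfD hm).2
    unfold k05L
    rw [Multiset.length_toList, Finsupp.card_toMultiset]
    exact this
  · intro p hp
    unfold k05L at hp
    rw [Multiset.mem_toList, Finsupp.mem_toMultiset] at hp
    exact (hfD hm).1 p hp

end MP50e386N
end

section
/-! [N50 K06] multilinear monomials are permuted standard monomials. -/

namespace MP50e386N

open MvPolynomial

private theorem k06_lets_cons (p : ℕ × ℕ) (es ls : List (ℕ × ℕ)) :
    lets (p :: es) ls = p.1 :: p.2 :: lets es ls := by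
  simp [lets]

private theorem k06_lets_nil_cons (p : ℕ × ℕ) (ls : List (ℕ × ℕ)) :
    lets [] (p :: ls) = p.2 :: lets [] ls := by
  simp [lets]

private theorem k06_mL_cons (p : ℕ × ℕ) (es ls : List (ℕ × ℕ)) :
    mL (p :: es) ls = C (X s(p.1, p.2)) * mL es ls := by
  unfold mL
  rw [List.map_cons, List.prod_cons, C_mul, mul_assoc]

private theorem k06_mL_nil_cons (p : ℕ × ℕ) (ls : List (ℕ × ℕ)) :
    mL [] (p :: ls) = X p * mL [] ls := by
  unfold mL
  rw [List.map_cons, List.prod_cons, List.map_nil, List.prod_nil, C_1, one_mul, one_mul]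

private theorem k06_mon : ∀ (es ls : List (ℕ × ℕ)) (φ : ℕ → ℕ),
    (∀ k < (lets es ls).length, φ k = (lets es ls).getD k 0) →
      lsub φ (mon es.length (ls.map Prod.fst)) = mL es ls := by
  intro es
  induction es with
  | nil =>
    intro ls
    induction ls with
    | nil =>
      intro φ _
      simp [mon, mL]
    | cons p ls ih =>
      intro φ h
      rw [k06_lets_nil_cons] at h
      rw [k06_mL_nil_cons, List.map_cons, List.length_nil]
      have h0 : φ 0 = p.2 := h 0 (by simp)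
      have h1 := ih (φ ∘ (· + 1)) (by
        intro k hk
        have := h (k + 1) (by simpa using hk)
        simpa using this)
      rw [List.length_nil] at h1
      rw [show mon 0 (p.1 :: ls.map Prod.fst) = X (p.1, 0) * lsub (· + 1) (mon 0 (ls.map Prod.fst))
        from by rw [mon], map_mul, lsub_X, lsub_lsub, h1, h0]
  | cons p es ih =>
    intro ls φ h
    rw [k06_lets_cons] at h
    rw [k06_mL_cons, List.length_cons]
    have h0 : φ 0 = p.1 := h 0 (by simp)
    have h1 : φ 1 = p.2 := h 1 (by simp)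
    have h2 := ih ls (φ ∘ (· + 2)) (by
      intro k hk
      have := h (k + 2) (by simpa using hk)
      simpa using this)
    rw [show mon (es.length + 1) (ls.map Prod.fst) =
      C (X s(0, 1)) * lsub (· + 2) (mon es.length (ls.map Prod.fst)) from by rw [mon],
      map_mul, lsub_C_X, lsub_lsub, h2, h0, h1]

theorem mL_eq (n : ℕ) (es ls : List (ℕ × ℕ)) (h : (lets es ls).Perm (List.range n)) :
    2 * es.length + ls.length = n ∧ ∃ σ : Equiv.Perm (Fin n),
      mL es ls = lsub (extd fun k => (σ k : ℕ)) (mon es.length (ls.map Prod.fst)) := by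
  have hlen : (lets es ls).length = n := by
    rw [h.length_eq, List.length_range]
  have hlen' : (lets es ls).length = 2 * es.length + ls.length := by
    clear h hlen
    induction es with
    | nil => simp [lets]
    | cons p es ih =>
      rw [k06_lets_cons, List.length_cons, List.length_cons, ih, List.length_cons]
      ring
  refine ⟨by rw [← hlen', hlen], ?_⟩
  have hnd : (lets es ls).Nodup := h.nodup_iff.2 List.nodup_range
  have hmem : ∀ x ∈ lets es ls, x < n := fun x hx => List.mem_range.1 (h.mem_iff.1 hx)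
  let s : Fin n → Fin n := fun k =>
    ⟨(lets es ls)[k.1]'(by rw [hlen]; exact k.2), hmem _ (List.getElem_mem _)⟩
  have hs : Function.Injective s := by
    intro k k' hk
    have h1 : (lets es ls)[k.1]'(by rw [hlen]; exact k.2) =
      (lets es ls)[k'.1]'(by rw [hlen]; exact k'.2) := congrArg Fin.val hk
    exact Fin.ext ((List.Nodup.getElem_inj_iff hnd).1 h1)
  refine ⟨Equiv.ofBijective s (Finite.injective_iff_bijective.1 hs), (k06_mon es ls _ ?_).symm⟩
  intro k hk
  have hk' : k < n := by rwa [hlen] at hk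
  rw [extd, dif_pos hk', List.getD_eq_getElem _ _ hk]
  rfl

theorem span_UL (n L D : ℕ) (f : UA) (hf : f ∈ UL n) (hfD : f ∈ BD MP50e386.A L D) :
    f ∈ Submodule.span ℂ {g : UA | ∃ (e : ℕ) (as : List ℕ) (σ : Equiv.Perm (Fin n)),
      2 * e + as.length = n ∧ as.length ≤ D ∧ (∀ a ∈ as, a < L) ∧
      g = lsub (extd fun k => (σ k : ℕ)) (mon e as)} := by
  refine Submodule.span_mono ?_ (span_mL n L D f hf hfD)
  rintro g ⟨es, ls, h1, h2, h3, rfl⟩
  obtain ⟨h4, σ, h5⟩ := mL_eq n es ls h1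
  refine ⟨es.length, ls.map Prod.fst, σ, by rw [List.length_map]; exact h4,
    by rw [List.length_map]; exact h2, ?_, h5⟩
  intro a ha
  obtain ⟨p, hp, rfl⟩ := List.mem_map.1 ha
  exact h3 p hp

end MP50e386N
end

section
/-! [N50 K18] the expansion of the exterior evaluation of a multilinear element. -/

namespace MP50e386N

open MvPolynomial

variable {E O : Type} [Fintype E] [Fintype O] [DecidableEq E] [DecidableEq O] {n : ℕ}
  (W : Form E O)

private theorem k18_evF_C {T : Type} [Ring T] [Algebra ℂ T] (S : SAlg E O ℂ T) (c : ℂ) :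
    evF S W (C (algebraMap ℂ MP50e386.A c)) = algebraMap ℂ (Subalgebra.center ℂ T) c := by
  unfold evF
  rw [eval₂Hom_C]
  exact AlgHom.commutes _ c

private theorem k18_evF_smul {T : Type} [Ring T] [Algebra ℂ T] (S : SAlg E O ℂ T) (c : ℂ)
    (f : UA) : ((evF S W (c • f) : Subalgebra.center ℂ T) : T) =
      c • ((evF S W f : Subalgebra.center ℂ T) : T) := by
  have h2 : c • f = C (algebraMap ℂ MP50e386.A c) * f := by
    rw [Algebra.smul_def]
    rfl
  rw [h2, map_mul, k18_evF_C, ← Algebra.smul_def]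
  rfl

private theorem k18_evF_x {T : Type} [Ring T] [Algebra ℂ T] (S : SAlg E O ℂ T) (i j : ℕ) :
    ((evF S W (C (X s(i, j))) : Subalgebra.center ℂ T) : T) = evx S W i j := by
  unfold evF
  rw [eval₂Hom_C]
  change ((aeval (Sym2.lift _) (X s(i, j)) : Subalgebra.center ℂ T) : T) = _
  rw [aeval_X, Sym2.lift_mk]

private theorem k18_evF_z {T : Type} [Ring T] [Algebra ℂ T] (S : SAlg E O ℂ T) (a i : ℕ) :
    ((evF S W (X (a, i)) : Subalgebra.center ℂ T) : T) = evz S W a i := by
  unfold evF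
  rw [eval₂Hom_X']

theorem isW_add {f g : UA} {w w' : (Fin n → E ⊕ O) → ℂ} (hf : IsW n W f w) (hg : IsW n W g w') :
    IsW n W (f + g) (w + w') := by
  intro T _ _ S φ
  rw [map_add, map_add]
  have h1 := hf T S φ
  have h2 := hg T S φ
  change ((evF S W (lsub (extd φ) f) : Subalgebra.center ℂ T) : T) +
    ((evF S W (lsub (extd φ) g) : Subalgebra.center ℂ T) : T) = _
  rw [h1, h2, ← Finset.sum_add_distrib]
  refine Finset.sum_congr rfl fun τ _ => ?_
  rw [Pi.add_apply, add_smul]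

theorem isW_smul {f : UA} {w : (Fin n → E ⊕ O) → ℂ} (hf : IsW n W f w) (c : ℂ) :
    IsW n W (c • f) (c • w) := by
  intro T _ _ S φ
  rw [lsub_smul, k18_evF_smul, hf T S φ, Finset.smul_sum]
  refine Finset.sum_congr rfl fun τ _ => ?_
  rw [Pi.smul_apply, smul_smul, smul_eq_mul]

private theorem k18_zero : IsW n W (0 : UA) (0 : (Fin n → E ⊕ O) → ℂ) := by
  intro T _ _ S φ
  rw [map_zero, map_zero]
  simp

theorem isW_sum {ι : Type} (F : Finset ι) (f : ι → UA) (w : ι → (Fin n → E ⊕ O) → ℂ)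
    (h : ∀ i ∈ F, IsW n W (f i) (w i)) : IsW n W (∑ i ∈ F, f i) (∑ i ∈ F, w i) := by
  classical
  induction F using Finset.induction_on with
  | empty =>
    rw [Finset.sum_empty, Finset.sum_empty]
    exact k18_zero W
  | insert a F ha ih =>
    rw [Finset.sum_insert ha, Finset.sum_insert ha]
    exact isW_add W (h a (Finset.mem_insert_self _ _))
      (ih fun i hi => h i (Finset.mem_insert_of_mem hi))

private theorem k18_lis_perm {τ τ' : Fin n → E ⊕ O}
    (h : (lis τ (fun k => (k : ℕ))).Perm (lis τ' (fun k => (k : ℕ)))) : τ = τ' := by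
  funext k
  have h1 : (τ k, (k : ℕ)) ∈ lis τ (fun k => (k : ℕ)) := by
    unfold lis
    rw [List.mem_ofFn]
    exact ⟨k, rfl⟩
  have h2 := h.mem_iff.1 h1
  unfold lis at h2
  rw [List.mem_ofFn] at h2
  obtain ⟨k', hk'⟩ := h2
  rw [Prod.mk.injEq] at hk'
  have h3 : k' = k := Fin.ext hk'.2
  rw [← hk'.1, h3]

private theorem k18_lis_nodup (τ : Fin n → E ⊕ O) : (lis τ (fun k => (k : ℕ))).Nodup := by
  unfold lis
  rw [List.nodup_ofFn]
  intro k k' hk
  have := (Prod.mk.inj hk).2
  exact Fin.ext this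

theorem isW_unique {f : UA} {w w' : (Fin n → E ⊕ O) → ℂ} (hf : IsW n W f w)
    (hf' : IsW n W f w') : w = w' := by
  obtain ⟨S, -, -⟩ := exists_SAlg_TT E O ℂ
  have key : ∀ {w : (Fin n → E ⊕ O) → ℂ}, IsW n W f w → ∀ τ0,
      S.coef (lis τ0 (fun k => (k : ℕ)))
        ((evF S W (lsub (extd (n := n) fun k => (k : ℕ)) f) :
          Subalgebra.center ℂ (TT E O ℂ)) : TT E O ℂ) = w τ0 := by
    intro w hw τ0
    rw [hw _ S (fun k => (k : ℕ)), map_sum, Finset.sum_eq_single τ0]
    · rw [map_smul]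
      have := S.coef_self _ (k18_lis_nodup τ0)
      unfold SAlg.pp
      rw [this, smul_eq_mul, mul_one]
    · intro τ _ hτ
      rw [map_smul]
      have := S.coef_ne (lis τ0 (fun k => (k : ℕ))) (lis τ (fun k => (k : ℕ)))
        (fun h => hτ (k18_lis_perm h).symm)
      unfold SAlg.pp
      rw [this, smul_zero]
    · intro h
      exact absurd (Finset.mem_univ _) h
  funext τ0
  rw [← key hf τ0, ← key hf' τ0]

theorem isW_one : IsW (E := E) (O := O) 0 W 1 (fun _ => 1) := by
  intro T _ _ S φ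
  rw [map_one, map_one, Fintype.sum_unique]
  simp [lis, SAlg.pp]

/-- value of an edge -/
def We (W : Form E O) (y y' : E ⊕ O) : ℂ := match y, y' with
  | Sum.inl a, Sum.inl a' => W.be a a'
  | Sum.inr b, Sum.inr b' => W.ze b b'
  | _, _ => 0

/-- value of a leg -/
def Wl (W : Form E O) (a : ℕ) (y : E ⊕ O) : ℂ := match y with
  | Sum.inl a' => W.le a a'
  | _ => 0

theorem isW_edge : IsW 2 W (C (X s(0, 1))) (fun τ => We W (τ 0) (τ 1)) := by
  intro T _ _ S φ
  rw [lsub_C_X, k18_evF_x]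
  have h1 : ∑ τ : Fin 2 → E ⊕ O, We W (τ 0) (τ 1) • S.pp (lis τ φ) =
      ∑ p : (E ⊕ O) × (E ⊕ O), We W p.1 p.2 • (S.P p.1 (φ 0) * S.P p.2 (φ 1)) := by
    refine Fintype.sum_equiv (finTwoArrowEquiv (E ⊕ O)) _ _ (fun τ => ?_)
    simp [lis, SAlg.pp, finTwoArrowEquiv]
  have h2 : ∑ p : (E ⊕ O) × (E ⊕ O), We W p.1 p.2 • (S.P p.1 (φ 0) * S.P p.2 (φ 1)) =
      ∑ y, ∑ y', We W y y' • (S.P y (φ 0) * S.P y' (φ 1)) := by
    rw [← Finset.univ_product_univ, Finset.sum_product]
  have h3 : extd φ 0 = φ 0 := rfl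
  have h4 : extd φ 1 = φ 1 := rfl
  rw [h1, h2, Fintype.sum_sum_type, h3, h4]
  unfold evx
  congr 1
  · refine Finset.sum_congr rfl fun a _ => ?_
    rw [Fintype.sum_sum_type]
    simp [We]
  · refine Finset.sum_congr rfl fun a _ => ?_
    rw [Fintype.sum_sum_type]
    simp [We]

theorem isW_leg (a : ℕ) : IsW 1 W (X (a, 0)) (fun τ => Wl W a (τ 0)) := by
  intro T _ _ S φ
  rw [lsub_X, k18_evF_z]
  have h1 : ∑ τ : Fin 1 → E ⊕ O, Wl W a (τ 0) • S.pp (lis τ φ) =
      ∑ y : E ⊕ O, Wl W a y • S.P y (φ 0) := by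
    refine Fintype.sum_equiv (Equiv.funUnique (Fin 1) (E ⊕ O)) _ _ (fun τ => ?_)
    simp [lis, SAlg.pp]
  have h3 : extd φ 0 = φ 0 := rfl
  rw [h1, Fintype.sum_sum_type, h3]
  unfold evz
  simp [Wl]

private theorem k18_extd_lt {n : ℕ} (φ : Fin n → ℕ) (k : ℕ) (h : k < n) :
    extd φ k = φ ⟨k, h⟩ := by
  unfold extd
  rw [dif_pos h]

private theorem k18_pp_append {T : Type} [Ring T] [Algebra ℂ T] (S : SAlg E O ℂ T)
    (l l' : List ((E ⊕ O) × ℕ)) : S.pp (l ++ l') = S.pp l * S.pp l' := by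
  unfold SAlg.pp
  rw [List.map_append, List.prod_append]

private theorem k18_lis {n' n : ℕ} (τ : Fin (n' + n) → E ⊕ O) (φ : Fin (n' + n) → ℕ) :
    lis τ φ = lis (τ ∘ Fin.castAdd n) (φ ∘ Fin.castAdd n) ++
      lis (τ ∘ Fin.natAdd n') (φ ∘ Fin.natAdd n') := by
  unfold lis
  rw [← List.ofFn_fin_append]
  congr 1
  funext k
  refine Fin.addCases (fun k => ?_) (fun k => ?_) k
  · simp only [Fin.append_left, Function.comp_apply]
  · simp only [Fin.append_right, Function.comp_apply]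

/-- concatenation -/
theorem isW_cat {n' : ℕ} {h f : UA} (hh : h ∈ UL n') (hf : f ∈ UL n)
    {w' : (Fin n' → E ⊕ O) → ℂ} {w : (Fin n → E ⊕ O) → ℂ} (hw' : IsW n' W h w')
    (hw : IsW n W f w) : IsW (n' + n) W (h * lsub (· + n') f)
      (fun τ => w' (τ ∘ Fin.castAdd n) * w (τ ∘ Fin.natAdd n')) := by
  intro T _ _ S φ
  rw [map_mul, lsub_lsub]
  have h1 : lsub (extd φ) h = lsub (extd (φ ∘ Fin.castAdd n)) h := by
    refine lsub_congr hh fun k hk => ?_
    rw [k18_extd_lt _ k hk, k18_extd_lt _ k (Nat.lt_add_right n hk)]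
    rfl
  have h2 : lsub (extd φ ∘ (· + n')) f = lsub (extd (φ ∘ Fin.natAdd n')) f := by
    refine lsub_congr hf fun k hk => ?_
    rw [k18_extd_lt _ k hk, Function.comp_apply, k18_extd_lt _ (k + n') (by omega)]
    have : (⟨k + n', by omega⟩ : Fin (n' + n)) = Fin.natAdd n' ⟨k, hk⟩ := by
      apply Fin.ext
      simp [add_comm]
    rw [this]
    rfl
  rw [h1, h2, map_mul]
  change ((evF S W (lsub (extd (φ ∘ Fin.castAdd n)) h) : Subalgebra.center ℂ T) : T) *
    ((evF S W (lsub (extd (φ ∘ Fin.natAdd n')) f) : Subalgebra.center ℂ T) : T) = _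
  rw [hw' T S _, hw T S _, Finset.sum_mul_sum, ← Finset.sum_product', Finset.univ_product_univ]
  refine Fintype.sum_equiv (Fin.appendEquiv n' n) _ _ (fun p => ?_)
  obtain ⟨τ1, τ2⟩ := p
  have e1 : (Fin.append τ1 τ2) ∘ Fin.castAdd n = τ1 := by
    funext k
    rw [Function.comp_apply, Fin.append_left]
  have e2 : (Fin.append τ1 τ2) ∘ Fin.natAdd n' = τ2 := by
    funext k
    rw [Function.comp_apply, Fin.append_right]
  change (w' τ1 • S.pp (lis τ1 (φ ∘ Fin.castAdd n))) * (w τ2 • S.pp (lis τ2 (φ ∘ Fin.natAdd n'))) =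
    (w' ((Fin.append τ1 τ2) ∘ Fin.castAdd n) * w ((Fin.append τ1 τ2) ∘ Fin.natAdd n')) •
      S.pp (lis (Fin.append τ1 τ2) φ)
  rw [k18_lis, e1, e2, k18_pp_append, smul_mul_assoc, mul_smul_comm, smul_smul]

theorem isW_perm {f : UA} {w : (Fin n → E ⊕ O) → ℂ} (hfU : f ∈ UL n) (hf : IsW n W f w)
    (σ : Equiv.Perm (Fin n)) : IsW n W (lsub (extd fun k => (σ k : ℕ)) f)
      (fun τ => (kap σ (par ∘ τ) : ℂ) * w (τ ∘ σ)) := by
  intro T _ _ S φ
  rw [lsub_lsub]
  have h1 : lsub (extd φ ∘ extd fun k => (σ k : ℕ)) f = lsub (extd (φ ∘ σ)) f := by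
    refine lsub_congr hfU fun k hk => ?_
    exact extd_comp φ σ k hk
  rw [h1, hf T S _]
  symm
  refine Fintype.sum_equiv (Equiv.arrowCongr σ.symm (Equiv.refl (E ⊕ O))) _ _ (fun τ => ?_)
  change ((kap σ (par ∘ τ) : ℂ) * w (τ ∘ σ)) • S.pp (lis τ φ) = w (τ ∘ σ) • S.pp (lis (τ ∘ σ) (φ ∘ σ))
  rw [pp_perm S τ φ σ, mul_comm, mul_smul, Int.cast_smul_eq_zsmul]

private theorem k18_mon (e : ℕ) : ∀ (as : List ℕ) (m : ℕ), m = 2 * e + as.length →
    ∃ w : (Fin m → E ⊕ O) → ℂ, IsW m W (mon e as) w := by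
  induction e with
  | zero =>
    intro as
    induction as with
    | nil =>
      intro m hm
      obtain rfl : m = 0 := by simpa using hm
      refine ⟨fun _ => 1, ?_⟩
      rw [mon]
      exact isW_one W
    | cons a as ih =>
      intro m hm
      obtain ⟨w, hw⟩ := ih (2 * 0 + as.length) rfl
      obtain rfl : m = 1 + (2 * 0 + as.length) := by
        rw [hm, List.length_cons]
        omega
      rw [mon]
      exact ⟨_, isW_cat W (leg_mem_UL a) (mon_mem_UL 0 as) (isW_leg W a) hw⟩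
  | succ e ih =>
    intro as m hm
    obtain ⟨w, hw⟩ := ih as (2 * e + as.length) rfl
    obtain rfl : m = 2 + (2 * e + as.length) := by
      rw [hm]
      omega
    rw [mon]
    exact ⟨_, isW_cat W edge_mem_UL (mon_mem_UL e as) (isW_edge W) hw⟩

theorem exists_isW {f : UA} (hf : f ∈ UL n) : ∃ w, IsW n W f w := by
  obtain ⟨L, D, hfD⟩ := exists_BD f
  have h := span_UL n L D f hf hfD
  clear hf hfD
  induction h using Submodule.span_induction with
  | mem g hg =>
    obtain ⟨e, as, σ, h1, -, -, rfl⟩ := hg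
    subst h1
    obtain ⟨w, hw⟩ := k18_mon W e as _ rfl
    exact ⟨_, isW_perm W (mon_mem_UL e as) hw σ⟩
  | zero => exact ⟨0, k18_zero W⟩
  | add a b _ _ ha hb =>
    obtain ⟨w, hw⟩ := ha
    obtain ⟨w', hw'⟩ := hb
    exact ⟨_, isW_add W hw hw'⟩
  | smul c a _ ha =>
    obtain ⟨w, hw⟩ := ha
    exact ⟨_, isW_smul W hw c⟩

end MP50e386N
end

section
/-! [N50 K07] (t1), (t3), linearity of the super evaluation. -/

namespace MP50e386N

open MvPolynomial

variable {E O T : Type} [Ring T] [Algebra UA T] [Algebra ℂ T] [IsScalarTower ℂ UA T]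
  (S : SAlg E O UA T)

theorem ft_add {n : ℕ} (τ : Fin n → E ⊕ O) (f g : UA) :
    ft S τ (f + g) = ft S τ f + ft S τ g := by
  funext m
  change (∑ ι : Fin n → Fin m, algebraMap UA T (lsub (extd fun k => (ι k : ℕ)) (f + g)) *
    S.pp (lis τ fun k => (ι k : ℕ))) =
    (∑ ι : Fin n → Fin m, algebraMap UA T (lsub (extd fun k => (ι k : ℕ)) f) *
      S.pp (lis τ fun k => (ι k : ℕ))) +
    ∑ ι : Fin n → Fin m, algebraMap UA T (lsub (extd fun k => (ι k : ℕ)) g) *
      S.pp (lis τ fun k => (ι k : ℕ))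
  rw [← Finset.sum_add_distrib]
  refine Finset.sum_congr rfl fun ι _ => ?_
  rw [map_add, map_add, add_mul]

private theorem k07_algebraMap_smul (c : ℂ) (f : UA) :
    algebraMap UA T (c • f) = c • algebraMap UA T f := by
  rw [Algebra.algebraMap_eq_smul_one, Algebra.algebraMap_eq_smul_one, smul_assoc]

theorem ft_smul {n : ℕ} (τ : Fin n → E ⊕ O) (c : ℂ) (f : UA) :
    ft S τ (c • f) = c • ft S τ f := by
  funext m
  change (∑ ι : Fin n → Fin m, algebraMap UA T (lsub (extd fun k => (ι k : ℕ)) (c • f)) *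
    S.pp (lis τ fun k => (ι k : ℕ))) =
    c • ∑ ι : Fin n → Fin m, algebraMap UA T (lsub (extd fun k => (ι k : ℕ)) f) *
      S.pp (lis τ fun k => (ι k : ℕ))
  rw [Finset.smul_sum]
  refine Finset.sum_congr rfl fun ι _ => ?_
  rw [lsub_smul, k07_algebraMap_smul, smul_mul_assoc]

/-- (t1) -/
theorem ft_mem_NT {N : Submodule MP50e386.A UA} (hN : GLS N) {n : ℕ} (τ : Fin n → E ⊕ O) {f : UA}
    (hf : f ∈ N) (m : ℕ) : ft S τ f m ∈ NT (T := T) S N := by
  refine AddSubgroup.sum_mem _ fun ι _ => ?_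
  exact AddSubgroup.subset_closure ⟨_, hN.lsub_mem _ hf, _, rfl⟩

/-- (t3) -/
theorem ft_perm {n : ℕ} (τ : Fin n → E ⊕ O) {f : UA} (hf : f ∈ UL n) (σ : Equiv.Perm (Fin n)) :
    ft S τ (lsub (extd fun k => (σ k : ℕ)) f) = kap σ (par ∘ τ) • ft S (τ ∘ σ) f := by
  funext m
  change (∑ ι : Fin n → Fin m, algebraMap UA T (lsub (extd fun k => (ι k : ℕ))
      (lsub (extd fun k => (σ k : ℕ)) f)) * S.pp (lis τ fun k => (ι k : ℕ))) =
    kap σ (par ∘ τ) • ∑ ι : Fin n → Fin m, algebraMap UA T (lsub (extd fun k => (ι k : ℕ)) f) *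
      S.pp (lis (τ ∘ σ) fun k => (ι k : ℕ))
  have h1 : ∑ ι : Fin n → Fin m, algebraMap UA T (lsub (extd fun k => (ι k : ℕ)) f) *
      S.pp (lis (τ ∘ σ) fun k => (ι k : ℕ)) =
      ∑ ι : Fin n → Fin m, algebraMap UA T (lsub (extd fun k => (ι (σ k) : ℕ)) f) *
      S.pp (lis (τ ∘ σ) fun k => (ι (σ k) : ℕ)) := by
    refine (Fintype.sum_equiv (Equiv.arrowCongr σ.symm (Equiv.refl (Fin m))) _ _ ?_).symm
    intro ι
    rfl
  rw [h1, Finset.smul_sum]
  refine Finset.sum_congr rfl fun ι _ => ?_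
  have h2 : lsub (extd fun k => (ι k : ℕ)) (lsub (extd fun k => (σ k : ℕ)) f) =
      lsub (extd fun k => (ι (σ k) : ℕ)) f := by
    rw [lsub_lsub]
    refine lsub_congr hf fun k hk => ?_
    exact extd_comp (fun k => (ι k : ℕ)) σ k hk
  have h3 : S.pp (lis (τ ∘ σ) fun k => (ι (σ k) : ℕ)) =
      kap σ (par ∘ τ) • S.pp (lis τ fun k => (ι k : ℕ)) :=
    pp_perm S τ (fun k => (ι k : ℕ)) σ
  rw [h2, h3, mul_smul_comm, smul_smul, kap_mul_self, one_smul]

end MP50e386N
end

section
/-! [N50 K08] (t2): the super evaluation of a concatenation. -/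

namespace MP50e386N

open MvPolynomial

variable {E O T : Type} [Ring T] [Algebra UA T] [Algebra ℂ T] (S : SAlg E O UA T)

private theorem k08_extd_lt {n : ℕ} (φ : Fin n → ℕ) (k : ℕ) (h : k < n) :
    extd φ k = φ ⟨k, h⟩ := by
  unfold extd
  rw [dif_pos h]

private theorem k08_left {n' n m : ℕ} (i : Fin n' → Fin m) (j : Fin n → Fin m) (k : ℕ)
    (hk : k < n') :
    extd (fun k => ((Fin.append i j k : Fin m) : ℕ)) k = extd (fun k => (i k : ℕ)) k := by
  rw [k08_extd_lt _ k hk, k08_extd_lt _ k (Nat.lt_add_right n hk)]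
  have : (⟨k, Nat.lt_add_right n hk⟩ : Fin (n' + n)) = Fin.castAdd n ⟨k, hk⟩ := rfl
  rw [this, Fin.append_left]

private theorem k08_right {n' n m : ℕ} (i : Fin n' → Fin m) (j : Fin n → Fin m) (k : ℕ)
    (hk : k < n) :
    ((extd (fun k => ((Fin.append i j k : Fin m) : ℕ))) ∘ (· + n')) k = extd (fun k => (j k : ℕ)) k := by
  rw [k08_extd_lt _ k hk, Function.comp_apply, k08_extd_lt _ (k + n') (by omega)]
  have : (⟨k + n', by omega⟩ : Fin (n' + n)) = Fin.natAdd n' ⟨k, hk⟩ := by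
    apply Fin.ext
    simp [add_comm]
  rw [this, Fin.append_right]

private theorem k08_pp_append (l l' : List ((E ⊕ O) × ℕ)) : S.pp (l ++ l') = S.pp l * S.pp l' := by
  unfold SAlg.pp
  rw [List.map_append, List.prod_append]

private theorem k08_lis {n' n m : ℕ} (ρ : Fin n' → E ⊕ O) (τ : Fin n → E ⊕ O)
    (i : Fin n' → Fin m) (j : Fin n → Fin m) :
    lis (Fin.append ρ τ) (fun k => ((Fin.append i j k : Fin m) : ℕ)) =
      lis ρ (fun k => (i k : ℕ)) ++ lis τ (fun k => (j k : ℕ)) := by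
  unfold lis
  rw [← List.ofFn_fin_append]
  congr 1
  funext k
  refine Fin.addCases (fun k => ?_) (fun k => ?_) k
  · simp only [Fin.append_left]
  · simp only [Fin.append_right]

private theorem k08_apply {n : ℕ} (τ : Fin n → E ⊕ O) (f : UA) (m : ℕ) :
    ft S τ f m = ∑ ι : Fin n → Fin m, algebraMap UA T (lsub (extd fun k => (ι k : ℕ)) f) *
      S.pp (lis τ fun k => (ι k : ℕ)) := rfl

private theorem k08_mul (x y : TN S) (m : ℕ) : (x * y) m = x m * y m := rfl

/-- (t2) -/
theorem ft_cat {n' n : ℕ} (ρ : Fin n' → E ⊕ O) (τ : Fin n → E ⊕ O) {h f : UA} (hh : h ∈ UL n')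
    (hf : f ∈ UL n) :
    ft S (Fin.append ρ τ) (h * lsub (· + n') f) = ft S ρ h * ft S τ f := by
  funext m
  rw [k08_mul, k08_apply, k08_apply, k08_apply]
  rw [Finset.sum_mul_sum, ← Finset.sum_product', Finset.univ_product_univ]
  symm
  refine Fintype.sum_equiv (Fin.appendEquiv n' n) _ _ (fun p => ?_)
  obtain ⟨i, j⟩ := p
  change _ = algebraMap UA T (lsub (extd fun k => ((Fin.append i j k : Fin m) : ℕ)) (h * lsub (· + n') f)) *
      S.pp (lis (Fin.append ρ τ) fun k => ((Fin.append i j k : Fin m) : ℕ))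
  rw [map_mul, lsub_lsub, lsub_congr hh (fun k hk => k08_left i j k hk),
    lsub_congr hf (fun k hk => k08_right i j k hk), k08_lis, k08_pp_append, map_mul]
  dsimp only
  have key : ∀ (a b : UA) (x y : T), algebraMap UA T a * x * (algebraMap UA T b * y) =
      algebraMap UA T a * algebraMap UA T b * (x * y) := by
    intro a b x y
    rw [mul_assoc, mul_assoc, ← mul_assoc x, ← Algebra.commutes b x, mul_assoc]
  exact key _ _ _ _

theorem ft_one (τ : Fin 0 → E ⊕ O) : ft S τ 1 = 1 := by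
  funext m
  change ∑ ι : Fin 0 → Fin m,
    algebraMap UA T (lsub (extd fun k => (ι k : ℕ)) 1) * S.pp (lis τ fun k => (ι k : ℕ)) = 1
  rw [Fintype.sum_unique]
  simp [lis, SAlg.pp]

theorem ft_edge (τ : Fin 2 → E ⊕ O) : ft S τ (C (X s(0, 1))) = XX S (τ 0) (τ 1) := by
  funext m
  change ∑ ι : Fin 2 → Fin m,
    algebraMap UA T (lsub (extd fun k => (ι k : ℕ)) (C (X s(0, 1)))) *
      S.pp (lis τ fun k => (ι k : ℕ)) =
    ∑ i ∈ Finset.range m, ∑ j ∈ Finset.range m,
      algebraMap UA T (C (X s(i, j))) * (S.P (τ 0) i * S.P (τ 1) j)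
  rw [Finset.sum_range]
  simp_rw [Finset.sum_range]
  rw [← Finset.sum_product', Finset.univ_product_univ]
  refine Fintype.sum_equiv (finTwoArrowEquiv (Fin m)) _ _ (fun ι => ?_)
  rw [lsub_C_X]
  simp [lis, SAlg.pp, finTwoArrowEquiv, extd]

theorem ft_leg (a : ℕ) (τ : Fin 1 → E ⊕ O) : ft S τ (X (a, 0)) = ZZ S a (τ 0) := by
  funext m
  change ∑ ι : Fin 1 → Fin m,
    algebraMap UA T (lsub (extd fun k => (ι k : ℕ)) (X (a, 0))) *
      S.pp (lis τ fun k => (ι k : ℕ)) =
    ∑ i ∈ Finset.range m, algebraMap UA T (X (a, i)) * S.P (τ 0) i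
  rw [Finset.sum_range]
  refine Fintype.sum_equiv (Equiv.funUnique (Fin 1) (Fin m)) _ _ (fun ι => ?_)
  rw [lsub_X]
  simp [lis, SAlg.pp, extd]

end MP50e386N
end

section
/-! [N50 K11] the filtration by the number of factors `χ`; finiteness. -/

namespace MP50e386N

open MvPolynomial

variable {E O T : Type} [Fintype E] [Fintype O] [Ring T] [Algebra UA T] [Algebra ℂ T]
  (S : SAlg E O UA T)

/-! ### the factors `χ` anticommute -/

omit [Algebra UA T] [Algebra ℂ T] in
private theorem k11_anti {ι : Type} (s : Finset ι) (c c' u u' : ι → T)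
    (hc : ∀ j t, c j * t = t * c j) (hc' : ∀ j t, c' j * t = t * c' j)
    (hu : ∀ j j', u j * u' j' = -(u' j' * u j)) :
    (∑ j ∈ s, c j * u j) * (∑ j ∈ s, c' j * u' j) =
      -((∑ j ∈ s, c' j * u' j) * (∑ j ∈ s, c j * u j)) := by
  rw [Finset.sum_mul_sum, Finset.sum_mul_sum, Finset.sum_comm, ← Finset.sum_neg_distrib]
  refine Finset.sum_congr rfl fun i _ => ?_
  rw [← Finset.sum_neg_distrib]
  refine Finset.sum_congr rfl fun j _ => ?_
  calc c j * u j * (c' i * u' i) = c j * (c' i * (u j * u' i)) := by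
        rw [mul_assoc, ← mul_assoc (u j), ← hc' i (u j), mul_assoc]
    _ = -(c j * (c' i * (u' i * u j))) := by rw [hu, mul_neg, mul_neg]
    _ = -(c' i * (u' i * (c j * u j))) := by
        rw [← mul_assoc (c j), hc j (c' i), mul_assoc (c' i), ← mul_assoc (c j) (u' i),
          hc j (u' i), mul_assoc (u' i)]
    _ = -(c' i * u' i * (c j * u j)) := by rw [mul_assoc]

/-- `χ_{ab}` as a combination of odd generators with central coefficients -/
private theorem k11_chi (a : E) (b : O) (m : ℕ) : XX S (Sum.inl a) (Sum.inr b) m =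
    ∑ j ∈ Finset.range m, (∑ i ∈ Finset.range m,
      algebraMap UA T (C (X s(i, j))) * S.P (Sum.inl a) i) * S.P (Sum.inr b) j := by
  show (∑ i ∈ Finset.range m, ∑ j ∈ Finset.range m,
    algebraMap UA T (C (X s(i, j))) * (S.P (Sum.inl a) i * S.P (Sum.inr b) j)) = _
  rw [Finset.sum_comm]
  refine Finset.sum_congr rfl fun j _ => ?_
  rw [Finset.sum_mul]
  refine Finset.sum_congr rfl fun i _ => ?_
  rw [mul_assoc]

private theorem k11_coef (a : E) (m j : ℕ) (t : T) :
    (∑ i ∈ Finset.range m, algebraMap UA T (C (X s(i, j))) * S.P (Sum.inl a) i) * t =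
      t * ∑ i ∈ Finset.range m, algebraMap UA T (C (X s(i, j))) * S.P (Sum.inl a) i := by
  rw [Finset.sum_mul, Finset.mul_sum]
  refine Finset.sum_congr rfl fun i _ => ?_
  rw [mul_assoc, S.even_central, ← mul_assoc, Algebra.commutes, mul_assoc]

private theorem k11_chi_anti (p q : E × O) :
    XX S (Sum.inl p.1) (Sum.inr p.2) * XX S (Sum.inl q.1) (Sum.inr q.2) =
      -(XX S (Sum.inl q.1) (Sum.inr q.2) * XX S (Sum.inl p.1) (Sum.inr p.2)) := by
  funext m
  show XX S (Sum.inl p.1) (Sum.inr p.2) m * XX S (Sum.inl q.1) (Sum.inr q.2) m =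
    -(XX S (Sum.inl q.1) (Sum.inr q.2) m * XX S (Sum.inl p.1) (Sum.inr p.2) m)
  rw [k11_chi, k11_chi]
  refine k11_anti _ _ _ _ _ (fun j t => k11_coef S _ _ _ _) (fun j t => k11_coef S _ _ _ _)
    fun j j' => ?_
  rw [S.comm]
  have e : ss (par (Sum.inr p.2 : E ⊕ O)) (par (Sum.inr q.2 : E ⊕ O)) = -1 := by simp [ss, par]
  rw [e, neg_smul, one_smul]

private theorem k11_chi_sq (p : E × O) :
    XX S (Sum.inl p.1) (Sum.inr p.2) * XX S (Sum.inl p.1) (Sum.inr p.2) = 0 := by
  have h := k11_chi_anti S p p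
  set x := XX S (Sum.inl p.1) (Sum.inr p.2) * XX S (Sum.inl p.1) (Sum.inr p.2) with hx
  have h2 : (2 : ℂ) • x = 0 := by
    rw [two_smul]
    nth_rewrite 1 [h]
    rw [neg_add_cancel]
  exact (smul_eq_zero_iff_right (two_ne_zero (α := ℂ))).1 h2

/-- the product of `χ`'s -/
private noncomputable def k11_pr (l : List (E × O)) : TN S :=
  (l.map fun p => XX S (Sum.inl p.1) (Sum.inr p.2)).prod

private theorem k11_mem (a : E × O) (l : List (E × O)) (h : a ∈ l) :
    XX S (Sum.inl a.1) (Sum.inr a.2) * k11_pr S l = 0 := by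
  unfold k11_pr
  induction l with
  | nil => exact absurd h List.not_mem_nil
  | cons b l ih =>
    rw [List.map_cons, List.prod_cons]
    rcases List.mem_cons.1 h with rfl | h
    · rw [← mul_assoc, k11_chi_sq, zero_mul]
    · rw [← mul_assoc, k11_chi_anti, neg_mul, mul_assoc, ih h, mul_zero, neg_zero]

private theorem k11_dup (l : List (E × O)) (h : ¬ l.Nodup) : k11_pr S l = 0 := by
  induction l with
  | nil => exact absurd List.nodup_nil h
  | cons a l ih =>
    have e : k11_pr S (a :: l) = XX S (Sum.inl a.1) (Sum.inr a.2) * k11_pr S l := by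
      unfold k11_pr
      rw [List.map_cons, List.prod_cons]
    rw [e]
    by_cases ha : a ∈ l
    · exact k11_mem S a l ha
    · rw [ih fun hl => h (List.nodup_cons.2 ⟨ha, hl⟩), mul_zero]

private theorem k11_long (l : List (E × O)) (h : Fintype.card E * Fintype.card O < l.length) :
    k11_pr S l = 0 := by
  classical
  refine k11_dup S l fun hn => ?_
  have h1 := hn.length_le_card
  rw [Fintype.card_prod] at h1
  omega

/-! ### the statements -/

theorem Chi_anti {i j : ℕ} (h : i ≤ j) : Chi S j ≤ Chi S i := by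
  refine Submodule.span_mono ?_
  rintro x ⟨l, hl, rfl⟩
  exact ⟨l, h.trans hl, rfl⟩

theorem one_mem_Chi : (1 : TN S) ∈ Chi S 0 :=
  Submodule.subset_span ⟨[], le_rfl, by simp⟩

theorem Chi_mul (i j : ℕ) : Chi S i * Chi S j ≤ Chi S (i + j) := by
  unfold Chi
  rw [Submodule.span_mul_span, Submodule.span_le]
  rintro x ⟨y, ⟨l, hl, rfl⟩, z, ⟨l', hl', rfl⟩, rfl⟩
  refine Submodule.subset_span ⟨l ++ l', ?_, ?_⟩
  · rw [List.length_append]
    omega
  · rw [List.map_append, List.prod_append]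

theorem Chi_zero_eq : Chi S 0 = 1 ⊔ Chi S 1 := by
  apply le_antisymm
  · refine Submodule.span_le.2 ?_
    rintro x ⟨l, -, rfl⟩
    rcases l with _ | ⟨a, l⟩
    · refine Submodule.mem_sup_left ?_
      rw [List.map_nil, List.prod_nil]
      exact Submodule.one_le.1 le_rfl
    · refine Submodule.mem_sup_right (Submodule.subset_span ⟨a :: l, ?_, rfl⟩)
      rw [List.length_cons]
      omega
  · exact sup_le (Submodule.one_le.2 (one_mem_Chi S)) (Chi_anti S (Nat.zero_le 1))

/-- a product with too many factors `χ` vanishes -/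
theorem Chi_eq_bot : Chi S (Fintype.card E * Fintype.card O + 1) = ⊥ := by
  rw [eq_bot_iff]
  refine Submodule.span_le.2 ?_
  rintro x ⟨l, hl, rfl⟩
  have h := k11_long S l (by omega)
  unfold k11_pr at h
  rw [h]
  exact Submodule.zero_mem _

theorem Chi_fg : (Chi S 0).FG := by
  have hfin : {l : List (E × O) | l.length ≤ Fintype.card E * Fintype.card O}.Finite :=
    List.finite_length_le _ _
  have e : Chi S 0 = Submodule.span (KK E O) (k11_pr S ''
      {l : List (E × O) | l.length ≤ Fintype.card E * Fintype.card O}) := by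
    apply le_antisymm
    · refine Submodule.span_le.2 ?_
      rintro x ⟨l, -, rfl⟩
      by_cases hl : l.length ≤ Fintype.card E * Fintype.card O
      · exact Submodule.subset_span ⟨l, hl, rfl⟩
      · have h := k11_long S l (by omega)
        unfold k11_pr at h
        rw [h]
        exact Submodule.zero_mem _
    · refine Submodule.span_le.2 ?_
      rintro x ⟨l, -, rfl⟩
      exact Submodule.subset_span ⟨l, Nat.zero_le _, rfl⟩
  rw [e]
  exact Submodule.fg_span (hfin.image _)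

theorem ZD_fg (L D : ℕ) : (ZD S L D).FG := by
  have hfin : {l : List (Fin L × (E ⊕ O)) | l.length ≤ D}.Finite := List.finite_length_le _ _
  refine Submodule.fg_span ((hfin.image fun l : List (Fin L × (E ⊕ O)) =>
    (l.map fun p => ZZ S p.1.val p.2).prod).subset ?_)
  rintro x ⟨l, hl1, hl2, rfl⟩
  refine ⟨l.pmap (fun p hp => (⟨p.1, hp⟩, p.2)) hl1, ?_, ?_⟩
  · show (l.pmap (fun (p : ℕ × (E ⊕ O)) (hp : p.1 < L) =>
      ((⟨p.1, hp⟩, p.2) : Fin L × (E ⊕ O))) hl1).length ≤ D
    rw [List.length_pmap]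
    exact hl2
  · show ((l.pmap (fun (p : ℕ × (E ⊕ O)) (hp : p.1 < L) =>
      ((⟨p.1, hp⟩, p.2) : Fin L × (E ⊕ O))) hl1).map fun p => ZZ S p.1.val p.2).prod = _
    rw [List.map_pmap]
    congr 1
    exact List.pmap_eq_map (f := fun p : ℕ × (E ⊕ O) => ZZ S p.1 p.2) hl1

theorem one_mem_ZD (L D : ℕ) : (1 : TN S) ∈ ZD S L D :=
  Submodule.subset_span ⟨[], by simp, Nat.zero_le _, by simp⟩

theorem ZD_zero (L : ℕ) : ZD S L 0 = 1 := by
  rw [Submodule.one_eq_span]
  unfold ZD
  congr 1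
  ext x
  constructor
  · rintro ⟨l, -, hl, rfl⟩
    have h : l = [] := List.length_eq_zero_iff.1 (Nat.le_zero.1 hl)
    subst h
    rw [List.map_nil, List.prod_nil]
    rfl
  · intro hx
    have hx' : x = 1 := hx
    subst hx'
    exact ⟨[], by simp, le_rfl, by simp⟩

theorem SSD_fg (L D : ℕ) : (SSD S L D).FG := (Chi_fg S).mul (ZD_fg S L D)

theorem SSD_zero (L : ℕ) : SSD S L 0 = Chi S 0 := by
  unfold SSD
  rw [ZD_zero, mul_one]

theorem Chi_mul_SSD (L D : ℕ) : Chi S 0 * SSD S L D ≤ SSD S L D := by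
  unfold SSD
  rw [← mul_assoc]
  exact mul_le_mul_left (Chi_mul S 0 0) _

end MP50e386N
end

section
/-! [N50 K12] (t6): `f_τ ∈ SS_{≤ D}`. -/

namespace MP50e386N

open MvPolynomial

variable {E O T : Type} [Fintype E] [Fintype O] [Ring T] [Algebra UA T] [Algebra ℂ T]
  [IsScalarTower ℂ UA T] (S : SAlg E O UA T)

private theorem k12_C_smul {E O T : Type} [Ring T] [Algebra UA T] [Algebra ℂ T]
    (S : SAlg E O UA T) (c : ℂ) (x : TN S) : (C c : KK E O) • x = c • x := by
  rw [Algebra.smul_def, Algebra.smul_def]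
  congr 1
  change ((KH S (C c) : Subalgebra.center ℂ (TN S)) : TN S) = algebraMap ℂ (TN S) c
  have : (C c : KK E O) = algebraMap ℂ (KK E O) c := rfl
  rw [this, AlgHom.commutes]
  rfl

private theorem k12_csmul_mem {E O T : Type} [Ring T] [Algebra UA T] [Algebra ℂ T]
    (S : SAlg E O UA T) (M : Submodule (KK E O) (TN S)) (c : ℂ) {x : TN S} (hx : x ∈ M) :
    c • x ∈ M := by
  rw [← k12_C_smul]
  exact M.smul_mem _ hx

private theorem k12_X_smul_one {E O T : Type} [Ring T] [Algebra UA T] [Algebra ℂ T]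
    (S : SAlg E O UA T) (p : (E × E) ⊕ (O × O)) :
    (X p : KK E O) • (1 : TN S) =
      Sum.elim (fun p : E × E => XX S (Sum.inl p.1) (Sum.inl p.2))
        (fun p : O × O => XX S (Sum.inr p.1) (Sum.inr p.2)) p := by
  rw [Algebra.smul_def, mul_one]
  change ((KH S (X p) : Subalgebra.center ℂ (TN S)) : TN S) = _
  unfold KH
  rw [aeval_X]
  rcases p with p | p <;> rfl

private theorem k12_XX_swap {E O T : Type} [Ring T] [Algebra UA T] [Algebra ℂ T]
    (S : SAlg E O UA T) (a : E) (b : O) :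
    XX S (Sum.inr b) (Sum.inl a) = XX S (Sum.inl a) (Sum.inr b) := by
  funext m
  change (∑ i ∈ Finset.range m, ∑ j ∈ Finset.range m,
    algebraMap UA T (C (X s(i, j))) * (S.P (Sum.inr b) i * S.P (Sum.inl a) j)) =
    ∑ i ∈ Finset.range m, ∑ j ∈ Finset.range m,
    algebraMap UA T (C (X s(i, j))) * (S.P (Sum.inl a) i * S.P (Sum.inr b) j)
  rw [Finset.sum_comm]
  refine Finset.sum_congr rfl fun i _ => Finset.sum_congr rfl fun j _ => ?_
  rw [S.even_central a i, Sym2.eq_swap]

private theorem k12_XX_mem (y y' : E ⊕ O) : XX S y y' ∈ Chi S 0 := by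
  rcases y with a | b <;> rcases y' with a' | b'
  · have := k12_X_smul_one S (Sum.inl (a, a'))
    rw [Sum.elim_inl] at this
    rw [← this]
    exact (Chi S 0).smul_mem _ (one_mem_Chi S)
  · refine Submodule.subset_span ⟨[(a, b')], Nat.zero_le _, ?_⟩
    simp
  · rw [k12_XX_swap]
    refine Submodule.subset_span ⟨[(a', b)], Nat.zero_le _, ?_⟩
    simp
  · have := k12_X_smul_one S (Sum.inr (b, b'))
    rw [Sum.elim_inr] at this
    rw [← this]
    exact (Chi S 0).smul_mem _ (one_mem_Chi S)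

omit [Fintype E] [Fintype O] [IsScalarTower ℂ UA T] in
private theorem k12_ZD_mono (L : ℕ) {D D' : ℕ} (h : D ≤ D') : ZD S L D ≤ ZD S L D' := by
  refine Submodule.span_mono ?_
  rintro x ⟨l, h1, h2, h3⟩
  exact ⟨l, h1, h2.trans h, h3⟩

omit [Fintype E] [Fintype O] [IsScalarTower ℂ UA T] in
private theorem k12_ZZ_mul {L D a : ℕ} (ha : a < L) (y : E ⊕ O) {x : TN S} (hx : x ∈ ZD S L D) :
    ZZ S a y * x ∈ ZD S L (1 + D) := by
  unfold ZD at hx
  induction hx using Submodule.span_induction with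
  | mem x hx =>
    obtain ⟨l, h1, h2, rfl⟩ := hx
    refine Submodule.subset_span ⟨(a, y) :: l, ?_, ?_, ?_⟩
    · intro p hp
      rcases List.mem_cons.1 hp with rfl | hp
      · exact ha
      · exact h1 p hp
    · rw [List.length_cons]; omega
    · rw [List.map_cons, List.prod_cons]
  | zero => rw [mul_zero]; exact Submodule.zero_mem _
  | add x x' _ _ h h' => rw [mul_add]; exact Submodule.add_mem _ h h'
  | smul k x _ h => rw [mul_smul_comm]; exact Submodule.smul_mem _ _ h

private theorem k12_mon_nil : mon 0 [] = 1 := by rw [mon]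

private theorem k12_mon_cons (a : ℕ) (as : List ℕ) :
    mon 0 (a :: as) = X (a, 0) * lsub (· + 1) (mon 0 as) := by rw [mon]

private theorem k12_mon_succ (e : ℕ) (as : List ℕ) :
    mon (e + 1) as = C (X s(0, 1)) * lsub (· + 2) (mon e as) := by rw [mon]

private theorem k12_split {Y : Type} {n' n : ℕ} (τ : Fin (n' + n) → Y) :
    ∃ (ρ : Fin n' → Y) (τ' : Fin n → Y), τ = Fin.append ρ τ' :=
  ⟨fun i => τ (Fin.castAdd n i), fun i => τ (Fin.natAdd n' i), (Fin.append_castAdd_natAdd).symm⟩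

private theorem k12_legs (L : ℕ) (as : List ℕ) (hL : ∀ a ∈ as, a < L) :
    ∀ (n : ℕ) (τ : Fin n → E ⊕ O), n = as.length → ft S τ (mon 0 as) ∈ ZD S L as.length := by
  induction as with
  | nil =>
    intro n τ hn
    rw [List.length_nil] at hn
    subst hn
    rw [k12_mon_nil, ft_one]
    exact one_mem_ZD S L _
  | cons a as ih =>
    intro n τ hn
    rw [List.length_cons, Nat.add_comm] at hn
    subst hn
    rw [List.length_cons, Nat.add_comm]
    obtain ⟨ρ, τ', rfl⟩ := k12_split τ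
    have hm : mon 0 as ∈ UL as.length := by
      have := mon_mem_UL 0 as
      rwa [Nat.mul_zero, Nat.zero_add] at this
    rw [k12_mon_cons, ft_cat S ρ τ' (leg_mem_UL a) hm, ft_leg]
    exact k12_ZZ_mul S (hL a (List.mem_cons_self ..)) _
      (ih (fun b hb => hL b (List.mem_cons_of_mem _ hb)) _ _ rfl)

private theorem k12_mon (L D e : ℕ) (as : List ℕ) (hL : ∀ a ∈ as, a < L) (hD : as.length ≤ D) :
    ∀ (n : ℕ) (τ : Fin n → E ⊕ O), n = 2 * e + as.length → ft S τ (mon e as) ∈ SSD S L D := by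
  induction e with
  | zero =>
    intro n τ hn
    have h1 := k12_ZD_mono S L hD (k12_legs S L as hL n τ (by omega))
    have h2 := Submodule.mul_mem_mul (one_mem_Chi S) h1
    rwa [one_mul] at h2
  | succ e ih =>
    intro n τ hn
    have hn' : n = 2 + (2 * e + as.length) := by omega
    subst hn'
    obtain ⟨ρ, τ', rfl⟩ := k12_split τ
    rw [k12_mon_succ, ft_cat S ρ τ' edge_mem_UL (mon_mem_UL e as), ft_edge]
    exact Chi_mul_SSD S L D (Submodule.mul_mem_mul (k12_XX_mem S _ _) (ih _ _ rfl))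

/-- (t6) -/
theorem ft_mem_SSD {n L D : ℕ} (τ : Fin n → E ⊕ O) {f : UA} (hf : f ∈ UL n)
    (hfD : f ∈ BD MP50e386.A L D) : ft S τ f ∈ SSD S L D := by
  have h := span_UL n L D f hf hfD
  clear hf hfD
  induction h using Submodule.span_induction with
  | mem g hg =>
    obtain ⟨e, as, σ, hn, hD, hL, rfl⟩ := hg
    have hm : mon e as ∈ UL n := by
      have := mon_mem_UL e as
      rwa [hn] at this
    rw [ft_perm S τ hm]
    exact (SSD S L D).toAddSubgroup.zsmul_mem (k12_mon S L D e as hL hD n _ hn.symm) _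
  | zero =>
    have : ft S τ (0 : UA) = 0 := by
      have := ft_smul S τ 0 (0 : UA)
      rwa [zero_smul, zero_smul] at this
    rw [this]
    exact Submodule.zero_mem _
  | add x y _ _ hx hy => rw [ft_add]; exact Submodule.add_mem _ hx hy
  | smul c x _ hx => rw [ft_smul]; exact k12_csmul_mem S _ c hx

theorem ft_C_mem_Chi {n : ℕ} (τ : Fin n → E ⊕ O) {f : MP50e386.A} (hf : (C f : UA) ∈ UL n) :
    ft S τ (C f) ∈ Chi S 0 := by
  rw [← SSD_zero S 0]
  refine ft_mem_SSD S τ hf ?_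
  unfold BD
  rw [mem_restrictSupport_iff]
  intro m hm
  have hm' : m ∈ (C f : UA).support := hm
  rw [mem_support_iff, coeff_C] at hm'
  have h0 : m = 0 := by
    by_contra h
    exact hm' (if_neg (Ne.symm h))
  subst h0
  refine ⟨fun p hp => ?_, ?_⟩
  · simp at hp
  · simp

end MP50e386N
end

section
/-! [N50 K25] (t7): the super evaluation modulo the `χ`'s. -/

namespace MP50e386N

open MvPolynomial

section k25_basic

variable {E O T : Type} [Ring T] [Algebra UA T] [Algebra ℂ T] (S : SAlg E O UA T)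

private theorem k25_alg (P : KK E O) : algebraMap (KK E O) (TN S) P =
    ((KH S P : Subalgebra.center ℂ (TN S)) : TN S) := rfl

private theorem k25_C (c : ℂ) (x : TN S) : (C c : KK E O) • x = c • x := by
  rw [Algebra.smul_def, k25_alg, ← MvPolynomial.algebraMap_eq, AlgHom.commutes, Algebra.smul_def]
  rfl

private theorem k25_XX_swap (a : E) (b : O) :
    XX S (Sum.inr b) (Sum.inl a) = XX S (Sum.inl a) (Sum.inr b) := by
  funext m
  change (∑ i ∈ Finset.range m, ∑ j ∈ Finset.range m,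
    algebraMap UA T (C (X s(i, j))) * (S.P (Sum.inr b) i * S.P (Sum.inl a) j)) =
    ∑ i ∈ Finset.range m, ∑ j ∈ Finset.range m,
    algebraMap UA T (C (X s(i, j))) * (S.P (Sum.inl a) i * S.P (Sum.inr b) j)
  rw [Finset.sum_comm]
  refine Finset.sum_congr rfl fun j _ => Finset.sum_congr rfl fun i _ => ?_
  rw [Sym2.eq_swap, ← S.even_central a j (S.P (Sum.inr b) i)]

private theorem k25_XX_mem (a : E) (b : O) : XX S (Sum.inl a) (Sum.inr b) ∈ Chi S 1 := by
  refine Submodule.subset_span ⟨[(a, b)], le_rfl, ?_⟩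
  simp

private theorem k25_edge (y y' : E ⊕ O) : ∃ P : KK E O, XX S y y' - P • (1 : TN S) ∈ Chi S 1 ∧
    ∀ W : Form E O, kev W P = We W y y' := by
  rcases y with a | b <;> rcases y' with a' | b'
  · refine ⟨X (Sum.inl (a, a')), ?_, fun W => ?_⟩
    · rw [Algebra.smul_def, k25_alg, mul_one, KH, aeval_X, Sum.elim_inl, sub_self]
      exact Submodule.zero_mem _
    · rw [kev, aeval_X, Sum.elim_inl]
      rfl
  · refine ⟨0, ?_, fun W => ?_⟩
    · rw [zero_smul, sub_zero]
      exact k25_XX_mem S a b'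
    · rw [map_zero]
      rfl
  · refine ⟨0, ?_, fun W => ?_⟩
    · rw [zero_smul, sub_zero, k25_XX_swap]
      exact k25_XX_mem S a' b
    · rw [map_zero]
      rfl
  · refine ⟨X (Sum.inr (b, b')), ?_, fun W => ?_⟩
    · rw [Algebra.smul_def, k25_alg, mul_one, KH, aeval_X, Sum.elim_inr, sub_self]
      exact Submodule.zero_mem _
    · rw [kev, aeval_X, Sum.elim_inr]
      rfl

end k25_basic

variable {E O T : Type} [Fintype E] [Fintype O] [DecidableEq E] [DecidableEq O] [Ring T]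
  [Algebra UA T] [Algebra ℂ T] [IsScalarTower ℂ UA T] (S : SAlg E O UA T)

/-- the statement for an element of `A[z]` -/
private def k25_Red (n : ℕ) (g : UA) : Prop := ∀ τ : Fin n → E ⊕ O,
  ∃ P : KK E O, ft S τ g - P • (1 : TN S) ∈ Chi S 1 ∧
    ∀ (W : Form E O) (w : (Fin n → E ⊕ O) → ℂ), IsW n W g w → kev W P = w τ

private theorem k25_mem_zero {n : ℕ} {g : UA} {τ : Fin n → E ⊕ O} {P : KK E O}
    (h : ft S τ g - P • (1 : TN S) ∈ Chi S 1) : ft S τ g ∈ Chi S 0 := by
  have h1 : ft S τ g = (ft S τ g - P • (1 : TN S)) + P • (1 : TN S) := by abel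
  rw [h1]
  exact Submodule.add_mem _ (Chi_anti S (Nat.zero_le 1) h)
    (Submodule.smul_mem _ _ (one_mem_Chi S))

private theorem k25_perm {n : ℕ} {g : UA} (hg : g ∈ UL n) (h : k25_Red S n g)
    (σ : Equiv.Perm (Fin n)) : k25_Red S n (lsub (extd fun k => (σ k : ℕ)) g) := by
  intro τ
  obtain ⟨P, h1, h2⟩ := h (τ ∘ σ)
  refine ⟨kap σ (par ∘ τ) • P, ?_, fun W w hw => ?_⟩
  · rw [ft_perm S τ hg σ, smul_assoc, ← smul_sub]
    exact zsmul_mem h1 _
  · obtain ⟨w', hw'⟩ := exists_isW (n := n) W hg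
    rw [map_zsmul, h2 W w' hw', isW_unique W hw (isW_perm W hg hw' σ), zsmul_eq_mul]

private theorem k25_mon (e : ℕ) : ∀ n, n = 2 * e → k25_Red S n (mon e []) := by
  induction e with
  | zero =>
    intro n hn
    obtain rfl : n = 0 := by omega
    intro τ
    have hmon : (mon 0 [] : UA) = 1 := by rw [mon]
    rw [hmon]
    refine ⟨1, ?_, fun W w hw => ?_⟩
    · rw [ft_one S τ, one_smul, sub_self]
      exact Submodule.zero_mem _
    · have h1 : w = fun _ => 1 := isW_unique W hw (isW_one W)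
      rw [map_one, h1]
  | succ e ih =>
    rintro n hn
    obtain rfl : n = 2 + 2 * e := by omega
    intro τ
    have hU : (mon e [] : UA) ∈ UL (2 * e) := by
      have := mon_mem_UL e []
      simpa using this
    obtain ⟨Pe, a1, a2⟩ := k25_edge S (τ (Fin.castAdd (2 * e) 0)) (τ (Fin.castAdd (2 * e) 1))
    obtain ⟨Pf, b1, b2⟩ := ih (2 * e) rfl (τ ∘ Fin.natAdd 2)
    have hτ : τ = Fin.append (τ ∘ Fin.castAdd (2 * e)) (τ ∘ Fin.natAdd 2) := by
      funext k
      refine Fin.addCases (fun k => ?_) (fun k => ?_) k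
      · rw [Fin.append_left]
        rfl
      · rw [Fin.append_right]
        rfl
    have hmon : (mon (e + 1) [] : UA) = C (X s(0, 1)) * lsub (· + 2) (mon e []) := by rw [mon]
    refine ⟨Pe * Pf, ?_, fun W w hw => ?_⟩
    · have h1 : ft S τ (mon (e + 1) []) =
          XX S (τ (Fin.castAdd (2 * e) 0)) (τ (Fin.castAdd (2 * e) 1)) *
            ft S (τ ∘ Fin.natAdd 2) (mon e []) := by
        conv_lhs => rw [hτ, hmon]
        rw [ft_cat S _ _ edge_mem_UL hU, ft_edge]
        rfl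
      have h2 : ∀ x y : TN S, x * y - (Pe * Pf) • (1 : TN S) =
          (x - Pe • (1 : TN S)) * y + Pe • (y - Pf • (1 : TN S)) := by
        intro x y
        rw [sub_mul, smul_mul_assoc, one_mul, smul_sub, smul_smul]
        abel
      rw [h1, h2]
      refine Submodule.add_mem _ ?_ (Submodule.smul_mem _ _ b1)
      have h3 := Chi_mul S 1 0 (Submodule.mul_mem_mul a1 (k25_mem_zero S b1))
      simpa using h3
    · obtain ⟨w', hw'⟩ := exists_isW (n := 2 * e) W hU
      rw [hmon] at hw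
      have h1 := isW_unique W hw (isW_cat W edge_mem_UL hU (isW_edge W) hw')
      rw [map_mul, a2 W, b2 W w' hw', h1]
      rfl

/-- (t7) -/
theorem redK {n : ℕ} {f : MP50e386.A} (hf : (C f : UA) ∈ UL n) (τ : Fin n → E ⊕ O) :
    ∃ P : KK E O, ft S τ (C f) - P • (1 : TN S) ∈ Chi S 1 ∧
      ∀ (W : Form E O) (w : (Fin n → E ⊕ O) → ℂ), IsW n W (C f) w → kev W P = w τ := by
  have hBD : (C f : UA) ∈ BD MP50e386.A 0 0 := by
    unfold BD
    rw [mem_restrictSupport_iff]
    intro m hm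
    have h1 : m = 0 := by
      by_contra hne
      have h2 : coeff m (C f : UA) ≠ 0 := mem_support_iff.1 hm
      rw [coeff_C, if_neg (Ne.symm hne)] at h2
      exact h2 rfl
    subst h1
    refine ⟨fun p hp => ?_, ?_⟩
    · simp at hp
    · simp
  have hspan := span_UL n 0 0 (C f) hf hBD
  have key : (C f : UA) ∈ UL n ∧ k25_Red S n (C f) := by
    refine Submodule.span_induction (p := fun g _ => g ∈ UL n ∧ k25_Red S n g) ?_ ?_ ?_ ?_ hspan
    · rintro g ⟨e, as, σ, h1, h2, -, rfl⟩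
      have h3 : as = [] := List.eq_nil_of_length_eq_zero (Nat.le_zero.1 h2)
      subst h3
      have h4 : n = 2 * e := by simpa using h1.symm
      have hU : (mon e [] : UA) ∈ UL n := by
        have := mon_mem_UL e []
        rw [h4]
        simpa using this
      exact ⟨UL_perm hU σ, k25_perm S hU (k25_mon S e n h4) σ⟩
    · refine ⟨Submodule.zero_mem _, fun τ => ⟨0, ?_, fun W w hw => ?_⟩⟩
      · have h1 : ft S τ (0 : UA) = 0 := by
          have := ft_smul S τ 0 (0 : UA)
          rwa [zero_smul, zero_smul] at this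
        rw [h1, zero_smul, sub_zero]
        exact Submodule.zero_mem _
      · obtain ⟨w', hw'⟩ := exists_isW (n := n) W (Submodule.zero_mem (UL n))
        have h1 := isW_smul W hw' 0
        rw [zero_smul, zero_smul] at h1
        rw [map_zero, isW_unique W hw h1]
        rfl
    · rintro x y - - ⟨hx, hx'⟩ ⟨hy, hy'⟩
      refine ⟨Submodule.add_mem _ hx hy, fun τ => ?_⟩
      obtain ⟨P, p1, p2⟩ := hx' τ
      obtain ⟨Q, q1, q2⟩ := hy' τ
      refine ⟨P + Q, ?_, fun W w hw => ?_⟩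
      · rw [ft_add, add_smul, add_sub_add_comm]
        exact Submodule.add_mem _ p1 q1
      · obtain ⟨wx, hwx⟩ := exists_isW (n := n) W hx
        obtain ⟨wy, hwy⟩ := exists_isW (n := n) W hy
        rw [map_add, p2 W wx hwx, q2 W wy hwy, isW_unique W hw (isW_add W hwx hwy)]
        rfl
    · rintro c x - ⟨hx, hx'⟩
      refine ⟨Submodule.smul_mem _ c hx, fun τ => ?_⟩
      obtain ⟨P, p1, p2⟩ := hx' τ
      refine ⟨C c * P, ?_, fun W w hw => ?_⟩
      · rw [ft_smul, mul_smul, ← k25_C S c (ft S τ x), ← smul_sub]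
        exact Submodule.smul_mem _ _ p1
      · obtain ⟨wx, hwx⟩ := exists_isW (n := n) W hx
        rw [map_mul, p2 W wx hwx, isW_unique W hw (isW_smul W hwx c), ← MvPolynomial.algebraMap_eq,
          AlgHom.commutes]
        rfl
  exact key.2 τ

end MP50e386N
end

section
/-! [N50 K19] (t8): values at a pulled back form. -/

namespace MP50e386N

open MvPolynomial

variable {E O E' O' : Type} [Fintype E] [Fintype O] [DecidableEq E] [DecidableEq O]
  [Fintype E'] [Fintype O'] [DecidableEq E'] [DecidableEq O'] {n : ℕ}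

/-- entries of the parity preserving matrix `(M, M')` -/
def MM (M : E' → E → ℂ) (M' : O' → O → ℂ) (y' : E' ⊕ O') (y : E ⊕ O) : ℂ := match y', y with
  | Sum.inl a', Sum.inl a => M a' a
  | Sum.inr b', Sum.inr b => M' b' b
  | _, _ => 0

/-- the pulled back table -/
private def k19_T (M : E' → E → ℂ) (M' : O' → O → ℂ) {n : ℕ} (w : (Fin n → E' ⊕ O') → ℂ) :
    (Fin n → E ⊕ O) → ℂ := fun τ => ∑ τ', (∏ k, MM M M' (τ' k) (τ k)) * w τ'

/-- the statement for `f` -/
private def k19_Q (W : Form E' O') (M : E' → E → ℂ) (M' : O' → O → ℂ) (n : ℕ) (f : UA) : Prop :=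
  ∃ w, IsW n W f w ∧ IsW n (W.pull M M') f (k19_T M M' w)

omit [Fintype E] [Fintype O] [DecidableEq E] [DecidableEq O] [DecidableEq E'] [DecidableEq O'] in
private theorem k19_perm (M : E' → E → ℂ) (M' : O' → O → ℂ) (w : (Fin n → E' ⊕ O') → ℂ)
    (σ : Equiv.Perm (Fin n)) (τ : Fin n → E ⊕ O) :
    k19_T M M' (fun τ' => (kap σ (par ∘ τ') : ℂ) * w (τ' ∘ σ)) τ =
      (kap σ (par ∘ τ) : ℂ) * k19_T M M' w (τ ∘ σ) := by
  unfold k19_T
  have h1 : ∀ τ' : Fin n → E' ⊕ O', (∏ k, MM M M' (τ' k) (τ k)) *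
      ((kap σ (par ∘ τ') : ℂ) * w (τ' ∘ σ)) =
      (kap σ (par ∘ τ) : ℂ) * ((∏ k, MM M M' (τ' k) (τ k)) * w (τ' ∘ σ)) := by
    intro τ'
    by_cases h : (∏ k, MM M M' (τ' k) (τ k)) = 0
    · rw [h]; ring
    · have hp : (par ∘ τ' : Fin n → Bool) = par ∘ τ := by
        funext k
        have hk : MM M M' (τ' k) (τ k) ≠ 0 := fun h0 =>
          h (Finset.prod_eq_zero (Finset.mem_univ k) h0)
        simp only [Function.comp_apply]
        rcases h1 : τ' k with a' | b' <;> rcases h2 : τ k with a | b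
        · rfl
        · rw [h1, h2] at hk
          exact absurd rfl hk
        · rw [h1, h2] at hk
          exact absurd rfl hk
        · rfl
      rw [hp]; ring
  rw [Finset.sum_congr rfl fun τ' _ => h1 τ', ← Finset.mul_sum]
  congr 1
  rw [← (Equiv.arrowCongr σ (Equiv.refl (E' ⊕ O'))).sum_comp
    (fun τ' => (∏ k, MM M M' (τ' k) (τ k)) * w (τ' ∘ σ))]
  refine Finset.sum_congr rfl fun τ' _ => ?_
  have h2 : ((Equiv.arrowCongr σ (Equiv.refl (E' ⊕ O'))) τ') ∘ σ = τ' := by
    funext k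
    simp [Equiv.arrowCongr]
  rw [h2]
  congr 1
  rw [← Equiv.prod_comp σ]
  refine Finset.prod_congr rfl fun k _ => ?_
  have h3 := congrFun h2 k
  simp only [Function.comp_apply] at h3
  rw [h3]
  rfl

omit [Fintype E] [Fintype O] [DecidableEq E] [DecidableEq O] in
private theorem k19_cat (M : E' → E → ℂ) (M' : O' → O → ℂ) {n' n : ℕ}
    (w' : (Fin n' → E' ⊕ O') → ℂ) (w : (Fin n → E' ⊕ O') → ℂ) (τ : Fin (n' + n) → E ⊕ O) :
    k19_T M M' (fun τ' => w' (τ' ∘ Fin.castAdd n) * w (τ' ∘ Fin.natAdd n')) τ =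
      k19_T M M' w' (τ ∘ Fin.castAdd n) * k19_T M M' w (τ ∘ Fin.natAdd n') := by
  unfold k19_T
  rw [Finset.sum_mul_sum, ← Finset.sum_product', ← (Fin.appendEquiv n' n).sum_comp]
  refine Finset.sum_congr rfl fun p _ => ?_
  have h1 : (Fin.appendEquiv n' n p : Fin (n' + n) → E' ⊕ O') ∘ Fin.castAdd n = p.1 := by
    funext k
    simp [Fin.appendEquiv]
  have h2 : (Fin.appendEquiv n' n p : Fin (n' + n) → E' ⊕ O') ∘ Fin.natAdd n' = p.2 := by
    funext k
    simp [Fin.appendEquiv]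
  beta_reduce
  rw [h1, h2, Fin.prod_univ_add]
  have h3 : ∀ k, (Fin.appendEquiv n' n p : Fin (n' + n) → E' ⊕ O') (Fin.castAdd n k) = p.1 k :=
    fun k => congrFun h1 k
  have h4 : ∀ k, (Fin.appendEquiv n' n p : Fin (n' + n) → E' ⊕ O') (Fin.natAdd n' k) = p.2 k :=
    fun k => congrFun h2 k
  simp only [h3, h4, Function.comp_apply]
  ring

private theorem k19_Q_cat (W : Form E' O') (M : E' → E → ℂ) (M' : O' → O → ℂ) {n' n : ℕ}
    {h f : UA} (hh : h ∈ UL n') (hf : f ∈ UL n) (h1 : k19_Q W M M' n' h) (h2 : k19_Q W M M' n f) :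
    k19_Q W M M' (n' + n) (h * lsub (· + n') f) := by
  obtain ⟨w', a1, a2⟩ := h1
  obtain ⟨w, b1, b2⟩ := h2
  refine ⟨_, isW_cat W hh hf a1 b1, ?_⟩
  have e : k19_T M M' (fun τ' : Fin (n' + n) → E' ⊕ O' =>
      w' (τ' ∘ Fin.castAdd n) * w (τ' ∘ Fin.natAdd n')) =
      fun τ => k19_T M M' w' (τ ∘ Fin.castAdd n) * k19_T M M' w (τ ∘ Fin.natAdd n') := by
    funext τ
    exact k19_cat M M' w' w τ
  rw [e]
  exact isW_cat (W.pull M M') hh hf a2 b2

private theorem k19_Q_edge (W : Form E' O') (M : E' → E → ℂ) (M' : O' → O → ℂ) :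
    k19_Q W M M' 2 (C (X s(0, 1))) := by
  refine ⟨_, isW_edge W, ?_⟩
  have e : k19_T M M' (fun τ' : Fin 2 → E' ⊕ O' => We W (τ' 0) (τ' 1)) =
      fun τ => We (W.pull M M') (τ 0) (τ 1) := by
    funext τ
    unfold k19_T
    rw [← (finTwoArrowEquiv (E' ⊕ O')).symm.sum_comp, Fintype.sum_prod_type]
    simp only [Fin.prod_univ_two]
    have e0 : ∀ x y : E' ⊕ O', (finTwoArrowEquiv (E' ⊕ O')).symm (x, y) 0 = x := fun _ _ => rfl
    have e1 : ∀ x y : E' ⊕ O', (finTwoArrowEquiv (E' ⊕ O')).symm (x, y) 1 = y := fun _ _ => rfl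
    simp only [e0, e1]
    generalize τ 0 = y0
    generalize τ 1 = y1
    rcases y0 with a | b <;> rcases y1 with a' | b'
    · simp only [Fintype.sum_sum_type, MM, We, Form.pull, zero_mul, mul_zero,
        Finset.sum_const_zero, add_zero]
    · simp only [Fintype.sum_sum_type, MM, We, zero_mul, mul_zero,
        Finset.sum_const_zero, add_zero]
    · simp only [Fintype.sum_sum_type, MM, We, zero_mul, mul_zero,
        Finset.sum_const_zero, add_zero]
    · simp only [Fintype.sum_sum_type, MM, We, Form.pull, zero_mul, mul_zero,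
        Finset.sum_const_zero, add_zero, zero_add]
  rw [e]
  exact isW_edge (W.pull M M')

private theorem k19_Q_leg (W : Form E' O') (M : E' → E → ℂ) (M' : O' → O → ℂ) (a : ℕ) :
    k19_Q W M M' 1 (X (a, 0)) := by
  refine ⟨_, isW_leg W a, ?_⟩
  have e : k19_T M M' (fun τ' : Fin 1 → E' ⊕ O' => Wl W a (τ' 0)) =
      fun τ => Wl (W.pull M M') a (τ 0) := by
    funext τ
    unfold k19_T
    rw [← (Equiv.funUnique (Fin 1) (E' ⊕ O')).symm.sum_comp]
    simp only [Fin.prod_univ_one]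
    have e0 : ∀ x : E' ⊕ O', (Equiv.funUnique (Fin 1) (E' ⊕ O')).symm x 0 = x := fun _ => rfl
    simp only [e0]
    generalize τ 0 = y0
    rcases y0 with a' | b'
    · simp only [Fintype.sum_sum_type, MM, Wl, Form.pull, zero_mul, mul_zero,
        Finset.sum_const_zero, add_zero]
    · simp only [Fintype.sum_sum_type, MM, Wl, zero_mul, mul_zero,
        Finset.sum_const_zero, add_zero]
  rw [e]
  exact isW_leg (W.pull M M') a

private theorem k19_Q_one (W : Form E' O') (M : E' → E → ℂ) (M' : O' → O → ℂ) :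
    k19_Q W M M' 0 (1 : UA) := by
  refine ⟨_, isW_one W, ?_⟩
  have e : k19_T M M' (fun _ : Fin 0 → E' ⊕ O' => (1 : ℂ)) = fun _ => 1 := by
    funext τ
    unfold k19_T
    simp
  rw [e]
  exact isW_one (W.pull M M')

private theorem k19_Q_mon (W : Form E' O') (M : E' → E → ℂ) (M' : O' → O → ℂ) :
    ∀ (e : ℕ) (as : List ℕ), k19_Q W M M' (2 * e + as.length) (mon e as) := by
  intro e
  induction e with
  | zero =>
    intro as
    induction as with
    | nil =>
      rw [show mon 0 [] = 1 by rw [mon]]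
      exact k19_Q_one W M M'
    | cons a as ih =>
      rw [show mon 0 (a :: as) = X (a, 0) * lsub (· + 1) (mon 0 as) by rw [mon]]
      have h := k19_Q_cat W M M' (leg_mem_UL a) (mon_mem_UL 0 as) (k19_Q_leg W M M' a) ih
      have e1 : 1 + (2 * 0 + as.length) = 2 * 0 + (a :: as).length := by
        rw [List.length_cons]; ring
      rw [e1] at h
      exact h
  | succ e ih =>
    intro as
    rw [show mon (e + 1) as = C (X s(0, 1)) * lsub (· + 2) (mon e as) by rw [mon]]
    have h := k19_Q_cat W M M' edge_mem_UL (mon_mem_UL e as) (k19_Q_edge W M M') (ih as)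
    have e1 : 2 + (2 * e + as.length) = 2 * (e + 1) + as.length := by ring
    rw [e1] at h
    exact h

private theorem k19_Q_perm (W : Form E' O') (M : E' → E → ℂ) (M' : O' → O → ℂ) {n : ℕ} {f : UA}
    (hfU : f ∈ UL n) (h : k19_Q W M M' n f) (σ : Equiv.Perm (Fin n)) :
    k19_Q W M M' n (lsub (extd fun k => (σ k : ℕ)) f) := by
  obtain ⟨w, a1, a2⟩ := h
  refine ⟨_, isW_perm W hfU a1 σ, ?_⟩
  have e : k19_T M M' (fun τ' : Fin n → E' ⊕ O' => (kap σ (par ∘ τ') : ℂ) * w (τ' ∘ σ)) =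
      fun τ => (kap σ (par ∘ τ) : ℂ) * k19_T M M' w (τ ∘ σ) := by
    funext τ
    exact k19_perm M M' w σ τ
  rw [e]
  exact isW_perm (W.pull M M') hfU a2 σ

private theorem k19_zero (W : Form E' O') {n : ℕ} : IsW n W (0 : UA) 0 := by
  intro T _ _ S φ
  rw [map_zero, map_zero]
  simp

private theorem k19_Q_all (W : Form E' O') (M : E' → E → ℂ) (M' : O' → O → ℂ) {n : ℕ} {f : UA}
    (hfU : f ∈ UL n) : k19_Q W M M' n f := by
  obtain ⟨L, D, hfD⟩ := exists_BD f
  have hs := span_UL n L D f hfU hfD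
  clear hfU hfD
  induction hs using Submodule.span_induction with
  | mem g hg =>
    obtain ⟨e, as, σ, h1, -, -, rfl⟩ := hg
    subst h1
    exact k19_Q_perm W M M' (mon_mem_UL e as) (k19_Q_mon W M M' e as) σ
  | zero =>
    refine ⟨0, k19_zero W, ?_⟩
    have e : k19_T M M' (0 : (Fin n → E' ⊕ O') → ℂ) = 0 := by
      funext τ
      unfold k19_T
      simp
    rw [e]
    exact k19_zero (W.pull M M')
  | add g g' _ _ h1 h2 =>
    obtain ⟨w, a1, a2⟩ := h1
    obtain ⟨w', b1, b2⟩ := h2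
    refine ⟨w + w', isW_add W a1 b1, ?_⟩
    have e : k19_T M M' (w + w') = k19_T M M' w + k19_T M M' w' := by
      funext τ
      unfold k19_T
      simp only [Pi.add_apply, mul_add, Finset.sum_add_distrib]
    rw [e]
    exact isW_add (W.pull M M') a2 b2
  | smul c g _ h =>
    obtain ⟨w, a1, a2⟩ := h
    refine ⟨c • w, isW_smul W a1 c, ?_⟩
    have e : k19_T M M' (c • w) = c • k19_T M M' w := by
      funext τ
      unfold k19_T
      simp only [Pi.smul_apply, smul_eq_mul, Finset.mul_sum]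
      exact Finset.sum_congr rfl fun _ _ => by ring
    rw [e]
    exact isW_smul (W.pull M M') a2 c

/-- (t8) -/
theorem isW_pull (W : Form E' O') (M : E' → E → ℂ) (M' : O' → O → ℂ) {f : UA} (hfU : f ∈ UL n)
    {w : (Fin n → E' ⊕ O') → ℂ} (hf : IsW n W f w) :
    IsW n (W.pull M M') f (fun τ => ∑ τ', (∏ k, MM M M' (τ' k) (τ k)) * w τ') := by
  obtain ⟨w', h1, h2⟩ := k19_Q_all W M M' hfU
  have e := isW_unique W hf h1
  subst e
  exact h2

end MP50e386N
end

section
/-! [N50 K16] multilinear elements of a product `h Y`. -/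

namespace MP50e386N

open MvPolynomial

private theorem k16_bil (v w : V) : (MP50e386.bil v w : MP50e386.A) = (xv v w : MP50e386.A) := by
  have h1 : ∀ (w : V) (i : ℕ), (MP50e386.bil (ee i) w : MP50e386.A) = xv (ee i) w := by
    intro w i
    induction w using Finsupp.induction_linear with
    | zero =>
      unfold xv
      rw [map_zero, map_zero, map_zero]
    | add f g hf hg =>
      unfold xv at hf hg ⊢
      rw [map_add, hf, hg, map_add, map_add]
    | single j c =>
      have e1 : (Finsupp.single j c : V) = c • ee j := by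
        rw [ee, Finsupp.smul_single, smul_eq_mul, mul_one]
      have e2 : (xv (ee i) (ee j) : MP50e386.A) = X s(i, j) := xv_ee i j
      unfold xv at e2 ⊢
      have e3 : (MP50e386.bil (ee i) (ee j) : MP50e386.A) = X s(i, j) := MP50e386.bil_ee i j
      rw [e1, map_smul, map_smul, e3,
        ← algebraMap_smul MP50e386.A c (cst (ee j) : VR MP50e386.A), map_smul, e2,
        algebraMap_smul]
  induction v using Finsupp.induction_linear with
  | zero =>
    unfold xv
    rw [map_zero, map_zero, map_zero, LinearMap.zero_apply, LinearMap.zero_apply]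
  | add f g hf hg =>
    unfold xv at hf hg ⊢
    rw [map_add, LinearMap.add_apply, hf, hg, map_add, map_add, LinearMap.add_apply]
  | single i c =>
    have e1 : (Finsupp.single i c : V) = c • ee i := by
      rw [ee, Finsupp.smul_single, smul_eq_mul, mul_one]
    have e2 := h1 w i
    unfold xv at e2 ⊢
    rw [e1, map_smul, LinearMap.smul_apply, e2, map_smul,
      ← algebraMap_smul MP50e386.A c (cst (ee i) : VR MP50e386.A), map_smul,
      LinearMap.smul_apply, algebraMap_smul]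

private theorem k16_sbR (φ : ℕ → V) (f : MP50e386.A) :
    (sbR φ f : MP50e386.A) = MP50e386.sub φ f := by
  have h : (sbR φ : MP50e386.A →ₐ[ℂ] MP50e386.A) = MP50e386.sub φ := by
    apply MvPolynomial.algHom_ext
    intro s
    induction s using Sym2.ind with
    | _ i j =>
      rw [MP50e386.sub_X, k16_bil]
      have e2 : (xv (ee i) (ee j) : MP50e386.A) = X s(i, j) := xv_ee i j
      rw [← e2, sb_x_cst, linC_ee, linC_ee]
  rw [h]

private theorem k16_GLSI (h : Ideal MP50e386.A)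
    (hh : ∀ w : ℕ → MP50e386.V, ∀ f ∈ h, MP50e386.sub w f ∈ h) : GLSI h := by
  intro φ f hf
  rw [k16_sbR]
  exact hh φ f hf

theorem IU_GLS (h : Ideal MP50e386.A)
    (hh : ∀ w : ℕ → MP50e386.V, ∀ f ∈ h, MP50e386.sub w f ∈ h) : GLS (IU h) :=
  (GLS_ofI h).2 (k16_GLSI h hh)

theorem smul_GLS (h : Ideal MP50e386.A) (Y : Submodule MP50e386.A UA)
    (hh : ∀ w : ℕ → MP50e386.V, ∀ f ∈ h, MP50e386.sub w f ∈ h) (hY : GLS Y) :
    GLS (h • Y) := GLS.smul (k16_GLSI h hh) hY

/-- the multidegree of a substituted polynomial -/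
private theorem k16_MW_lsub {κ : ℕ →₀ ℕ} {f : UA} (hf : MW κ f) (ψ : ℕ → ℕ) :
    MW (κ.mapDomain ψ) (lsub ψ f) := by
  intro t
  have h0 : ((κ.mapDomain ψ).prod fun i k => t i ^ k) = κ.prod fun i k => t (ψ i) ^ k :=
    Finsupp.prod_mapDomain_index (h := fun i k => t i ^ k) (fun b => pow_zero _)
      (fun b m n => pow_add _ _ _)
  have h1 := hf (fun i => t (ψ i))
  have h2 : lsub ψ f = sbC (fun k => ee (ψ k)) f := rfl
  have h3 : (fun i => linC (fun i => t i • ee i) (ee (ψ i))) =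
      fun i => linC (fun k => ee (ψ k)) (t (ψ i) • ee i) := by
    funext i
    rw [linC_ee, map_smul, linC_ee]
  rw [h0, h2, sbC_sbC, h3, ← sbC_sbC, h1, sbC_smulC]

/-- a polynomial depends only on its letters -/
private theorem k16_congr {κ : ℕ →₀ ℕ} {f : UA} (hf : MW κ f) (φ : ℕ → ℕ)
    (h : ∀ k ∈ κ.support, φ k = k) : lsub φ f = f := by
  have h1 : lsub φ f = sbC ee f := by
    unfold lsub
    refine sbC_congr (MW_LT hf) _ _ fun i hi => ?_
    rw [h i (by simpa using hi)]
  rw [h1, sbC_id]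

/-- the span of the products of multidegree `κ` -/
private noncomputable def k16_P (h : Ideal MP50e386.A) (Y : Submodule MP50e386.A UA)
    (κ : ℕ →₀ ℕ) : Submodule ℂ UA :=
  Submodule.span ℂ {g | ∃ (κ₁ κ₂ : ℕ →₀ ℕ) (u v : UA), κ₁ + κ₂ = κ ∧ MW κ₁ u ∧ u ∈ IU h ∧
    MW κ₂ v ∧ v ∈ Y ∧ g = u * v}

private theorem k16_P_MW {h : Ideal MP50e386.A} {Y : Submodule MP50e386.A UA}
    {κ : ℕ →₀ ℕ} {g : UA} (hg : g ∈ k16_P h Y κ) : MW κ g := by
  unfold k16_P at hg
  induction hg using Submodule.span_induction with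
  | mem x hx =>
    obtain ⟨κ₁, κ₂, u, v, h1, h2, -, h3, -, rfl⟩ := hx
    rw [← h1]
    exact MW_mul h2 h3
  | zero =>
    intro t
    rw [map_zero, smul_zero]
  | add x y _ _ hx hy => exact MW_add hx hy
  | smul c x _ hx =>
    intro t
    rw [sbC_smulC, hx t, smul_comm]

private theorem k16_iSup {h : Ideal MP50e386.A} {Y : Submodule MP50e386.A UA}
    (hh : ∀ w : ℕ → MP50e386.V, ∀ f ∈ h, MP50e386.sub w f ∈ h) (hY : GLS Y) {f : UA}
    (hf : f ∈ h • Y) : f ∈ ⨆ κ, k16_P h Y κ := by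
  refine Submodule.smul_induction_on hf (fun r hr v hv => ?_) (fun a b ha hb =>
    Submodule.add_mem _ ha hb)
  have hr' : (C r : UA) ∈ IU h := ⟨r, hr, rfl⟩
  obtain ⟨F, g, h1, h2⟩ := exists_MW (IU h) (IU_GLS h hh) (C r) hr'
  obtain ⟨F', g', h1', h2'⟩ := exists_MW Y hY v hv
  have e : r • v = ∑ κ ∈ F, ∑ κ' ∈ F', g κ * g' κ' := by
    rw [MvPolynomial.smul_eq_C_mul, h2, h2', Finset.sum_mul_sum]
  rw [e]
  refine Submodule.sum_mem _ fun κ _ => Submodule.sum_mem _ fun κ' _ => ?_
  exact Submodule.mem_iSup_of_mem (κ + κ') (Submodule.subset_span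
    ⟨κ, κ', g κ, g' κ', rfl, (h1 κ).1, (h1 κ).2, (h1' κ').1, (h1' κ').2, rfl⟩)

/-- the multilinear elements of `h Y` are spanned by the multilinear products -/
private theorem k16_mem {h : Ideal MP50e386.A} {Y : Submodule MP50e386.A UA}
    (hh : ∀ w : ℕ → MP50e386.V, ∀ f ∈ h, MP50e386.sub w f ∈ h) (hY : GLS Y) {f : UA}
    {κ₀ : ℕ →₀ ℕ} (hf : f ∈ h • Y) (hfW : MW κ₀ f) : f ∈ k16_P h Y κ₀ := by
  classical
  obtain ⟨g, hg, hs⟩ := (Submodule.mem_iSup_iff_exists_finsupp _ _).1 (k16_iSup hh hY hf)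
  have hs' : f = ∑ κ ∈ g.support, g κ := by
    rw [← hs]
    rfl
  set F : Finset (ℕ →₀ ℕ) := insert κ₀ g.support with hF
  have e1 : f = ∑ κ ∈ F, g κ := by
    rw [hs', hF]
    refine Finset.sum_subset (Finset.subset_insert _ _) fun κ _ hκ => ?_
    exact Finsupp.notMem_support_iff.1 hκ
  have key := MW_uniq F (fun κ => if κ = κ₀ then f else 0) (fun κ => g κ) (by
    intro κ _
    by_cases hκ : κ = κ₀
    · simp only [if_pos hκ]
      rw [hκ]
      exact hfW
    · simp only [if_neg hκ]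
      intro t
      rw [map_zero, smul_zero]) (fun κ _ => k16_P_MW (hg κ)) (by
    rw [← e1, Finset.sum_ite_eq' F κ₀, if_pos]
    exact Finset.mem_insert_self _ _) κ₀ (Finset.mem_insert_self _ _)
  simp only [if_true] at key
  rw [key]
  exact hg κ₀

private theorem k16_extd {n : ℕ} (φ : Fin n → ℕ) (k : Fin n) : extd φ (k : ℕ) = φ k := by
  unfold extd
  rw [dif_pos k.2]

theorem split_UL (h : Ideal MP50e386.A) (Y : Submodule MP50e386.A UA)
    (hh : ∀ w : ℕ → MP50e386.V, ∀ f ∈ h, MP50e386.sub w f ∈ h) (hY : GLS Y) (n : ℕ) (f : UA)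
    (hf : f ∈ UL n) (hfY : f ∈ h • Y) :
    f ∈ Submodule.span ℂ {g : UA | ∃ (n₁ n₂ : ℕ) (_ : n₁ + n₂ = n) (u v : UA)
      (σ : Equiv.Perm (Fin n)), u ∈ UL n₁ ∧ u ∈ IU h ∧ v ∈ UL n₂ ∧ v ∈ Y ∧
      g = lsub (extd fun k => (σ k : ℕ)) (u * lsub (· + n₁) v)} := by
  classical
  have h1 := k16_mem hh hY hfY ((UL_iff_MW n f).1 hf)
  clear hf hfY
  unfold k16_P at h1
  refine Submodule.span_mono ?_ h1
  rintro g ⟨κ, κ', u, v, hκ, hu, huh, hv, hvY, rfl⟩
  have hval : ∀ k, κ k + κ' k = if k < n then 1 else 0 := by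
    intro k
    have := DFunLike.congr_fun hκ k
    rw [Finsupp.add_apply, Finsupp.finsetSum_apply] at this
    rw [this]
    simp only [Finsupp.single_apply]
    rw [Finset.sum_ite_eq' (Finset.range n) k]
    simp only [Finset.mem_range]
  set Q : Finset (Fin n) := Finset.univ.filter (fun i => κ i = 1) with hQ
  have hκQ : κ = ∑ q ∈ Q, Finsupp.single (q : ℕ) 1 := by
    ext k
    rw [Finsupp.finsetSum_apply]
    simp only [Finsupp.single_apply]
    have hk := hval k
    by_cases hkn : k < n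
    · rw [if_pos hkn] at hk
      have e1 : ∀ q ∈ Q, (if (q : ℕ) = k then 1 else 0) = if q = ⟨k, hkn⟩ then 1 else 0 := by
        intro q _
        simp only [Fin.ext_iff]
      rw [Finset.sum_congr rfl e1, Finset.sum_ite_eq' Q ⟨k, hkn⟩]
      simp only [hQ, Finset.mem_filter, Finset.mem_univ, true_and]
      split_ifs with h2
      · exact h2
      · omega
    · rw [if_neg hkn] at hk
      rw [Finset.sum_eq_zero fun q _ => if_neg (by have := q.2; omega)]
      omega
  have hκQ' : κ' = ∑ q ∈ Qᶜ, Finsupp.single (q : ℕ) 1 := by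
    ext k
    rw [Finsupp.finsetSum_apply]
    simp only [Finsupp.single_apply]
    have hk := hval k
    by_cases hkn : k < n
    · rw [if_pos hkn] at hk
      have e1 : ∀ q ∈ Qᶜ, (if (q : ℕ) = k then 1 else 0) = if q = ⟨k, hkn⟩ then 1 else 0 := by
        intro q _
        simp only [Fin.ext_iff]
      rw [Finset.sum_congr rfl e1, Finset.sum_ite_eq' Qᶜ ⟨k, hkn⟩]
      simp only [hQ, Finset.mem_compl, Finset.mem_filter, Finset.mem_univ, true_and]
      split_ifs with h2
      · omega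
      · omega
    · rw [if_neg hkn] at hk
      rw [Finset.sum_eq_zero fun q _ => if_neg (by have := q.2; omega)]
      omega
  clear_value Q
  clear hQ hval hκ
  obtain ⟨n₁, hm⟩ : ∃ n₁, Q.card = n₁ := ⟨_, rfl⟩
  obtain ⟨n₂, hn⟩ : ∃ n₂, Qᶜ.card = n₂ := ⟨_, rfl⟩
  have h12 : n₁ + n₂ = n := by
    rw [← hm, ← hn, Finset.card_add_card_compl, Fintype.card_fin]
  subst h12
  set σ : Equiv.Perm (Fin (n₁ + n₂)) :=
    finSumFinEquiv.symm.trans (finSumEquivOfFinset hm hn) with hσ
  have hσ1 : ∀ i : Fin n₁, σ (Fin.castAdd n₂ i) = Q.orderEmbOfFin hm i := by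
    intro i
    rw [hσ, Equiv.trans_apply, finSumFinEquiv_symm_apply_castAdd, finSumEquivOfFinset_inl]
  have hσ2 : ∀ i : Fin n₂, σ (Fin.natAdd n₁ i) = Qᶜ.orderEmbOfFin hn i := by
    intro i
    rw [hσ, Equiv.trans_apply, finSumFinEquiv_symm_apply_natAdd, finSumEquivOfFinset_inr]
  clear_value σ
  have hs1 : κ = ∑ i : Fin n₁, Finsupp.single (σ (Fin.castAdd n₂ i) : ℕ) 1 := by
    conv_lhs => rw [hκQ, ← Finset.map_orderEmbOfFin_univ Q hm, Finset.sum_map]
    exact Finset.sum_congr rfl fun i _ => by rw [hσ1]; rfl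
  have hs2 : κ' = ∑ i : Fin n₂, Finsupp.single (σ (Fin.natAdd n₁ i) : ℕ) 1 := by
    conv_lhs => rw [hκQ', ← Finset.map_orderEmbOfFin_univ Qᶜ hn, Finset.sum_map]
    exact Finset.sum_congr rfl fun i _ => by rw [hσ2]; rfl
  set ψ : ℕ → ℕ := extd fun k => (σ.symm k : ℕ) with hψ
  have hψσ : ∀ k : Fin (n₁ + n₂), ψ (σ k : ℕ) = k := by
    intro k
    rw [hψ, k16_extd, Equiv.symm_apply_apply]
  set χ : ℕ → ℕ := fun k => ψ k - n₁ with hχ
  have m1 : κ.mapDomain ψ = ∑ i ∈ Finset.range n₁, Finsupp.single i 1 := by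
    rw [hs1, Finsupp.mapDomain_finsetSum, ← Fin.sum_univ_eq_sum_range
      (fun i => (Finsupp.single i 1 : ℕ →₀ ℕ))]
    refine Finset.sum_congr rfl fun i _ => ?_
    rw [Finsupp.mapDomain_single, hψσ]
    rfl
  have m2 : κ'.mapDomain χ = ∑ i ∈ Finset.range n₂, Finsupp.single i 1 := by
    rw [hs2, Finsupp.mapDomain_finsetSum, ← Fin.sum_univ_eq_sum_range
      (fun i => (Finsupp.single i 1 : ℕ →₀ ℕ))]
    refine Finset.sum_congr rfl fun i _ => ?_
    rw [Finsupp.mapDomain_single, hχ]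
    simp only [hψσ, Fin.val_natAdd, Nat.add_sub_cancel_left]
  have hu' : lsub ψ u ∈ UL n₁ := by
    rw [UL_iff_MW, ← m1]
    exact k16_MW_lsub hu ψ
  have hv' : lsub χ v ∈ UL n₂ := by
    rw [UL_iff_MW, ← m2]
    exact k16_MW_lsub hv χ
  refine ⟨n₁, n₂, rfl, lsub ψ u, lsub χ v, σ, hu', GLS.lsub_mem (IU_GLS h hh) ψ huh, hv',
    GLS.lsub_mem hY χ hvY, ?_⟩
  rw [map_mul, lsub_lsub, lsub_lsub, lsub_lsub]
  have supp1 : ∀ k ∈ κ.support, ∃ i : Fin n₁, k = (σ (Fin.castAdd n₂ i) : ℕ) := by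
    intro k hk
    by_contra hc
    push Not at hc
    apply Finsupp.mem_support_iff.1 hk
    rw [hs1, Finsupp.finsetSum_apply]
    exact Finset.sum_eq_zero fun i _ => Finsupp.single_eq_of_ne (hc i)
  have supp2 : ∀ k ∈ κ'.support, ∃ i : Fin n₂, k = (σ (Fin.natAdd n₁ i) : ℕ) := by
    intro k hk
    by_contra hc
    push Not at hc
    apply Finsupp.mem_support_iff.1 hk
    rw [hs2, Finsupp.finsetSum_apply]
    exact Finset.sum_eq_zero fun i _ => Finsupp.single_eq_of_ne (hc i)
  have e1 : lsub ((extd fun k => (σ k : ℕ)) ∘ ψ) u = u := by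
    refine k16_congr hu _ fun k hk => ?_
    obtain ⟨i, rfl⟩ := supp1 k hk
    rw [Function.comp_apply, hψσ, k16_extd]
  have e2 : lsub (((extd fun k => (σ k : ℕ)) ∘ (· + n₁)) ∘ χ) v = v := by
    refine k16_congr hv _ fun k hk => ?_
    obtain ⟨i, rfl⟩ := supp2 k hk
    simp only [Function.comp_apply, hχ, hψσ, Fin.val_natAdd, Nat.add_sub_cancel_left]
    have e3 : (i : ℕ) + n₁ = ((Fin.natAdd n₁ i : Fin (n₁ + n₂)) : ℕ) := by
      rw [Fin.val_natAdd, add_comm]
    rw [e3, k16_extd]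
  rw [e1, e2]

end MP50e386N
end

section
/-! [N50 K20] (d2) -/

namespace MP50e386N

open MvPolynomial

variable {E O : Type} [Fintype E] [Fintype O] [DecidableEq E] [DecidableEq O] {n : ℕ}
  (W : Form E O)

private theorem k20_kap_sq (σ : Equiv.Perm (Fin n)) (π : Fin n → Bool) :
    ((kap σ π : ℤ) : ℂ) * ((kap σ π : ℤ) : ℂ) = 1 := by
  have h1 : kap σ π = 1 ∨ kap σ π = -1 := by
    unfold kap
    split_ifs with h
    · exact h.choose_spec.1
    · exact Or.inl rfl
  rcases h1 with h1 | h1 <;> rw [h1] <;> norm_num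

private theorem k20_zero : IsW (E := E) (O := O) n W 0 0 := by
  intro T _ _ S φ
  simp

/-- (d2) -/
theorem w_eq_zero_of_eop {f : UA} (hfU : f ∈ UL n) {w : (Fin n → E ⊕ O) → ℂ}
    (hf : IsW n W f w) (τ : Fin n → E ⊕ O) (h : eop τ f = 0) : w τ = 0 := by
  obtain ⟨F, hF, hsum⟩ : ∃ F : Finset (Equiv.Perm (Fin n)), (∀ σ, σ ∈ F ↔ τ ∘ σ = τ) ∧
      ∑ σ ∈ F, kap σ (par ∘ τ) • lsub (extd fun k => (σ k : ℕ)) f = 0 := by
    unfold eop at h
    refine ⟨_, ?_, h⟩
    intro σ
    simp
  have h1 : IsW n W (∑ σ ∈ F, ((kap σ (par ∘ τ) : ℤ) : ℂ) • lsub (extd fun k => (σ k : ℕ)) f)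
      (∑ σ ∈ F, ((kap σ (par ∘ τ) : ℤ) : ℂ) •
        fun ρ : Fin n → E ⊕ O => (kap σ (par ∘ ρ) : ℂ) * w (ρ ∘ σ)) :=
    isW_sum W F _ _ fun σ _ => isW_smul W (isW_perm W hfU hf σ) _
  have h2 : ∑ σ ∈ F, ((kap σ (par ∘ τ) : ℤ) : ℂ) • lsub (extd fun k => (σ k : ℕ)) f = 0 := by
    rw [← hsum]
    refine Finset.sum_congr rfl fun σ _ => ?_
    rw [Int.cast_smul_eq_zsmul]
  rw [h2] at h1
  have h3 := congrFun (isW_unique W h1 (k20_zero W)) τ
  rw [Finset.sum_apply] at h3
  have h4 : ∀ σ ∈ F, (((kap σ (par ∘ τ) : ℤ) : ℂ) •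
      fun ρ : Fin n → E ⊕ O => (kap σ (par ∘ ρ) : ℂ) * w (ρ ∘ σ)) τ = w τ := by
    intro σ hσ
    rw [Pi.smul_apply, smul_eq_mul, (hF σ).1 hσ, ← mul_assoc, k20_kap_sq, one_mul]
  rw [Finset.sum_congr rfl h4, Finset.sum_const, Pi.zero_apply, nsmul_eq_mul] at h3
  rcases mul_eq_zero.1 h3 with h5 | h5
  · have h6 : F.card = 0 := by exact_mod_cast h5
    have h7 : (1 : Equiv.Perm (Fin n)) ∈ F := (hF 1).2 rfl
    rw [Finset.card_eq_zero.1 h6] at h7
    exact absurd h7 (Finset.notMem_empty _)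
  · exact h5

end MP50e386N
end
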