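import Mathlib
import Pool.Agent.Lib.MP_50e386_al.B.Ka

section
/-! [N50 K02] the exterior evaluation of the standard form has the kernel `J_{r|s} A[z]`. -/

namespace MP50e386N

open MvPolynomial

section k02

variable {E K O T0 : Type} [Ring T0] [Algebra ℂ T0] (S0 : SAlg E O ℂ T0)

/-- exponents of the central variables -/
abbrev k02_M (K : Type) := (ℕ × K) →₀ ℕ

/-- polynomials in central variables over `T0` -/
abbrev k02_T (K T0 : Type) [Ring T0] := AddMonoidAlgebra T0 (k02_M K)

/-- the letters of `T0` -/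
def k02_pr {E K O : Type} : ((E ⊕ K) ⊕ O) × ℕ → Option ((E ⊕ O) × ℕ)
  | (Sum.inl (Sum.inl a), i) => some (Sum.inl a, i)
  | (Sum.inl (Sum.inr _), _) => none
  | (Sum.inr b, i) => some (Sum.inr b, i)

/-- the exponent of the central letters -/
noncomputable def k02_mo {E K O : Type} : ((E ⊕ K) ⊕ O) × ℕ → k02_M K
  | (Sum.inl (Sum.inl _), _) => 0
  | (Sum.inl (Sum.inr k), i) => Finsupp.single (i, k) 1
  | (Sum.inr _, _) => 0

/-- the generators -/
noncomputable def k02_P : (E ⊕ K) ⊕ O → ℕ → k02_T K T0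
  | Sum.inl (Sum.inl a), i => AddMonoidAlgebra.single 0 (S0.P (Sum.inl a) i)
  | Sum.inl (Sum.inr k), i => AddMonoidAlgebra.single (Finsupp.single (i, k) 1) 1
  | Sum.inr b, i => AddMonoidAlgebra.single 0 (S0.P (Sum.inr b) i)

private theorem k02_ss_inl {E' O' : Type} (a : E') (y : E' ⊕ O') :
    ss (par (Sum.inl a : E' ⊕ O')) (par y) = 1 := by simp [ss, par]

private theorem k02_ss_inr {E' O' : Type} (a : E') (y : E' ⊕ O') :
    ss (par y) (par (Sum.inl a : E' ⊕ O')) = 1 := by simp [ss, par]

omit [Algebra ℂ T0] in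
private theorem k02_single_zsmul (m : k02_M K) (n : ℤ) (x : T0) :
    (AddMonoidAlgebra.single m (n • x) : k02_T K T0) = n • AddMonoidAlgebra.single m x :=
  map_zsmul (AddMonoidAlgebra.singleAddHom m : T0 →+ k02_T K T0) n x

private theorem k02_comm (y : (E ⊕ K) ⊕ O) (i : ℕ) (y' : (E ⊕ K) ⊕ O) (i' : ℕ) :
    k02_P S0 y i * k02_P S0 y' i' =
      ss (par y) (par y') • (k02_P S0 y' i' * k02_P S0 y i) := by
  rcases y with (a | k) | b <;> rcases y' with (a' | k') | b'
  · have h := S0.comm (Sum.inl a) i (Sum.inl a') i'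
    rw [k02_ss_inl, one_smul] at h ⊢
    simp only [k02_P, AddMonoidAlgebra.single_mul_single, add_zero]
    rw [h]
  · rw [k02_ss_inl, one_smul]
    simp only [k02_P, AddMonoidAlgebra.single_mul_single, add_zero, zero_add, mul_one, one_mul]
  · have h := S0.comm (Sum.inl a) i (Sum.inr b') i'
    rw [k02_ss_inl, one_smul] at h ⊢
    simp only [k02_P, AddMonoidAlgebra.single_mul_single, add_zero]
    rw [h]
  · rw [k02_ss_inl, one_smul]
    simp only [k02_P, AddMonoidAlgebra.single_mul_single, add_zero, zero_add, mul_one, one_mul]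
  · rw [k02_ss_inl, one_smul]
    simp only [k02_P, AddMonoidAlgebra.single_mul_single, mul_one]
    rw [add_comm]
  · rw [k02_ss_inl, one_smul]
    simp only [k02_P, AddMonoidAlgebra.single_mul_single, add_zero, zero_add, mul_one, one_mul]
  · have h := S0.comm (Sum.inr b) i (Sum.inl a') i'
    rw [k02_ss_inr, one_smul] at h ⊢
    simp only [k02_P, AddMonoidAlgebra.single_mul_single, add_zero]
    rw [h]
  · rw [k02_ss_inr, one_smul]
    simp only [k02_P, AddMonoidAlgebra.single_mul_single, add_zero, zero_add, mul_one, one_mul]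
  · have h := S0.comm (Sum.inr b) i (Sum.inr b') i'
    have e : ss (par (Sum.inr b : E ⊕ O)) (par (Sum.inr b' : E ⊕ O)) =
        ss (par (Sum.inr b : (E ⊕ K) ⊕ O)) (par (Sum.inr b' : (E ⊕ K) ⊕ O)) := rfl
    rw [e] at h
    simp only [k02_P, AddMonoidAlgebra.single_mul_single, add_zero]
    rw [h, k02_single_zsmul]

private theorem k02_sq (b : O) (i : ℕ) :
    k02_P S0 (Sum.inr b : (E ⊕ K) ⊕ O) i * k02_P S0 (Sum.inr b) i = 0 := by
  simp only [k02_P, AddMonoidAlgebra.single_mul_single, S0.sq, AddMonoidAlgebra.single_zero]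

private theorem k02_gen : Algebra.adjoin ℂ {t : k02_T K T0 | ∃ (y : (E ⊕ K) ⊕ O) (i : ℕ),
    t = k02_P S0 y i} = ⊤ := by
  rw [eq_top_iff]
  rintro t -
  have h0 : ∀ x : T0, (AddMonoidAlgebra.single 0 x : k02_T K T0) ∈
      Algebra.adjoin ℂ {t : k02_T K T0 | ∃ (y : (E ⊕ K) ⊕ O) (i : ℕ), t = k02_P S0 y i} := by
    intro x
    have hx : x ∈ Algebra.adjoin ℂ {t | ∃ y i, t = S0.P y i} := by
      rw [S0.gen]
      exact Algebra.mem_top
    induction hx using Algebra.adjoin_induction with
    | mem x hx =>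
      obtain ⟨y, i, rfl⟩ := hx
      rcases y with a | b
      · exact Algebra.subset_adjoin ⟨Sum.inl (Sum.inl a), i, rfl⟩
      · exact Algebra.subset_adjoin ⟨Sum.inr b, i, rfl⟩
    | algebraMap c => exact Subalgebra.algebraMap_mem _ c
    | add x y _ _ hx hy =>
      rw [AddMonoidAlgebra.single_add]
      exact Subalgebra.add_mem _ hx hy
    | mul x y _ _ hx hy =>
      have := Subalgebra.mul_mem _ hx hy
      rw [AddMonoidAlgebra.single_mul_single, add_zero] at this
      exact this
  have h1 : ∀ m : k02_M K, (AddMonoidAlgebra.single m 1 : k02_T K T0) ∈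
      Algebra.adjoin ℂ {t : k02_T K T0 | ∃ (y : (E ⊕ K) ⊕ O) (i : ℕ), t = k02_P S0 y i} := by
    intro m
    induction m using Finsupp.induction_linear with
    | zero => exact h0 1
    | add m m' hm hm' =>
      have := Subalgebra.mul_mem _ hm hm'
      rw [AddMonoidAlgebra.single_mul_single, one_mul] at this
      exact this
    | single p n =>
      induction n with
      | zero =>
        rw [Finsupp.single_zero]
        exact h0 1
      | succ n ih =>
        have h2 : (AddMonoidAlgebra.single (Finsupp.single p 1) 1 : k02_T K T0) ∈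
            Algebra.adjoin ℂ {t : k02_T K T0 | ∃ (y : (E ⊕ K) ⊕ O) (i : ℕ), t = k02_P S0 y i} :=
          Algebra.subset_adjoin ⟨Sum.inl (Sum.inr p.2), p.1, rfl⟩
        have := Subalgebra.mul_mem _ ih h2
        rw [AddMonoidAlgebra.single_mul_single, one_mul, ← Finsupp.single_add] at this
        exact this
  induction t using AddMonoidAlgebra.induction_linear with
  | zero => exact Subalgebra.zero_mem _
  | add x y hx hy => exact Subalgebra.add_mem _ hx hy
  | single m x =>
    have := Subalgebra.mul_mem _ (h1 m) (h0 x)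
    rw [AddMonoidAlgebra.single_mul_single, one_mul, add_zero] at this
    exact this

private theorem k02_pp (l : List (((E ⊕ K) ⊕ O) × ℕ)) :
    (l.map fun p => k02_P S0 p.1 p.2).prod = AddMonoidAlgebra.single (l.map k02_mo).sum
      (((l.filterMap k02_pr).map fun p => S0.P p.1 p.2).prod) := by
  induction l with
  | nil => rfl
  | cons p l ih =>
    rw [List.map_cons, List.prod_cons, ih, List.map_cons, List.sum_cons]
    rcases p with ⟨(a | k) | b, i⟩
    · have e : k02_pr ((Sum.inl (Sum.inl a), i) : ((E ⊕ K) ⊕ O) × ℕ) =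
        some (Sum.inl a, i) := rfl
      rw [List.filterMap_cons_some e, List.map_cons, List.prod_cons]
      simp only [k02_P, k02_mo, AddMonoidAlgebra.single_mul_single]
    · have e : k02_pr ((Sum.inl (Sum.inr k), i) : ((E ⊕ K) ⊕ O) × ℕ) = none := rfl
      rw [List.filterMap_cons_none e]
      simp only [k02_P, k02_mo, AddMonoidAlgebra.single_mul_single, one_mul]
    · have e : k02_pr ((Sum.inr b, i) : ((E ⊕ K) ⊕ O) × ℕ) = some (Sum.inr b, i) := rfl
      rw [List.filterMap_cons_some e, List.map_cons, List.prod_cons]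
      simp only [k02_P, k02_mo, AddMonoidAlgebra.single_mul_single]

/-- the coefficient of a monomial in the central variables -/
def k02_cf (m : k02_M K) : k02_T K T0 →ₗ[ℂ] T0 where
  toFun x := x.coeff m
  map_add' _ _ := rfl
  map_smul' _ _ := rfl

private theorem k02_pr_inj (p p' : ((E ⊕ K) ⊕ O) × ℕ) (b : (E ⊕ O) × ℕ)
    (h : b ∈ k02_pr p) (h' : b ∈ k02_pr p') : p = p' := by
  rcases p with ⟨(a | k) | c, i⟩ <;> rcases p' with ⟨(a' | k') | c', i'⟩ <;>
    simp only [k02_pr, Option.mem_def, Option.some.injEq, reduceCtorEq] at h h' <;>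
    subst h <;> simp_all

open Classical in
private theorem k02_mo_apply (l : List (((E ⊕ K) ⊕ O) × ℕ)) (i : ℕ) (k : K) :
    (l.map k02_mo).sum (i, k) = l.countP (fun p => decide (p = (Sum.inl (Sum.inr k), i))) := by
  induction l with
  | nil => rfl
  | cons p l ih =>
    rw [List.map_cons, List.sum_cons, Finsupp.add_apply, ih, List.countP_cons, add_comm]
    congr 1
    rcases p with ⟨(a | k') | c, i'⟩
    · simp [k02_mo]
    · by_cases h : i' = i ∧ k' = k
      · obtain ⟨rfl, rfl⟩ := h
        simp [k02_mo]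
      · rw [if_neg]
        · simp only [k02_mo]
          rw [Finsupp.single_apply, if_neg]
          intro h'
          exact h ⟨congrArg Prod.fst h', congrArg Prod.snd h'⟩
        · intro h'
          simp only [decide_eq_true_eq, Prod.mk.injEq, Sum.inl.injEq, Sum.inr.injEq] at h'
          exact h ⟨h'.2, h'.1⟩
    · simp [k02_mo]

private theorem k02_perm {l l' : List (((E ⊕ K) ⊕ O) × ℕ)}
    (h1 : (l.map k02_mo).sum = (l'.map k02_mo).sum)
    (h2 : (l.filterMap k02_pr).Perm (l'.filterMap k02_pr)) : l.Perm l' := by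
  classical
  let I : BEq (((E ⊕ K) ⊕ O) × ℕ) := ⟨fun a b => decide (a = b)⟩
  have hL : @LawfulBEq _ I := by
    refine @LawfulBEq.mk _ I (@ReflBEq.mk _ I ?_) ?_
    · intro a
      exact decide_eq_true rfl
    · intro a b h
      exact of_decide_eq_true h
  have hc : ∀ (l : List (((E ⊕ K) ⊕ O) × ℕ)) (q : ((E ⊕ K) ⊕ O) × ℕ) (b : (E ⊕ O) × ℕ),
      k02_pr q = some b → l.countP (fun p => decide (p = q)) =
        (l.filterMap k02_pr).countP (fun p => decide (p = b)) := by
    intro l q b hq
    rw [List.countP_filterMap]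
    refine List.countP_congr fun p _ => ?_
    rw [decide_eq_true_eq]
    constructor
    · rintro rfl
      rw [hq]
      simp
    · intro hp
      rcases hq' : k02_pr p with _ | b'
      · rw [hq'] at hp
        simp at hp
      · rw [hq'] at hp
        simp only [Option.map_some, Option.getD_some, decide_eq_true_eq] at hp
        subst hp
        exact k02_pr_inj p q _ hq' hq
  refine (@List.perm_iff_count _ I hL l l').2 fun q => ?_
  change l.countP (fun p => decide (p = q)) = l'.countP (fun p => decide (p = q))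
  rcases q with ⟨(a | k) | b, i⟩
  · rw [hc l _ (Sum.inl a, i) rfl, hc l' _ (Sum.inl a, i) rfl]
    exact h2.countP_eq _
  · have := DFunLike.congr_fun h1 (i, k)
    rw [k02_mo_apply, k02_mo_apply] at this
    exact this
  · rw [hc l _ (Sum.inr b, i) rfl, hc l' _ (Sum.inr b, i) rfl]
    exact h2.countP_eq _

/-- the supercommutative algebra with more even letters -/
noncomputable def k02_S : SAlg (E ⊕ K) O ℂ (k02_T K T0) where
  P := k02_P S0
  comm := k02_comm S0
  sq := k02_sq S0
  gen := k02_gen S0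
  coef l := (S0.coef (l.filterMap k02_pr)).comp (k02_cf (l.map k02_mo).sum)
  coef_self := by
    intro l hl
    rw [k02_pp, LinearMap.comp_apply]
    have e : k02_cf (l.map k02_mo).sum (AddMonoidAlgebra.single (l.map k02_mo).sum
        (((l.filterMap k02_pr).map fun p => S0.P p.1 p.2).prod) : k02_T K T0) =
        ((l.filterMap k02_pr).map fun p => S0.P p.1 p.2).prod := by
      change (AddMonoidAlgebra.single _ _ : k02_T K T0).coeff _ = _
      rw [AddMonoidAlgebra.coeff_single, Finsupp.single_eq_same]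
    rw [e]
    exact S0.coef_self _ (hl.filterMap fun p p' b h h' => k02_pr_inj p p' b h h')
  coef_ne := by
    intro l l' hl
    rw [k02_pp, LinearMap.comp_apply]
    by_cases hm : (l.map k02_mo).sum = (l'.map k02_mo).sum
    · have e : k02_cf (l.map k02_mo).sum (AddMonoidAlgebra.single (l'.map k02_mo).sum
          (((l'.filterMap k02_pr).map fun p => S0.P p.1 p.2).prod) : k02_T K T0) =
          ((l'.filterMap k02_pr).map fun p => S0.P p.1 p.2).prod := by
        change (AddMonoidAlgebra.single _ _ : k02_T K T0).coeff _ = _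
        rw [AddMonoidAlgebra.coeff_single, hm, Finsupp.single_eq_same]
      rw [e]
      exact S0.coef_ne _ _ fun h => hl (k02_perm hm h)
    · have e : k02_cf (l.map k02_mo).sum (AddMonoidAlgebra.single (l'.map k02_mo).sum
          (((l'.filterMap k02_pr).map fun p => S0.P p.1 p.2).prod) : k02_T K T0) = 0 := by
        change (AddMonoidAlgebra.single _ _ : k02_T K T0).coeff _ = _
        rw [AddMonoidAlgebra.coeff_single, Finsupp.single_eq_of_ne (fun h => hm h)]
      rw [e, map_zero]

end k02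

section k02b

variable {r L s : ℕ} (S0 : SAlg (Fin r) (Fin s ⊕ Fin s) ℂ (EB r s))

private theorem k02_evx
    (h1 : ∀ a i, S0.P (Sum.inl a) i = algebraMap (PG r) (EB r s) (X (i, a)))
    (h2 : ∀ b i, S0.P (Sum.inr b) i = ExteriorAlgebra.ι (PG r) (Finsupp.single (i, b) 1))
    (i j : ℕ) : evx (k02_S S0) (stdW r L s) i j =
      (AddMonoidAlgebra.single 0 (xE r s i j) : k02_T (Fin L) (EB r s)) := by
  have hs : ∀ (ι : Type) (t : Finset ι) (f : ι → EB r s),
      (AddMonoidAlgebra.single 0 (∑ x ∈ t, f x) : k02_T (Fin L) (EB r s)) =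
        ∑ x ∈ t, AddMonoidAlgebra.single 0 (f x) := fun ι t f =>
    map_sum (AddMonoidAlgebra.singleAddHom 0 : EB r s →+ k02_T (Fin L) (EB r s)) f t
  have hg : ∀ a i, (k02_S S0 : SAlg (Fin r ⊕ Fin L) (Fin s ⊕ Fin s) ℂ
      (k02_T (Fin L) (EB r s))).P (Sum.inl (Sum.inl a)) i =
      AddMonoidAlgebra.single 0 (gg i a) := by
    intro a i
    change AddMonoidAlgebra.single 0 (S0.P (Sum.inl a) i) = _
    rw [h1]
    rfl
  have ht : ∀ b i, (k02_S S0 : SAlg (Fin r ⊕ Fin L) (Fin s ⊕ Fin s) ℂ
      (k02_T (Fin L) (EB r s))).P (Sum.inr b) i =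
      AddMonoidAlgebra.single 0 (th i b) := by
    intro b i
    change AddMonoidAlgebra.single 0 (S0.P (Sum.inr b) i) = _
    rw [h2]
    rfl
  unfold evx xE
  rw [AddMonoidAlgebra.single_add]
  congr 1
  · simp only [Fintype.sum_sum_type, stdW, zero_smul, Finset.sum_const_zero, add_zero, ite_smul,
      one_smul, Finset.sum_ite_eq, Finset.mem_univ, if_true, hg,
      AddMonoidAlgebra.single_mul_single]
    rw [hs]
  · simp only [Fintype.sum_sum_type, stdW, zero_smul, Finset.sum_const_zero, add_zero, zero_add,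
      ite_smul, one_smul, neg_smul, Finset.sum_ite_eq, Finset.mem_univ, if_true, ht,
      AddMonoidAlgebra.single_mul_single]
    rw [hs, ← Finset.sum_add_distrib]
    refine Finset.sum_congr rfl fun c _ => ?_
    rw [AddMonoidAlgebra.single_sub, sub_eq_add_neg]

private theorem k02_evC
    (h1 : ∀ a i, S0.P (Sum.inl a) i = algebraMap (PG r) (EB r s) (X (i, a)))
    (h2 : ∀ b i, S0.P (Sum.inr b) i = ExteriorAlgebra.ι (PG r) (Finsupp.single (i, b) 1))
    (a : MP50e386.A) : ((evF (k02_S S0) (stdW r L s) (C a) : Subalgebra.center ℂ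
        (k02_T (Fin L) (EB r s))) : k02_T (Fin L) (EB r s)) =
      AddMonoidAlgebra.single 0 ((evE r s a : Subalgebra.center ℂ (EB r s)) : EB r s) := by
  unfold evF
  rw [eval₂Hom_C]
  have key : (Subalgebra.center ℂ (k02_T (Fin L) (EB r s))).val.comp
      (aeval (Sym2.lift ⟨fun i j => (⟨evx (k02_S S0) (stdW r L s) i j,
        evx_mem_center (k02_S S0) (stdW r L s) i j⟩ :
        Subalgebra.center ℂ (k02_T (Fin L) (EB r s))), fun i j => by
          rw [Subtype.mk.injEq]; exact evx_comm (k02_S S0) (stdW r L s) i j⟩) :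
        MP50e386.A →ₐ[ℂ] Subalgebra.center ℂ (k02_T (Fin L) (EB r s))) =
      (AddMonoidAlgebra.singleZeroAlgHom : EB r s →ₐ[ℂ] k02_T (Fin L) (EB r s)).comp
        ((Subalgebra.center ℂ (EB r s)).val.comp (evE r s)) := by
    refine MvPolynomial.algHom_ext fun q => ?_
    induction q using Sym2.ind with
    | _ i j =>
      rw [AlgHom.comp_apply, AlgHom.comp_apply, AlgHom.comp_apply, aeval_X]
      unfold evE
      rw [aeval_X]
      exact k02_evx S0 h1 h2 i j
  exact AlgHom.congr_fun key a

private theorem k02_evz (k : Fin L) (i : ℕ) :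
    evz (k02_S S0) (stdW r L s) k i =
      (AddMonoidAlgebra.single (Finsupp.single (i, k) 1) 1 : k02_T (Fin L) (EB r s)) := by
  unfold evz
  simp only [Fintype.sum_sum_type, stdW, zero_smul, Finset.sum_const_zero, zero_add, ite_smul,
    one_smul]
  rw [Finset.sum_eq_single k]
  · rw [if_pos rfl]
    rfl
  · intro k' _ hk
    rw [if_neg fun h => hk (Fin.ext h).symm]
  · intro h
    exact absurd (Finset.mem_univ k) h

/-- the exponent of a letter -/
noncomputable def k02_h (L : ℕ) (p : ℕ × ℕ) : k02_M (Fin L) :=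
  if hp : p.1 < L then Finsupp.single (p.2, ⟨p.1, hp⟩) 1 else 0

/-- the exponent of a monomial -/
noncomputable def k02_mu (L : ℕ) (m : ℕ × ℕ →₀ ℕ) : k02_M (Fin L) :=
  m.sum fun p n => n • k02_h L p

private theorem k02_mu_apply (L : ℕ) (m : ℕ × ℕ →₀ ℕ) (i : ℕ) (k : Fin L) :
    k02_mu L m (i, k) = m (k.val, i) := by
  unfold k02_mu
  rw [Finsupp.sum_apply]
  unfold Finsupp.sum
  rw [Finset.sum_eq_single (k.val, i)]
  · change (m (k.val, i) • k02_h L (k.val, i)) (i, k) = _
    unfold k02_h
    rw [dif_pos k.2]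
    simp
  · rintro ⟨a, j⟩ _ hne
    change (m (a, j) • k02_h L (a, j)) (i, k) = 0
    rw [Finsupp.smul_apply]
    unfold k02_h
    split_ifs with ha
    · rw [Finsupp.single_apply, if_neg, smul_zero]
      intro h
      apply hne
      have e1 := congrArg Prod.fst h
      have e2 := congrArg (fun z => (Prod.snd z).val) h
      simp only at e1 e2
      rw [e1, e2]
    · rw [Finsupp.coe_zero, Pi.zero_apply, smul_zero]
  · intro h
    change (m (k.val, i) • k02_h L (k.val, i)) (i, k) = 0
    rw [Finsupp.notMem_support_iff.1 h, zero_smul, Finsupp.coe_zero, Pi.zero_apply]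

private theorem k02_mu_inj (L : ℕ) {m m' : ℕ × ℕ →₀ ℕ} (hm : ∀ p ∈ m.support, p.1 < L)
    (hm' : ∀ p ∈ m'.support, p.1 < L) (h : k02_mu L m = k02_mu L m') : m = m' := by
  ext p
  by_cases hp : p.1 < L
  · have := DFunLike.congr_fun h (p.2, ⟨p.1, hp⟩)
    rw [k02_mu_apply, k02_mu_apply] at this
    exact this
  · rw [Finsupp.notMem_support_iff.1 fun h => hp (hm p h),
      Finsupp.notMem_support_iff.1 fun h => hp (hm' p h)]

/-- monomials in the central variables as elements of the center -/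
noncomputable def k02_ka (r L s : ℕ) : Multiplicative (k02_M (Fin L)) →*
    Subalgebra.center ℂ (k02_T (Fin L) (EB r s)) where
  toFun g := ⟨AddMonoidAlgebra.single g.toAdd 1, by
    rw [Subalgebra.mem_center_iff]
    intro b
    exact ((AddMonoidAlgebra.single_commute (fun m' => AddCommute.all _ m')
      (fun r' => Commute.one_left r') b).eq).symm⟩
  map_one' := rfl
  map_mul' g g' := by
    refine Subtype.ext ?_
    change (AddMonoidAlgebra.single (g.toAdd + g'.toAdd) 1 : k02_T (Fin L) (EB r s)) =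
      AddMonoidAlgebra.single g.toAdd 1 * AddMonoidAlgebra.single g'.toAdd 1
    rw [AddMonoidAlgebra.single_mul_single, one_mul]

private theorem k02_ev
    (h1 : ∀ a i, S0.P (Sum.inl a) i = algebraMap (PG r) (EB r s) (X (i, a)))
    (h2 : ∀ b i, S0.P (Sum.inr b) i = ExteriorAlgebra.ι (PG r) (Finsupp.single (i, b) 1))
    (f : UA) (hf : f ∈ LL L) : ((evF (k02_S S0) (stdW r L s) f : Subalgebra.center ℂ
        (k02_T (Fin L) (EB r s))) : k02_T (Fin L) (EB r s)) =
      ∑ m ∈ f.support, AddMonoidAlgebra.single (k02_mu L m)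
        ((evE r s (coeff m f) : Subalgebra.center ℂ (EB r s)) : EB r s) := by
  have hz : ∀ m ∈ f.support, (∏ p ∈ m.support, (⟨evz (k02_S S0) (stdW r L s) p.1 p.2,
      evz_mem_center (k02_S S0) (stdW r L s) p.1 p.2⟩ :
      Subalgebra.center ℂ (k02_T (Fin L) (EB r s))) ^ m p) =
      k02_ka r L s (Multiplicative.ofAdd (k02_mu L m)) := by
    intro m hm
    unfold k02_mu Finsupp.sum
    rw [ofAdd_sum, map_prod]
    refine Finset.prod_congr rfl fun p hp => ?_
    rw [ofAdd_nsmul, map_pow]
    congr 1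
    refine Subtype.ext ?_
    have hpL : p.1 < L := hf m hm p hp
    change evz (k02_S S0) (stdW r L s) p.1 p.2 = AddMonoidAlgebra.single (k02_h L p) 1
    rw [k02_h, dif_pos hpL]
    exact k02_evz S0 ⟨p.1, hpL⟩ p.2
  have hev : evF (k02_S S0) (stdW r L s) f = ∑ m ∈ f.support,
      evF (k02_S S0) (stdW r L s) (C (coeff m f)) *
        k02_ka r L s (Multiplicative.ofAdd (k02_mu L m)) := by
    have e : evF (k02_S S0) (stdW r L s) f = ∑ m ∈ f.support,
        evF (k02_S S0) (stdW r L s) (C (coeff m f)) *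
        ∏ p ∈ m.support, (⟨evz (k02_S S0) (stdW r L s) p.1 p.2,
          evz_mem_center (k02_S S0) (stdW r L s) p.1 p.2⟩ :
          Subalgebra.center ℂ (k02_T (Fin L) (EB r s))) ^ m p := by
      unfold evF
      simp only [eval₂Hom_C]
      rw [coe_eval₂Hom, eval₂_eq]
    rw [e]
    exact Finset.sum_congr rfl fun m hm => by rw [hz m hm]
  rw [hev, AddSubmonoidClass.coe_finsetSum]
  refine Finset.sum_congr rfl fun m _ => ?_
  rw [MulMemClass.coe_mul, k02_evC S0 h1 h2]
  change AddMonoidAlgebra.single 0 _ * AddMonoidAlgebra.single (k02_mu L m) 1 = _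
  rw [AddMonoidAlgebra.single_mul_single, zero_add, mul_one]

end k02b

theorem exists_SAlg_std (r L s : ℕ) : ∃ (T : Type) (_ : Ring T) (_ : Algebra ℂ T)
    (S : SAlg (Fin r ⊕ Fin L) (Fin s ⊕ Fin s) ℂ T), ∀ f ∈ LL L,
      (evF S (stdW r L s) f = 0 ↔ ∀ m, coeff m f ∈ Jrs r s) := by
  obtain ⟨S0, h1, h2⟩ := exists_SAlg_TT (Fin r) (Fin s ⊕ Fin s) ℂ
  refine ⟨k02_T (Fin L) (EB r s), inferInstance, inferInstance, k02_S S0, fun f hf => ?_⟩
  have hev := k02_ev S0 h1 h2 f hf
  constructor
  · intro h0 m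
    rw [h0, ZeroMemClass.coe_zero] at hev
    by_cases hm : m ∈ f.support
    · have h3 := congrArg (fun t : k02_T (Fin L) (EB r s) => t.coeff (k02_mu L m)) hev
      simp only [AddMonoidAlgebra.coeff_zero, AddMonoidAlgebra.coeff_sum,
        AddMonoidAlgebra.coeff_single, Finsupp.coe_zero, Pi.zero_apply,
        Finsupp.finsetSum_apply] at h3
      rw [Finset.sum_eq_single m] at h3
      · rw [Finsupp.single_eq_same] at h3
        unfold Jrs
        rw [RingHom.mem_ker]
        exact Subtype.ext h3.symm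
      · intro m' hm' hne
        rw [Finsupp.single_eq_of_ne]
        intro h
        exact hne (k02_mu_inj L (hf m' hm') (hf m hm) h.symm)
      · intro h
        exact absurd hm h
    · rw [notMem_support_iff.1 hm]
      exact Ideal.zero_mem _
  · intro h
    refine Subtype.ext ?_
    rw [hev, ZeroMemClass.coe_zero]
    refine Finset.sum_eq_zero fun m _ => ?_
    have h3 := h m
    unfold Jrs at h3
    rw [RingHom.mem_ker] at h3
    have h4 : ((evE r s (coeff m f) : Subalgebra.center ℂ (EB r s)) : EB r s) = 0 :=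
      congrArg Subtype.val h3
    rw [h4, AddMonoidAlgebra.single_zero]

end MP50e386N
end

section
/-! [N50 K26] linear algebra: factorisation of symmetric and antisymmetric complex matrices. -/

namespace MP50e386N

open Module

section k26

variable {V : Type*} [AddCommGroup V] [Module ℂ V] [FiniteDimensional ℂ V]

private theorem k26_fr (K K' : Submodule ℂ V) (hK : K ≤ K') (u : V) (hu : u ∈ K') (hu' : u ∉ K) :
    finrank ℂ K + 1 ≤ finrank ℂ K' :=
  Submodule.finrank_lt_finrank_of_lt (lt_of_le_of_ne hK fun h => hu' (h ▸ hu))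

private theorem k26_sym (l : ℕ) : ∀ F : V →ₗ[ℂ] V →ₗ[ℂ] ℂ, (∀ x y, F x y = F y x) →
    finrank ℂ V ≤ finrank ℂ (LinearMap.ker F) + l →
    ∃ α : Fin l → V →ₗ[ℂ] ℂ, ∀ x y, F x y = ∑ i, α i x * α i y := by
  induction l with
  | zero =>
    intro F hF hl
    by_cases h0 : F = 0
    · exact ⟨fun _ => 0, fun x y => by simp [h0]⟩
    · exfalso
      have h1 : LinearMap.ker F = ⊤ := by
        apply Submodule.eq_top_of_finrank_eq
        have := Submodule.finrank_le (LinearMap.ker F)
        omega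
      exact h0 (LinearMap.ker_eq_top.1 h1)
  | succ l ih =>
    intro F hF hl
    by_cases h0 : F = 0
    · exact ⟨fun _ => 0, fun x y => by simp [h0]⟩
    · have h1 : ∃ x, F x x ≠ 0 := by
        by_contra hcon
        push Not at hcon
        apply h0
        ext x y
        have h2 := hcon (x + y)
        simp only [map_add, LinearMap.add_apply, hcon x, hcon y, hF y x] at h2
        have h3 : 2 * F x y = 0 := by linear_combination h2
        simpa using h3
      obtain ⟨x, hx⟩ := h1
      obtain ⟨z, hz⟩ := IsAlgClosed.exists_eq_mul_self (F x x)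
      have hz0 : z ≠ 0 := by
        rintro rfl
        rw [mul_zero] at hz
        exact hx hz
      set u : V := z⁻¹ • x with hu
      have huu : F u u = 1 := by
        simp only [hu, map_smul, LinearMap.smul_apply, smul_eq_mul, hz]
        field_simp
      set F' : V →ₗ[ℂ] V →ₗ[ℂ] ℂ := F - (F u).smulRight (F u) with hF'
      have hF'a : ∀ x y, F' x y = F x y - F u x * F u y := by
        intro x y
        rw [hF', LinearMap.sub_apply, LinearMap.smulRight_apply, LinearMap.sub_apply,
          LinearMap.smul_apply, smul_eq_mul]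
      have hk : LinearMap.ker F ≤ LinearMap.ker F' := by
        intro x hx
        rw [LinearMap.mem_ker] at hx ⊢
        ext y
        rw [hF'a, hF u x, hx]
        simp
      have hk2 : u ∈ LinearMap.ker F' := by
        rw [LinearMap.mem_ker]
        ext y
        rw [hF'a, huu]
        simp
      have hk3 : u ∉ LinearMap.ker F := by
        intro h
        rw [LinearMap.mem_ker] at h
        rw [h] at huu
        simp at huu
      have hfr := k26_fr _ _ hk u hk2 hk3
      obtain ⟨α, hα⟩ := ih F' (fun x y => by rw [hF'a, hF'a, hF x y, mul_comm]) (by omega)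
      refine ⟨Fin.cons (F u) α, fun x y => ?_⟩
      rw [Fin.sum_univ_succ]
      simp only [Fin.cons_zero, Fin.cons_succ]
      rw [← hα, hF'a]
      ring

private theorem k26_alt (l : ℕ) : ∀ F : V →ₗ[ℂ] V →ₗ[ℂ] ℂ, (∀ x y, F x y = - F y x) →
    finrank ℂ V < finrank ℂ (LinearMap.ker F) + 2 * (l + 1) →
    ∃ α β : Fin l → V →ₗ[ℂ] ℂ, ∀ x y, F x y = ∑ i, (α i x * β i y - β i x * α i y) := by
  have key : ∀ F : V →ₗ[ℂ] V →ₗ[ℂ] ℂ, (∀ x y, F x y = - F y x) → F ≠ 0 →
      ∃ u v : V, ∃ F' : V →ₗ[ℂ] V →ₗ[ℂ] ℂ, (∀ x y, F' x y = - F' y x) ∧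
        (∀ x y, F x y = F' x y + (F u y * -(F v x) - -(F v y) * F u x)) ∧
        finrank ℂ (LinearMap.ker F) + 2 ≤ finrank ℂ (LinearMap.ker F') := by
    intro F hF h0
    have h1 : ∃ x y, F x y ≠ 0 := by
      by_contra hcon
      push Not at hcon
      apply h0
      ext x y
      rw [hcon x y]
      rfl
    obtain ⟨u, v0, huv0⟩ := h1
    set v : V := (F u v0)⁻¹ • v0 with hv
    have huv : F u v = 1 := by
      rw [hv, map_smul, smul_eq_mul, inv_mul_cancel₀ huv0]
    have hxx : ∀ x, F x x = 0 := by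
      intro x
      have h2 := hF x x
      have h3 : 2 * F x x = 0 := by linear_combination h2
      simpa using h3
    have hvu : F v u = -1 := by rw [hF v u, huv]
    set F' : V →ₗ[ℂ] V →ₗ[ℂ] ℂ := F + (F v).smulRight (F u) - (F u).smulRight (F v) with hF'
    have hF'a : ∀ x y, F' x y = F x y + F v x * F u y - F u x * F v y := by
      intro x y
      rw [hF', LinearMap.sub_apply, LinearMap.add_apply, LinearMap.smulRight_apply,
        LinearMap.smulRight_apply, LinearMap.sub_apply, LinearMap.add_apply,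
        LinearMap.smul_apply, LinearMap.smul_apply, smul_eq_mul, smul_eq_mul]
    refine ⟨u, v, F', ?_, ?_, ?_⟩
    · intro x y
      rw [hF'a, hF'a, hF x y]
      ring
    · intro x y
      rw [hF'a]
      ring
    · have hk : LinearMap.ker F ≤ LinearMap.ker F' := by
        intro x hx
        rw [LinearMap.mem_ker] at hx ⊢
        ext y
        rw [hF'a, hF v x, hF u x, hx]
        simp
      have hku : u ∈ LinearMap.ker F' := by
        rw [LinearMap.mem_ker]
        ext y
        rw [hF'a, hxx, hvu]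
        simp
      have hkv : v ∈ LinearMap.ker F' := by
        rw [LinearMap.mem_ker]
        ext y
        rw [hF'a, hxx, huv]
        simp
      have h3 : u ∉ LinearMap.ker F := by
        intro h
        rw [LinearMap.mem_ker] at h
        rw [h] at huv
        simp at huv
      have h4 := k26_fr (LinearMap.ker F) (LinearMap.ker F ⊔ Submodule.span ℂ {u}) le_sup_left u
        (Submodule.mem_sup_right (Submodule.mem_span_singleton_self u)) h3
      have h5 : v ∉ LinearMap.ker F ⊔ Submodule.span ℂ {u} := by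
        intro h
        obtain ⟨r, hr, w, hw, hrw⟩ := Submodule.mem_sup.1 h
        obtain ⟨a, rfl⟩ := Submodule.mem_span_singleton.1 hw
        rw [LinearMap.mem_ker] at hr
        have h6 := huv
        rw [← hrw, map_add, map_smul, hxx, hF u r, hr] at h6
        simp at h6
      have h7 := k26_fr (LinearMap.ker F ⊔ Submodule.span ℂ {u}) (LinearMap.ker F')
        (sup_le hk (by
          rw [Submodule.span_singleton_le_iff_mem]
          exact hku)) v hkv h5
      omega
  induction l with
  | zero =>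
    intro F hF hl
    by_cases h0 : F = 0
    · exact ⟨fun _ => 0, fun _ => 0, fun x y => by simp [h0]⟩
    · exfalso
      obtain ⟨u, v, F', _, _, h3⟩ := key F hF h0
      have := Submodule.finrank_le (LinearMap.ker F')
      omega
  | succ l ih =>
    intro F hF hl
    by_cases h0 : F = 0
    · exact ⟨fun _ => 0, fun _ => 0, fun x y => by simp [h0]⟩
    · obtain ⟨u, v, F', h1, h2, h3⟩ := key F hF h0
      obtain ⟨α, β, hαβ⟩ := ih F' h1 (by omega)
      refine ⟨Fin.cons (-(F v)) α, Fin.cons (F u) β, fun x y => ?_⟩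
      rw [Fin.sum_univ_succ]
      simp only [Fin.cons_zero, Fin.cons_succ]
      rw [← hαβ, h2 x y]
      simp only [LinearMap.neg_apply]
      ring

end k26

section k26m

variable {E : Type} [Fintype E] [DecidableEq E]

private theorem k26_entry (B : E → E → ℂ) (a a' : E) :
    Matrix.toBilin' (Matrix.of B) (Pi.single a 1) (Pi.single a' 1) = B a a' := by
  rw [Matrix.toBilin'_single]
  rfl

private theorem k26_ker (B : E → E → ℂ) (hdet : (Matrix.of B).det = 0) :
    1 ≤ finrank ℂ (LinearMap.ker (Matrix.toBilin' (Matrix.of B))) := by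
  rw [Submodule.one_le_finrank_iff]
  obtain ⟨v, hv, hv2⟩ := Matrix.exists_vecMul_eq_zero_iff.2 hdet
  intro h
  have h1 : v ∈ LinearMap.ker (Matrix.toBilin' (Matrix.of B)) := by
    rw [LinearMap.mem_ker]
    apply LinearMap.ext
    intro w
    rw [Matrix.toBilin'_apply', Matrix.dotProduct_mulVec, hv2, zero_dotProduct]
    rfl
  rw [h, Submodule.mem_bot] at h1
  exact hv h1

private theorem k26_symF (B : E → E → ℂ) (hB : ∀ a a', B a a' = B a' a) (x y : E → ℂ) :
    Matrix.toBilin' (Matrix.of B) x y = Matrix.toBilin' (Matrix.of B) y x := by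
  rw [Matrix.toBilin'_apply, Matrix.toBilin'_apply, Finset.sum_comm]
  refine Finset.sum_congr rfl fun i _ => Finset.sum_congr rfl fun j _ => ?_
  simp only [Matrix.of_apply]
  rw [hB j i]
  ring

private theorem k26_altF (B : E → E → ℂ) (hB : ∀ a a', B a a' = - B a' a) (x y : E → ℂ) :
    Matrix.toBilin' (Matrix.of B) x y = - Matrix.toBilin' (Matrix.of B) y x := by
  rw [Matrix.toBilin'_apply, Matrix.toBilin'_apply, Finset.sum_comm, ← Finset.sum_neg_distrib]
  refine Finset.sum_congr rfl fun i _ => ?_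
  rw [← Finset.sum_neg_distrib]
  refine Finset.sum_congr rfl fun j _ => ?_
  simp only [Matrix.of_apply]
  rw [hB j i]
  ring

private theorem k26_fac (B : E → E → ℂ) (hB : ∀ a a', B a a' = B a' a) (l : ℕ)
    (h : Fintype.card E ≤ finrank ℂ (LinearMap.ker (Matrix.toBilin' (Matrix.of B))) + l) :
    ∃ M : Fin l → E → ℂ, ∀ a a', B a a' = ∑ u, M u a * M u a' := by
  obtain ⟨α, hα⟩ := k26_sym l (Matrix.toBilin' (Matrix.of B)) (k26_symF B hB) (by
    rw [finrank_fintype_fun_eq_card]; exact h)
  refine ⟨fun i a => α i (Pi.single a 1), fun a a' => ?_⟩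
  rw [← k26_entry B a a', hα]

private theorem k26_facA (B : E → E → ℂ) (hB : ∀ a a', B a a' = - B a' a) (l : ℕ)
    (h : Fintype.card E <
      finrank ℂ (LinearMap.ker (Matrix.toBilin' (Matrix.of B))) + 2 * (l + 1)) :
    ∃ P Q : Fin l → E → ℂ, ∀ a a', B a a' = ∑ u, (P u a * Q u a' - Q u a * P u a') := by
  obtain ⟨α, β, hα⟩ := k26_alt l (Matrix.toBilin' (Matrix.of B)) (k26_altF B hB) (by
    rw [finrank_fintype_fun_eq_card]; exact h)
  refine ⟨fun i a => α i (Pi.single a 1), fun i a => β i (Pi.single a 1), fun a a' => ?_⟩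
  rw [← k26_entry B a a', hα]

end k26m

theorem symm_factor_full {E : Type} [Fintype E] [DecidableEq E] (r : ℕ)
    (hE : Fintype.card E = r) (B : E → E → ℂ) (hB : ∀ a a', B a a' = B a' a) :
    ∃ M : Fin r → E → ℂ, ∀ a a', B a a' = ∑ u, M u a * M u a' :=
  k26_fac B hB r (by omega)

/-- a symmetric invertible matrix is congruent to the identity -/
theorem symm_congr_one {E : Type} [Fintype E] [DecidableEq E] (B : E → E → ℂ)
    (hB : ∀ a a', B a a' = B a' a) (hdet : (Matrix.of B).det ≠ 0) :
    ∃ M : E → E → ℂ, ∀ a a', ∑ u, ∑ u', M u a * M u' a' * B u u' = if a = a' then 1 else 0 := by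
  obtain ⟨M, hM⟩ := symm_factor_full (Fintype.card E) rfl B hB
  set e := Fintype.equivFin E with he
  set M' : Matrix E E ℂ := Matrix.of fun u a => M (e u) a with hM'
  have h1 : Matrix.of B = M'.transpose * M' := by
    ext a a'
    rw [Matrix.mul_apply, Matrix.of_apply, hM a a', ← e.sum_comp]
    rfl
  have h2 : M'.det ≠ 0 := by
    intro h
    apply hdet
    rw [h1, Matrix.det_mul, h, mul_zero]
  have h3 : M' * M'⁻¹ = 1 := Matrix.mul_nonsing_inv _ (isUnit_iff_ne_zero.2 h2)
  refine ⟨fun u a => M'⁻¹ u a, fun a a' => ?_⟩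
  have h4 : (M'⁻¹.transpose * Matrix.of B * M'⁻¹) = 1 := by
    rw [h1, Matrix.mul_assoc, Matrix.mul_assoc, h3, Matrix.mul_one, ← Matrix.transpose_mul, h3,
      Matrix.transpose_one]
  have h5 := congrFun (congrFun h4 a) a'
  rw [Matrix.one_apply] at h5
  rw [← h5, Matrix.mul_apply]
  simp only [Matrix.mul_apply, Matrix.transpose_apply, Matrix.of_apply, Finset.sum_mul]
  rw [Finset.sum_comm]
  refine Finset.sum_congr rfl fun i _ => Finset.sum_congr rfl fun j _ => ?_
  ring

/-- a symmetric matrix of rank `≤ r` is pulled back from the identity of size `r` -/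
theorem symm_factor_low {E : Type} [Fintype E] [DecidableEq E] (r : ℕ) (hE : Fintype.card E = r + 1)
    (B : E → E → ℂ) (hB : ∀ a a', B a a' = B a' a) (hdet : (Matrix.of B).det = 0) :
    ∃ M : Fin r → E → ℂ, ∀ a a', B a a' = ∑ u, M u a * M u a' :=
  k26_fac B hB r (by
    have := k26_ker B hdet
    omega)

/-- the standard antisymmetric form -/
def Jst (s : ℕ) (b b' : Fin s ⊕ Fin s) : ℂ := match b, b' with
  | Sum.inl i, Sum.inr j => if i = j then 1 else 0
  | Sum.inr i, Sum.inl j => if i = j then -1 else 0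
  | _, _ => 0

private theorem k26_J {E : Type} (s : ℕ) (P Q : Fin s → E → ℂ) (b b' : E) :
    ∑ u, ∑ u', (Sum.elim P Q : Fin s ⊕ Fin s → E → ℂ) u b *
      (Sum.elim P Q : Fin s ⊕ Fin s → E → ℂ) u' b' * Jst s u u' =
      ∑ u, (P u b * Q u b' - Q u b * P u b') := by
  rw [Fintype.sum_sum_type]
  simp only [Fintype.sum_sum_type, Sum.elim_inl, Sum.elim_inr, Jst, mul_ite, mul_one, mul_zero,
    mul_neg, Finset.sum_ite_eq, Finset.mem_univ, if_true, Finset.sum_const_zero, zero_add,
    add_zero]
  rw [← Finset.sum_add_distrib]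
  refine Finset.sum_congr rfl fun i _ => ?_
  ring

theorem anti_factor_std (s : ℕ) (Z : Fin s ⊕ Fin s → Fin s ⊕ Fin s → ℂ)
    (hZ : ∀ b b', Z b b' = - Z b' b) :
    ∃ M : Fin s ⊕ Fin s → Fin s ⊕ Fin s → ℂ,
      ∀ b b', Z b b' = ∑ u, ∑ u', M u b * M u' b' * Jst s u u' := by
  obtain ⟨P, Q, h⟩ := k26_facA Z hZ s (by
    rw [Fintype.card_sum, Fintype.card_fin]
    omega)
  refine ⟨Sum.elim P Q, fun b b' => ?_⟩
  rw [k26_J, h]

theorem anti_congr_std (s : ℕ) (Z : Fin s ⊕ Fin s → Fin s ⊕ Fin s → ℂ)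
    (hZ : ∀ b b', Z b b' = - Z b' b) (hdet : (Matrix.of Z).det ≠ 0) :
    ∃ M : Fin s ⊕ Fin s → Fin s ⊕ Fin s → ℂ,
      ∀ b b', ∑ u, ∑ u', M u b * M u' b' * Z u u' = Jst s b b' := by
  obtain ⟨M, hM⟩ := anti_factor_std s Z hZ
  set M' : Matrix (Fin s ⊕ Fin s) (Fin s ⊕ Fin s) ℂ := Matrix.of M with hM'
  set Jm : Matrix (Fin s ⊕ Fin s) (Fin s ⊕ Fin s) ℂ := Matrix.of (Jst s) with hJm
  have h1 : Matrix.of Z = M'.transpose * Jm * M' := by
    ext a a'
    rw [Matrix.mul_apply, Matrix.of_apply, hM a a']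
    simp only [Matrix.mul_apply, Finset.sum_mul]
    rw [Finset.sum_comm]
    refine Finset.sum_congr rfl fun i _ => Finset.sum_congr rfl fun j _ => ?_
    simp only [hM', hJm, Matrix.transpose_apply, Matrix.of_apply]
    ring
  have h2 : M'.det ≠ 0 := by
    intro h
    apply hdet
    rw [h1, Matrix.det_mul, h, mul_zero]
  have h3 : M' * M'⁻¹ = 1 := Matrix.mul_nonsing_inv _ (isUnit_iff_ne_zero.2 h2)
  refine ⟨fun u a => M'⁻¹ u a, fun a a' => ?_⟩
  have h4 : (M'⁻¹.transpose * Matrix.of Z * M'⁻¹) = Jm := by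
    rw [h1]
    calc M'⁻¹.transpose * (M'.transpose * Jm * M') * M'⁻¹
        = (M' * M'⁻¹).transpose * Jm * (M' * M'⁻¹) := by
          rw [Matrix.transpose_mul]
          simp only [Matrix.mul_assoc]
      _ = Jm := by rw [h3, Matrix.transpose_one, Matrix.one_mul, Matrix.mul_one]
  have h5 := congrFun (congrFun h4 a) a'
  have h6 : Jm a a' = Jst s a a' := rfl
  rw [h6] at h5
  rw [← h5, Matrix.mul_apply]
  simp only [Matrix.mul_apply, Matrix.transpose_apply, Matrix.of_apply, Finset.sum_mul]
  rw [Finset.sum_comm]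
  refine Finset.sum_congr rfl fun i _ => Finset.sum_congr rfl fun j _ => ?_
  ring

theorem anti_factor (s : ℕ) (Z : Fin (s + 1) ⊕ Fin (s + 1) → Fin (s + 1) ⊕ Fin (s + 1) → ℂ)
    (hZ : ∀ b b', Z b b' = - Z b' b) (hdet : (Matrix.of Z).det = 0) :
    ∃ M : Fin s ⊕ Fin s → Fin (s + 1) ⊕ Fin (s + 1) → ℂ,
      ∀ b b', Z b b' = ∑ u, ∑ u', M u b * M u' b' * Jst s u u' := by
  have h0 := k26_ker Z hdet
  obtain ⟨P, Q, h⟩ := k26_facA Z hZ s (by
    rw [Fintype.card_sum, Fintype.card_fin]
    omega)
  refine ⟨Sum.elim P Q, fun b b' => ?_⟩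
  rw [k26_J, h]

end MP50e386N
end

section
/-! [N50 K10] the submodules `N ⊗ T_0`. -/

namespace MP50e386N

open MvPolynomial

variable {E O T : Type} [Ring T] [Algebra UA T] [Algebra ℂ T] [IsScalarTower ℂ UA T]
  (S : SAlg E O UA T)

private theorem k10_ind {N N' : Submodule MP50e386.A UA} {x : T} (hx : x ∈ NT S N) (φ : T →+ T)
    (h : ∀ f ∈ N, ∀ l : List ((E ⊕ O) × ℕ), φ (algebraMap UA T f * S.pp l) ∈ NT S N') :
    φ x ∈ NT S N' := by
  unfold NT at hx
  induction hx using AddSubgroup.closure_induction with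
  | mem x hx =>
    obtain ⟨f, hf, l, rfl⟩ := hx
    exact h f hf l
  | zero =>
    rw [map_zero]
    exact AddSubgroup.zero_mem _
  | add a b _ _ ha hb =>
    rw [map_add]
    exact AddSubgroup.add_mem _ ha hb
  | neg a _ ha =>
    rw [map_neg]
    exact AddSubgroup.neg_mem _ ha

private theorem k10_gen {N : Submodule MP50e386.A UA} {f : UA} (hf : f ∈ N)
    (l : List ((E ⊕ O) × ℕ)) : algebraMap UA T f * S.pp l ∈ NT S N :=
  AddSubgroup.subset_closure ⟨f, hf, l, rfl⟩

private theorem k10_pp_cons (p : (E ⊕ O) × ℕ) (l : List ((E ⊕ O) × ℕ)) :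
    S.pp (p :: l) = S.P p.1 p.2 * S.pp l := by
  unfold SAlg.pp
  rw [List.map_cons, List.prod_cons]

private theorem k10_pp_append (l l' : List ((E ⊕ O) × ℕ)) :
    S.pp (l ++ l') = S.pp l * S.pp l' := by
  unfold SAlg.pp
  rw [List.map_append, List.prod_append]

theorem NT_C_mul {N : Submodule MP50e386.A UA} {x : T} (hx : x ∈ NT S N) (g : MP50e386.A) :
    algebraMap UA T (C g) * x ∈ NT S N := by
  refine k10_ind S hx (AddMonoidHom.mulLeft (algebraMap UA T (C g))) ?_
  intro f hf l
  rw [AddMonoidHom.coe_mulLeft, ← mul_assoc, ← map_mul]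
  refine k10_gen S ?_ l
  rw [← smul_eq_C_mul]
  exact N.smul_mem g hf

theorem NT_P_mul {N : Submodule MP50e386.A UA} {x : T} (hx : x ∈ NT S N) (y : E ⊕ O) (i : ℕ) :
    S.P y i * x ∈ NT S N := by
  refine k10_ind S hx (AddMonoidHom.mulLeft (S.P y i)) ?_
  intro f hf l
  have e : S.P y i * (algebraMap UA T f * S.pp l) = algebraMap UA T f * S.pp ((y, i) :: l) := by
    rw [k10_pp_cons, ← mul_assoc, ← Algebra.commutes, mul_assoc]
  rw [AddMonoidHom.coe_mulLeft, e]
  exact k10_gen S hf _

theorem NT_mul_P {N : Submodule MP50e386.A UA} {x : T} (hx : x ∈ NT S N) (y : E ⊕ O) (i : ℕ) :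
    x * S.P y i ∈ NT S N := by
  refine k10_ind S hx (AddMonoidHom.mulRight (S.P y i)) ?_
  intro f hf l
  have e : algebraMap UA T f * S.pp l * S.P y i = algebraMap UA T f * S.pp (l ++ [(y, i)]) := by
    rw [k10_pp_append, mul_assoc]
    congr 2
    unfold SAlg.pp
    simp
  rw [AddMonoidHom.mulRight_apply, e]
  exact k10_gen S hf _

theorem NT_smul {N : Submodule MP50e386.A UA} {x : T} (hx : x ∈ NT S N) (c : ℂ) :
    c • x ∈ NT S N := by
  rw [Algebra.smul_def, IsScalarTower.algebraMap_apply ℂ UA T c, MvPolynomial.algebraMap_apply]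
  exact NT_C_mul S hx _

private theorem k10_XX_mul {N : Submodule MP50e386.A UA} {x : T} (hx : x ∈ NT S N)
    (y y' : E ⊕ O) (m : ℕ) : XX S y y' m * x ∈ NT S N := by
  unfold XX
  rw [Finset.sum_mul]
  refine AddSubgroup.sum_mem _ fun i _ => ?_
  rw [Finset.sum_mul]
  refine AddSubgroup.sum_mem _ fun j _ => ?_
  rw [mul_assoc, mul_assoc]
  exact NT_C_mul S (NT_P_mul S (NT_P_mul S hx _ _) _ _) _

private theorem k10_mul_XX {N : Submodule MP50e386.A UA} {x : T} (hx : x ∈ NT S N)
    (y y' : E ⊕ O) (m : ℕ) : x * XX S y y' m ∈ NT S N := by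
  unfold XX
  rw [Finset.mul_sum]
  refine AddSubgroup.sum_mem _ fun i _ => ?_
  rw [Finset.mul_sum]
  refine AddSubgroup.sum_mem _ fun j _ => ?_
  rw [← mul_assoc, ← Algebra.commutes, mul_assoc, ← mul_assoc x]
  exact NT_C_mul S (NT_mul_P S (NT_mul_P S hx _ _) _ _) _

theorem NT_smul_KK {N : Submodule MP50e386.A UA} {F : TN S} (hF : ∀ m, F m ∈ NT (T := T) S N)
    (P : KK E O) (m : ℕ) : (P • F) m ∈ NT (T := T) S N := by
  induction P using MvPolynomial.induction_on generalizing F m with
  | C c =>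
    have e : (C c : KK E O) • F = c • F := by
      rw [Algebra.smul_def, Algebra.smul_def]
      congr 1
      change ((KH S (C c) : Subalgebra.center ℂ (TN S)) : TN S) = _
      rw [KH, ← MvPolynomial.algebraMap_eq, AlgHom.commutes]
      rfl
    rw [e]
    exact NT_smul S (hF m) c
  | add P Q hP hQ =>
    rw [add_smul]
    exact AddSubgroup.add_mem _ (hP hF m) (hQ hF m)
  | mul_X P n hP =>
    rw [mul_smul]
    refine hP (fun m => ?_) m
    rw [Algebra.smul_def]
    rcases n with p | p
    · have e : algebraMap (KK E O) (TN S) (X (Sum.inl p)) = XX S (Sum.inl p.1) (Sum.inl p.2) := by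
        change ((KH S (X (Sum.inl p)) : Subalgebra.center ℂ (TN S)) : TN S) = _
        rw [KH, aeval_X]
        rfl
      rw [e]
      exact k10_XX_mul S (hF m) _ _ m
    · have e : algebraMap (KK E O) (TN S) (X (Sum.inr p)) = XX S (Sum.inr p.1) (Sum.inr p.2) := by
        change ((KH S (X (Sum.inr p)) : Subalgebra.center ℂ (TN S)) : TN S) = _
        rw [KH, aeval_X]
        rfl
      rw [e]
      exact k10_XX_mul S (hF m) _ _ m

/-- sequences in `N ⊗ T_0` -/
def NTN (N : Submodule MP50e386.A UA) : Submodule (KK E O) (TN S) where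
  carrier := {F | ∀ m, F m ∈ NT (T := T) S N}
  zero_mem' := fun _ => AddSubgroup.zero_mem _
  add_mem' := fun ha hb m => AddSubgroup.add_mem _ (ha m) (hb m)
  smul_mem' := fun P _ hF m => NT_smul_KK S hF P m

theorem mem_NTN {N : Submodule MP50e386.A UA} {F : TN S} :
    F ∈ NTN S N ↔ ∀ m, F m ∈ NT (T := T) S N := Iff.rfl

theorem NTN_mono {N N' : Submodule MP50e386.A UA} (h : N ≤ N') : NTN S N ≤ NTN S N' := by
  intro F hF m
  refine AddSubgroup.closure_mono ?_ (hF m)
  rintro x ⟨f, hf, l, rfl⟩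
  exact ⟨f, h hf, l, rfl⟩

private theorem k10_NT_mul (h : Ideal MP50e386.A) (N : Submodule MP50e386.A UA) {x y : T}
    (hx : x ∈ NT S (IU h)) (hy : y ∈ NT S N) : x * y ∈ NT S (h • N) := by
  refine k10_ind S hx (AddMonoidHom.mulRight y) ?_
  intro f hf l
  rw [AddMonoidHom.mulRight_apply]
  refine k10_ind S hy (AddMonoidHom.mulLeft (algebraMap UA T f * S.pp l)) ?_
  intro g hg l'
  rw [AddMonoidHom.coe_mulLeft]
  have e : algebraMap UA T f * S.pp l * (algebraMap UA T g * S.pp l') =
      algebraMap UA T (f * g) * S.pp (l ++ l') := by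
    rw [k10_pp_append, map_mul]
    calc algebraMap UA T f * S.pp l * (algebraMap UA T g * S.pp l')
        = algebraMap UA T f * (S.pp l * algebraMap UA T g) * S.pp l' := by
          simp only [mul_assoc]
      _ = algebraMap UA T f * (algebraMap UA T g * S.pp l) * S.pp l' := by
          rw [← Algebra.commutes]
      _ = _ := by simp only [mul_assoc]
  rw [e]
  refine k10_gen S ?_ _
  obtain ⟨c, hc, rfl⟩ := hf
  have e2 : (Algebra.linearMap MP50e386.A UA) c * g = c • g := by
    rw [Algebra.linearMap_apply, ← Algebra.smul_def]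
  rw [e2]
  exact Submodule.smul_mem_smul hc hg

/-- `(h ⊗ T_0)(N ⊗ T_0) ≤ hN ⊗ T_0` -/
theorem NTN_mul (h : Ideal MP50e386.A) (N : Submodule MP50e386.A UA) :
    NTN S (IU h) * NTN S N ≤ NTN S (h • N) := by
  rw [Submodule.mul_le]
  intro a ha b hb m
  exact k10_NT_mul S h N (ha m) (hb m)

theorem Chi_mul_NTN (N : Submodule MP50e386.A UA) : Chi S 0 * NTN S N ≤ NTN S N := by
  rw [Submodule.mul_le]
  intro a ha b hb
  unfold Chi at ha
  induction ha using Submodule.span_induction with
  | mem x hx =>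
    obtain ⟨l, -, rfl⟩ := hx
    induction l with
    | nil =>
      rw [List.map_nil, List.prod_nil, one_mul]
      exact hb
    | cons p l ih =>
      rw [List.map_cons, List.prod_cons, mul_assoc]
      intro m
      exact k10_XX_mul S (ih m) _ _ m
  | zero =>
    rw [zero_mul]
    exact Submodule.zero_mem _
  | add x y _ _ hx hy =>
    rw [add_mul]
    exact Submodule.add_mem _ hx hy
  | smul c x _ hx =>
    rw [smul_mul_assoc]
    exact Submodule.smul_mem _ c hx

theorem NTN_mul_Chi (N : Submodule MP50e386.A UA) : NTN S N * Chi S 0 ≤ NTN S N := by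
  rw [Submodule.mul_le]
  intro b hb a ha
  unfold Chi at ha
  induction ha using Submodule.span_induction with
  | mem x hx =>
    obtain ⟨l, -, rfl⟩ := hx
    induction l generalizing b with
    | nil =>
      rw [List.map_nil, List.prod_nil, mul_one]
      exact hb
    | cons p l ih =>
      rw [List.map_cons, List.prod_cons, ← mul_assoc]
      refine ih _ (fun m => ?_)
      exact k10_mul_XX S (hb m) _ _ m
  | zero =>
    rw [mul_zero]
    exact Submodule.zero_mem _
  | add x y _ _ hx hy =>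
    rw [mul_add]
    exact Submodule.add_mem _ hx hy
  | smul c x _ hx =>
    rw [mul_smul_comm]
    exact Submodule.smul_mem _ c hx

end MP50e386N
end

section
/-! [N50 K13] Artin-Rees in an algebra with a nilpotent ideal (abstract). -/

namespace MP50e386N

variable {K R : Type} [CommRing K] [Ring R] [Algebra K R]

private theorem k13_m {a a' b b' : Submodule K R} (h : a ≤ a') (h' : b ≤ b') :
    a * b ≤ a' * b' := mul_le_mul' h h'

private theorem k13_r {a a' : Submodule K R} (h : a ≤ a') (b : Submodule K R) :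
    a * b ≤ a' * b := mul_le_mul' h le_rfl

private theorem k13_l {b b' : Submodule K R} (h : b ≤ b') (a : Submodule K R) :
    a * b ≤ a * b' := mul_le_mul' le_rfl h

private theorem k13_pow_le_S {S a : Submodule K R} (hSS : S * S ≤ S) (h1 : (1 : R) ∈ S)
    (ha : a ≤ S) (k : ℕ) : a ^ k ≤ S := by
  induction k with
  | zero =>
    rw [pow_zero, Submodule.one_le]
    exact h1
  | succ k ih =>
    rw [pow_succ]
    exact (k13_m ih ha).trans hSS

private theorem k13_S_pow {S a : Submodule K R} (hSa : S * a ≤ a) {p : ℕ} (hp : 1 ≤ p) :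
    S * a ^ p ≤ a ^ p := by
  obtain ⟨k, rfl⟩ := Nat.exists_eq_add_of_le' hp
  rw [pow_succ', ← mul_assoc]
  exact k13_r hSa _

private theorem k13_pow_S {S a : Submodule K R} (haS : a * S ≤ a) {p : ℕ} (hp : 1 ≤ p) :
    a ^ p * S ≤ a ^ p := by
  obtain ⟨k, rfl⟩ := Nat.exists_eq_add_of_le' hp
  rw [pow_succ, mul_assoc]
  exact k13_l haS _

private theorem k13_anti {S a : Submodule K R} (hSS : S * S ≤ S) (h1 : (1 : R) ∈ S)
    (ha : a ≤ S) (hSa : S * a ≤ a) {p i : ℕ} (hp : 1 ≤ p) (hpi : p ≤ i) : a ^ i ≤ a ^ p := by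
  obtain ⟨k, rfl⟩ := Nat.exists_eq_add_of_le' hpi
  rw [pow_add]
  exact (k13_r (k13_pow_le_S hSS h1 ha k) _).trans (k13_S_pow hSa hp)

/-- `x W(i,j)` -/
private theorem k13_step {S a b : Submodule K R} (hSS : S * S ≤ S) (ha : a ≤ S)
    (hSb : S * b ≤ b) (i j : ℕ) :
    a * ((a ^ i * S) ⊓ (b ^ j * S)) ≤ (a ^ (i + 1) * S) ⊓ (b ^ j * S) := by
  refine le_inf ?_ ?_
  · refine (k13_l inf_le_left _).trans ?_
    rw [← mul_assoc, pow_succ']
  · refine (k13_m ha inf_le_right).trans ?_
    rw [← mul_assoc]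
    rcases Nat.eq_zero_or_pos j with rfl | hj
    · rw [pow_zero, mul_one, one_mul]
      exact hSS
    · exact k13_r (k13_S_pow hSb hj) _

/-- a word of length `p + q` in two two-sided ideals `a`, `b` of the subalgebra `S` -/
theorem sup_pow_le (S a b : Submodule K R) (hSS : S * S ≤ S) (h1 : (1 : R) ∈ S) (ha : a ≤ S)
    (hb : b ≤ S) (hSa : S * a ≤ a) (haS : a * S ≤ a) (hSb : S * b ≤ b) (hbS : b * S ≤ b)
    (p q : ℕ) (hp : 1 ≤ p) : (a ⊔ b) ^ (p + q) ≤ a ^ p ⊔ b ^ (q + 1) := by
  have key : ∀ m : ℕ, (a ⊔ b) ^ m ≤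
      ⨆ (i : ℕ) (j : ℕ) (_ : i + j = m), (a ^ i * S) ⊓ (b ^ j * S) := by
    intro m
    induction m with
    | zero =>
      refine le_trans ?_ (le_iSup_of_le 0 (le_iSup_of_le 0 (le_iSup_of_le rfl le_rfl)))
      rw [pow_zero, pow_zero, pow_zero, one_mul, inf_idem, Submodule.one_le]
      exact h1
    | succ m ih =>
      rw [pow_succ']
      refine (k13_l ih _).trans ?_
      rw [Submodule.sup_mul]
      simp only [Submodule.mul_iSup]
      refine sup_le (iSup_le fun i => iSup_le fun j => iSup_le fun h => ?_)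
        (iSup_le fun i => iSup_le fun j => iSup_le fun h => ?_)
      · exact (k13_step hSS ha hSb i j).trans
          (le_iSup_of_le (i + 1) (le_iSup_of_le j (le_iSup_of_le (by omega) le_rfl)))
      · rw [inf_comm]
        refine (k13_step hSS hb hSa j i).trans ?_
        rw [inf_comm]
        exact le_iSup_of_le i (le_iSup_of_le (j + 1) (le_iSup_of_le (by omega) le_rfl))
  refine (key (p + q)).trans (iSup_le fun i => iSup_le fun j => iSup_le fun h => ?_)
  by_cases hi : p ≤ i
  · refine inf_le_left.trans (le_sup_of_le_left ?_)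
    exact (k13_pow_S haS (hp.trans hi)).trans (k13_anti hSS h1 ha hSa hp hi)
  · have hj : q + 1 ≤ j := by omega
    refine inf_le_right.trans (le_sup_of_le_right ?_)
    exact (k13_pow_S hbS (by omega)).trans (k13_anti hSS h1 hb hSb (by omega) hj)

private theorem k13_smul_mul (I J : Ideal K) (N N' : Submodule K R) :
    (I • N) * (J • N') ≤ (I * J) • (N * N') := by
  rw [Submodule.mul_le]
  intro x hx y hy
  induction hx using Submodule.smul_induction_on' with
  | smul r hr n hn =>
    induction hy using Submodule.smul_induction_on' with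
    | smul r' hr' n' hn' =>
      rw [smul_mul_smul_comm]
      exact Submodule.smul_mem_smul (Ideal.mul_mem_mul hr hr') (Submodule.mul_mem_mul hn hn')
    | add y hy z hz h1 h2 =>
      rw [mul_add]
      exact Submodule.add_mem _ h1 h2
  | add y hy z hz h1 h2 =>
    rw [add_mul]
    exact Submodule.add_mem _ h1 h2

theorem ar_abs [IsNoetherianRing K] (S b H M M' : Submodule K R) (c : ℕ) (h1 : (1 : R) ∈ S)
    (hSS : S * S ≤ S) (hS : S = 1 ⊔ b) (hSb : S * b ≤ b) (hbS : b * S ≤ b)
    (hnil : b ^ (c + 1) = ⊥) (hH : H ≤ S) (hSH : S * H ≤ H) (hHS : H * S ≤ H) (hM : M.FG)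
    (hM'M : M' ≤ M) (hSM : S * M ≤ M) (hSM' : S * M' ≤ M') (K0 : ℕ) :
    ∃ K' : ℕ, M' ⊓ H ^ K' * M ≤ H ^ K0 * M' := by
  rcases Nat.eq_zero_or_pos K0 with rfl | hK0
  · refine ⟨0, ?_⟩
    rw [pow_zero, one_mul, one_mul]
    exact inf_le_left
  have hbS' : b ≤ S := by rw [hS]; exact le_sup_right
  set I : Ideal K := (H ⊔ b).comap (Algebra.linearMap K R) with hI
  -- `H ≤ I S + b`
  have e1 : H ≤ I • S ⊔ b := by
    intro x hx
    have hx' : x ∈ (1 : Submodule K R) ⊔ b := by rw [← hS]; exact hH hx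
    obtain ⟨u, hu, y, hy, rfl⟩ := Submodule.mem_sup.1 hx'
    obtain ⟨P, rfl⟩ := Submodule.mem_one.1 hu
    refine Submodule.add_mem_sup ?_ hy
    have hP : P ∈ I := by
      rw [hI, Submodule.mem_comap, Algebra.linearMap_apply]
      have := Submodule.sub_mem (H ⊔ b) (Submodule.mem_sup_left hx) (Submodule.mem_sup_right hy)
      rwa [add_sub_cancel_right] at this
    have h2 := Submodule.smul_mem_smul hP h1
    rwa [← Algebra.algebraMap_eq_smul_one] at h2
  have e2 : I • S ≤ S := Submodule.smul_le_right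
  have e3 : S * (I • S) ≤ I • S := by
    have := k13_smul_mul (R := R) ⊤ I S S
    rw [Submodule.top_smul, Ideal.top_mul] at this
    exact this.trans (smul_mono_right _ hSS)
  have e4 : (I • S) * S ≤ I • S := by
    have := k13_smul_mul (R := R) I ⊤ S S
    rw [Submodule.top_smul, Ideal.mul_top] at this
    exact this.trans (smul_mono_right _ hSS)
  have e5 : ∀ k, (I • S) ^ k ≤ I ^ k • S := by
    intro k
    induction k with
    | zero =>
      rw [pow_zero, pow_zero, Ideal.one_eq_top, Submodule.top_smul, Submodule.one_le]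
      exact h1
    | succ k ih =>
      rw [pow_succ, pow_succ]
      refine (k13_r ih _).trans ((k13_smul_mul _ _ _ _).trans ?_)
      exact smul_mono_right _ hSS
  have e6 : ∀ p, 1 ≤ p → H ^ (p + c) ≤ I ^ p • S := by
    intro p hp
    refine (pow_le_pow_left' e1 _).trans ?_
    refine (sup_pow_le S (I • S) b hSS h1 e2 hbS' e3 e4 hSb hbS p c hp).trans ?_
    rw [hnil, sup_bot_eq]
    exact e5 p
  -- Artin-Rees
  have : Module.Finite K M := Module.Finite.iff_fg.2 hM
  obtain ⟨k, hk⟩ := Ideal.exists_pow_inf_eq_pow_smul I (M'.comap M.subtype)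
  have e7 : ∀ n ≥ k, I ^ n • M ⊓ M' ≤ I ^ (n - k) • M' := by
    intro n hn x hx
    have hxM : x ∈ M := hM'M hx.2
    have h2 : (⟨x, hxM⟩ : M) ∈ I ^ n • (⊤ : Submodule K M) ⊓ M'.comap M.subtype := by
      refine ⟨?_, hx.2⟩
      have h3 : x ∈ Submodule.map M.subtype (I ^ n • (⊤ : Submodule K M)) := by
        rw [Submodule.map_smul'', Submodule.map_top, Submodule.range_subtype]
        exact hx.1
      obtain ⟨y, hy, hyx⟩ := Submodule.mem_map.1 h3
      have : y = ⟨x, hxM⟩ := Subtype.ext hyx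
      rwa [this] at hy
    rw [hk n hn] at h2
    have h4 := Submodule.mem_map_of_mem (f := M.subtype) h2
    rw [Submodule.map_smul''] at h4
    have h5 : Submodule.map M.subtype (I ^ k • (⊤ : Submodule K M) ⊓ M'.comap M.subtype) ≤ M' := by
      rw [Submodule.map_le_iff_le_comap]
      exact inf_le_right
    exact smul_mono_right (I ^ (n - k)) h5 h4
  have e8 : ∀ n, I ^ n • (1 : Submodule K R) ≤ (H ⊔ b) ^ n := by
    intro n
    induction n with
    | zero =>
      rw [pow_zero, pow_zero, Ideal.one_eq_top, Submodule.top_smul]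
    | succ n ih =>
      rw [pow_succ (H ⊔ b), Submodule.smul_le]
      intro P hP y hy
      rw [pow_succ] at hP
      induction hP using Submodule.mul_induction_on' with
      | mem_mul_mem P hP Q hQ =>
        have h2 : (P * Q) • y = (P • (1 : R)) * (Q • y) := by
          rw [smul_mul_smul_comm, one_mul]
        rw [h2]
        refine Submodule.mul_mem_mul (ih (Submodule.smul_mem_smul hP (Submodule.one_le.1 le_rfl))) ?_
        obtain ⟨c, rfl⟩ := Submodule.mem_one.1 hy
        have h3 : Q • (algebraMap K R c) = c • algebraMap K R Q := by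
          rw [Algebra.algebraMap_eq_smul_one, Algebra.algebraMap_eq_smul_one, smul_smul, smul_smul,
            mul_comm]
        rw [h3]
        exact Submodule.smul_mem _ _ hQ
      | add P hP Q hQ h5 h6 =>
        rw [add_smul]
        exact Submodule.add_mem _ h5 h6
  have e9 : (H ⊔ b) ^ (K0 + c) ≤ H ^ K0 := by
    refine (sup_pow_le S H b hSS h1 hH hbS' hSH hHS hSb hbS K0 c hK0).trans ?_
    rw [hnil, sup_bot_eq]
  refine ⟨k + K0 + c + c, ?_⟩
  have f1 : H ^ (k + K0 + c + c) * M ≤ I ^ (k + K0 + c) • M := by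
    refine (k13_r (e6 (k + K0 + c) (by omega)) _).trans ?_
    have := k13_smul_mul (R := R) (I ^ (k + K0 + c)) ⊤ S M
    rw [Submodule.top_smul, Ideal.mul_top] at this
    exact this.trans (smul_mono_right _ hSM)
  have f2 : M' ⊓ H ^ (k + K0 + c + c) * M ≤ I ^ (K0 + c) • M' := by
    have h2 := e7 (k + K0 + c) (by omega)
    have h3 : k + K0 + c - k = K0 + c := by omega
    rw [h3] at h2
    refine le_trans ?_ h2
    exact le_inf (inf_le_right.trans f1) inf_le_left
  refine f2.trans ?_
  have f3 : I ^ (K0 + c) • M' ≤ (I ^ (K0 + c) • (1 : Submodule K R)) * M' := by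
    rw [Submodule.smul_le]
    intro P hP y hy
    have : P • y = (P • (1 : R)) * y := by rw [smul_mul_assoc, one_mul]
    rw [this]
    exact Submodule.mul_mem_mul (Submodule.smul_mem_smul hP (Submodule.one_le.1 le_rfl)) hy
  exact f3.trans (k13_r ((e8 _).trans e9) _)

end MP50e386N
end

section
/-! [N50 K21] averaging (Maschke). -/

namespace MP50e386N

theorem maschke_kill {G V : Type} [Group G] [Fintype G] [AddCommGroup V] [Module ℂ V]
    (ρ : Representation ℂ G V) (M M' : Submodule ℂ V) (hM : ∀ g, ∀ v ∈ M, ρ g v ∈ M)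
    (hM' : ∀ g, ∀ v ∈ M', ρ g v ∈ M') (hMM' : M ≤ M') (f : V) (hf : f ∈ M') :
    ∃ g ∈ M, ∀ c : G → ℂ, (∀ v ∈ M', ∑ x, c x • ρ x v ∈ M) → ∑ x, c x • ρ x (f - g) = 0 := by
  have _ := hM'
  obtain ⟨q, hq⟩ := LinearMap.exists_leftInverse_of_injective M.subtype (Submodule.ker_subtype M)
  have hq' : ∀ v (hv : v ∈ M), ((q v : M) : V) = v := by
    intro v hv
    have := LinearMap.congr_fun hq ⟨v, hv⟩
    rw [LinearMap.comp_apply, LinearMap.id_apply] at this
    exact congrArg Subtype.val this
  have hG : (Fintype.card G : ℂ) ≠ 0 := by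
    exact_mod_cast Fintype.card_ne_zero
  set p : V → V := fun v => (Fintype.card G : ℂ)⁻¹ • ∑ g : G, ρ g ((q (ρ g⁻¹ v) : M) : V) with hp
  have hpM : ∀ v, p v ∈ M := fun v =>
    M.smul_mem _ (M.sum_mem fun g _ => hM g _ (q (ρ g⁻¹ v)).2)
  have hpid : ∀ v ∈ M, p v = v := by
    intro v hv
    have e : ∀ g : G, ρ g ((q (ρ g⁻¹ v) : M) : V) = v := by
      intro g
      rw [hq' _ (hM g⁻¹ v hv)]
      exact Representation.self_inv_apply ρ g v
    simp only [hp]
    rw [Finset.sum_congr rfl fun g _ => e g, Finset.sum_const, Finset.card_univ,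
      ← Nat.cast_smul_eq_nsmul ℂ, smul_smul, inv_mul_cancel₀ hG, one_smul]
  have hpadd : ∀ v w, p (v + w) = p v + p w := by
    intro v w
    simp only [hp, map_add, Submodule.coe_add, Finset.sum_add_distrib, smul_add]
  have hpsmul : ∀ (a : ℂ) v, p (a • v) = a • p v := by
    intro a v
    simp only [hp, map_smul, Submodule.coe_smul]
    rw [← Finset.smul_sum, smul_comm]
  have hp0 : p 0 = 0 := by
    have := hpsmul 0 0
    rwa [zero_smul, zero_smul] at this
  have hpsum : ∀ (s : Finset G) (F : G → V), p (∑ x ∈ s, F x) = ∑ x ∈ s, p (F x) := by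
    intro s F
    induction s using Finset.cons_induction with
    | empty => rw [Finset.sum_empty, Finset.sum_empty, hp0]
    | cons a s ha ih => rw [Finset.sum_cons, Finset.sum_cons, hpadd, ih]
  have hpcomm : ∀ (h : G) v, p (ρ h v) = ρ h (p v) := by
    intro h v
    simp only [hp]
    rw [map_smul, map_sum]
    congr 1
    rw [← Equiv.sum_comp (Equiv.mulLeft h)]
    refine Finset.sum_congr rfl fun g _ => ?_
    have e1 : ρ (Equiv.mulLeft h g)⁻¹ (ρ h v) = ρ g⁻¹ v := by
      rw [Equiv.coe_mulLeft, ← Module.End.mul_apply, ← map_mul]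
      congr 2
      group
    rw [e1, Equiv.coe_mulLeft, map_mul, Module.End.mul_apply]
  refine ⟨p f, hpM f, ?_⟩
  intro c hc
  have h1 : f - p f ∈ M' := M'.sub_mem hf (hMM' (hpM f))
  have h2 := hpid _ (hc _ h1)
  rw [← h2, hpsum]
  apply Finset.sum_eq_zero
  intro x _
  have h3 : p (f - p f) = 0 := by
    have e : f - p f = f + (-1 : ℂ) • p f := by rw [neg_one_smul, sub_eq_add_neg]
    rw [e, hpadd, hpsmul, hpid _ (hpM f), neg_one_smul, add_neg_cancel]
  rw [hpsmul, hpcomm, h3, map_zero, smul_zero]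

end MP50e386N
end
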