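import Mathlib
import Pool.Agent.Lib.MP_50e386_al.B.Hd
import Pool.Agent.Lib.MP_50e386_al.B.Kc
import Pool.Agent.Lib.MP_50e386_al.B.Kb
import Pool.Agent.Lib.MP_50e386_al.B.La
import Pool.Agent.Lib.MP_50e386_al.B.Qa

section
/-! [N50 K27] vanishing of the values at degenerate forms. -/

namespace MP50e386N

open MvPolynomial MP50e386

/-- the evaluation of constants only depends on the form, not on the legs -/
private theorem k27_evF_C {E O T : Type} [Fintype E] [Fintype O] [Ring T] [Algebra ℂ T]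
    (S : SAlg E O ℂ T) (W W' : Form E O) (hbe : ∀ a a', W.be a a' = W'.be a a')
    (hze : ∀ b b', W.ze b b' = W'.ze b b') (g : MP50e386.A) :
    evF S W (C g) = evF S W' (C g) := by
  unfold evF
  rw [eval₂Hom_C, eval₂Hom_C]
  have h : ∀ i j, evx S W i j = evx S W' i j := by
    intro i j
    unfold evx
    simp only [hbe, hze]
  congr 2
  apply MvPolynomial.algHom_ext
  intro x
  rw [aeval_X, aeval_X]
  induction x using Sym2.ind with
  | _ i j =>
    simp only [Sym2.lift_mk]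
    exact Subtype.ext (h i j)

private theorem k27_isW_congr {E O : Type} [Fintype E] [Fintype O] [DecidableEq E] [DecidableEq O]
    {n : ℕ} (W W' : Form E O) (hbe : ∀ a a', W.be a a' = W'.be a a')
    (hze : ∀ b b', W.ze b b' = W'.ze b b') {f : MP50e386.A} {w : (Fin n → E ⊕ O) → ℂ}
    (hw : IsW n W (C f) w) : IsW n W' (C f) w := by
  intro T _ _ S φ
  have h := hw T S φ
  rw [lsub_C] at h ⊢
  rw [← k27_evF_C S W W' hbe hze]
  exact h

private theorem k27_C_mem_LL (f : MP50e386.A) (L : ℕ) : (C f : UA) ∈ LL L := by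
  intro m hm p hp
  have h0 : m = 0 := by
    by_contra hne
    rw [MvPolynomial.mem_support_iff, coeff_C, if_neg (fun h => hne h.symm)] at hm
    exact hm rfl
  subst h0
  simp at hp

private theorem k27_extd_val (n : ℕ) : extd (fun k : Fin n => (k : ℕ)) = id := by
  funext k
  unfold extd
  split_ifs <;> rfl

private theorem k27_lis_nodup {E O : Type} {n : ℕ} (τ : Fin n → E ⊕ O) :
    (lis τ (fun k => (k : ℕ))).Nodup := by
  unfold lis
  rw [List.nodup_ofFn]
  intro a b hab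
  exact Fin.ext (Prod.ext_iff.1 hab).2

private theorem k27_lis_perm {E O : Type} {n : ℕ} {τ τ' : Fin n → E ⊕ O}
    (h : (lis τ (fun k => (k : ℕ))).Perm (lis τ' (fun k => (k : ℕ)))) : τ = τ' := by
  funext k
  have h1 : (τ k, (k : ℕ)) ∈ lis τ (fun k => (k : ℕ)) := by
    unfold lis
    rw [List.mem_ofFn]
    exact ⟨k, rfl⟩
  have h2 := h.mem_iff.1 h1
  unfold lis at h2
  rw [List.mem_ofFn] at h2
  obtain ⟨j, hj⟩ := h2
  have h3 : j = k := Fin.ext (Prod.ext_iff.1 hj).2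
  subst h3
  exact (Prod.ext_iff.1 hj).1.symm

/-- the values of an element of `J_{r|s}` at the standard form are `0` -/
theorem isW_std_Jrs (r s : ℕ) {n : ℕ} {f : MP50e386.A} (hf : f ∈ Jrs r s)
    {w : (Fin n → (Fin r ⊕ Fin 0) ⊕ (Fin s ⊕ Fin s)) → ℂ}
    (hw : IsW n (stdW r 0 s) (C f) w) : w = 0 := by
  classical
  obtain ⟨T, _, _, S, hS⟩ := exists_SAlg_std r 0 s
  have h0 : evF S (stdW r 0 s) (C f) = 0 := by
    rw [hS _ (k27_C_mem_LL f 0)]
    intro m
    rw [coeff_C]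
    split_ifs
    · exact hf
    · exact Ideal.zero_mem _
  have h1 := hw T S (fun k => (k : ℕ))
  rw [k27_extd_val, lsub_id, h0] at h1
  funext τ₀
  have h2 := congrArg (S.coef (lis τ₀ (fun k => (k : ℕ)))) h1
  rw [map_sum, Finset.sum_eq_single τ₀] at h2
  · rw [map_smul] at h2
    have h3 : S.coef (lis τ₀ fun k => (k : ℕ)) (S.pp (lis τ₀ fun k => (k : ℕ))) = 1 :=
      S.coef_self _ (k27_lis_nodup τ₀)
    rw [h3] at h2
    simpa using h2.symm
  · intro τ _ hτ
    rw [map_smul]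
    have h3 : S.coef (lis τ₀ fun k => (k : ℕ)) (S.pp (lis τ fun k => (k : ℕ))) = 0 :=
      S.coef_ne _ _ (fun hp => hτ (k27_lis_perm hp).symm)
    rw [h3, smul_zero]
  · intro h
    exact absurd (Finset.mem_univ _) h

/-- a multilinear element with zero values at one nondegenerate form is in `J_{r|s}` -/
theorem mem_Jrs_of_w (r s : ℕ) {n : ℕ} {f : MP50e386.A} (hfU : (C f : UA) ∈ UL n)
    (W : Form (Fin r ⊕ Fin 0) (Fin s ⊕ Fin s)) (hb : (Matrix.of W.be).det ≠ 0)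
    (hz : (Matrix.of W.ze).det ≠ 0) (hw : IsW n W (C f) 0) : f ∈ Jrs r s := by
  classical
  obtain ⟨M, hM⟩ := symm_congr_one W.be W.be_symm hb
  obtain ⟨M', hM'⟩ := anti_congr_std s W.ze W.ze_anti hz
  have h1 := isW_pull W M M' hfU hw
  have h2 : IsW n (stdW r 0 s) (C f)
      (fun τ => ∑ τ', (∏ k, MM M M' (τ' k) (τ k)) * (0 : (Fin n → (Fin r ⊕ Fin 0) ⊕
        (Fin s ⊕ Fin s)) → ℂ) τ') := by
    refine k27_isW_congr (W.pull M M') (stdW r 0 s) ?_ ?_ h1
    · intro a a'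
      have := hM a a'
      change ∑ u, ∑ u', M u a * M u' a' * W.be u u' = _
      rw [this]
      rcases a with i | i
      · rcases a' with j | j
        · simp [stdW]
        · exact j.elim0
      · exact i.elim0
    · intro b b'
      have := hM' b b'
      change ∑ u, ∑ u', M' u b * M' u' b' * W.ze u u' = _
      rw [this]
      rfl
  obtain ⟨T, _, _, S, hS⟩ := exists_SAlg_std r 0 s
  have h3 := h2 T S (fun k => (k : ℕ))
  rw [k27_extd_val, lsub_id] at h3
  have h4 : evF S (stdW r 0 s) (C f) = 0 := by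
    apply Subtype.ext
    rw [h3]
    simp
  have h5 := (hS _ (k27_C_mem_LL f 0)).1 h4 0
  rw [coeff_C, if_pos rfl] at h5
  exact h5

/-- the main step for the degenerate forms -/
private theorem k27_zero_of_pull {r s r' s' n : ℕ} {f : MP50e386.A} (hf : f ∈ Jrs r' s')
    (hfU : (C f : UA) ∈ UL n) (W : Form (Fin r ⊕ Fin 0) (Fin s ⊕ Fin s))
    (M : Fin r' → Fin r ⊕ Fin 0 → ℂ) (hM : ∀ a a', W.be a a' = ∑ u, M u a * M u a')
    (M' : Fin s' ⊕ Fin s' → Fin s ⊕ Fin s → ℂ)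
    (hM' : ∀ b b', W.ze b b' = ∑ u, ∑ u', M' u b * M' u' b' * Jst s' u u')
    {w : (Fin n → (Fin r ⊕ Fin 0) ⊕ (Fin s ⊕ Fin s)) → ℂ}
    (hw : IsW n W (C f) w) : w = 0 := by
  classical
  obtain ⟨w', hw'⟩ := exists_isW (stdW r' 0 s') hfU
  have h0 : w' = 0 := isW_std_Jrs r' s' hf hw'
  subst h0
  have h1 := isW_pull (stdW r' 0 s')
    (fun (u : Fin r' ⊕ Fin 0) (a : Fin r ⊕ Fin 0) => Sum.elim (fun i => M i a)
      (fun j => j.elim0) u) M' hfU hw'
  have h2 : IsW n W (C f) 0 := by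
    have h3 := k27_isW_congr _ W ?_ ?_ h1
    · convert h3 using 1
      funext τ
      simp
    · intro a a'
      rw [hM]
      change ∑ u, ∑ u', _ * _ * (stdW r' 0 s').be u u' = _
      rw [Fintype.sum_sum_type]
      simp only [Fintype.sum_sum_type, Finset.univ_eq_empty, Finset.sum_empty, add_zero]
      refine Finset.sum_congr rfl fun u _ => ?_
      rw [Finset.sum_eq_single u]
      · simp [stdW]
      · intro u' _ hu'
        have : (stdW r' 0 s').be (Sum.inl u) (Sum.inl u') = 0 := by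
          simp [stdW, hu'.symm]
        rw [this, mul_zero]
      · intro h
        exact absurd (Finset.mem_univ _) h
    · intro b b'
      rw [hM']
      rfl
  exact isW_unique W hw h2

/-- values of elements of `J_{r-1|s}` at forms with degenerate even part -/
theorem w_zero_be (r s : ℕ) {n : ℕ} {f : MP50e386.A} (hf : f ∈ detIdeal r (s + 1))
    (hfU : (C f : UA) ∈ UL n) (W : Form (Fin r ⊕ Fin 0) (Fin s ⊕ Fin s))
    (hb : (Matrix.of W.be).det = 0) {w : (Fin n → (Fin r ⊕ Fin 0) ⊕ (Fin s ⊕ Fin s)) → ℂ}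
    (hw : IsW n W (C f) w) : w = 0 := by
  rcases r with _ | r
  · exfalso
    rw [Matrix.det_isEmpty] at hb
    exact one_ne_zero hb
  · rw [← hook] at hf
    obtain ⟨M, hM⟩ := symm_factor_low r (by simp) W.be W.be_symm hb
    obtain ⟨M', hM'⟩ := anti_factor_std s W.ze W.ze_anti
    exact k27_zero_of_pull hf hfU W M hM M' hM' hw

/-- values of elements of `J_{r|s-1}` at forms with degenerate odd part -/
theorem w_zero_ze (r s : ℕ) {n : ℕ} {f : MP50e386.A} (hf : f ∈ detIdeal (r + 1) s)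
    (hfU : (C f : UA) ∈ UL n) (W : Form (Fin r ⊕ Fin 0) (Fin s ⊕ Fin s))
    (hb : (Matrix.of W.ze).det = 0) {w : (Fin n → (Fin r ⊕ Fin 0) ⊕ (Fin s ⊕ Fin s)) → ℂ}
    (hw : IsW n W (C f) w) : w = 0 := by
  rcases s with _ | s
  · exfalso
    rw [Matrix.det_isEmpty] at hb
    exact one_ne_zero hb
  · rw [← hook] at hf
    obtain ⟨M, hM⟩ := symm_factor_full r (by simp) W.be W.be_symm
    obtain ⟨M', hM'⟩ := anti_factor s W.ze W.ze_anti hb
    exact k27_zero_of_pull hf hfU W M hM M' hM' hw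

end MP50e386N
end

section
/-! [N50 K30] a power of `F₀ = det X₀ det X₁` is in `Φ₀(I)`. -/

namespace MP50e386N

open MvPolynomial MP50e386

/-- the form of a point satisfying the relations -/
private noncomputable def k30_form {E O : Type} (x : (E × E) ⊕ (O × O) → ℂ)
    (h1 : ∀ a a', x (Sum.inl (a, a')) = x (Sum.inl (a', a)))
    (h2 : ∀ b b', x (Sum.inr (b, b')) = - x (Sum.inr (b', b))) : Form E O where
  be a a' := x (Sum.inl (a, a'))
  be_symm a a' := h1 a a'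
  ze b b' := x (Sum.inr (b, b'))
  ze_anti b b' := h2 b b'
  le _ _ := 0

private theorem k30_kev {E O : Type} (x : (E × E) ⊕ (O × O) → ℂ)
    (h1 : ∀ a a', x (Sum.inl (a, a')) = x (Sum.inl (a', a)))
    (h2 : ∀ b b', x (Sum.inr (b, b')) = - x (Sum.inr (b', b))) :
    kev (k30_form x h1 h2) = aeval x := by
  refine MvPolynomial.algHom_ext fun v => ?_
  rcases v with v | v
  · simp [kev, k30_form]
  · simp [kev, k30_form]

private theorem k30_kev_F0 {E O : Type} [Fintype E] [Fintype O] [DecidableEq E] [DecidableEq O]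
    (W : Form E O) :
    kev W (F0 E O) = (Matrix.of W.be).det * (Matrix.of W.ze).det := by
  unfold F0
  rw [map_mul, AlgHom.map_det, AlgHom.map_det]
  congr 2
  · ext a a'
    simp [kev]
  · ext a a'
    simp [kev]

/-- the Nullstellensatz step -/
private theorem k30_radical {E O : Type} [Fintype E] [Fintype O] [DecidableEq E] [DecidableEq O]
    (aI : Ideal (KK E O)) (hR : Rel E O ≤ aI)
    (h : ∀ W : Form E O, (∀ P ∈ aI, kev W P = 0) → kev W (F0 E O) = 0) :
    F0 E O ∈ aI.radical := by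
  rw [← MvPolynomial.vanishingIdeal_zeroLocus_eq_radical (K := ℂ), MvPolynomial.mem_vanishingIdeal_iff]
  intro x hx
  rw [MvPolynomial.mem_zeroLocus_iff] at hx
  have h1 : ∀ a a', x (Sum.inl (a, a')) = x (Sum.inl (a', a)) := by
    intro a a'
    have := hx _ (hR (Ideal.subset_span (Or.inl ⟨a, a', rfl⟩)))
    rw [map_sub, aeval_X, aeval_X] at this
    exact sub_eq_zero.1 this
  have h2 : ∀ b b', x (Sum.inr (b, b')) = - x (Sum.inr (b', b)) := by
    intro b b'
    have := hx _ (hR (Ideal.subset_span (Or.inr ⟨b, b', rfl⟩)))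
    rw [map_add, aeval_X, aeval_X] at this
    exact eq_neg_of_add_eq_zero_left this
  have h3 := h (k30_form x h1 h2) (fun P hP => by
    rw [k30_kev]
    exact hx P hP)
  rw [k30_kev] at h3
  exact h3

private theorem k30_Chi_pow {E O T : Type} [Fintype E] [Fintype O] [Ring T] [Algebra UA T]
    [Algebra ℂ T] (S : SAlg E O UA T) (m : ℕ) : Chi S 1 ^ m ≤ Chi S m := by
  induction m with
  | zero =>
    rw [pow_zero, Submodule.one_le]
    exact one_mem_Chi S
  | succ m ih =>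
    rw [pow_succ]
    exact (mul_le_mul' ih le_rfl).trans (Chi_mul S m 1)

theorem F0_pow_mem (r s : ℕ) {T : Type} [Ring T] [Algebra UA T] [Algebra ℂ T]
    [IsScalarTower ℂ UA T] (S : SAlg (Fin r ⊕ Fin 0) (Fin s ⊕ Fin s) UA T) (I : Ideal MP50e386.A)
    (hI : ∀ w : ℕ → MP50e386.V, ∀ f ∈ I, MP50e386.sub w f ∈ I) (hne : ¬ I ≤ Jrs r s) :
    ∃ Q : ℕ, (F0 (Fin r ⊕ Fin 0) (Fin s ⊕ Fin s)) ^ Q • (1 : TN S) ∈
      Chi S 0 ⊓ NTN S (IU I) := by
  classical
  have hJ : ∀ w : ℕ → MP50e386.V, ∀ f ∈ Jrs r s, MP50e386.sub w f ∈ Jrs r s := by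
    rw [hook]
    exact fun w => detIdeal_stable (r + 1) (s + 1) w
  -- a multilinear element of `I` not in `Jrs`
  obtain ⟨n, f, hfU, hfI, hfJ⟩ : ∃ (n : ℕ) (f : MP50e386.A), (C f : UA) ∈ UL n ∧ f ∈ I ∧
      f ∉ Jrs r s := by
    by_contra hcon
    push Not at hcon
    apply hne
    have h1 : IU I ≤ IU (Jrs r s) := by
      refine le_of_UL _ _ (IU_GLS _ hJ) (IU_GLS _ hI) ?_
      rintro n _ hf ⟨g, hg, rfl⟩
      exact ⟨g, hcon n g hf hg, rfl⟩
    intro g hg
    obtain ⟨g', hg', he⟩ := h1 ⟨g, hg, rfl⟩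
    have : g' = g := MvPolynomial.C_injective _ _ he
    rw [← this]
    exact hg'
  set H : Submodule (KK (Fin r ⊕ Fin 0) (Fin s ⊕ Fin s)) (TN S) := Chi S 0 ⊓ NTN S (IU I) with hH
  set aI : Ideal (KK (Fin r ⊕ Fin 0) (Fin s ⊕ Fin s)) :=
    Submodule.comap (LinearMap.toSpanSingleton _ (TN S) 1) (H ⊔ Chi S 1) with haI
  have haI_mem : ∀ P, P ∈ aI ↔ P • (1 : TN S) ∈ H ⊔ Chi S 1 := by
    intro P
    rw [haI, Submodule.mem_comap, LinearMap.toSpanSingleton_apply]
  have hRel : Rel (Fin r ⊕ Fin 0) (Fin s ⊕ Fin s) ≤ aI := by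
    intro P hP
    rw [haI_mem, Rel_smul S hP]
    exact Submodule.zero_mem _
  have hft : ∀ τ : Fin n → (Fin r ⊕ Fin 0) ⊕ (Fin s ⊕ Fin s), ft S τ (C f) ∈ H := by
    intro τ
    exact ⟨ft_C_mem_Chi S τ hfU, fun m => ft_mem_NT S (IU_GLS I hI) τ ⟨f, hfI, rfl⟩ m⟩
  have hrad := k30_radical aI hRel (by
    intro W hW
    by_contra h0
    rw [k30_kev_F0] at h0
    have hb := left_ne_zero_of_mul h0
    have hz := right_ne_zero_of_mul h0
    obtain ⟨w, hw⟩ := exists_isW W hfU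
    have hw0 : w ≠ 0 := by
      rintro rfl
      exact hfJ (mem_Jrs_of_w r s hfU W hb hz hw)
    apply hw0
    funext τ
    obtain ⟨P, hP1, hP2⟩ := redK S hfU τ
    have hPa : P ∈ aI := by
      rw [haI_mem]
      have h1 : ft S τ (C f) - (ft S τ (C f) - P • (1 : TN S)) ∈ H ⊔ Chi S 1 :=
        Submodule.sub_mem _ (Submodule.mem_sup_left (hft τ)) (Submodule.mem_sup_right hP1)
      rwa [sub_sub_cancel] at h1
    rw [← hP2 W w hw, hW P hPa, Pi.zero_apply])
  obtain ⟨q, hq⟩ := hrad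
  rw [haI_mem] at hq
  set c := Fintype.card (Fin r ⊕ Fin 0) * Fintype.card (Fin s ⊕ Fin s) with hc
  have h2 := sup_pow_le (Chi S 0) H (Chi S 1) (by simpa using Chi_mul S 0 0) (one_mem_Chi S)
    inf_le_left (Chi_anti S (Nat.zero_le 1))
    (le_inf ((mul_le_mul' le_rfl inf_le_left).trans (by simpa using Chi_mul S 0 0))
      ((mul_le_mul' le_rfl inf_le_right).trans (Chi_mul_NTN S _)))
    (le_inf ((mul_le_mul' inf_le_left le_rfl).trans (by simpa using Chi_mul S 0 0))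
      ((mul_le_mul' inf_le_right le_rfl).trans (NTN_mul_Chi S _)))
    (by simpa using Chi_mul S 0 1) (by simpa using Chi_mul S 1 0) 1 c le_rfl
  have h3 : Chi S 1 ^ (c + 1) = ⊥ := by
    rw [eq_bot_iff, ← Chi_eq_bot S]
    exact k30_Chi_pow S (c + 1)
  rw [h3, pow_one, sup_bot_eq] at h2
  refine ⟨q * (1 + c), ?_⟩
  have h4 := h2 (Submodule.pow_mem_pow _ hq (1 + c))
  rw [smul_pow, one_pow, ← pow_mul] at h4
  exact h4

end MP50e386N
end

section
/-! [N50 K22] (d3): the criterion. -/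

namespace MP50e386N

open MvPolynomial

private theorem k22_extd_mul {n : ℕ} (σ τ : Equiv.Perm (Fin n)) :
    (extd fun k => (σ k : ℕ)) ∘ (extd fun k => (τ k : ℕ)) = extd fun k => ((σ * τ) k : ℕ) := by
  funext k
  show extd _ (extd _ k) = extd _ k
  by_cases hk : k < n
  · have h1 : extd (fun k => (τ k : ℕ)) k = ((τ ⟨k, hk⟩ : Fin n) : ℕ) := by
      unfold extd
      rw [dif_pos hk]
    have h2 : extd (fun k => ((σ * τ) k : ℕ)) k = ((σ (τ ⟨k, hk⟩) : Fin n) : ℕ) := by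
      unfold extd
      rw [dif_pos hk]
      rfl
    rw [h1, h2]
    unfold extd
    rw [dif_pos (τ ⟨k, hk⟩).2]
  · have h1 : extd (fun k => (τ k : ℕ)) k = k := by
      unfold extd
      rw [dif_neg hk]
    have h2 : extd (fun k => ((σ * τ) k : ℕ)) k = k := by
      unfold extd
      rw [dif_neg hk]
    rw [h1, h2]
    unfold extd
    rw [dif_neg hk]

private theorem k22_extd_id (n : ℕ) : (extd fun k : Fin n => (k : ℕ)) = id := by
  funext k
  unfold extd
  split_ifs <;> rfl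

/-- the permutation action on polynomials -/
private noncomputable def k22_rep (n : ℕ) : Representation ℂ (Equiv.Perm (Fin n)) UA where
  toFun σ :=
    { toFun := fun f => lsub (extd fun k => (σ k : ℕ)) f
      map_add' := fun f g => map_add _ f g
      map_smul' := fun c f => lsub_smul _ c f }
  map_one' := by
    refine LinearMap.ext fun f => ?_
    show lsub (extd fun k => (((1 : Equiv.Perm (Fin n)) k : Fin n) : ℕ)) f = f
    have h : (extd fun k => (((1 : Equiv.Perm (Fin n)) k : Fin n) : ℕ)) = id := k22_extd_id n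
    rw [h, lsub_id]
  map_mul' σ τ := by
    refine LinearMap.ext fun f => ?_
    show lsub (extd fun k => ((σ * τ) k : ℕ)) f =
      lsub (extd fun k => (σ k : ℕ)) (lsub (extd fun k => (τ k : ℕ)) f)
    rw [lsub_lsub, k22_extd_mul]

private theorem k22_rep_apply (n : ℕ) (σ : Equiv.Perm (Fin n)) (f : UA) :
    k22_rep n σ f = lsub (extd fun k => (σ k : ℕ)) f := rfl

open Classical in
/-- coefficients of `eop` -/
private noncomputable def k22_c {E O : Type} {n : ℕ} (τ : Fin n → E ⊕ O)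
    (σ : Equiv.Perm (Fin n)) : ℂ := if τ ∘ σ = τ then (kap σ (par ∘ τ) : ℂ) else 0

private theorem k22_eop {E O : Type} {n : ℕ} (τ : Fin n → E ⊕ O) (f : UA) :
    ∑ σ : Equiv.Perm (Fin n), k22_c τ σ • k22_rep n σ f = eop τ f := by
  unfold eop
  rw [Finset.sum_filter]
  refine Finset.sum_congr rfl fun σ _ => ?_
  rw [k22_rep_apply]
  unfold k22_c
  by_cases h : τ ∘ σ = τ
  · rw [if_pos h, if_pos h, Int.cast_smul_eq_zsmul]
  · rw [if_neg h, if_neg h, zero_smul]

private theorem k22_eop_UL {E O : Type} {n : ℕ} (τ : Fin n → E ⊕ O) {f : UA} (hf : f ∈ UL n) :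
    eop τ f ∈ UL n := by
  unfold eop
  refine Submodule.sum_mem _ fun σ _ => ?_
  exact zsmul_mem (UL_perm hf σ) _

private theorem k22_coeff_mem (J : Ideal MP50e386.A) (L D : ℕ) (f : UA)
    (hf : f ∈ BD MP50e386.A L D) (h : ∀ m, coeff m f ∈ J) : f ∈ J • BD MP50e386.A L D := by
  rw [f.as_sum]
  refine Submodule.sum_mem _ fun m hm => ?_
  have e : monomial m (coeff m f) = coeff m f • (monomial m (1 : MP50e386.A)) := by
    rw [smul_monomial, smul_eq_mul, mul_one]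
  rw [e]
  refine Submodule.smul_mem_smul (h m) ?_
  unfold BD at hf ⊢
  rw [mem_restrictSupport_iff] at hf ⊢
  intro m' hm'
  have h1 : m' = m := by
    have := MvPolynomial.support_monomial_subset hm'
    rwa [Finset.mem_singleton] at this
  rw [h1]
  exact hf hm

/-- (d3) -/
theorem crit (r s L D : ℕ) (N N' : Submodule MP50e386.A UA) (hN : GLS N) (hN' : GLS N')
    (hJ : Jrs r s • BD MP50e386.A L D ≤ N) (hNN' : N ≤ N') (hN'D : N' ≤ BD MP50e386.A L D)
    (h : ∀ n, ∀ f ∈ UL n, f ∈ N' →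
      ∀ τ : Fin n → (Fin r ⊕ Fin L) ⊕ (Fin s ⊕ Fin s), eop τ f ∈ N) : N' ≤ N := by
  refine le_of_UL N N' hN hN' ?_
  intro n f hfU hfN'
  obtain ⟨g, hgM, hg⟩ := maschke_kill (k22_rep n) (N.restrictScalars ℂ ⊓ UL n)
    (N'.restrictScalars ℂ ⊓ UL n)
    (fun σ v hv => ⟨hN.lsub_mem _ hv.1, UL_perm hv.2 σ⟩)
    (fun σ v hv => ⟨hN'.lsub_mem _ hv.1, UL_perm hv.2 σ⟩)
    (fun v hv => ⟨hNN' hv.1, hv.2⟩) f ⟨hfN', hfU⟩
  have hgN : g ∈ N := hgM.1
  have hgU : g ∈ UL n := hgM.2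
  have hfgU : f - g ∈ UL n := Submodule.sub_mem _ hfU hgU
  have hfgN' : f - g ∈ N' := Submodule.sub_mem _ hfN' (hNN' hgN)
  have he : ∀ τ : Fin n → (Fin r ⊕ Fin L) ⊕ (Fin s ⊕ Fin s), eop τ (f - g) = 0 := by
    intro τ
    have h1 := hg (k22_c τ) (by
      intro v hv
      rw [k22_eop]
      exact ⟨h n v hv.2 hv.1 τ, k22_eop_UL τ hv.2⟩)
    rwa [k22_eop] at h1
  obtain ⟨w, hw⟩ := exists_isW (stdW r L s) hfgU
  have hw0 : ∀ τ, w τ = 0 := fun τ => w_eq_zero_of_eop (stdW r L s) hfgU hw τ (he τ)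
  obtain ⟨T, iR, iA, S, hS⟩ := exists_SAlg_std r L s
  have h2 := hw T S (fun k => (k : ℕ))
  rw [k22_extd_id, lsub_id] at h2
  have h3 : ((evF S (stdW r L s) (f - g) : Subalgebra.center ℂ T) : T) = 0 := by
    rw [h2]
    refine Finset.sum_eq_zero fun τ _ => ?_
    rw [hw0 τ, zero_smul]
  have h4 : evF S (stdW r L s) (f - g) = 0 := Subtype.ext h3
  have hBD := hN'D hfgN'
  have hLL : f - g ∈ LL L := by
    intro m hm p hp
    unfold BD at hBD
    rw [mem_restrictSupport_iff] at hBD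
    exact (hBD hm).1 p hp
  have h5 := (hS (f - g) hLL).1 h4
  have h6 : f - g ∈ N := hJ (k22_coeff_mem _ L D _ hBD h5)
  have h7 : f = (f - g) + g := (sub_add_cancel f g).symm
  rw [h7]
  exact Submodule.add_mem _ h6 hgN

end MP50e386N
end

section
/-! [N50 K17] the span of the super evaluations of a stable submodule. -/

namespace MP50e386N

open MvPolynomial

variable {E O T : Type} [Fintype E] [Fintype O] [Ring T] [Algebra UA T] [Algebra ℂ T]
  [IsScalarTower ℂ UA T] (S : SAlg E O UA T)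

/-- span of the `f_τ`, `f ∈ Y` multilinear -/
noncomputable def Psi (Y : Submodule MP50e386.A UA) : Submodule (KK E O) (TN S) :=
  Submodule.span (KK E O) {x | ∃ (n : ℕ) (τ : Fin n → E ⊕ O) (f : UA), f ∈ UL n ∧ f ∈ Y ∧
    x = ft S τ f}

theorem Psi_le_NTN (Y : Submodule MP50e386.A UA) (hY : GLS Y) : Psi S Y ≤ NTN S Y := by
  refine Submodule.span_le.2 ?_
  rintro x ⟨n, τ, f, -, hfY, rfl⟩
  exact (mem_NTN S).2 fun m => ft_mem_NT S hY τ hfY m

theorem Psi_le_SSD (Y : Submodule MP50e386.A UA) (L D : ℕ) (hYD : Y ≤ BD MP50e386.A L D) :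
    Psi S Y ≤ SSD S L D := by
  refine Submodule.span_le.2 ?_
  rintro x ⟨n, τ, f, hf, hfY, rfl⟩
  exact ft_mem_SSD S τ hf (hYD hfY)

theorem Psi_IU_le (h : Ideal MP50e386.A) : Psi S (IU h) ≤ Chi S 0 := by
  refine Submodule.span_le.2 ?_
  rintro x ⟨n, τ, f, hf, hfY, rfl⟩
  obtain ⟨g, -, rfl⟩ := hfY
  exact ft_C_mem_Chi S τ hf

private theorem k17_smul_mem (M : Submodule (KK E O) (TN S)) (c : ℂ) {x : TN S} (hx : x ∈ M) :
    c • x ∈ M := by
  have h1 : c • x = (C c : KK E O) • x := by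
    rw [Algebra.smul_def, Algebra.smul_def]
    congr 1
    change algebraMap ℂ (TN S) c = ((KH S (C c) : Subalgebra.center ℂ (TN S)) : TN S)
    have h2 : KH S (C c) = algebraMap ℂ (Subalgebra.center ℂ (TN S)) c := by
      unfold KH
      rw [aeval_C]
    rw [h2]
    rfl
  rw [h1]
  exact M.smul_mem _ hx

theorem Psi_smul (h : Ideal MP50e386.A) (Y : Submodule MP50e386.A UA)
    (hh : ∀ w : ℕ → MP50e386.V, ∀ f ∈ h, MP50e386.sub w f ∈ h) (hY : GLS Y) :
    Psi S (h • Y) ≤ Psi S (IU h) * Psi S Y := by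
  refine Submodule.span_le.2 ?_
  rintro x ⟨n, τ, f, hf, hfY, rfl⟩
  have hs := split_UL h Y hh hY n f hf hfY
  change ft S τ f ∈ Psi S (IU h) * Psi S Y
  clear hf hfY
  induction hs using Submodule.span_induction with
  | mem g hg =>
    obtain ⟨n₁, n₂, hn, u, v, σ, hu, huI, hv, hvY, rfl⟩ := hg
    subst hn
    rw [ft_perm S τ (UL_cat hu hv) σ]
    refine zsmul_mem ?_ _
    have h1 : (τ ∘ σ) = Fin.append (fun i => (τ ∘ σ) (Fin.castAdd n₂ i))
        (fun i => (τ ∘ σ) (Fin.natAdd n₁ i)) := (Fin.append_castAdd_natAdd).symm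
    rw [h1, ft_cat S _ _ hu hv]
    exact Submodule.mul_mem_mul (Submodule.subset_span ⟨n₁, _, u, hu, huI, rfl⟩)
      (Submodule.subset_span ⟨n₂, _, v, hv, hvY, rfl⟩)
  | zero =>
    have h0 := ft_smul S τ 0 (0 : UA)
    rw [zero_smul, zero_smul] at h0
    rw [h0]
    exact Submodule.zero_mem _
  | add a b _ _ ha hb =>
    rw [ft_add]
    exact Submodule.add_mem _ ha hb
  | smul c a _ ha =>
    rw [ft_smul]
    exact k17_smul_mem S _ c ha

private theorem k17_pow_GLS (h : Ideal MP50e386.A) (Y : Submodule MP50e386.A UA)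
    (hh : ∀ w : ℕ → MP50e386.V, ∀ f ∈ h, MP50e386.sub w f ∈ h) (hY : GLS Y) (K : ℕ) :
    GLS (h ^ K • Y) := by
  induction K with
  | zero =>
    rw [pow_zero, one_smul]
    exact hY
  | succ K ih =>
    rw [pow_succ', Submodule.mul_smul]
    exact smul_GLS h _ hh ih

theorem Psi_pow_smul (h : Ideal MP50e386.A) (Y : Submodule MP50e386.A UA)
    (hh : ∀ w : ℕ → MP50e386.V, ∀ f ∈ h, MP50e386.sub w f ∈ h) (hY : GLS Y) (K : ℕ) :
    Psi S (h ^ K • Y) ≤ Psi S (IU h) ^ K * Psi S Y := by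
  induction K with
  | zero => rw [pow_zero, one_smul, pow_zero, one_mul]
  | succ K ih =>
    rw [pow_succ', Submodule.mul_smul, pow_succ', mul_assoc]
    refine (Psi_smul S h _ hh (k17_pow_GLS h Y hh hY K)).trans ?_
    exact mul_le_mul_right ih _

end MP50e386N
end

section
/-! [N50 K29] KP5. -/

namespace MP50e386N

open MvPolynomial MP50e386

/-- stability of a product of stable ideals -/
private theorem k29_stab_mul {I I' : Ideal MP50e386.A}
    (hI : ∀ w : ℕ → MP50e386.V, ∀ f ∈ I, MP50e386.sub w f ∈ I)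
    (hI' : ∀ w : ℕ → MP50e386.V, ∀ f ∈ I', MP50e386.sub w f ∈ I') (w : ℕ → MP50e386.V) :
    ∀ f ∈ I * I', MP50e386.sub w f ∈ I * I' := by
  have h : I * I' ≤ (I * I').comap (MP50e386.sub w) := by
    rw [Ideal.mul_le]
    intro a ha b hb
    rw [Ideal.mem_comap, map_mul]
    exact Ideal.mul_mem_mul (hI w a ha) (hI' w b hb)
  exact fun f hf => h hf

private theorem k29_stab_pow {I : Ideal MP50e386.A}
    (hI : ∀ w : ℕ → MP50e386.V, ∀ f ∈ I, MP50e386.sub w f ∈ I) (K : ℕ) :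
    ∀ w : ℕ → MP50e386.V, ∀ f ∈ I ^ K, MP50e386.sub w f ∈ I ^ K := by
  induction K with
  | zero =>
    intro w f _
    rw [pow_zero, Ideal.one_eq_top]
    exact Submodule.mem_top
  | succ K ih =>
    rw [pow_succ]
    exact k29_stab_mul ih hI

private theorem k29_eop_mem {E O : Type} {N : Submodule MP50e386.A UA} (hN : GLS N) {n : ℕ}
    (τ : Fin n → E ⊕ O) {f : UA} (hf : f ∈ N) : eop τ f ∈ N := by
  unfold eop
  exact Submodule.sum_mem _ fun σ _ => zsmul_mem (hN _ f hf) _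

private theorem k29_eop_add {E O : Type} {n : ℕ} (τ : Fin n → E ⊕ O) (f g : UA) :
    eop τ (f + g) = eop τ f + eop τ g := by
  unfold eop
  rw [← Finset.sum_add_distrib]
  exact Finset.sum_congr rfl fun σ _ => by rw [map_add, smul_add]

private theorem k29_kev_F0 {E O : Type} [Fintype E] [Fintype O] [DecidableEq E] [DecidableEq O]
    (W : Form E O) :
    kev W (F0 E O) = (Matrix.of W.be).det * (Matrix.of W.ze).det := by
  unfold F0
  rw [map_mul, AlgHom.map_det, AlgHom.map_det]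
  congr 2
  · ext a a'
    simp [kev]
  · ext a a'
    simp [kev]

section alg

variable {K R : Type} [CommRing K] [Ring R] [Algebra K R]

private theorem k29_mul (I J : Ideal K) (M N : Submodule K R) :
    (I • M) * (J • N) ≤ (I * J) • (M * N) := by
  rw [Submodule.mul_le]
  intro x hx y hy
  refine Submodule.smul_induction_on hx (fun a ha m hm => ?_) (fun x x' h h' => ?_)
  · refine Submodule.smul_induction_on hy (fun b hb n hn => ?_) (fun y y' h h' => ?_)
    · rw [smul_mul_smul_comm]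
      exact Submodule.smul_mem_smul (Ideal.mul_mem_mul ha hb) (Submodule.mul_mem_mul hm hn)
    · rw [mul_add]
      exact Submodule.add_mem _ h h'
  · rw [add_mul]
    exact Submodule.add_mem _ h h'

private theorem k29_mul_left (J : Ideal K) (M N : Submodule K R) (h : M * N ≤ N) :
    M * (J • N) ≤ J • N := by
  have h1 := k29_mul (⊤ : Ideal K) J M N
  rw [Submodule.top_smul, Ideal.top_mul] at h1
  exact h1.trans (Submodule.smul_mono le_rfl h)

private theorem k29_mul_right (J : Ideal K) (M N : Submodule K R) (h : N * M ≤ N) :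
    (J • N) * M ≤ J • N := by
  have h1 := k29_mul J (⊤ : Ideal K) N M
  rw [Submodule.top_smul, Ideal.mul_top] at h1
  exact h1.trans (Submodule.smul_mono le_rfl h)

private theorem k29_pow (I : Ideal K) (M : Submodule K R) (h1 : (1 : R) ∈ M) (h : M * M ≤ M)
    (p : ℕ) : (I • M) ^ p ≤ I ^ p • M := by
  induction p with
  | zero =>
    rw [pow_zero, pow_zero, Ideal.one_eq_top, Submodule.top_smul]
    exact Submodule.one_le.2 h1
  | succ p ih =>
    rw [pow_succ, pow_succ]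
    exact (mul_le_mul' ih le_rfl).trans ((k29_mul _ _ _ _).trans (Submodule.smul_mono le_rfl h))

end alg

private theorem k29_chi_pow {E O T : Type} [Fintype E] [Fintype O] [Ring T] [Algebra UA T]
    [Algebra ℂ T] (S : SAlg E O UA T) (m : ℕ) : Chi S 1 ^ m ≤ Chi S m := by
  induction m with
  | zero =>
    rw [pow_zero, Submodule.one_le]
    exact one_mem_Chi S
  | succ m ih =>
    rw [pow_succ]
    exact (mul_le_mul' ih le_rfl).trans (Chi_mul S m 1)

private theorem k29_IU_mono {I I' : Ideal MP50e386.A} (h : I ≤ I') : IU I ≤ IU I' :=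
  Submodule.map_mono h

private theorem k29_smul_IU (I : Ideal MP50e386.A) : I • IU ⊤ = IU I := by
  unfold IU
  rw [← Submodule.map_smul'']
  congr 1
  rw [smul_eq_mul, Ideal.mul_top]

private theorem k29_le_of_IU {I I' : Ideal MP50e386.A} (h : IU I ≤ IU I') : I ≤ I' := by
  intro g hg
  obtain ⟨g', hg', he⟩ := h ⟨g, hg, rfl⟩
  have : g' = g := MvPolynomial.C_injective _ _ he
  rw [← this]
  exact hg'

theorem KP5' (r s : ℕ) (I : Ideal MP50e386.A)
    (hI : ∀ w : ℕ → MP50e386.V, ∀ f ∈ I, MP50e386.sub w f ∈ I)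
    (hJ : detIdeal (r + 1) (s + 1) ≤ I) (hne : I ≠ detIdeal (r + 1) (s + 1)) :
    ∃ q : ℕ, (detIdeal r (s + 1) * detIdeal (r + 1) s) ^ q ≤ I := by
  classical
  obtain ⟨T, _, _, _, _, ⟨S⟩⟩ := exists_SAlg (Fin r ⊕ Fin 0) (Fin s ⊕ Fin s) UA
  set h : Ideal MP50e386.A := detIdeal r (s + 1) * detIdeal (r + 1) s with hh
  have hst : ∀ w : ℕ → MP50e386.V, ∀ f ∈ h, MP50e386.sub w f ∈ h :=
    k29_stab_mul (detIdeal_stable _ _) (detIdeal_stable _ _)
  have hle1 : h ≤ detIdeal r (s + 1) := Ideal.mul_le_left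
  have hle2 : h ≤ detIdeal (r + 1) s := Ideal.mul_le_right
  have hnle : ¬ I ≤ Jrs r s := by
    rw [hook]
    exact fun hle => hne (le_antisymm hle hJ)
  obtain ⟨Q, hQ⟩ := F0_pow_mem r s S I hI hnle
  have hIG : GLS (IU I) := IU_GLS I hI
  set c := Fintype.card (Fin r ⊕ Fin 0) * Fintype.card (Fin s ⊕ Fin s) with hc
  set H : Submodule (KK (Fin r ⊕ Fin 0) (Fin s ⊕ Fin s)) (TN S) := Chi S 0 ⊓ NTN S (IU I) with hH
  have hCC : Chi S 0 * Chi S 0 ≤ Chi S 0 := by simpa using Chi_mul S 0 0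
  have hHC : H * Chi S 0 ≤ H :=
    le_inf ((mul_le_mul' inf_le_left le_rfl).trans hCC)
      ((mul_le_mul' inf_le_right le_rfl).trans (NTN_mul_Chi S _))
  -- the ideal of the polynomials vanishing at the degenerate forms
  let bb : Ideal (KK (Fin r ⊕ Fin 0) (Fin s ⊕ Fin s)) :=
    { carrier := {P | ∀ W : Form (Fin r ⊕ Fin 0) (Fin s ⊕ Fin s),
        kev W (F0 (Fin r ⊕ Fin 0) (Fin s ⊕ Fin s)) = 0 → kev W P = 0}
      add_mem' := fun {a b} ha hb W hW => by rw [map_add, ha W hW, hb W hW, add_zero]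
      zero_mem' := fun W _ => map_zero _
      smul_mem' := fun a b hb W hW => by rw [smul_eq_mul, map_mul, hb W hW, mul_zero] }
  obtain ⟨e, he⟩ := nullst bb (F0 (Fin r ⊕ Fin 0) (Fin s ⊕ Fin s)) (fun P hP => hP)
  have hPsi : Psi S (IU h) ≤ bb • Chi S 0 ⊔ Chi S 1 := by
    refine Submodule.span_le.2 ?_
    rintro x ⟨n, τ, _, hf, ⟨f, hfh, rfl⟩, rfl⟩
    have hf' : (C f : UA) ∈ UL n := hf
    obtain ⟨P, hP1, hP2⟩ := redK S hf' τ
    have hPb : P ∈ bb := by
      intro W hW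
      obtain ⟨w, hw⟩ := exists_isW W hf'
      have hw0 : w = 0 := by
        rw [k29_kev_F0] at hW
        rcases mul_eq_zero.1 hW with h0 | h0
        · exact w_zero_be r s (hle1 hfh) hf' W h0 hw
        · exact w_zero_ze r s (hle2 hfh) hf' W h0 hw
      rw [hP2 W w hw, hw0, Pi.zero_apply]
    have h1 : P • (1 : TN S) ∈ bb • Chi S 0 := Submodule.smul_mem_smul hPb (one_mem_Chi S)
    have h2 : P • (1 : TN S) + (ft S τ (C f) - P • (1 : TN S)) ∈ bb • Chi S 0 ⊔ Chi S 1 :=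
      Submodule.add_mem _ (Submodule.mem_sup_left h1) (Submodule.mem_sup_right hP1)
    rw [add_sub_cancel] at h2
    exact h2
  have hH' : (Ideal.span {F0 (Fin r ⊕ Fin 0) (Fin s ⊕ Fin s)} ^ Q ⊔
      Rel (Fin r ⊕ Fin 0) (Fin s ⊕ Fin s)) • Chi S 0 ≤ H := by
    rw [Submodule.smul_le]
    intro P hP x hx
    obtain ⟨a, ha, b, hb, rfl⟩ := Submodule.mem_sup.1 hP
    rw [Ideal.span_singleton_pow, Ideal.mem_span_singleton'] at ha
    obtain ⟨a', rfl⟩ := ha
    rw [add_smul, Rel_smul S hb, add_zero, mul_smul]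
    refine Submodule.smul_mem _ _ (hHC ?_)
    have h1 := Submodule.mul_mem_mul hQ hx
    rw [smul_mul_assoc, one_mul] at h1
    exact h1
  have hpow : Psi S (IU h) ^ (e * (Q + 1) + 1 + c) ≤ H := by
    have h1 := sup_pow_le (Chi S 0) (bb • Chi S 0) (Chi S 1) hCC (one_mem_Chi S)
      Submodule.smul_le_right (Chi_anti S (Nat.zero_le 1)) (k29_mul_left _ _ _ hCC)
      (k29_mul_right _ _ _ hCC) (by simpa using Chi_mul S 0 1) (by simpa using Chi_mul S 1 0)
      (e * (Q + 1) + 1) c (by omega)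
    have h3 : Chi S 1 ^ (c + 1) = ⊥ := by
      rw [eq_bot_iff, ← Chi_eq_bot S]
      exact k29_chi_pow S (c + 1)
    rw [h3, sup_bot_eq] at h1
    refine (pow_le_pow_left' hPsi _).trans (h1.trans ((k29_pow _ _ (one_mem_Chi S) hCC _).trans
      (le_trans (Submodule.smul_mono_left ?_) hH')))
    have h4 : bb ^ (e * (Q + 1) + 1) ≤ (bb ^ e) ^ (Q + 1) := by
      rw [← pow_mul]
      exact Ideal.pow_le_pow_right (Nat.le_succ _)
    refine h4.trans ((pow_le_pow_left' he _).trans ?_)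
    have h5 := Ideal.sup_pow_add_le_pow_sup_pow
      (I := Ideal.span {F0 (Fin r ⊕ Fin 0) (Fin s ⊕ Fin s)})
      (J := Rel (Fin r ⊕ Fin 0) (Fin s ⊕ Fin s)) (n := Q) (m := 1)
    rwa [pow_one] at h5
  set q := e * (Q + 1) + 1 + c with hq
  refine ⟨q, k29_le_of_IU (le_sup_left.trans (?_ : IU (h ^ q) ⊔ IU I ≤ IU I))⟩
  have hqG : GLS (IU (h ^ q)) := IU_GLS _ (k29_stab_pow hst q)
  have hTG : GLS (IU (⊤ : Ideal MP50e386.A)) := IU_GLS _ (fun _ _ _ => Submodule.mem_top)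
  have hB : BD MP50e386.A 0 0 = IU ⊤ := BD_zero
  refine crit r s 0 0 (IU I) (IU (h ^ q) ⊔ IU I) hIG (GLS.sup hqG hIG) ?_ le_sup_right ?_ ?_
  · rw [hB, k29_smul_IU, hook]
    exact k29_IU_mono hJ
  · rw [hB]
    exact sup_le (k29_IU_mono le_top) (k29_IU_mono le_top)
  · intro n f hf hfN τ
    obtain ⟨f1, f2, hf1, hf1h, hf2, hf2I, rfl⟩ := UL_sup _ _ hqG hIG n f hf hfN
    rw [k29_eop_add]
    refine Submodule.add_mem _ ?_ (k29_eop_mem hIG τ hf2I)
    have h1 : ft S τ f1 ∈ Psi S (h ^ q • IU ⊤) := by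
      rw [k29_smul_IU]
      exact Submodule.subset_span ⟨n, τ, f1, hf1, hf1h, rfl⟩
    have h2 : ft S τ f1 ∈ H := by
      refine hHC ?_
      exact (mul_le_mul' hpow (Psi_IU_le S ⊤)) (Psi_pow_smul S h (IU ⊤) hst hTG q h1)
    exact eop_mem S τ hf1 (h2.2 n)

end MP50e386N
end

section
/-! [N50 K23] KP6: ACC for stable submodules. -/

namespace MP50e386N

open MvPolynomial MP50e386

theorem KP6' (r s L D : ℕ) (N : ℕ → Submodule MP50e386.A (U MP50e386.A)) (hmono : Monotone N)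
    (hN : ∀ i, GLS (N i) ∧ detIdeal (r + 1) (s + 1) • BD MP50e386.A L D ≤ N i ∧
      N i ≤ BD MP50e386.A L D) : ∃ n0, ∀ n ≥ n0, N n = N n0 := by
  obtain ⟨T, _, _, _, _, ⟨S⟩⟩ := exists_SAlg (Fin r ⊕ Fin L) (Fin s ⊕ Fin s) UA
  have hfin : Module.Finite (KK (Fin r ⊕ Fin L) (Fin s ⊕ Fin s)) (SSD S L D) :=
    Module.Finite.iff_fg.2 (SSD_fg S L D)
  have hnoeth : IsNoetherian (KK (Fin r ⊕ Fin L) (Fin s ⊕ Fin s)) (SSD S L D) :=
    isNoetherian_of_isNoetherianRing_of_finite _ _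
  let Φ : ℕ →o Submodule (KK (Fin r ⊕ Fin L) (Fin s ⊕ Fin s)) (SSD S L D) :=
    ⟨fun i => (NTN S (N i)).comap (SSD S L D).subtype, fun i j hij =>
      Submodule.comap_mono (NTN_mono S (hmono hij))⟩
  obtain ⟨n0, hn0⟩ := monotone_stabilizes_iff_noetherian.2 hnoeth Φ
  refine ⟨n0, fun n hn => le_antisymm ?_ (hmono hn)⟩
  refine crit r s L D (N n0) (N n) (hN n0).1 (hN n).1 ?_ (hmono hn) (hN n).2.2 ?_
  · rw [hook]
    exact (hN n0).2.1
  · intro m f hf hfN τ
    refine eop_mem S τ hf ?_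
    have h1 : ft S τ f ∈ SSD S L D := ft_mem_SSD S τ hf ((hN n).2.2 hfN)
    have h2 : (⟨ft S τ f, h1⟩ : SSD S L D) ∈ Φ n := by
      change ft S τ f ∈ NTN S (N n)
      rw [mem_NTN]
      exact fun k => ft_mem_NT S (hN n).1 τ hfN k
    rw [← hn0 n hn] at h2
    have h3 : ft S τ f ∈ NTN S (N n0) := h2
    rw [mem_NTN] at h3
    exact h3 m

end MP50e386N
end

section
/-! [N50 K24] KP7: Artin-Rees for stable submodules. -/

namespace MP50e386N

open MvPolynomial MP50e386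

/-- stability of a product of stable ideals -/
private theorem k24_mul {I I' : Ideal MP50e386.A}
    (hI : ∀ w : ℕ → MP50e386.V, ∀ f ∈ I, MP50e386.sub w f ∈ I)
    (hI' : ∀ w : ℕ → MP50e386.V, ∀ f ∈ I', MP50e386.sub w f ∈ I') (w : ℕ → MP50e386.V) :
    ∀ f ∈ I * I', MP50e386.sub w f ∈ I * I' := by
  have h : I * I' ≤ (I * I').comap (MP50e386.sub w) := by
    rw [Ideal.mul_le]
    intro a ha b hb
    rw [Ideal.mem_comap, map_mul]
    exact Ideal.mul_mem_mul (hI w a ha) (hI' w b hb)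
  exact fun f hf => h hf

private theorem k24_pow {I : Ideal MP50e386.A}
    (hI : ∀ w : ℕ → MP50e386.V, ∀ f ∈ I, MP50e386.sub w f ∈ I) (K : ℕ) :
    ∀ w : ℕ → MP50e386.V, ∀ f ∈ I ^ K, MP50e386.sub w f ∈ I ^ K := by
  induction K with
  | zero =>
    intro w f _
    rw [pow_zero, Ideal.one_eq_top]
    exact Submodule.mem_top
  | succ K ih =>
    rw [pow_succ]
    exact k24_mul ih hI

private theorem k24_lsub_mem {N : Submodule MP50e386.A UA} (hN : GLS N) (φ : ℕ → ℕ) {f : UA}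
    (hf : f ∈ N) : lsub φ f ∈ N := hN _ f hf

private theorem k24_eop_mem {E O : Type} {N : Submodule MP50e386.A UA} (hN : GLS N) {n : ℕ}
    (τ : Fin n → E ⊕ O) {f : UA} (hf : f ∈ N) : eop τ f ∈ N := by
  unfold eop
  exact Submodule.sum_mem _ fun σ _ => zsmul_mem (k24_lsub_mem hN _ hf) _

private theorem k24_eop_add {E O : Type} {n : ℕ} (τ : Fin n → E ⊕ O) (f g : UA) :
    eop τ (f + g) = eop τ f + eop τ g := by
  unfold eop
  rw [← Finset.sum_add_distrib]
  exact Finset.sum_congr rfl fun σ _ => by rw [map_add, smul_add]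

section T

variable {E O T : Type} [Fintype E] [Fintype O] [Ring T] [Algebra UA T] [Algebra ℂ T]
  [IsScalarTower ℂ UA T] (S : SAlg E O UA T)

private theorem k24_chi_pow (k : ℕ) : Chi S 1 ^ k ≤ Chi S k := by
  induction k with
  | zero =>
    rw [pow_zero]
    exact Submodule.one_le.2 (one_mem_Chi S)
  | succ k ih =>
    rw [pow_succ]
    exact (mul_le_mul' ih le_rfl).trans (Chi_mul S k 1)

private theorem k24_pow_mul (h : Ideal MP50e386.A) (H M' : Submodule (KK E O) (TN S))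
    (N : Submodule MP50e386.A UA) (hH : H ≤ NTN S (IU h)) (hM' : M' ≤ NTN S N) (k : ℕ) :
    H ^ k * M' ≤ NTN S (h ^ k • N) := by
  induction k with
  | zero =>
    rw [pow_zero, one_mul, pow_zero, Ideal.one_eq_top, Submodule.top_smul]
    exact hM'
  | succ k ih =>
    rw [pow_succ', mul_assoc, pow_succ', Submodule.mul_smul]
    exact (mul_le_mul' hH ih).trans (NTN_mul S h (h ^ k • N))

end T

theorem KP7' (r s L D : ℕ) (N Y : Submodule MP50e386.A (U MP50e386.A)) (hN : GLS N) (hY : GLS Y)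
    (hNY : N ≤ Y) (hYD : Y ≤ BD MP50e386.A L D)
    (hJN : detIdeal (r + 1) (s + 1) • BD MP50e386.A L D ≤ N) (K : ℕ) :
    ∃ K' : ℕ, N ⊓ ((detIdeal r (s + 1) * detIdeal (r + 1) s) ^ K' • Y ⊔
        detIdeal (r + 1) (s + 1) • BD MP50e386.A L D) ≤
      (detIdeal r (s + 1) * detIdeal (r + 1) s) ^ K • N ⊔
        detIdeal (r + 1) (s + 1) • BD MP50e386.A L D := by
  obtain ⟨T, _, _, _, _, ⟨S⟩⟩ := exists_SAlg (Fin r ⊕ Fin L) (Fin s ⊕ Fin s) UA
  set J : Ideal MP50e386.A := detIdeal (r + 1) (s + 1) with hJ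
  set h : Ideal MP50e386.A := detIdeal r (s + 1) * detIdeal (r + 1) s with hh
  have hJst : ∀ w : ℕ → MP50e386.V, ∀ f ∈ J, MP50e386.sub w f ∈ J := detIdeal_stable _ _
  have hst : ∀ w : ℕ → MP50e386.V, ∀ f ∈ h, MP50e386.sub w f ∈ h :=
    k24_mul (detIdeal_stable _ _) (detIdeal_stable _ _)
  have hIU : GLS (IU h) := IU_GLS h hst
  have hJB : GLS (J • BD MP50e386.A L D) := smul_GLS J _ hJst (GLS_BD L D)
  -- the data of the abstract Artin-Rees lemma
  let H : Submodule (KK (Fin r ⊕ Fin L) (Fin s ⊕ Fin s)) (TN S) := Chi S 0 ⊓ NTN S (IU h)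
  let M : Submodule (KK (Fin r ⊕ Fin L) (Fin s ⊕ Fin s)) (TN S) := SSD S L D ⊓ NTN S Y
  let M' : Submodule (KK (Fin r ⊕ Fin L) (Fin s ⊕ Fin s)) (TN S) := SSD S L D ⊓ NTN S N
  have hChi0 : Chi S 0 * Chi S 0 ≤ Chi S 0 := Chi_mul S 0 0
  obtain ⟨K', hK'⟩ := ar_abs (Chi S 0) (Chi S 1) H M M'
    (Fintype.card (Fin r ⊕ Fin L) * Fintype.card (Fin s ⊕ Fin s)) (one_mem_Chi S) hChi0
    (Chi_zero_eq S) (by simpa using Chi_mul S 0 1) (Chi_mul S 1 0)
    (by
      refine le_antisymm ?_ bot_le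
      exact (k24_chi_pow S _).trans (le_of_eq (Chi_eq_bot S)))
    inf_le_left
    (le_inf ((mul_le_mul' le_rfl inf_le_left).trans hChi0)
      ((mul_le_mul' le_rfl inf_le_right).trans (Chi_mul_NTN S _)))
    (le_inf ((mul_le_mul' inf_le_left le_rfl).trans hChi0)
      ((mul_le_mul' inf_le_right le_rfl).trans (NTN_mul_Chi S _)))
    (Submodule.FG.of_le (SSD_fg S L D) inf_le_left)
    (inf_le_inf_left _ (NTN_mono S hNY))
    (le_inf ((mul_le_mul' le_rfl inf_le_left).trans (Chi_mul_SSD S L D))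
      ((mul_le_mul' le_rfl inf_le_right).trans (Chi_mul_NTN S _)))
    (le_inf ((mul_le_mul' le_rfl inf_le_left).trans (Chi_mul_SSD S L D))
      ((mul_le_mul' le_rfl inf_le_right).trans (Chi_mul_NTN S _))) K
  refine ⟨K', ?_⟩
  set N1 : Submodule MP50e386.A UA := h ^ K • N ⊔ J • BD MP50e386.A L D with hN1
  have hN1G : GLS N1 := GLS.sup (smul_GLS _ N (k24_pow hst K) hN) hJB
  have hAG : GLS (N ⊓ (h ^ K' • Y ⊔ J • BD MP50e386.A L D)) :=
    GLS.inf hN (GLS.sup (smul_GLS _ Y (k24_pow hst K') hY) hJB)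
  have hNB : N ≤ BD MP50e386.A L D := hNY.trans hYD
  have key := crit r s L D N1 (N ⊓ (h ^ K' • Y ⊔ J • BD MP50e386.A L D) ⊔ N1) hN1G
    (GLS.sup hAG hN1G) (by rw [hook]; exact le_sup_right) le_sup_right
    (sup_le (inf_le_left.trans hNB)
      (sup_le (Submodule.smul_le_right.trans hNB) Submodule.smul_le_right)) ?_
  · exact le_sup_left.trans key
  intro n f hf hfN τ
  obtain ⟨g, g', hg, hgA, hg', hgN', rfl⟩ := UL_sup _ _ hAG hN1G n f hf hfN
  rw [k24_eop_add]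
  refine Submodule.add_mem _ ?_ (k24_eop_mem hN1G τ hgN')
  obtain ⟨f1, f2, hf1, hf1Y, hf2, hf2J, rfl⟩ := UL_sup _ _
    (smul_GLS _ Y (k24_pow hst K') hY) hJB n g hg hgA.2
  rw [k24_eop_add]
  refine Submodule.add_mem _ ?_ (k24_eop_mem hN1G τ (Submodule.mem_sup_right hf2J))
  have hf1N : f1 ∈ N := by
    have h1 := Submodule.sub_mem _ hgA.1 (hJN hf2J)
    rwa [add_sub_cancel_right] at h1
  have hP : ∀ Y' : Submodule MP50e386.A UA, f1 ∈ Y' → ft S τ f1 ∈ Psi S Y' := fun Y' hY' =>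
    Submodule.subset_span ⟨n, τ, f1, hf1, hY', rfl⟩
  have h1 : ft S τ f1 ∈ H ^ K' * M := by
    have h2 := Psi_pow_smul S h Y hst hY K' (hP _ hf1Y)
    have h4 : Psi S (IU h) ≤ H := le_inf (Psi_IU_le S h) (Psi_le_NTN S _ hIU)
    have h5 : Psi S Y ≤ M := le_inf (Psi_le_SSD S Y L D hYD) (Psi_le_NTN S Y hY)
    have h6 : Psi S (IU h) ^ K' * Psi S Y ≤ H ^ K' * M :=
      mul_le_mul' (pow_le_pow_left' h4 K') h5
    exact h6 h2
  have h2 : ft S τ f1 ∈ M' := ⟨ft_mem_SSD S τ hf1 (hNB hf1N), Psi_le_NTN S N hN (hP _ hf1N)⟩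
  have h3 : ft S τ f1 ∈ NTN S (h ^ K • N) :=
    k24_pow_mul S h H M' N inf_le_right inf_le_right K (hK' ⟨h2, h1⟩)
  exact Submodule.mem_sup_left (eop_mem S τ hf1 (h3 n))

end MP50e386N
end

section
/-! Block K (super letters, paper section 3), statements over `A`. -/

namespace MP50e386N

open MvPolynomial Pool.Agent.Lib.MP50e386 MP50e386

theorem KP5 (r s : ℕ) (I : Ideal MP50e386.A)
    (hI : ∀ w : ℕ → MP50e386.V, ∀ f ∈ I, MP50e386.sub w f ∈ I)
    (hJ : detIdeal (r + 1) (s + 1) ≤ I) (hne : I ≠ detIdeal (r + 1) (s + 1)) :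
    ∃ q : ℕ, (detIdeal r (s + 1) * detIdeal (r + 1) s) ^ q ≤ I := KP5' r s I hI hJ hne

theorem KP6 (r s L D : ℕ) (N : ℕ → Submodule MP50e386.A (U MP50e386.A)) (hmono : Monotone N)
    (hN : ∀ i, GLS (N i) ∧ detIdeal (r + 1) (s + 1) • BD MP50e386.A L D ≤ N i ∧
      N i ≤ BD MP50e386.A L D) : ∃ n0, ∀ n ≥ n0, N n = N n0 := KP6' r s L D N hmono hN

theorem KP7 (r s L D : ℕ) (N Y : Submodule MP50e386.A (U MP50e386.A)) (hN : GLS N) (hY : GLS Y)
    (hNY : N ≤ Y) (hYD : Y ≤ BD MP50e386.A L D)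
    (hJN : detIdeal (r + 1) (s + 1) • BD MP50e386.A L D ≤ N) (K : ℕ) :
    ∃ K' : ℕ, N ⊓ ((detIdeal r (s + 1) * detIdeal (r + 1) s) ^ K' • Y ⊔
        detIdeal (r + 1) (s + 1) • BD MP50e386.A L D) ≤
      (detIdeal r (s + 1) * detIdeal (r + 1) s) ^ K • N ⊔
        detIdeal (r + 1) (s + 1) • BD MP50e386.A L D := KP7' r s L D N Y hN hY hNY hYD hJN K

end MP50e386N
end

section
/-! P5, P6, P7 for `R_{r|s}` from the statements over `A`. -/

namespace MP50e386N

open MvPolynomial Pool.Agent.Lib.MP50e386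

private theorem l2_GLSI_det (M N0 : ℕ) : GLSI (MP50e386.detIdeal M N0) := by
  intro φ f hf
  rw [sbR_eq_sub]
  exact MP50e386.detIdeal_stable M N0 φ f hf

private theorem l2_red_mem (J : Ideal MP50e386.A) {f : U MP50e386.A}
    (hf : f ∈ (J • ⊤ : Submodule MP50e386.A (U MP50e386.A))) (N : Submodule (MP50e386.A ⧸ J)
      (U (MP50e386.A ⧸ J))) : f ∈ pull J N := by
  show red J f ∈ N
  rw [(red_eq_zero J f).2 hf]
  exact N.zero_mem

private theorem l2_JBD_le (J : Ideal MP50e386.A) (L D : ℕ) (N : Submodule (MP50e386.A ⧸ J)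
      (U (MP50e386.A ⧸ J))) : J • BD MP50e386.A L D ≤ pull J N ⊓ BD MP50e386.A L D := by
  rw [J_smul_BD]
  exact fun f hf => ⟨l2_red_mem J hf.1 N, hf.2⟩

private theorem l2_lift (J a : Ideal MP50e386.A) (L D : ℕ) (Y : Submodule (MP50e386.A ⧸ J)
      (U (MP50e386.A ⧸ J))) (hY : Y ≤ BD (MP50e386.A ⧸ J) L D) (f : U (MP50e386.A ⧸ J))
    (hf : f ∈ Ideal.map (Ideal.Quotient.mk J) a • Y) :
    ∃ F ∈ a • (pull J Y ⊓ BD MP50e386.A L D), red J F = f := by
  refine Submodule.smul_induction_on hf ?_ ?_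
  · intro c hc y hy
    obtain ⟨b, hb, rfl⟩ := (Ideal.mem_map_iff_of_surjective _
      Ideal.Quotient.mk_surjective).1 hc
    obtain ⟨F, hF, hFy⟩ := exists_lift_BD J L D y (hY hy)
    refine ⟨b • F, Submodule.smul_mem_smul hb ⟨?_, hF⟩, ?_⟩
    · show red J F ∈ Y
      rw [hFy]
      exact hy
    · rw [red_smul, hFy]
  · rintro x y ⟨F, hF, rfl⟩ ⟨G, hG, rfl⟩
    exact ⟨F + G, Submodule.add_mem _ hF hG, map_add _ _ _⟩

private theorem l2_desc (J a : Ideal MP50e386.A) (L D : ℕ) (N : Submodule (MP50e386.A ⧸ J)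
      (U (MP50e386.A ⧸ J))) (F : U MP50e386.A)
    (hF : F ∈ a • (pull J N ⊓ BD MP50e386.A L D)) :
    red J F ∈ Ideal.map (Ideal.Quotient.mk J) a • N := by
  refine Submodule.smul_induction_on hF ?_ ?_
  · intro b hb G hG
    rw [red_smul]
    exact Submodule.smul_mem_smul (Ideal.mem_map_of_mem _ hb) hG.1
  · intro x y hx hy
    rw [map_add]
    exact Submodule.add_mem _ hx hy

theorem hrs_GLSI (r s : ℕ) : GLSI (hrs r s) := by
  intro φ f hf
  unfold hrs at hf ⊢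
  obtain ⟨a, ha, rfl⟩ := (Ideal.mem_map_iff_of_surjective _
    Ideal.Quotient.mk_surjective).1 hf
  rw [sbR_mk]
  exact Ideal.mem_map_of_mem _ ((l2_GLSI_det r (s + 1)).mul (l2_GLSI_det (r + 1) s) φ a ha)

theorem Rrs_P5 (r s : ℕ) (I : Ideal (Rrs r s)) (hI : GLSI I) (hne : I ≠ ⊥) :
    ∃ q, hrs r s ^ q ≤ I := by
  set J := MP50e386.detIdeal (r + 1) (s + 1) with hJ
  have hsurj : Function.Surjective (Ideal.Quotient.mk J) := Ideal.Quotient.mk_surjective
  obtain ⟨q, hq⟩ := KP5 r s (I.comap (Ideal.Quotient.mk J)) (by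
    intro w f hf
    rw [Ideal.mem_comap] at hf ⊢
    have h1 := hI w _ hf
    have h2 : sbR w (Ideal.Quotient.mk J f) = Ideal.Quotient.mk J (sbR w f) := sbR_mk J w f
    rw [h2, sbR_eq_sub] at h1
    exact h1) (by
    intro f hf
    rw [Ideal.mem_comap, Ideal.Quotient.eq_zero_iff_mem.2 hf]
    exact I.zero_mem) (by
    intro h
    apply hne
    rw [← Ideal.map_comap_of_surjective _ hsurj I, h]
    exact Ideal.map_quotient_self J)
  refine ⟨q, ?_⟩
  unfold hrs
  rw [← Ideal.map_pow, ← Ideal.map_comap_of_surjective _ hsurj I]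
  exact Ideal.map_mono hq

theorem Rrs_P6 (r s L D : ℕ) : NoethInt (R := Rrs r s) GLS ⊥ (BD (Rrs r s) L D) := by
  intro N hmono hN
  obtain ⟨n0, hn0⟩ := KP6 r s L D
    (fun i => pull (MP50e386.detIdeal (r + 1) (s + 1)) (N i) ⊓ BD MP50e386.A L D) (by
      intro i j hij f hf
      exact ⟨hmono hij hf.1, hf.2⟩) (by
      intro i
      exact ⟨(GLS_pull _ (hN i).1).inf (GLS_BD L D), l2_JBD_le _ L D (N i), inf_le_right⟩)
  refine ⟨n0, fun n hn => ?_⟩
  have h1 := hn0 n hn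
  apply le_antisymm
  · exact pull_inj_BD _ L D (hN n).2.2 (hN n0).2.2 h1.le
  · exact pull_inj_BD _ L D (hN n0).2.2 (hN n).2.2 h1.ge

theorem Rrs_P7 (r s L D : ℕ) (N Y : Submodule (Rrs r s) (U (Rrs r s))) (hN : GLS N) (hY : GLS Y)
    (hNY : N ≤ Y) (hYD : Y ≤ BD (Rrs r s) L D) : AR (hrs r s) N Y := by
  intro K
  set J := MP50e386.detIdeal (r + 1) (s + 1) with hJ
  obtain ⟨K', hK'⟩ := KP7 r s L D (pull J N ⊓ BD MP50e386.A L D) (pull J Y ⊓ BD MP50e386.A L D)
    ((GLS_pull _ hN).inf (GLS_BD L D)) ((GLS_pull _ hY).inf (GLS_BD L D))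
    (fun f hf => ⟨hNY hf.1, hf.2⟩) inf_le_right (l2_JBD_le _ L D N) K
  refine ⟨K', ?_⟩
  rintro f ⟨hfN, hfY⟩
  unfold hrs at hfY ⊢
  rw [← Ideal.map_pow] at hfY ⊢
  obtain ⟨F, hF, rfl⟩ := l2_lift J _ L D Y hYD f hfY
  have hFBD : F ∈ BD MP50e386.A L D :=
    (Submodule.smul_le_right.trans (inf_le_right : pull J Y ⊓ BD MP50e386.A L D ≤ _)) hF
  have h1 := hK' ⟨⟨hfN, hFBD⟩, Submodule.mem_sup_left hF⟩
  obtain ⟨F1, hF1, F2, hF2, hsum⟩ := Submodule.mem_sup.1 h1
  rw [← hsum, map_add]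
  have h2 : red J F2 = 0 := by
    rw [red_eq_zero]
    rw [J_smul_BD] at hF2
    exact hF2.1
  rw [h2, add_zero]
  exact l2_desc J _ L D N F1 hF1

end MP50e386N
end

section
/-! P1-P4 for `R_{r|s}`. -/

namespace MP50e386N

open MvPolynomial Pool.Agent.Lib.MP50e386

theorem Rrs_P1 (r s : ℕ) : HP1 (Rrs r s) r s := by
  intro w
  rw [Dl_mk, ← map_pow, Ideal.Quotient.eq_zero_iff_mem]
  exact Ideal.subset_span ⟨w, rfl⟩

theorem Rrs_P2 (r s : ℕ) : HP2 (Rrs r s) r := by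
  intro v hv
  have key : ∀ x : Rrs r s, (Dl v : Rrs r s) * x = 0 → x = 0 := by
    intro x hx
    obtain ⟨f, rfl⟩ := Ideal.Quotient.mk_surjective x
    rw [Dl_mk, ← map_mul, Ideal.Quotient.eq_zero_iff_mem, ← hook] at hx
    rw [Ideal.Quotient.eq_zero_iff_mem, ← hook]
    exact Dl_nonzeroDiv r s v hv f hx
  rw [mem_nonZeroDivisors_iff]
  exact ⟨key, fun x hx => key x (by rw [mul_comm]; exact hx)⟩

private theorem l3_det {r : ℕ} (v : Fin r → ℕ) (J : Ideal MP50e386.A) [GLIdeal J] :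
    (Dl (fun i => ee (v i)) : MP50e386.A ⧸ J) = Ideal.Quotient.mk J
      (Matrix.det (Matrix.of fun a b : Fin r => (X s(v a, v b) : MP50e386.A))) := by
  rw [Dl_mk]
  congr 2
  apply Matrix.ext
  intro a b
  exact MP50e386.bil_ee (v a) (v b)

private theorem l3_snoc {r : ℕ} (v : Fin r → ℕ) (c : ℕ) :
    (Fin.snoc (fun i => ee (v i)) (ee c) : Fin (r + 1) → V) =
      fun i => ee ((Fin.snoc v c : Fin (r + 1) → ℕ) i) := by
  funext i
  refine Fin.lastCases ?_ (fun j => ?_) i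
  · rw [Fin.snoc_last, Fin.snoc_last]
  · rw [Fin.snoc_castSucc, Fin.snoc_castSucc]

theorem Rrs_P3 (r s D k q : ℕ) (v : Fin D → Fin r → ℕ) (c : Fin D → Fin k → ℕ)
    (h : Function.Injective (fun p : Fin D × (Fin r ⊕ Fin k) => Sum.elim (v p.1) (c p.1) p.2)) :
    (∏ d, hh s q (fun i => ee (v d i)) (fun j => ee (c d j)) : Rrs r s) ≠ 0 := by
  have h1 := hh_not_mem_Jrs r s D k q v c h
  rw [hook, ← Ideal.Quotient.eq_zero_iff_mem, map_prod] at h1
  intro h2
  apply h1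
  rw [← h2]
  refine Finset.prod_congr rfl fun d _ => ?_
  unfold hh Ek Dl1
  rw [map_mul, map_prod, map_pow, l3_det]
  congr 1
  refine Finset.prod_congr rfl fun j _ => ?_
  rw [map_pow, l3_snoc, l3_det]

theorem Rrs_P4 (r s a : ℕ) : ∃ k q : ℕ, ∀ (v : Fin r → V) (c : Fin k → V),
    hh s q v c ∈ hrs r s ^ a := by
  refine ⟨a, (s + 1) * a, fun v c => ?_⟩
  have h1 : (hh s ((s + 1) * a) v c : Rrs r s) =
      ∏ j : Fin a, (Dl v ^ (s + 1) * (Dl1 v (c j)) ^ s) := by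
    unfold hh Ek
    rw [Finset.prod_mul_distrib, Finset.prod_const, Finset.card_univ, Fintype.card_fin, ← pow_mul,
      mul_comm]
  have h2 : ∀ j ∈ (Finset.univ : Finset (Fin a)),
      (Dl v ^ (s + 1) * (Dl1 v (c j)) ^ s : Rrs r s) ∈ hrs r s := by
    intro j _
    unfold Dl1 hrs
    rw [Dl_mk, Dl_mk, ← map_pow, ← map_pow, ← map_mul]
    exact Ideal.mem_map_of_mem _ (Ideal.mul_mem_mul (Ideal.subset_span ⟨v, rfl⟩)
      (Ideal.subset_span ⟨_, rfl⟩))
  have h3 := Ideal.prod_mem_prod h2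
  rw [Finset.prod_const, Finset.card_univ, Fintype.card_fin, ← h1] at h3
  exact h3

end MP50e386N
end
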