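import Mathlib
import Pool.Agent.Lib.MP_50e386_al.B.Ta

section
/-!
Definitions for the proof that `Sym(Sym^2(ℂ^∞))` is `O_∞`-noetherian, for the split symmetric form
`om(e_{2k}, e_{2k+1}) = om(e_{2k+1}, e_{2k}) = 1` (paper: MP_50e386_Q1_paper.md).
-/

namespace MP50e386O

open MvPolynomial Pool.Agent.Lib.MP50e386 MP50e386N

/-- the split symmetric form `∑_k (x_(2k) y_(2k+1) + x_(2k+1) y_(2k))` -/
noncomputable def osf (x y : Cinf) : ℂ :=
  x.sum fun i a => if Even i then a * y (i + 1) else a * y (i - 1)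

/-- the split symmetric form -/
noncomputable abbrev om (u v : V) : ℂ := osf u v

/-- `g` lies in `GL_∞` and preserves the split symmetric form -/
def IsSo (g : Cinf ≃ₗ[ℂ] Cinf) : Prop :=
  IsGL g ∧ ∀ x y, osf (g x) (g y) = osf x y

variable {R : Type} [CommRing R] [Algebra ℂ R] [GLRing R]

/-- stable under `ℂ^* · O_∞` (split form) -/
def GS (N : Submodule R (U R)) : Prop :=
  ∀ g : Cinf ≃ₗ[ℂ] Cinf, IsSo g → ∀ c : ℂ, c ≠ 0 → ∀ f ∈ N, sbC (fun i => c • g (ee i)) f ∈ N

/-- the same for ideals of `R` -/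
def GSI (I : Ideal R) : Prop :=
  ∀ g : Cinf ≃ₗ[ℂ] Cinf, IsSo g → ∀ c : ℂ, c ≠ 0 → ∀ f ∈ I, sbR (fun i => c • g (ee i)) f ∈ I

/-- the contraction of the slots `a` and `b` -/
noncomputable def tr (a b : ℕ) : U R →ₗ[R] U R :=
  (basisMonomials (ℕ × ℕ) R).constr R (fun m => ∑ p ∈ m.support, ∑ q ∈ m.support,
    if p.1 = a ∧ q.1 = b then
      (algebraMap ℂ R (om (ee p.2) (ee q.2))) • pderiv p (pderiv q (monomial m (1 : R))) else 0)

/-- a family of vectors is isotropic -/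
def Iso {ι : Type} (φ : ι → V) : Prop := ∀ i j, om (φ i) (φ j) = 0

/-- `nn(M₁)` -/
noncomputable def nn (M : Submodule R (U R)) : Submodule R (U R) :=
  Submodule.span R {f | ∃ φ : ℕ → V, Iso φ ∧ ∃ g ∈ M, f = sbC φ g}

/-- The package `Pkg(R,r,s,h)`. -/
structure Pkg (R : Type) [CommRing R] [Algebra ℂ R] [GLRing R] (r s : ℕ) (h : Ideal R) : Prop where
  gl : GLSI h
  p1 : ∀ w : Fin (r + 1) → V, (Dl w : R) ^ (s + 1) = 0
  p2 : ∀ v : Fin r → V, LinearIndependent ℂ v → (Dl v : R) ∈ nonZeroDivisors R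
  p3 : ∀ (D k q : ℕ) (v : Fin D → Fin r → ℕ) (c : Fin D → Fin k → ℕ),
    Function.Injective (fun p : Fin D × (Fin r ⊕ Fin k) => Sum.elim (v p.1) (c p.1) p.2) →
    (∏ d, hh s q (fun i => ee (v d i)) (fun j => ee (c d j)) : R) ≠ 0
  p4 : ∀ a : ℕ, ∃ k q : ℕ, ∀ (v : Fin r → V) (c : Fin k → V), hh s q v c ∈ h ^ a
  p5 : ∀ I : Ideal R, GLSI I → I ≠ ⊥ → ∃ q, h ^ q ≤ I
  p6 : ∀ L D, NoethInt (R := R) GLS ⊥ (BD R L D)
  p7 : ∀ L D, ∀ N Y : Submodule R (U R), GLS N → GLS Y → N ≤ Y → Y ≤ BD R L D → AR h N Y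
  p8 : ∀ L D, ∀ Y : Submodule R (U R), GLS Y → Y ≤ BD R L D → NoethInt GS (h • Y) Y

/-- `M₁(N)` -/
noncomputable def M1 (S : Finset ℕ) (N : Submodule R (U R)) : Submodule R (U R) where
  carrier := {f | f ∈ MS R S ∧ ∀ φ : ℕ → V, Iso φ → sbC φ f ∈ N}
  zero_mem' := ⟨Submodule.zero_mem _, fun φ _ => by rw [map_zero]; exact Submodule.zero_mem _⟩
  add_mem' := by
    rintro a b ⟨ha, ha'⟩ ⟨hb, hb'⟩
    refine ⟨Submodule.add_mem _ ha hb, fun φ hφ => ?_⟩
    rw [map_add]
    exact Submodule.add_mem _ (ha' φ hφ) (hb' φ hφ)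
  smul_mem' := by
    rintro c a ⟨ha, ha'⟩
    refine ⟨Submodule.smul_mem _ c ha, fun φ hφ => ?_⟩
    rw [sbC_smul]
    exact Submodule.smul_mem _ _ (ha' φ hφ)

/-- all traces vanish -/
def TrZ (S : Finset ℕ) (f : U R) : Prop := ∀ a ∈ S, ∀ b ∈ S, a ≠ b → tr a b f = 0

/-- property (F) of paper 5.4 -/
def FProp (r s k q n D : ℕ) (S : Finset ℕ) (M : Submodule R (U R)) : Prop :=
  ∀ Z : Set ℕ, Z.Finite → (∀ z ∈ Z, 2 * n ≤ z) → (∀ z ∈ Z, ∀ z' ∈ Z, om (ee z) (ee z') = 0) →
    ∀ f ∈ M, TrZ S f → f ∈ LT R (Set.Iio (2 * n) ∪ Z) → TD n D f →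
      ∀ (u : Fin r → V) (b : Fin k → V), Iso (Sum.elim u b) →
        (∀ i, ∀ z ∈ Set.Iio (2 * n) ∪ Z, om (Sum.elim u b i) (ee z) = 0) →
        (hh s q u b : R) • f ∈ nn M

/-- the auxiliary vectors of claim 0: `u` and the hyperbolic pairs `p a b, q a b` -/
structure Aux (r n : ℕ) (Z : Set ℕ) (u : Fin r → V) (p q : ℕ → ℕ → V) : Prop where
  uu : ∀ i j, om (u i) (u j) = 0
  uT : ∀ i, ∀ k ∈ Set.Iio (2 * n) ∪ Z, om (u i) (ee k) = 0
  up : ∀ i a b, om (u i) (p a b) = 0
  uq : ∀ i a b, om (u i) (q a b) = 0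
  pT : ∀ a b, ∀ k ∈ Set.Iio (2 * n) ∪ Z, om (p a b) (ee k) = 0
  qT : ∀ a b, ∀ k ∈ Set.Iio (2 * n) ∪ Z, om (q a b) (ee k) = 0
  pp : ∀ a b a' b', om (p a b) (p a' b') = 0
  qq : ∀ a b a' b', om (q a b) (q a' b') = 0
  pq : ∀ a b a' b', om (p a b) (q a' b') = if a = a' ∧ b = b' then 1 else 0

/-- iterated kernels of traces -/
noncomputable def kerL (l : List (ℕ × ℕ)) (N : Submodule R (U R)) : Submodule R (U R) :=
  l.foldr (fun p N' => N' ⊓ LinearMap.ker (tr p.1 p.2)) N

/-- `M₂`: the elements of `M` killed by all traces -/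
noncomputable def M2 (S : Finset ℕ) (M : Submodule R (U R)) : Submodule R (U R) :=
  kerL S.offDiag.toList M

/-- the statement `Claim(S)` of the main step -/
def ClaimS (h : Ideal R) (S : Finset ℕ) : Prop :=
  (∀ N : Submodule R (U R), GS N → N ≤ MS R S → ∀ n, Good h n N) ∧
    NoethInt (R := R) GS ⊥ (MS R S)

/-- chains of `GS` submodules of `MS S` containing `J • MS S` are eventually constant -/
def NI (J : Ideal MP50e386.A) : Prop :=
  ∀ S : Finset ℕ, NoethInt (R := MP50e386.A) GS (J • MS MP50e386.A S) (MS MP50e386.A S)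

end MP50e386O
end

section
/-! The split symmetric form in the general setting of `Witt.lean`; stability lemmas. -/

namespace MP50e386O

open MvPolynomial Pool.Agent.Lib.MP50e386 MP50e386N
open _root_.MP50e386 (frm pis gam GData TwoStep FN jN)

/-- the signs of the split symmetric form -/
noncomputable def sio (_ : ℕ) : ℂ := 1

theorem gdata_so : GData pis sio 1 where
  inv := _root_.MP50e386.gdata_sp.inv
  shift := _root_.MP50e386.gdata_sp.shift
  small0 := _root_.MP50e386.gdata_sp.small0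
  small1 := _root_.MP50e386.gdata_sp.small1
  sne _ := one_ne_zero
  sshift _ := rfl
  sym _ := by simp [sio]
  eps := Or.inl rfl

theorem osf_eq (x y : V) : osf x y = frm pis sio x y := by
  rw [_root_.MP50e386.frm_sum]
  unfold osf
  apply Finsupp.sum_congr
  intro i _
  unfold pis sio
  split_ifs
  · ring
  · ring

theorem osf_comm (x y : V) : osf x y = osf y x := by
  have h := _root_.MP50e386.frm_refl_eps gdata_so x y
  rw [one_mul] at h
  rw [osf_eq, osf_eq]
  exact h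

/-- the letters are isotropic -/
theorem osf_self (k : ℕ) : osf (Finsupp.single k 1) (Finsupp.single k 1) = 0 := by
  unfold osf
  rw [Finsupp.sum_single_index]
  · split_ifs with h
    · rw [Finsupp.single_eq_of_ne (by omega), mul_zero]
    · have : k ≠ 0 := by
        rintro rfl
        exact h Even.zero
      rw [Finsupp.single_eq_of_ne (by omega), mul_zero]
  · split_ifs <;> simp

theorem FN_symm' (N : ℕ) : (FN pis sio N).IsSymm := by
  constructor
  intro x y
  have h1 := _root_.MP50e386.frm_refl_eps gdata_so (jN N x) (jN N y)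
  rw [one_mul] at h1
  exact h1

theorem twoStep_split {W : Type} [AddCommGroup W] [Module ℂ W] [FiniteDimensional ℂ W]
    (F : LinearMap.BilinForm ℂ W) (hF : F.IsSymm) : TwoStep F (gam pis sio) := by
  have h1 : TwoStep F (fun i j => if i = j then 1 else 0) := by
    apply _root_.MP50e386.twoStep_symm
    · exact hF
    · simp
    · simp
    · simp
    · simp
  intro S hS
  obtain ⟨x, hx, y, hy, h00, h01, h10, h11⟩ := h1 S hS
  simp only [if_true, zero_ne_one, one_ne_zero, if_false] at h00 h01 h10 h11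
  have hI : Complex.I * Complex.I = -1 := Complex.I_mul_I
  refine ⟨x + Complex.I • y, S.add_mem hx (S.smul_mem _ hy),
    (2⁻¹ : ℂ) • (x - Complex.I • y), S.smul_mem _ (S.sub_mem hx (S.smul_mem _ hy)), ?_, ?_, ?_, ?_⟩
  · simp only [map_add, map_smul, LinearMap.add_apply, LinearMap.smul_apply, smul_eq_mul, h00, h01,
      h10, h11]
    rw [show gam pis sio 0 0 = 0 by simp [gam, pis]]
    linear_combination hI
  · simp only [map_add, map_sub, map_smul, LinearMap.add_apply, LinearMap.smul_apply, smul_eq_mul,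
      h00, h01, h10, h11]
    rw [show gam pis sio 0 1 = 1 by simp [gam, pis, sio]]
    linear_combination (-2⁻¹ : ℂ) * hI
  · simp only [map_add, map_sub, map_smul, LinearMap.add_apply, LinearMap.sub_apply,
      LinearMap.smul_apply, smul_eq_mul, h00, h01, h10, h11]
    rw [show gam pis sio 1 0 = 1 by simp [gam, pis, sio]]
    linear_combination (-2⁻¹ : ℂ) * hI
  · simp only [map_sub, map_smul, LinearMap.sub_apply, LinearMap.smul_apply, smul_eq_mul, h00, h01,
      h10, h11]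
    rw [show gam pis sio 1 1 = 0 by simp [gam, pis]]
    linear_combination (2⁻¹ * 2⁻¹ : ℂ) * hI

theorem step_so (N : ℕ) : TwoStep (FN pis sio N) (gam pis sio) :=
  twoStep_split _ (FN_symm' N)

variable {R : Type} [CommRing R] [Algebra ℂ R] [GLRing R]

/-! stability for one substitution -/

theorem st_sup (φ : ℕ → V) {N N' : Submodule R (U R)} (h : ∀ f ∈ N, sbC φ f ∈ N)
    (h' : ∀ f ∈ N', sbC φ f ∈ N') : ∀ f ∈ N ⊔ N', sbC φ f ∈ N ⊔ N' := by
  intro f hf
  obtain ⟨a, ha, b, hb, rfl⟩ := Submodule.mem_sup.1 hf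
  rw [map_add]
  exact Submodule.add_mem_sup (h a ha) (h' b hb)

theorem st_smul (φ : ℕ → V) {I : Ideal R} {N : Submodule R (U R)}
    (h : ∀ f ∈ I, sbR φ f ∈ I)
    (h' : ∀ f ∈ N, sbC φ f ∈ N) : ∀ f ∈ I • N, sbC φ f ∈ I • N := by
  intro f hf
  refine Submodule.smul_induction_on hf ?_ ?_
  · intro r hr n hn
    rw [sbC_smul]
    exact Submodule.smul_mem_smul (h r hr) (h' n hn)
  · intro x y hx hy
    rw [map_add]
    exact Submodule.add_mem _ hx hy

theorem st_mul (φ : ℕ → V) {I I' : Ideal R} (h : ∀ f ∈ I, sbR φ f ∈ I)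
    (h' : ∀ f ∈ I', sbR φ f ∈ I') : ∀ f ∈ I * I', sbR φ f ∈ I * I' := by
  intro f hf
  refine Submodule.mul_induction_on hf ?_ ?_
  · intro r hr n hn
    rw [map_mul]
    exact Ideal.mul_mem_mul (h r hr) (h' n hn)
  · intro x y hx hy
    rw [map_add]
    exact Ideal.add_mem _ hx hy

theorem st_pow (φ : ℕ → V) {I : Ideal R} (h : ∀ f ∈ I, sbR φ f ∈ I) (n : ℕ) :
    ∀ f ∈ I ^ n, sbR φ f ∈ I ^ n := by
  induction n with
  | zero =>
    intro f _
    rw [pow_zero, Ideal.one_eq_top]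
    trivial
  | succ n ih =>
    rw [pow_succ]
    exact st_mul φ ih h

theorem st_span (φ : ℕ → V) (s : Set (U R))
    (h : ∀ f ∈ s, sbC φ f ∈ Submodule.span R s) :
    ∀ f ∈ Submodule.span R s, sbC φ f ∈ Submodule.span R s := by
  intro f hf
  induction hf using Submodule.span_induction with
  | mem x hx => exact h x hx
  | zero => rw [map_zero]; exact Submodule.zero_mem _
  | add x y _ _ hx hy => rw [map_add]; exact Submodule.add_mem _ hx hy
  | smul a x _ hx => rw [sbC_smul]; exact Submodule.smul_mem _ _ hx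

theorem GS.sup {N N' : Submodule R (U R)} (h : GS N) (h' : GS N') : GS (N ⊔ N') :=
  fun g hg c hc => st_sup _ (h g hg c hc) (h' g hg c hc)

theorem GS.inf {N N' : Submodule R (U R)} (h : GS N) (h' : GS N') : GS (N ⊓ N') :=
  fun g hg c hc f hf => ⟨h g hg c hc f hf.1, h' g hg c hc f hf.2⟩

theorem GS.smul {I : Ideal R} {N : Submodule R (U R)} (hI : GSI I) (h : GS N) :
    GS (I • N) := fun g hg c hc => st_smul _ (hI g hg c hc) (h g hg c hc)

theorem GSI.mul {I I' : Ideal R} (h : GSI I) (h' : GSI I') : GSI (I * I') :=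
  fun g hg c hc => st_mul _ (h g hg c hc) (h' g hg c hc)

theorem GSI.pow {I : Ideal R} (h : GSI I) (n : ℕ) : GSI (I ^ n) :=
  fun g hg c hc => st_pow _ (h g hg c hc) n

theorem gs_of_gls {N : Submodule R (U R)} (h : GLS N) : GS N := fun _ _ _ _ => h _

theorem gsi_of_glsi {I : Ideal R} (h : GLSI I) : GSI I := fun _ _ _ _ => h _

theorem GS_span (s : Set (U R)) (h : ∀ g : Cinf ≃ₗ[ℂ] Cinf, IsSo g → ∀ c : ℂ, c ≠ 0 → ∀ f ∈ s,
    sbC (fun i => c • g (ee i)) f ∈ Submodule.span R s) : GS (Submodule.span R s) :=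
  fun g hg c hc => st_span _ s (h g hg c hc)

theorem GS_ofI (I : Ideal R) : GS (ofI I) ↔ GSI I := by
  constructor
  · intro h g hg c hc a ha
    have := h g hg c hc (C a) ((C_mem_ofI I a).2 ha)
    rw [sbC_C] at this
    exact (C_mem_ofI I _).1 this
  · intro h g hg c hc f hf
    obtain ⟨a, ha, rfl⟩ := (mem_ofI I f).1 hf
    rw [sbC_C]
    exact (C_mem_ofI I _).2 (h g hg c hc a ha)

end MP50e386O
end

section
/-! Letters, and substitutions with coefficients in `R`, (rc). -/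

namespace MP50e386O

open MvPolynomial Pool.Agent.Lib.MP50e386 MP50e386N

variable {R : Type} [CommRing R] [Algebra ℂ R] [GLRing R]

private theorem t3_C_mem (a : R) : (C a : U R) ∈ MP50e386N.LT R Set.univ := by
  have h : a ∈ Algebra.adjoin ℂ (Set.range fun p : ℕ × ℕ => (GLRing.x p.1 p.2 : R)) := by
    rw [GLRing.gen]
    exact Algebra.mem_top
  induction h using Algebra.adjoin_induction with
  | mem x hx =>
    obtain ⟨p, rfl⟩ := hx
    exact Algebra.subset_adjoin (Or.inl ⟨p.1, trivial, p.2, trivial, rfl⟩)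
  | algebraMap c => exact Subalgebra.algebraMap_mem (MP50e386N.LT R Set.univ) c
  | add x y _ _ hx hy =>
    rw [map_add]
    exact Subalgebra.add_mem _ hx hy
  | mul x y _ _ hx hy =>
    rw [map_mul]
    exact Subalgebra.mul_mem _ hx hy

private theorem t3_alg (ψ : ℕ → VR R) (c : ℂ) :
    sbU ψ (algebraMap ℂ (U R) c) = algebraMap ℂ (U R) c := by
  have h : (algebraMap ℂ (U R) c) = C (algebraMap ℂ R c) := rfl
  rw [h, sbU_C, AlgHom.commutes]

private theorem t3_smul_mem {T' : Set ℕ} {f : U R} (hf : f ∈ MP50e386N.LT R T') (c : ℂ) :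
    (C (algebraMap ℂ R c) : U R) * f ∈ MP50e386N.LT R T' :=
  Subalgebra.mul_mem _ (Subalgebra.algebraMap_mem (MP50e386N.LT R T') c) hf

omit [GLRing R] in
private theorem t3_cst_apply (v : V) (k : ℕ) : (cst v : VR R) k = algebraMap ℂ R (v k) := rfl

omit [GLRing R] in
private theorem t3_cst_supp {v : V} {k : ℕ} (hk : k ∈ (cst v : VR R).support) : v k ≠ 0 := by
  intro h0
  rw [Finsupp.mem_support_iff, t3_cst_apply, h0, map_zero] at hk
  exact hk rfl

theorem rc_nn {M : Submodule R (U R)} {f : U R} (hf : f ∈ M) (W : Submodule ℂ V)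
    (hW : ∀ v ∈ W, ∀ w ∈ W, om v w = 0) (ψ : ℕ → VR R)
    (hψ : ∀ i, ψ i ∈ Submodule.span R ((fun v => (cst v : VR R)) '' (W : Set V))) :
    sbU ψ f ∈ nn M := by
  refine rc_gen W (nn M) f (fun φ hφ => ?_) ψ hψ
  exact Submodule.subset_span ⟨φ, fun i j => hW _ (hφ i) _ (hφ j), f, hf, rfl⟩

end MP50e386O
end

section
/-! (w1): Witt extension. -/

namespace MP50e386O

open MvPolynomial Pool.Agent.Lib.MP50e386 MP50e386N

variable {R : Type} [CommRing R] [Algebra ℂ R] [GLRing R]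

/-- an isometric family indexed by `0, …, 2n-1` is the beginning of an element of `O_∞` -/
theorem exists_so (n : ℕ) (φ : ℕ → V)
    (h : ∀ i < 2 * n, ∀ j < 2 * n, om (φ i) (φ j) = om (ee i) (ee j)) :
    ∃ g : Cinf ≃ₗ[ℂ] Cinf, IsSo g ∧ ∀ i < 2 * n, g (ee i) = φ i := by
  obtain ⟨g, hg1, hg2, hg3⟩ := _root_.MP50e386.witt gdata_so
    step_so (even_two_mul n) φ (by
      intro i hi j hj
      rw [← osf_eq, ← _root_.MP50e386.frm_ee,
        ← osf_eq]
      exact h i hi j hj)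
  refine ⟨g, ⟨hg1, fun x y => ?_⟩, hg3⟩
  rw [osf_eq, osf_eq]
  exact hg2 x y

namespace T5

theorem gl_high {g : Cinf ≃ₗ[ℂ] Cinf} {n : ℕ}
    (h1 : ∀ i, n ≤ i → g (Finsupp.single i 1) = Finsupp.single i 1)
    (h2 : ∀ i < n, ∀ j, n ≤ j → g (Finsupp.single i 1) j = 0) (x : Cinf) (j : ℕ) (hj : n ≤ j) :
    g x j = x j := by
  induction x using Finsupp.induction_linear with
  | zero => rw [map_zero]
  | add x y hx hy => rw [map_add, Finsupp.add_apply, Finsupp.add_apply, hx, hy]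
  | single i a =>
    have e : (Finsupp.single i a : Cinf) = a • Finsupp.single i 1 := by
      rw [Finsupp.smul_single, smul_eq_mul, mul_one]
    rw [e, map_smul, Finsupp.smul_apply, Finsupp.smul_apply]
    by_cases hi : n ≤ i
    · rw [h1 i hi]
    · rw [h2 i (by omega) j hj, Finsupp.single_apply, if_neg (by omega)]

end T5

theorem isSo_inv {g : Cinf ≃ₗ[ℂ] Cinf} (hg : IsSo g) : IsSo g.symm := by
  obtain ⟨⟨n, h1, h2⟩, h3⟩ := hg
  refine ⟨⟨n, fun i hi => ?_, fun i hi j hj => ?_⟩, fun x y => ?_⟩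
  · rw [LinearEquiv.symm_apply_eq, h1 i hi]
  · rw [← T5.gl_high h1 h2 _ j hj, LinearEquiv.apply_symm_apply, Finsupp.single_apply,
      if_neg (by omega)]
  · rw [← h3, LinearEquiv.apply_symm_apply, LinearEquiv.apply_symm_apply]

theorem isSo_mul {g g' : Cinf ≃ₗ[ℂ] Cinf} (hg : IsSo g) (hg' : IsSo g') : IsSo (g'.trans g) := by
  obtain ⟨⟨n, h1, h2⟩, h3⟩ := hg
  obtain ⟨⟨n', h1', h2'⟩, h3'⟩ := hg'
  refine ⟨⟨max n n', fun i hi => ?_, fun i hi j hj => ?_⟩, fun x y => ?_⟩
  · rw [LinearEquiv.trans_apply, h1' i (le_trans (le_max_right _ _) hi),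
      h1 i (le_trans (le_max_left _ _) hi)]
  · rw [LinearEquiv.trans_apply, T5.gl_high h1 h2 _ j (le_trans (le_max_left _ _) hj),
      T5.gl_high h1' h2' _ j (le_trans (le_max_right _ _) hj), Finsupp.single_apply,
      if_neg (by omega)]
  · rw [LinearEquiv.trans_apply, LinearEquiv.trans_apply, h3, h3']

namespace T5

open _root_.MP50e386 (frm pis gam)

/-- the symplectic form as a bilinear form -/
noncomputable abbrev B : LinearMap.BilinForm ℂ V := frm pis sio

theorem om_eq (x y : V) : om x y = B x y := osf_eq x y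

theorem B_anti (x y : V) : B x y = B y x := by
  have h := _root_.MP50e386.frm_refl_eps gdata_so x y
  rw [one_mul] at h
  exact h

theorem B_al (x y z : V) : B (x + y) z = B x z + B y z := by
  rw [map_add, LinearMap.add_apply]

theorem B_ar (x y z : V) : B x (y + z) = B x y + B x z := map_add _ _ _

theorem B_sl (c : ℂ) (x z : V) : B (c • x) z = c * B x z := by
  rw [map_smul, LinearMap.smul_apply, smul_eq_mul]

theorem B_sr (c : ℂ) (x z : V) : B x (c • z) = c * B x z := by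
  rw [map_smul, smul_eq_mul]

theorem B_suml {ι : Type} (s : Finset ι) (v : ι → V) (z : V) :
    B (∑ i ∈ s, v i) z = ∑ i ∈ s, B (v i) z := by
  rw [map_sum, LinearMap.sum_apply]

theorem B_sumr {ι : Type} (s : Finset ι) (v : ι → V) (z : V) :
    B z (∑ i ∈ s, v i) = ∑ i ∈ s, B z (v i) := map_sum _ _ _

theorem B_ee (i j : ℕ) : B (ee i) (ee j) = gam pis sio i j := _root_.MP50e386.frm_ee i j

theorem pis_even {i : ℕ} (h : Even i) : pis i = i + 1 := by
  unfold pis
  rw [if_pos h]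

theorem pis_odd {i : ℕ} (h : ¬ Even i) : pis i = i - 1 := by
  unfold pis
  rw [if_neg h]

/-- a far letter and a vector with low support -/
theorem B_far {n : ℕ} (x : V) (hx : ∀ j, 2 * n ≤ j → x j = 0) {k : ℕ} (hk : 2 * n ≤ k) :
    B (ee k) x = 0 := by
  have h1 : B (ee k) x = sio k * x (pis k) := _root_.MP50e386.frm_ee_left k x
  rw [h1, hx, mul_zero]
  by_contra hcon
  have h2 := _root_.MP50e386.pi_lt gdata_so (even_two_mul n) (i := pis k) (by omega)
  rw [gdata_so.inv] at h2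
  omega

theorem B_bb (n i j : ℕ) : B (ee (2 * n + 2 * i)) (ee (2 * n + 2 * j)) = 0 := by
  rw [B_ee]
  unfold gam
  have h : Even (2 * n + 2 * i) := ⟨n + i, by ring⟩
  rw [pis_even h, if_neg (by omega)]

theorem B_ss (n i j : ℕ) : B (ee (2 * n + 2 * i + 1)) (ee (2 * n + 2 * j + 1)) = 0 := by
  rw [B_ee]
  unfold gam
  have h : ¬ Even (2 * n + 2 * i + 1) := by
    rw [Nat.even_add_one, not_not]
    exact ⟨n + i, by ring⟩
  rw [pis_odd h, if_neg (by omega)]

theorem B_sb (n i j : ℕ) : B (ee (2 * n + 2 * i + 1)) (ee (2 * n + 2 * j)) =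
    if j = i then 1 else 0 := by
  rw [B_ee]
  unfold gam
  have h : ¬ Even (2 * n + 2 * i + 1) := by
    rw [Nat.even_add_one, not_not]
    exact ⟨n + i, by ring⟩
  rw [pis_odd h]
  have h2 : sio (2 * n + 2 * i + 1) = 1 := rfl
  by_cases hj : j = i
  · rw [if_pos (by omega), if_pos hj, h2]
  · rw [if_neg (by omega), if_neg hj]

theorem B_shift (n i j : ℕ) : B (ee (6 * n + i)) (ee (6 * n + j)) = B (ee i) (ee j) := by
  rw [B_ee, B_ee]
  have h : Even (6 * n) := ⟨3 * n, by ring⟩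
  rw [← _root_.MP50e386.gam_shift' gdata_so h i j, add_comm i, add_comm j]

theorem B_farl (n i j : ℕ) (hj : j < 6 * n) : B (ee (6 * n + i)) (ee j) = 0 := by
  rw [B_ee]
  have h : Even (6 * n) := ⟨3 * n, by ring⟩
  exact _root_.MP50e386.gam_zero_right gdata_so h (by omega) hj

end T5

/-- (w1) -/
theorem witt1 {N : Submodule R (U R)} (hN : GS N) {f : U R} (hf : f ∈ N) {T : Set ℕ}
    (hT : T.Finite) (hfT : f ∈ LT R T) (φ : ℕ → V)
    (h : ∀ i ∈ T, ∀ j ∈ T, om (φ i) (φ j) = om (ee i) (ee j)) : sbC φ f ∈ N := by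
  classical
  -- a level
  obtain ⟨n, hn1, hn2⟩ : ∃ n : ℕ, (∀ i ∈ T, i < 2 * n) ∧
      ∀ i ∈ T, ∀ j, 2 * n ≤ j → φ i j = 0 := by
    set S : Finset ℕ := hT.toFinset ∪ hT.toFinset.biUnion (fun i => (φ i).support) with hS
    refine ⟨S.sup id + 1, ?_, ?_⟩
    · intro i hi
      have h1 : i ∈ S := by
        rw [hS, Finset.mem_union]
        exact Or.inl (hT.mem_toFinset.2 hi)
      have h2 := Finset.le_sup (f := id) h1
      simp only [id] at h2
      omega
    · intro i hi j hj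
      by_contra hne
      have h1 : j ∈ S := by
        rw [hS, Finset.mem_union, Finset.mem_biUnion]
        exact Or.inr ⟨i, hT.mem_toFinset.2 hi, Finsupp.mem_support_iff.2 hne⟩
      have h2 := Finset.le_sup (f := id) h1
      simp only [id] at h2
      omega
  -- the family
  set T' : Finset ℕ := hT.toFinset with hT'
  have memT : ∀ i, i ∈ T' ↔ i ∈ T := fun i => hT.mem_toFinset
  set y : ℕ → V := fun i => ∑ j ∈ T', (om (ee i) (ee j)) • ee (2 * n + 2 * j + 1) with hy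
  set Ψ : ℂ → ℕ → V := fun t i => if i ∈ T then φ i + t • ee (2 * n + 2 * i) else
    ee (6 * n + i) + t⁻¹ • y i with hΨ
  have hyb : ∀ i, ∀ j ∈ T, T5.B (y i) (ee (2 * n + 2 * j)) = om (ee i) (ee j) := by
    intro i j hj
    simp only [hy]
    rw [T5.B_suml, Finset.sum_eq_single j]
    · rw [T5.B_sl, T5.B_sb, if_pos rfl]
      ring
    · intro k _ hk
      rw [T5.B_sl, T5.B_sb, if_neg (fun h' => hk h'.symm), mul_zero]
    · intro h'
      exact absurd ((memT j).2 hj) h'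
  have hyφ : ∀ i, ∀ j ∈ T, T5.B (y i) (φ j) = 0 := by
    intro i j hj
    simp only [hy]
    rw [T5.B_suml]
    refine Finset.sum_eq_zero fun k _ => ?_
    rw [T5.B_sl, T5.B_far (φ j) (hn2 j hj) (by omega), mul_zero]
  have hyy : ∀ i i', T5.B (y i) (y i') = 0 := by
    intro i i'
    simp only [hy]
    rw [T5.B_suml]
    refine Finset.sum_eq_zero fun k _ => ?_
    rw [T5.B_sl, T5.B_sumr, Finset.sum_eq_zero, mul_zero]
    intro k' _
    rw [T5.B_sr, T5.B_ss, mul_zero]
  have hey : ∀ i i', T5.B (ee (6 * n + i)) (y i') = 0 := by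
    intro i i'
    simp only [hy]
    rw [T5.B_sumr]
    refine Finset.sum_eq_zero fun k hk => ?_
    have := hn1 k ((memT k).1 hk)
    rw [T5.B_sr, T5.B_farl n i _ (by omega), mul_zero]
  have heb : ∀ i, ∀ j ∈ T, T5.B (ee (6 * n + i)) (ee (2 * n + 2 * j)) = 0 := by
    intro i j hj
    have := hn1 j hj
    exact T5.B_farl n i _ (by omega)
  have heφ : ∀ i, ∀ j ∈ T, T5.B (ee (6 * n + i)) (φ j) = 0 := by
    intro i j hj
    have := hn1 j hj
    exact T5.B_far (φ j) (hn2 j hj) (by omega)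
  have hbφ : ∀ i, ∀ j ∈ T, T5.B (ee (2 * n + 2 * i)) (φ j) = 0 := by
    intro i j hj
    exact T5.B_far (φ j) (hn2 j hj) (by omega)
  -- mixed pairs
  have hmix : ∀ t : ℂ, t ≠ 0 → ∀ i, i ∉ T → ∀ j ∈ T,
      T5.B (Ψ t i) (Ψ t j) = om (ee i) (ee j) := by
    intro t ht i hi j hj
    simp only [hΨ]
    rw [if_neg hi, if_pos hj, T5.B_al, T5.B_ar, T5.B_ar, T5.B_sl, T5.B_sl, T5.B_sr, T5.B_sr,
      heφ i j hj, heb i j hj, hyφ i j hj, hyb i j hj]
    field_simp
    ring
  have hgram : ∀ t : ℂ, t ≠ 0 → ∀ i < 2 * n, ∀ j < 2 * n,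
      om (Ψ t i) (Ψ t j) = om (ee i) (ee j) := by
    intro t ht i _ j _
    rw [T5.om_eq]
    by_cases hi : i ∈ T
    · by_cases hj : j ∈ T
      · simp only [hΨ]
        rw [if_pos hi, if_pos hj, T5.B_al, T5.B_ar, T5.B_ar, T5.B_sl, T5.B_sl, T5.B_sr, T5.B_sr,
          T5.B_bb, hbφ i j hj, T5.B_anti (φ i) (ee (2 * n + 2 * j)), hbφ j i hi, ← T5.om_eq,
          h i hi j hj]
        ring
      · rw [T5.B_anti, hmix t ht j hj i hi, T5.om_eq, T5.om_eq, T5.B_anti (ee i)]
    · by_cases hj : j ∈ T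
      · exact hmix t ht i hi j hj
      · simp only [hΨ]
        rw [if_neg hi, if_neg hj, T5.B_al, T5.B_ar, T5.B_ar, T5.B_sl, T5.B_sl, T5.B_sr, T5.B_sr,
          hyy, hey, T5.B_anti (y i), hey, T5.B_shift, T5.om_eq]
        ring
  have hmem : ∀ t : ℂ, t ≠ 0 → sbC (fun i => φ i + t • ee (2 * n + 2 * i)) f ∈ N := by
    intro t ht
    obtain ⟨g, hg, hg'⟩ := exists_so n (Ψ t) (hgram t ht)
    have h1 := hN g hg 1 one_ne_zero f hf
    rw [sbC_congr hfT _ (fun i => φ i + t • ee (2 * n + 2 * i))] at h1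
    · exact h1
    · intro i hi
      rw [one_smul, hg' i (hn1 i hi)]
      simp only [hΨ]
      rw [if_pos hi]
  -- Vandermonde
  obtain ⟨P, hP⟩ := exists_sbU_poly (σ := Unit) (fun i =>
    (cst (φ i) : VR R).mapRange (C : R →+* MvPolynomial Unit R) (map_zero _) +
      (X () : MvPolynomial Unit R) • (cst (ee (2 * n + 2 * i)) : VR R).mapRange
        (C : R →+* MvPolynomial Unit R) (map_zero _)) f
  have hP' : ∀ t : ℂ, sbC (fun i => φ i + t • ee (2 * n + 2 * i)) f =
      eval (fun _ => algebraMap ℂ (U R) t) P := by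
    intro t
    have h1 := hP (fun _ => algebraMap ℂ R t)
    have h2 : (fun _ : Unit => (C (algebraMap ℂ R t) : U R)) =
        fun _ => algebraMap ℂ (U R) t := rfl
    rw [h2] at h1
    rw [← h1]
    have h3 : (fun i => (cst (φ i + t • ee (2 * n + 2 * i)) : VR R)) = fun i =>
        ((cst (φ i) : VR R).mapRange (C : R →+* MvPolynomial Unit R) (map_zero _) +
      (X () : MvPolynomial Unit R) • (cst (ee (2 * n + 2 * i)) : VR R).mapRange
        (C : R →+* MvPolynomial Unit R) (map_zero _)).mapRange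
          (eval fun _ : Unit => algebraMap ℂ R t) (map_zero _) := by
      funext i
      ext k
      by_cases hk : 2 * n + 2 * i = k
      · simp [cst, hk]
      · simp [cst, hk]
    unfold sbC
    simp only [h3]
  have h3 := vand_mvpoly (N.restrictScalars ℂ) P (by
    intro t ht
    have h1 := hmem (t ()) (ht ())
    rw [hP'] at h1
    exact h1) 0
  have h4 := hP' 0
  rw [map_zero] at h4
  have h5 : eval (fun _ : Unit => (0 : U R)) P = P.coeff 0 := by
    rw [MvPolynomial.eval_zero', constantCoeff_eq]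
  rw [h5] at h4
  rw [← h4] at h3
  simpa using h3

theorem T5.isSo_refl : IsSo (LinearEquiv.refl ℂ Cinf) := by
  refine ⟨⟨0, fun i _ => rfl, fun i hi => absurd hi (Nat.not_lt_zero i)⟩, fun x y => rfl⟩

/-- (w1) with a scalar -/
theorem witt1_smul {N : Submodule R (U R)} (hN : GS N) {f : U R} (hf : f ∈ N) {T : Set ℕ}
    (hT : T.Finite) (hfT : f ∈ LT R T) (φ : ℕ → V) (c : ℂ) (hc : c ≠ 0)
    (h : ∀ i ∈ T, ∀ j ∈ T, om (φ i) (φ j) = c * om (ee i) (ee j)) : sbC φ f ∈ N := by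
  obtain ⟨d, hd⟩ := IsAlgClosed.exists_pow_nat_eq c (n := 2) (by norm_num)
  have hd0 : d ≠ 0 := by
    rintro rfl
    apply hc
    rw [← hd]
    ring
  have h1 := witt1 hN hf hT hfT (fun i => d⁻¹ • φ i) (by
    intro i hi j hj
    have h2 := h i hi j hj
    rw [T5.om_eq, T5.B_sl, T5.B_sr, ← T5.om_eq, h2, ← hd]
    field_simp)
  have h2 := hN _ T5.isSo_refl d hd0 _ h1
  rw [sbC_sbC] at h2
  have h3 : linC (fun i => d • (LinearEquiv.refl ℂ Cinf) (ee i)) = d • LinearMap.id := by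
    apply Finsupp.lhom_ext'
    intro i
    apply LinearMap.ext_ring
    change linC (fun i => d • (LinearEquiv.refl ℂ Cinf) (ee i)) (ee i) = _
    rw [linC_ee]
    rfl
  have h4 : (fun i => (linC fun i => d • (LinearEquiv.refl ℂ Cinf) (ee i)) (d⁻¹ • φ i)) = φ := by
    funext i
    rw [h3, LinearMap.smul_apply, LinearMap.id_apply, smul_smul, mul_inv_cancel₀ hd0, one_smul]
  rw [h4] at h2
  exact h2

/-- the same for ideals of `R` -/
theorem witt1I {I : Ideal R} (hI : GSI I) {a : R} (ha : a ∈ I) {T : Set ℕ}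
    (hT : T.Finite) (haT : (C a : U R) ∈ LT R T) (φ : ℕ → V)
    (h : ∀ i ∈ T, ∀ j ∈ T, om (φ i) (φ j) = om (ee i) (ee j)) : sbR φ a ∈ I := by
  have h1 := witt1 ((GS_ofI I).2 hI) ((C_mem_ofI I a).2 ha) hT haT φ h
  rw [sbC_C, C_mem_ofI] at h1
  exact h1

end MP50e386O
end
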