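import Mathlib
import Pool.Agent.Lib.MP_50e386_al.B.Tb
import Pool.Agent.Lib.MP_50e386_al.B.Oa

section
/-! Weights and (w2). -/

namespace MP50e386O

open MvPolynomial Pool.Agent.Lib.MP50e386 MP50e386N

variable {R : Type} [CommRing R] [Algebra ℂ R] [GLRing R]

/-- strong homogeneity: scalars in `R` -/
private def SHW (d : ℕ) (f : U R) : Prop :=
  ∀ (c : R) (ψ : ℕ → VR R), sbU (fun i => c • ψ i) f = c ^ d • sbU ψ f

omit [GLRing R] in
private theorem cst_ee (i : ℕ) : (cst (ee i) : VR R) = Finsupp.single i 1 := by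
  unfold cst
  rw [Finsupp.mapRange.linearMap_apply, Finsupp.mapRange_single, Algebra.linearMap_apply, map_one]

omit [GLRing R] in
private theorem cst_smul (c : ℂ) (v : V) : (cst (c • v) : VR R) = algebraMap ℂ R c • cst v := by
  rw [map_smul]
  exact (algebraMap_smul R c _).symm

private theorem SHW.hw {d : ℕ} {f : U R} (hf : SHW d f) : HW d f := by
  intro c
  have h := hf (algebraMap ℂ R c) (fun i => cst (ee i))
  unfold sbC
  have e : (fun i => (cst (c • ee i) : VR R)) = fun i => algebraMap ℂ R c • cst (ee i) := by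
    funext i
    exact cst_smul c _
  rw [e, h]
  have e2 : sbU (fun i => (cst (ee i) : VR R)) f = f := sbC_id f
  rw [e2, ← map_pow, algebraMap_smul]

private theorem SHW.zero (d : ℕ) : SHW d (0 : U R) := by
  intro c ψ
  rw [map_zero, map_zero, smul_zero]

private theorem SHW.add {d : ℕ} {f g : U R} (hf : SHW d f) (hg : SHW d g) : SHW d (f + g) := by
  intro c ψ
  rw [map_add, map_add, hf c ψ, hg c ψ, smul_add]

private theorem SHW.mul {d e : ℕ} {f g : U R} (hf : SHW d f) (hg : SHW e g) :
    SHW (d + e) (f * g) := by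
  intro c ψ
  rw [map_mul, map_mul, hf c ψ, hg c ψ, smul_mul_smul_comm, pow_add]

private theorem SHW.sum {ι : Type} (s : Finset ι) (d : ℕ) (f : ι → U R)
    (h : ∀ i ∈ s, SHW d (f i)) : SHW d (∑ i ∈ s, f i) := by
  classical
  induction s using Finset.induction_on with
  | empty => rw [Finset.sum_empty]; exact SHW.zero d
  | insert a s ha ih =>
    rw [Finset.sum_insert ha]
    exact (h a (Finset.mem_insert_self _ _)).add
      (ih fun i hi => h i (Finset.mem_insert_of_mem hi))

private theorem SHW_C (a : ℂ) : SHW 0 (C (algebraMap ℂ R a) : U R) := by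
  intro c ψ
  rw [sbU_C, sbU_C, AlgHom.commutes, AlgHom.commutes, pow_zero, one_smul]

private theorem SHW_x (i j : ℕ) : SHW 2 (C (GLRing.x i j) : U R) := by
  intro c ψ
  have e : (xf (c • ψ i) (c • ψ j) : R) = c ^ 2 * xf (ψ i) (ψ j) := by
    rw [LinearMap.map_smul, LinearMap.map_smul, LinearMap.smul_apply, smul_smul, ← pow_two,
      smul_eq_mul]
  rw [sbU_C, sbU_C, sb_x', sb_x', e, smul_eq_C_mul, map_mul]

private theorem SHW_X (a i : ℕ) : SHW 1 (X (a, i) : U R) := by
  intro c ψ
  rw [sbU_X, sbU_X, map_smul, pow_one]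

private theorem SHW.decomp_pad {n : ℕ} (m : ℕ) (hnm : n ≤ m) {f : U R} {g : ℕ → U R}
    (h : f = ∑ d ∈ Finset.range n, g d) (hg : ∀ d, SHW d (g d)) :
    ∃ g' : ℕ → U R, f = ∑ d ∈ Finset.range m, g' d ∧ ∀ d, SHW d (g' d) := by
  refine ⟨fun d => if d < n then g d else 0, ?_, ?_⟩
  · rw [h, ← Finset.sum_subset (Finset.range_mono hnm)]
    · refine Finset.sum_congr rfl fun d hd => ?_
      rw [if_pos (Finset.mem_range.1 hd)]
    · intro d _ hd
      rw [if_neg (fun h => hd (Finset.mem_range.2 h))]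
  · intro d
    dsimp only
    split_ifs
    · exact hg d
    · exact SHW.zero d

private theorem exists_SHW_decomp (f : U R) :
    ∃ (n : ℕ) (g : ℕ → U R), f = ∑ d ∈ Finset.range n, g d ∧ ∀ d, SHW d (g d) := by
  have hf : f ∈ MP50e386N.LT R Set.univ := by rw [LT_univ]; trivial
  have single : ∀ (e : ℕ) (u : U R), SHW e u →
      ∃ (n : ℕ) (g : ℕ → U R), u = ∑ d ∈ Finset.range n, g d ∧ ∀ d, SHW d (g d) := by
    intro e u hu
    refine ⟨e + 1, fun d => if d = e then u else 0, ?_, ?_⟩
    · rw [Finset.sum_ite_eq' (Finset.range (e + 1)) e (fun _ => u),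
        if_pos (Finset.mem_range.2 (Nat.lt_succ_self e))]
    · intro d
      dsimp only
      split_ifs with h
      · rw [h]; exact hu
      · exact SHW.zero d
  unfold MP50e386N.LT at hf
  induction hf using Algebra.adjoin_induction with
  | mem u hu =>
    rcases hu with ⟨i, _, j, _, rfl⟩ | ⟨a, i, _, rfl⟩
    · exact single 2 _ (SHW_x i j)
    · exact single 1 _ (SHW_X a i)
  | algebraMap c =>
    refine single 0 _ ?_
    have := SHW_C (R := R) c
    exact this
  | add u v _ _ hu hv =>
    obtain ⟨n, g, hg, hg'⟩ := hu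
    obtain ⟨m, k, hk, hk'⟩ := hv
    obtain ⟨g1, h1, h1'⟩ := SHW.decomp_pad (max n m) (le_max_left _ _) hg hg'
    obtain ⟨k1, h2, h2'⟩ := SHW.decomp_pad (max n m) (le_max_right _ _) hk hk'
    refine ⟨max n m, fun d => g1 d + k1 d, ?_, fun d => (h1' d).add (h2' d)⟩
    rw [Finset.sum_add_distrib, ← h1, ← h2]
  | mul u v _ _ hu hv =>
    obtain ⟨n, g, hg, hg'⟩ := hu
    obtain ⟨m, k, hk, hk'⟩ := hv
    refine ⟨n + m, fun d => ∑ p ∈ (Finset.range n ×ˢ Finset.range m).filter
      (fun p => p.1 + p.2 = d), g p.1 * k p.2, ?_, ?_⟩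
    · rw [Finset.sum_fiberwise_of_maps_to (s := Finset.range n ×ˢ Finset.range m)
        (t := Finset.range (n + m)) (g := fun p => p.1 + p.2) ?_ (fun p => g p.1 * k p.2),
        hg, hk, Finset.sum_mul_sum, Finset.sum_product]
      intro p hp
      rw [Finset.mem_product, Finset.mem_range, Finset.mem_range] at hp
      rw [Finset.mem_range]
      omega
    · intro d
      refine SHW.sum _ _ _ fun p hp => ?_
      rw [Finset.mem_filter] at hp
      rw [← hp.2]
      exact (hg' _).mul (hk' _)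

private theorem inf_ne : {t : ℂ | t ≠ 0}.Infinite := by
  have : {t : ℂ | t ≠ 0} = ({0} : Set ℂ)ᶜ := by
    ext t
    simp
  rw [this]
  exact (Set.finite_singleton (0 : ℂ)).infinite_compl

/-- a homogeneous element is strongly homogeneous -/
private theorem HW.shw {d : ℕ} {f : U R} (hf : HW d f) : SHW d f := by
  obtain ⟨n, g, h, h'⟩ := exists_SHW_decomp f
  -- all components `g e`, `e ≠ d`, vanish
  have key : ∀ e < n, e ≠ d → g e = 0 := by
    set G : ℕ → U R := fun e => g e - if e = d then f else 0 with hG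
    have hGd : ∀ e, HW e (G e) := by
      intro e c
      rw [hG]
      dsimp only
      rw [map_sub, (h' e).hw c, smul_sub]
      congr 1
      split_ifs with hed
      · rw [hed]; exact hf c
      · rw [map_zero, smul_zero]
    by_cases hd : d < n
    · have hs : ∑ e ∈ Finset.range n, G e = 0 := by
        rw [hG]
        dsimp only
        rw [Finset.sum_sub_distrib, ← h, Finset.sum_ite_eq' (Finset.range n) d (fun _ => f),
          if_pos (Finset.mem_range.2 hd), sub_self]
      have h0 := HW_comp_mem (⊥ : Submodule ℂ (U R)) (by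
        intro t _ u hu
        rw [Submodule.mem_bot] at hu ⊢
        rw [hu, map_zero]) n G hGd (by rw [hs]; exact Submodule.zero_mem _)
      intro e he hne
      have h1 := h0 e he
      rw [Submodule.mem_bot, hG] at h1
      dsimp only at h1
      rwa [if_neg hne, sub_zero] at h1
    · -- pad
      set G' : ℕ → U R := fun e => (if e < n then g e else 0) - if e = d then f else 0 with hG'
      have hGd' : ∀ e, HW e (G' e) := by
        intro e c
        rw [hG']
        dsimp only
        rw [map_sub, smul_sub]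
        congr 1
        · split_ifs
          · exact (h' e).hw c
          · rw [map_zero, smul_zero]
        · split_ifs with hed
          · rw [hed]; exact hf c
          · rw [map_zero, smul_zero]
      have hs : ∑ e ∈ Finset.range (d + 1), G' e = 0 := by
        rw [hG']
        dsimp only
        rw [Finset.sum_sub_distrib, Finset.sum_ite_eq' (Finset.range (d + 1)) d (fun _ => f),
          if_pos (Finset.mem_range.2 (Nat.lt_succ_self d))]
        rw [sub_eq_zero, h, ← Finset.sum_subset (Finset.range_mono (show n ≤ d + 1 by omega))]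
        · refine Finset.sum_congr rfl fun e he => ?_
          rw [if_pos (Finset.mem_range.1 he)]
        · intro e _ he
          rw [if_neg (fun h => he (Finset.mem_range.2 h))]
      have h0 := HW_comp_mem (⊥ : Submodule ℂ (U R)) (by
        intro t _ u hu
        rw [Submodule.mem_bot] at hu ⊢
        rw [hu, map_zero]) (d + 1) G' hGd' (by rw [hs]; exact Submodule.zero_mem _)
      intro e he hne
      have h1 := h0 e (by omega)
      rw [Submodule.mem_bot, hG'] at h1
      dsimp only at h1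
      rwa [if_neg hne, sub_zero, if_pos he] at h1
  by_cases hd : d < n
  · have e : f = g d := by
      rw [h, Finset.sum_eq_single d]
      · intro b hb hne
        exact key b (Finset.mem_range.1 hb) hne
      · intro hb
        exact absurd (Finset.mem_range.2 hd) hb
    rw [e]
    exact h' d
  · have e : f = 0 := by
      rw [h]
      refine Finset.sum_eq_zero fun b hb => ?_
      have hb' := Finset.mem_range.1 hb
      exact key b hb' (by omega)
    rw [e]
    exact SHW.zero d

private theorem isSo_one : IsSo (LinearEquiv.refl ℂ Cinf) := by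
  refine ⟨⟨0, fun i _ => rfl, fun i hi => absurd hi (Nat.not_lt_zero i)⟩, fun x y => rfl⟩

private theorem GS.scal {N : Submodule R (U R)} (hN : GS N) (t : ℂ) (ht : t ≠ 0) {f : U R}
    (hf : f ∈ N) : sbC (fun i => t • ee i) f ∈ N := hN _ isSo_one t ht f hf

theorem GS_HW_comp {N : Submodule R (U R)} (hN : GS N) (n : ℕ) (g : ℕ → U R)
    (hg : ∀ d, HW d (g d)) (h : ∑ d ∈ Finset.range n, g d ∈ N) : ∀ d < n, g d ∈ N :=
  HW_comp_mem (N.restrictScalars ℂ) (fun t ht _ hf => GS.scal hN t ht hf) n g hg h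

/-- two graded submodules -/
theorem GS_le_of_HW {N N' : Submodule R (U R)} (hN : GS N)
    (h : ∀ d, ∀ f ∈ N, HW d f → f ∈ N') : N ≤ N' := by
  intro f hf
  obtain ⟨n, g, hg, hg'⟩ := exists_HW_decomp f
  rw [hg] at hf ⊢
  refine Submodule.sum_mem _ fun d hd => ?_
  exact h d _ (GS_HW_comp hN n g hg' hf d (Finset.mem_range.1 hd)) (hg' d)

private theorem om_frm (x y : V) : om x y = MP50e386.frm MP50e386.pis sio x y :=
  osf_eq x y

private theorem pis_shift (j : ℕ) (k : ℕ) :
    MP50e386.pis (j + 2 * k) = MP50e386.pis j + 2 * k := by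
  induction k with
  | zero => rfl
  | succ k ih =>
    have h := gdata_so.shift (j + 2 * k)
    rw [show j + 2 * (k + 1) = j + 2 * k + 2 by ring, h, ih]
    ring

private theorem om_far (x : V) (j k : ℕ) (h : ∀ i, 2 * k ≤ i → x i = 0) :
    om x (ee (j + 2 * k)) = 0 ∧ om (ee (j + 2 * k)) x = 0 := by
  have h1 : x (MP50e386.pis (j + 2 * k)) = 0 := by
    apply h
    rw [pis_shift]
    omega
  constructor
  · rw [om_frm]
    have := MP50e386.frm_ee_right gdata_so x (j + 2 * k)
    rw [h1, mul_zero, mul_zero] at this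
    exact this
  · rw [om_frm]
    have := MP50e386.frm_ee_left (π := MP50e386.pis) (σ := sio) (j + 2 * k) x
    rw [h1, mul_zero] at this
    exact this

private theorem om_ee_shift (i j k : ℕ) :
    om (ee (i + 2 * k)) (ee (j + 2 * k)) = om (ee i) (ee j) := by
  rw [om_frm, om_frm]
  have h1 := MP50e386.frm_ee (π := MP50e386.pis) (σ := sio) (i + 2 * k) (j + 2 * k)
  have h2 := MP50e386.frm_ee (π := MP50e386.pis) (σ := sio) i j
  have h3 := MP50e386.gam_shift' gdata_so (N := 2 * k) ⟨k, by ring⟩ i j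
  exact h1.trans (h3.trans h2.symm)

private theorem om_add_smul (a b a' b' : V) (u : ℂ) : om (a + u • b) (a' + u • b') =
    om a a' + u * om a b' + u * om b a' + u ^ 2 * om b b' := by
  simp only [om_frm, map_add, map_smul, LinearMap.add_apply, LinearMap.smul_apply, smul_eq_mul]
  ring

omit [GLRing R] in
private theorem cst_mapRange (v : V) (σ : Type) (t : σ → R) :
    ((cst v : VR R).mapRange (C : R →+* MvPolynomial σ R) (map_zero _)).mapRange (eval t)
      (map_zero _) = cst v := by
  ext i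
  rw [Finsupp.mapRange_apply, Finsupp.mapRange_apply, eval_C]

/-- (w2) -/
theorem witt2 {N : Submodule R (U R)} (hN : GS N) {f : U R} (hf : f ∈ N) (φ : ℕ → V)
    (hφ : Iso φ) : sbC φ f ∈ N := by
  obtain ⟨n, hn⟩ := exists_LT f
  -- a bound for the supports
  obtain ⟨k, hk⟩ : ∃ k, ∀ i < n, ∀ j, 2 * k ≤ j → φ i j = 0 := by
    refine ⟨(Finset.range n).sup (fun i => (φ i).support.sup id) + 1, ?_⟩
    intro i hi j hj
    by_contra hne
    have h1 : j ≤ (φ i).support.sup id :=
      Finset.le_sup (f := id) (Finsupp.mem_support_iff.2 hne)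
    have h2 : (φ i).support.sup id ≤ (Finset.range n).sup (fun i => (φ i).support.sup id) :=
      Finset.le_sup (f := fun i => (φ i).support.sup id) (Finset.mem_range.2 hi)
    omega
  obtain ⟨P, hP⟩ := exists_sbU_poly (R := R) (σ := Unit)
    (fun i => (cst (φ i) : VR R).mapRange (C : R →+* MvPolynomial Unit R) (map_zero _) +
      Finsupp.single (i + 2 * k) (X ())) f
  have hval : ∀ t : Unit → R, (fun i => ((cst (φ i) : VR R).mapRange
      (C : R →+* MvPolynomial Unit R) (map_zero _) +
      Finsupp.single (i + 2 * k) (X ())).mapRange (eval t) (map_zero _)) =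
      fun i => cst (φ i) + t () • cst (ee (i + 2 * k)) := by
    intro t
    funext i
    rw [Finsupp.mapRange_add (map_add _), cst_mapRange, Finsupp.mapRange_single, eval_X, cst_ee,
      Finsupp.smul_single, smul_eq_mul, mul_one]
  have key : ∀ m, P.coeff m ∈ N.restrictScalars ℂ := by
    refine vand_mvpoly _ P ?_
    intro t ht
    have h1 := hP (fun i => algebraMap ℂ R (t i))
    rw [hval] at h1
    have h2 : (fun i : Unit => (algebraMap ℂ (U R)) (t i)) =
        fun i => C (algebraMap ℂ R (t i)) := rfl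
    rw [h2, ← h1]
    have h3 : (fun i => (cst (φ i) : VR R) + algebraMap ℂ R (t ()) • cst (ee (i + 2 * k))) =
        fun i => cst (φ i + t () • ee (i + 2 * k)) := by
      funext i
      rw [map_add, cst_smul]
    rw [h3]
    refine witt1_smul hN hf (Set.finite_Iio n) hn _ (t () ^ 2) (pow_ne_zero _ (ht ())) ?_
    intro i hi j hj
    have hi' : i < n := hi
    have hj' : j < n := hj
    rw [om_add_smul, hφ i j, (om_far (φ i) j k (hk i hi')).1, (om_far (φ j) i k (hk j hj')).2,
      om_ee_shift]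
    ring
  have h0 := key 0
  have h1 := hP (fun _ => 0)
  rw [hval] at h1
  have h2 : (fun i => (cst (φ i) : VR R) + (0 : R) • cst (ee (i + 2 * k))) =
      fun i => cst (φ i) := by
    funext i
    rw [zero_smul, add_zero]
  have h3 : (fun _ : Unit => (C (0 : R) : U R)) = 0 := by
    funext i
    rw [map_zero]
    rfl
  rw [h2, h3, eval_zero, constantCoeff_eq] at h1
  have h4 : sbC φ f = P.coeff 0 := h1
  rw [h4]
  exact h0

/-- (w2) for finitely many letters -/
theorem witt2' {N : Submodule R (U R)} (hN : GS N) {f : U R} (hf : f ∈ N) {T : Set ℕ}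
    (hfT : f ∈ MP50e386N.LT R T) (φ : ℕ → V)
    (h : ∀ i ∈ T, ∀ j ∈ T, om (φ i) (φ j) = 0) : sbC φ f ∈ N := by
  classical
  have e : sbC φ f = sbC (fun i => if i ∈ T then φ i else 0) f :=
    sbC_congr hfT _ _ fun i hi => by rw [if_pos hi]
  rw [e]
  refine witt2 hN hf _ ?_
  intro i j
  dsimp only
  split_ifs with h1 h2 h2
  · exact h i h1 j h2
  · rw [om_frm, map_zero]
  · rw [om_frm, map_zero, LinearMap.zero_apply]
  · rw [om_frm, map_zero]

theorem witt2I {I : Ideal R} (hI : GSI I) {a : R} (ha : a ∈ I) (φ : ℕ → V)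
    (hφ : Iso φ) : sbR φ a ∈ I := by
  have h1 := witt2 ((GS_ofI I).2 hI) ((C_mem_ofI I a).2 ha) φ hφ
  rw [sbC_C] at h1
  exact (C_mem_ofI I _).1 h1

end MP50e386O
end

section
/-! The sandwich `nn (M1 N) ≤ N ≤ M1 N`, and chain conditions. -/

namespace MP50e386O

open MvPolynomial Pool.Agent.Lib.MP50e386 MP50e386N

variable {R : Type} [CommRing R] [Algebra ℂ R] [GLRing R]

/-- the symplectic form as a bilinear map -/
private noncomputable def omL : V →ₗ[ℂ] V →ₗ[ℂ] ℂ :=
  Finsupp.linearCombination ℂ (fun i =>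
    (if Even i then Finsupp.lapply (i + 1) else Finsupp.lapply (i - 1) : V →ₗ[ℂ] ℂ))

private theorem omL_eq (u v : V) : omL u v = om u v := by
  unfold omL
  rw [Finsupp.linearCombination_apply]
  change _ = osf u v
  unfold osf Finsupp.sum
  rw [LinearMap.sum_apply]
  apply Finset.sum_congr rfl
  intro i _
  beta_reduce
  split_ifs
  · simp
  · simp

theorem Iso.lin {φ : ℕ → V} (h : Iso φ) (φ' : ℕ → V) : Iso (fun i => linC φ (φ' i)) := by
  have h0 : omL.compl₁₂ (linC φ) (linC φ) = 0 := by
    apply Finsupp.lhom_ext'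
    intro i
    apply LinearMap.ext_ring
    apply Finsupp.lhom_ext'
    intro j
    apply LinearMap.ext_ring
    change omL (linC φ (ee i)) (linC φ (ee j)) = 0
    rw [linC_ee, linC_ee, omL_eq]
    exact h i j
  intro i j
  have h1 := congrArg (fun f : V →ₗ[ℂ] V →ₗ[ℂ] ℂ => f (φ' i) (φ' j)) h0
  change omL (linC φ (φ' i)) (linC φ (φ' j)) = 0 at h1
  rw [omL_eq] at h1
  exact h1

theorem M1_le (S : Finset ℕ) (N : Submodule R (U R)) : M1 S N ≤ MS R S := fun _ hf => hf.1

theorem M1_GLS (S : Finset ℕ) (N : Submodule R (U R)) : GLS (M1 S N) := by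
  intro φ f hf
  refine ⟨GLS_MS S φ f hf.1, fun φ' hφ' => ?_⟩
  rw [sbC_sbC]
  exact hf.2 _ (hφ'.lin φ)

theorem M1_mono {S : Finset ℕ} {N N' : Submodule R (U R)} (h : N ≤ N') : M1 S N ≤ M1 S N' :=
  fun _ hf => ⟨hf.1, fun φ hφ => h (hf.2 φ hφ)⟩

theorem le_M1 {S : Finset ℕ} {N : Submodule R (U R)} (hN : GS N) (h : N ≤ MS R S) :
    N ≤ M1 S N := fun _ hf => ⟨h hf, fun φ hφ => witt2 hN hf φ hφ⟩

theorem nn_mono {M M' : Submodule R (U R)} (h : M ≤ M') : nn M ≤ nn M' := by
  unfold nn
  apply Submodule.span_mono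
  rintro f ⟨φ, hφ, g, hg, rfl⟩
  exact ⟨φ, hφ, g, h hg, rfl⟩

private theorem linC_smul_g (g : Cinf ≃ₗ[ℂ] Cinf) (c : ℂ) (v : V) :
    linC (fun i => c • g (ee i)) v = c • g v := by
  have h0 : linC (fun i => c • g (ee i)) = c • g.toLinearMap := by
    apply Finsupp.lhom_ext'
    intro i
    apply LinearMap.ext_ring
    change linC (fun i => c • g (ee i)) (ee i) = c • g (ee i)
    rw [linC_ee]
  rw [h0]
  rfl

theorem nn_GS {M : Submodule R (U R)} (hM : GLS M) : GS (nn M) := by
  unfold nn
  apply GS_span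
  rintro g hg c hc f ⟨φ, hφ, h, hh, rfl⟩
  apply Submodule.subset_span
  refine ⟨fun i => linC (fun i => c • g (ee i)) (φ i), ?_, h, hh, sbC_sbC _ _ _⟩
  intro i j
  simp only [linC_smul_g]
  rw [← omL_eq, map_smul, map_smul, LinearMap.smul_apply, omL_eq]
  change c • c • osf (g (φ i)) (g (φ j)) = 0
  rw [hg.2]
  have h3 : osf (φ i) (φ j) = 0 := hφ i j
  rw [h3, smul_zero, smul_zero]

theorem nn_le {M : Submodule R (U R)} (hM : GLS M) : nn M ≤ M := by
  unfold nn
  rw [Submodule.span_le]
  rintro f ⟨φ, hφ, g, hg, rfl⟩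
  exact hM φ g hg

theorem nn_M1_le (S : Finset ℕ) (N : Submodule R (U R)) : nn (M1 S N) ≤ N := by
  unfold nn
  rw [Submodule.span_le]
  rintro f ⟨φ, hφ, g, hg, rfl⟩
  exact hg.2 φ hφ

theorem mem_nn_of_iso_letters {M : Submodule R (U R)} {f : U R} (hf : f ∈ M) {T : Set ℕ}
    (hfT : f ∈ MP50e386N.LT R T) (hT : ∀ i ∈ T, ∀ j ∈ T, om (ee i) (ee j) = 0) : f ∈ nn M := by
  classical
  unfold nn
  apply Submodule.subset_span
  refine ⟨fun i => if i ∈ T then ee i else 0, ?_, f, hf, ?_⟩
  · intro i j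
    by_cases hi : i ∈ T
    · by_cases hj : j ∈ T
      · simp only [if_pos hi, if_pos hj]
        exact hT i hi j hj
      · simp only [if_neg hj]
        rw [← omL_eq, map_zero]
    · simp only [if_neg hi]
      rw [← omL_eq, map_zero, LinearMap.zero_apply]
  · rw [← sbC_congr hfT ee (fun i => if i ∈ T then ee i else 0)
      (fun i hi => by simp only [if_pos hi]), sbC_id]

theorem smul_mem_nn {M : Submodule R (U R)} {f : U R} (a : R) (hf : f ∈ nn M) : a • f ∈ nn M :=
  Submodule.smul_mem _ a hf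

/-! chain conditions -/

end MP50e386O
end

section
/-! The traces (contractions) `tr a b`, (T1), (T2) of paper section 5. -/

namespace MP50e386O

open MvPolynomial Pool.Agent.Lib.MP50e386 MP50e386N

variable {R : Type} [CommRing R] [Algebra ℂ R] [GLRing R]

omit [Algebra ℂ R] [GLRing R] in
private theorem tR_C_supported (T : Set (ℕ × ℕ)) (r : R) :
    (C r : MvPolynomial (ℕ × ℕ) R) ∈ supported R T := by
  rw [mem_supported, vars_C, Finset.coe_empty]
  exact Set.empty_subset _

private theorem tR_supported {T : Set ℕ} {f : U R} (hf : f ∈ MP50e386N.LT R T) :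
    f ∈ supported R {p : ℕ × ℕ | p.2 ∈ T} := by
  unfold MP50e386N.LT at hf
  induction hf using Algebra.adjoin_induction with
  | mem x hx =>
    rcases hx with ⟨i, hi, j, hj, rfl⟩ | ⟨a, i, hi, rfl⟩
    · exact tR_C_supported _ _
    · exact Algebra.subset_adjoin ⟨(a, i), hi, rfl⟩
  | algebraMap c =>
    have h : (algebraMap ℂ (U R) c) = C (algebraMap ℂ R c) := rfl
    rw [h]
    exact tR_C_supported _ _
  | add x y hx hy ihx ihy => exact Subalgebra.add_mem _ ihx ihy
  | mul x y hx hy ihx ihy => exact Subalgebra.mul_mem _ ihx ihy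

omit [Algebra ℂ R] [GLRing R] in
private theorem tR_comm (p q : ℕ × ℕ) (m : ℕ × ℕ →₀ ℕ) (hp : p ∉ m.support) :
    pderiv p (pderiv q (monomial m (1 : R))) = 0 := by
  rw [pderiv_monomial, pderiv_monomial]
  have h1 : m p = 0 := Finsupp.notMem_support_iff.1 hp
  have h2 : (m - Finsupp.single q 1 : ℕ × ℕ →₀ ℕ) p = 0 := by
    rw [Finsupp.tsub_apply, h1, Nat.zero_sub]
  rw [h2]
  simp

omit [Algebra ℂ R] [GLRing R] in
private theorem tR_comm' (p q : ℕ × ℕ) (m : ℕ × ℕ →₀ ℕ) (hq : q ∉ m.support) :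
    pderiv p (pderiv q (monomial m (1 : R))) = 0 := by
  rw [pderiv_monomial]
  have h1 : m q = 0 := Finsupp.notMem_support_iff.1 hq
  rw [h1]
  simp

omit [GLRing R] in
private theorem tR_mono (a b : ℕ) (T : Finset ℕ) (m : ℕ × ℕ →₀ ℕ)
    (hm : ∀ p ∈ m.support, p.2 ∈ T) :
    tr a b (monomial m (1 : R)) = ∑ i ∈ T, ∑ j ∈ T,
      om (ee i) (ee j) • pderiv (a, i) (pderiv (b, j) (monomial m (1 : R))) := by
  classical
  unfold tr
  have hb : (monomial m (1 : R)) = basisMonomials (ℕ × ℕ) R m := by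
    rw [coe_basisMonomials]
  conv_lhs => rw [hb]
  rw [Module.Basis.constr_basis]
  have h1 : ∀ c : ℕ, m.support.filter (fun p => p.1 = c) ⊆ T.image (fun i => (c, i)) := by
    intro c p hp
    rw [Finset.mem_filter] at hp
    exact Finset.mem_image.2 ⟨p.2, hm p hp.1, Prod.ext hp.2.symm rfl⟩
  have hinj : ∀ c : ℕ, Set.InjOn (fun i : ℕ => (c, i)) (T : Set ℕ) := fun c x _ y _ h =>
    (Prod.ext_iff.1 h).2
  calc (∑ p ∈ m.support, ∑ q ∈ m.support, if p.1 = a ∧ q.1 = b then
        (algebraMap ℂ R (om (ee p.2) (ee q.2))) •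
          pderiv p (pderiv q (monomial m (1 : R))) else 0)
      = ∑ p ∈ m.support.filter (fun p => p.1 = a), ∑ q ∈ m.support.filter (fun p => p.1 = b),
          om (ee p.2) (ee q.2) • pderiv p (pderiv q (monomial m (1 : R))) := by
        rw [Finset.sum_filter]
        refine Finset.sum_congr rfl fun p _ => ?_
        by_cases hp : p.1 = a
        · rw [if_pos hp, Finset.sum_filter]
          refine Finset.sum_congr rfl fun q _ => ?_
          by_cases hq : q.1 = b
          · rw [if_pos ⟨hp, hq⟩, if_pos hq, algebraMap_smul]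
          · rw [if_neg (fun h => hq h.2), if_neg hq]
        · rw [if_neg hp]
          refine Finset.sum_eq_zero fun q _ => ?_
          rw [if_neg (fun h => hp h.1)]
    _ = ∑ p ∈ T.image (fun i => (a, i)), ∑ q ∈ T.image (fun i => (b, i)),
          om (ee p.2) (ee q.2) • pderiv p (pderiv q (monomial m (1 : R))) := by
        have e1 : ∀ p : ℕ × ℕ, ∑ q ∈ m.support.filter (fun p => p.1 = b),
            om (ee p.2) (ee q.2) • pderiv p (pderiv q (monomial m (1 : R))) =
            ∑ q ∈ T.image (fun i => (b, i)),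
              om (ee p.2) (ee q.2) • pderiv p (pderiv q (monomial m (1 : R))) := by
          intro p
          refine Finset.sum_subset (h1 b) fun q hq hq' => ?_
          have : q ∉ m.support := by
            intro h
            apply hq'
            rw [Finset.mem_filter]
            obtain ⟨i, _, rfl⟩ := Finset.mem_image.1 hq
            exact ⟨h, rfl⟩
          rw [tR_comm' p q m this, smul_zero]
        simp only [e1]
        refine Finset.sum_subset (h1 a) fun p hp hp' => ?_
        have : p ∉ m.support := by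
          intro h
          apply hp'
          rw [Finset.mem_filter]
          obtain ⟨i, _, rfl⟩ := Finset.mem_image.1 hp
          exact ⟨h, rfl⟩
        refine Finset.sum_eq_zero fun q _ => ?_
        rw [tR_comm p q m this, smul_zero]
    _ = _ := by
        rw [Finset.sum_image (hinj a)]
        refine Finset.sum_congr rfl fun i _ => ?_
        rw [Finset.sum_image (hinj b)]

/-- (T1) for a finite set of letters -/
theorem tr_eq' (a b : ℕ) (T : Finset ℕ) (f : U R) (hf : f ∈ MP50e386N.LT R (T : Set ℕ)) :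
    tr a b f = ∑ i ∈ T, ∑ j ∈ T, om (ee i) (ee j) • pderiv (a, i) (pderiv (b, j) f) := by
  have h1 := mem_supported.1 (tR_supported hf)
  have h2 : ∀ m ∈ f.support, ∀ p ∈ m.support, p.2 ∈ T := by
    intro m hm p hp
    exact h1 ((mem_vars_iff_mem_support p).2 ⟨m, hm, hp⟩)
  have h3 : f = ∑ m ∈ f.support, coeff m f • monomial m (1 : R) := by
    conv_lhs => rw [as_sum f]
    refine Finset.sum_congr rfl fun m _ => ?_
    rw [smul_monomial, smul_eq_mul, mul_one]
  have h4 : ∀ i j, pderiv (a, i) (pderiv (b, j) f) = ∑ m ∈ f.support,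
      coeff m f • pderiv (a, i) (pderiv (b, j) (monomial m (1 : R))) := by
    intro i j
    conv_lhs => rw [h3]
    rw [map_sum, map_sum]
    refine Finset.sum_congr rfl fun m _ => ?_
    rw [Derivation.map_smul, Derivation.map_smul]
  conv_lhs => rw [h3]
  rw [map_sum]
  simp only [h4]
  have h5 : ∀ m ∈ f.support, tr a b (coeff m f • monomial m (1 : R)) =
      ∑ i ∈ T, ∑ j ∈ T, om (ee i) (ee j) •
        (coeff m f • pderiv (a, i) (pderiv (b, j) (monomial m (1 : R)))) := by
    intro m hm
    rw [map_smul, tR_mono a b T m (h2 m hm), Finset.smul_sum]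
    refine Finset.sum_congr rfl fun i _ => ?_
    rw [Finset.smul_sum]
    refine Finset.sum_congr rfl fun j _ => ?_
    rw [smul_comm]
  rw [Finset.sum_congr rfl h5, Finset.sum_comm]
  refine Finset.sum_congr rfl fun i _ => ?_
  rw [Finset.sum_comm]
  refine Finset.sum_congr rfl fun j _ => ?_
  rw [Finset.smul_sum]

/-- (T1) -/
theorem tr_eq (a b n : ℕ) (f : U R) (hf : f ∈ MP50e386N.LT R (Set.Iio n)) :
    tr a b f = ∑ i ∈ Finset.range n, ∑ j ∈ Finset.range n,
      om (ee i) (ee j) • pderiv (a, i) (pderiv (b, j) f) := by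
  apply tr_eq'
  rw [Finset.coe_range]
  exact hf

private theorem tR_om_ee (k : ℕ) (y : V) :
    om (ee k) y = if Even k then y (k + 1) else y (k - 1) := by
  change osf (Finsupp.single k 1) y = _
  unfold osf
  rw [Finsupp.sum_single_index]
  · split_ifs <;> simp
  · split_ifs <;> simp

private theorem tR_om_left (x y : V) : om x y = x.sum fun k a => a * om (ee k) y := by
  change osf x y = _
  unfold osf
  refine Finsupp.sum_congr fun k _ => ?_
  rw [tR_om_ee]
  split_ifs <;> ring

private theorem tR_om_right (k : ℕ) (y : V) :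
    om (ee k) y = y.sum fun l b => b * om (ee k) (ee l) := by
  have h1 : ∀ c : ℕ, (y.sum fun l b => b * (ee l : V) c) = y c := by
    intro c
    unfold Finsupp.sum
    simp only [ee, Finsupp.single_apply, mul_ite, mul_one, mul_zero]
    rw [Finset.sum_ite_eq']
    split_ifs with h
    · rfl
    · exact (Finsupp.notMem_support_iff.1 h).symm
  simp only [tR_om_ee]
  split_ifs with h
  · exact (h1 (k + 1)).symm
  · exact (h1 (k - 1)).symm

private theorem tR_om (x y : V) (N : ℕ) (hx : ∀ k, x k ≠ 0 → k < N) (hy : ∀ k, y k ≠ 0 → k < N) :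
    om x y = ∑ k ∈ Finset.range N, ∑ l ∈ Finset.range N, x k * y l * om (ee k) (ee l) := by
  have h1 : om x y = ∑ k ∈ Finset.range N, x k * om (ee k) y := by
    rw [tR_om_left]
    unfold Finsupp.sum
    refine Finset.sum_subset (fun k hk => ?_) fun k _ hk => ?_
    · exact Finset.mem_range.2 (hx k (Finsupp.mem_support_iff.1 hk))
    · beta_reduce
      rw [Finsupp.notMem_support_iff.1 hk, zero_mul]
  rw [h1]
  refine Finset.sum_congr rfl fun k _ => ?_
  have h2 : om (ee k) y = ∑ l ∈ Finset.range N, y l * om (ee k) (ee l) := by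
    rw [tR_om_right]
    unfold Finsupp.sum
    refine Finset.sum_subset (fun l hl => ?_) fun l _ hl => ?_
    · exact Finset.mem_range.2 (hy l (Finsupp.mem_support_iff.1 hl))
    · beta_reduce
      rw [Finsupp.notMem_support_iff.1 hl, zero_mul]
  rw [h2, Finset.mul_sum]
  exact Finset.sum_congr rfl fun l _ => by ring

theorem tr_sbC (φ : ℕ → V) (a b n : ℕ) (f : U R) (hf : f ∈ MP50e386N.LT R (Set.Iio n)) :
    tr a b (sbC φ f) = ∑ i ∈ Finset.range n, ∑ j ∈ Finset.range n,
      om (φ i) (φ j) • sbC φ (pderiv (a, i) (pderiv (b, j) f)) := by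
  classical
  obtain ⟨N, hN⟩ : ∃ N : ℕ, ∀ i < n, ∀ k, φ i k ≠ 0 → k < N := by
    refine ⟨(Finset.range n).sup (fun i => (φ i).support.sup fun k => k + 1), ?_⟩
    intro i hi k hk
    have h1 : k + 1 ≤ (φ i).support.sup fun k => k + 1 :=
      Finset.le_sup (f := fun k => k + 1) (Finsupp.mem_support_iff.2 hk)
    have h2 : ((φ i).support.sup fun k => k + 1) ≤
        (Finset.range n).sup (fun i => (φ i).support.sup fun k => k + 1) :=
      Finset.le_sup (f := fun i => (φ i).support.sup fun k => k + 1) (Finset.mem_range.2 hi)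
    omega
  have h1 : sbC φ f ∈ MP50e386N.LT R (Set.Iio N) := sbC_LT hf φ fun i hi k hk => hN i hi k hk
  rw [tr_eq a b N _ h1]
  have h2 : ∀ k l, pderiv (a, k) (pderiv (b, l) (sbC φ f)) =
      ∑ j ∈ Finset.range n, ∑ i ∈ Finset.range n,
        (φ j l * φ i k) • sbC φ (pderiv (a, i) (pderiv (b, j) f)) := by
    intro k l
    rw [pderiv_sbC φ b l n f hf, map_sum]
    refine Finset.sum_congr rfl fun j _ => ?_
    rw [Derivation.map_smul_of_tower, pderiv_sbC φ a k n _ (pderiv_LT hf _), Finset.smul_sum]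
    refine Finset.sum_congr rfl fun i _ => ?_
    rw [smul_smul]
  simp only [h2, Finset.smul_sum, smul_smul]
  have h3 : ∀ i ∈ Finset.range n, ∀ j ∈ Finset.range n,
      om (φ i) (φ j) • sbC φ (pderiv (a, i) (pderiv (b, j) f)) =
      ∑ k ∈ Finset.range N, ∑ l ∈ Finset.range N,
        (om (ee k) (ee l) * (φ j l * φ i k)) • sbC φ (pderiv (a, i) (pderiv (b, j) f)) := by
    intro i hi j hj
    rw [tR_om (φ i) (φ j) N (hN i (Finset.mem_range.1 hi)) (hN j (Finset.mem_range.1 hj)),
      Finset.sum_smul]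
    refine Finset.sum_congr rfl fun k _ => ?_
    rw [Finset.sum_smul]
    refine Finset.sum_congr rfl fun l _ => ?_
    congr 1
    ring
  rw [Finset.sum_congr rfl fun i hi => Finset.sum_congr rfl fun j hj => h3 i hi j hj]
  -- reorder the sums
  have e1 : ∀ G : ℕ → ℕ → ℕ → ℕ → U R,
      (∑ k ∈ Finset.range N, ∑ l ∈ Finset.range N, ∑ j ∈ Finset.range n,
        ∑ i ∈ Finset.range n, G k l j i) =
      ∑ i ∈ Finset.range n, ∑ j ∈ Finset.range n, ∑ k ∈ Finset.range N,
        ∑ l ∈ Finset.range N, G k l j i := by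
    intro G
    have s1 : ∀ k, ∑ l ∈ Finset.range N, ∑ j ∈ Finset.range n, ∑ i ∈ Finset.range n, G k l j i =
        ∑ i ∈ Finset.range n, ∑ j ∈ Finset.range n, ∑ l ∈ Finset.range N, G k l j i := by
      intro k
      have s2 : ∀ l, ∑ j ∈ Finset.range n, ∑ i ∈ Finset.range n, G k l j i =
          ∑ i ∈ Finset.range n, ∑ j ∈ Finset.range n, G k l j i := fun l => Finset.sum_comm
      simp only [s2]
      rw [Finset.sum_comm]
      refine Finset.sum_congr rfl fun i _ => ?_
      rw [Finset.sum_comm]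
    simp only [s1]
    rw [Finset.sum_comm]
    refine Finset.sum_congr rfl fun i _ => ?_
    rw [Finset.sum_comm]
  exact e1 _

theorem tr_sbC_iso (φ : ℕ → V) (a b : ℕ) (T : Set ℕ) (f : U R) (hf : f ∈ MP50e386N.LT R T) (c : ℂ)
    (h : ∀ i ∈ T, ∀ j ∈ T, om (φ i) (φ j) = c * om (ee i) (ee j)) :
    tr a b (sbC φ f) = c • sbC φ (tr a b f) := by
  obtain ⟨n, hn⟩ := exists_LT f
  rw [tr_sbC φ a b n f hn, tr_eq a b n f hn, map_sum, Finset.smul_sum]
  refine Finset.sum_congr rfl fun i _ => ?_
  rw [map_sum, Finset.smul_sum]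
  refine Finset.sum_congr rfl fun j _ => ?_
  by_cases hi : i ∈ T
  · by_cases hj : j ∈ T
    · rw [h i hi j hj, sbC_smulC, smul_smul]
    · rw [pderiv_eq_zero_of_LT hf b j hj]
      simp
  · rw [pderiv_eq_zero_of_LT (pderiv_LT hf _) a i hi]
    simp

theorem tr_LT {T : Set ℕ} {f : U R} (hf : f ∈ MP50e386N.LT R T) (a b : ℕ) : tr a b f ∈ MP50e386N.LT R T := by
  obtain ⟨n, hn⟩ := exists_LT f
  rw [tr_eq a b n f hn]
  exact Subalgebra.sum_mem _ fun i _ => Subalgebra.sum_mem _ fun j _ =>
    Subalgebra.smul_mem _ (pderiv_LT (pderiv_LT hf _) _) _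

private theorem tR_sdeg_add (a : ℕ) (m m' : ℕ × ℕ →₀ ℕ) :
    sdeg a (m + m') = sdeg a m + sdeg a m' := by
  unfold sdeg
  rw [Finsupp.sum_add_index']
  · intro p; simp
  · intro p k k'
    split_ifs <;> simp

private theorem tR_sdeg_single (a : ℕ) (p : ℕ × ℕ) :
    sdeg a (Finsupp.single p 1) = if p.1 = a then 1 else 0 := by
  unfold sdeg
  rw [Finsupp.sum_single_index]
  simp

omit [Algebra ℂ R] [GLRing R] in
private theorem tR_pderiv_MS {S : Finset ℕ} {a : ℕ} (ha : a ∈ S) (i : ℕ) {f : U R}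
    (hf : f ∈ MS R S) : pderiv (a, i) f ∈ MS R (S.erase a) := by
  unfold MS at hf ⊢
  rw [mem_restrictSupport_iff] at hf ⊢
  intro m hm a'
  have h1 : coeff (m + Finsupp.single (a, i) 1) f ≠ 0 := by
    intro h
    rw [Finset.mem_coe, mem_support_iff, coeff_pderiv, h, zero_mul] at hm
    exact hm rfl
  have h2 := hf (Finset.mem_coe.2 (mem_support_iff.2 h1)) a'
  rw [tR_sdeg_add, tR_sdeg_single] at h2
  by_cases haa : a' = a
  · subst haa
    simp only [if_true, if_pos ha] at h2
    rw [if_neg (Finset.notMem_erase _ _)]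
    omega
  · have h3 : ¬ (a = a') := fun h => haa h.symm
    simp only [h3, if_false, add_zero] at h2
    rw [h2]
    simp [Finset.mem_erase, haa]

omit [GLRing R] in
private theorem tR_smulC (N : Submodule R (U R)) (c : ℂ) {f : U R} (hf : f ∈ N) : c • f ∈ N := by
  rw [← algebraMap_smul R c f]
  exact Submodule.smul_mem _ _ hf

theorem tr_MS {S : Finset ℕ} {a b : ℕ} (ha : a ∈ S) (hb : b ∈ S) (hab : a ≠ b) {f : U R}
    (hf : f ∈ MS R S) : tr a b f ∈ MS R ((S.erase a).erase b) := by
  obtain ⟨n, hn⟩ := exists_LT f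
  rw [tr_eq a b n f hn, Finset.erase_right_comm]
  exact Submodule.sum_mem _ fun i _ => Submodule.sum_mem _ fun j _ =>
    tR_smulC _ _ (tR_pderiv_MS (Finset.mem_erase.2 ⟨hab, ha⟩) i (tR_pderiv_MS hb j hf))

private theorem tR_om_smul (c : ℂ) (x y : V) : om (c • x) (c • y) = c ^ 2 * om x y := by
  obtain ⟨N, hN⟩ : ∃ N : ℕ, ∀ k, x k ≠ 0 ∨ y k ≠ 0 → k < N := by
    classical
    refine ⟨(x.support ∪ y.support).sup (fun k => k + 1), fun k hk => ?_⟩
    have h1 : k ∈ x.support ∪ y.support := by
      rw [Finset.mem_union, Finsupp.mem_support_iff, Finsupp.mem_support_iff]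
      exact hk
    have h2 : k + 1 ≤ (x.support ∪ y.support).sup fun k => k + 1 :=
      Finset.le_sup (f := fun k => k + 1) h1
    omega
  have hs : ∀ (z : V) (k : ℕ), (c • z) k ≠ 0 → z k ≠ 0 := by
    intro z k hk h
    apply hk
    rw [Finsupp.smul_apply, h, smul_zero]
  rw [tR_om (c • x) (c • y) N (fun k hk => hN k (Or.inl (hs x k hk)))
    (fun k hk => hN k (Or.inr (hs y k hk))), tR_om x y N (fun k hk => hN k (Or.inl hk))
    (fun k hk => hN k (Or.inr hk)), Finset.mul_sum]
  refine Finset.sum_congr rfl fun k _ => ?_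
  rw [Finset.mul_sum]
  refine Finset.sum_congr rfl fun l _ => ?_
  rw [Finsupp.smul_apply, Finsupp.smul_apply, smul_eq_mul, smul_eq_mul]
  ring

theorem tr_sp (g : Cinf ≃ₗ[ℂ] Cinf) (hg : IsSo g) (c : ℂ) (a b : ℕ) (f : U R) :
    tr a b (sbC (fun i => c • g (ee i)) f) = c ^ 2 • sbC (fun i => c • g (ee i)) (tr a b f) := by
  refine tr_sbC_iso _ a b Set.univ f (by rw [LT_univ]; exact Algebra.mem_top) _ fun i _ j _ => ?_
  rw [tR_om_smul]
  exact congrArg (fun z => c ^ 2 * z) (hg.2 (ee i) (ee j))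

theorem GS_map_tr {N : Submodule R (U R)} (hN : GS N) (a b : ℕ) : GS (N.map (tr a b)) := by
  intro g hg c hc f' hf'
  obtain ⟨f, hf, rfl⟩ := Submodule.mem_map.1 hf'
  have h1 := tr_sp (R := R) g hg c a b f
  have h2 : sbC (fun i => c • g (ee i)) (tr a b f) =
      (c ^ 2)⁻¹ • tr a b (sbC (fun i => c • g (ee i)) f) := by
    rw [h1, smul_smul, inv_mul_cancel₀ (pow_ne_zero 2 hc), one_smul]
  rw [h2]
  exact tR_smulC _ _ (Submodule.mem_map_of_mem (hN g hg c hc f hf))

theorem GS_ker_tr {N : Submodule R (U R)} (hN : GS N) (a b : ℕ) :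
    GS (N ⊓ LinearMap.ker (tr a b)) := by
  intro g hg c hc f hf
  refine Submodule.mem_inf.2 ⟨hN g hg c hc f hf.1, ?_⟩
  rw [LinearMap.mem_ker, tr_sp g hg c a b f, LinearMap.mem_ker.1 hf.2, map_zero, smul_zero]

end MP50e386O
end
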