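import Mathlib
import Pool.Agent.Lib.MP_50e386_al.B.Ob
import Pool.Agent.Lib.MP_50e386_al.B.Ea

section
/-! Paper 5.7 (a). -/

namespace MP50e386O

open MvPolynomial Pool.Agent.Lib.MP50e386 MP50e386N

variable {R : Type} [CommRing R] [Algebra ℂ R] [GLRing R]

private noncomputable def TL1_phi {r k : ℕ} (w : Fin r → V) (c : Fin k → V) (i : ℕ) : V :=
  if h : i < r then w ⟨i, h⟩ else if h' : i - r < k then c ⟨i - r, h'⟩ else 0

private theorem TL1_om_zero_left (v : V) : om 0 v = 0 := by
  show osf 0 v = 0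
  unfold osf
  exact Finsupp.sum_zero_index

private theorem TL1_om_zero_right (v : V) : om v 0 = 0 := by
  show osf v 0 = 0
  unfold osf
  rw [Finsupp.sum]
  refine Finset.sum_eq_zero fun i _ => ?_
  split_ifs <;> simp

private theorem TL1_iso {r k : ℕ} (w : Fin r → V) (c : Fin k → V) (h : Iso (Sum.elim w c)) :
    Iso (TL1_phi w c) := by
  have key : ∀ i, TL1_phi w c i = 0 ∨ ∃ x : Fin r ⊕ Fin k, TL1_phi w c i = Sum.elim w c x := by
    intro i
    unfold TL1_phi
    split_ifs with h1 h2
    · exact Or.inr ⟨Sum.inl ⟨i, h1⟩, rfl⟩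
    · exact Or.inr ⟨Sum.inr ⟨i - r, h2⟩, rfl⟩
    · exact Or.inl rfl
  intro i j
  rcases key i with hi | ⟨x, hx⟩
  · rw [hi]; exact TL1_om_zero_left _
  · rcases key j with hj | ⟨y, hy⟩
    · rw [hj]; exact TL1_om_zero_right _
    · rw [hx, hy]; exact h x y

theorem TLa {r s : ℕ} {h : Ideal R} (P : Pkg R r s h) (N : Ideal R) (hN : GSI N) (hne : N ≠ ⊥) :
    ∃ k q : ℕ, ∀ (w : Fin r → V) (c : Fin k → V), Iso (Sum.elim w c) → hh s q w c ∈ N := by
  set M : Submodule R (U R) := M1 ∅ (ofI N) with hM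
  set I : Ideal R := Submodule.comap (Algebra.linearMap R (U R)) M with hI
  have hmemI : ∀ a : R, a ∈ I ↔ (C a : U R) ∈ M := fun a => Iff.rfl
  have hle : M ≤ ofI ⊤ := by
    rw [← MS_empty]
    exact M1_le ∅ (ofI N)
  have hMI : ofI I = M := by
    apply le_antisymm
    · intro f hf
      obtain ⟨a, ha, rfl⟩ := (mem_ofI I f).1 hf
      exact (hmemI a).1 ha
    · intro f hf
      obtain ⟨a, -, rfl⟩ := (mem_ofI ⊤ f).1 (hle hf)
      exact (mem_ofI I _).2 ⟨a, (hmemI a).2 hf, rfl⟩
  have hGLSI : GLSI I := by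
    rw [← GLS_ofI, hMI]
    exact M1_GLS ∅ (ofI N)
  have hNle : ofI N ≤ M := by
    refine le_M1 ((GS_ofI N).2 hN) ?_
    rw [MS_empty, ofI_le]
    exact le_top
  have hNI : N ≤ I := by
    rw [← ofI_le, hMI]
    exact hNle
  have hIne : I ≠ ⊥ := by
    intro h0
    apply hne
    rw [h0] at hNI
    exact le_bot_iff.1 hNI
  obtain ⟨a, ha⟩ := P.p5 I hGLSI hIne
  obtain ⟨k, q, hkq⟩ := P.p4 a
  refine ⟨k, q, fun w c hiso => ?_⟩
  have h1 : hh s q (fun i : Fin r => ee i.val) (fun j : Fin k => ee (r + j.val)) ∈ I :=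
    ha (hkq _ _)
  have h2 := ((hmemI _).1 h1).2 (TL1_phi w c) (TL1_iso w c hiso)
  rw [sbC_C, C_mem_ofI, sbR_hh] at h2
  have e1 : (fun i : Fin r => linC (TL1_phi w c) (ee i.val)) = w := by
    funext i
    rw [linC_ee]
    unfold TL1_phi
    rw [dif_pos i.2]
  have e2 : (fun j : Fin k => linC (TL1_phi w c) (ee (r + j.val))) = c := by
    funext j
    rw [linC_ee]
    unfold TL1_phi
    rw [dif_neg (by omega), dif_pos (by omega)]
    congr 1
    apply Fin.ext
    show r + j.val - r = j.val
    omega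
  rw [e1, e2] at h2
  exact h2

/-- more `c`'s and larger exponents are harmless -/
theorem hh_mem_mono {s r k k' q q' : ℕ} (hk : k ≤ k') (hq : q ≤ q') (N : Ideal R)
    (h : ∀ (w : Fin r → V) (c : Fin k → V), Iso (Sum.elim w c) → hh s q w c ∈ N)
    (w : Fin r → V) (c : Fin k' → V)
    (hc : ∀ e : Fin k → V, (∀ j, ∃ hj : j.val < k', e j = c ⟨j.val, hj⟩) → Iso (Sum.elim w e)) :
    hh s q' w c ∈ N := by
  have h1 := h w (fun j => c (Fin.castLE hk j)) (hc _ fun j => ⟨lt_of_lt_of_le j.2 hk, rfl⟩)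
  refine Ideal.mem_of_dvd N ?_ h1
  unfold hh
  refine mul_dvd_mul ?_ (pow_dvd_pow _ hq)
  exact Ek_mono s w _ c ⟨⟨Fin.castLE hk, Fin.castLE_injective hk⟩, fun j => rfl⟩

end MP50e386O
end

section
/-! Paper 5.7 (c3): Nullstellensatz in the polynomial ring of symmetric `2n × 2n` matrices. -/

namespace MP50e386O

open MvPolynomial Pool.Agent.Lib.MP50e386 MP50e386N MP50e386 Module

section

variable {W : Type} [AddCommGroup W] [Module ℂ W] [FiniteDimensional ℂ W]

private theorem ns_le_rank (F : LinearMap.BilinForm ℂ W) {k : ℕ} (v : Fin k → W)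
    (h : (Matrix.of fun i j : Fin k => F (v i) (v j)).det ≠ 0) :
    k ≤ finrank ℂ (LinearMap.range F) := by
  have hli : LinearIndependent ℂ
      (fun i : Fin k => (⟨F (v i), LinearMap.mem_range_self F (v i)⟩ : LinearMap.range F)) := by
    rw [Fintype.linearIndependent_iff]
    intro c hc
    have h1 : ∑ i, c i • F (v i) = 0 := by
      have := congrArg (Submodule.subtype (LinearMap.range F)) hc
      simpa [map_sum] using this
    have h2 : Matrix.vecMul c (Matrix.of fun i j : Fin k => F (v i) (v j)) = 0 := by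
      funext j
      have h3 := congrArg (fun f : W →ₗ[ℂ] ℂ => f (v j)) h1
      simp only [LinearMap.sum_apply, LinearMap.smul_apply, LinearMap.zero_apply, smul_eq_mul] at h3
      simpa [Matrix.vecMul, dotProduct] using h3
    have h4 := Matrix.eq_zero_of_vecMul_eq_zero h h2
    intro i
    rw [h4]
    rfl
  simpa using hli.fintype_card_le_finrank

omit [FiniteDimensional ℂ W] in
private theorem ns_minor (F : LinearMap.BilinForm ℂ W) {k : ℕ}
    (hk : k ≤ finrank ℂ (LinearMap.range F)) :
    ∃ a b : Fin k → W, (Matrix.of fun i j : Fin k => F (a i) (b j)).det ≠ 0 := by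
  obtain ⟨f, hf⟩ := exists_linearIndependent_of_le_finrank hk
  have hch : ∀ i, ∃ a : W, F a = (f i : W →ₗ[ℂ] ℂ) := fun i => (f i).2
  choose a ha using hch
  have hli : LinearIndependent ℂ (fun i => F (a i)) := by
    have := hf.map' (LinearMap.range F).subtype (Submodule.ker_subtype _)
    have he : (⇑(LinearMap.range F).subtype ∘ f) = fun i => F (a i) := by
      funext i
      rw [ha i]
      rfl
    rwa [he] at this
  set Φ : W →ₗ[ℂ] (Fin k → ℂ) := LinearMap.pi (fun i => F (a i)) with hΦ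
  have hsur : LinearMap.range Φ = ⊤ := by
    by_contra hne
    obtain ⟨g, hg0, hg⟩ := Submodule.exists_le_ker_of_lt_top _ (lt_top_iff_ne_top.2 hne)
    apply hg0
    have h1 : ∑ i, g (Pi.single i 1) • F (a i) = 0 := by
      ext w
      have h2 : g (Φ w) = 0 := hg (LinearMap.mem_range_self Φ w)
      have h3 : Φ w = ∑ i, (F (a i) w) • (Pi.single i (1 : ℂ) : Fin k → ℂ) := by
        funext j
        simp [hΦ, Finset.sum_apply, Pi.single_apply]
      rw [h3, map_sum] at h2
      simp only [map_smul, smul_eq_mul] at h2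
      simp only [LinearMap.sum_apply, LinearMap.smul_apply, smul_eq_mul, LinearMap.zero_apply]
      rw [← h2]
      exact Finset.sum_congr rfl fun i _ => mul_comm _ _
    have h4 := Fintype.linearIndependent_iff.1 hli _ h1
    apply LinearMap.pi_ext'
    intro i
    ext
    simpa using h4 i
  have hb : ∀ j : Fin k, ∃ b : W, Φ b = Pi.single j 1 := fun j =>
    LinearMap.range_eq_top.1 hsur _
  choose b hb using hb
  refine ⟨a, b, ?_⟩
  have hm : (Matrix.of fun i j : Fin k => F (a i) (b j)) = 1 := by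
    ext i j
    have := congrFun (hb j) i
    simp only [hΦ, LinearMap.pi_apply] at this
    rw [Matrix.of_apply, this, Matrix.one_apply, Pi.single_apply]
  rw [hm, Matrix.det_one]
  exact one_ne_zero

end

private theorem ns_aeval_det {M k : ℕ} (p : Sym2 (Fin M) → ℂ) (a b : Fin k → Fin M → ℂ) :
    aeval p (Matrix.det (Matrix.of fun i j : Fin k => bilM M (a i) (b j))) =
      (Matrix.of fun i j : Fin k => Matrix.toBilin' (qm p) (a i) (b j)).det := by
  rw [AlgHom.map_det]
  congr 1
  ext i j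
  simp only [AlgHom.mapMatrix_apply, Matrix.map_apply, Matrix.of_apply]
  exact aeval_bilM p (a i) (b j)

/-- a symmetric form of rank `r` on a split quadratic space of dimension at least `4r` has an
isotropic `r`-tuple with the same (invertible) Gram matrix as a given tuple -/
private theorem LAo (n r : ℕ) (X : LinearMap.BilinForm ℂ (Fin (2 * n) → ℂ)) (hX : X.IsSymm)
    (hr : finrank ℂ (LinearMap.ker X) + r = 2 * n) (h : 4 * r ≤ 2 * n)
    (c : Fin r → Fin (2 * n) → ℂ) :
    ∃ v : Fin r → Fin (2 * n) → ℂ, (∀ i j, FN pis sio (2 * n) (v i) (v j) = 0) ∧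
      ∀ i j, X (v i) (v j) = X (c i) (c j) := by
  set F := FN pis sio (2 * n) with hF
  have hnd : F.Nondegenerate := FN_nondeg gdata_so (even_two_mul n)
  have hrefl : F.IsRefl := FN_isRefl gdata_so (2 * n)
  have hsymm : ∀ x y, F x y = F y x := fun x y => (FN_symm' (2 * n)).eq x y
  have hrad : finrank ℂ (radS F (LinearMap.ker X)) ≤ r := by
    have h1 : radS F (LinearMap.ker X) ≤ F.orthogonal (LinearMap.ker X) := by
      intro x hx y hy
      exact (hsymm y x).trans (hx.2 y hy)
    have h2 := Submodule.finrank_mono h1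
    rw [LinearMap.BilinForm.finrank_orthogonal hnd, finrank_fin_fun] at h2
    omega
  obtain ⟨b, hb1, hb2⟩ := exists_gram F hrefl (gam pis sio) (fun i j => gam_shift gdata_so i j)
    (fun i j hi hj => gam_zero_left gdata_so even_two hi hj)
    (fun i j hi hj => gam_zero_right gdata_so even_two hi hj) (gam_D gdata_so) (step_so (2 * n))
    r (LinearMap.ker X) (by omega)
  have hb00 : ∀ i < r, ∀ j < r, F (b (2 * i)) (b (2 * j)) = 0 := by
    intro i hi j hj
    rw [hb2 _ (by omega) _ (by omega)]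
    unfold gam pis
    rw [if_pos (even_two_mul i), if_neg (by omega)]
  have hb11 : ∀ i < r, ∀ j < r, F (b (2 * i + 1)) (b (2 * j + 1)) = 0 := by
    intro i hi j hj
    rw [hb2 _ (by omega) _ (by omega)]
    unfold gam pis
    have h1 : ¬ Even (2 * i + 1) := by
      rw [Nat.even_add_one, not_not]
      exact even_two_mul i
    rw [if_neg h1, if_neg (by omega)]
  have hb01 : ∀ i < r, ∀ j < r, F (b (2 * i)) (b (2 * j + 1)) = if i = j then 1 else 0 := by
    intro i hi j hj
    rw [hb2 _ (by omega) _ (by omega)]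
    unfold gam pis
    rw [if_pos (even_two_mul i)]
    by_cases hij : i = j
    · rw [if_pos hij, if_pos (by omega)]
      rfl
    · rw [if_neg hij, if_neg (by omega)]
  -- the first correction
  set c' : Fin r → Fin (2 * n) → ℂ := fun i => c i - ∑ k : Fin r,
    (F (c i) (b (2 * k + 1)) • b (2 * k) + F (c i) (b (2 * k)) • b (2 * k + 1)) with hc'
  have hc0 : ∀ i, ∀ j : Fin r, F (c' i) (b (2 * j)) = 0 := by
    intro i j
    simp only [hc', map_sub, LinearMap.sub_apply, map_sum, LinearMap.sum_apply, map_add,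
      LinearMap.add_apply, map_smul, LinearMap.smul_apply, smul_eq_mul]
    rw [Finset.sum_eq_single j]
    · rw [hb00 j j.2 j j.2, hsymm (b (2 * j + 1)), hb01 j j.2 j j.2, if_pos rfl]
      ring
    · intro k _ hk
      rw [hb00 k k.2 j j.2, hsymm (b (2 * k + 1)), hb01 j j.2 k k.2,
        if_neg (fun h => hk (Fin.ext h.symm))]
      ring
    · intro h
      exact absurd (Finset.mem_univ j) h
  have hc1 : ∀ i, ∀ j : Fin r, F (c' i) (b (2 * j + 1)) = 0 := by
    intro i j
    simp only [hc', map_sub, LinearMap.sub_apply, map_sum, LinearMap.sum_apply, map_add,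
      LinearMap.add_apply, map_smul, LinearMap.smul_apply, smul_eq_mul]
    rw [Finset.sum_eq_single j]
    · rw [hb11 j j.2 j j.2, hb01 j j.2 j j.2, if_pos rfl]
      ring
    · intro k _ hk
      rw [hb11 k k.2 j j.2, hb01 k k.2 j j.2, if_neg (fun h => hk (Fin.ext h))]
      ring
    · intro h
      exact absurd (Finset.mem_univ j) h
  -- the second correction
  set z : Fin r → Fin (2 * n) → ℂ := fun i => b (2 * i) - ∑ k : Fin r,
    (2⁻¹ * F (c' i) (c' k)) • b (2 * k + 1) with hz
  have hcz : ∀ i j, F (c' i) (z j) = 0 := by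
    intro i j
    simp only [hz, map_sub, map_sum, map_smul, smul_eq_mul, hc0, hc1, mul_zero,
      Finset.sum_const_zero, sub_zero]
  have hzz : ∀ i j, F (z i) (z j) = - F (c' i) (c' j) := by
    intro i j
    have e1 : F (b (2 * i)) (z j) = - (2⁻¹ * F (c' j) (c' i)) := by
      simp only [hz, map_sub, map_sum, map_smul, smul_eq_mul]
      rw [hb00 i i.2 j j.2, Finset.sum_eq_single i]
      · rw [hb01 i i.2 i i.2, if_pos rfl]
        ring
      · intro k _ hk
        rw [hb01 i i.2 k k.2, if_neg (fun h => hk (Fin.ext h.symm)), mul_zero]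
      · intro h
        exact absurd (Finset.mem_univ i) h
    have e2 : ∀ k : Fin r, F (b (2 * k + 1)) (z j) = if k = j then 1 else 0 := by
      intro k
      simp only [hz, map_sub, map_sum, map_smul, smul_eq_mul]
      rw [hsymm, hb01 j j.2 k k.2, Finset.sum_eq_zero, sub_zero]
      · by_cases hkj : k = j
        · rw [if_pos (by rw [hkj]), if_pos hkj]
        · rw [if_neg (fun h => hkj (Fin.ext h.symm)), if_neg hkj]
      · intro k' _
        rw [hb11 k k.2 k' k'.2, mul_zero]
    have e3 : F (z i) (z j) = F (b (2 * i)) (z j) -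
        ∑ k : Fin r, (2⁻¹ * F (c' i) (c' k)) * F (b (2 * k + 1)) (z j) := by
      have e4 : ∀ y, F (z i) y = F (b (2 * i)) y -
          ∑ k : Fin r, (2⁻¹ * F (c' i) (c' k)) * F (b (2 * k + 1)) y := by
        intro y
        simp only [hz, map_sub, LinearMap.sub_apply, map_sum, LinearMap.sum_apply, map_smul,
          LinearMap.smul_apply, smul_eq_mul]
      exact e4 (z j)
    rw [e3, e1, Finset.sum_eq_single j]
    · rw [e2 j, if_pos rfl, hsymm (c' j) (c' i)]
      ring
    · intro k _ hk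
      rw [e2 k, if_neg hk, mul_zero]
    · intro h
      exact absurd (Finset.mem_univ j) h
  have hXb : ∀ k < 2 * r, ∀ y, X (b k) y = 0 := by
    intro k hk y
    have := hb1 k hk
    rw [LinearMap.mem_ker] at this
    rw [this, LinearMap.zero_apply]
  have hXb' : ∀ k < 2 * r, ∀ y, X y (b k) = 0 := by
    intro k hk y
    rw [← hXb k hk y]
    exact (hX.eq (b k) y).symm
  have hdiff : ∀ i, ∀ y, X (c' i + z i) y = X (c i) y := by
    intro i y
    have e1 : X (c' i) y = X (c i) y := by
      simp only [hc', map_sub, LinearMap.sub_apply, map_sum, LinearMap.sum_apply, map_add,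
        LinearMap.add_apply, map_smul, LinearMap.smul_apply, smul_eq_mul]
      rw [Finset.sum_eq_zero, sub_zero]
      intro k _
      rw [hXb _ (by omega), hXb _ (by omega)]
      ring
    have e2 : X (z i) y = 0 := by
      simp only [hz, map_sub, LinearMap.sub_apply, map_sum, LinearMap.sum_apply, map_smul,
        LinearMap.smul_apply, smul_eq_mul]
      rw [hXb _ (by omega), Finset.sum_eq_zero, sub_zero]
      intro k _
      rw [hXb _ (by omega), mul_zero]
    rw [map_add, LinearMap.add_apply, e1, e2, add_zero]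
  refine ⟨fun i => c' i + z i, ?_, ?_⟩
  · intro i j
    have e1 : F (z i) (c' j) = 0 := by rw [hsymm, hcz]
    simp only [map_add, LinearMap.add_apply, hcz, hzz, e1]
    ring
  · intro i j
    rw [hdiff]
    have e2 : X (c i) (c' j + z j) = X (c' j + z j) (c i) := (hX.eq _ _)
    rw [e2, hdiff]
    exact hX.eq _ _

theorem NS (n r q : ℕ) (hn : 2 * r ≤ n) (hq : 1 ≤ q) : ∃ q1 : ℕ,
    ∀ v : Fin r → (Fin (2 * n) → ℂ),
      (Matrix.det (Matrix.of fun i j : Fin r => bilM (2 * n) (v i) (v j))) ^ q1 ∈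
        Ideal.span
          ({f | ∃ a b : Fin (r + 1) → (Fin (2 * n) → ℂ),
              f = Matrix.det (Matrix.of fun i j : Fin (r + 1) => bilM (2 * n) (a i) (b j))} ∪
           {f | ∃ v' : Fin r → (Fin (2 * n) → ℂ),
              (∀ i j, om (jN (2 * n) (v' i)) (jN (2 * n) (v' j)) = 0) ∧
              f = (Matrix.det (Matrix.of fun i j : Fin r => bilM (2 * n) (v' i) (v' j))) ^ q}) := by
  set I := Ideal.span
          ({f | ∃ a b : Fin (r + 1) → (Fin (2 * n) → ℂ),
              f = Matrix.det (Matrix.of fun i j : Fin (r + 1) => bilM (2 * n) (a i) (b j))} ∪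
           {f | ∃ v' : Fin r → (Fin (2 * n) → ℂ),
              (∀ i j, om (jN (2 * n) (v' i)) (jN (2 * n) (v' j)) = 0) ∧
              f = (Matrix.det (Matrix.of fun i j : Fin r => bilM (2 * n) (v' i) (v' j))) ^ q})
    with hI
  obtain ⟨q1, hq1⟩ := I.exists_radical_pow_le_of_fg I.radical.fg_of_isNoetherianRing
  refine ⟨q1, fun v => hq1 (Ideal.pow_mem_pow ?_ q1)⟩
  rw [← vanishingIdeal_zeroLocus_eq_radical (K := ℂ) I, mem_vanishingIdeal_iff]
  intro p hp
  rw [hI, zeroLocus_span] at hp
  rw [ns_aeval_det]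
  by_contra hne
  set F := Matrix.toBilin' (qm p) with hF
  have hge : r ≤ finrank ℂ (LinearMap.range F) := ns_le_rank F v hne
  have hle : finrank ℂ (LinearMap.range F) ≤ r := by
    by_contra hlt
    obtain ⟨a, b, hab⟩ := ns_minor F (k := r + 1) (by omega)
    apply hab
    rw [← ns_aeval_det]
    exact hp _ (Or.inl ⟨a, b, rfl⟩)
  have hrank : finrank ℂ (LinearMap.ker F) + r = finrank ℂ (Fin (2 * n) → ℂ) := by
    have := LinearMap.finrank_range_add_finrank_ker F
    omega
  obtain ⟨v', hv', hX'⟩ := LAo n r F (qm_symm p) (by rw [hrank, finrank_fin_fun]) (by omega) v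
  have hdet : (Matrix.of fun i j : Fin r => F (v' i) (v' j)).det ≠ 0 := by
    simp only [hX']
    exact hne
  apply hdet
  have h3 := hp _ (Or.inr ⟨v', fun i j => by
    have := hv' i j
    rw [FN_apply] at this
    rw [om, MP50e386O.osf_eq]
    exact this, rfl⟩)
  rw [map_pow, ns_aeval_det] at h3
  exact pow_eq_zero_iff (by omega) |>.1 h3

end MP50e386O
end

section
/-! Paper 5.7 (c). -/

namespace MP50e386O

open MvPolynomial Pool.Agent.Lib.MP50e386 MP50e386N

variable {R : Type} [CommRing R] [Algebra ℂ R] [GLRing R]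

private theorem TL2_xv_add_left (v v' w : V) : (xv (v + v') w : R) = xv v w + xv v' w := by
  unfold xv
  rw [map_add, map_add, LinearMap.add_apply]

private theorem TL2_xv_smul_left (a : ℂ) (v w : V) : (xv (a • v) w : R) = a • xv v w := by
  unfold xv
  rw [map_smul, ← algebraMap_smul R a (cst v : VR R), map_smul, LinearMap.smul_apply,
    algebraMap_smul]

private theorem TL2_xv_add_right (v w w' : V) : (xv v (w + w') : R) = xv v w + xv v w' := by
  rw [xv_comm, TL2_xv_add_left, xv_comm w, xv_comm w']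

private theorem TL2_xv_smul_right (a : ℂ) (v w : V) : (xv v (a • w) : R) = a • xv v w := by
  rw [xv_comm, TL2_xv_smul_left, xv_comm w]

private noncomputable def TL2_xvL (R : Type) [CommRing R] [Algebra ℂ R] [GLRing R] :
    V →ₗ[ℂ] V →ₗ[ℂ] R :=
  LinearMap.mk₂ ℂ (fun v w => (xv v w : R)) TL2_xv_add_left TL2_xv_smul_left TL2_xv_add_right
    TL2_xv_smul_right

private theorem TL2_range (n : ℕ) : LinearMap.range (MP50e386.jN (2 * n)) =
    Submodule.span ℂ ((fun i : ℕ => ee i) '' Set.Iio (2 * n)) := by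
  unfold MP50e386.jN
  rw [Fintype.range_linearCombination]
  congr 1
  ext x
  constructor
  · rintro ⟨i, rfl⟩
    exact ⟨i.val, i.2, rfl⟩
  · rintro ⟨i, hi, rfl⟩
    exact ⟨⟨i, hi⟩, rfl⟩

private theorem TL2_mem_L {n : ℕ} {v : V}
    (h : v ∈ Submodule.span ℂ ((fun i : ℕ => ee i) '' Set.Iio (2 * n))) :
    ∃ x, MP50e386.jN (2 * n) x = v := by
  rw [← TL2_range] at h
  exact h

/-- the symplectic form on `ℂ^(2n)` -/
private noncomputable def TL2_F (n : ℕ) : (Fin (2 * n) → ℂ) →ₗ[ℂ] (Fin (2 * n) → ℂ) →ₗ[ℂ] ℂ :=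
  MP50e386.FN MP50e386.pis sio (2 * n)

private theorem TL2_F_apply (n : ℕ) (x y : Fin (2 * n) → ℂ) :
    TL2_F n x y = om (MP50e386.jN (2 * n) x) (MP50e386.jN (2 * n) y) := by
  unfold TL2_F om
  rw [MP50e386.FN_apply, osf_eq]

private theorem TL2_F_anti (n : ℕ) (x y : Fin (2 * n) → ℂ) : TL2_F n x y = TL2_F n y x := by
  unfold TL2_F
  rw [MP50e386.FN_apply, MP50e386.FN_apply, MP50e386.frm_refl_eps gdata_so]
  ring

/-- the extension step -/
private theorem TL2_step (n r k : ℕ) (hrk : r + k ≤ n) (M : ℕ) (hM : M < 2 * n)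
    (u : Fin M → (Fin (2 * n) → ℂ)) (hu : LinearIndependent ℂ u)
    (hi : ∀ i j : Fin M, i.val < r + k → j.val < r + k → TL2_F n (u i) (u j) = 0) :
    ∃ x : Fin (2 * n) → ℂ, LinearIndependent ℂ (Fin.snoc u x : Fin (M + 1) → (Fin (2 * n) → ℂ)) ∧
      ∀ i j : Fin (M + 1), i.val < r + k → j.val < r + k →
        TL2_F n ((Fin.snoc u x : Fin (M + 1) → (Fin (2 * n) → ℂ)) i)
          ((Fin.snoc u x : Fin (M + 1) → (Fin (2 * n) → ℂ)) j) = 0 := by
  have hspan : Module.finrank ℂ (Submodule.span ℂ (Set.range u)) = M := by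
    rw [finrank_span_eq_card hu, Fintype.card_fin]
  by_cases hMk : M < r + k
  · set F : LinearMap.BilinForm ℂ (Fin (2 * n) → ℂ) := TL2_F n with hFdef
    have hnd : F.Nondegenerate := MP50e386.FN_nondeg gdata_so (even_two_mul n)
    have hrefl : F.IsRefl := MP50e386.FN_isRefl gdata_so (2 * n)
    set U := Submodule.span ℂ (Set.range u) with hUdef
    have hKf : Module.finrank ℂ (F.orthogonal U) = 2 * n - M := by
      rw [LinearMap.BilinForm.finrank_orthogonal hnd, Module.finrank_fin_fun, hspan]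
    have hrad : Module.finrank ℂ (MP50e386.radS F (F.orthogonal U)) ≤ M := by
      rw [← hspan]
      apply Submodule.finrank_mono
      intro x hx
      rw [← LinearMap.BilinForm.orthogonal_orthogonal hnd hrefl U]
      intro y hy
      have h1 := hx.2 y hy
      have h2 := TL2_F_anti n y x
      rw [← hFdef] at h2
      exact h2.trans h1
    obtain ⟨x, hxK, y, hyK, hxx, hxy, -, -⟩ := twoStep_split F (MP50e386O.FN_symm' (2 * n))
      (F.orthogonal U) (by rw [hKf]; omega)
    have hxx' : F x x = 0 := by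
      rw [hxx]
      simp [MP50e386.gam, MP50e386.pis]
    have hxy' : F x y = 1 := by
      rw [hxy]
      simp [MP50e386.gam, MP50e386.pis, sio]
    have hx3 : ∀ i, TL2_F n (u i) x = 0 := fun i => hxK (u i) (Submodule.subset_span ⟨i, rfl⟩)
    have hx2 : x ∉ U := by
      intro hx
      have h1 : F x y = 0 := hyK x hx
      rw [hxy'] at h1
      exact one_ne_zero h1
    refine ⟨x, linearIndependent_finSnoc.2 ⟨hu, hx2⟩, ?_⟩
    intro i j
    refine Fin.lastCases ?_ (fun i => ?_) i
    · refine Fin.lastCases ?_ (fun j => ?_) j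
      · intro _ _
        rw [Fin.snoc_last]
        exact hxx'
      · intro _ _
        rw [Fin.snoc_last, Fin.snoc_castSucc, TL2_F_anti, hx3]
    · refine Fin.lastCases ?_ (fun j => ?_) j
      · intro _ _
        rw [Fin.snoc_last, Fin.snoc_castSucc, hx3]
      · intro h5 h6
        rw [Fin.snoc_castSucc, Fin.snoc_castSucc]
        exact hi i j h5 h6
  · have h3 : ¬ (⊤ : Submodule ℂ (Fin (2 * n) → ℂ)) ≤ Submodule.span ℂ (Set.range u) := by
      intro h
      have := Submodule.finrank_mono h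
      rw [hspan, finrank_top, Module.finrank_fin_fun] at this
      omega
    obtain ⟨x, _, hx2⟩ := Set.not_subset.1 h3
    refine ⟨x, linearIndependent_finSnoc.2 ⟨hu, hx2⟩, ?_⟩
    intro i j
    refine Fin.lastCases ?_ (fun i => ?_) i
    · intro h5 _
      rw [Fin.val_last] at h5
      exact absurd h5 hMk
    · refine Fin.lastCases ?_ (fun j => ?_) j
      · intro _ h6
        rw [Fin.val_last] at h6
        exact absurd h6 hMk
      · intro h5 h6
        rw [Fin.snoc_castSucc, Fin.snoc_castSucc]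
        exact hi i j h5 h6

private theorem TL2_ext (n r k : ℕ) (hrk : r + k ≤ n) (v : Fin r → (Fin (2 * n) → ℂ))
    (hv : LinearIndependent ℂ v) (hi : ∀ i j, TL2_F n (v i) (v j) = 0) (M : ℕ) (hrM : r ≤ M)
    (hM : M ≤ 2 * n) :
    ∃ u : Fin M → (Fin (2 * n) → ℂ), LinearIndependent ℂ u ∧
      (∀ i j : Fin M, i.val < r + k → j.val < r + k → TL2_F n (u i) (u j) = 0) ∧
      ∀ (i : Fin r) (h : i.val < M), u ⟨i.val, h⟩ = v i := by
  induction M, hrM using Nat.le_induction with
  | base =>
    refine ⟨v, hv, fun i j _ _ => hi i j, fun i h => rfl⟩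
  | succ M hrM ih =>
    obtain ⟨u, hu1, hu2, hu3⟩ := ih (by omega)
    obtain ⟨x, hx1, hx2⟩ := TL2_step n r k hrk M (by omega) u hu1 hu2
    refine ⟨Fin.snoc u x, hx1, hx2, ?_⟩
    intro i h
    have h1 : i.val < M := lt_of_lt_of_le i.2 hrM
    have h2 : (⟨i.val, h⟩ : Fin (M + 1)) = Fin.castSucc ⟨i.val, h1⟩ := rfl
    rw [h2, Fin.snoc_castSucc]
    exact hu3 i h1

/-- an isotropic independent family of `r` vectors of `ℂ^(2n)` extends to a basis
whose first `r + k` vectors are isotropic (`r + k ≤ n`) -/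
theorem exists_basis_iso (n r k : ℕ) (hrk : r + k ≤ n) (v : Fin r → V)
    (hv : LinearIndependent ℂ v) (hvi : Iso v)
    (hvL : ∀ i, v i ∈ Submodule.span ℂ ((fun i : ℕ => ee i) '' Set.Iio (2 * n))) :
    ∃ y : Fin r ⊕ Fin (2 * n - r) → V, LinearIndependent ℂ y ∧
      Submodule.span ℂ (Set.range y) = Submodule.span ℂ ((fun i : ℕ => ee i) '' Set.Iio (2 * n)) ∧
      (∀ i, y (Sum.inl i) = v i) ∧
      ∀ e : Fin k → V, (∀ j, ∃ hj : j.val < 2 * n - r, e j = y (Sum.inr ⟨j.val, hj⟩)) →
        Iso (Sum.elim v e) := by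
  choose v' hv' using fun i => TL2_mem_L (hvL i)
  have hvv : (fun i => MP50e386.jN (2 * n) (v' i)) = v := funext hv'
  have hli : LinearIndependent ℂ v' := by
    apply LinearIndependent.of_comp (MP50e386.jN (2 * n))
    have : (MP50e386.jN (2 * n)) ∘ v' = v := hvv
    rw [this]
    exact hv
  have hiso : ∀ i j, TL2_F n (v' i) (v' j) = 0 := by
    intro i j
    rw [TL2_F_apply, hv', hv']
    exact hvi i j
  obtain ⟨u, hu1, hu2, hu3⟩ := TL2_ext n r k hrk v' hli hiso (2 * n) (by omega) le_rfl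
  have hru : ∀ i : Fin r, i.val < 2 * n := fun i => by have := i.2; omega
  have hru' : ∀ j : Fin (2 * n - r), r + j.val < 2 * n := fun j => by have := j.2; omega
  let e : Fin r ⊕ Fin (2 * n - r) → Fin (2 * n) :=
    Sum.elim (fun i => ⟨i.val, hru i⟩) (fun j => ⟨r + j.val, hru' j⟩)
  have he : Function.Injective e := by
    rintro (a | a) (b | b) hab
    · have : a.val = b.val := congrArg (fun t : Fin (2 * n) => t.val) hab
      rw [Fin.ext this]
    · have h : a.val = r + b.val := congrArg (fun t : Fin (2 * n) => t.val) hab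
      have := a.2
      omega
    · have h : r + a.val = b.val := congrArg (fun t : Fin (2 * n) => t.val) hab
      have := b.2
      omega
    · have h : r + a.val = r + b.val := congrArg (fun t : Fin (2 * n) => t.val) hab
      have : a.val = b.val := by omega
      rw [Fin.ext this]
  have hue : LinearIndependent ℂ (u ∘ e) := hu1.comp e he
  have hspan : Submodule.span ℂ (Set.range (u ∘ e)) = ⊤ := by
    apply hue.span_eq_top_of_card_eq_finrank'
    rw [Module.finrank_fin_fun, Fintype.card_sum, Fintype.card_fin, Fintype.card_fin]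
    omega
  refine ⟨fun a => MP50e386.jN (2 * n) (u (e a)), ?_, ?_, ?_, ?_⟩
  · exact hue.map' (MP50e386.jN (2 * n))
      (LinearMap.ker_eq_bot.2 (MP50e386.jN_injective (2 * n)))
  · have h1 : Set.range (fun a => MP50e386.jN (2 * n) (u (e a))) =
        (MP50e386.jN (2 * n)) '' (Set.range (u ∘ e)) := by
      rw [← Set.range_comp]
      rfl
    rw [h1, Submodule.span_image, hspan, Submodule.map_top, TL2_range]
  · intro i
    change MP50e386.jN (2 * n) (u ⟨i.val, hru i⟩) = v i
    rw [hu3 i (hru i), hv']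
  · intro e' he'
    have key : ∀ a : Fin r ⊕ Fin k, ∃ i : Fin (2 * n), i.val < r + k ∧
        Sum.elim v e' a = MP50e386.jN (2 * n) (u i) := by
      rintro (a | a)
      · refine ⟨⟨a.val, hru a⟩, ?_, ?_⟩
        · have := a.2
          change a.val < r + k
          omega
        · rw [Sum.elim_inl, hu3 a (hru a), hv']
      · obtain ⟨hj, hj'⟩ := he' a
        refine ⟨⟨r + a.val, hru' ⟨a.val, hj⟩⟩, ?_, ?_⟩
        · have := a.2
          change r + a.val < r + k
          omega
        · rw [Sum.elim_inr, hj']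
          rfl
    intro a b
    obtain ⟨i, hi, hia⟩ := key a
    obtain ⟨j, hj, hjb⟩ := key b
    rw [hia, hjb, ← TL2_F_apply]
    exact hu2 i j hi hj

/-- paper 5.7 (c1) -/
private theorem TL2_c1 {r s : ℕ} (h1 : HP1 R r s) (h2 : HP2 R r) (N : Ideal R) (k q n : ℕ)
    (hrk : r + k ≤ n)
    (hN : ∀ (w : Fin r → V) (c : Fin k → V), Iso (Sum.elim w c) → hh s q w c ∈ N)
    (y : Fin r ⊕ Fin (2 * n - r) → V) (hy : LinearIndependent ℂ y)
    (hyL : Submodule.span ℂ (Set.range y) =
      Submodule.span ℂ ((fun i : ℕ => ee i) '' Set.Iio (2 * n)))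
    (v : Fin r → V)
    (hvL : ∀ i, v i ∈ Submodule.span ℂ ((fun i : ℕ => ee i) '' Set.Iio (2 * n)))
    (hvi : Iso v) :
    (Ev s y * dl y ^ s * Dl v ^ (s * (2 * n - r) + q + 1) : R) ∈ N := by
  by_cases hv : LinearIndependent ℂ v
  swap
  · rw [Dl_eq_zero v hv, pow_succ, mul_zero, mul_zero]
    exact N.zero_mem
  obtain ⟨y', hy'1, hy'2, hy'3, hy'4⟩ := exists_basis_iso n r k hrk v hv hvi hvL
  have hv' : (fun i => y' (Sum.inl i)) = v := funext hy'3
  have h3 : (hh s q v (fun j => y' (Sum.inr j)) : R) ∈ N :=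
    hh_mem_mono (by omega) le_rfl N hN v (fun j => y' (Sum.inr j)) hy'4
  have hg : ∀ j, ∃ c : Fin r ⊕ Fin (2 * n - r) → ℂ, ∑ i, c i • y i = y' j := by
    intro j
    have h4 : y' j ∈ Submodule.span ℂ (Set.range y) := by
      rw [hyL, ← hy'2]
      exact Submodule.subset_span ⟨j, rfl⟩
    exact (Submodule.mem_span_range_iff_exists_fun ℂ).1 h4
  choose c hc using hg
  let g : Matrix (Fin r ⊕ Fin (2 * n - r)) (Fin r ⊕ Fin (2 * n - r)) ℂ :=
    Matrix.of fun i j => c j i
  have hgy : (fun j => ∑ i, g i j • y i) = y' := funext hc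
  have hdet : g.det ≠ 0 := by
    intro h0
    obtain ⟨x, hx, hx0⟩ := Matrix.exists_mulVec_eq_zero_iff.2 h0
    apply hx
    have h5 : ∑ j, x j • y' j = 0 := by
      have h6 : ∀ j, x j • y' j = ∑ i, (g i j * x j) • y i := by
        intro j
        rw [← hc j, Finset.smul_sum]
        refine Finset.sum_congr rfl fun i _ => ?_
        rw [smul_smul, mul_comm]
        rfl
      rw [Finset.sum_congr rfl fun j _ => h6 j, Finset.sum_comm]
      refine Finset.sum_eq_zero fun i _ => ?_
      rw [← Finset.sum_smul]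
      have h7 : ∑ j, g i j * x j = 0 := congrFun hx0 i
      rw [h7, zero_smul]
    funext j
    exact Fintype.linearIndependent_iff.1 hy'1 x h5 j
  have h4 := frame h1 h2 y hy g hdet
  rw [hgy] at h4
  have hdl : (dl y' : R) = Dl v := by
    unfold dl
    rw [hv']
  have hEv : (hh s q v (fun j => y' (Sum.inr j)) : R) = Ev s y' * Dl v ^ q := by
    rw [← hv']
    rfl
  rw [hdl] at h4
  rw [hEv] at h3
  have h5 : (algebraMap ℂ R ((g.det ^ (2 * s))⁻¹)) * algebraMap ℂ R (g.det ^ (2 * s)) = 1 := by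
    rw [← map_mul, inv_mul_cancel₀ (pow_ne_zero _ hdet), map_one]
  have h6 : (Ev s y * dl y ^ s * Dl v ^ (s * (2 * n - r) + q + 1) : R) =
      (algebraMap ℂ R ((g.det ^ (2 * s))⁻¹) * (dl y ^ (s * (2 * n - r)) * Dl v ^ (s + 1))) *
        (Ev s y' * Dl v ^ q) := by
    rw [add_assoc, pow_add (Dl v : R) (s * (2 * n - r)) (q + 1), pow_add (Dl v : R) q 1,
      pow_add (Dl v : R) s 1, pow_one]
    linear_combination
      (-(Ev s y * dl y ^ s * Dl v ^ (s * (2 * n - r)) * (Dl v ^ q * Dl v)) : R) * h5 -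
      (algebraMap ℂ R ((g.det ^ (2 * s))⁻¹) * (Dl v ^ q * Dl v)) * h4
  rw [h6]
  exact N.mul_mem_left _ h3

theorem TLc {r s : ℕ} (h1 : HP1 R r s) (h2 : HP2 R r) (N : Ideal R) (k q n : ℕ)
    (hn : 2 * r ≤ n) (hrk : r + k ≤ n)
    (hN : ∀ (w : Fin r → V) (c : Fin k → V), Iso (Sum.elim w c) → hh s q w c ∈ N) :
    ∃ q' : ℕ, ∀ y : Fin r ⊕ Fin (2 * n - r) → V, LinearIndependent ℂ y →
      Submodule.span ℂ (Set.range y) = Submodule.span ℂ ((fun i : ℕ => ee i) '' Set.Iio (2 * n)) →
      hh s q' (fun i => y (Sum.inl i)) (fun j => y (Sum.inr j)) ∈ N := by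
  obtain ⟨q1, hq1⟩ := NS n r (s * (2 * n - r) + q + 1) hn (by omega)
  refine ⟨q1 + (s + r + 1), fun y hy hyL => ?_⟩
  have hc1 := TL2_c1 h1 h2 N k q n hrk hN y hy hyL
  have hmem : ∀ i, y i ∈ Submodule.span ℂ ((fun i : ℕ => ee i) '' Set.Iio (2 * n)) := by
    intro i
    rw [← hyL]
    exact Submodule.subset_span ⟨i, rfl⟩
  choose v hv using fun i : Fin r => TL2_mem_L (hmem (Sum.inl i))
  have hdet : ∀ (t : ℕ) (a b : Fin t → (Fin (2 * n) → ℂ)),
      toR R (2 * n) (Matrix.det (Matrix.of fun i j : Fin t => MP50e386.bilM (2 * n) (a i) (b j))) =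
        Matrix.det (Matrix.of fun i j : Fin t =>
          (xv (MP50e386.jN (2 * n) (a i)) (MP50e386.jN (2 * n) (b j)) : R)) := by
    intro t a b
    rw [AlgHom.map_det]
    congr 1
    ext i j
    rw [AlgHom.mapMatrix_apply, Matrix.map_apply, Matrix.of_apply, Matrix.of_apply, toR_bilM]
  have key : ∀ f ∈ Ideal.span
          ({f | ∃ a b : Fin (r + 1) → (Fin (2 * n) → ℂ),
              f = Matrix.det (Matrix.of fun i j : Fin (r + 1) =>
                MP50e386.bilM (2 * n) (a i) (b j))} ∪
           {f | ∃ v' : Fin r → (Fin (2 * n) → ℂ),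
              (∀ i j, om (MP50e386.jN (2 * n) (v' i)) (MP50e386.jN (2 * n) (v' j)) = 0) ∧
              f = (Matrix.det (Matrix.of fun i j : Fin r =>
                MP50e386.bilM (2 * n) (v' i) (v' j))) ^ (s * (2 * n - r) + q + 1)}),
      toR R (2 * n) f * (Ev s y * dl y ^ (s + r + 1)) ∈ N := by
    intro f hf
    induction hf using Submodule.span_induction with
    | mem f hf =>
      rcases hf with ⟨a, b, rfl⟩ | ⟨v', hv', rfl⟩
      · rw [hdet]
        have h3 := det_mul_Ev h1 y (fun i => MP50e386.jN (2 * n) (a i))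
          (fun i => MP50e386.jN (2 * n) (b i)) (fun i => by
            rw [hyL, ← TL2_range]
            exact ⟨a i, rfl⟩)
        have h4 : (Matrix.det (Matrix.of fun i j : Fin (r + 1) =>
              (xv (MP50e386.jN (2 * n) (a i)) (MP50e386.jN (2 * n) (b j)) : R))) *
            (Ev s y * dl y ^ (s + r + 1)) = 0 := by
          rw [add_assoc, pow_add]
          linear_combination dl y ^ s * h3
        rw [h4]
        exact N.zero_mem
      · rw [map_pow, hdet]
        have h3 := hc1 (fun i => MP50e386.jN (2 * n) (v' i)) (fun i => by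
            rw [← TL2_range]
            exact ⟨v' i, rfl⟩) hv'
        have h4 := N.mul_mem_left (dl y ^ (r + 1)) h3
        have h5 : (Matrix.det (Matrix.of fun i j : Fin r =>
              (xv (MP50e386.jN (2 * n) (v' i)) (MP50e386.jN (2 * n) (v' j)) : R))) ^
              (s * (2 * n - r) + q + 1) * (Ev s y * dl y ^ (s + r + 1)) =
            dl y ^ (r + 1) * (Ev s y * dl y ^ s *
              Dl (fun i => MP50e386.jN (2 * n) (v' i)) ^ (s * (2 * n - r) + q + 1)) := by
          have h6 : (Matrix.det (Matrix.of fun i j : Fin r =>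
              (xv (MP50e386.jN (2 * n) (v' i)) (MP50e386.jN (2 * n) (v' j)) : R))) =
              Dl (fun i => MP50e386.jN (2 * n) (v' i)) := rfl
          rw [h6]
          ring
        rw [h5]
        exact h4
    | zero =>
      rw [map_zero, zero_mul]
      exact N.zero_mem
    | add x y _ _ hx hy =>
      rw [map_add, add_mul]
      exact N.add_mem hx hy
    | smul a x _ hx =>
      rw [smul_eq_mul, map_mul, mul_assoc]
      exact N.mul_mem_left _ hx
  have h3 := key _ (hq1 v)
  rw [map_pow, hdet] at h3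
  have h4 : (fun i => MP50e386.jN (2 * n) (v i)) = fun i => y (Sum.inl i) := funext hv
  have h5 : (Matrix.det (Matrix.of fun i j : Fin r =>
      (xv (MP50e386.jN (2 * n) (v i)) (MP50e386.jN (2 * n) (v j)) : R))) = dl y := by
    unfold dl
    rw [← h4]
    rfl
  rw [h5] at h3
  have h6 : (hh s (q1 + (s + r + 1)) (fun i => y (Sum.inl i)) (fun j => y (Sum.inr j)) : R) =
      dl y ^ q1 * (Ev s y * dl y ^ (s + r + 1)) := by
    have h7 : (hh s (q1 + (s + r + 1)) (fun i => y (Sum.inl i)) (fun j => y (Sum.inr j)) : R) =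
      Ev s y * dl y ^ (q1 + (s + r + 1)) := rfl
    rw [h7, pow_add]
    ring
  rw [h6]
  exact h3

end MP50e386O
end

section
/-! Paper 5.7 (d). -/

namespace MP50e386O

open MvPolynomial Pool.Agent.Lib.MP50e386 MP50e386N

variable {R : Type} [CommRing R] [Algebra ℂ R] [GLRing R]

/-! ### the symplectic basis -/

section symp

open _root_.MP50e386 (frm pis gam)
open MP50e386O.T5 (B om_eq)

/-- a family with nonzero Gram determinant is independent -/
private theorem tl3_indep {ι : Type} [Fintype ι] [DecidableEq ι] (y : ι → V)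
    (hy : (Matrix.of fun i j : ι => om (y i) (y j)).det ≠ 0) : LinearIndependent ℂ y := by
  rw [Fintype.linearIndependent_iff]
  intro a ha
  have h1 : Matrix.vecMul a (Matrix.of fun i j : ι => om (y i) (y j)) = 0 := by
    funext j
    have h2 : B (∑ i, a i • y i) (y j) = 0 := by rw [ha, map_zero, LinearMap.zero_apply]
    rw [T5.B_suml] at h2
    simp only [T5.B_sl] at h2
    simp only [Matrix.vecMul, dotProduct, Matrix.of_apply, Pi.zero_apply, om_eq]
    exact h2
  have h3 := Matrix.eq_zero_of_vecMul_eq_zero hy h1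
  intro i
  exact congrFun h3 i

private theorem tl3_ee_indep (m : ℕ) : LinearIndependent ℂ (fun i : Fin m => (ee i : V)) := by
  have h1 : LinearIndependent ℂ (fun i : ℕ => (ee i : V)) :=
    Finsupp.basisSingleOne.linearIndependent
  exact h1.comp _ Fin.val_injective

private theorem tl3_range (m : ℕ) (f : ℕ → V) :
    Set.range (fun i : Fin m => f i) = (fun i : ℕ => f i) '' Set.Iio m := by
  ext x
  constructor
  · rintro ⟨i, rfl⟩
    exact ⟨i, i.2, rfl⟩
  · rintro ⟨i, hi, rfl⟩
    exact ⟨⟨i, hi⟩, rfl⟩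

/-- a nondegenerate `2n`-dimensional space is the image of the standard one under `O_∞` -/
theorem exists_so_span (n : ℕ) {ι : Type} [Fintype ι] [DecidableEq ι] (hι : Fintype.card ι = 2 * n)
    (y : ι → V) (hy : (Matrix.of fun i j : ι => om (y i) (y j)).det ≠ 0) :
    ∃ g : Cinf ≃ₗ[ℂ] Cinf, IsSo g ∧
      Submodule.span ℂ (Set.range fun i => g.symm (y i)) =
        Submodule.span ℂ ((fun i : ℕ => ee i) '' Set.Iio (2 * n)) ∧
      LinearIndependent ℂ fun i => g.symm (y i) := by
  have hind := tl3_indep y hy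
  -- the form on the coordinate space
  let T : (ι → ℂ) →ₗ[ℂ] V := Fintype.linearCombination ℂ y
  have hT : ∀ a, T a = ∑ i, a i • y i := fun a => rfl
  let F : LinearMap.BilinForm ℂ (ι → ℂ) := B.compl₁₂ T T
  have hF : ∀ a b, F a b = B (T a) (T b) := fun a b => rfl
  have hFs : F.IsSymm := ⟨fun a b => T5.B_anti (T a) (T b)⟩
  have hrad : _root_.MP50e386.radS F ⊤ = ⊥ := by
    rw [eq_bot_iff]
    rintro a ⟨-, ha⟩
    have h1 : Matrix.vecMul a (Matrix.of fun i j : ι => om (y i) (y j)) = 0 := by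
      funext j
      have h2 := ha (Pi.single j 1) trivial
      have h3 : T (Pi.single j 1) = y j := by
        rw [hT]
        rw [Finset.sum_eq_single j]
        · rw [Pi.single_eq_same, one_smul]
        · intro i _ hi
          rw [Pi.single_eq_of_ne hi, zero_smul]
        · intro h
          exact absurd (Finset.mem_univ _) h
      rw [hF, h3, hT, T5.B_suml] at h2
      simp only [T5.B_sl] at h2
      simp only [Matrix.vecMul, dotProduct, Matrix.of_apply, Pi.zero_apply, om_eq]
      exact h2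
    exact Matrix.eq_zero_of_vecMul_eq_zero hy h1
  obtain ⟨b, -, hb⟩ := _root_.MP50e386.exists_gram F hFs.isRefl (gam pis sio)
    (_root_.MP50e386.gam_shift gdata_so)
    (fun i j hi hj => _root_.MP50e386.gam_zero_left gdata_so (n := 2) even_two hi hj)
    (fun i j hi hj => _root_.MP50e386.gam_zero_right gdata_so (n := 2) even_two hi hj)
    (_root_.MP50e386.gam_D gdata_so)
    (twoStep_split F hFs) n ⊤ (by
      rw [hrad, finrank_bot, finrank_top, Module.finrank_fintype_fun_eq_card, hι]
      omega)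
  obtain ⟨g, hg, hge⟩ := exists_so n (fun i => T (b i)) (by
    intro i hi j hj
    rw [om_eq, om_eq, T5.B_ee]
    exact hb i hi j hj)
  have hgsymm : ∀ i, i < 2 * n → g.symm (T (b i)) = ee i := by
    intro i hi
    rw [LinearEquiv.symm_apply_eq, hge i hi]
  have hli : LinearIndependent ℂ fun i => g.symm (y i) :=
    hind.map' (g.symm : Cinf →ₗ[ℂ] Cinf) (LinearEquiv.ker _)
  refine ⟨g, hg, ?_, hli⟩
  -- the standard space is contained in the span
  have hle : Submodule.span ℂ ((fun i : ℕ => (ee i : V)) '' Set.Iio (2 * n)) ≤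
      Submodule.span ℂ (Set.range fun i => g.symm (y i)) := by
    rw [Submodule.span_le]
    rintro x ⟨i, hi, rfl⟩
    have hi' : i < 2 * n := hi
    show (ee i : V) ∈ _
    rw [← hgsymm i hi', hT, map_sum]
    refine Submodule.sum_mem _ fun j _ => ?_
    rw [map_smul]
    exact Submodule.smul_mem _ _ (Submodule.subset_span ⟨j, rfl⟩)
  haveI : FiniteDimensional ℂ (Submodule.span ℂ (Set.range fun i => g.symm (y i))) :=
    FiniteDimensional.span_of_finite ℂ (Set.finite_range _)
  symm
  refine Submodule.eq_of_le_of_finrank_eq hle ?_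
  rw [finrank_span_eq_card hli, hι, ← tl3_range (2 * n) (fun i => (ee i : V)),
    finrank_span_eq_card (tl3_ee_indep (2 * n)), Fintype.card_fin]

/-- the standard Gram matrix is invertible -/
private theorem tl3_det {ι : Type} [Fintype ι] [DecidableEq ι] (n : ℕ) (σ : ι ≃ Fin (2 * n)) :
    (Matrix.of fun i j : ι => om (ee (σ i : ℕ)) (ee (σ j : ℕ))).det ≠ 0 := by
  intro h0
  obtain ⟨a, ha0, ha⟩ := Matrix.exists_vecMul_eq_zero_iff.2 h0
  apply ha0
  funext i
  -- pair with the partner of the letter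
  have hlt : pis (σ i : ℕ) < 2 * n :=
    _root_.MP50e386.pi_lt gdata_so (even_two_mul n) (σ i).2
  have h1 := congrFun ha (σ.symm ⟨pis (σ i : ℕ), hlt⟩)
  simp only [Matrix.vecMul, dotProduct, Matrix.of_apply, Pi.zero_apply, Equiv.apply_symm_apply,
    om_eq, T5.B_ee] at h1
  rw [Finset.sum_eq_single i] at h1
  · unfold gam at h1
    rw [if_pos rfl] at h1
    exact (mul_eq_zero.1 h1).resolve_right (gdata_so.sne _)
  · intro j _ hj
    unfold gam
    rw [if_neg, mul_zero]
    intro h2
    apply hj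
    have h3 := congrArg pis h2
    rw [gdata_so.inv, gdata_so.inv] at h3
    exact σ.injective (Fin.ext h3.symm)
  · intro h
    exact absurd (Finset.mem_univ _) h

end symp

/-! ### polynomial families -/

private theorem tl3_xv_add (v w v' w' : V) (t : ℂ) :
    (xv (v + t • w) (v' + t • w') : R) = xv v v' + algebraMap ℂ R t * (xv v w' + xv w v') +
      algebraMap ℂ R t ^ 2 * xv w w' := by
  have h : ∀ w : V, (cst (t • w) : VR R) = algebraMap ℂ R t • cst w := by
    intro w
    rw [map_smul, algebraMap_smul]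
  unfold xv
  simp only [map_add, h, LinearMap.add_apply]
  simp only [map_smul, LinearMap.smul_apply, smul_eq_mul]
  ring

private theorem tl3_Dl {ι : Type} [Fintype ι] [DecidableEq ι] (v w : ι → V) :
    ∃ P : Polynomial R, ∀ t : ℂ, P.eval (algebraMap ℂ R t) = Dl (fun i => v i + t • w i) := by
  refine ⟨(Matrix.of fun i j : ι => Polynomial.C (xv (v i) (v j) : R) +
    Polynomial.X * Polynomial.C (xv (v i) (w j) + xv (w i) (v j) : R) +
    Polynomial.X ^ 2 * Polynomial.C (xv (w i) (w j) : R)).det, fun t => ?_⟩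
  unfold Dl
  rw [← Polynomial.coe_evalRingHom, RingHom.map_det]
  congr 1
  ext i j
  simp only [RingHom.mapMatrix_apply, Matrix.map_apply, Matrix.of_apply, gramM,
    Polynomial.coe_evalRingHom, Polynomial.eval_add, Polynomial.eval_mul, Polynomial.eval_C,
    Polynomial.eval_X, Polynomial.eval_pow]
  rw [tl3_xv_add]

private theorem tl3_hh (s q : ℕ) {r k : ℕ} (v v0 : Fin r → V) (c c0 : Fin k → V) :
    ∃ P : Polynomial R, ∀ t : ℂ, P.eval (algebraMap ℂ R t) =
      hh s q (fun i => v i + t • v0 i) (fun j => c j + t • c0 j) := by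
  obtain ⟨P0, hP0⟩ := tl3_Dl (R := R) v v0
  have h1 : ∀ j : Fin k, ∃ P : Polynomial R, ∀ t : ℂ, P.eval (algebraMap ℂ R t) =
      Dl1 (fun i => v i + t • v0 i) (c j + t • c0 j) := by
    intro j
    obtain ⟨P, hP⟩ := tl3_Dl (R := R) (Fin.snoc v (c j) : Fin (r + 1) → V)
      (Fin.snoc v0 (c0 j) : Fin (r + 1) → V)
    refine ⟨P, fun t => ?_⟩
    rw [hP]
    unfold Dl1
    congr 1
    funext i
    refine Fin.lastCases ?_ (fun i => ?_) i
    · simp only [Fin.snoc_last]
    · simp only [Fin.snoc_castSucc]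
  choose P hP using h1
  refine ⟨(∏ j, P j ^ s) * P0 ^ q, fun t => ?_⟩
  unfold hh Ek
  rw [Polynomial.eval_mul, Polynomial.eval_pow, hP0, Polynomial.eval_prod]
  congr 1
  refine Finset.prod_congr rfl fun j _ => ?_
  rw [Polynomial.eval_pow, hP]

/-- a nondegenerate matrix deforms every matrix into a nondegenerate one -/
private theorem tl3_inf {ι : Type} [Fintype ι] [DecidableEq ι] (A G : Matrix ι ι ℂ)
    (hG : G.det ≠ 0) : {t : ℂ | (A + t ^ 2 • G).det ≠ 0}.Infinite := by
  have hu : IsUnit G.det := isUnit_iff_ne_zero.2 hG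
  set M : Matrix ι ι ℂ := -(G⁻¹ * A) with hM
  have h1 : ∀ t : ℂ, (A + t ^ 2 • G).det = G.det * M.charpoly.eval (t ^ 2) := by
    intro t
    rw [Matrix.eval_charpoly, ← Matrix.det_mul]
    congr 1
    rw [hM, mul_sub, mul_neg, ← mul_assoc, Matrix.mul_nonsing_inv _ hu, one_mul, sub_neg_eq_add,
      add_comm]
    congr 1
    rw [Matrix.scalar_apply, ← Matrix.smul_one_eq_diagonal, mul_smul_comm, mul_one]
  have h2 : {t : ℂ | (A + t ^ 2 • G).det = 0}.Finite := by
    have h3 : (M.charpoly.comp (Polynomial.X ^ 2)) ≠ 0 := by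
      intro h4
      rw [Polynomial.comp_eq_zero_iff] at h4
      rcases h4 with h4 | ⟨-, h4⟩
      · exact M.charpoly_monic.ne_zero h4
      · have h5 := congrArg Polynomial.natDegree h4
        rw [Polynomial.natDegree_X_pow, Polynomial.natDegree_C] at h5
        omega
    refine (Polynomial.finite_setOf_isRoot h3).subset ?_
    intro t ht
    have ht' : (A + t ^ 2 • G).det = 0 := ht
    rw [h1] at ht'
    have h5 := (mul_eq_zero.1 ht').resolve_left hG
    show Polynomial.IsRoot _ t
    rw [Polynomial.IsRoot, Polynomial.eval_comp, Polynomial.eval_pow, Polynomial.eval_X]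
    exact h5
  have h3 : {t : ℂ | (A + t ^ 2 • G).det ≠ 0} = {t : ℂ | (A + t ^ 2 • G).det = 0}ᶜ := by
    ext t; rfl
  rw [h3]
  exact h2.infinite_compl

private theorem tl3_linC (g : Cinf ≃ₗ[ℂ] Cinf) (v : V) :
    linC (fun i => (1 : ℂ) • g (ee i)) v = g v := by
  induction v using Finsupp.induction_linear with
  | zero => simp
  | add f g hf hg => simp only [map_add, hf, hg]
  | single i c =>
    rw [linC, Finsupp.linearCombination_single, one_smul, ← map_smul, Finsupp.smul_single,
      smul_eq_mul, mul_one]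

theorem TLd {r s k : ℕ} (n : ℕ) (hn : r + k = 2 * n) (N : Ideal R) (hN : GSI N) (q' : ℕ)
    (h : ∀ y : Fin r ⊕ Fin k → V, LinearIndependent ℂ y →
      Submodule.span ℂ (Set.range y) = Submodule.span ℂ ((fun i : ℕ => ee i) '' Set.Iio (2 * n)) →
      hh s q' (fun i => y (Sum.inl i)) (fun j => y (Sum.inr j)) ∈ N)
    (y : Fin r ⊕ Fin k → V) :
    hh s q' (fun i => y (Sum.inl i)) (fun j => y (Sum.inr j)) ∈ N := by
  classical
  have hcard : Fintype.card (Fin r ⊕ Fin k) = 2 * n := by
    rw [Fintype.card_sum, Fintype.card_fin, Fintype.card_fin, hn]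
  let σ : Fin r ⊕ Fin k ≃ Fin (2 * n) := finSumFinEquiv.trans (finCongr hn)
  -- a bound of the supports
  obtain ⟨m, hm⟩ : ∃ m : ℕ, ∀ x, ∀ j, 2 * m ≤ j → y x j = 0 := by
    set S : Finset ℕ := Finset.univ.biUnion (fun x => (y x).support) with hS
    refine ⟨S.sup id + 1, fun x j hj => ?_⟩
    by_contra hne
    have h1 : j ∈ S := by
      rw [hS, Finset.mem_biUnion]
      exact ⟨x, Finset.mem_univ _, Finsupp.mem_support_iff.2 hne⟩
    have h2 : j ≤ S.sup id := Finset.le_sup (f := id) h1
    omega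
  set y0 : Fin r ⊕ Fin k → V := fun x => ee (6 * m + (σ x : ℕ)) with hy0
  obtain ⟨P, hP⟩ := tl3_hh (R := R) s q' (fun i => y (Sum.inl i)) (fun i => y0 (Sum.inl i))
    (fun j => y (Sum.inr j)) (fun j => y0 (Sum.inr j))
  have hgram : ∀ t : ℂ, (Matrix.of fun i j : Fin r ⊕ Fin k =>
      om (y i + t • y0 i) (y j + t • y0 j)) = (Matrix.of fun i j => om (y i) (y j)) +
        t ^ 2 • (Matrix.of fun i j => om (ee (σ i : ℕ)) (ee (σ j : ℕ))) := by
    intro t
    ext i j
    have h1 : T5.B (y0 i) (y j) = 0 := T5.B_far (y j) (hm j) (by omega)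
    have h2 : T5.B (y i) (y0 j) = 0 := by
      rw [T5.B_anti, T5.B_far (y i) (hm i) (by omega)]
    have h3 : T5.B (y0 i) (y0 j) = T5.B (ee (σ i : ℕ)) (ee (σ j : ℕ)) := T5.B_shift m _ _
    simp only [Matrix.of_apply, Matrix.add_apply, Matrix.smul_apply, smul_eq_mul, T5.om_eq,
      T5.B_al, T5.B_ar, T5.B_sl, T5.B_sr, h1, h2, h3]
    ring
  have hinf : {t : ℂ | P.eval (algebraMap ℂ R t) ∈ N.restrictScalars ℂ}.Infinite := by
    refine (tl3_inf (Matrix.of fun i j => om (y i) (y j))
      (Matrix.of fun i j => om (ee (σ i : ℕ)) (ee (σ j : ℕ))) (tl3_det n σ)).mono ?_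
    intro t ht
    have ht' : (Matrix.of fun i j : Fin r ⊕ Fin k =>
      om (y i + t • y0 i) (y j + t • y0 j)).det ≠ 0 := by
      rw [hgram]
      exact ht
    obtain ⟨g, hg, hspan, hli⟩ := exists_so_span n hcard (fun i => y i + t • y0 i) ht'
    have h1 := h (fun i => g.symm (y i + t • y0 i)) hli hspan
    have h2 := hN g hg 1 one_ne_zero _ h1
    rw [sbR_hh] at h2
    simp only [tl3_linC, LinearEquiv.apply_symm_apply] at h2
    show P.eval (algebraMap ℂ R t) ∈ N
    rw [hP]
    exact h2
  have h0 := vand_poly (N.restrictScalars ℂ) P hinf 0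
  have h1 := hP 0
  rw [map_zero, ← Polynomial.coeff_zero_eq_eval_zero] at h1
  simp only [zero_smul, add_zero] at h1
  rw [h1] at h0
  exact h0

end MP50e386O
end
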