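import Mathlib
import Pool.Agent.Lib.MP_50e386_al.B.Sa
import Pool.Agent.Lib.MP_50e386_al.B.Ea

section
/-! (F), paper 5.4. -/

namespace MP50e386N

open MvPolynomial Pool.Agent.Lib.MP50e386

variable {R : Type} [CommRing R] [Algebra ℂ R] [GLRing R]

private theorem C7_om_div {i j : ℕ} (h : i / 2 ≠ j / 2) : om (ee i) (ee j) = 0 := by
  rw [T5.om_eq, T5.B_ee]
  unfold _root_.MP50e386.gam _root_.MP50e386.pis
  rw [if_neg]
  split_ifs with hi
  · obtain ⟨k, hk⟩ := hi
    omega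
  · rw [Nat.not_even_iff_odd] at hi
    obtain ⟨k, hk⟩ := hi
    omega

private theorem C7_om_even {i j : ℕ} (hi : Even i) (hj : Even j) : om (ee i) (ee j) = 0 := by
  rw [T5.om_eq, T5.B_ee]
  unfold _root_.MP50e386.gam _root_.MP50e386.pis
  rw [if_neg]
  rw [if_pos hi]
  obtain ⟨k, hk⟩ := hi
  obtain ⟨l, hl⟩ := hj
  omega

private theorem C7_om_pair (i : ℕ) : om (ee (2 * i)) (ee (2 * i + 1)) = 1 := by
  rw [T5.om_eq, T5.B_ee]
  unfold _root_.MP50e386.gam _root_.MP50e386.pis _root_.MP50e386.sis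
  rw [if_pos (even_two_mul i), if_pos (even_two_mul i), if_pos rfl]

private theorem C7_om_odd {i j : ℕ} (hi : ¬ Even i) (hj : ¬ Even j) : om (ee i) (ee j) = 0 := by
  rw [T5.om_eq, T5.B_ee]
  unfold _root_.MP50e386.gam _root_.MP50e386.pis
  rw [if_neg]
  rw [if_neg hi]
  rw [Nat.not_even_iff_odd] at hi hj
  obtain ⟨k, hk⟩ := hi
  obtain ⟨l, hl⟩ := hj
  omega

private theorem C7_om_anti (x y : V) (h : om x y = 0) : om y x = 0 := by
  rw [T5.om_eq] at h ⊢
  rw [T5.B_anti, h, neg_zero]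

private theorem C7_x_LT {T : Set ℕ} {i j : ℕ} (hi : i ∈ T) (hj : j ∈ T) :
    (C (xv (ee i) (ee j) : R) : U R) ∈ LT R T := by
  rw [xv_ee]
  exact Algebra.subset_adjoin (Or.inl ⟨i, hi, j, hj, rfl⟩)

private theorem C7_Dl_LT {m : ℕ} (T : Set ℕ) (v : Fin m → ℕ) (hv : ∀ i, v i ∈ T) :
    (C (Dl (fun i => ee (v i)) : R) : U R) ∈ LT R T := by
  unfold Dl
  rw [Matrix.det_apply', map_sum]
  refine Subalgebra.sum_mem _ fun σ _ => ?_
  rw [map_mul, map_prod, map_intCast]
  refine Subalgebra.mul_mem _ (Subalgebra.intCast_mem _ _) ?_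
  refine Subalgebra.prod_mem _ fun i _ => ?_
  exact C7_x_LT (hv _) (hv _)

private theorem C7_Dl1_LT {m : ℕ} (T : Set ℕ) (v : Fin m → ℕ) (hv : ∀ i, v i ∈ T) (c : ℕ)
    (hc : c ∈ T) : (C (Dl1 (fun i => ee (v i)) (ee c) : R) : U R) ∈ LT R T := by
  have h1 : (Fin.snoc (fun i => ee (v i)) (ee c) : Fin (m + 1) → V) =
      fun i => ee ((Fin.snoc v c : Fin (m + 1) → ℕ) i) := by
    exact (Fin.comp_snoc (fun i => ee i) v c).symm
  unfold Dl1
  rw [h1]
  refine C7_Dl_LT T _ fun i => ?_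
  refine Fin.lastCases ?_ (fun j => ?_) i
  · rw [Fin.snoc_last]; exact hc
  · rw [Fin.snoc_castSucc]; exact hv j

private theorem C7_hh_LT {r k s q : ℕ} (T : Set ℕ) (v : Fin r → ℕ) (hv : ∀ i, v i ∈ T)
    (c : Fin k → ℕ) (hc : ∀ i, c i ∈ T) :
    (C (hh s q (fun i => ee (v i)) (fun j => ee (c j)) : R) : U R) ∈ LT R T := by
  unfold hh Ek
  rw [map_mul, map_prod, map_pow]
  refine Subalgebra.mul_mem _ (Subalgebra.prod_mem _ fun j _ => ?_)
    (Subalgebra.pow_mem _ (C7_Dl_LT T v hv) _)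
  rw [map_pow]
  exact Subalgebra.pow_mem _ (C7_Dl1_LT T v hv _ (hc j)) _

private theorem C7_bound {T : Set ℕ} (hT : T.Finite) : ∃ N : ℕ, ∀ z ∈ T, z < N := by
  obtain ⟨N, hN⟩ := hT.bddAbove
  exact ⟨N + 1, fun z hz => Nat.lt_succ_of_le (hN hz)⟩

/-- it is enough to know (F) for fresh letters of even index -/
theorem F_of_letters {r s k q n : ℕ} (S : Finset ℕ) (M : Submodule R (U R)) (hM : GLS M)
    (Z : Set ℕ) (hZf : Z.Finite) (f : U R) (hfT : f ∈ LT R (Set.Iio (2 * n) ∪ Z)) (B : ℕ)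
    (h : ∀ w : Fin r ⊕ Fin k → ℕ, Function.Injective w → (∀ i, B ≤ w i ∧ Even (w i)) →
      (hh s q (fun i => ee (w (Sum.inl i))) (fun j => ee (w (Sum.inr j))) : R) • f ∈ nn M)
    (u : Fin r → V) (b : Fin k → V) (hub : Iso (Sum.elim u b))
    (hT : ∀ i, ∀ z ∈ Set.Iio (2 * n) ∪ Z, om (Sum.elim u b i) (ee z) = 0) :
    (hh s q u b : R) • f ∈ nn M := by
  classical
  have hfin : (Set.Iio (2 * n) ∪ Z).Finite := (Set.finite_Iio _).union hZf
  obtain ⟨N0, hN0⟩ := C7_bound hfin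
  obtain ⟨L, hL⟩ : ∃ L : Fin r ⊕ Fin k → ℕ, ∀ i, L i = 2 * (N0 + B + (finSumFinEquiv i : ℕ)) :=
    ⟨_, fun i => rfl⟩
  have hinj : Function.Injective L := by
    intro i j hij
    rw [hL, hL] at hij
    exact finSumFinEquiv.injective (Fin.ext (by omega))
  have hev : ∀ i, Even (L i) := fun i => by rw [hL]; exact even_two_mul _
  have hge : ∀ i, N0 + B ≤ L i := fun i => by rw [hL]; omega
  obtain ⟨φ, hφ1, hφ2⟩ : ∃ φ : ℕ → V, (∀ i, φ (L i) = Sum.elim u b i) ∧
      ∀ j ∈ Set.Iio (2 * n) ∪ Z, φ j = ee j := by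
    refine ⟨fun j => if h : ∃ i, L i = j then Sum.elim u b h.choose else ee j, fun i => ?_,
      fun j hj => ?_⟩
    · have hi : ∃ i', L i' = L i := ⟨i, rfl⟩
      beta_reduce
      rw [dif_pos hi, hinj hi.choose_spec]
    · beta_reduce
      rw [dif_neg]
      rintro ⟨i, hi⟩
      have h1 := hN0 j hj
      have h2 := hge i
      omega
  have h1 := h L hinj (fun i => ⟨by have := hge i; omega, hev i⟩)
  have hTfin : ((Set.Iio (2 * n) ∪ Z) ∪ Set.range L).Finite := hfin.union (Set.finite_range _)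
  have hLT : (hh s q (fun i => ee (L (Sum.inl i))) (fun j => ee (L (Sum.inr j))) : R) • f ∈
      LT R ((Set.Iio (2 * n) ∪ Z) ∪ Set.range L) := by
    rw [smul_eq_C_mul]
    refine Subalgebra.mul_mem _ (C7_hh_LT _ (fun i => L (Sum.inl i)) (fun i => Or.inr ⟨_, rfl⟩)
      (fun i => L (Sum.inr i)) (fun i => Or.inr ⟨_, rfl⟩)) (LT_mono Set.subset_union_left hfT)
  have hfar : ∀ i, ∀ z ∈ Set.Iio (2 * n) ∪ Z, om (ee (L i)) (ee z) = 0 := by
    intro i z hz
    refine C7_om_div ?_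
    have h1 := hN0 z hz
    rw [hL]
    omega
  have h2 := witt1 (nn_GS hM) h1 hTfin hLT φ (by
    rintro i (hi | ⟨i, rfl⟩) j (hj | ⟨j, rfl⟩)
    · rw [hφ2 i hi, hφ2 j hj]
    · rw [hφ2 i hi, hφ1, C7_om_anti _ _ (hT j i hi), C7_om_anti _ _ (hfar j i hi)]
    · rw [hφ2 j hj, hφ1, hT i j hj, hfar i j hj]
    · rw [hφ1, hφ1, hub i j, C7_om_even (hev i) (hev j)])
  rw [sbC_smul, sbR_hh, sbC_congr hfT φ ee hφ2, sbC_id] at h2
  simp only [linC_ee, hφ1, Sum.elim_inl, Sum.elim_inr] at h2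
  exact h2


omit [GLRing R] in
private theorem C7_top (N : Submodule R (U R)) (s : ℕ) (A B C' E : R) (f : U R)
    (h : ∀ t : ℂ, (E * (A + (2 * t) • B + t ^ 2 • C') ^ s) • f ∈ N) :
    (E * C' ^ s) • f ∈ N := by
  obtain ⟨P, hP⟩ : ∃ P : Polynomial (U R), P = Polynomial.C (C E * f) *
    (Polynomial.C (C A) + Polynomial.C (C (2 * B)) * Polynomial.X +
      Polynomial.C (C C') * Polynomial.X ^ 2) ^ s := ⟨_, rfl⟩
  have h1 : ∀ t : ℂ, P.eval (algebraMap ℂ (U R) t) =
      (E * (A + (2 * t) • B + t ^ 2 • C') ^ s) • f := by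
    intro t
    rw [hP]
    simp only [Polynomial.eval_mul, Polynomial.eval_C, Polynomial.eval_pow, Polynomial.eval_add,
      Polynomial.eval_X]
    have e0 : (C (E * (A + (2 * t) • B + t ^ 2 • C') ^ s) : U R) =
        C E * (C A + C ((2 * t) • B) + C (t ^ 2 • C')) ^ s := by
      rw [MvPolynomial.C_mul, MvPolynomial.C_pow, MvPolynomial.C_add, MvPolynomial.C_add]
    have e : (algebraMap ℂ (U R) t) = C (algebraMap ℂ R t) := rfl
    rw [smul_eq_C_mul, e0, e]
    have e1 : (C ((2 * t) • B) : U R) = C (2 * B) * C (algebraMap ℂ R t) := by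
      rw [← map_mul]
      congr 1
      rw [Algebra.smul_def, map_mul, map_ofNat]
      ring
    have e2 : (C (t ^ 2 • C') : U R) = C C' * C (algebraMap ℂ R t) ^ 2 := by
      rw [← map_pow, ← map_mul]
      congr 1
      rw [Algebra.smul_def, map_pow]
      ring
    rw [e1, e2]
    ring
  have h2 := vand_poly (N.restrictScalars ℂ) P (by
    refine Set.infinite_univ.mono fun t _ => ?_
    show P.eval _ ∈ N.restrictScalars ℂ
    rw [h1]
    exact h t) (s * 2)
  have h3 : P.coeff (s * 2) = (E * C' ^ s) • f := by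
    have hd : (Polynomial.C (C A) + Polynomial.C (C (2 * B)) * Polynomial.X +
      Polynomial.C (C C') * Polynomial.X ^ 2 : Polynomial (U R)).natDegree ≤ 2 := by
      compute_degree
    rw [hP, Polynomial.coeff_C_mul, Polynomial.coeff_pow_of_natDegree_le hd]
    have e : (Polynomial.C (C A) + Polynomial.C (C (2 * B)) * Polynomial.X +
      Polynomial.C (C C') * Polynomial.X ^ 2 : Polynomial (U R)).coeff 2 = C C' := by
      rw [Polynomial.coeff_add, Polynomial.coeff_add, Polynomial.coeff_C_mul,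
        Polynomial.coeff_C_mul, Polynomial.coeff_C, Polynomial.coeff_X, Polynomial.coeff_X_pow]
      simp
    rw [e, smul_eq_C_mul, map_mul, map_pow]
    ring
  rw [h3] at h2
  exact h2

private theorem C7_Ek (N : Submodule R (U R)) {r K : ℕ} (s : ℕ) (u : Fin r → V) (c b : Fin K → V)
    (G : R) (f : U R)
    (h : ∀ t : Fin K → ℂ, (Ek s u (fun j => c j + t j • b j) * G : R) • f ∈ N) :
    (Ek s u b * G : R) • f ∈ N := by
  classical
  have key : ∀ J : Finset (Fin K), ∀ t : Fin K → ℂ,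
      ((∏ j, (if j ∈ J then (Dl1 u (b j) : R) ^ s else (Dl1 u (c j + t j • b j) : R) ^ s)) * G) •
        f ∈ N := by
    intro J
    induction J using Finset.induction_on with
    | empty =>
      intro t
      have h1 := h t
      unfold Ek at h1
      simpa only [Finset.notMem_empty, if_false] using h1
    | insert j0 J hj ih =>
      intro t
      rw [← Finset.mul_prod_erase Finset.univ _ (Finset.mem_univ j0),
        if_pos (Finset.mem_insert_self _ _)]
      have h1 : ∀ z : ℂ, ∏ j ∈ Finset.univ.erase j0, (if j ∈ insert j0 J then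
          (Dl1 u (b j) : R) ^ s else (Dl1 u (c j + t j • b j) : R) ^ s) =
          ∏ j ∈ Finset.univ.erase j0, (if j ∈ J then (Dl1 u (b j) : R) ^ s else
            (Dl1 u (c j + (Function.update t j0 z) j • b j) : R) ^ s) := by
        intro z
        refine Finset.prod_congr rfl fun j hj' => ?_
        have hne : j ≠ j0 := (Finset.mem_erase.1 hj').1
        rw [Function.update_of_ne hne]
        by_cases hJ : j ∈ J
        · rw [if_pos hJ, if_pos (Finset.mem_insert_of_mem hJ)]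
        · rw [if_neg hJ, if_neg]
          intro h2
          rcases Finset.mem_insert.1 h2 with h3 | h3
          · exact hne h3
          · exact hJ h3
      have h2 := C7_top N s (Dl1 u (c j0)) (xf (til u (c j0)) (cst (b j0))) (Dl1 u (b j0))
        ((∏ j ∈ Finset.univ.erase j0, (if j ∈ insert j0 J then
          (Dl1 u (b j) : R) ^ s else (Dl1 u (c j + t j • b j) : R) ^ s)) * G) f (fun z => by
          have h3 := ih (Function.update t j0 z)
          rw [← Finset.mul_prod_erase Finset.univ _ (Finset.mem_univ j0), if_neg hj,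
            Function.update_self, ← h1 z, Dl1_add] at h3
          convert h3 using 2
          ring)
      convert h2 using 2
      ring
  have h1 := key Finset.univ (fun _ => 0)
  unfold Ek
  simpa only [Finset.mem_univ, if_true] using h1

private theorem C7_om_add (x y v w : V) (c d : ℂ) (h1 : om x w = 0) (h2 : om v y = 0)
    (h3 : om v w = 0) : om (x + c • v) (y + d • w) = om x y := by
  rw [T5.om_eq] at h1 h2 h3 ⊢
  rw [T5.om_eq, T5.B_al, T5.B_ar, T5.B_ar, T5.B_sl, T5.B_sl, T5.B_sr, T5.B_sr, h1, h2, h3]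
  ring

private theorem C7_prod_zero (t : ℕ → ℂ) :
    ((0 : ℕ →₀ ℕ).prod fun i k => t i ^ k) = 1 := Finsupp.prod_zero_index

/-- the induction step for homogeneous elements and letters -/
theorem F_step {r s : ℕ} (h1 : HP1 R r s) (S : Finset ℕ) (M : Submodule R (U R)) (hM : GLS M)
    (hMS : M ≤ MS R S) (n D k' q' : ℕ) (hF : FProp r s k' q' n D S M) :
    ∃ k q : ℕ, ∀ Z : Set ℕ, Z.Finite → (∀ z ∈ Z, 2 * n ≤ z) →
      (∀ z ∈ Z, ∀ z' ∈ Z, om (ee z) (ee z') = 0) → ∀ f ∈ M, TrZ S f →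
      f ∈ LT R (Set.Iio (2 * n) ∪ Z) → (∀ c : ℂ, sbC (scT n c) f = c ^ (D + 1) • f) →
      ∃ B : ℕ, ∀ w : Fin r ⊕ Fin k → ℕ, Function.Injective w → (∀ i, B ≤ w i ∧ Even (w i)) →
        (hh s q (fun i => ee (w (Sum.inl i))) (fun j => ee (w (Sum.inr j))) : R) • f ∈ nn M := by
  classical
  obtain ⟨m, hm⟩ : ∃ m, m = S.card := ⟨_, rfl⟩
  obtain ⟨K, hK⟩ : ∃ K, K = 2 * n + 2 * (m * m) := ⟨_, rfl⟩
  refine ⟨K + k', (D + 1) + q', fun Z hZf hZ2 hZi f hf htr hfT hdeg => ?_⟩
  have hfin : (Set.Iio (2 * n) ∪ Z).Finite := (Set.finite_Iio _).union hZf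
  obtain ⟨B, hB⟩ := C7_bound hfin
  refine ⟨B + 2 * n, fun w _ hw => ?_⟩
  have hwe : ∀ i, Even (w i) := fun i => (hw i).2
  have hwB : ∀ i, B ≤ w i := fun i => by have := (hw i).1; omega
  have hwn : ∀ i, 2 * n ≤ w i := fun i => by have := (hw i).1; omega
  -- the letters
  obtain ⟨uL, huL⟩ : ∃ uL : Fin r → ℕ, ∀ i, uL i = w (Sum.inl i) := ⟨_, fun i => rfl⟩
  obtain ⟨b1, hb1⟩ : ∃ b1 : Fin K → ℕ, ∀ j, b1 j = w (Sum.inr (Fin.castAdd k' j)) :=
    ⟨_, fun i => rfl⟩
  obtain ⟨b2, hb2⟩ : ∃ b2 : Fin k' → ℕ, ∀ j, b2 j = w (Sum.inr (Fin.natAdd K j)) :=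
    ⟨_, fun i => rfl⟩
  obtain ⟨N1, hN1B, hN1⟩ : ∃ N1, B ≤ N1 ∧ ∀ i, w i < N1 := by
    obtain ⟨N, hN⟩ := C7_bound (Set.finite_range w)
    exact ⟨B + N, by omega, fun i => by have := hN _ ⟨i, rfl⟩; omega⟩
  have hwfar : ∀ i, ∀ z ∈ Set.Iio (2 * n) ∪ Z, om (ee (w i)) (ee z) = 0 := by
    intro i z hz
    refine C7_om_div ?_
    have h1 := hB z hz
    have h2 := hwB i
    obtain ⟨k, hk⟩ := hwe i
    omega
  have hzN : ∀ z ∈ Set.Iio (2 * n) ∪ Z, z < N1 := fun z hz => (hB z hz).trans_le hN1B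
  -- claim 0
  obtain ⟨ℓ, hℓ1, hℓ2⟩ : ∃ ℓ : Fin K → ℕ, (∀ j : Fin K, (j : ℕ) < 2 * n → ℓ j = j) ∧
      (∀ j : Fin K, 2 * n ≤ (j : ℕ) → ℓ j = 2 * N1 + (j - 2 * n)) := by
    refine ⟨fun j => if (j : ℕ) < 2 * n then j else 2 * N1 + (j - 2 * n), fun j hj => if_pos hj,
      fun j hj => if_neg (by omega)⟩
  obtain ⟨p, hp⟩ : ∃ p : ℕ → ℕ → V, ∀ a b, p a b = ee (2 * (N1 + Nat.pair a b)) :=
    ⟨_, fun _ _ => rfl⟩
  obtain ⟨q, hq⟩ : ∃ q : ℕ → ℕ → V, ∀ a b, q a b = ee (2 * (N1 + Nat.pair a b) + 1) :=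
    ⟨_, fun _ _ => rfl⟩
  have hodd : ∀ i, ¬ Even (2 * i + 1) := fun i => by
    rw [Nat.not_even_iff_odd]
    exact ⟨i, rfl⟩
  have haux : Aux r n Z (fun i => ee (uL i)) p q := by
    refine ⟨fun i j => ?_, fun i k hk => ?_, fun i a b => ?_, fun i a b => ?_, fun a b k hk => ?_,
      fun a b k hk => ?_, fun a b a' b' => ?_, fun a b a' b' => ?_, fun a b a' b' => ?_⟩
    · rw [huL, huL]
      exact C7_om_even (hwe _) (hwe _)
    · rw [huL]
      exact hwfar _ k hk
    · rw [huL, hp]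
      exact C7_om_even (hwe _) (even_two_mul _)
    · rw [huL, hq]
      refine C7_om_div ?_
      have := hN1 (Sum.inl i)
      omega
    · rw [hp]
      refine C7_om_div ?_
      have := hzN k hk
      omega
    · rw [hq]
      refine C7_om_div ?_
      have := hzN k hk
      omega
    · rw [hp, hp]
      exact C7_om_even (even_two_mul _) (even_two_mul _)
    · rw [hq, hq]
      exact C7_om_odd (hodd _) (hodd _)
    · rw [hp, hq]
      split_ifs with h
      · rw [h.1, h.2]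
        exact C7_om_pair _
      · refine C7_om_div ?_
        intro h2
        apply h
        rw [← Nat.pair_eq_pair]
        omega
  have hcl := claim0 (k := K) h1 S M hM hMS f hf htr n (D + 1) Z hZ2 hZi hfT hdeg
    (fun i => ee (uL i)) p q haux (fun j => ee (ℓ j)) (by
      intro i hi
      refine Submodule.subset_span (Or.inr ⟨⟨i, by omega⟩, ?_⟩)
      beta_reduce
      rw [hℓ1 ⟨i, by omega⟩ hi]) (by
      intro a ha b hb
      have h2 : Nat.pair a b < m * m := by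
        have h3 := Nat.pair_lt_max_add_one_sq a b
        have h4 : max a b + 1 ≤ m := by rw [hm]; exact max_lt ha hb
        calc Nat.pair a b < (max a b + 1) ^ 2 := h3
          _ ≤ m ^ 2 := Nat.pow_le_pow_left h4 2
          _ = m * m := sq m
      refine Submodule.subset_span (Or.inr ⟨⟨2 * n + 2 * Nat.pair a b, by omega⟩, ?_⟩)
      beta_reduce
      rw [hℓ2 ⟨2 * n + 2 * Nat.pair a b, by omega⟩ (Nat.le_add_right _ _), hp]
      congr 1
      show 2 * N1 + (2 * n + 2 * Nat.pair a b - 2 * n) = _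
      omega) (by
      intro a ha b hb
      have h2 : Nat.pair a b < m * m := by
        have h3 := Nat.pair_lt_max_add_one_sq a b
        have h4 : max a b + 1 ≤ m := by rw [hm]; exact max_lt ha hb
        calc Nat.pair a b < (max a b + 1) ^ 2 := h3
          _ ≤ m ^ 2 := Nat.pow_le_pow_left h4 2
          _ = m * m := sq m
      refine Submodule.subset_span (Or.inr ⟨⟨2 * n + (2 * Nat.pair a b + 1), by omega⟩, ?_⟩)
      beta_reduce
      rw [hℓ2 ⟨2 * n + (2 * Nat.pair a b + 1), by omega⟩ (Nat.le_add_right _ _), hq]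
      congr 1
      show 2 * N1 + (2 * n + (2 * Nat.pair a b + 1) - 2 * n) = _
      omega)
  -- the substitution
  have hbfar : ∀ j : Fin K, ∀ z ∈ (Set.Iio (2 * n) ∪ Z) ∪ (Set.range uL ∪
      Set.Ico (2 * N1) (2 * N1 + 2 * (m * m))), om (ee (b1 j)) (ee z) = 0 := by
    rintro j z (hz | ⟨i, rfl⟩ | hz)
    · rw [hb1]
      exact hwfar _ z hz
    · rw [hb1, huL]
      exact C7_om_even (hwe _) (hwe _)
    · rw [hb1]
      refine C7_om_div ?_
      have := hN1 (Sum.inr (Fin.castAdd k' j))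
      have h2 := hz.1
      omega
  have hb1e : ∀ j, Even (b1 j) := fun j => by rw [hb1]; exact hwe _
  obtain ⟨y, hy⟩ : ∃ y : ℕ → ℕ, ∀ j : Fin K, y j = b1 j := by
    refine ⟨fun j => if h : j < K then b1 ⟨j, h⟩ else 0, fun j => ?_⟩
    beta_reduce
    rw [dif_pos j.2]
  have hyG : ∀ j < K, Even (y j) ∧ ∀ z ∈ (Set.Iio (2 * n) ∪ Z) ∪ (Set.range uL ∪
      Set.Ico (2 * N1) (2 * N1 + 2 * (m * m))), om (ee (y j)) (ee z) = 0 := by
    intro j hj
    rw [hy ⟨j, hj⟩]
    exact ⟨hb1e _, hbfar _⟩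
  have hφ : ∀ t : ℕ → ℂ, ∃ φ : ℕ → V, (∀ i < 2 * n, φ i = ee i + t i • ee (y i)) ∧
      (∀ i ∈ Z, φ i = ee i) ∧ (∀ i, φ (uL i) = ee (uL i)) ∧
      (∀ j : Fin K, φ (ℓ j) = ee (ℓ j) + t j • ee (b1 j)) ∧
      (∀ i ∈ (Set.Iio (2 * n) ∪ Z) ∪ (Set.range uL ∪ Set.Ico (2 * N1) (2 * N1 + 2 * (m * m))),
        ∀ j ∈ (Set.Iio (2 * n) ∪ Z) ∪ (Set.range uL ∪ Set.Ico (2 * N1) (2 * N1 + 2 * (m * m))),
        om (φ i) (φ j) = om (ee i) (ee j)) := by
    intro t
    obtain ⟨φ, hφ⟩ : ∃ φ : ℕ → V, φ = fun i => if i < 2 * n then ee i + t i • ee (y i) else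
      if 2 * N1 ≤ i ∧ i < 2 * N1 + 2 * (m * m) then
        ee i + t (2 * n + (i - 2 * N1)) • ee (y (2 * n + (i - 2 * N1))) else ee i := ⟨_, rfl⟩
    have e1 : ∀ i < 2 * n, φ i = ee i + t i • ee (y i) := fun i hi => by
      rw [hφ]; exact if_pos hi
    have e2 : ∀ i, 2 * n ≤ i → i < 2 * N1 → φ i = ee i := fun i hi hi' => by
      rw [hφ]
      beta_reduce
      rw [if_neg (by omega), if_neg (by omega)]
    have hnN : 0 < 2 * n → 2 * n ≤ 2 * N1 := fun h0 => by
      have h2 : 2 * n - 1 < N1 := hzN (2 * n - 1) (Or.inl (by simp only [Set.mem_Iio]; omega))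
      omega
    have e3 : ∀ i, 2 * N1 ≤ i → i < 2 * N1 + 2 * (m * m) →
        φ i = ee i + t (2 * n + (i - 2 * N1)) • ee (y (2 * n + (i - 2 * N1))) := fun i hi hi' => by
      rw [hφ]
      beta_reduce
      rw [if_neg (by omega), if_pos ⟨hi, hi'⟩]
    have e4 : ∀ i ∈ (Set.Iio (2 * n) ∪ Z) ∪ (Set.range uL ∪
        Set.Ico (2 * N1) (2 * N1 + 2 * (m * m))), ∃ (c : ℂ) (l : ℕ), (Even l ∧
          ∀ z ∈ (Set.Iio (2 * n) ∪ Z) ∪ (Set.range uL ∪
            Set.Ico (2 * N1) (2 * N1 + 2 * (m * m))), om (ee l) (ee z) = 0) ∧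
          φ i = ee i + c • ee l := by
      have h0 : Even (2 * (N1 + m * m)) ∧ ∀ z ∈ (Set.Iio (2 * n) ∪ Z) ∪ (Set.range uL ∪
            Set.Ico (2 * N1) (2 * N1 + 2 * (m * m))), om (ee (2 * (N1 + m * m))) (ee z) = 0 := by
        refine ⟨even_two_mul _, ?_⟩
        rintro z (hz | ⟨i, rfl⟩ | hz)
        · refine C7_om_div ?_
          have := hzN z hz
          omega
        · refine C7_om_div ?_
          rw [huL]
          have := hN1 (Sum.inl i)
          omega
        · refine C7_om_div ?_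
          have h2 := hz.1
          have h3 := hz.2
          omega
      rintro i ((hi | hi) | ⟨i, rfl⟩ | hi)
      · exact ⟨t i, y i, hyG i (by simp only [Set.mem_Iio] at hi; omega), e1 i hi⟩
      · refine ⟨0, _, h0, ?_⟩
        rw [e2 i (hZ2 i hi) (by have := hzN i (Or.inr hi); omega), zero_smul, add_zero]
      · refine ⟨0, _, h0, ?_⟩
        rw [e2 _ (by rw [huL]; exact hwn _) (by rw [huL]; have := hN1 (Sum.inl i); omega),
          zero_smul, add_zero]
      · have h2 := hi.1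
        have h3 := hi.2
        exact ⟨_, _, hyG _ (by omega), e3 i h2 h3⟩
    refine ⟨φ, e1, fun i hi => e2 i (hZ2 i hi) (by have := hzN i (Or.inr hi); omega),
      fun i => e2 _ (by rw [huL]; exact hwn _) (by rw [huL]; have := hN1 (Sum.inl i); omega),
      fun j => ?_, fun i hi j hj => ?_⟩
    · rcases lt_or_ge (j : ℕ) (2 * n) with hj | hj
      · rw [hℓ1 j hj, e1 _ hj, hy j]
      · have hj2 := j.2
        rw [hℓ2 j hj, e3 _ (by omega) (by omega)]
        have h2 : 2 * n + (2 * N1 + (↑j - 2 * n) - 2 * N1) = (j : ℕ) := by omega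
        rw [h2, hy j]
    · obtain ⟨c, l, hl, hl'⟩ := e4 i hi
      obtain ⟨c', l', hll, hll'⟩ := e4 j hj
      rw [hl', hll']
      exact C7_om_add _ _ _ _ _ _ (C7_om_anti _ _ (hll.2 i hi)) (hl.2 j hj)
        (C7_om_even hl.1 hll.1)
  obtain ⟨s', g, hg1, hg0, hg00, hgs, hgd⟩ := replace_letters n (D + 1) f hdeg y (fun i hi => by
    rw [hy ⟨i, by omega⟩, hb1]
    exact hwn _)
  have hsub : ∀ t : ℕ → ℂ, ∀ φ : ℕ → V, (∀ i < 2 * n, φ i = ee i + t i • ee (y i)) →
      (∀ i ∈ Z, φ i = ee i) → sbC φ f = ∑ κ ∈ s', (κ.prod fun i k => t i ^ k) • g κ := by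
    intro t φ ha hb
    rw [← hg1]
    refine sbC_congr hfT _ _ ?_
    rintro i (hi | hi)
    · rw [if_pos (show i < 2 * n from hi)]
      exact ha i hi
    · rw [if_neg (not_lt.2 (hZ2 i hi))]
      exact hb i hi
  -- properties of the `g κ`
  have hgM : ∀ κ ∈ s', g κ ∈ M := by
    refine vandM (M.restrictScalars ℂ) s' g fun t _ => ?_
    obtain ⟨φ, ha, hb, -, -, -⟩ := hφ t
    rw [← hsub t φ ha hb]
    exact hM φ f hf
  have hgtr : ∀ κ ∈ s', TrZ S (g κ) := by
    intro κ hκ a haS b hbS hab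
    refine vandM ((LinearMap.ker (tr a b)).restrictScalars ℂ) s' g (fun t _ => ?_) κ hκ
    obtain ⟨φ, ha, hb, -, -, hi⟩ := hφ t
    rw [← hsub t φ ha hb]
    show sbC φ f ∈ LinearMap.ker (tr a b)
    rw [LinearMap.mem_ker, tr_sbC_iso φ a b (Set.Iio (2 * n) ∪ Z) f hfT 1 (fun i hi' j hj' => by
      rw [one_mul]
      exact hi i (Or.inl hi') j (Or.inl hj')), htr a haS b hbS hab, map_zero, smul_zero]
  obtain ⟨Z', hZ'⟩ : ∃ Z' : Set ℕ, Z' = Z ∪ y '' Set.Iio (2 * n) := ⟨_, rfl⟩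
  have hyK : ∀ i < 2 * n, ∃ j : Fin K, y i = b1 j := fun i hi => ⟨⟨i, by omega⟩, hy ⟨i, by omega⟩⟩
  have hgLT : ∀ κ ∈ s', g κ ∈ LT R (Set.Iio (2 * n) ∪ Z') := by
    refine vandM (Subalgebra.toSubmodule (LT R (Set.Iio (2 * n) ∪ Z'))) s' g fun t _ => ?_
    obtain ⟨φ, ha, hb, -, -, -⟩ := hφ t
    rw [← hsub t φ ha hb]
    refine sbC_LT hfT φ ?_
    rintro i (hi | hi) j hj
    · rw [ha i hi] at hj
      by_cases h2 : j = i
      · rw [h2]; exact Or.inl hi
      · by_cases h3 : j = y i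
        · rw [h3, hZ']
          exact Or.inr (Or.inr ⟨i, hi, rfl⟩)
        · exfalso
          apply hj
          rw [Finsupp.add_apply, Finsupp.smul_apply, ee, ee, Finsupp.single_apply,
            Finsupp.single_apply, if_neg (Ne.symm h2), if_neg (Ne.symm h3), smul_zero, add_zero]
    · rw [hb i hi] at hj
      have h2 : j = i := by
        by_contra h2
        apply hj
        rw [ee, Finsupp.single_apply, if_neg (Ne.symm h2)]
      rw [h2, hZ']
      exact Or.inr (Or.inl hi)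
  have hgTD : ∀ κ ∈ s', κ ≠ 0 → TD n D (g κ) := by
    intro κ hκ hκ0
    have hdeg0 : κ.degree ≠ 0 := fun h => hκ0 ((Finsupp.degree_eq_zero_iff κ).1 h)
    refine ⟨fun d => if d = D + 1 - κ.degree then g κ else 0, ?_, fun d c => ?_⟩
    · rw [Finset.sum_ite_eq', if_pos]
      rw [Finset.mem_range]
      omega
    · beta_reduce
      split_ifs with h
      · rw [h]
        exact (hgd κ hκ c).1
      · rw [map_zero, smul_zero]
  -- the induction hypothesis
  have hF' : ∀ κ ∈ s', κ ≠ 0 →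
      (hh s q' (fun i => ee (uL i)) (fun j => ee (b2 j)) : R) • g κ ∈ nn M := by
    intro κ hκ hκ0
    refine hF Z' ?_ ?_ ?_ (g κ) (hgM κ hκ) (hgtr κ hκ) (hgLT κ hκ) (hgTD κ hκ hκ0) _ _ ?_ ?_
    · rw [hZ']
      exact hZf.union ((Set.finite_Iio _).image y)
    · rw [hZ']
      rintro z (hz | ⟨i, hi, rfl⟩)
      · exact hZ2 z hz
      · obtain ⟨j, hj⟩ := hyK i hi
        rw [hj, hb1]
        exact hwn _
    · rw [hZ']
      rintro z (hz | ⟨i, hi, rfl⟩) z' (hz' | ⟨i', hi', rfl⟩)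
      · exact hZi z hz z' hz'
      · obtain ⟨j, hj⟩ := hyK i' hi'
        rw [hj]
        exact C7_om_anti _ _ (hbfar j z (Or.inl (Or.inr hz)))
      · obtain ⟨j, hj⟩ := hyK i hi
        rw [hj]
        exact hbfar j z' (Or.inl (Or.inr hz'))
      · obtain ⟨j, hj⟩ := hyK i hi
        obtain ⟨j', hj'⟩ := hyK i' hi'
        rw [hj, hj']
        exact C7_om_even (hb1e _) (hb1e _)
    · have h2 : ∀ i, ∃ l, Even l ∧ (Sum.elim (fun i => ee (uL i)) (fun j => ee (b2 j)) :
          Fin r ⊕ Fin k' → V) i = ee l := by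
        rintro (i | j)
        · exact ⟨uL i, by rw [huL]; exact hwe _, rfl⟩
        · exact ⟨b2 j, by rw [hb2]; exact hwe _, rfl⟩
      intro i j
      obtain ⟨l, hl, hl'⟩ := h2 i
      obtain ⟨l', hll, hll'⟩ := h2 j
      rw [hl', hll']
      exact C7_om_even hl hll
    · have h2 : ∀ i, ∃ l, (Sum.elim (fun i => ee (uL i)) (fun j => ee (b2 j)) :
          Fin r ⊕ Fin k' → V) i = ee (w l) := by
        rintro (i | j)
        · exact ⟨Sum.inl i, by rw [Sum.elim_inl, huL]⟩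
        · exact ⟨Sum.inr (Fin.natAdd K j), by rw [Sum.elim_inr, hb2]⟩
      intro i z hz
      obtain ⟨l, hl⟩ := h2 i
      rw [hl]
      rw [hZ'] at hz
      rcases hz with hz | hz | ⟨i', hi', rfl⟩
      · exact hwfar l z (Or.inl hz)
      · exact hwfar l z (Or.inr hz)
      · obtain ⟨j, hj⟩ := hyK i' hi'
        rw [hj]
        exact C7_om_even (hwe _) (hb1e _)
  -- the coefficient of the top monomial
  obtain ⟨N, hN⟩ : ∃ N : Submodule R (U R),
      N = nn M ⊔ Submodule.span R {x | ∃ κ ∈ s', κ ≠ 0 ∧ x = g κ} := ⟨_, rfl⟩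
  have hkey : ∀ t : Fin K → ℂ, (Ek s (fun i => ee (uL i))
      (fun j => ee (ℓ j) + t j • ee (b1 j)) * Dl (fun i => ee (uL i)) ^ (D + 1) : R) • f ∈ N := by
    intro t
    obtain ⟨t', ht'⟩ : ∃ t' : ℕ → ℂ, ∀ j : Fin K, t' j = t j := by
      refine ⟨fun j => if h : j < K then t ⟨j, h⟩ else 0, fun j => ?_⟩
      beta_reduce
      rw [dif_pos j.2]
    obtain ⟨φ, ha, hb, hc, hd, hi⟩ := hφ t'
    have hTfin : ((Set.Iio (2 * n) ∪ Z) ∪ (Set.range uL ∪
        Set.Ico (2 * N1) (2 * N1 + 2 * (m * m)))).Finite :=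
      hfin.union ((Set.finite_range _).union (Set.finite_Ico _ _))
    have hLT : (hh s (D + 1) (fun i => ee (uL i)) (fun j => ee (ℓ j)) : R) • f ∈
        LT R ((Set.Iio (2 * n) ∪ Z) ∪ (Set.range uL ∪
          Set.Ico (2 * N1) (2 * N1 + 2 * (m * m)))) := by
      rw [smul_eq_C_mul]
      refine Subalgebra.mul_mem _ (C7_hh_LT _ uL (fun i => Or.inr (Or.inl ⟨_, rfl⟩)) ℓ
        (fun j => ?_)) (LT_mono Set.subset_union_left hfT)
      rcases lt_or_ge (j : ℕ) (2 * n) with hj | hj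
      · rw [hℓ1 j hj]
        exact Or.inl (Or.inl hj)
      · have hj2 := j.2
        rw [hℓ2 j hj]
        refine Or.inr (Or.inr ⟨by omega, by omega⟩)
    have h2 := witt1 (nn_GS hM) (show (hh s (D + 1) (fun i => ee (uL i))
      (fun j => ee (ℓ j)) : R) • f ∈ nn M from hcl) hTfin hLT φ hi
    rw [sbC_smul, sbR_hh, hsub t' φ ha hb] at h2
    simp only [linC_ee, hc, hd, ht'] at h2
    have h3 : ∑ κ ∈ s', (κ.prod fun i k => t' i ^ k) • g κ =
        f + ∑ κ ∈ s'.erase 0, (κ.prod fun i k => t' i ^ k) • g κ := by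
      rw [← Finset.add_sum_erase s' _ hg0, Finsupp.prod_zero_index, one_smul, hg00]
    rw [h3, smul_add] at h2
    have h4 : (hh s (D + 1) (fun i => ee (uL i)) (fun j => ee (ℓ j) + t j • ee (b1 j)) : R) •
        ∑ κ ∈ s'.erase 0, (κ.prod fun i k => t' i ^ k) • g κ ∈ N := by
      rw [hN]
      refine Submodule.smul_mem _ _ (Submodule.sum_mem _ fun κ hκ => smulC_mem _ _ ?_)
      refine Submodule.mem_sup_right (Submodule.subset_span ⟨κ, (Finset.mem_erase.1 hκ).2,
        (Finset.mem_erase.1 hκ).1, rfl⟩)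
    have h5 : nn M ≤ N := by rw [hN]; exact le_sup_left
    exact (Submodule.add_mem_iff_left N h4).1 (h5 h2)
  have htop := C7_Ek N s (fun i => ee (uL i)) (fun j => ee (ℓ j)) (fun j => ee (b1 j))
    (Dl (fun i => ee (uL i)) ^ (D + 1)) f hkey
  have hNQ : N ≤ (nn M).comap ((hh s q' (fun i => ee (uL i)) (fun j => ee (b2 j)) : R) •
      (LinearMap.id : U R →ₗ[R] U R)) := by
    rw [hN]
    refine sup_le (fun x hx => ?_) (Submodule.span_le.2 ?_)
    · exact smul_mem_nn _ hx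
    · rintro x ⟨κ, hκ, hκ0, rfl⟩
      exact hF' κ hκ hκ0
  have h2 := hNQ htop
  rw [Submodule.mem_comap, LinearMap.smul_apply, LinearMap.id_apply, smul_smul] at h2
  have h3 : (hh s ((D + 1) + q') (fun i => ee (w (Sum.inl i)))
      (fun j => ee (w (Sum.inr j))) : R) =
      hh s q' (fun i => ee (uL i)) (fun j => ee (b2 j)) *
        (Ek s (fun i => ee (uL i)) (fun j => ee (b1 j)) * Dl (fun i => ee (uL i)) ^ (D + 1)) := by
    unfold hh Ek
    rw [Fin.prod_univ_add]
    simp only [huL, hb1, hb2]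
    ring
  rw [h3]
  exact h2

private theorem C7_hh_split (s q q' : ℕ) {r k k' : ℕ} (u : Fin r → V) (b : Fin (k + k') → V) :
    (hh s (q + q') u b : R) = hh s q u (fun j => b (Fin.castAdd k' j)) *
      hh s q' u (fun j => b (Fin.natAdd k j)) := by
  unfold hh Ek
  rw [Fin.prod_univ_add]
  ring

/-- (F) -/
theorem F54 {r s : ℕ} (h1 : HP1 R r s) (S : Finset ℕ) (M : Submodule R (U R)) (hM : GLS M)
    (hMS : M ≤ MS R S) (n D : ℕ) : ∃ k q : ℕ, FProp r s k q n D S M := by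
  classical
  induction D with
  | zero =>
    refine ⟨0, 0, fun Z _ hZ2 hZi f hf _ hfT hTD u b _ _ => ?_⟩
    obtain ⟨g, hg, hg'⟩ := hTD
    rw [zero_add, Finset.sum_range_one] at hg
    have h2 := LT_of_TD_zero (n := n) hfT (by
      intro c
      rw [hg]
      exact hg' 0 c)
    refine smul_mem_nn _ (mem_nn_of_iso_letters hf h2 ?_)
    have h3 : ∀ i ∈ (Set.Iio (2 * n) ∪ Z) \ Set.Iio (2 * n), i ∈ Z := by
      rintro i ⟨hi | hi, hi'⟩
      · exact absurd hi hi'
      · exact hi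
    intro i hi j hj
    exact hZi i (h3 i hi) j (h3 j hj)
  | succ D ih =>
    obtain ⟨k', q', hF⟩ := ih
    obtain ⟨k, q, hk⟩ := F_step h1 S M hM hMS n D k' q' hF
    refine ⟨k + k', q + q', fun Z hZf hZ2 hZi f hf htr hfT hTD u b hub hT => ?_⟩
    obtain ⟨g, hg, hg'⟩ := TD_comp n (D + 1) S M hM (Set.Iio (2 * n) ∪ Z) f hf hfT htr
      (fun i hi j hj _ => C7_om_div (by omega)) (fun i hi j hj hi' hj' => by
        have hiZ : i ∈ Z := by
          rcases hi' with h | h
          · exact absurd h (not_lt.2 hi)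
          · exact h
        have hjZ : j ∈ Z := by
          rcases hj' with h | h
          · exact absurd h (not_lt.2 hj)
          · exact h
        exact hZi i hiZ j hjZ) hTD
    obtain ⟨b1, hb1⟩ : ∃ b1 : Fin k → V, b1 = fun j => b (Fin.castAdd k' j) := ⟨_, rfl⟩
    obtain ⟨b2, hb2⟩ : ∃ b2 : Fin k' → V, b2 = fun j => b (Fin.natAdd k j) := ⟨_, rfl⟩
    have hin1 : ∀ i, ∃ j, (Sum.elim u b1 : Fin r ⊕ Fin k → V) i =
        (Sum.elim u b : Fin r ⊕ Fin (k + k') → V) j := by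
      rintro (i | i)
      · exact ⟨Sum.inl i, rfl⟩
      · exact ⟨Sum.inr (Fin.castAdd k' i), by rw [Sum.elim_inr, Sum.elim_inr, hb1]⟩
    have hin2 : ∀ i, ∃ j, (Sum.elim u b2 : Fin r ⊕ Fin k' → V) i =
        (Sum.elim u b : Fin r ⊕ Fin (k + k') → V) j := by
      rintro (i | i)
      · exact ⟨Sum.inl i, rfl⟩
      · exact ⟨Sum.inr (Fin.natAdd k i), by rw [Sum.elim_inr, Sum.elim_inr, hb2]⟩
    have hiso1 : Iso (Sum.elim u b1) := by
      intro i j
      obtain ⟨i', hi'⟩ := hin1 i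
      obtain ⟨j', hj'⟩ := hin1 j
      rw [hi', hj']
      exact hub i' j'
    have hiso2 : Iso (Sum.elim u b2) := by
      intro i j
      obtain ⟨i', hi'⟩ := hin2 i
      obtain ⟨j', hj'⟩ := hin2 j
      rw [hi', hj']
      exact hub i' j'
    -- the top component
    have htop : (hh s q u b1 : R) • g (D + 1) ∈ nn M := by
      obtain ⟨hgM, hgT, hgtr, hgd⟩ := hg' (D + 1)
      obtain ⟨B, hB⟩ := hk Z hZf hZ2 hZi (g (D + 1)) hgM hgtr hgT hgd
      refine F_of_letters S M hM Z hZf (g (D + 1)) hgT B hB u b1 hiso1 fun i z hz => ?_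
      obtain ⟨i', hi'⟩ := hin1 i
      rw [hi']
      exact hT i' z hz
    -- the other components
    have hlow : (hh s q' u b2 : R) • (∑ d ∈ Finset.range (D + 1), g d) ∈ nn M := by
      refine hF Z hZf hZ2 hZi _ (Submodule.sum_mem _ fun d _ => (hg' d).1) ?_
        (Subalgebra.sum_mem _ fun d _ => (hg' d).2.1) ⟨g, rfl, fun d => (hg' d).2.2.2⟩ u b2 hiso2
        fun i z hz => ?_
      · intro a ha a' ha' hne
        rw [map_sum]
        exact Finset.sum_eq_zero fun d _ => (hg' d).2.2.1 a ha a' ha' hne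
      · obtain ⟨i', hi'⟩ := hin2 i
        rw [hi']
        exact hT i' z hz
    rw [hg, Finset.sum_range_succ, smul_add, C7_hh_split, ← hb1, ← hb2]
    refine Submodule.add_mem _ ?_ ?_
    · rw [mul_smul]
      exact smul_mem_nn _ hlow
    · rw [mul_comm, mul_smul]
      exact smul_mem_nn _ htop

end MP50e386N
end

section
namespace MP50e386N

open MvPolynomial Pool.Agent.Lib.MP50e386

variable {R : Type} [CommRing R] [Algebra ℂ R] [GLRing R]

namespace C8

/-- the induction step for homogeneous elements -/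
theorem hom_step {r s k q n D : ℕ} (S : Finset ℕ) (M : Submodule R (U R)) (hM : GLS M)
    (hF : FProp r s k q n D S M) (j : ℕ) (hj : j + 1 ≤ D)
    (IH : ∀ Z : Set ℕ, Z.Finite → (∀ z ∈ Z, 2 * n ≤ z) →
      (∀ z ∈ Z, ∀ z' ∈ Z, om (ee z) (ee z') = 0) →
      ∀ f ∈ M, TrZ S f → f ∈ LT R (Set.Iio (2 * n) ∪ Z) → TD n j f →
      ∀ w : Fin (j + 1) → (Fin r ⊕ Fin k) → V, (∀ i i' a a', om (w i a) (w i' a') = 0) →
      (∀ i a, ∀ z ∈ Z, om (w i a) (ee z) = 0) →
      (∏ i, hh s q (fun a => w i (Sum.inl a)) (fun b => w i (Sum.inr b)) : R) • f ∈ nn M)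
    (Z : Set ℕ) (hZf : Z.Finite) (hZ : ∀ z ∈ Z, 2 * n ≤ z)
    (hZi : ∀ z ∈ Z, ∀ z' ∈ Z, om (ee z) (ee z') = 0)
    (f : U R) (hf : f ∈ M) (htr : TrZ S f) (hfT : f ∈ LT R (Set.Iio (2 * n) ∪ Z))
    (J : ℕ) (hJ : J ≤ j + 1) (hdeg : ∀ c : ℂ, sbC (scT n c) f = c ^ J • f)
    (w : Fin (j + 2) → (Fin r ⊕ Fin k) → V)
    (hw : ∀ i i' a a', om (w i a) (w i' a') = 0) (hwZ : ∀ i a, ∀ z ∈ Z, om (w i a) (ee z) = 0) :
    (∏ i, hh s q (fun a => w i (Sum.inl a)) (fun b => w i (Sum.inr b)) : R) • f ∈ nn M := by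
  classical
  -- a level
  obtain ⟨L, hL1, hL2⟩ : ∃ L : ℕ, (∀ i ∈ Set.Iio (2 * n) ∪ Z, i < 2 * L) ∧
      ∀ i a l, 2 * L ≤ l → w i a l = 0 := by
    set T : Finset ℕ := (Finset.range (2 * n) ∪ hZf.toFinset) ∪
      Finset.univ.biUnion (fun i => Finset.univ.biUnion (fun a => (w i a).support)) with hT
    refine ⟨T.sup id + 1, ?_, ?_⟩
    · intro i hi
      have h1 : i ∈ T := by
        rw [hT, Finset.mem_union, Finset.mem_union, Finset.mem_range, hZf.mem_toFinset]
        rcases hi with hi | hi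
        · exact Or.inl (Or.inl hi)
        · exact Or.inl (Or.inr hi)
      have h2 := Finset.le_sup (f := id) h1
      simp only [id] at h2
      omega
    · intro i a l hl
      by_contra hne
      have h1 : l ∈ T := by
        rw [hT, Finset.mem_union, Finset.mem_biUnion]
        refine Or.inr ⟨i, Finset.mem_univ _, ?_⟩
        rw [Finset.mem_biUnion]
        exact ⟨a, Finset.mem_univ _, Finsupp.mem_support_iff.2 hne⟩
      have h2 := Finset.le_sup (f := id) h1
      simp only [id] at h2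
      omega
  have hnL : n ≤ L := by
    rcases Nat.eq_zero_or_pos n with h | h
    · omega
    · have := hL1 (2 * n - 1) (Or.inl (by rw [Set.mem_Iio]; omega))
      omega
  -- fresh letters
  set idx : Fin r ⊕ Fin k → ℕ := Sum.elim (fun i => (i : ℕ)) (fun i => r + (i : ℕ)) with hidx
  have idx_inj : Function.Injective idx := by
    rintro (a | a) (b | b) h
    · simp only [hidx, Sum.elim_inl] at h
      rw [Fin.ext h]
    · simp only [hidx, Sum.elim_inl, Sum.elim_inr] at h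
      omega
    · simp only [hidx, Sum.elim_inl, Sum.elim_inr] at h
      omega
    · simp only [hidx, Sum.elim_inr] at h
      rw [Fin.ext (by omega : (a : ℕ) = b)]
  set y : Fin r ⊕ Fin k → ℕ := fun l => 2 * L + 2 * idx l with hy
  set yd : Fin r ⊕ Fin k → ℕ := fun l => 2 * L + 2 * idx l + 1 with hyd
  have y_inj : Function.Injective y := by
    intro a b h
    apply idx_inj
    simp only [hy] at h
    omega
  set a : Fin r ⊕ Fin k → V := w 0 with ha
  -- the form on the vectors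
  have Baa : ∀ l l', T5.B (a l) (a l') = 0 := fun l l' => by rw [← T5.om_eq]; exact hw 0 0 l l'
  have Bya : ∀ l l', T5.B (ee (y l)) (a l') = 0 := fun l l' =>
    T5.B_far (a l') (hL2 0 l') (by simp only [hy]; omega)
  have Bda : ∀ l l', T5.B (ee (yd l)) (a l') = 0 := fun l l' =>
    T5.B_far (a l') (hL2 0 l') (by simp only [hyd]; omega)
  have hlow : ∀ i ∈ Set.Iio (2 * n) ∪ Z, ∀ l, 2 * L ≤ l → (ee i : V) l = 0 := by
    intro i hi l hl
    have := hL1 i hi
    exact Finsupp.single_eq_of_ne (by omega)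
  have Bye : ∀ l, ∀ i ∈ Set.Iio (2 * n) ∪ Z, T5.B (ee (y l)) (ee i) = 0 := fun l i hi =>
    T5.B_far (ee i) (hlow i hi) (by simp only [hy]; omega)
  have Bde : ∀ l, ∀ i ∈ Set.Iio (2 * n) ∪ Z, T5.B (ee (yd l)) (ee i) = 0 := fun l i hi =>
    T5.B_far (ee i) (hlow i hi) (by simp only [hyd]; omega)
  have Byy : ∀ l l', T5.B (ee (y l)) (ee (y l')) = 0 := fun l l' => T5.B_bb L (idx l) (idx l')
  have Bdd : ∀ l l', T5.B (ee (yd l)) (ee (yd l')) = 0 := fun l l' => T5.B_ss L (idx l) (idx l')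
  have Bdy : ∀ l l', T5.B (ee (yd l)) (ee (y l')) = if l' = l then -1 else 0 := by
    intro l l'
    have h1 := T5.B_sb L (idx l) (idx l')
    simp only [hyd, hy]
    rw [h1]
    by_cases h : l' = l
    · rw [if_pos h, if_pos (by rw [h])]
    · rw [if_neg h, if_neg (fun h' => h (idx_inj h'))]
  -- the replacement vectors
  set v : ℕ → V := fun i => ∑ l, (- om (a l) (ee i)) • ee (yd l) with hv
  have hvlow : ∀ i, ∀ l < 2 * n, v i l = 0 := by
    intro i l hl
    simp only [hv]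
    rw [Finsupp.finsetSum_apply]
    apply Finset.sum_eq_zero
    intro l' _
    rw [Finsupp.smul_apply, Finsupp.single_eq_of_ne (by simp only [hyd]; omega), smul_zero]
  have hvZ : ∀ z ∈ Z, v z = 0 := by
    intro z hz
    simp only [hv]
    apply Finset.sum_eq_zero
    intro l _
    rw [ha, hwZ 0 l z hz, neg_zero, zero_smul]
  have Bve : ∀ i, ∀ i' ∈ Set.Iio (2 * n) ∪ Z, T5.B (v i) (ee i') = 0 := by
    intro i i' hi'
    simp only [hv]
    rw [T5.B_suml]
    exact Finset.sum_eq_zero fun l _ => by rw [T5.B_sl, Bde l i' hi', mul_zero]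
  have Bvv : ∀ i i', T5.B (v i) (v i') = 0 := by
    intro i i'
    simp only [hv]
    rw [T5.B_suml]
    refine Finset.sum_eq_zero fun l _ => ?_
    rw [T5.B_sl, T5.B_sumr, Finset.sum_eq_zero, mul_zero]
    intro l' _
    rw [T5.B_sr, Bdd, mul_zero]
  have Bva : ∀ i l, T5.B (v i) (a l) = 0 := by
    intro i l
    simp only [hv]
    rw [T5.B_suml]
    exact Finset.sum_eq_zero fun l' _ => by rw [T5.B_sl, Bda l' l, mul_zero]
  have Bvy : ∀ i l, T5.B (v i) (ee (y l)) = T5.B (a l) (ee i) := by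
    intro i l
    simp only [hv]
    rw [T5.B_suml, Finset.sum_eq_single l]
    · rw [T5.B_sl, Bdy, if_pos rfl, T5.om_eq]
      ring
    · intro l' _ hl'
      rw [T5.B_sl, Bdy, if_neg (Ne.symm hl'), mul_zero]
    · intro h
      exact absurd (Finset.mem_univ l) h
  -- expansion
  obtain ⟨f', hf'0, hf'1, hf'2⟩ := expand n J f hdeg v hvlow
  have hψgen : ∀ τ : ℂ, ∀ i ∈ Set.Iio (2 * n) ∪ Z,
      (if i < 2 * n then (ee i : V) + τ • v i else ee i) = ee i + τ • v i := by
    intro τ i hi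
    split_ifs with h
    · rfl
    · have hz : i ∈ Z := hi.resolve_left h
      rw [hvZ i hz, smul_zero, add_zero]
  set Z' : Set ℕ := Z ∪ Set.range yd with hZ'
  have hτinf : ∀ P : ℂ → Prop, (∀ τ, P τ) → {τ : ℂ | P τ}.Infinite := by
    intro P hP
    have : {τ : ℂ | P τ} = Set.univ := Set.eq_univ_of_forall hP
    rw [this]
    exact Set.infinite_univ
  have hmemM : ∀ d < J + 1, f' d ∈ M := by
    intro d hd
    refine vand1 (M.restrictScalars ℂ) (J + 1) f' (hτinf _ fun τ => ?_) d hd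
    rw [← hf'1 τ]
    exact hM _ f hf
  have htr' : ∀ d < J + 1, TrZ S (f' d) := by
    intro d hd b hb b' hb' hbb'
    refine vand1 ((LinearMap.ker (tr (R := R) b b')).restrictScalars ℂ) (J + 1) f'
      (hτinf _ fun τ => ?_) d hd
    rw [← hf'1 τ]
    change tr b b' _ = 0
    rw [tr_sbC_iso _ b b' _ f hfT 1 ?_, htr b hb b' hb' hbb', map_zero, smul_zero]
    intro i hi i' hi'
    rw [hψgen τ i hi, hψgen τ i' hi', T5.om_eq, T5.om_eq, T5.B_al, T5.B_ar, T5.B_ar, T5.B_sl,
      T5.B_sl, T5.B_sr, T5.B_sr, Bvv, Bve i i' hi', T5.B_anti (ee i) (v i'), Bve i' i hi]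
    ring
  have hLT' : ∀ d < J + 1, f' d ∈ LT R (Set.Iio (2 * n) ∪ Z') := by
    intro d hd
    refine vand1 (Subalgebra.toSubmodule (LT R (Set.Iio (2 * n) ∪ Z'))) (J + 1) f'
      (hτinf _ fun τ => ?_) d hd
    rw [← hf'1 τ]
    refine sbC_LT hfT _ ?_
    intro i hi l hil
    rw [hψgen τ i hi, Finsupp.add_apply, Finsupp.smul_apply] at hil
    by_cases h1 : i = l
    · rw [← h1]
      rcases hi with hi | hi
      · exact Or.inl hi
      · exact Or.inr (Or.inl hi)
    · rw [Finsupp.single_eq_of_ne (Ne.symm h1), zero_add] at hil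
      have h2 : v i l ≠ 0 := fun h => hil (by rw [h, smul_zero])
      simp only [hv] at h2
      rw [Finsupp.finsetSum_apply] at h2
      obtain ⟨l', -, hl'⟩ := Finset.exists_ne_zero_of_sum_ne_zero h2
      rw [Finsupp.smul_apply] at hl'
      by_cases h3 : yd l' = l
      · exact Or.inr (Or.inr ⟨l', h3⟩)
      · rw [Finsupp.single_eq_of_ne (Ne.symm h3), smul_zero] at hl'
        exact absurd rfl hl'
  -- (F)
  have hFf : (hh s q (fun i => ee (y (Sum.inl i))) (fun i => ee (y (Sum.inr i))) : R) • f ∈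
      nn M := by
    have hel : ∀ l, (Sum.elim (fun i => (ee (y (Sum.inl i)) : V))
        (fun i => ee (y (Sum.inr i)))) l = ee (y l) := by
      rintro (l | l) <;> rfl
    refine hF Z hZf hZ hZi f hf htr hfT (TD_of_hom hdeg (by omega)) _ _ ?_ ?_
    · intro l l'
      rw [hel, hel, T5.om_eq, Byy]
    · intro l z hz
      rw [hel, T5.om_eq, Bye l z hz]
  -- the polynomial
  obtain ⟨P, hP⟩ := sbR_poly (R := R) ee (Function.extend y a 0)
    (hh s q (fun i => ee (y (Sum.inl i))) (fun i => ee (y (Sum.inr i))))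
  have hP' : ∀ t : ℂ, P.eval (algebraMap ℂ R t) =
      hh s q (fun i => t • ee (y (Sum.inl i)) + a (Sum.inl i))
        (fun i => t • ee (y (Sum.inr i)) + a (Sum.inr i)) := by
    intro t
    rw [← hP, sbR_hh]
    congr 1
    · funext i
      rw [linC_ee, y_inj.extend_apply]
    · funext i
      rw [linC_ee, y_inj.extend_apply]
  have hP0 : P.coeff 0 = hh s q (fun i => a (Sum.inl i)) (fun i => a (Sum.inr i)) := by
    have h1 := hP' 0
    rw [map_zero, ← Polynomial.coeff_zero_eq_eval_zero] at h1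
    rw [h1]
    congr 1
    · funext i
      rw [zero_smul, zero_add]
    · funext i
      rw [zero_smul, zero_add]
  -- the main family
  have hmain : ∀ t : ℂ, t ≠ 0 →
      (P.eval (algebraMap ℂ R t)) • ∑ d ∈ Finset.range (J + 1), t ^ (J - d) • f' d ∈ nn M := by
    intro t ht
    set Φ : ℕ → V := Function.extend y (fun l => t • ee (y l) + a l)
      (fun i => if i < 2 * n then ee i + t⁻¹ • v i else ee i) with hΦ
    have Φy : ∀ l, Φ (y l) = t • ee (y l) + a l := fun l => by rw [hΦ, y_inj.extend_apply]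
    have Φe : ∀ i ∈ Set.Iio (2 * n) ∪ Z, Φ i = ee i + t⁻¹ • v i := by
      intro i hi
      have h1 : ¬ ∃ l, y l = i := by
        rintro ⟨l, hl⟩
        have h2 := hL1 i hi
        simp only [hy] at hl
        omega
      rw [hΦ, Function.extend_apply' _ _ _ h1]
      exact hψgen _ i hi
    have h1 := witt1 (nn_GS hM) hFf (T := (Set.Iio (2 * n) ∪ Z) ∪ Set.range y)
      (((Set.finite_Iio _).union hZf).union (Set.finite_range _)) (by
        rw [smul_eq_C_mul]
        refine Subalgebra.mul_mem _ ?_ (LT_mono Set.subset_union_left hfT)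
        exact hh_LT _ s q _ _ (fun i => Or.inr ⟨_, rfl⟩) (fun i => Or.inr ⟨_, rfl⟩)) Φ (by
        have hmix : ∀ i ∈ Set.Iio (2 * n) ∪ Z, ∀ l, T5.B (Φ i) (Φ (y l)) = 0 := by
          intro i hi l
          rw [Φe i hi, Φy, T5.B_al, T5.B_ar, T5.B_ar, T5.B_sl, T5.B_sl, T5.B_sr, T5.B_sr, Bva,
            Bvy, T5.B_anti (ee i) (ee (y l)), Bye l i hi, T5.B_anti (ee i) (a l)]
          field_simp
          ring
        rintro i (hi | ⟨l, rfl⟩) i' (hi' | ⟨l', rfl⟩)
        · rw [Φe i hi, Φe i' hi', T5.om_eq, T5.om_eq, T5.B_al, T5.B_ar, T5.B_ar, T5.B_sl,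
            T5.B_sl, T5.B_sr, T5.B_sr, Bvv, Bve i i' hi', T5.B_anti (ee i) (v i'), Bve i' i hi]
          ring
        · rw [T5.om_eq, T5.om_eq, hmix i hi l', T5.B_anti, Bye l' i hi, neg_zero]
        · rw [T5.om_eq, T5.om_eq, T5.B_anti, hmix i' hi' l, Bye l i' hi', neg_zero]
        · rw [Φy, Φy, T5.om_eq, T5.om_eq, T5.B_al, T5.B_ar, T5.B_ar, T5.B_sl, T5.B_sl, T5.B_sr,
            T5.B_sr, Byy, Bya, T5.B_anti (a l) (ee (y l')), Bya, Baa]
          ring)
    rw [sbC_smul, sbR_hh] at h1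
    have h2 : sbC Φ f = ∑ d ∈ Finset.range (J + 1), t⁻¹ ^ d • f' d := by
      rw [← hf'1 t⁻¹]
      apply sbC_congr hfT
      intro i hi
      rw [Φe i hi, hψgen _ i hi]
    have h3 : ∑ d ∈ Finset.range (J + 1), t ^ (J - d) • f' d = t ^ J • sbC Φ f := by
      rw [h2, Finset.smul_sum]
      apply Finset.sum_congr rfl
      intro d hd
      have hd' : d ≤ J := by
        have := Finset.mem_range.1 hd
        omega
      rw [smul_smul]
      congr 1
      rw [inv_pow, ← div_eq_mul_inv, pow_sub₀ _ ht hd', div_eq_mul_inv]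
    rw [h3, hP', smul_comm]
    refine smulC_mem _ _ ?_
    have h4 : (fun i => linC Φ (ee (y (Sum.inl i)))) =
        fun i => t • (ee (y (Sum.inl i)) : V) + a (Sum.inl i) := by
      funext i
      rw [linC_ee, Φy]
    have h5 : (fun i => linC Φ (ee (y (Sum.inr i)))) =
        fun i => t • (ee (y (Sum.inr i)) : V) + a (Sum.inr i) := by
      funext i
      rw [linC_ee, Φy]
    rw [h4, h5] at h1
    exact h1
  -- the coefficient of `t ^ J`
  have hcoef : ∑ d ∈ Finset.range (J + 1), P.coeff d • f' d ∈ nn M := by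
    set Q : Polynomial (U R) := (P.map (C : R →+* U R)) *
      ∑ d ∈ Finset.range (J + 1), Polynomial.C (f' d) * Polynomial.X ^ (J - d) with hQ
    have h1 := vand_poly ((nn M).restrictScalars ℂ) Q (by
      refine Set.Infinite.mono (s := {t : ℂ | t ≠ 0}) ?_ ?_
      · intro t ht
        have h2 := hmain t ht
        have h3 : Q.eval (algebraMap ℂ (U R) t) =
            (P.eval (algebraMap ℂ R t)) • ∑ d ∈ Finset.range (J + 1), t ^ (J - d) • f' d := by
          rw [hQ, Polynomial.eval_mul, smul_eq_C_mul]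
          congr 1
          · have h4 : (algebraMap ℂ (U R) t) = (C : R →+* U R) (algebraMap ℂ R t) := rfl
            rw [h4, Polynomial.eval_map_apply]
          · rw [Polynomial.eval_finsetSum]
            apply Finset.sum_congr rfl
            intro d _
            rw [Polynomial.eval_mul, Polynomial.eval_C, Polynomial.eval_pow, Polynomial.eval_X,
              ← map_pow, Algebra.smul_def, mul_comm]
        change Q.eval (algebraMap ℂ (U R) t) ∈ (nn M).restrictScalars ℂ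
        rw [h3]
        exact h2
      · exact (Set.finite_singleton (0 : ℂ)).infinite_compl) J
    have h2 : Q.coeff J = ∑ d ∈ Finset.range (J + 1), P.coeff d • f' d := by
      rw [hQ, Finset.mul_sum, Polynomial.finsetSum_coeff]
      apply Finset.sum_congr rfl
      intro d hd
      have hd' : d ≤ J := by
        have := Finset.mem_range.1 hd
        omega
      rw [← mul_assoc, Polynomial.coeff_mul_X_pow', if_pos (by omega), Polynomial.coeff_mul_C,
        Polynomial.coeff_map, smul_eq_C_mul]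
      congr 3
      omega
    rw [h2] at h1
    exact h1
  -- the induction hypothesis
  set Pi : R := ∏ i : Fin (j + 1), hh s q (fun a => w i.succ (Sum.inl a))
    (fun b => w i.succ (Sum.inr b)) with hPi
  have hIH : ∀ d ∈ Finset.range J, Pi • f' (d + 1) ∈ nn M := by
    intro d hd
    have hd' := Finset.mem_range.1 hd
    refine IH Z' (hZf.union (Set.finite_range _)) ?_ ?_ _ (hmemM _ (by omega))
      (htr' _ (by omega)) (hLT' _ (by omega)) (TD_of_hom (hf'2 (d + 1)) (by omega))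
      (fun i => w i.succ) (fun i i' a a' => hw _ _ _ _) ?_
    · rintro z (hz | ⟨l, rfl⟩)
      · exact hZ z hz
      · simp only [hyd]
        omega
    · rintro z (hz | ⟨l, rfl⟩) z' (hz' | ⟨l', rfl⟩)
      · exact hZi z hz z' hz'
      · rw [T5.om_eq, T5.B_anti, Bde l' z (Or.inr hz), neg_zero]
      · rw [T5.om_eq, Bde l z' (Or.inr hz')]
      · rw [T5.om_eq, Bdd]
    · rintro i b z (hz | ⟨l, rfl⟩)
      · exact hwZ _ _ z hz
      · rw [T5.om_eq, T5.B_anti, T5.B_far (w i.succ b) (hL2 _ _) (by simp only [hyd]; omega),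
          neg_zero]
  have hfin := smul_mem_nn (M := M) Pi hcoef
  rw [Finset.sum_range_succ', smul_add, hf'0, hP0, Finset.smul_sum] at hfin
  have h6 : ∑ d ∈ Finset.range J, Pi • P.coeff (d + 1) • f' (d + 1) ∈ nn M := by
    apply Submodule.sum_mem
    intro d hd
    rw [smul_comm]
    exact smul_mem_nn _ (hIH d hd)
  have h7 := (Submodule.add_mem_iff_right _ h6).1 hfin
  rw [smul_smul] at h7
  rw [Fin.prod_univ_succ, mul_comm]
  exact h7

end C8

/-- claim S(j) of paper 5.5 -/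
theorem A_claim {r s k q n D : ℕ} (S : Finset ℕ) (M : Submodule R (U R)) (hM : GLS M)
    (hMS : M ≤ MS R S) (hF : FProp r s k q n D S M) (j : ℕ) (hj : j ≤ D) (Z : Set ℕ)
    (hZf : Z.Finite) (hZ : ∀ z ∈ Z, 2 * n ≤ z) (hZi : ∀ z ∈ Z, ∀ z' ∈ Z, om (ee z) (ee z') = 0)
    (f : U R) (hf : f ∈ M) (htr : TrZ S f) (hfT : f ∈ LT R (Set.Iio (2 * n) ∪ Z))
    (hTD : TD n j f) (w : Fin (j + 1) → (Fin r ⊕ Fin k) → V)
    (hw : ∀ i i' a a', om (w i a) (w i' a') = 0) (hwZ : ∀ i a, ∀ z ∈ Z, om (w i a) (ee z) = 0) :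
    (∏ i, hh s q (fun a => w i (Sum.inl a)) (fun b => w i (Sum.inr b)) : R) • f ∈ nn M := by
  induction j generalizing Z f with
  | zero =>
    obtain ⟨g, hfg, hg⟩ := hTD
    rw [zero_add, Finset.sum_range_one] at hfg
    have h1 := LT_of_TD_zero hfT (fun c => by
      have h2 := hg 0 c
      rw [← hfg] at h2
      exact h2)
    refine smul_mem_nn _ (mem_nn_of_iso_letters hf h1 ?_)
    rintro i ⟨hi, hi2⟩ i' ⟨hi', hi2'⟩
    exact hZi i (hi.resolve_left hi2) i' (hi'.resolve_left hi2')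
  | succ j IH =>
    obtain ⟨g, hfg, hg⟩ := TD_comp n (j + 1) S M hM (Set.Iio (2 * n) ∪ Z) f hf hfT htr (by
      intro i hi l hl _
      rw [T5.om_eq, T5.B_anti, T5.B_far (n := n) (ee i) (fun m hm =>
        Finsupp.single_eq_of_ne (by omega)) hl, neg_zero]) (by
      intro i hi l hl hiT hlT
      refine hZi i (hiT.resolve_left ?_) l (hlT.resolve_left ?_)
      · rw [Set.mem_Iio]
        omega
      · rw [Set.mem_Iio]
        omega) hTD
    rw [hfg, Finset.smul_sum]
    apply Submodule.sum_mem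
    intro d hd
    have hd' := Finset.mem_range.1 hd
    obtain ⟨hg1, hg2, hg3, hg4⟩ := hg d
    exact C8.hom_step S M hM hF j hj (fun Z hZf hZ hZi f hf htr hfT hTD w hw hwZ =>
      IH (by omega) Z hZf hZ hZi f hf htr hfT hTD w hw hwZ) Z hZf hZ hZi _ hg1 hg3 hg2 d
      (by omega) hg4 w hw hwZ

/-- (A) -/
theorem A55 {r s k q n D : ℕ} (S : Finset ℕ) (M : Submodule R (U R)) (hM : GLS M)
    (hMS : M ≤ MS R S) (hF : FProp r s k q n D S M)
    (f : U R) (hf : f ∈ M) (htr : TrZ S f) (hfT : f ∈ LT R (Set.Iio (2 * n)))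
    (hTD : TD n D f) (w : Fin (D + 1) → (Fin r ⊕ Fin k) → V)
    (hw : ∀ i i' a a', om (w i a) (w i' a') = 0) :
    (∏ i, hh s q (fun a => w i (Sum.inl a)) (fun b => w i (Sum.inr b)) : R) • f ∈ nn M :=
  A_claim S M hM hMS hF D le_rfl ∅ Set.finite_empty (fun _ h => absurd h (Set.notMem_empty _))
    (fun _ h => absurd h (Set.notMem_empty _)) f hf htr
    (LT_mono Set.subset_union_left hfT) hTD w hw
    (fun _ _ _ h => absurd h (Set.notMem_empty _))

end MP50e386N
end

section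
/-! Block C (paper 5.1-5.6): interface. -/

namespace MP50e386N

open MvPolynomial Pool.Agent.Lib.MP50e386

variable {R : Type} [CommRing R] [Algebra ℂ R] [GLRing R]

private theorem cm_linC (g : Cinf ≃ₗ[ℂ] Cinf) (c : ℂ) (v : V) :
    linC (fun i => c • g (ee i)) v = c • g v := by
  have h0 : linC (fun i => c • g (ee i)) = c • g.toLinearMap := by
    apply Finsupp.lhom_ext'
    intro i
    apply LinearMap.ext_ring
    change linC (fun i => c • g (ee i)) (ee i) = c • g (ee i)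
    rw [linC_ee]
  rw [h0]
  rfl

private theorem cm_om_even (i j : ℕ) : om (ee (2 * i)) (ee (2 * j)) = 0 := by
  have h := T5.B_bb 0 i j
  rw [T5.om_eq]
  simpa only [Nat.mul_zero, Nat.zero_add] using h

private theorem cm_om_smul (g : Cinf ≃ₗ[ℂ] Cinf) (hg : IsSp g) (c : ℂ) (v w : V)
    (h : om v w = 0) : om (c • g v) (c • g w) = 0 := by
  rw [T5.om_eq, T5.B_sl, T5.B_sr, ← T5.om_eq]
  change c * (c * sympForm (g v) (g w)) = 0
  rw [hg.2]
  have h' : sympForm v w = 0 := h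
  rw [h', mul_zero, mul_zero]

/-- the ideal of 5.6 -/
private noncomputable def cmI (M : Submodule R (U R)) (f : U R) : Ideal R where
  carrier := {h | ∀ g : Cinf ≃ₗ[ℂ] Cinf, IsSp g → ∀ c : ℂ, c ≠ 0 →
    h • sbC (fun i => c • g (ee i)) f ∈ nn M}
  zero_mem' := fun g _ c _ => by
    rw [zero_smul]
    exact Submodule.zero_mem _
  add_mem' := by
    intro a b ha hb g hg c hc
    rw [add_smul]
    exact Submodule.add_mem _ (ha g hg c hc) (hb g hg c hc)
  smul_mem' := by
    intro a b hb g hg c hc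
    rw [smul_eq_mul, mul_smul]
    exact Submodule.smul_mem _ _ (hb g hg c hc)

private theorem cmI_GSI (M : Submodule R (U R)) (hM : GLS M) (f : U R) : GSI (cmI M f) := by
  intro g' hg' c' hc' h hh g hg c hc
  have h1 := hh (g.trans g'.symm) (isSp_mul (isSp_inv hg') hg) (c'⁻¹ * c)
    (mul_ne_zero (inv_ne_zero hc') hc)
  have h2 := nn_GS hM g' hg' c' hc' _ h1
  rw [sbC_smul, sbC_sbC] at h2
  have h3 : (fun i => linC (fun i => c' • g' (ee i)) ((c'⁻¹ * c) • (g.trans g'.symm) (ee i))) =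
      fun i => c • g (ee i) := by
    funext i
    rw [cm_linC, map_smul, LinearEquiv.trans_apply, LinearEquiv.apply_symm_apply, smul_smul,
      mul_inv_cancel_left₀ hc']
  rw [h3] at h2
  exact h2

private theorem cm_inj (r k D : ℕ) : Function.Injective
    (fun p : Fin D × (Fin r ⊕ Fin k) =>
      Sum.elim (fun a : Fin r => 2 * ((p.1 : ℕ) * (r + k) + (a : ℕ)))
        (fun b : Fin k => 2 * ((p.1 : ℕ) * (r + k) + (r + (b : ℕ)))) p.2) := by
  have key : ∀ (i i' a a' : ℕ), a < r + k → a' < r + k →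
      2 * (i * (r + k) + a) = 2 * (i' * (r + k) + a') → i = i' ∧ a = a' := by
    intro i i' a a' ha ha' h
    have h1 : i * (r + k) + a = i' * (r + k) + a' := by omega
    have h2 : (i * (r + k) + a) / (r + k) = i := by
      rw [mul_comm, Nat.mul_add_div (by omega), Nat.div_eq_of_lt ha, add_zero]
    have h3 : (i' * (r + k) + a') / (r + k) = i' := by
      rw [mul_comm, Nat.mul_add_div (by omega), Nat.div_eq_of_lt ha', add_zero]
    have h4 : i = i' := by rw [← h2, ← h3, h1]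
    subst h4
    exact ⟨rfl, by omega⟩
  rintro ⟨i, a | b⟩ ⟨i', a' | b'⟩ h
  · simp only [Sum.elim_inl] at h
    obtain ⟨h1, h2⟩ := key _ _ _ _ (by omega) (by omega) h
    rw [Fin.ext h1, Fin.ext h2]
  · simp only [Sum.elim_inl, Sum.elim_inr] at h
    obtain ⟨h1, h2⟩ := key _ _ _ _ (by omega) (by omega) h
    exfalso
    have := a.2
    omega
  · simp only [Sum.elim_inl, Sum.elim_inr] at h
    obtain ⟨h1, h2⟩ := key _ _ _ _ (by omega) (by omega) h
    exfalso
    have := a'.2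
    omega
  · simp only [Sum.elim_inr] at h
    obtain ⟨h1, h2⟩ := key _ _ _ _ (by omega) (by omega) h
    have h3 : (b : ℕ) = b' := by omega
    rw [Fin.ext h1, Fin.ext h3]

/-- 5.6: for `f ∈ M` homogeneous and killed by all traces there is a nonzero `GS` ideal `I` with
`I f ≤ nn M`. -/
theorem torsion56 (r s : ℕ) (hP1 : ∀ w : Fin (r + 1) → V, (Dl w : R) ^ (s + 1) = 0)
    (hP3 : ∀ (D k q : ℕ) (v : Fin D → Fin r → ℕ) (c : Fin D → Fin k → ℕ),
      Function.Injective (fun p : Fin D × (Fin r ⊕ Fin k) => Sum.elim (v p.1) (c p.1) p.2) →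
      (∏ d, hh s q (fun i => ee (v d i)) (fun j => ee (c d j)) : R) ≠ 0)
    (S : Finset ℕ) (M : Submodule R (U R)) (hM : GLS M) (hMS : M ≤ MS R S) (D : ℕ) (f : U R)
    (hf : f ∈ M) (hD : HW D f) (htr : ∀ a ∈ S, ∀ b ∈ S, a ≠ b → tr a b f = 0) :
    ∃ I : Ideal R, GSI I ∧ I ≠ ⊥ ∧ ∀ a ∈ I, a • f ∈ nn M := by
  refine ⟨cmI M f, cmI_GSI M hM f, ?_, ?_⟩
  · obtain ⟨n, hn⟩ := exists_LT f
    have hfT : f ∈ LT R (Set.Iio (2 * n)) := LT_mono (Set.Iio_subset_Iio (by omega)) hn
    obtain ⟨k, q, hF⟩ := F54 (R := R) (r := r) (s := s) hP1 S M hM hMS n D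
    have hne := hP3 (D + 1) k q
      (fun i a => 2 * ((i : ℕ) * (r + k) + (a : ℕ)))
      (fun i b => 2 * ((i : ℕ) * (r + k) + (r + (b : ℕ)))) (cm_inj r k (D + 1))
    intro hbot
    apply hne
    rw [← Ideal.mem_bot, ← hbot]
    intro g hg c hc
    -- the vectors `c⁻¹ g⁻¹ w`
    set w0 : Fin (D + 1) → (Fin r ⊕ Fin k) → V := fun i => Sum.elim
      (fun a : Fin r => ee (2 * ((i : ℕ) * (r + k) + (a : ℕ))))
      (fun b : Fin k => ee (2 * ((i : ℕ) * (r + k) + (r + (b : ℕ))))) with hw0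
    have hiso : ∀ i i' a a', om (w0 i a) (w0 i' a') = 0 := by
      intro i i' a a'
      rcases a with a | a <;> rcases a' with a' | a' <;> exact cm_om_even _ _
    have hA := A55 (R := R) (s := s) (q := q) S M hM hMS hF f hf htr hfT (TD_of_HW hD)
      (fun i a => c⁻¹ • g.symm (w0 i a))
      (fun i i' a a' => cm_om_smul g.symm (isSp_inv hg) c⁻¹ _ _ (hiso i i' a a'))
    have h2 := nn_GS hM g hg c hc _ hA
    rw [sbC_smul, map_prod] at h2
    have h3 : (∏ i, sbR (fun i => c • g (ee i)) (hh s q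
        (fun a => c⁻¹ • g.symm (w0 i (Sum.inl a))) (fun b => c⁻¹ • g.symm (w0 i (Sum.inr b))) : R)) =
        ∏ i : Fin (D + 1), hh s q (fun a : Fin r => ee (2 * ((i : ℕ) * (r + k) + (a : ℕ))))
          (fun b : Fin k => ee (2 * ((i : ℕ) * (r + k) + (r + (b : ℕ))))) := by
      refine Finset.prod_congr rfl fun i _ => ?_
      rw [sbR_hh]
      have h4 : ∀ v : V, linC (fun i => c • g (ee i)) (c⁻¹ • g.symm v) = v := by
        intro v
        rw [cm_linC, map_smul, LinearEquiv.apply_symm_apply, smul_smul, mul_inv_cancel₀ hc,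
          one_smul]
      simp only [h4]
      rfl
    rw [h3] at h2
    exact h2
  · intro a ha
    have h := ha (LinearEquiv.refl ℂ Cinf) T5.isSp_refl 1 one_ne_zero
    have h1 : (fun i => (1 : ℂ) • (LinearEquiv.refl ℂ Cinf) (ee i)) = ee := by
      funext i
      rw [one_smul, LinearEquiv.refl_apply]
    rw [h1, sbC_id] at h
    exact h

end MP50e386N
end
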