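import Mathlib
import Pool.Agent.Lib.MP_50e386_al.B.Gb
import Pool.Agent.Lib.MP_50e386_al.B.La

section
/-! P8 from the induction hypothesis (paper section 7). -/

namespace MP50e386N

open MvPolynomial Pool.Agent.Lib.MP50e386

variable (J : Ideal MP50e386.A) [GLIdeal J]

theorem NI_top : NI ⊤ := by
  intro S
  rw [Submodule.top_smul]
  exact NoethInt.refl _ _

private theorem L4_GLSI_map (J' : Ideal MP50e386.A) [GLIdeal J'] :
    GLSI (J'.map (Ideal.Quotient.mk J)) := by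
  intro φ f hf
  obtain ⟨a, ha, rfl⟩ := (Ideal.mem_map_iff_of_surjective _ Ideal.Quotient.mk_surjective).1 hf
  rw [sbR_mk, sbR_eq_sub]
  exact Ideal.mem_map_of_mem _ (GLIdeal.st φ a ha)

/-- preimage of `N` in `MS S` under `Th g ∘ red` -/
private noncomputable def L4_pre (S : Finset ℕ) (g : U (MP50e386.A ⧸ J))
    (N : Submodule (MP50e386.A ⧸ J) (U (MP50e386.A ⧸ J))) :
    Submodule MP50e386.A (U MP50e386.A) where
  carrier := {F | F ∈ MS MP50e386.A S ∧ Th g id (red J F) ∈ N}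
  zero_mem' := by
    refine ⟨Submodule.zero_mem _, ?_⟩
    rw [map_zero, map_zero]
    exact N.zero_mem
  add_mem' := by
    rintro a b ⟨ha, ha'⟩ ⟨hb, hb'⟩
    refine ⟨Submodule.add_mem _ ha hb, ?_⟩
    rw [map_add, map_add]
    exact N.add_mem ha' hb'
  smul_mem' := by
    rintro c a ⟨ha, ha'⟩
    refine ⟨Submodule.smul_mem _ c ha, ?_⟩
    rw [red_smul, map_smul]
    exact N.smul_mem _ ha'

private theorem L4_step (J' : Ideal MP50e386.A) [GLIdeal J'] (hJ' : NI J')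
    (Y X : Submodule (MP50e386.A ⧸ J) (U (MP50e386.A ⧸ J))) (g : U (MP50e386.A ⧸ J)) (n : ℕ)
    (hg : ML n g) (hgY : spn g ≤ Y) (hX : J'.map (Ideal.Quotient.mk J) • Y ≤ X) :
    NoethInt GS X (X ⊔ spn g) := by
  have hinj : Set.InjOn (id : ℕ → ℕ) (Set.Iio n) := Set.injOn_id _
  have hTh := map_Th g hg id hinj
  refine NoethInt.of_map (P' := GS) (X' := J' • MS MP50e386.A (labS n id))
    (Y' := MS MP50e386.A (labS n id))
    ((Th g id).toAddMonoidHom.comp (red J).toAddMonoidHom) ?_ ?_ (hJ' _)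
  · intro N hN hXN hNY
    refine ⟨L4_pre J (labS n id) g N, fun f => Iff.rfl, ?_, ?_⟩
    · intro g' hg' c hc F hF
      refine ⟨GLS_MS _ _ F hF.1, ?_⟩
      rw [red_sbC, Th_sbC g hg id hinj _ _ (red_MS J _ F hF.1)]
      exact hN g' hg' c hc _ hF.2
    · rw [Submodule.smul_le]
      intro a ha F hF
      refine ⟨Submodule.smul_mem _ a hF, ?_⟩
      rw [red_smul, map_smul]
      apply hXN
      apply hX
      apply Submodule.smul_mem_smul (Ideal.mem_map_of_mem _ ha)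
      apply hgY
      rw [← hTh]
      exact Submodule.mem_map_of_mem (red_MS J _ F hF)
  · intro y hy
    obtain ⟨x, hx, s, hs, rfl⟩ := Submodule.mem_sup.1 hy
    rw [← hTh] at hs
    obtain ⟨f, hf, rfl⟩ := Submodule.mem_map.1 hs
    obtain ⟨F, hF, rfl⟩ := exists_lift_MS J _ f hf
    exact ⟨F, hF, x, hx, add_comm _ _⟩

private theorem L4_GLS_sup {R : Type} [CommRing R] [Algebra ℂ R] [GLRing R] {m : ℕ}
    (g : Fin m → U R) (X : Submodule R (U R)) (hX : GLS X) (s : Finset (Fin m)) :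
    GLS (X ⊔ ⨆ i ∈ s, spn (g i)) := by
  classical
  induction s using Finset.induction_on with
  | empty => simpa using hX
  | insert a s ha ih =>
    have h : X ⊔ ⨆ i ∈ insert a s, spn (g i) = (X ⊔ ⨆ i ∈ s, spn (g i)) ⊔ spn (g a) := by
      rw [Finset.iSup_insert, sup_assoc, sup_comm (spn (g a))]
    rw [h]
    exact GLS.sup ih (GLS_spn _)

/-- one factor -/
theorem noeth_one (h6 : ∀ L D, NoethInt (R := MP50e386.A ⧸ J) GLS ⊥ (BD (MP50e386.A ⧸ J) L D))
    (J' : Ideal MP50e386.A) [GLIdeal J'] (hJ' : NI J') (L D : ℕ)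
    (Y : Submodule (MP50e386.A ⧸ J) (U (MP50e386.A ⧸ J))) (hY : GLS Y)
    (hYD : Y ≤ BD (MP50e386.A ⧸ J) L D) :
    NoethInt GS (J'.map (Ideal.Quotient.mk J) • Y) Y := by
  classical
  obtain ⟨m, d, g, hml, hYg, -⟩ := cov L D (h6 L D) Y hY hYD
  have hgY : ∀ i, spn (g i) ≤ Y := fun i => by rw [hYg]; exact le_iSup (fun i => spn (g i)) i
  have hX : GLS (J'.map (Ideal.Quotient.mk J) • Y) := GLS.smul (L4_GLSI_map J J') hY
  have key : ∀ s : Finset (Fin m), NoethInt GS (J'.map (Ideal.Quotient.mk J) • Y)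
      (J'.map (Ideal.Quotient.mk J) • Y ⊔ ⨆ i ∈ s, spn (g i)) := by
    intro s
    induction s using Finset.induction_on with
    | empty =>
      simpa using NoethInt.refl GS (J'.map (Ideal.Quotient.mk J) • Y)
    | insert a s ha ih =>
      have h : J'.map (Ideal.Quotient.mk J) • Y ⊔ ⨆ i ∈ insert a s, spn (g i) =
          (J'.map (Ideal.Quotient.mk J) • Y ⊔ ⨆ i ∈ s, spn (g i)) ⊔ spn (g a) := by
        rw [Finset.iSup_insert, sup_assoc, sup_comm (spn (g a))]
      rw [h]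
      exact NoethInt.trans (fun _ _ h h' => GS.sup h h') (fun _ _ h h' => GS.inf h h')
        (L4_GLS_sup g _ hX s).gs le_sup_left le_sup_left ih
        (L4_step J J' hJ' Y _ (g a) (d a) (hml a) (hgY a) le_sup_left)
  refine NoethInt.mono le_rfl ?_ (key Finset.univ)
  rw [hYg]
  refine le_trans ?_ le_sup_right
  simp

theorem noeth_two (h6 : ∀ L D, NoethInt (R := MP50e386.A ⧸ J) GLS ⊥ (BD (MP50e386.A ⧸ J) L D))
    (J' J'' : Ideal MP50e386.A) [GLIdeal J'] [GLIdeal J''] (hJ' : NI J') (hJ'' : NI J'') (L D : ℕ)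
    (Y : Submodule (MP50e386.A ⧸ J) (U (MP50e386.A ⧸ J))) (hY : GLS Y)
    (hYD : Y ≤ BD (MP50e386.A ⧸ J) L D) :
    NoethInt GS ((J' * J'').map (Ideal.Quotient.mk J) • Y) Y := by
  rw [Ideal.map_mul, Submodule.mul_smul]
  have hX : GLS (J''.map (Ideal.Quotient.mk J) • Y) := GLS.smul (L4_GLSI_map J J'') hY
  exact NoethInt.trans (fun _ _ h h' => GS.sup h h') (fun _ _ h h' => GS.inf h h')
    hX.gs Submodule.smul_le_right Submodule.smul_le_right
    (noeth_one J h6 J' hJ' L D _ hX (le_trans Submodule.smul_le_right hYD))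
    (noeth_one J h6 J'' hJ'' L D Y hY hYD)

end MP50e386N
end

section
/-! Iterated kernels of traces (paper 6.1 and the last parts of 6.3, 6.4). -/

namespace MP50e386N

open MvPolynomial Pool.Agent.Lib.MP50e386

variable {R : Type} [CommRing R] [Algebra ℂ R] [GLRing R]

private theorem kerL_nil (N : Submodule R (U R)) : kerL [] N = N := rfl

private theorem kerL_cons (p : ℕ × ℕ) (l : List (ℕ × ℕ)) (N : Submodule R (U R)) :
    kerL (p :: l) N = kerL l N ⊓ LinearMap.ker (tr p.1 p.2) := rfl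

theorem kerL_le (l : List (ℕ × ℕ)) (N : Submodule R (U R)) : kerL l N ≤ N := by
  induction l with
  | nil => exact le_refl _
  | cons p l ih => rw [kerL_cons]; exact le_trans inf_le_left ih

theorem kerL_mono (l : List (ℕ × ℕ)) {N N' : Submodule R (U R)} (h : N ≤ N') :
    kerL l N ≤ kerL l N' := by
  induction l with
  | nil => exact h
  | cons p l ih => rw [kerL_cons, kerL_cons]; exact inf_le_inf_right _ ih

theorem kerL_eq_inf (l : List (ℕ × ℕ)) {N M : Submodule R (U R)} (h : N ≤ M) :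
    kerL l N = N ⊓ kerL l M := by
  induction l with
  | nil => rw [kerL_nil, kerL_nil]; exact (inf_eq_left.2 h).symm
  | cons p l ih => rw [kerL_cons, kerL_cons, ih, inf_assoc]

theorem GS_kerL (l : List (ℕ × ℕ)) {N : Submodule R (U R)} (h : GS N) : GS (kerL l N) := by
  induction l with
  | nil => exact h
  | cons p l ih => rw [kerL_cons]; exact GS_ker_tr ih _ _

private theorem mem_kerL (l : List (ℕ × ℕ)) (M : Submodule R (U R)) (f : U R) :
    f ∈ kerL l M ↔ f ∈ M ∧ ∀ p ∈ l, tr p.1 p.2 f = 0 := by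
  induction l with
  | nil => rw [kerL_nil]; simp
  | cons p l ih =>
    rw [kerL_cons, Submodule.mem_inf, ih, LinearMap.mem_ker, List.forall_mem_cons]
    tauto

theorem mem_M2 (S : Finset ℕ) (M : Submodule R (U R)) (f : U R) :
    f ∈ M2 S M ↔ f ∈ M ∧ ∀ a ∈ S, ∀ b ∈ S, a ≠ b → tr a b f = 0 := by
  unfold M2
  rw [mem_kerL]
  refine and_congr_right fun _ => ⟨fun h a ha b hb hab => ?_, fun h p hp => ?_⟩
  · exact h (a, b) (Finset.mem_toList.2 (Finset.mem_offDiag.2 ⟨ha, hb, hab⟩))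
  · obtain ⟨ha, hb, hab⟩ := Finset.mem_offDiag.1 (Finset.mem_toList.1 hp)
    exact h p.1 ha p.2 hb hab

private theorem card_lt {S : Finset ℕ} {a b : ℕ} (ha : a ∈ S) :
    ((S.erase a).erase b).card < S.card :=
  lt_of_le_of_lt (Finset.card_le_card (Finset.erase_subset _ _)) (Finset.card_erase_lt_of_mem ha)

private theorem map_tr_le {S : Finset ℕ} {a b : ℕ} (ha : a ∈ S) (hb : b ∈ S) (hab : a ≠ b)
    {N : Submodule R (U R)} (hNS : N ≤ MS R S) :
    N.map (tr a b) ≤ MS R ((S.erase a).erase b) := by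
  rintro f ⟨g, hg, rfl⟩
  exact tr_MS ha hb hab (hNS hg)

/-- 6.1 -/
theorem kerL_down {h : Ideal R} {S : Finset ℕ}
    (IH : ∀ S' : Finset ℕ, S'.card < S.card → ClaimS (R := R) h S') (l : List (ℕ × ℕ))
    (hl : ∀ p ∈ l, p.1 ∈ S ∧ p.2 ∈ S ∧ p.1 ≠ p.2) (N : Submodule R (U R)) (hN : GS N)
    (hNS : N ≤ MS R S) (hgood : ∀ n, Good h n N) :
    (∀ n, Good h n (kerL l N)) ∧ AR h (kerL l N) N := by
  induction l with
  | nil =>
    refine ⟨hgood, ?_⟩
    apply ar_of_pow_smul_le h (a := 0) (le_refl _)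
    rw [kerL_nil, pow_zero, Ideal.one_eq_top, Submodule.top_smul]
  | cons p l ih =>
    obtain ⟨ih1, ih2⟩ := ih (fun q hq => hl q (List.mem_cons_of_mem _ hq))
    obtain ⟨ha, hb, hab⟩ := hl p List.mem_cons_self
    have h1 : ∀ n, Good h n ((kerL l N).map (tr p.1 p.2)) :=
      (IH _ (card_lt ha)).1 _ (GS_map_tr (GS_kerL l hN) _ _)
        (map_tr_le ha hb hab (le_trans (kerL_le l N) hNS))
    obtain ⟨h2, h3⟩ := good_ker_of_map h (tr p.1 p.2) ih1 h1
    refine ⟨h2, ?_⟩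
    exact ar_trans h (by rw [kerL_cons]; exact inf_le_left) (kerL_le l N) h3 ih2

theorem kerL_up {h : Ideal R} {S : Finset ℕ}
    (IH : ∀ S' : Finset ℕ, S'.card < S.card → ClaimS (R := R) h S') (l : List (ℕ × ℕ))
    (hl : ∀ p ∈ l, p.1 ∈ S ∧ p.2 ∈ S ∧ p.1 ≠ p.2) (N : Submodule R (U R)) (hN : GS N)
    (hNS : N ≤ MS R S) (hgood : ∀ n, Good h n (kerL l N)) : ∀ n, Good h n N := by
  induction l with
  | nil => exact hgood
  | cons p l ih =>
    obtain ⟨ha, hb, hab⟩ := hl p List.mem_cons_self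
    have h1 : ∀ n, Good h n ((kerL l N).map (tr p.1 p.2)) :=
      (IH _ (card_lt ha)).1 _ (GS_map_tr (GS_kerL l hN) _ _)
        (map_tr_le ha hb hab (le_trans (kerL_le l N) hNS))
    exact ih (fun q hq => hl q (List.mem_cons_of_mem _ hq))
      (good_of_ker_map h (tr p.1 p.2) hgood h1)

private theorem eq_of_ker_map {X Y : Submodule R (U R)} (hXY : X ≤ Y) (t : U R →ₗ[R] U R)
    (hk : Y ⊓ LinearMap.ker t ≤ X ⊓ LinearMap.ker t) (hm : Y.map t ≤ X.map t) : Y = X := by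
  refine le_antisymm (fun y hy => ?_) hXY
  obtain ⟨x, hx, hxy⟩ := hm (Submodule.mem_map_of_mem hy)
  have h1 : y - x ∈ Y ⊓ LinearMap.ker t := by
    refine ⟨Submodule.sub_mem _ hy (hXY hx), ?_⟩
    change t (y - x) = 0
    rw [map_sub, hxy, sub_self]
  have h2 := Submodule.add_mem _ (hk h1).1 hx
  rwa [sub_add_cancel] at h2

theorem kerL_chain {h : Ideal R} {S : Finset ℕ}
    (IH : ∀ S' : Finset ℕ, S'.card < S.card → ClaimS (R := R) h S') (l : List (ℕ × ℕ))
    (hl : ∀ p ∈ l, p.1 ∈ S ∧ p.2 ∈ S ∧ p.1 ≠ p.2) (N : ℕ → Submodule R (U R))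
    (hmono : Monotone N) (hN : ∀ i, GS (N i)) (hNS : ∀ i, N i ≤ MS R S)
    (hk : ∃ n0, ∀ n ≥ n0, kerL l (N n) = kerL l (N n0)) : ∃ n0, ∀ n ≥ n0, N n = N n0 := by
  induction l with
  | nil => exact hk
  | cons p l ih =>
    obtain ⟨ha, hb, hab⟩ := hl p List.mem_cons_self
    apply ih (fun q hq => hl q (List.mem_cons_of_mem _ hq))
    obtain ⟨n1, hn1⟩ := hk
    obtain ⟨n2, hn2⟩ := (IH _ (card_lt (b := p.2) ha)).2
      (fun i => (kerL l (N i)).map (tr p.1 p.2))
      (fun i j hij => Submodule.map_mono (kerL_mono l (hmono hij)))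
      (fun i => ⟨GS_map_tr (GS_kerL l (hN i)) _ _, bot_le,
        map_tr_le ha hb hab (le_trans (kerL_le l _) (hNS i))⟩)
    refine ⟨max n1 n2, fun n hn => ?_⟩
    apply eq_of_ker_map (kerL_mono l (hmono hn)) (tr p.1 p.2)
    · have h1 := hn1 n (le_trans (le_max_left _ _) hn)
      have h2 := hn1 (max n1 n2) (le_max_left _ _)
      rw [kerL_cons, kerL_cons] at h1 h2
      rw [h1, h2]
    · have h1 := hn2 n (le_trans (le_max_right _ _) hn)
      have h2 := hn2 (max n1 n2) (le_max_right _ _)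
      exact le_of_eq (h1.trans h2.symm)

end MP50e386N
end
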