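import Mathlib
import Pool.Agent.Lib.MP_50e386_al.B.Sd
import Pool.Agent.Lib.MP_50e386_al.B.Sb
import Pool.Agent.Lib.MP_50e386_al.B.Sc
import Pool.Agent.Lib.MP_50e386_al.B.Kd

section
/-! Theorem (TL), paper 5.7, and the corollary. -/

namespace MP50e386N

open MvPolynomial Pool.Agent.Lib.MP50e386

variable {R : Type} [CommRing R] [Algebra ℂ R] [GLRing R]

theorem TL {r s : ℕ} {h : Ideal R} (P : Pkg R r s h) (N : Ideal R) (hN : GSI N) (hne : N ≠ ⊥) :
    ∃ q, h ^ q ≤ N := by
  obtain ⟨k, q, hkq⟩ := TLa P N hN hne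
  set n : ℕ := max (2 * r) (r + k) with hn
  have hn1 : 2 * r ≤ n := le_max_left _ _
  have hn2 : r + k ≤ n := le_max_right _ _
  obtain ⟨q', hq'⟩ := TLc (R := R) P.p1 P.p2 N k q n hn1 hn2 hkq
  have hall := TLd (R := R) (r := r) (s := s) (k := 2 * n - r) n (by omega) N hN q' hq'
  set I : Ideal R := Ideal.span {a : R | ∃ (v : Fin r → V) (c : Fin (2 * n - r) → V),
    a = hh s q' v c} with hI
  have hIN : I ≤ N := by
    rw [hI, Ideal.span_le]
    rintro a ⟨v, c, rfl⟩
    exact hall (Sum.elim v c)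
  have hIGL : GLSI I := by
    intro φ f hf
    have h1 : I ≤ I.comap (sbR φ : R →ₐ[ℂ] R).toRingHom := by
      rw [hI, Ideal.span_le]
      rintro a ⟨v, c, rfl⟩
      show sbR φ (hh s q' v c : R) ∈ I
      rw [sbR_hh]
      exact Ideal.subset_span ⟨_, _, rfl⟩
    exact h1 hf
  have hIne : I ≠ ⊥ := by
    intro hbot
    have hinj : Function.Injective (fun p : Fin 1 × (Fin r ⊕ Fin (2 * n - r)) =>
        Sum.elim ((fun (_ : Fin 1) (i : Fin r) => (i : ℕ)) p.1)
          ((fun (_ : Fin 1) (j : Fin (2 * n - r)) => r + (j : ℕ)) p.1) p.2) := by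
      rintro ⟨d, a⟩ ⟨d', a'⟩ hp
      have hd : d = d' := Subsingleton.elim _ _
      subst hd
      rcases a with i | j <;> rcases a' with i' | j' <;> simp only [Sum.elim_inl, Sum.elim_inr] at hp
      · rw [Fin.ext hp]
      · have := i.2; omega
      · have := i'.2; omega
      · have : (j : ℕ) = j' := by omega
        rw [Fin.ext this]
    have := P.p3 1 (2 * n - r) q' (fun _ i => (i : ℕ)) (fun _ j => r + (j : ℕ)) hinj
    apply this
    rw [Fin.prod_univ_one]
    have hmem : (hh s q' (fun i : Fin r => ee (i : ℕ)) (fun j : Fin (2 * n - r) => ee (r + (j : ℕ))) : R) ∈ I :=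
      Ideal.subset_span ⟨_, _, rfl⟩
    rw [hbot] at hmem
    exact hmem
  obtain ⟨m, hm⟩ := P.p5 I hIGL hIne
  exact ⟨m, hm.trans hIN⟩

/-- `M₂` is `GS` -/
theorem GS_M2 (S : Finset ℕ) (M : Submodule R (U R)) (hM : GS M) (f : U R) (hf : f ∈ M)
    (htr : ∀ a ∈ S, ∀ b ∈ S, a ≠ b → tr a b f = 0) (g : Cinf ≃ₗ[ℂ] Cinf) (hg : IsSp g) (c : ℂ)
    (hc : c ≠ 0) (a b : ℕ) (ha : a ∈ S) (hb : b ∈ S) (hab : a ≠ b) :
    tr a b (sbC (fun i => c • g (ee i)) f) = 0 := by
  rw [tr_sp g hg c a b f, htr a ha b hb hab, map_zero, smul_zero]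

/-- the corollary -/
theorem torsion {r s : ℕ} {h : Ideal R} (P : Pkg R r s h) (S : Finset ℕ)
    (M : Submodule R (U R)) (hM : GLS M) (hMS : M ≤ MS R S) (f : U R) (hf : f ∈ M)
    (htr : ∀ a ∈ S, ∀ b ∈ S, a ≠ b → tr a b f = 0) :
    ∃ q : ℕ, ∀ a ∈ h ^ q, a • f ∈ nn M := by
  obtain ⟨n, g, hfg, hg⟩ := exists_HW_decomp f
  have hgM : ∀ d < n, g d ∈ M := GS_HW_comp hM.gs n g hg (hfg ▸ hf)
  have hgtr : ∀ d < n, ∀ a ∈ S, ∀ b ∈ S, a ≠ b → tr a b (g d) = 0 := by
    intro d hd a ha b hb hab
    have h1 : GS (M ⊓ LinearMap.ker (tr a b)) := GS_ker_tr hM.gs a b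
    have h2 : f ∈ M ⊓ LinearMap.ker (tr a b) := ⟨hf, htr a ha b hb hab⟩
    exact (GS_HW_comp h1 n g hg (hfg ▸ h2) d hd).2
  have key : ∀ d : ℕ, ∃ q : ℕ, d < n → ∀ a ∈ h ^ q, a • g d ∈ nn M := by
    intro d
    by_cases hd : d < n
    · obtain ⟨I, hI, hIne, hIf⟩ := torsion56 (R := R) r s P.p1 P.p3 S M hM hMS d (g d) (hgM d hd)
        (hg d) (hgtr d hd)
      obtain ⟨q, hq⟩ := TL P I hI hIne
      exact ⟨q, fun _ a ha => hIf a (hq ha)⟩
    · exact ⟨0, fun h => absurd h hd⟩
  choose q hq using key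
  refine ⟨(Finset.range n).sup q, fun a ha => ?_⟩
  rw [hfg, Finset.smul_sum]
  refine Submodule.sum_mem _ fun d hd => hq d (Finset.mem_range.1 hd) a ?_
  exact Ideal.pow_le_pow_right (Finset.le_sup (f := q) hd) ha

end MP50e386N
end

section
/-! Paper 6.2. -/

namespace MP50e386N

open MvPolynomial Pool.Agent.Lib.MP50e386

variable {R : Type} [CommRing R] [Algebra ℂ R] [GLRing R]

variable (R) in
/-- the span of the elements of weight at least `j` -/
private noncomputable def FW (j : ℕ) : Submodule ℂ (U R) :=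
  Submodule.span ℂ {f | ∃ d, j ≤ d ∧ HW d f}

private theorem HW_zero' (d : ℕ) : HW d (0 : U R) := fun c => by rw [map_zero, smul_zero]

private theorem HW_smulC' {d : ℕ} {f : U R} (hf : HW d f) (a : ℂ) : HW d (a • f) := fun c => by
  rw [sbC_smulC, hf c, smul_comm]

private theorem FW_zero : FW R 0 = ⊤ := by
  rw [eq_top_iff]
  intro f _
  obtain ⟨n, g, rfl, hg⟩ := exists_HW_decomp f
  exact Submodule.sum_mem _ fun d _ => Submodule.subset_span ⟨d, Nat.zero_le _, hg d⟩

private theorem FW_mul {i j : ℕ} {f g : U R} (hf : f ∈ FW R i) (hg : g ∈ FW R j) :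
    f * g ∈ FW R (i + j) := by
  have h1 : f * g ∈ FW R i * FW R j := Submodule.mul_mem_mul hf hg
  unfold FW at h1
  rw [Submodule.span_mul_span] at h1
  refine Submodule.span_mono ?_ h1
  rintro _ ⟨a, ⟨d, hd, ha⟩, b, ⟨e, he, hb⟩, rfl⟩
  exact ⟨d + e, Nat.add_le_add hd he, HW_mul ha hb⟩

/-- the value at `0` is a constant -/
private theorem sbR_zero (a : R) : ∃ z : ℂ, sbR (fun i => (0 : ℂ) • ee i) a = algebraMap ℂ R z := by
  have ha : a ∈ Algebra.adjoin ℂ (Set.range fun p : ℕ × ℕ => (GLRing.x p.1 p.2 : R)) := by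
    rw [GLRing.gen]; trivial
  induction ha using Algebra.adjoin_induction with
  | mem x hx =>
    obtain ⟨p, rfl⟩ := hx
    refine ⟨0, ?_⟩
    have h1 : (GLRing.x p.1 p.2 : R) = xv (ee p.1) (ee p.2) := (xv_ee _ _).symm
    simp only []
    rw [h1, sb_x_cst, linC_ee, linC_ee, zero_smul, zero_smul, map_zero]
    unfold xv
    rw [map_zero, map_zero]
  | algebraMap c => exact ⟨c, by rw [AlgHom.commutes]⟩
  | add x y _ _ hx hy =>
    obtain ⟨z, hz⟩ := hx
    obtain ⟨w, hw⟩ := hy
    exact ⟨z + w, by rw [map_add, map_add, hz, hw]⟩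
  | mul x y _ _ hx hy =>
    obtain ⟨z, hz⟩ := hx
    obtain ⟨w, hw⟩ := hy
    exact ⟨z * w, by rw [map_mul, map_mul, hz, hw]⟩

private theorem FW_C {h : Ideal R} (hh : GLSI h) (hne : h ≠ ⊤) {a : R} (ha : a ∈ h) :
    (C a : U R) ∈ FW R 1 := by
  have h0 : sbR (fun i => (0 : ℂ) • ee i) a = 0 := by
    obtain ⟨z, hz⟩ := sbR_zero a
    have h1 : algebraMap ℂ R z ∈ h := by rw [← hz]; exact hh _ a ha
    by_cases hz0 : z = 0
    · rw [hz, hz0, map_zero]
    · exfalso
      apply hne
      rw [Ideal.eq_top_iff_one]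
      have h2 : (1 : R) = algebraMap ℂ R z⁻¹ * algebraMap ℂ R z := by
        rw [← map_mul, inv_mul_cancel₀ hz0, map_one]
      rw [h2]
      exact h.mul_mem_left _ h1
  obtain ⟨n, g, hf, hg⟩ := exists_HW_decomp (C a : U R)
  have h1 : sbC (fun i => (0 : ℂ) • ee i) (C a : U R) = 0 := by
    rw [sbC_C, h0, C_0]
  have h2 : ∑ d ∈ Finset.range n, (0 : ℂ) ^ d • g d = 0 := by
    rw [← h1, hf, map_sum]
    exact Finset.sum_congr rfl fun d _ => (hg d 0).symm
  rw [hf]
  refine Submodule.sum_mem _ fun d hd => ?_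
  rcases Nat.eq_zero_or_pos d with rfl | hd0
  · have h3 : g 0 = 0 := by
      rw [Finset.sum_eq_single 0 (fun e _ he => by rw [zero_pow he, zero_smul])
        (fun h => absurd hd h), pow_zero, one_smul] at h2
      exact h2
    rw [h3]
    exact Submodule.zero_mem _
  · exact Submodule.subset_span ⟨d, hd0, hg d⟩

private theorem FW_pow {h : Ideal R} (hh : GLSI h) (hne : h ≠ ⊤) (N : Submodule R (U R)) (j : ℕ) :
    ∀ f ∈ h ^ j • N, f ∈ FW R j := by
  induction j with
  | zero => intro f _; rw [FW_zero]; trivial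
  | succ j ih =>
    intro f hf
    rw [pow_succ', Submodule.mul_smul] at hf
    refine Submodule.smul_induction_on hf ?_ ?_
    · intro a ha g hg
      rw [smul_eq_C_mul, add_comm j 1]
      exact FW_mul (FW_C hh hne ha) (ih g hg)
    · intro x y hx hy
      exact Submodule.add_mem _ hx hy

private theorem FW_decomp {j : ℕ} {f : U R} (hf : f ∈ FW R j) : ∃ g : ℕ →₀ U R,
    (∀ e, HW e (g e)) ∧ (∀ e < j, g e = 0) ∧ f = g.sum fun _ x => x := by
  unfold FW at hf
  induction hf using Submodule.span_induction with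
  | mem x hx =>
    obtain ⟨d, hd, hx⟩ := hx
    refine ⟨Finsupp.single d x, fun e => ?_, fun e he => ?_, ?_⟩
    · by_cases h : d = e
      · rw [h, Finsupp.single_eq_same]; rw [← h]; exact hx
      · rw [Finsupp.single_eq_of_ne (Ne.symm h)]; exact HW_zero' e
    · rw [Finsupp.single_eq_of_ne (by omega)]
    · rw [Finsupp.sum_single_index rfl]
  | zero => exact ⟨0, fun e => HW_zero' e, fun _ _ => rfl, by rw [Finsupp.sum_zero_index]⟩
  | add x y _ _ hx hy =>
    obtain ⟨g, h1, h2, h3⟩ := hx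
    obtain ⟨g', h1', h2', h3'⟩ := hy
    refine ⟨g + g', fun e => HW_add (h1 e) (h1' e), fun e he => ?_, ?_⟩
    · rw [Finsupp.add_apply, h2 e he, h2' e he, add_zero]
    · rw [Finsupp.sum_add_index' (fun _ => rfl) (fun _ _ _ => rfl), ← h3, ← h3']
  | smul c x _ hx =>
    obtain ⟨g, h1, h2, h3⟩ := hx
    refine ⟨c • g, fun e => HW_smulC' (h1 e) c, fun e he => ?_, ?_⟩
    · rw [Finsupp.smul_apply, h2 e he, smul_zero]
    · rw [Finsupp.sum_smul_index' (fun _ => rfl), h3, Finsupp.smul_sum]

private theorem FW_HW {j d : ℕ} (hdj : d < j) {f : U R} (hf : f ∈ FW R j) (hd : HW d f) :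
    f = 0 := by
  classical
  obtain ⟨g, h1, h2, h3⟩ := FW_decomp hf
  obtain ⟨n, hn, hdn⟩ : ∃ n : ℕ, g.support ⊆ Finset.range n ∧ d < n := by
    refine ⟨g.support.sup id + d + 1, fun e he => ?_, by omega⟩
    have := Finset.le_sup (f := id) he
    simp only [id] at this
    exact Finset.mem_range.2 (by omega)
  have h4 : ∑ e ∈ Finset.range n, (g e - if e = d then f else 0) ∈ (⊥ : Submodule ℂ (U R)) := by
    rw [Finset.sum_sub_distrib, Finset.sum_ite_eq', if_pos (Finset.mem_range.2 hdn),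
      Submodule.mem_bot, sub_eq_zero]
    rw [h3]
    conv_rhs => rw [Finsupp.sum]
    exact (Finset.sum_subset hn fun e _ he => Finsupp.notMem_support_iff.1 he).symm
  have h5 := HW_comp_mem (⊥ : Submodule ℂ (U R)) (by
    intro t _ f hf
    rw [Submodule.mem_bot] at hf ⊢
    rw [hf, map_zero]) n (fun e => g e - if e = d then f else 0) (by
    intro e
    have h6 : HW e (if e = d then f else 0) := by
      split_ifs with h
      · rw [h]; exact hd
      · exact HW_zero' e
    have h7 := HW_add (h1 e) (HW_smulC' h6 (-1))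
    rw [neg_one_smul, ← sub_eq_add_neg] at h7
    exact h7) h4 d hdn
  rw [Submodule.mem_bot, if_pos rfl, h2 d hdj, zero_sub, neg_eq_zero] at h5
  exact h5

/-- a `GL`-stable ideal is everything or has no elements with components of weight `0` -/
theorem eq_top_or_weight (h : Ideal R) (hh : GLSI h) : h = ⊤ ∨
    ∀ (j d : ℕ), d < j → ∀ (N : Submodule R (U R)), GS N → ∀ f ∈ h ^ j • N, HW d f → f = 0 := by
  by_cases hne : h = ⊤
  · exact Or.inl hne
  · exact Or.inr fun j d hdj N _ f hf hd => FW_HW hdj (FW_pow hh hne N j f hf) hd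

/-- every interval `[h^K Y, Y]` is noetherian for `GS` submodules -/
theorem noeth_pow {r s : ℕ} {h : Ideal R} (P : Pkg R r s h) (L D : ℕ) (Y : Submodule R (U R))
    (hY : GLS Y) (hYD : Y ≤ BD R L D) (K : ℕ) : NoethInt GS (h ^ K • Y) Y := by
  induction K with
  | zero =>
    rw [pow_zero, Ideal.one_eq_top, Submodule.top_smul]
    exact NoethInt.refl _ _
  | succ K ih =>
    rw [pow_succ', Submodule.mul_smul]
    have h1 : GLS (h ^ K • Y) := GLS.smul (GLSI.pow P.gl K) hY
    exact NoethInt.trans (fun _ _ => GS.sup) (fun _ _ => GS.inf) h1.gs Submodule.smul_le_right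
      Submodule.smul_le_right
      (P.p8 L D (h ^ K • Y) h1 (Submodule.smul_le_right.trans hYD)) ih

/-- the elements `f` with `h ^ k • f ⊆ N` -/
private noncomputable def XX_m2m (h : Ideal R) (k : ℕ) (N : Submodule R (U R)) :
    Submodule R (U R) where
  carrier := {f | ∀ a ∈ h ^ k, a • f ∈ N}
  add_mem' := by
    intro x y hx hy a ha
    rw [smul_add]
    exact N.add_mem (hx a ha) (hy a ha)
  zero_mem' := by
    intro a _
    rw [smul_zero]
    exact N.zero_mem
  smul_mem' := by
    intro c x hx a ha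
    rw [smul_comm]
    exact N.smul_mem _ (hx a ha)

private theorem linC_sp (g : Cinf ≃ₗ[ℂ] Cinf) (c : ℂ) (v : V) :
    linC (fun i => c • g (ee i)) v = c • g v := by
  induction v using Finsupp.induction_linear with
  | zero => simp
  | add f g' hf hg => rw [map_add, hf, hg, map_add, smul_add]
  | single i z =>
    have h1 : (Finsupp.single i z : V) = z • ee i := by
      rw [Finsupp.smul_single, smul_eq_mul, mul_one]
    rw [h1, map_smul, linC_ee, map_smul, smul_comm]

private theorem GS_XX {h : Ideal R} (hh : GLSI h) (k : ℕ) {N : Submodule R (U R)} (hN : GS N) :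
    GS (XX_m2m h k N) := by
  intro g hg c hc f hf a ha
  have h1 : sbR (fun i => c • g (ee i)) (sbR (fun i => c⁻¹ • g.symm (ee i)) a) = a := by
    rw [sbR_sbR]
    have h2 : (fun i => linC (fun i => c • g (ee i)) (c⁻¹ • g.symm (ee i))) = (ee : ℕ → V) := by
      funext i
      rw [linC_sp, map_smul, LinearEquiv.apply_symm_apply, smul_smul, mul_inv_cancel₀ hc,
        one_smul]
    rw [h2, sbR_id]
  rw [← h1, ← sbC_smul]
  exact hN g hg c hc _ (hf _ (GLSI.pow hh k _ a ha))

/-- 6.2 -/
theorem bound62 {r s : ℕ} {h : Ideal R} (P : Pkg R r s h) (S : Finset ℕ)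
    (M : Submodule R (U R)) (hM : GLS M) (hMS : M ≤ MS R S) (har : AR h (M2 S M) M) :
    ∃ a : ℕ, h ^ a • M2 S M ≤ nn M := by
  have hM2 : M2 S M ≤ M := fun f hf => ((mem_M2 S M f).1 hf).1
  have htor : ∀ f ∈ M2 S M, ∃ q : ℕ, ∀ a ∈ h ^ q, a • f ∈ nn M := fun f hf =>
    torsion P S M hM hMS f ((mem_M2 S M f).1 hf).1 ((mem_M2 S M f).1 hf).2
  rcases eq_top_or_weight h P.gl with htop | hw
  · refine ⟨0, ?_⟩
    rw [pow_zero, Ideal.one_eq_top, Submodule.top_smul]
    intro f hf
    obtain ⟨q, hq⟩ := htor f hf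
    have h1 := hq 1 (by rw [htop, Ideal.top_pow]; trivial)
    rwa [one_smul] at h1
  · have hGM2 : GS (M2 S M) := GS_kerL _ hM.gs
    set X : ℕ → Submodule R (U R) := fun k => M2 S M ⊓ XX_m2m h k (nn M) with hX
    have hXG : ∀ k, GS (X k) := fun k => GS.inf hGM2 (GS_XX P.gl k (nn_GS hM))
    have hXm : Monotone X := by
      intro k l hkl f hf
      exact ⟨hf.1, fun a ha => hf.2 a (Ideal.pow_le_pow_right hkl ha)⟩
    obtain ⟨K, hK⟩ := har 1
    obtain ⟨L, hL⟩ : ∃ L : ℕ, ∀ a ∈ S, a < L := by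
      refine ⟨S.sup id + 1, fun a ha => ?_⟩
      have := Finset.le_sup (f := id) ha
      simp only [id] at this
      omega
    have hMK : GLS (h ^ K • M) := GLS.smul (GLSI.pow P.gl K) hM
    obtain ⟨k0, hk0⟩ := noeth_pow P L S.card M hM (hMS.trans (MS_le_BD S L hL)) K
      (fun k => X k ⊔ h ^ K • M) (fun k l hkl => sup_le_sup_right (hXm hkl) _)
      (fun k => ⟨GS.sup (hXG k) hMK.gs, le_sup_right,
        sup_le (inf_le_left.trans hM2) Submodule.smul_le_right⟩)
    have h1 : M2 S M ≤ X k0 ⊔ h • M2 S M := by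
      intro f hf
      obtain ⟨q, hq⟩ := htor f hf
      have h2 : f ∈ X (max q k0) := hXm (le_max_left q k0) ⟨hf, hq⟩
      have h3 : f ∈ X k0 ⊔ h ^ K • M := by
        have h4 : X (max q k0) ⊔ h ^ K • M = X k0 ⊔ h ^ K • M :=
          hk0 (max q k0) (le_max_right q k0)
        rw [← h4]
        exact Submodule.mem_sup_left h2
      obtain ⟨x, hx, y, hy, rfl⟩ := Submodule.mem_sup.1 h3
      refine Submodule.add_mem_sup hx ?_
      have h5 : y ∈ M2 S M := by
        have h6 := (M2 S M).sub_mem hf hx.1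
        rwa [add_sub_cancel_left] at h6
      have h7 := hK ⟨h5, hy⟩
      rwa [pow_one] at h7
    have h2 : ∀ j, M2 S M ≤ X k0 ⊔ h ^ j • M2 S M := by
      intro j
      induction j with
      | zero => rw [pow_zero, Ideal.one_eq_top, Submodule.top_smul]; exact le_sup_right
      | succ j ih =>
        refine ih.trans (sup_le le_sup_left ?_)
        calc h ^ j • M2 S M ≤ h ^ j • (X k0 ⊔ h • M2 S M) := Submodule.smul_mono le_rfl h1
          _ = h ^ j • X k0 ⊔ h ^ j • (h • M2 S M) := Submodule.smul_sup _ _ _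
          _ ≤ X k0 ⊔ h ^ (j + 1) • M2 S M := by
            rw [pow_succ, Submodule.mul_smul]
            exact sup_le_sup_right Submodule.smul_le_right _
    have h3 : M2 S M ≤ X k0 := by
      refine GS_le_of_HW hGM2 fun d f hf hd => ?_
      obtain ⟨x, hx, y, hy, hxy⟩ := Submodule.mem_sup.1 (h2 (d + 1) hf)
      obtain ⟨n, g, hg1, hg2⟩ := exists_HW_decomp x
      have hg3 := GS_HW_comp (hXG k0) n g hg2 (hg1 ▸ hx)
      set g' : ℕ → U R := fun e => if e < n then g e else 0 with hg'
      have hg4 : ∀ e, g' e ∈ X k0 := by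
        intro e
        simp only [hg']
        split_ifs with he
        · exact hg3 e he
        · exact Submodule.zero_mem _
      have hg5 : ∀ e, HW e (g' e) := by
        intro e
        simp only [hg']
        split_ifs with he
        · exact hg2 e
        · exact HW_zero' e
      have hg6 : x = ∑ e ∈ Finset.range (n + d + 1), g' e := by
        rw [hg1]
        have h4 : ∀ e ∈ Finset.range n, g e = g' e := by
          intro e he
          change g e = if e < n then g e else 0
          rw [if_pos (Finset.mem_range.1 he)]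
        rw [Finset.sum_congr rfl h4]
        refine Finset.sum_subset (fun e he => ?_) fun e _ he => ?_
        · rw [Finset.mem_range] at he ⊢
          omega
        · change (if e < n then g e else 0) = 0
          rw [if_neg fun h => he (Finset.mem_range.2 h)]
      have hG : ∀ e, HW e ((if e = d then f else 0) - g' e) := by
        intro e
        have h6 : HW e (if e = d then f else 0) := by
          split_ifs with h
          · rw [h]; exact hd
          · exact HW_zero' e
        have h7 := HW_add h6 (HW_smulC' (hg5 e) (-1))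
        rw [neg_one_smul, ← sub_eq_add_neg] at h7
        exact h7
      have hGN : GS (h ^ (d + 1) • M2 S M) := GS.smul (GLSI.pow P.gl _).gsi hGM2
      have h8 := GS_HW_comp hGN (n + d + 1) (fun e => (if e = d then f else 0) - g' e) hG (by
        rw [Finset.sum_sub_distrib, Finset.sum_ite_eq', if_pos (Finset.mem_range.2 (by omega)),
          ← hg6, ← hxy, add_sub_cancel_left]
        exact hy) d (by omega)
      have h9 := hw (d + 1) d (Nat.lt_succ_self d) (M2 S M) hGM2 _ h8 (hG d)
      rw [if_pos rfl, sub_eq_zero] at h9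
      rw [h9]
      exact hg4 d
    refine ⟨k0, Submodule.smul_le.2 fun a ha f hf => (h3 hf).2 a ha⟩

end MP50e386N
end

section
/-! Main step (paper 6.3, 6.4). -/

namespace MP50e386N

open MvPolynomial Pool.Agent.Lib.MP50e386

variable {R : Type} [CommRing R] [Algebra ℂ R] [GLRing R]

/-- the facts of 6.1 and 6.2 for a `GL`-stable submodule -/
private theorem m3_data {r s : ℕ} {h : Ideal R} (P : Pkg R r s h) (S : Finset ℕ)
    (IH : ∀ S' : Finset ℕ, S'.card < S.card → ClaimS (R := R) h S')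
    (hl : ∀ p ∈ S.offDiag.toList, p.1 ∈ S ∧ p.2 ∈ S ∧ p.1 ≠ p.2) (L : ℕ)
    (hL : MS R S ≤ BD R L S.card) (M : Submodule R (U R)) (hM : GLS M) (hMS : M ≤ MS R S) :
    (∀ n, Good h n (M2 S M)) ∧ AR h (M2 S M) M ∧ ∃ a : ℕ, h ^ a • M2 S M ≤ nn M := by
  have hgood := good_GLS h P.p6 P.p7 L S.card M hM (hMS.trans hL)
  obtain ⟨h1, h2⟩ := kerL_down IH S.offDiag.toList hl M hM.gs hMS hgood
  exact ⟨h1, h2, bound62 P S M hM hMS h2⟩

theorem main_step {r s : ℕ} {h : Ideal R} (P : Pkg R r s h) : ∀ S : Finset ℕ, ClaimS h S := by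
  intro S
  induction hc : S.card using Nat.strong_induction_on generalizing S with
  | _ c ihc =>
    have IH : ∀ S' : Finset ℕ, S'.card < S.card → ClaimS (R := R) h S' :=
      fun S' hS' => ihc S'.card (hc ▸ hS') S' rfl
    have hl : ∀ p ∈ S.offDiag.toList, p.1 ∈ S ∧ p.2 ∈ S ∧ p.1 ≠ p.2 := by
      intro p hp
      rw [Finset.mem_toList, Finset.mem_offDiag] at hp
      exact hp
    obtain ⟨L, hL⟩ : ∃ L, MS R S ≤ BD R L S.card :=
      ⟨S.sup id + 1, MS_le_BD S _ fun a ha => Nat.lt_succ_of_le (Finset.le_sup (f := id) ha)⟩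
    have data := m3_data P S IH hl L hL
    constructor
    · intro N hN hNS
      have hNM : N ≤ M1 S N := le_M1 hN hNS
      obtain ⟨h1, -, a, ha⟩ := data (M1 S N) (M1_GLS S N) (M1_le S N)
      have hk : kerL S.offDiag.toList N = N ⊓ M2 S (M1 S N) := kerL_eq_inf _ hNM
      refine kerL_up IH S.offDiag.toList hl N hN hNS ?_
      refine good_of_pow_smul_le h (a := a) (good_pow h P.gl P.p6 P.p7 a) (kerL_mono _ hNM) ?_ h1
      rw [hk]
      exact le_inf (ha.trans (nn_M1_le S N)) Submodule.smul_le_right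
    · intro N hmono hN
      obtain ⟨n0, hn0⟩ := P.p6 L S.card (fun i => M1 S (N i)) (fun i j hij => M1_mono (hmono hij))
        (fun i => ⟨M1_GLS S _, bot_le, (M1_le S _).trans hL⟩)
      set M : Submodule R (U R) := M1 S (N n0) with hM
      have hMG : GLS M := M1_GLS S _
      have hMS : M ≤ MS R S := M1_le S _
      have hNM : ∀ i, N i ≤ M := by
        intro i
        have h1 : N i ≤ N (max i n0) := hmono (le_max_left _ _)
        have h2 : N (max i n0) ≤ M1 S (N (max i n0)) := le_M1 (hN _).1 (hN _).2.2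
        have h3 : M1 S (N (max i n0)) = M := hn0 _ (le_max_right _ _)
        exact h1.trans (h3 ▸ h2)
      obtain ⟨-, har, a, ha⟩ := data M hMG hMS
      have haN : ∀ i ≥ n0, h ^ a • M2 S M ≤ N i := by
        intro i hi
        have h3 : M1 S (N i) = M := hn0 i hi
        rw [← h3] at ha ⊢
        exact ha.trans (nn_M1_le S (N i))
      obtain ⟨K', hK'⟩ := har a
      obtain ⟨n1, hn1⟩ := noeth_pow P L S.card M hMG (hMS.trans hL) K'
        (fun i => kerL S.offDiag.toList (N i) ⊔ h ^ K' • M)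
        (fun i j hij => sup_le_sup_right (kerL_mono _ (hmono hij)) _)
        (fun i => ⟨(GS_kerL _ (hN i).1).sup (GS.smul (P.gl.pow K').gsi hMG.gs), le_sup_right,
          sup_le ((kerL_le _ _).trans (hNM i)) Submodule.smul_le_right⟩)
      refine kerL_chain IH S.offDiag.toList hl N hmono (fun i => (hN i).1) (fun i => (hN i).2.2)
        ⟨max n0 n1, fun n hn => le_antisymm ?_ (kerL_mono _ (hmono hn))⟩
      intro f hf
      have hf1 : f ∈ kerL S.offDiag.toList (N (max n0 n1)) ⊔ h ^ K' • M := by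
        have h4 : kerL S.offDiag.toList (N (max n0 n1)) ⊔ h ^ K' • M =
            kerL S.offDiag.toList (N n) ⊔ h ^ K' • M :=
          (hn1 _ (le_max_right _ _)).trans (hn1 n ((le_max_right _ _).trans hn)).symm
        rw [h4]
        exact Submodule.mem_sup_left hf
      obtain ⟨u, hu, v, hv, huv⟩ := Submodule.mem_sup.1 hf1
      have hv2 : v ∈ M2 S M := by
        have h5 : v = f - u := by rw [← huv]; abel
        rw [h5]
        exact Submodule.sub_mem _ (kerL_mono _ (hNM n) hf) (kerL_mono _ (hNM _) hu)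
      have hv3 : v ∈ h ^ a • M2 S M := hK' ⟨hv2, hv⟩
      have hv4 : v ∈ kerL S.offDiag.toList (N (max n0 n1)) := by
        rw [kerL_eq_inf S.offDiag.toList (hNM (max n0 n1))]
        exact ⟨haN _ (le_max_left _ _) hv3, hv2⟩
      rw [← huv]
      exact Submodule.add_mem _ hu hv4

end MP50e386N
end

section
/-! Outer induction on `(r|s)` (paper section 7). -/

namespace MP50e386N

open MvPolynomial Pool.Agent.Lib.MP50e386

/-- the package for `R_{r|s}` -/
theorem pkg_rs (r s : ℕ) (h' : NI (MP50e386.detIdeal r (s + 1)))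
    (h'' : NI (MP50e386.detIdeal (r + 1) s)) : Pkg (Rrs r s) r s (hrs r s) where
  gl := hrs_GLSI r s
  p1 := Rrs_P1 r s
  p2 := Rrs_P2 r s
  p3 := Rrs_P3 r s
  p4 := Rrs_P4 r s
  p5 := Rrs_P5 r s
  p6 := Rrs_P6 r s
  p7 := fun L D N Y hN hY hNY hYD => Rrs_P7 r s L D N Y hN hY hNY hYD
  p8 := fun L D Y hY hYD => noeth_two (MP50e386.detIdeal (r + 1) (s + 1)) (Rrs_P6 r s)
    (MP50e386.detIdeal r (s + 1)) (MP50e386.detIdeal (r + 1) s) h' h'' L D Y hY hYD

/-- from `A ⧸ J` to `A` -/
theorem NI_of_quot (J : Ideal MP50e386.A) [GLIdeal J]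
    (h : ∀ S : Finset ℕ, NoethInt (R := MP50e386.A ⧸ J) GS ⊥ (MS (MP50e386.A ⧸ J) S)) : NI J := by
  intro S N hmono hN
  choose N' hG hMS hmem hpull using fun i => exists_push J S (N i) (hN i).1 (hN i).2.1 (hN i).2.2
  obtain ⟨n0, hn0⟩ := h S N' (fun i j hij f hf => by
    obtain ⟨F, hF, hFf⟩ := (hmem i f).1 hf
    exact (hmem j f).2 ⟨F, hmono hij hF, hFf⟩) (fun i => ⟨hG i, bot_le, hMS i⟩)
  refine ⟨n0, fun n hn => ?_⟩
  rw [← hpull n, ← hpull n0, hn0 n hn]

private theorem detIdeal_zero_left (N0 : ℕ) : MP50e386.detIdeal 0 N0 = ⊤ := by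
  rw [Ideal.eq_top_iff_one]
  refine Ideal.subset_span ⟨fun i => i.elim0, ?_⟩
  simp

private theorem detIdeal_zero_right (M : ℕ) : MP50e386.detIdeal M 0 = ⊤ := by
  rw [Ideal.eq_top_iff_one]
  refine Ideal.subset_span ⟨fun _ => 0, ?_⟩
  simp

theorem NI_zero_left (N0 : ℕ) : NI (MP50e386.detIdeal 0 N0) := by
  rw [detIdeal_zero_left]
  exact NI_top

theorem NI_zero_right (M : ℕ) : NI (MP50e386.detIdeal M 0) := by
  rw [detIdeal_zero_right]
  exact NI_top

theorem NI_det (M N0 : ℕ) : NI (MP50e386.detIdeal M N0) := by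
  induction hm : M + N0 using Nat.strong_induction_on generalizing M N0 with
  | _ m ih =>
    rcases M with - | r
    · exact NI_zero_left N0
    rcases N0 with - | s
    · exact NI_zero_right (r + 1)
    · have h' : NI (MP50e386.detIdeal r (s + 1)) := ih (r + (s + 1)) (by omega) r (s + 1) rfl
      have h'' : NI (MP50e386.detIdeal (r + 1) s) := ih (r + 1 + s) (by omega) (r + 1) s rfl
      have P := pkg_rs r s h' h''
      exact NI_of_quot (MP50e386.detIdeal (r + 1) (s + 1)) fun S => (main_step P S).2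

end MP50e386N
end

section
/-! The associated graded ideal and the final theorem (paper section 7). -/

namespace MP50e386N

open MvPolynomial Pool.Agent.Lib.MP50e386

attribute [local instance] MvPolynomial.gradedAlgebra

private theorem l6_bil2 (u v : V) : (MP50e386.bil u v).IsHomogeneous 1 := by
  unfold MP50e386.bil
  rw [Finsupp.linearCombination_apply, Finsupp.sum, LinearMap.sum_apply]
  apply IsHomogeneous.sum
  intro i _
  rw [LinearMap.smul_apply, Finsupp.linearCombination_apply, Finsupp.sum, smul_eq_C_mul]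
  apply IsHomogeneous.C_mul
  apply IsHomogeneous.sum
  intro j _
  rw [smul_eq_C_mul]
  exact isHomogeneous_C_mul_X _ _

private theorem l6_det2 {M : ℕ} (u : Fin M → V) :
    (Matrix.det (Matrix.of fun i j : Fin M => MP50e386.bil (u i) (u j))).IsHomogeneous M := by
  rw [Matrix.det_apply]
  apply IsHomogeneous.sum
  intro σ _
  have h1 : (∏ i, (Matrix.of fun i j : Fin M => MP50e386.bil (u i) (u j)) (σ i) i).IsHomogeneous
      (∑ _i : Fin M, 1) := by
    apply IsHomogeneous.prod
    intro i _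
    exact l6_bil2 _ _
  rw [Finset.sum_const, Finset.card_univ, Fintype.card_fin, smul_eq_mul, mul_one] at h1
  rcases Int.units_eq_one_or (Equiv.Perm.sign σ) with h | h
  · rw [h, one_smul]
    exact h1
  · rw [h, Units.neg_smul, one_smul]
    exact h1.neg

private theorem l6_sub_homog2 {f : MP50e386.A} {k : ℕ} (h : f.IsHomogeneous k) (w : ℕ → V) :
    (MP50e386.sub w f).IsHomogeneous k := by
  unfold MP50e386.sub
  have h1 := IsHomogeneous.aeval h (MP50e386.Yw w) (n := 1) (by
    intro s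
    induction s using Sym2.ind with
    | _ i j =>
      rw [MP50e386.Yw_mk]
      exact l6_bil2 _ _)
  rwa [one_mul] at h1

private theorem l6_sub_hc2 (f : MP50e386.A) (w : ℕ → V) (d : ℕ) :
    homogeneousComponent d (MP50e386.sub w f) = MP50e386.sub w (homogeneousComponent d f) := by
  conv_lhs => rw [← sum_homogeneousComponent f, map_sum, map_sum]
  by_cases hd : d ∈ Finset.range (f.totalDegree + 1)
  · rw [Finset.sum_eq_single_of_mem d hd]
    · exact homogeneousComponent_eq_self
        (l6_sub_homog2 (homogeneousComponent_isHomogeneous d f) w)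
    · intro k _ hkd
      rw [homogeneousComponent_of_mem
        (l6_sub_homog2 (homogeneousComponent_isHomogeneous k f) w), if_neg (Ne.symm hkd)]
  · rw [Finset.sum_eq_zero]
    · rw [Finset.mem_range, not_lt] at hd
      rw [homogeneousComponent_eq_zero _ _ (by omega), map_zero]
    · intro k hk
      rw [homogeneousComponent_of_mem
        (l6_sub_homog2 (homogeneousComponent_isHomogeneous k f) w), if_neg]
      rintro rfl
      exact hd hk

theorem GSI_grI {I : Ideal MP50e386.A} (hI : IsStable IsSp I) : GSI (grI I) := by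
  intro g hg c hc f hf
  rw [sbR_eq_sub]
  have key : grI I ≤ (grI I).comap (MP50e386.sub (fun i => c • g (ee i))) := by
    conv_lhs => unfold grI
    rw [Ideal.span_le]
    rintro T ⟨f0, hf0, rfl⟩
    rw [SetLike.mem_coe, Ideal.mem_comap,
      MP50e386.sub_smul_homog (homogeneousComponent_isHomogeneous _ f0) c (fun i => g (ee i)),
      ← l6_sub_hc2, smul_eq_C_mul]
    apply Ideal.mul_mem_left
    have h1 : MP50e386.sub (fun i => g (ee i)) f0 ∈ I := by
      have h2 := hI g hg f0 hf0
      rwa [MP50e386.act_eq] at h2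
    set F := MP50e386.sub (fun i => g (ee i)) f0 with hF
    by_cases h0 : homogeneousComponent f0.totalDegree F = 0
    · rw [h0]
      exact Submodule.zero_mem _
    · apply Ideal.subset_span
      refine ⟨F, h1, ?_⟩
      have h3 : f0.totalDegree ≤ F.totalDegree := by
        by_contra hcon
        exact h0 (homogeneousComponent_eq_zero _ _ (by omega))
      have h4 : F.totalDegree ≤ f0.totalDegree := by
        rw [hF]
        conv_lhs => rw [← sum_homogeneousComponent f0, map_sum]
        refine (totalDegree_finsetSum _ _).trans (Finset.sup_le fun k hk => ?_)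
        have h5 := (l6_sub_homog2 (homogeneousComponent_isHomogeneous k f0)
          (fun i => g (ee i))).totalDegree_le
        rw [Finset.mem_range] at hk
        omega
      rw [le_antisymm h4 h3]
  exact key hf

theorem stab_of_isStable {I : Ideal MP50e386.A} (hI : IsStable IsSp I) :
    MP50e386.Stab MP50e386.pis MP50e386.sis I := by
  intro g hg1 hg2 f hf
  have h1 := hI g ⟨hg1, fun x y => by
    rw [MP50e386.sympForm_eq, MP50e386.sympForm_eq]
    exact hg2 x y⟩ f hf
  rwa [MP50e386.act_eq] at h1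

/-- `A = Sym(Sym^2(ℂ^∞))` is topologically `Sp_∞`-noetherian (indeed noetherian) -/
theorem sp_noetherian (I : ℕ → Ideal SymSym) (hmono : Monotone I)
    (hI : ∀ n, IsStable IsSp (I n)) : ∃ n0, ∀ n ≥ n0, I n = I n0 := by
  by_cases hbot : ∀ n, I n = ⊥
  · exact ⟨0, fun n _ => by rw [hbot n, hbot 0]⟩
  push Not at hbot
  obtain ⟨n1, hn1⟩ := hbot
  obtain ⟨M, N0, hle⟩ := MP50e386.main_sp (I n1) hn1 (stab_of_isStable (hI n1))
  have hleN : ∀ i, MP50e386.detIdeal M N0 ≤ grI (I (n1 + i)) := fun i =>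
    detIdeal_le_grI (hle.trans (hmono (Nat.le_add_right n1 i)))
  obtain ⟨n0, hn0⟩ := NI_det M N0 ∅ (fun i => ofI (grI (I (n1 + i))))
    (fun i j hij => (ofI_le _ _).2 (grI_mono (hmono (Nat.add_le_add_left hij n1))))
    (fun i => by
      refine ⟨(GS_ofI _).2 (GSI_grI (hI _)), ?_, ?_⟩
      · rw [MS_empty, ofI_smul, Ideal.mul_top, ofI_le]
        exact hleN i
      · rw [MS_empty, ofI_le]
        exact le_top)
  refine ⟨n1 + n0, fun n hn => ?_⟩
  obtain ⟨j, rfl⟩ := Nat.exists_eq_add_of_le (le_trans (Nat.le_add_right n1 n0) hn)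
  have hj : n0 ≤ j := by omega
  have h1 := hn0 j hj
  have h2 : grI (I (n1 + j)) = grI (I (n1 + n0)) :=
    le_antisymm ((ofI_le _ _).1 h1.le) ((ofI_le _ _).1 h1.ge)
  exact (eq_of_grI (hmono hn) h2.symm).symm

end MP50e386N
end
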