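import Mathlib
import Pool.Agent.Lib.MP_50e386_al.B.Ea
import Pool.Agent.Lib.MP_50e386_al.B.Ob

section
/-!
Definitions for the second part of the proof that `Sym(Sym^2(ℂ^∞))` is `O_∞`-noetherian
(the shift `τ : x ↦ x + t ω`, the ideals `K_J` and `nn(J)`), paper: MP_50e386_Q1_paper.md.
-/

namespace MP50e386O

open MvPolynomial Pool.Agent.Lib.MP50e386 MP50e386N

/-- `A = Sym(Sym^2(ℂ^∞))` -/
abbrev AA := MP50e386.A

/-- the value of the form on an unordered pair of letters -/
noncomputable def omS (s : Sym2 ℕ) : ℂ :=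
  Sym2.lift ⟨fun i j => om (ee i) (ee j), fun _ _ => osf_comm _ _⟩ s

/-- `τ : A → A[t]`, `x_ij ↦ x_ij + om_ij t` -/
noncomputable def tauA : AA →ₐ[ℂ] Polynomial AA :=
  aeval (fun s => Polynomial.C (X s) + Polynomial.C (C (omS s)) * Polynomial.X)

/-- the extension of `τ` to `U_A → U_A[t]`, `z_{a,i} ↦ z_{a,i}` -/
noncomputable def tauU : U AA →+* Polynomial (U AA) :=
  eval₂Hom ((Polynomial.mapRingHom (C : AA →+* U AA)).comp (tauA : AA →+* Polynomial AA))
    (fun p => Polynomial.C (X p))

/-- `K_J`: all coefficients of `τ f` lie in `J` -/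
noncomputable def KK (J : Ideal AA) : Ideal AA :=
  Ideal.comap (tauA : AA →+* Polynomial AA) (Ideal.map Polynomial.C J)

/-- `nn(J)` for ideals: generated by the `f(φ)`, `f ∈ J`, `φ` isotropic -/
noncomputable def nnI (J : Ideal AA) : Ideal AA :=
  Ideal.span {f | ∃ φ : ℕ → V, Iso φ ∧ ∃ g ∈ J, f = sbR φ g}

/-- the action on `U_A[t]`: `φ` on the coefficients, `t ↦ μ t` -/
noncomputable def actP (φ : ℕ → V) (μ : ℂ) : Polynomial (U AA) →+* Polynomial (U AA) :=
  Polynomial.eval₂RingHom (Polynomial.C.comp (sbC φ))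
    (Polynomial.C (algebraMap ℂ (U AA) μ) * Polynomial.X)

/-- `t^k τ(c)` is in `τ(A)` modulo `J[t]`, for all `k` -/
def CondP (J : Ideal AA) (c : AA) : Prop :=
  ∀ k : ℕ, ∃ c' : AA, tauA c' - Polynomial.X ^ k * tauA c ∈ Ideal.map Polynomial.C J

/-- `t` is integral of degree `m` over `τ(A)` modulo `J[t]` -/
def IntP (J : Ideal AA) (m : ℕ) : Prop :=
  ∃ p : ℕ → AA, Polynomial.X ^ m - ∑ k ∈ Finset.range m, Polynomial.X ^ k * tauA (p k) ∈
    Ideal.map Polynomial.C J

/-- subspaces of `U_A[t]` stable under `A`, `t` and `G` -/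
def GX (Y : Submodule ℂ (Polynomial (U AA))) : Prop :=
  (∀ a : AA, ∀ P ∈ Y, Polynomial.C (C a) * P ∈ Y) ∧ (∀ P ∈ Y, Polynomial.X * P ∈ Y) ∧
    ∀ g : Cinf ≃ₗ[ℂ] Cinf, IsSo g → ∀ c : ℂ, c ≠ 0 → ∀ P ∈ Y,
      actP (fun i => c • g (ee i)) (c ^ 2) P ∈ Y

/-- `J_{r|s}` -/
noncomputable abbrev Jd (r s : ℕ) : Ideal AA := MP50e386.detIdeal (r + 1) (s + 1)

end MP50e386O
end

section
/-! Basic facts about `τ`. -/

namespace MP50e386O

open MvPolynomial Pool.Agent.Lib.MP50e386 MP50e386N

theorem tauA_X (s : Sym2 ℕ) : tauA (X s) =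
    Polynomial.C (X s) + Polynomial.C (C (omS s)) * Polynomial.X := by
  unfold tauA
  rw [aeval_X]

private theorem X1_om (x y : V) : om x y = MP50e386.frm MP50e386.pis sio x y := osf_eq x y

private theorem X1_cst_single (i : ℕ) (a : ℂ) : (cst (Finsupp.single i a) : VR AA) =
    Finsupp.single i (algebraMap ℂ AA a) := by
  simp [cst]

private theorem X1_tauA_alg (c : ℂ) : tauA (C c) = Polynomial.C (C c) := by
  have : tauA (algebraMap ℂ AA c) = algebraMap ℂ (Polynomial AA) c := AlgHom.commutes _ _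
  exact this

private theorem X1_xv_single (i j : ℕ) (a b : ℂ) :
    (xv (Finsupp.single i a) (Finsupp.single j b) : AA) = C a * C b * X s(i, j) := by
  unfold xv
  rw [X1_cst_single, X1_cst_single, xf_single]
  rfl

private theorem X1_om_single (i j : ℕ) (a b : ℂ) :
    om (Finsupp.single i a) (Finsupp.single j b) = a * b * om (ee i) (ee j) := by
  have h1 : (Finsupp.single i a : V) = a • ee i := by
    rw [ee, Finsupp.smul_single, smul_eq_mul, mul_one]
  have h2 : (Finsupp.single j b : V) = b • ee j := by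
    rw [ee, Finsupp.smul_single, smul_eq_mul, mul_one]
  rw [h1, h2, X1_om, X1_om, map_smul, map_smul, LinearMap.smul_apply, smul_eq_mul, smul_eq_mul]
  ring

/-- `τ(x(v,w)) = x(v,w) + om(v,w) t` -/
theorem tauA_xv (v w : V) : tauA (xv v w : AA) =
    Polynomial.C (xv v w : AA) + Polynomial.C (C (om v w)) * Polynomial.X := by
  induction v using Finsupp.induction_linear with
  | zero =>
    have h1 : (xv (0 : V) w : AA) = 0 := by unfold xv; rw [map_zero, map_zero, LinearMap.zero_apply]
    rw [h1, X1_om]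
    simp only [map_zero, LinearMap.zero_apply, zero_mul, add_zero]
  | add f g hf hg =>
    have h1 : (xv (f + g) w : AA) = xv f w + xv g w := by
      unfold xv; rw [map_add, map_add, LinearMap.add_apply]
    have h2 : om (f + g) w = om f w + om g w := by
      rw [X1_om, X1_om, X1_om, map_add, LinearMap.add_apply]
    rw [h1, h2, map_add, hf, hg, map_add, map_add, map_add]
    ring
  | single i a =>
    induction w using Finsupp.induction_linear with
    | zero =>
      have h1 : (xv (Finsupp.single i a) (0 : V) : AA) = 0 := by unfold xv; rw [map_zero, map_zero]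
      rw [h1, X1_om]
      simp only [map_zero, zero_mul, add_zero]
    | add f g hf hg =>
      have h1 : (xv (Finsupp.single i a) (f + g) : AA) = xv (Finsupp.single i a) f +
          xv (Finsupp.single i a) g := by
        unfold xv; rw [map_add, map_add]
      have h2 : om (Finsupp.single i a) (f + g) = om (Finsupp.single i a) f +
          om (Finsupp.single i a) g := by
        rw [X1_om, X1_om, X1_om, map_add]
      rw [h1, h2, map_add, hf, hg, map_add, map_add, map_add]
      ring
    | single j b =>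
      rw [X1_xv_single, X1_om_single, map_mul, map_mul, X1_tauA_alg, X1_tauA_alg, tauA_X]
      have h3 : omS s(i, j) = om (ee i) (ee j) := rfl
      rw [h3]
      simp only [map_mul]
      ring

theorem tauA_coeff_zero (a : AA) : (tauA a).coeff 0 = a := by
  have h : (Polynomial.constantCoeff.comp (tauA : AA →+* Polynomial AA)) = RingHom.id AA := by
    apply MvPolynomial.ringHom_ext
    · intro r
      show (tauA (C r)).coeff 0 = C r
      rw [X1_tauA_alg, Polynomial.coeff_C_zero]
    · intro s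
      show (tauA (X s)).coeff 0 = X s
      rw [tauA_X]
      simp
  exact DFunLike.congr_fun h a

theorem tauU_C (a : AA) : tauU (C a) = (tauA a).map (C : AA →+* U AA) := by
  unfold tauU
  rw [eval₂Hom_C]
  rfl

theorem tauU_X (p : ℕ × ℕ) : tauU (X p) = Polynomial.C (X p) := by
  unfold tauU
  rw [eval₂Hom_X']

theorem tauU_smul (a : AA) (f : U AA) :
    tauU (a • f) = (tauA a).map (C : AA →+* U AA) * tauU f := by
  rw [smul_eq_C_mul, map_mul, tauU_C]

theorem tauU_coeff_zero (f : U AA) : (tauU f).coeff 0 = f := by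
  have h : (Polynomial.constantCoeff.comp tauU) = RingHom.id (U AA) := by
    apply MvPolynomial.ringHom_ext
    · intro r
      show (tauU (C r)).coeff 0 = C r
      rw [tauU_C, Polynomial.coeff_map, tauA_coeff_zero]
    · intro s
      show (tauU (X s)).coeff 0 = X s
      rw [tauU_X, Polynomial.coeff_C_zero]
  exact DFunLike.congr_fun h f

private theorem X1_tauU_mon (u : ℕ × ℕ →₀ ℕ) :
    tauU (monomial u (1 : AA)) = Polynomial.C (monomial u (1 : AA)) := by
  rw [monomial_eq, C_1, one_mul]
  simp only [Finsupp.prod, map_prod, map_pow, tauU_X]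

/-- coefficientwise description of `τ` on `U_A` -/
theorem tauU_coeff (f : U AA) (k : ℕ) (m : ℕ × ℕ →₀ ℕ) :
    coeff m ((tauU f).coeff k) = (tauA (coeff m f)).coeff k := by
  classical
  induction f using MvPolynomial.induction_on' with
  | monomial u a =>
    have h1 : (monomial u a : U AA) = a • monomial u (1 : AA) := by
      rw [smul_monomial, smul_eq_mul, mul_one]
    rw [h1, tauU_smul, X1_tauU_mon, Polynomial.coeff_mul_C, Polynomial.coeff_map, coeff_C_mul,
      coeff_smul, coeff_monomial]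
    split_ifs with h
    · rw [mul_one, smul_eq_mul, mul_one]
    · rw [mul_zero, smul_zero, map_zero, Polynomial.coeff_zero]
  | add p q hp hq =>
    rw [map_add, Polynomial.coeff_add, coeff_add, hp, hq, coeff_add, map_add, Polynomial.coeff_add]

theorem tauU_MS (S : Finset ℕ) (f : U AA) (hf : f ∈ MS AA S) (k : ℕ) :
    (tauU f).coeff k ∈ MS AA S := by
  unfold MS at hf ⊢
  rw [mem_restrictSupport_iff] at hf ⊢
  intro m hm
  apply hf
  rw [Finset.mem_coe, mem_support_iff] at hm ⊢
  intro h0
  apply hm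
  rw [tauU_coeff, h0, map_zero, Polynomial.coeff_zero]

theorem actP_coeff (φ : ℕ → V) (μ : ℂ) (P : Polynomial (U AA)) (k : ℕ) :
    (actP φ μ P).coeff k = μ ^ k • sbC φ (P.coeff k) := by
  induction P using Polynomial.induction_on' with
  | add p q hp hq => rw [map_add, Polynomial.coeff_add, Polynomial.coeff_add, map_add, smul_add, hp, hq]
  | monomial n a =>
    have h1 : actP φ μ (Polynomial.monomial n a) = Polynomial.C (sbC φ a) *
        (Polynomial.C (algebraMap ℂ (U AA) μ) * Polynomial.X) ^ n := by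
      unfold actP
      rw [Polynomial.coe_eval₂RingHom, Polynomial.eval₂_monomial]
      rfl
    rw [h1, mul_pow, ← mul_assoc, ← Polynomial.C_pow, ← Polynomial.C_mul, Polynomial.coeff_C_mul_X_pow,
      Polynomial.coeff_monomial]
    by_cases h : k = n
    · subst h
      rw [if_pos rfl, if_pos rfl, Algebra.smul_def, map_pow, mul_comm]
    · rw [if_neg h, if_neg (fun h' => h h'.symm), map_zero, smul_zero]

private theorem X1_sbR_x (φ : ℕ → V) (i j : ℕ) :
    sbR φ (GLRing.x i j : AA) = xv (φ i) (φ j) := by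
  unfold sbR
  rw [sb_x']
  rfl

private theorem X1_tauU_zf (a : ℕ) (v : V) : tauU (zf a (cst v : VR AA)) =
    Polynomial.C (zf a (cst v : VR AA)) := by
  induction v using Finsupp.induction_linear with
  | zero => rw [map_zero, map_zero, map_zero, map_zero]
  | add f g hf hg => rw [map_add, map_add, map_add, map_add, hf, hg]
  | single j c =>
    rw [X1_cst_single, zf_single, tauU_smul, tauU_X]
    have : tauA (algebraMap ℂ AA c) = Polynomial.C (algebraMap ℂ AA c) := X1_tauA_alg c
    rw [this, Polynomial.map_C, ← Polynomial.C_mul, smul_eq_C_mul]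

private theorem X1_sbC_alg (φ : ℕ → V) (c : ℂ) :
    sbC φ (C (algebraMap ℂ AA c) : U AA) = C (algebraMap ℂ AA c) := by
  rw [sbC_C]
  congr 1
  exact AlgHom.commutes _ _

/-- equivariance of `τ` -/
theorem tauU_sbC (φ : ℕ → V) (μ : ℂ) (h : ∀ i j, om (φ i) (φ j) = μ * om (ee i) (ee j))
    (f : U AA) : tauU (sbC φ f) = actP φ μ (tauU f) := by
  have key : tauU.comp (sbC φ) = (actP φ μ).comp tauU := by
    apply U_ext
    · intro c
      rw [RingHom.comp_apply, RingHom.comp_apply, X1_sbC_alg, tauU_C]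
      have h1 : tauA (algebraMap ℂ AA c) = Polynomial.C (algebraMap ℂ AA c) := X1_tauA_alg c
      rw [h1, Polynomial.map_C]
      ext1 k
      rw [actP_coeff, Polynomial.coeff_C]
      by_cases hk : k = 0
      · subst hk
        rw [if_pos rfl, X1_sbC_alg, pow_zero, one_smul]
      · rw [if_neg hk, map_zero, smul_zero]
    · intro i j
      rw [RingHom.comp_apply, RingHom.comp_apply, sbC_C, tauU_C, X1_sbR_x, tauA_xv, tauU_C]
      have h1 : tauA (GLRing.x i j : AA) = Polynomial.C (GLRing.x i j : AA) +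
          Polynomial.C (C (om (ee i) (ee j))) * Polynomial.X := tauA_X s(i, j)
      rw [h1]
      ext1 k
      rw [actP_coeff, Polynomial.coeff_map, Polynomial.coeff_map, Polynomial.coeff_add,
        Polynomial.coeff_add, Polynomial.coeff_C_mul, Polynomial.coeff_C_mul, Polynomial.coeff_C,
        Polynomial.coeff_C, Polynomial.coeff_X]
      rcases k with _ | _ | k
      · simp only [if_true, if_neg (show ¬ (1 : ℕ) = 0 by omega), mul_zero, add_zero, pow_zero,
          one_smul]
        rw [sbC_C, X1_sbR_x]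
      · simp only [zero_add, if_neg (show ¬ (1 : ℕ) = 0 by omega), if_true, mul_one, pow_one]
        have h2 : sbC φ (C (C (om (ee i) (ee j)) : AA) : U AA) = C (C (om (ee i) (ee j))) :=
          X1_sbC_alg φ _
        rw [h2, h i j, map_mul, map_mul, Algebra.smul_def]
        rfl
      · simp only [if_neg (show ¬ (k + 1 + 1 : ℕ) = 0 by omega),
          if_neg (show ¬ (1 : ℕ) = k + 1 + 1 by omega), mul_zero, add_zero, map_zero, smul_zero]
    · intro a i
      rw [RingHom.comp_apply, RingHom.comp_apply, sbC_X, X1_tauU_zf, tauU_X]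
      ext1 k
      rw [actP_coeff, Polynomial.coeff_C, Polynomial.coeff_C]
      by_cases hk : k = 0
      · subst hk
        rw [if_pos rfl, if_pos rfl, sbC_X, pow_zero, one_smul]
      · rw [if_neg hk, if_neg hk, map_zero, smul_zero]
  exact DFunLike.congr_fun key f

theorem tauA_sbR (φ : ℕ → V) (μ : ℂ) (h : ∀ i j, om (φ i) (φ j) = μ * om (ee i) (ee j))
    (a : AA) (k : ℕ) : (tauA (sbR φ a)).coeff k = μ ^ k • sbR φ ((tauA a).coeff k) := by
  have h1 := congrArg (fun P => Polynomial.coeff P k) (tauU_sbC φ μ h (C a))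
  simp only [sbC_C, tauU_C, actP_coeff, Polynomial.coeff_map] at h1
  apply MvPolynomial.C_injective (ℕ × ℕ) AA
  rw [h1, Algebra.smul_def, Algebra.smul_def, map_mul]
  rfl

/-- `τ` fixes the isotropic substitutions -/
theorem tauA_iso {φ : ℕ → V} (h : Iso φ) (a : AA) : tauA (sbR φ a) = Polynomial.C (sbR φ a) := by
  ext1 k
  rw [tauA_sbR φ 0 (fun i j => by rw [zero_mul]; exact h i j), Polynomial.coeff_C]
  by_cases hk : k = 0
  · subst hk
    rw [if_pos rfl, pow_zero, one_smul, tauA_coeff_zero]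
  · rw [if_neg hk, zero_pow hk, zero_smul]

private theorem X1_tauU_LT {T : Set ℕ} {f : U AA} (h : f ∈ MP50e386N.LT AA T) :
    ∀ k, (tauU f).coeff k ∈ MP50e386N.LT AA T := by
  unfold MP50e386N.LT at h
  induction h using Algebra.adjoin_induction with
  | mem x hx =>
    intro k
    rcases hx with ⟨i, hi, j, hj, rfl⟩ | ⟨a, i, hi, rfl⟩
    · have h1 : tauA (GLRing.x i j : AA) = Polynomial.C (GLRing.x i j : AA) +
          Polynomial.C (C (om (ee i) (ee j))) * Polynomial.X := tauA_X s(i, j)
      rw [tauU_C, h1, Polynomial.coeff_map, Polynomial.coeff_add, Polynomial.coeff_C_mul,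
        Polynomial.coeff_C, Polynomial.coeff_X]
      rcases k with _ | _ | k
      · simp only [if_true, if_neg (show ¬ (1 : ℕ) = 0 by omega), mul_zero, add_zero]
        exact Algebra.subset_adjoin (Or.inl ⟨i, hi, j, hj, rfl⟩)
      · simp only [zero_add, if_neg (show ¬ (1 : ℕ) = 0 by omega), if_true, mul_one]
        exact Subalgebra.algebraMap_mem (MP50e386N.LT AA T) (om (ee i) (ee j))
      · simp only [if_neg (show ¬ (k + 1 + 1 : ℕ) = 0 by omega),
          if_neg (show ¬ (1 : ℕ) = k + 1 + 1 by omega), mul_zero, add_zero, map_zero]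
        exact Subalgebra.zero_mem _
    · rw [tauU_X, Polynomial.coeff_C]
      split_ifs
      · exact Algebra.subset_adjoin (Or.inr ⟨a, i, hi, rfl⟩)
      · exact Subalgebra.zero_mem _
  | algebraMap c =>
    intro k
    have h1 : (algebraMap ℂ (U AA) c) = C (algebraMap ℂ AA c) := rfl
    have h2 : tauA (algebraMap ℂ AA c) = Polynomial.C (algebraMap ℂ AA c) := X1_tauA_alg c
    rw [h1, tauU_C, h2, Polynomial.map_C, Polynomial.coeff_C]
    split_ifs
    · exact Subalgebra.algebraMap_mem (MP50e386N.LT AA T) c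
    · exact Subalgebra.zero_mem _
  | add x y _ _ hx hy =>
    intro k
    rw [map_add, Polynomial.coeff_add]
    exact Subalgebra.add_mem _ (hx k) (hy k)
  | mul x y _ _ hx hy =>
    intro k
    rw [map_mul, Polynomial.coeff_mul]
    exact Subalgebra.sum_mem _ fun p _ => Subalgebra.mul_mem _ (hx _) (hy _)

/-- `τ` preserves the letters -/
theorem tauA_LT {T : Set ℕ} {a : AA} (h : (C a : U AA) ∈ MP50e386N.LT AA T) (k : ℕ) :
    (C ((tauA a).coeff k) : U AA) ∈ MP50e386N.LT AA T := by
  have h1 := X1_tauU_LT h k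
  rwa [tauU_C, Polynomial.coeff_map] at h1

/-- every element of `A` is a `t`-polynomial with coefficients in `τ(A)` -/
theorem C_eq_sum_tau (a : AA) : ∃ (n : ℕ) (p : ℕ → AA),
    (Polynomial.C a : Polynomial AA) = ∑ k ∈ Finset.range n, Polynomial.X ^ k * tauA (p k) := by
  let θ : AA →ₐ[ℂ] Polynomial AA :=
    aeval (fun s => Polynomial.C (X s) - Polynomial.C (C (omS s)) * Polynomial.X)
  let Ψ : Polynomial AA →+* Polynomial AA :=
    Polynomial.eval₂RingHom (tauA : AA →+* Polynomial AA) Polynomial.X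
  have hΨC : ∀ b : AA, Ψ (Polynomial.C b) = tauA b := fun b => by
    show Polynomial.eval₂ _ _ _ = _
    rw [Polynomial.eval₂_C]; rfl
  have hΨX : Ψ Polynomial.X = Polynomial.X := by
    show Polynomial.eval₂ _ _ _ = _
    rw [Polynomial.eval₂_X]
  have key : Ψ.comp (θ : AA →+* Polynomial AA) = (Polynomial.C : AA →+* Polynomial AA) := by
    apply MvPolynomial.ringHom_ext
    · intro r
      have h1 : θ (C r) = Polynomial.C (C r) := by
        have : θ (algebraMap ℂ AA r) = algebraMap ℂ (Polynomial AA) r := AlgHom.commutes _ _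
        exact this
      show Ψ (θ (C r)) = _
      rw [h1, hΨC, X1_tauA_alg]
    · intro s
      show Ψ (θ (X s)) = _
      have h1 : θ (X s) = Polynomial.C (X s) - Polynomial.C (C (omS s)) * Polynomial.X :=
        aeval_X _ _
      rw [h1, map_sub, map_mul, hΨC, hΨC, hΨX, tauA_X, X1_tauA_alg]
      ring
  refine ⟨(θ a).natDegree + 1, fun k => (θ a).coeff k, ?_⟩
  have h2 : Ψ (θ a) = Polynomial.C a := DFunLike.congr_fun key a
  rw [← h2]
  show Polynomial.eval₂ _ _ _ = _
  rw [Polynomial.eval₂_eq_sum_range]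
  apply Finset.sum_congr rfl
  intro k _
  rw [mul_comm]
  rfl

end MP50e386O
end

section
/-! The ideals `KK J` and `nnI J`. -/

namespace MP50e386O

open MvPolynomial Pool.Agent.Lib.MP50e386 MP50e386N

/-- the form as a bilinear map -/
private noncomputable def x2L : V →ₗ[ℂ] V →ₗ[ℂ] ℂ :=
  Finsupp.linearCombination ℂ (fun i =>
    (if Even i then Finsupp.lapply (i + 1) else Finsupp.lapply (i - 1) : V →ₗ[ℂ] ℂ))

private theorem x2L_eq (u v : V) : x2L u v = om u v := by
  unfold x2L
  rw [Finsupp.linearCombination_apply]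
  change _ = osf u v
  unfold osf Finsupp.sum
  rw [LinearMap.sum_apply]
  apply Finset.sum_congr rfl
  intro i _
  beta_reduce
  split_ifs
  · simp
  · simp

private theorem x2_om_smul (c : ℂ) (v w : V) : om (c • v) (c • w) = c ^ 2 * om v w := by
  rw [← x2L_eq, ← x2L_eq, map_smul, map_smul, LinearMap.smul_apply, smul_eq_mul, smul_eq_mul]
  ring

private theorem x2_om_zero_left (w : V) : om 0 w = 0 := by
  rw [← x2L_eq, map_zero, LinearMap.zero_apply]

private theorem x2_om_zero_right (v : V) : om v 0 = 0 := by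
  rw [← x2L_eq, map_zero]

private theorem x2_linC_smul_g (g : Cinf ≃ₗ[ℂ] Cinf) (c : ℂ) (v : V) :
    linC (fun i => c • g (ee i)) v = c • g v := by
  have h0 : linC (fun i => c • g (ee i)) = c • g.toLinearMap := by
    apply Finsupp.lhom_ext'
    intro i
    apply LinearMap.ext_ring
    change linC (fun i => c • g (ee i)) (ee i) = c • g (ee i)
    rw [linC_ee]
  rw [h0]
  rfl

private theorem x2_iso_lin {φ : ℕ → V} (h : Iso φ) (v w : V) :
    om (linC φ v) (linC φ w) = 0 := by
  have := Iso.lin h (fun n => if n = 0 then v else w) 0 1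
  simpa using this

theorem mem_KK (J : Ideal AA) (a : AA) : a ∈ KK J ↔ ∀ k, (tauA a).coeff k ∈ J := by
  unfold KK
  rw [Ideal.mem_comap, Ideal.mem_map_C_iff]
  rfl

theorem KK_le (J : Ideal AA) : KK J ≤ J := by
  intro a ha
  have := (mem_KK J a).1 ha 0
  rwa [tauA_coeff_zero] at this

theorem KK_GSI {J : Ideal AA} (hJ : GSI J) : GSI (KK J) := by
  intro g hg c hc f hf
  rw [mem_KK] at hf ⊢
  intro k
  rw [tauA_sbR (fun i => c • g (ee i)) (c ^ 2) (fun i j => ?_)]
  · exact Submodule.smul_of_tower_mem J _ (hJ g hg c hc _ (hf k))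
  · rw [x2_om_smul]
    congr 1
    exact hg.2 _ _

private theorem x2_smul_top (J : Ideal AA) (f : U AA) :
    f ∈ (J • ⊤ : Submodule AA (U AA)) ↔ ∀ m, coeff m f ∈ J := by
  rw [← red_eq_zero]
  unfold red
  constructor
  · intro h m
    have h1 := congrArg (coeff m) h
    rw [coeff_map, coeff_zero] at h1
    exact Ideal.Quotient.eq_zero_iff_mem.1 h1
  · intro h
    ext m
    rw [coeff_map, coeff_zero]
    exact Ideal.Quotient.eq_zero_iff_mem.2 (h m)

/-- `K_J M_S` is the kernel of `τ` modulo `J` -/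
theorem KK_smul_MS (J : Ideal AA) (S : Finset ℕ) (f : U AA) (hf : f ∈ MS AA S) :
    f ∈ KK J • MS AA S ↔ ∀ k, (tauU f).coeff k ∈ J • MS AA S := by
  rw [J_smul_MS, J_smul_MS]
  simp only [Submodule.mem_inf, x2_smul_top]
  constructor
  · rintro ⟨h, _⟩ k
    refine ⟨fun m => ?_, tauU_MS S f hf k⟩
    rw [tauU_coeff]
    exact (mem_KK J _).1 (h m) k
  · intro h
    refine ⟨fun m => (mem_KK J _).2 fun k => ?_, hf⟩
    rw [← tauU_coeff]
    exact (h k).1 m

theorem nnI_mono {J J' : Ideal AA} (h : J ≤ J') : nnI J ≤ nnI J' := by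
  unfold nnI
  apply Ideal.span_mono
  rintro f ⟨φ, hφ, g, hg, rfl⟩
  exact ⟨φ, hφ, g, h hg, rfl⟩

theorem nnI_GSI {J : Ideal AA} (hJ : GLSI J) : GSI (nnI J) := by
  have _ := hJ
  intro g hg c hc f hf
  have key : nnI J ≤ (nnI J).comap (sbR (fun i => c • g (ee i)) : AA →ₐ[ℂ] AA) := by
    conv_lhs => unfold nnI
    rw [Ideal.span_le]
    rintro _ ⟨φ, hφ, h, hh, rfl⟩
    rw [SetLike.mem_coe, Ideal.mem_comap, sbR_sbR]
    refine Ideal.subset_span ⟨_, ?_, h, hh, rfl⟩
    intro i j
    simp only [x2_linC_smul_g]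
    rw [x2_om_smul]
    have h2 : om (g (φ i)) (g (φ j)) = om (φ i) (φ j) := hg.2 _ _
    rw [h2, hφ i j, mul_zero]
  exact key hf

theorem nnI_le {J : Ideal AA} (hJ : GLSI J) : nnI J ≤ J := by
  unfold nnI
  rw [Ideal.span_le]
  rintro f ⟨φ, _, g, hg, rfl⟩
  exact hJ φ g hg

theorem nnI_le_KK {J : Ideal AA} (hJ : GLSI J) : nnI J ≤ KK J := by
  conv_lhs => unfold nnI
  rw [Ideal.span_le]
  rintro f ⟨φ, hφ, g, hg, rfl⟩
  rw [SetLike.mem_coe, mem_KK, tauA_iso hφ]
  intro k
  rw [Polynomial.coeff_C]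
  split_ifs
  · exact hJ φ g hg
  · exact J.zero_mem

theorem nnI_top : nnI ⊤ = ⊤ := by
  rw [Ideal.eq_top_iff_one]
  unfold nnI
  refine Ideal.subset_span ⟨fun _ => 0, fun _ _ => x2_om_zero_left _, 1, trivial, ?_⟩
  rw [map_one]

/-- `nn(J)` is contained in every graded stable ideal `I` with `J ≤ M₁(I)` -/
theorem nnI_le_of (J I : Ideal AA) (h : ∀ φ : ℕ → V, Iso φ → ∀ g ∈ J, sbR φ g ∈ I) :
    nnI J ≤ I := by
  unfold nnI
  rw [Ideal.span_le]
  rintro f ⟨φ, hφ, g, hg, rfl⟩
  exact h φ hφ g hg

/-- (rc) for `nn(J)` -/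
theorem rc_nnI {J : Ideal AA} {a : AA} (ha : a ∈ J) (W : Submodule ℂ V)
    (hW : ∀ v ∈ W, ∀ w ∈ W, om v w = 0) (ψ : ℕ → VR AA)
    (hψ : ∀ i, ψ i ∈ Submodule.span AA ((fun v => (cst v : VR AA)) '' (W : Set V))) :
    GLRing.sb ψ a ∈ nnI J := by
  have h := rc_gen W (ofI (nnI J)) (C a : U AA) (fun φ hφ => ?_) ψ hψ
  · rw [sbU_C] at h
    exact (C_mem_ofI _ _).1 h
  · rw [sbC_C]
    refine (C_mem_ofI _ _).2 (Ideal.subset_span ⟨φ, fun i j => ?_, a, ha, rfl⟩)
    exact hW _ (hφ i) _ (hφ j)

/-- elements of `J` with isotropic letters lie in `nn(J)` -/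
theorem mem_nnI_of_letters {J : Ideal AA} {a : AA} (ha : a ∈ J) {T : Set ℕ}
    (haT : (C a : U AA) ∈ MP50e386N.LT AA T) (hT : ∀ i ∈ T, ∀ j ∈ T, om (ee i) (ee j) = 0) :
    a ∈ nnI J := by
  classical
  unfold nnI
  refine Ideal.subset_span ⟨fun i => if i ∈ T then ee i else 0, ?_, a, ha, ?_⟩
  · intro i j
    by_cases hi : i ∈ T
    · by_cases hj : j ∈ T
      · simp only [if_pos hi, if_pos hj]
        exact hT i hi j hj
      · simp only [if_neg hj]
        exact x2_om_zero_right _
    · simp only [if_neg hi]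
      exact x2_om_zero_left _
  · have h := sbC_congr haT ee (fun i => if i ∈ T then ee i else 0)
      (fun i hi => by simp only [if_pos hi])
    rw [sbC_id, sbC_C] at h
    exact C_injective _ _ h

private theorem x2_Dl (M : ℕ) (u : Fin M → V) : (Dl u : AA) =
    Matrix.det (Matrix.of fun i j : Fin M => MP50e386.bil (u i) (u j)) := by
  unfold Dl gramM
  simp only [xv_A]

/-- `nn(<Δ(w)^N>)` is generated by the `Δ(w)^N`, `w` isotropic -/
theorem nnI_detIdeal (M N0 : ℕ) : nnI (MP50e386.detIdeal M N0) =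
    Ideal.span {f | ∃ w : Fin M → V, Iso w ∧ f = (Dl w : AA) ^ N0} := by
  apply le_antisymm
  · apply nnI_le_of
    intro φ hφ g hg
    have key : MP50e386.detIdeal M N0 ≤ (Ideal.span {f | ∃ w : Fin M → V, Iso w ∧
        f = (Dl w : AA) ^ N0}).comap (sbR φ : AA →ₐ[ℂ] AA) := by
      conv_lhs => unfold MP50e386.detIdeal
      rw [Ideal.span_le]
      rintro _ ⟨u, rfl⟩
      rw [SetLike.mem_coe, Ideal.mem_comap, ← x2_Dl, map_pow, sbR_Dl]
      exact Ideal.subset_span ⟨_, fun i j => x2_iso_lin hφ _ _, rfl⟩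
    exact key hg
  · rw [Ideal.span_le]
    rintro _ ⟨w, hw, rfl⟩
    refine Ideal.subset_span ⟨fun i => if h : i < M then w ⟨i, h⟩ else 0, ?_,
      (Dl (fun i : Fin M => ee (i : ℕ)) : AA) ^ N0, ?_, ?_⟩
    · intro i j
      by_cases hi : i < M
      · by_cases hj : j < M
        · simp only [dif_pos hi, dif_pos hj]
          exact hw _ _
        · simp only [dif_neg hj]
          exact x2_om_zero_right _
      · simp only [dif_neg hi]
        exact x2_om_zero_left _
    · rw [x2_Dl]
      exact Ideal.subset_span ⟨_, rfl⟩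
    · rw [map_pow, sbR_Dl]
      congr 2
      funext i
      rw [linC_ee, dif_pos i.2]

private theorem x2_scal_X (c : ℂ) (s : Sym2 ℕ) :
    sbR (fun i => c • ee i) (X s : AA) = C (c ^ 2) * X s := by
  induction s using Sym2.ind with
  | _ i j =>
    rw [sbR_eq_sub, MP50e386.sub_X, map_smul, LinearMap.map_smul₂, MP50e386.bil_ee, smul_smul,
      smul_eq_C_mul, pow_two]

/-- homogeneous polynomials of degree `d` have weight `2 d` -/
theorem HW_of_homog {a : AA} {d : ℕ} (h : a.IsHomogeneous d) : HW (2 * d) (C a : U AA) := by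
  intro c
  rw [sbC_C]
  have key : sbR (fun i => c • ee i) a = c ^ (2 * d) • a := by
    have h1 : (sbR (fun i => c • ee i) : AA →ₐ[ℂ] AA) =
        aeval (fun s => (C (c ^ 2) * X s : AA)) := by
      apply MvPolynomial.algHom_ext
      intro s
      rw [x2_scal_X, aeval_X]
    rw [h1]
    conv_lhs => rw [a.as_sum]
    conv_rhs => rw [a.as_sum]
    rw [map_sum, Finset.smul_sum]
    refine Finset.sum_congr rfl fun m hm => ?_
    rw [aeval_monomial]
    have h2 : m.degree = d := by
      have := h (mem_support_iff.1 hm)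
      rw [Finsupp.degree_eq_weight_one]
      exact this
    have h3 : (m.prod fun s k => ((C (c ^ 2) * X s : AA)) ^ k) =
        C (c ^ (2 * d)) * m.prod fun s k => (X s : AA) ^ k := by
      unfold Finsupp.prod
      simp only [mul_pow]
      rw [Finset.prod_mul_distrib, Finset.prod_pow_eq_pow_sum, ← map_pow, ← pow_mul, ← h2]
      rfl
    rw [h3, smul_eq_C_mul, monomial_eq (s := m) (a := coeff m a)]
    change C _ * _ = _
    ring
  rw [key, smul_eq_C_mul, map_mul]
  rw [Algebra.smul_def]
  rfl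

private theorem x2_sum (F : ℕ → U AA) (n : ℕ) :
    ∑ e ∈ Finset.range (2 * n), (if e % 2 = 0 then F (e / 2) else 0) =
      ∑ d ∈ Finset.range n, F d := by
  induction n with
  | zero => simp
  | succ n ih =>
    rw [show 2 * (n + 1) = 2 * n + 1 + 1 by ring, Finset.sum_range_succ, Finset.sum_range_succ,
      ih, Finset.sum_range_succ, if_pos (by omega), if_neg (by omega), add_zero]
    congr 2
    omega

/-- a graded stable ideal contains the homogeneous components of its elements -/
theorem GSI_hc {I : Ideal AA} (hI : GSI I) {a : AA} (ha : a ∈ I) (d : ℕ) :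
    homogeneousComponent d a ∈ I := by
  by_cases hd : d < a.totalDegree + 1
  · have h1 : GS (ofI I) := (GS_ofI I).2 hI
    have h2 := GS_HW_comp h1 (2 * (a.totalDegree + 1))
      (fun e => if e % 2 = 0 then (C (homogeneousComponent (e / 2) a) : U AA) else 0)
      (fun e => ?_) ?_ (2 * d) (by omega)
    · simp only [Nat.mul_mod_right, if_true] at h2
      have h3 : 2 * d / 2 = d := by omega
      rw [h3] at h2
      exact (C_mem_ofI I _).1 h2
    · split_ifs with he
      · have h4 := HW_of_homog (homogeneousComponent_isHomogeneous (e / 2) a)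
        have h5 : 2 * (e / 2) = e := by omega
        rwa [h5] at h4
      · intro c
        rw [map_zero, smul_zero]
    · rw [x2_sum (fun d => (C (homogeneousComponent d a) : U AA)), ← map_sum,
        sum_homogeneousComponent]
      exact (C_mem_ofI I _).2 ha
  · rw [homogeneousComponent_eq_zero]
    · exact I.zero_mem
    · omega

end MP50e386O
end
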