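import Mathlib
import Pool.Agent.Lib.MP_50e386_al.B.Xa
import Pool.Agent.Lib.MP_50e386_al.B.Gb

section
/-! `t` is integral over `τ(A)` modulo `J_{r|s}[t]`. -/

namespace MP50e386O

open MvPolynomial Pool.Agent.Lib.MP50e386 MP50e386N

/-- an orthonormal family -/
private noncomputable def x3w (i : ℕ) : V := ee (2 * i) + (1 / 2 : ℂ) • ee (2 * i + 1)

private theorem x3_gam (i j : ℕ) : om (ee i) (ee j) =
    if j = MP50e386.pis i then (1 : ℂ) else 0 := by
  have h1 : om (ee i) (ee j) = MP50e386.frm MP50e386.pis sio (ee i) (ee j) := osf_eq _ _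
  have h2 : MP50e386.frm MP50e386.pis sio (MP50e386.ee i) (MP50e386.ee j) =
      MP50e386.gam MP50e386.pis sio i j := MP50e386.frm_ee i j
  rw [h1]
  exact h2

private theorem x3_om (i j : ℕ) : om (x3w i) (x3w j) = if i = j then (1 : ℂ) else 0 := by
  have hb : ∀ x y : V, om x y = MP50e386.frm MP50e386.pis sio x y := fun x y => osf_eq x y
  have e : ∀ a b : ℕ, MP50e386.frm MP50e386.pis sio (ee a) (ee b) =
      if b = MP50e386.pis a then (1 : ℂ) else 0 := by
    intro a b
    rw [← hb]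
    exact x3_gam a b
  have p1 : MP50e386.pis (2 * i) = 2 * i + 1 := by
    unfold MP50e386.pis
    rw [if_pos (even_two_mul i)]
  have p2 : MP50e386.pis (2 * i + 1) = 2 * i := by
    unfold MP50e386.pis
    rw [if_neg (by rw [Nat.not_even_iff_odd]; exact odd_two_mul_add_one i)]
    omega
  rw [hb]
  unfold x3w
  simp only [map_add, map_smul, LinearMap.add_apply, LinearMap.smul_apply, smul_eq_mul, e, p1, p2]
  by_cases h : i = j
  · subst h
    rw [if_neg (by omega), if_pos rfl, if_pos rfl, if_neg (by omega), if_pos rfl]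
    norm_num
  · rw [if_neg (by omega), if_neg (by omega), if_neg (by omega), if_neg (by omega), if_neg h]
    norm_num

/-- evaluation `τ` on the coefficients, `t ↦ t` -/
private noncomputable def x3E : Polynomial AA →+* Polynomial AA :=
  Polynomial.eval₂RingHom (tauA : AA →+* Polynomial AA) Polynomial.X

private theorem x3E_C (a : AA) : x3E (Polynomial.C a) = tauA a := by
  show Polynomial.eval₂ _ _ _ = _
  rw [Polynomial.eval₂_C]
  rfl

private theorem x3E_X : x3E Polynomial.X = Polynomial.X := by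
  show Polynomial.eval₂ _ _ _ = _
  rw [Polynomial.eval₂_X]

private noncomputable def x3M (r : ℕ) : Matrix (Fin (r + 1)) (Fin (r + 1)) AA :=
  Matrix.of fun i j => (xv (x3w (i : ℕ)) (x3w (j : ℕ)) : AA)

private theorem x3_charpoly (r : ℕ) : x3E (x3M r).charpoly =
    Polynomial.C ((-1) ^ (r + 1) * (x3M r).det) := by
  unfold Matrix.charpoly
  rw [RingHom.map_det]
  have h1 : x3E.mapMatrix (Matrix.charmatrix (x3M r)) =
      (Polynomial.C : AA →+* Polynomial AA).mapMatrix (-(x3M r)) := by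
    ext1 i j
    rw [RingHom.mapMatrix_apply, RingHom.mapMatrix_apply, Matrix.map_apply, Matrix.map_apply,
      Matrix.neg_apply, map_neg]
    have h2 : tauA (x3M r i j) = Polynomial.C (x3M r i j) +
        Polynomial.C (C (if (i : ℕ) = (j : ℕ) then (1 : ℂ) else 0)) * Polynomial.X := by
      unfold x3M
      rw [Matrix.of_apply, tauA_xv, x3_om]
    by_cases hij : i = j
    · subst hij
      rw [Matrix.charmatrix_apply_eq, map_sub, x3E_X, x3E_C, h2, if_pos rfl]
      simp only [map_one, one_mul]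
      ring
    · rw [Matrix.charmatrix_apply_ne _ _ _ hij, map_neg, x3E_C, h2,
        if_neg (fun h => hij (Fin.ext h))]
      simp only [map_zero, zero_mul, add_zero]
  rw [h1, ← RingHom.map_det, Matrix.det_neg, Fintype.card_fin]

theorem int_det (r s : ℕ) : IntP (Jd r s) ((r + 1) * (s + 1)) := by
  set P : Polynomial AA := (x3M r).charpoly ^ (s + 1) with hP
  have hmon : (x3M r).charpoly.Monic := Matrix.charpoly_monic _
  have hdeg : (x3M r).charpoly.natDegree = r + 1 := by
    rw [Matrix.charpoly_natDegree_eq_dim, Fintype.card_fin]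
  have hPm : P.Monic := hmon.pow (s + 1)
  have hPd : P.natDegree = (r + 1) * (s + 1) := by
    rw [hP, hmon.natDegree_pow, hdeg, mul_comm]
  refine ⟨fun k => -P.coeff k, ?_⟩
  have h1 : x3E P = Polynomial.X ^ ((r + 1) * (s + 1)) -
      ∑ k ∈ Finset.range ((r + 1) * (s + 1)), Polynomial.X ^ k * tauA (-P.coeff k) := by
    have h2 : x3E P = ∑ k ∈ Finset.range ((r + 1) * (s + 1) + 1),
        (tauA (P.coeff k) : Polynomial AA) * Polynomial.X ^ k := by
      show Polynomial.eval₂ _ _ _ = _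
      rw [Polynomial.eval₂_eq_sum_range, hPd]
      rfl
    have h3 : P.coeff ((r + 1) * (s + 1)) = 1 := by
      rw [← hPd]
      exact hPm
    rw [h2, Finset.sum_range_succ, h3, map_one, one_mul, add_comm, sub_eq_add_neg,
      ← Finset.sum_neg_distrib]
    congr 1
    apply Finset.sum_congr rfl
    intro k _
    rw [map_neg]
    ring
  rw [← h1, hP, map_pow, x3_charpoly, ← map_pow]
  apply Ideal.mem_map_of_mem
  rw [mul_pow]
  apply Ideal.mul_mem_left
  apply Ideal.subset_span
  refine ⟨fun i => x3w (i : ℕ), ?_⟩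
  have h4 : x3M r = Matrix.of fun i j : Fin (r + 1) =>
      MP50e386.bil (x3w (i : ℕ)) (x3w (j : ℕ)) := by
    unfold x3M
    ext1 i j
    rw [Matrix.of_apply, Matrix.of_apply, xv_A]
  rw [h4]

private theorem x3_pow {R B : Type} [CommRing R] [CommRing B] (f : R →+* B) (I : Ideal B) (t : B)
    {m : ℕ} (q : ℕ → R) (hq : t ^ m - ∑ k ∈ Finset.range m, t ^ k * f (q k) ∈ I) (k : ℕ) :
    ∃ p : ℕ → R, t ^ k - ∑ l ∈ Finset.range m, t ^ l * f (p l) ∈ I := by
  rcases m with _ | n
  · refine ⟨fun _ => 0, ?_⟩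
    rw [Finset.range_zero, Finset.sum_empty, sub_zero] at hq ⊢
    rw [pow_zero] at hq
    have := Ideal.mul_mem_left _ (t ^ k) hq
    rwa [mul_one] at this
  · induction k with
    | zero =>
      refine ⟨fun l => if l = 0 then 1 else 0, ?_⟩
      have h1 : ∑ l ∈ Finset.range (n + 1), t ^ l * f (if l = 0 then (1 : R) else 0) = 1 := by
        rw [Finset.sum_eq_single 0]
        · rw [if_pos rfl, map_one, pow_zero, one_mul]
        · intro b _ hb
          rw [if_neg hb, map_zero, mul_zero]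
        · intro h0
          exact absurd (Finset.mem_range.2 (Nat.succ_pos n)) h0
      rw [h1, pow_zero, sub_self]
      exact Ideal.zero_mem _
    | succ k ih =>
      obtain ⟨p, hp⟩ := ih
      refine ⟨fun l => (if l = 0 then 0 else p (l - 1)) + q l * p n, ?_⟩
      have h1 : ∑ l ∈ Finset.range (n + 1), t ^ l *
          f ((if l = 0 then 0 else p (l - 1)) + q l * p n) =
          ∑ l ∈ Finset.range n, t ^ (l + 1) * f (p l) +
            (∑ l ∈ Finset.range (n + 1), t ^ l * f (q l)) * f (p n) := by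
        rw [Finset.sum_mul]
        have h2 : ∑ l ∈ Finset.range n, t ^ (l + 1) * f (p l) =
            ∑ l ∈ Finset.range (n + 1), t ^ l * f (if l = 0 then 0 else p (l - 1)) := by
          rw [Finset.sum_range_succ', if_pos rfl, map_zero, mul_zero, add_zero]
          apply Finset.sum_congr rfl
          intro l _
          rw [if_neg (Nat.succ_ne_zero l), Nat.add_sub_cancel]
        rw [h2, ← Finset.sum_add_distrib]
        apply Finset.sum_congr rfl
        intro l _
        rw [map_add, map_mul]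
        ring
      rw [h1]
      have h3 := Ideal.mul_mem_left _ t hp
      have h4 := Ideal.mul_mem_right (f (p n)) _ hq
      have h5 := Ideal.add_mem _ h3 h4
      have h7 : t * ∑ l ∈ Finset.range (n + 1), t ^ l * f (p l) =
          ∑ l ∈ Finset.range n, t ^ (l + 1) * f (p l) + t ^ (n + 1) * f (p n) := by
        rw [Finset.mul_sum, Finset.sum_range_succ]
        congr 1
        · apply Finset.sum_congr rfl
          intro l _
          ring
        · ring
      have h6 : t * (t ^ k - ∑ l ∈ Finset.range (n + 1), t ^ l * f (p l)) +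
          (t ^ (n + 1) - ∑ l ∈ Finset.range (n + 1), t ^ l * f (q l)) * f (p n) =
          t ^ (k + 1) - (∑ l ∈ Finset.range n, t ^ (l + 1) * f (p l) +
            (∑ l ∈ Finset.range (n + 1), t ^ l * f (q l)) * f (p n)) := by
        rw [mul_sub, h7]
        ring
      rw [h6] at h5
      exact h5

/-- all powers of `t` are combinations of the first `m` ones -/
theorem IntP.pow {J : Ideal AA} {m : ℕ} (h : IntP J m) (k : ℕ) :
    ∃ p : ℕ → AA, Polynomial.X ^ k - ∑ l ∈ Finset.range m, Polynomial.X ^ l * tauA (p l) ∈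
      Ideal.map Polynomial.C J := by
  obtain ⟨q, hq⟩ := h
  exact x3_pow (tauA : AA →+* Polynomial AA) _ _ q hq k

end MP50e386O
end

section
/-! Hilbert basis theorem for `M_S(A/J)[t]`. -/

namespace MP50e386O

open MvPolynomial Pool.Agent.Lib.MP50e386 MP50e386N

/-- leading coefficients of degree `d` -/
private noncomputable def x4L (Y : Submodule ℂ (Polynomial (U AA))) (hY : GX Y) (d : ℕ) :
    Submodule AA (U AA) where
  carrier := {u | ∃ P ∈ Y, (∀ k, d < k → P.coeff k = 0) ∧ P.coeff d = u}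
  zero_mem' := ⟨0, Submodule.zero_mem _, fun k _ => Polynomial.coeff_zero k,
    Polynomial.coeff_zero d⟩
  add_mem' := by
    rintro a b ⟨P, hP, hP1, hP2⟩ ⟨Q, hQ, hQ1, hQ2⟩
    refine ⟨P + Q, Submodule.add_mem _ hP hQ, fun k hk => ?_, ?_⟩
    · rw [Polynomial.coeff_add, hP1 k hk, hQ1 k hk, add_zero]
    · rw [Polynomial.coeff_add, hP2, hQ2]
  smul_mem' := by
    rintro c a ⟨P, hP, hP1, hP2⟩
    refine ⟨Polynomial.C (C c) * P, hY.1 c P hP, fun k hk => ?_, ?_⟩
    · rw [Polynomial.coeff_C_mul, hP1 k hk, mul_zero]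
    · rw [Polynomial.coeff_C_mul, hP2, MvPolynomial.smul_eq_C_mul]

private theorem x4_mem {Y : Submodule ℂ (Polynomial (U AA))} {hY : GX Y} {d : ℕ} {u : U AA} :
    u ∈ x4L Y hY d ↔ ∃ P ∈ Y, (∀ k, d < k → P.coeff k = 0) ∧ P.coeff d = u := Iff.rfl

private theorem x4_gs (Y : Submodule ℂ (Polynomial (U AA))) (hY : GX Y) (d : ℕ) :
    GS (x4L Y hY d) := by
  intro g hg c hc f hf
  obtain ⟨P, hP, hP1, hP2⟩ := x4_mem.1 hf
  have h1 := hY.2.2 g hg c hc P hP
  refine x4_mem.2 ⟨((c ^ 2) ^ d)⁻¹ • actP (fun i => c • g (ee i)) (c ^ 2) P,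
    Submodule.smul_mem _ _ h1, fun k hk => ?_, ?_⟩
  · rw [Polynomial.coeff_smul, actP_coeff, hP1 k hk, map_zero, smul_zero, smul_zero]
  · have hne : (c ^ 2) ^ d ≠ 0 := pow_ne_zero _ (pow_ne_zero _ hc)
    rw [Polynomial.coeff_smul, actP_coeff, hP2, smul_smul, inv_mul_cancel₀ hne, one_smul]

private theorem x4_mono {Y Z : Submodule ℂ (Polynomial (U AA))} (hY : GX Y) (hZ : GX Z)
    (h : Y ≤ Z) (d : ℕ) : x4L Y hY d ≤ x4L Z hZ d := by
  intro u hu
  obtain ⟨P, hP, hP1, hP2⟩ := x4_mem.1 hu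
  exact x4_mem.2 ⟨P, h hP, hP1, hP2⟩

private theorem x4_succ (Y : Submodule ℂ (Polynomial (U AA))) (hY : GX Y) (d : ℕ) :
    x4L Y hY d ≤ x4L Y hY (d + 1) := by
  intro u hu
  obtain ⟨P, hP, hP1, hP2⟩ := x4_mem.1 hu
  refine x4_mem.2 ⟨Polynomial.X * P, hY.2.1 P hP, fun k hk => ?_, ?_⟩
  · obtain ⟨k, rfl⟩ : ∃ j, k = j + 1 := ⟨k - 1, by omega⟩
    rw [Polynomial.coeff_X_mul, hP1 k (by omega)]
  · rw [Polynomial.coeff_X_mul, hP2]

private theorem x4_monod (Y : Submodule ℂ (Polynomial (U AA))) (hY : GX Y) :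
    Monotone (x4L Y hY) := monotone_nat_of_le_succ (x4_succ Y hY)

theorem hilbert (J : Ideal AA) (hJ : NI J) (S : Finset ℕ)
    (Y : ℕ → Submodule ℂ (Polynomial (U AA))) (hmono : Monotone Y) (hY : ∀ i, GX (Y i))
    (hlow : ∀ i, ∀ P : Polynomial (U AA), (∀ k, P.coeff k ∈ J • MS AA S) → P ∈ Y i)
    (hup : ∀ i, ∀ P ∈ Y i, ∀ k, P.coeff k ∈ MS AA S) :
    ∃ n0, ∀ n ≥ n0, Y n = Y n0 := by
  classical
  have hbd : ∀ i d, GS (x4L (Y i) (hY i) d) ∧ J • MS AA S ≤ x4L (Y i) (hY i) d ∧
      x4L (Y i) (hY i) d ≤ MS AA S := by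
    intro i d
    refine ⟨x4_gs _ _ _, ?_, ?_⟩
    · intro u hu
      refine x4_mem.2 ⟨Polynomial.monomial d u, hlow i _ (fun k => ?_), fun k hk => ?_, ?_⟩
      · rw [Polynomial.coeff_monomial]
        split_ifs
        · exact hu
        · exact Submodule.zero_mem _
      · rw [Polynomial.coeff_monomial, if_neg (by omega)]
      · rw [Polynomial.coeff_monomial, if_pos rfl]
    · intro u hu
      obtain ⟨P, hP, -, hP2⟩ := x4_mem.1 hu
      rw [← hP2]
      exact hup i P hP d
  -- the diagonal chain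
  obtain ⟨d0, hd0⟩ := hJ S (fun i => x4L (Y i) (hY i) i) (by
    apply monotone_nat_of_le_succ
    intro i
    exact (x4_succ _ _ _).trans (x4_mono _ _ (hmono (Nat.le_succ i)) _)) (fun i => hbd i i)
  have hdiag : ∀ d i, d0 ≤ d → d0 ≤ i → x4L (Y i) (hY i) d = x4L (Y d0) (hY d0) d0 := by
    intro d i hd hi
    apply le_antisymm
    · have h1 : x4L (Y i) (hY i) d ≤ x4L (Y (max d i)) (hY _) (max d i) :=
        (x4_mono _ _ (hmono (le_max_right _ _)) _).trans (x4_monod _ _ (le_max_left _ _))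
      refine h1.trans (le_of_eq ?_)
      exact hd0 (max d i) (hd.trans (le_max_left _ _))
    · exact (x4_mono _ _ (hmono hi) _).trans (x4_monod _ _ hd)
  have hsmall : ∀ d : ℕ, ∃ i0, ∀ i ≥ i0, x4L (Y i) (hY i) d = x4L (Y i0) (hY i0) d := by
    intro d
    exact hJ S (fun i => x4L (Y i) (hY i) d) (fun i j hij => x4_mono _ _ (hmono hij) _)
      (fun i => hbd i d)
  choose i0 hi0 using hsmall
  refine ⟨max d0 ((Finset.range d0).sup i0), fun n hn => ?_⟩
  set n0 := max d0 ((Finset.range d0).sup i0) with hn0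
  have hd0n0 : d0 ≤ n0 := le_max_left _ _
  have heq : ∀ d, x4L (Y n) (hY n) d = x4L (Y n0) (hY n0) d := by
    intro d
    by_cases hd : d0 ≤ d
    · rw [hdiag d n hd (hd0n0.trans hn), hdiag d n0 hd hd0n0]
    · have h1 : i0 d ≤ n0 :=
        (Finset.le_sup (f := i0) (Finset.mem_range.2 (by omega))).trans (le_max_right _ _)
      rw [hi0 d n (h1.trans hn), hi0 d n0 h1]
  apply le_antisymm _ (hmono hn)
  have key : ∀ d, ∀ P ∈ Y n, (∀ k, d ≤ k → P.coeff k = 0) → P ∈ Y n0 := by
    intro d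
    induction d with
    | zero =>
      intro P _ h0
      have : P = 0 := Polynomial.ext fun k => by rw [h0 k (Nat.zero_le _), Polynomial.coeff_zero]
      rw [this]
      exact Submodule.zero_mem _
    | succ d ih =>
      intro P hP h0
      have h1 : P.coeff d ∈ x4L (Y n) (hY n) d :=
        x4_mem.2 ⟨P, hP, fun k hk => h0 k (by omega), rfl⟩
      rw [heq d] at h1
      obtain ⟨Q, hQ, hQ1, hQ2⟩ := x4_mem.1 h1
      have h2 : P - Q ∈ Y n0 := by
        apply ih (P - Q) (Submodule.sub_mem _ hP (hmono hn hQ))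
        intro k hk
        rw [Polynomial.coeff_sub]
        rcases Nat.eq_or_lt_of_le hk with h | h
        · rw [← h, hQ2, sub_self]
        · rw [h0 k (by omega), hQ1 k h, sub_self]
      have h3 : P = P - Q + Q := by rw [sub_add_cancel]
      rw [h3]
      exact Submodule.add_mem _ h2 hQ
  intro P hP
  apply key (P.natDegree + 1) P hP
  intro k hk
  exact Polynomial.coeff_eq_zero_of_natDegree_lt (by omega)

end MP50e386O
end

section
/-! Purity; two pieces. -/

namespace MP50e386O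

open MvPolynomial Pool.Agent.Lib.MP50e386 MP50e386N

/-- purity: `W` a `ℂ`-subspace of the polynomials with complex coefficients -/
theorem purity (𝔞 : Ideal AA) (W : Submodule ℂ (U AA))
    (hW : ∀ f ∈ W, f ∈ (MvPolynomial.map (algebraMap ℂ AA) : MvPolynomial (ℕ × ℕ) ℂ →+* U AA).range)
    (f : U AA) (hf : f ∈ Submodule.span AA (W : Set (U AA))) (hf' : ∀ m, coeff m f ∈ 𝔞) :
    f ∈ 𝔞 • Submodule.span AA (W : Set (U AA)) := by
  set io : MvPolynomial (ℕ × ℕ) ℂ →ₗ[ℂ] U AA :=
    (MvPolynomial.mapAlgHom (Algebra.ofId ℂ AA)).toLinearMap with hio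
  have hio' : ∀ g, io g = MvPolynomial.map (algebraMap ℂ AA) g := fun g => rfl
  set W0 : Submodule ℂ (MvPolynomial (ℕ × ℕ) ℂ) := W.comap io with hW0
  obtain ⟨p, hp⟩ := LinearMap.exists_leftInverse_of_injective W0.subtype W0.ker_subtype
  have hp' : ∀ g : W0, (p (g : MvPolynomial (ℕ × ℕ) ℂ)) = g := fun g =>
    LinearMap.congr_fun hp g
  set pA : U AA →ₗ[AA] U AA := (basisMonomials (ℕ × ℕ) AA).constr AA
    (fun m => io ((p (monomial m 1) : W0) : MvPolynomial (ℕ × ℕ) ℂ)) with hpA
  have hmon : ∀ m : (ℕ × ℕ) →₀ ℕ, pA (monomial m 1)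
      = io ((p (monomial m 1) : W0) : MvPolynomial (ℕ × ℕ) ℂ) := by
    intro m
    have h := (basisMonomials (ℕ × ℕ) AA).constr_basis AA
      (fun m => io ((p (monomial m 1) : W0) : MvPolynomial (ℕ × ℕ) ℂ)) m
    rwa [coe_basisMonomials] at h
  have hlin : (pA.restrictScalars ℂ) ∘ₗ io = io ∘ₗ W0.subtype ∘ₗ p := by
    apply (basisMonomials (ℕ × ℕ) ℂ).ext
    intro m
    rw [coe_basisMonomials]
    simp only [LinearMap.comp_apply, LinearMap.restrictScalars_apply, Submodule.subtype_apply]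
    have e : io (monomial m 1) = monomial m 1 := by
      rw [hio', map_monomial, map_one]
    rw [e, hmon]
  have hWfix : ∀ w ∈ W, pA w = w := by
    intro w hw
    obtain ⟨g, hg⟩ := hW w hw
    have hg' : io g = w := hg
    have hgW : g ∈ W0 := by
      change io g ∈ W
      rw [hg']; exact hw
    have h1 := LinearMap.congr_fun hlin g
    simp only [LinearMap.comp_apply, LinearMap.restrictScalars_apply, Submodule.subtype_apply,
      hg'] at h1
    rw [h1, hp' ⟨g, hgW⟩]
    exact hg'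
  have hfix : pA f = f := by
    have h1 : Set.EqOn pA (LinearMap.id : U AA →ₗ[AA] U AA) (Submodule.span AA (W : Set (U AA))) :=
      LinearMap.eqOn_span (fun w hw => hWfix w hw)
    exact h1 hf
  rw [← hfix, f.as_sum, map_sum]
  refine Submodule.sum_mem _ fun m _ => ?_
  have e : (monomial m (coeff m f) : U AA) = coeff m f • monomial m 1 := by
    rw [smul_monomial, smul_eq_mul, mul_one]
  rw [e, map_smul, hmon]
  refine Submodule.smul_mem_smul (hf' m) (Submodule.subset_span ?_)
  exact (p (monomial m 1)).2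

/-- two pieces -/
theorem NoethInt_sup {X₁ Y₁ X₂ Y₂ : Submodule AA (U AA)} (hY₁ : GS Y₁) (hY₂ : GS Y₂)
    (hXY₁ : X₁ ≤ Y₁) (hXY₂ : X₂ ≤ Y₂) (h₁ : NoethInt GS X₁ Y₁) (h₂ : NoethInt GS X₂ Y₂) :
    NoethInt (R := AA) GS (X₁ ⊔ X₂) (Y₁ ⊔ Y₂) := by
  intro N hmono hN
  obtain ⟨n1, hn1⟩ := h₁ (fun i => N i ⊓ Y₁) (fun i j hij => inf_le_inf_right _ (hmono hij))
    (fun i => ⟨GS.inf (hN i).1 hY₁, le_inf (le_sup_left.trans (hN i).2.1) hXY₁, inf_le_right⟩)
  obtain ⟨n2, hn2⟩ := h₂ (fun i => (N i ⊔ Y₁) ⊓ Y₂)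
    (fun i j hij => inf_le_inf_right _ (sup_le_sup_right (hmono hij) _))
    (fun i => ⟨GS.inf (GS.sup (hN i).1 hY₁) hY₂,
      le_inf ((le_sup_right.trans (hN i).2.1).trans le_sup_left) hXY₂, inf_le_right⟩)
  have hdec : ∀ i, N i ⊔ Y₁ = ((N i ⊔ Y₁) ⊓ Y₂) ⊔ Y₁ := by
    intro i
    have h3 : N i ⊔ Y₁ ≤ Y₁ ⊔ Y₂ := sup_le (hN i).2.2 le_sup_left
    have h4 : Y₁ ⊔ Y₂ ⊓ (N i ⊔ Y₁) = (Y₁ ⊔ Y₂) ⊓ (N i ⊔ Y₁) :=
      (sup_inf_assoc_of_le Y₂ le_sup_right).symm
    rw [inf_comm (N i ⊔ Y₁) Y₂, sup_comm (Y₂ ⊓ (N i ⊔ Y₁)) Y₁, h4, inf_eq_right.2 h3]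
  refine ⟨max n1 n2, fun n hn => ?_⟩
  have ha : N n ⊓ Y₁ = N (max n1 n2) ⊓ Y₁ :=
    (hn1 n ((le_max_left _ _).trans hn)).trans (hn1 (max n1 n2) (le_max_left _ _)).symm
  have hb : N n ⊔ Y₁ = N (max n1 n2) ⊔ Y₁ := by
    rw [hdec n, hdec (max n1 n2)]
    have h5 : (N n ⊔ Y₁) ⊓ Y₂ = (N (max n1 n2) ⊔ Y₁) ⊓ Y₂ :=
      (hn2 n ((le_max_right _ _).trans hn)).trans (hn2 (max n1 n2) (le_max_right _ _)).symm
    rw [h5]
  exact (eq_of_le_of_inf_le_of_sup_le (hmono hn) ha.le hb.le).symm

end MP50e386O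
end

section
/-! The cover of `M_S(A)` in one weight. -/

namespace MP50e386O

open MvPolynomial Pool.Agent.Lib.MP50e386 MP50e386N

private theorem x5_cst (c : ℂ) (i : ℕ) : (cst (c • ee i) : VR AA) =
    Finsupp.single i (algebraMap ℂ AA c) := by
  unfold cst
  simp [Finsupp.mapRange.linearMap_apply, Finsupp.mapRange_single]

private theorem x5_cst_ee (i : ℕ) : (cst (ee i) : VR AA) = Finsupp.single i 1 := by
  have := x5_cst 1 i
  rwa [one_smul, map_one] at this

private theorem x5_MW_X (a i : ℕ) : MW (Finsupp.single i 1) (X (a, i) : U AA) := by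
  intro t
  rw [sbC_X, x5_cst, zf_single, algebraMap_smul]
  congr 1
  exact ((Finsupp.prod_single_index (h := fun i k => t i ^ k) (pow_zero _)).trans (pow_one _)).symm

private theorem x5_MW_x (i j : ℕ) :
    MW (Finsupp.single i 1 + Finsupp.single j 1) (C (X s(i, j)) : U AA) := by
  intro t
  have h0 : (Finsupp.single i 1 + Finsupp.single j 1 : ℕ →₀ ℕ).prod (fun i k => t i ^ k) =
      t i * t j := by
    rw [Finsupp.prod_add_index' (fun _ => pow_zero _) (fun _ _ _ => pow_add _ _ _)]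
    exact congrArg₂ (· * ·)
      ((Finsupp.prod_single_index (h := fun i k => t i ^ k) (pow_zero _)).trans (pow_one _))
      ((Finsupp.prod_single_index (h := fun i k => t i ^ k) (pow_zero _)).trans (pow_one _))
  rw [sbC_C, h0]
  have h2 : sbR (fun i => t i • ee i) (X s(i, j) : AA) = (t i * t j) • (X s(i, j) : AA) := by
    have h3 : (X s(i, j) : AA) = GLRing.x i j := rfl
    unfold sbR
    rw [h3, sb_x', x5_cst, x5_cst, xf_single, Algebra.smul_def, map_mul]
  rw [h2, Algebra.smul_def, C_mul, Algebra.smul_def]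
  rfl

private theorem x5_MW_one : MW 0 (1 : U AA) := by
  intro t
  rw [Finsupp.prod_zero_index, one_smul, map_one]

private theorem x5_MW_prod {ι : Type} (s : Finset ι) (κ : ι → ℕ →₀ ℕ) (f : ι → U AA)
    (h : ∀ i ∈ s, MW (κ i) (f i)) : MW (∑ i ∈ s, κ i) (∏ i ∈ s, f i) := by
  classical
  induction s using Finset.induction_on with
  | empty => rw [Finset.sum_empty, Finset.prod_empty]; exact x5_MW_one
  | insert a s ha ih =>
    rw [Finset.sum_insert ha, Finset.prod_insert ha]
    exact MW_mul (h a (Finset.mem_insert_self _ _)) (ih fun i hi => h i (Finset.mem_insert_of_mem hi))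

private noncomputable def x5idx (S : Finset ℕ) (a : ℕ) : ℕ :=
  if h : a ∈ S then (S.equivFin ⟨a, h⟩ : ℕ) else 0

private theorem x5idx_lt (S : Finset ℕ) {a : ℕ} (ha : a ∈ S) : x5idx S a < S.card := by
  unfold x5idx; rw [dif_pos ha]; exact (S.equivFin ⟨a, ha⟩).2

private theorem x5idx_sum (S : Finset ℕ) {M : Type} [AddCommMonoid M] (F : ℕ → M) :
    ∑ a ∈ S, F (x5idx S a) = ∑ t ∈ Finset.range S.card, F t := by
  rw [← Finset.sum_coe_sort, Finset.sum_range]
  refine Fintype.sum_equiv S.equivFin _ _ fun a => ?_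
  unfold x5idx
  rw [dif_pos a.2]

/-- the cover element -/
private noncomputable def x5g (S : Finset ℕ) (k : ℕ) : U AA :=
  (∏ i ∈ Finset.range k, C (X s(2 * i, 2 * i + 1))) * ∏ a ∈ S, X (a, 2 * k + x5idx S a)

private theorem x5_ML (S : Finset ℕ) (k : ℕ) : ML (2 * k + S.card) (x5g S k) := by
  unfold ML x5g
  have h1 : (∑ i ∈ Finset.range (2 * k + S.card), Finsupp.single i 1 : ℕ →₀ ℕ) =
      (∑ i ∈ Finset.range k, (Finsupp.single (2 * i) 1 + Finsupp.single (2 * i + 1) 1)) +
      ∑ a ∈ S, Finsupp.single (2 * k + x5idx S a) 1 := by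
    rw [Finset.sum_range_add, x5idx_sum S (fun t => (Finsupp.single (2 * k + t) 1 : ℕ →₀ ℕ))]
    congr 1
    clear S
    induction k with
    | zero => simp
    | succ k ih =>
      rw [Finset.sum_range_succ, ← ih, show 2 * (k + 1) = 2 * k + 1 + 1 by ring,
        Finset.sum_range_succ, Finset.sum_range_succ, add_assoc]
  rw [h1]
  exact MW_mul (x5_MW_prod _ _ _ fun i _ => x5_MW_x _ _) (x5_MW_prod _ _ _ fun a _ => x5_MW_X _ _)

private theorem x5_sdeg_add (a : ℕ) (m m' : ℕ × ℕ →₀ ℕ) :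
    sdeg a (m + m') = sdeg a m + sdeg a m' := by
  unfold sdeg
  refine Finsupp.sum_add_index' ?_ ?_
  · intro p; simp
  · intro p b c; split_ifs <;> simp

private theorem x5_sdeg_zero (a : ℕ) : sdeg a (0 : ℕ × ℕ →₀ ℕ) = 0 := by
  unfold sdeg; exact Finsupp.sum_zero_index

private theorem x5_sdeg_single (a : ℕ) (p : ℕ × ℕ) :
    sdeg a (Finsupp.single p 1) = if p.1 = a then 1 else 0 := by
  unfold sdeg
  rw [Finsupp.sum_single_index]
  simp

private theorem x5_sdeg_sum (a : ℕ) (s : Finset ℕ) (f : ℕ → (ℕ × ℕ →₀ ℕ)) :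
    sdeg a (∑ k ∈ s, f k) = ∑ k ∈ s, sdeg a (f k) := by
  classical
  induction s using Finset.induction_on with
  | empty => rw [Finset.sum_empty, Finset.sum_empty, x5_sdeg_zero]
  | insert k s hk ih => rw [Finset.sum_insert hk, Finset.sum_insert hk, x5_sdeg_add, ih]

private theorem x5_prod_X (S : Finset ℕ) (b : ℕ → ℕ) :
    (∏ a ∈ S, X (a, b a) : U AA) = monomial (∑ a ∈ S, Finsupp.single (a, b a) 1) 1 := by
  rw [monomial_sum_one]
  rfl

private theorem x5_mem (S : Finset ℕ) (k : ℕ) : x5g S k ∈ MS AA S := by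
  unfold x5g
  rw [← map_prod, ← smul_eq_C_mul]
  refine Submodule.smul_mem _ _ ?_
  rw [x5_prod_X S (fun a => 2 * k + x5idx S a)]
  refine (monomial_mem_restrictSupport AA).2 (Or.inl fun a => ?_)
  rw [x5_sdeg_sum]
  simp only [x5_sdeg_single]
  rw [Finset.sum_ite_eq']

private theorem x5_sdeg_pos {a : ℕ} {m : ℕ × ℕ →₀ ℕ} (h : sdeg a m = 1) :
    ∃ j : ℕ, m (a, j) = 1 ∧ ∀ j', m (a, j') ≠ 0 → j' = j := by
  classical
  unfold sdeg at h
  rw [Finsupp.sum] at h
  have h1 : ∃ p ∈ m.support, (if p.1 = a then m p else 0) ≠ 0 := by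
    by_contra hc
    push Not at hc
    rw [Finset.sum_eq_zero hc] at h
    exact zero_ne_one h
  obtain ⟨p, hp, hne⟩ := h1
  have hpa : p.1 = a := by
    by_contra hc
    rw [if_neg hc] at hne
    exact hne rfl
  rw [← Finset.add_sum_erase _ _ hp, if_pos hpa] at h
  rw [if_pos hpa] at hne
  have hp' : p = (a, p.2) := Prod.ext hpa rfl
  have h2 : m p = 1 := by omega
  have h3 : ∑ q ∈ m.support.erase p, (if q.1 = a then m q else 0) = 0 := by omega
  refine ⟨p.2, by rw [← hp']; exact h2, fun j' hj' => ?_⟩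
  by_contra hc
  rw [Finset.sum_eq_zero_iff] at h3
  have h4 := h3 (a, j') (by
    rw [Finset.mem_erase, Finsupp.mem_support_iff]
    refine ⟨fun he => hc ?_, hj'⟩
    rw [← he])
  rw [if_pos rfl] at h4
  exact hj' h4

private theorem x5_struct {S : Finset ℕ} {m : ℕ × ℕ →₀ ℕ}
    (hm : ∀ a, sdeg a m = if a ∈ S then 1 else 0) :
    ∃ j : ℕ → ℕ, m = ∑ a ∈ S, Finsupp.single (a, j a) 1 := by
  classical
  have h1 : ∀ a, a ∈ S → ∃ j : ℕ, m (a, j) = 1 ∧ ∀ j', m (a, j') ≠ 0 → j' = j := by
    intro a ha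
    apply x5_sdeg_pos
    rw [hm, if_pos ha]
  choose! j hj using h1
  refine ⟨j, ?_⟩
  ext ⟨a, i⟩
  rw [Finsupp.finsetSum_apply]
  by_cases ha : a ∈ S
  · rw [Finset.sum_eq_single_of_mem a ha]
    · by_cases hi : i = j a
      · rw [hi, Finsupp.single_eq_same, (hj a ha).1]
      · rw [Finsupp.single_apply, if_neg]
        · by_contra hc
          exact hi ((hj a ha).2 i hc)
        · intro h
          exact hi (Prod.ext_iff.1 h).2.symm
    · intro k' hk'' hne
      rw [Finsupp.single_apply, if_neg]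
      intro h
      exact hne (Prod.ext_iff.1 h).1
  · have h2 : m (a, i) = 0 := by
      by_contra hc
      have h3 := hm a
      rw [if_neg ha] at h3
      unfold sdeg at h3
      rw [Finsupp.sum, Finset.sum_eq_zero_iff] at h3
      have h4 := h3 (a, i) (Finsupp.mem_support_iff.2 hc)
      rw [if_pos rfl] at h4
      exact hc h4
    rw [h2]
    symm
    refine Finset.sum_eq_zero fun k hk => ?_
    rw [Finsupp.single_apply, if_neg]
    intro h
    apply ha
    have h' : k = a := (Prod.ext_iff.1 h).1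
    rw [← h']
    exact hk

private theorem x5_word (k : ℕ) : ∀ μ : Sym2 ℕ →₀ ℕ, μ.degree = k →
    ∃ s : ℕ → Sym2 ℕ, μ = ∑ i ∈ Finset.range k, Finsupp.single (s i) 1 := by
  classical
  induction k with
  | zero =>
    intro μ h
    refine ⟨fun _ => s(0, 0), ?_⟩
    rw [Finset.range_zero, Finset.sum_empty]
    exact (Finsupp.degree_eq_zero_iff μ).1 h
  | succ k ih =>
    intro μ h
    have h0 : μ ≠ 0 := by
      rintro rfl
      rw [map_zero] at h
      omega
    obtain ⟨t, ht⟩ := Finsupp.support_nonempty_iff.2 h0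
    have h1 : Finsupp.single t 1 ≤ μ := by
      rw [Finsupp.single_le_iff]
      exact Nat.one_le_iff_ne_zero.2 (Finsupp.mem_support_iff.1 ht)
    have h2 : μ = (μ - Finsupp.single t 1) + Finsupp.single t 1 := (tsub_add_cancel_of_le h1).symm
    have h3 : (μ - Finsupp.single t 1).degree = k := by
      have := congrArg Finsupp.degree h2
      rw [map_add, Finsupp.degree_single, h] at this
      omega
    obtain ⟨s, hs⟩ := ih _ h3
    refine ⟨fun i => if i < k then s i else t, ?_⟩
    have e1 : ∀ i ∈ Finset.range k, (Finsupp.single (s i) 1 : Sym2 ℕ →₀ ℕ) =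
        Finsupp.single ((fun i => if i < k then s i else t) i) 1 := by
      intro i hi
      simp only [if_pos (Finset.mem_range.1 hi)]
    rw [Finset.sum_range_succ, ← Finset.sum_congr rfl e1, ← hs]
    simp only [lt_irrefl, if_false]
    exact h2

private theorem x5_sbR_monomial (c : ℂ) (μ : Sym2 ℕ →₀ ℕ) (r : ℂ) :
    sbR (fun i => c • ee i) (monomial μ r : AA) = c ^ (2 * μ.degree) • (monomial μ r : AA) := by
  have hX : ∀ s : Sym2 ℕ, sbR (fun i => c • ee i) (X s : AA) = C (c ^ 2) * X s := by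
    intro s
    induction s using Sym2.ind with
    | _ i j =>
      have h3 : (X s(i, j) : AA) = GLRing.x i j := rfl
      unfold sbR
      rw [h3, sb_x', x5_cst, x5_cst, xf_single, pow_two, C_mul]
      rfl
  have h1 : (∏ s ∈ μ.support, (C (c ^ 2) : AA) ^ μ s) = C (c ^ (2 * μ.degree)) := by
    rw [Finset.prod_pow_eq_pow_sum, ← Finsupp.degree_apply, ← C_pow, pow_mul]
  have h2 : sbR (fun i => c • ee i) (C r : AA) = C r := AlgHom.commutes _ _
  rw [smul_eq_C_mul, ← h1]
  generalize (C (c ^ 2) : AA) = D at hX h1 ⊢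
  rw [monomial_eq, map_mul, Finsupp.prod, map_prod]
  simp only [map_pow, hX, mul_pow]
  rw [Finset.prod_mul_distrib, h2]
  ring

private theorem x5_sbC_monomial (c : ℂ) (m : ℕ × ℕ →₀ ℕ) (a : AA) :
    sbC (fun i => c • ee i) (monomial m a : U AA) =
      monomial m (c ^ m.degree • sbR (fun i => c • ee i) a) := by
  rw [monomial_eq, map_mul, Finsupp.prod, map_prod]
  have hX : ∀ p : ℕ × ℕ, sbC (fun i => c • ee i) (X p : U AA) = C (algebraMap ℂ AA c) * X p := by
    rintro ⟨a, i⟩
    rw [sbC_X, x5_cst, zf_single, smul_eq_C_mul]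
  simp only [map_pow, hX, mul_pow]
  rw [Finset.prod_mul_distrib, sbC_C]
  have h1 : (∏ p ∈ m.support, (C (algebraMap ℂ AA c) : U AA) ^ m p) =
      C (algebraMap ℂ AA (c ^ m.degree)) := by
    rw [Finset.prod_pow_eq_pow_sum, ← Finsupp.degree_apply, ← C_pow, ← map_pow]
  rw [h1, monomial_eq, Algebra.smul_def, C_mul, Finsupp.prod]
  ring

private theorem x5_weight {S : Finset ℕ} {e : ℕ} {f : U AA} (hf : f ∈ MS AA S) (hw : HW e f)
    {m : ℕ × ℕ →₀ ℕ} (hm : m ∈ f.support) {μ : Sym2 ℕ →₀ ℕ} (hμ : μ ∈ (coeff m f).support) :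
    e = 2 * μ.degree + S.card := by
  classical
  have hmS : ∀ a, sdeg a m = if a ∈ S then 1 else 0 :=
    ((mem_restrictSupport_iff AA).1 hf) (by exact_mod_cast hm)
  obtain ⟨j, hj⟩ := x5_struct hmS
  have hd : m.degree = S.card := by
    rw [hj, map_sum]
    simp only [Finsupp.degree_single]
    rw [Finset.sum_const, smul_eq_mul, mul_one]
  have h1 := hw 2
  have h2 : sbC (fun i => (2 : ℂ) • ee i) f =
      ∑ m ∈ f.support, monomial m ((2 : ℂ) ^ m.degree • sbR (fun i => (2 : ℂ) • ee i) (coeff m f)) := by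
    conv_lhs => rw [f.as_sum]
    rw [map_sum]
    exact Finset.sum_congr rfl fun m _ => x5_sbC_monomial _ _ _
  rw [h2] at h1
  have h3 := congrArg (coeff m) h1
  rw [coeff_sum, Finset.sum_eq_single_of_mem m hm, coeff_monomial, if_pos rfl, coeff_smul] at h3
  swap
  · intro m' _ hne
    rw [coeff_monomial, if_neg hne]
  have h4 : sbR (fun i => (2 : ℂ) • ee i) (coeff m f) = ∑ μ ∈ (coeff m f).support,
      (2 : ℂ) ^ (2 * μ.degree) • (monomial μ (coeff μ (coeff m f)) : AA) := by
    conv_lhs => rw [(coeff m f).as_sum]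
    rw [map_sum]
    exact Finset.sum_congr rfl fun μ _ => x5_sbR_monomial _ _ _
  rw [h4] at h3
  have h5 := congrArg (coeff μ) h3
  rw [coeff_smul, coeff_sum, Finset.sum_eq_single_of_mem μ hμ, coeff_smul, coeff_monomial,
    if_pos rfl, coeff_smul] at h5
  swap
  · intro μ' _ hne
    rw [coeff_smul, coeff_monomial, if_neg hne, smul_zero]
  have h6 : coeff μ (coeff m f) ≠ 0 := mem_support_iff.1 hμ
  rw [smul_eq_mul, smul_eq_mul, smul_eq_mul, ← mul_assoc] at h5
  have h7 := mul_right_cancel₀ h6 h5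
  rw [← pow_add, hd] at h7
  have h8 : (2 : ℕ) ^ (S.card + 2 * μ.degree) = 2 ^ e := by exact_mod_cast h7
  have h9 := Nat.pow_right_injective (le_refl 2) h8
  omega

private theorem x5_value (S : Finset ℕ) (k : ℕ) (s : ℕ → Sym2 ℕ) (b : ℕ → ℕ) :
    ∃ j : ℕ → ℕ, Th (x5g S k) id (∏ l ∈ Finset.range (2 * k + S.card), X (l, j l)) =
      C (∏ i ∈ Finset.range k, X (s i)) * ∏ a ∈ S, X (a, b a) := by
  have h1 : ∀ i, ∃ p : ℕ × ℕ, s i = s(p.1, p.2) := by
    intro i
    induction s i using Sym2.ind with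
    | _ x y => exact ⟨(x, y), rfl⟩
  choose p hp using h1
  let j : ℕ → ℕ := fun l => if l < 2 * k then (if l % 2 = 0 then (p (l / 2)).1 else (p (l / 2)).2)
    else if h : l - 2 * k < S.card then b (S.equivFin.symm ⟨l - 2 * k, h⟩) else 0
  refine ⟨j, ?_⟩
  have hT := Th_mono (x5g S k) (x5_ML S k) id (Set.injOn_id _) j
  simp only [id] at hT
  rw [hT]
  unfold x5g
  rw [map_mul, map_prod, map_prod, map_prod]
  congr 1
  · refine Finset.prod_congr rfl fun i hi => ?_
    have hi' := Finset.mem_range.1 hi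
    rw [sbC_C]
    congr 1
    have h3 : (X s(2 * i, 2 * i + 1) : AA) = GLRing.x (2 * i) (2 * i + 1) := rfl
    unfold sbR
    rw [h3, sb_x', x5_cst_ee, x5_cst_ee, xf_single, one_mul, one_mul, hp i]
    have e1 : j (2 * i) = (p i).1 := by
      simp only [j]
      rw [if_pos (by omega), if_pos (by omega), show 2 * i / 2 = i by omega]
    have e2 : j (2 * i + 1) = (p i).2 := by
      simp only [j]
      rw [if_pos (by omega), if_neg (by omega), show (2 * i + 1) / 2 = i by omega]
    rw [e1, e2]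
    rfl
  · refine Finset.prod_congr rfl fun a ha => ?_
    rw [sbC_X, x5_cst_ee, zf_single, one_smul]
    congr 2
    simp only [j]
    have h4 := x5idx_lt S ha
    rw [if_neg (by omega), dif_pos (by omega)]
    congr 1
    have h5 : (⟨2 * k + x5idx S a - 2 * k, by omega⟩ : Fin S.card) = S.equivFin ⟨a, ha⟩ := by
      ext
      simp only [add_tsub_cancel_left]
      unfold x5idx
      rw [dif_pos ha]
    rw [h5, Equiv.symm_apply_apply]

/-- the multilinear element `x_{01} x_{23} ⋯ z_{a_1,2k} ⋯` and its surjectivity in weight `e` -/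
theorem exists_cover (S : Finset ℕ) (e : ℕ) :
    (∀ f ∈ MS AA S, HW e f → f = 0) ∨
    ∃ g : U AA, ML e g ∧ g ∈ MS AA S ∧ ∀ f ∈ MS AA S, HW e f →
      ∃ w ∈ Submodule.span ℂ {v : U AA | ∃ j : ℕ → ℕ, v = ∏ k ∈ Finset.range e, X (k, j k)},
        Th g id w = f := by
  classical
  by_cases he : ∃ k, e = 2 * k + S.card
  · right
    obtain ⟨k, rfl⟩ := he
    refine ⟨x5g S k, x5_ML S k, x5_mem S k, fun f hf hw => ?_⟩
    let T : Submodule ℂ (U AA) := Submodule.map ((Th (x5g S k) id).restrictScalars ℂ)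
      (Submodule.span ℂ {v : U AA | ∃ j : ℕ → ℕ, v = ∏ l ∈ Finset.range (2 * k + S.card), X (l, j l)})
    have hT : f ∈ T := by
      rw [f.as_sum]
      refine Submodule.sum_mem _ fun m hm => ?_
      have h1 : (monomial m (coeff m f) : U AA) =
          ∑ μ ∈ (coeff m f).support, coeff μ (coeff m f) • monomial m (monomial μ (1 : ℂ)) := by
        conv_lhs => rw [(coeff m f).as_sum]
        rw [map_sum]
        refine Finset.sum_congr rfl fun μ _ => ?_
        rw [smul_monomial]
        congr 1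
        rw [smul_monomial, smul_eq_mul, mul_one]
      rw [h1]
      refine Submodule.sum_mem _ fun μ hμ => Submodule.smul_mem _ _ ?_
      have h2 := x5_weight hf hw hm hμ
      have h3 : μ.degree = k := by omega
      obtain ⟨s, hs⟩ := x5_word k μ h3
      have hmS : ∀ a, sdeg a m = if a ∈ S then 1 else 0 :=
        ((mem_restrictSupport_iff AA).1 hf) (by exact_mod_cast hm)
      obtain ⟨b, hb⟩ := x5_struct hmS
      obtain ⟨j, hj⟩ := x5_value S k s b
      refine ⟨∏ l ∈ Finset.range (2 * k + S.card), X (l, j l), Submodule.subset_span ⟨j, rfl⟩, ?_⟩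
      rw [LinearMap.restrictScalars_apply, hj, x5_prod_X, ← hb]
      have h5 : (∏ i ∈ Finset.range k, X (s i) : AA) = monomial μ 1 := by
        rw [hs, monomial_sum_one]
        rfl
      rw [h5, C_mul_monomial, mul_one]
    obtain ⟨w, hw1, hw2⟩ := hT
    exact ⟨w, hw1, hw2⟩
  · left
    intro f hf hw
    by_contra hne
    obtain ⟨m, hm⟩ := support_nonempty.2 hne
    have h1 : coeff m f ≠ 0 := mem_support_iff.1 hm
    obtain ⟨μ, hμ⟩ := support_nonempty.2 h1
    exact he ⟨_, x5_weight hf hw hm hμ⟩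

end MP50e386O
end

section
/-! Noetherianity of `F / 𝔞 F` for submodules `F` generated in bounded weight (FG). -/

namespace MP50e386O

open MvPolynomial Pool.Agent.Lib.MP50e386 MP50e386N

/-- the span of the multilinear monomials `z_{0,j_0} ⋯ z_{e-1,j_{e-1}}` -/
private noncomputable def x5B (e : ℕ) : Submodule ℂ (U AA) :=
  Submodule.span ℂ {v : U AA | ∃ j : ℕ → ℕ, v = ∏ k ∈ Finset.range e, X (k, j k)}

private theorem x5_mono_mem (n : ℕ) (j : ℕ → ℕ) :
    (∏ k ∈ Finset.range n, X (k, j k) : U AA) ∈ MS AA (Finset.range n) := by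
  classical
  have h0 : (∏ k ∈ Finset.range n, X (k, j k) : U AA) =
      monomial (∑ k ∈ Finset.range n, Finsupp.single (k, j k) 1) 1 := by
    rw [monomial_sum_one]
    rfl
  rw [h0]
  unfold MS
  rw [mem_restrictSupport_iff]
  intro m hm
  have hm' : m = ∑ k ∈ Finset.range n, Finsupp.single (k, j k) 1 := by
    have := support_monomial_subset (Finset.mem_coe.1 hm)
    exact Finset.mem_singleton.1 this
  subst hm'
  intro a
  have hadd : ∀ m m' : ℕ × ℕ →₀ ℕ, sdeg a (m + m') = sdeg a m + sdeg a m' := by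
    intro m m'
    unfold sdeg
    refine Finsupp.sum_add_index' ?_ ?_
    · intro p
      simp
    · intro p e e'
      split_ifs
      · rfl
      · rfl
  have hsum : ∀ s : Finset ℕ, sdeg a (∑ k ∈ s, Finsupp.single (k, j k) 1) =
      ∑ k ∈ s, if k = a then 1 else 0 := by
    intro s
    induction s using Finset.induction_on with
    | empty =>
      rw [Finset.sum_empty, Finset.sum_empty]
      unfold sdeg
      exact Finsupp.sum_zero_index
    | insert k s hk ih =>
      rw [Finset.sum_insert hk, Finset.sum_insert hk, hadd, ih]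
      congr 1
      unfold sdeg
      rw [Finsupp.sum_single_index]
      simp
  rw [hsum, Finset.sum_ite_eq']

private theorem x5B_MS (e : ℕ) {f : U AA} (hf : f ∈ x5B e) : f ∈ MS AA (Finset.range e) := by
  unfold x5B at hf
  induction hf using Submodule.span_induction with
  | mem v hv =>
    obtain ⟨j, rfl⟩ := hv
    exact x5_mono_mem e j
  | zero => exact Submodule.zero_mem _
  | add u v _ _ hu hv => exact Submodule.add_mem _ hu hv
  | smul c v _ hv => exact smulC_mem _ c hv

private theorem x5_zf (a : ℕ) (v : V) :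
    (zf a (cst v) : U AA) ∈ Submodule.span ℂ (Set.range fun i : ℕ => (X (a, i) : U AA)) := by
  induction v using Finsupp.induction_linear with
  | zero => simp
  | add f g hf hg => rw [map_add, map_add]; exact Submodule.add_mem _ hf hg
  | single i c =>
    have h1 : (Finsupp.single i c : V) = c • ee i := by
      rw [Finsupp.smul_single, smul_eq_mul, mul_one]
    have h2 : (cst (ee i) : VR AA) = Finsupp.single i 1 := by
      simp [cst]
    rw [h1, map_smul, h2]
    have h3 : (zf a (c • (Finsupp.single i 1 : VR AA)) : U AA) = c • X (a, i) := by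
      rw [← algebraMap_smul AA c (Finsupp.single i 1 : VR AA), map_smul, zf_single, one_smul,
        algebraMap_smul]
    rw [h3]
    exact Submodule.smul_mem _ _ (Submodule.subset_span ⟨i, rfl⟩)

private theorem x5B_prod (v : ℕ → V) (n : ℕ) :
    (∏ k ∈ Finset.range n, zf k (cst (v k)) : U AA) ∈ x5B n := by
  induction n with
  | zero =>
    refine Submodule.subset_span ⟨fun _ => 0, ?_⟩
    rw [Finset.prod_range_zero, Finset.prod_range_zero]
  | succ n ih =>
    rw [Finset.prod_range_succ]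
    have h2 := x5_zf n (v n)
    generalize (zf n (cst (v n)) : U AA) = y at h2
    generalize (∏ k ∈ Finset.range n, zf k (cst (v k)) : U AA) = x at ih
    induction h2 using Submodule.span_induction with
    | mem y hy =>
      obtain ⟨i, rfl⟩ := hy
      unfold x5B at ih
      induction ih using Submodule.span_induction with
      | mem x hx =>
        obtain ⟨j, rfl⟩ := hx
        refine Submodule.subset_span ⟨Function.update j n i, ?_⟩
        rw [Finset.prod_range_succ, Function.update_self]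
        congr 1
        refine Finset.prod_congr rfl fun k hk => ?_
        rw [Function.update_of_ne (Finset.mem_range.1 hk).ne]
      | zero => rw [zero_mul]; exact Submodule.zero_mem _
      | add x x' _ _ hx hx' => rw [add_mul]; exact Submodule.add_mem _ hx hx'
      | smul c x _ hx => rw [smul_mul_assoc]; exact Submodule.smul_mem _ _ hx
    | zero => rw [mul_zero]; exact Submodule.zero_mem _
    | add y y' _ _ hy hy' => rw [mul_add]; exact Submodule.add_mem _ hy hy'
    | smul c y _ hy => rw [mul_smul_comm]; exact Submodule.smul_mem _ _ hy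

private theorem x5B_sbC (e : ℕ) (φ : ℕ → V) {f : U AA} (hf : f ∈ x5B e) : sbC φ f ∈ x5B e := by
  unfold x5B at hf
  induction hf using Submodule.span_induction with
  | mem v hv =>
    obtain ⟨j, rfl⟩ := hv
    rw [map_prod]
    simp only [sbC_X]
    exact x5B_prod (fun k => φ (j k)) e
  | zero => rw [map_zero]; exact Submodule.zero_mem _
  | add u v _ _ hu hv => rw [map_add]; exact Submodule.add_mem _ hu hv
  | smul c v _ hv => rw [sbC_smulC]; exact Submodule.smul_mem _ _ hv

private theorem x5B_range (e : ℕ) {f : U AA} (hf : f ∈ x5B e) :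
    f ∈ (MvPolynomial.map (algebraMap ℂ AA) : MvPolynomial (ℕ × ℕ) ℂ →+* U AA).range := by
  unfold x5B at hf
  induction hf using Submodule.span_induction with
  | mem v hv =>
    obtain ⟨j, rfl⟩ := hv
    refine ⟨∏ k ∈ Finset.range e, X (k, j k), ?_⟩
    rw [map_prod]
    exact Finset.prod_congr rfl fun k _ => map_X _ _
  | zero => exact Subring.zero_mem _
  | add u v _ _ hu hv => exact Subring.add_mem _ hu hv
  | smul c v _ hv =>
    obtain ⟨p, hp⟩ := hv
    refine ⟨C c * p, ?_⟩
    rw [map_mul, map_C, hp, ← smul_eq_C_mul, algebraMap_smul]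

/-- restriction to a smaller module -/
private theorem x5_inf {X' P Q M : Submodule AA (U AA)} (hQ : GS Q) (hPM : P ≤ M) (hQM : Q ≤ M)
    (hPQ : P ⊓ Q ≤ X') (h : NoethInt (R := AA) GS Q M) : NoethInt (R := AA) GS X' P := by
  intro N hmono hN
  obtain ⟨n0, h0⟩ := h (fun i => N i ⊔ Q) (fun i j hij => sup_le_sup_right (hmono hij) _)
    (fun i => ⟨GS.sup (hN i).1 hQ, le_sup_right, sup_le ((hN i).2.2.trans hPM) hQM⟩)
  refine ⟨n0, fun n hn => le_antisymm (fun f hf => ?_) (hmono hn)⟩
  have h1 : f ∈ N n0 ⊔ Q := by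
    have h2 := h0 n hn
    rw [← h2]
    exact Submodule.mem_sup_left hf
  obtain ⟨a, ha, q, hq, haq⟩ := Submodule.mem_sup.1 h1
  have h3 : q ∈ X' := by
    refine hPQ ⟨?_, hq⟩
    have h4 : q = f - a := by rw [← haq]; abel
    rw [h4]
    exact Submodule.sub_mem _ ((hN n).2.2 hf) ((hN n0).2.2 ha)
  rw [← haq]
  exact Submodule.add_mem _ ha ((hN n0).2.1 h3)

private theorem x5_coeff {𝔞 : Ideal AA} {N : Submodule AA (U AA)} {f : U AA} (hf : f ∈ 𝔞 • N)
    (m : ℕ × ℕ →₀ ℕ) : coeff m f ∈ 𝔞 := by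
  refine Submodule.smul_induction_on hf ?_ ?_
  · intro r hr g _
    rw [coeff_smul, smul_eq_mul]
    exact Ideal.mul_mem_right _ _ hr
  · intro x y hx hy
    rw [coeff_add]
    exact Ideal.add_mem _ hx hy

/-- (FG) for one weight -/
theorem FG_one (𝔞 : Ideal AA) (h𝔞 : NI 𝔞) (h𝔞G : GSI 𝔞) (S : Finset ℕ) (e : ℕ)
    (W : Submodule ℂ (U AA)) (hW : ∀ f ∈ W, f ∈ MS AA S ∧ HW e f)
    (hWG : ∀ g : Cinf ≃ₗ[ℂ] Cinf, IsSo g → ∀ c : ℂ, c ≠ 0 → ∀ f ∈ W,
      sbC (fun i => c • g (ee i)) f ∈ W) :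
    NoethInt (R := AA) GS (𝔞 • Submodule.span AA (W : Set (U AA)))
      (Submodule.span AA (W : Set (U AA))) := by
  rcases exists_cover S e with h0 | ⟨g, hg, hgS, hcov⟩
  · have hWb : Submodule.span AA (W : Set (U AA)) = ⊥ := by
      rw [Submodule.span_eq_bot]
      intro f hf
      exact h0 f (hW f hf).1 (hW f hf).2
    rw [hWb, Submodule.smul_bot]
    exact NoethInt.refl _ _
  · have hinj : Set.InjOn (id : ℕ → ℕ) (Set.Iio e) := Function.injective_id.injOn
    have hlab : labS e (id : ℕ → ℕ) = Finset.range e := by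
      unfold labS
      exact Finset.image_id
    have hThC : ∀ (φ : ℕ → V) (f : U AA), f ∈ MS AA (Finset.range e) →
        Th g id (sbC φ f) = sbC φ (Th g id f) := by
      intro φ f hf
      exact Th_sbC g hg id hinj φ f (by rw [hlab]; exact hf)
    have hThc : ∀ (c : ℂ) (f : U AA), Th g id (c • f) = c • Th g id f := by
      intro c f
      rw [← algebraMap_smul AA c f, map_smul, algebraMap_smul]
    let W' : Submodule ℂ (U AA) :=
      { carrier := {w | w ∈ x5B e ∧ Th g id w ∈ W}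
        zero_mem' := ⟨Submodule.zero_mem _, by rw [map_zero]; exact Submodule.zero_mem _⟩
        add_mem' := by
          rintro a b ⟨ha, ha'⟩ ⟨hb, hb'⟩
          refine ⟨Submodule.add_mem _ ha hb, ?_⟩
          rw [map_add]
          exact Submodule.add_mem _ ha' hb'
        smul_mem' := by
          rintro c a ⟨ha, ha'⟩
          refine ⟨Submodule.smul_mem _ c ha, ?_⟩
          rw [hThc]
          exact Submodule.smul_mem _ c ha' }
    have hW'mem : ∀ w, w ∈ W' ↔ w ∈ x5B e ∧ Th g id w ∈ W := fun w => Iff.rfl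
    set P : Submodule AA (U AA) := Submodule.span AA (W' : Set (U AA)) with hP
    set F : Submodule AA (U AA) := Submodule.span AA (W : Set (U AA)) with hF
    have hPM : P ≤ MS AA (Finset.range e) := by
      rw [hP, Submodule.span_le]
      intro w hw
      exact x5B_MS e hw.1
    have hPG : GS P := by
      rw [hP]
      refine GS_span _ fun g' hg' c hc w hw => Submodule.subset_span ?_
      refine ⟨x5B_sbC e _ hw.1, ?_⟩
      rw [hThC _ _ (x5B_MS e hw.1)]
      exact hWG g' hg' c hc _ hw.2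
    have hThP : ∀ p ∈ P, Th g id p ∈ F := by
      intro p hp
      rw [hP] at hp
      induction hp using Submodule.span_induction with
      | mem v hv => exact Submodule.subset_span hv.2
      | zero => rw [map_zero]; exact Submodule.zero_mem _
      | add u v _ _ hu hv => rw [map_add]; exact Submodule.add_mem _ hu hv
      | smul c v _ hv => rw [map_smul]; exact Submodule.smul_mem _ _ hv
    have hsurj : ∀ y ∈ F, ∃ f ∈ P, y = Th g id f := by
      intro y hy
      rw [hF] at hy
      induction hy using Submodule.span_induction with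
      | mem v hv =>
        obtain ⟨w, hw, hwv⟩ := hcov v (hW v hv).1 (hW v hv).2
        refine ⟨w, Submodule.subset_span ⟨hw, ?_⟩, hwv.symm⟩
        rw [hwv]
        exact hv
      | zero => exact ⟨0, Submodule.zero_mem _, (map_zero _).symm⟩
      | add u v _ _ hu hv =>
        obtain ⟨a, ha, rfl⟩ := hu
        obtain ⟨b, hb, rfl⟩ := hv
        exact ⟨a + b, Submodule.add_mem _ ha hb, (map_add _ _ _).symm⟩
      | smul c v _ hv =>
        obtain ⟨a, ha, rfl⟩ := hv
        exact ⟨c • a, Submodule.smul_mem _ _ ha, (map_smul _ _ _).symm⟩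
    have hQ : GS (𝔞 • MS AA (Finset.range e)) := GS.smul h𝔞G (gs_of_gls (GLS_MS _))
    have hNP : NoethInt (R := AA) GS (𝔞 • P) P := by
      refine x5_inf hQ hPM Submodule.smul_le_right ?_ (h𝔞 (Finset.range e))
      rintro f ⟨hf1, hf2⟩
      exact purity 𝔞 W' (fun w hw => x5B_range e hw.1) f hf1 fun m => x5_coeff hf2 m
    refine NoethInt.of_map (X' := 𝔞 • P) (Y' := P) (P' := GS)
      ((Th g id : U AA →ₗ[AA] U AA) : U AA →+ U AA) ?_ ?_ hNP
    · intro N hN hXN hNY
      refine ⟨P ⊓ N.comap (Th g id), fun f => Iff.rfl, ?_, ?_⟩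
      · intro g' hg' c hc f hf
        refine ⟨hPG g' hg' c hc f hf.1, ?_⟩
        change Th g id (sbC _ f) ∈ N
        rw [hThC _ _ (hPM hf.1)]
        exact hN g' hg' c hc _ hf.2
      · rw [Submodule.smul_le]
        intro a ha p hp
        refine ⟨Submodule.smul_mem _ _ hp, ?_⟩
        change Th g id (a • p) ∈ N
        rw [map_smul]
        exact hXN (Submodule.smul_mem_smul ha (hThP p hp))
    · intro y hy
      obtain ⟨f, hf, hyf⟩ := hsurj y hy
      exact ⟨f, hf, 0, Submodule.zero_mem _, by rw [add_zero]; exact hyf⟩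

/-- (FG) -/
theorem FG (𝔞 : Ideal AA) (h𝔞 : NI 𝔞) (h𝔞G : GSI 𝔞) (S : Finset ℕ) (F : Submodule AA (U AA))
    (hF : GS F) (hFS : F ≤ MS AA S) (d : ℕ)
    (hgen : F = Submodule.span AA {f | f ∈ F ∧ ∃ e ≤ d, HW e f}) :
    NoethInt (R := AA) GS (𝔞 • F) F := by
  have hHW0 : ∀ e, HW e (0 : U AA) := by
    intro e c
    rw [map_zero, smul_zero]
  have hHWs : ∀ (e : ℕ) (c : ℂ) (f : U AA), HW e f → HW e (c • f) := by
    intro e c f hf t
    rw [sbC_smulC, hf t, smul_comm]
  -- one weight
  let We : ℕ → Submodule ℂ (U AA) := fun e =>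
    { carrier := {f | f ∈ F ∧ HW e f}
      zero_mem' := ⟨Submodule.zero_mem _, hHW0 e⟩
      add_mem' := by
        rintro a b ⟨ha, ha'⟩ ⟨hb, hb'⟩
        exact ⟨Submodule.add_mem _ ha hb, HW_add ha' hb'⟩
      smul_mem' := by
        rintro c a ⟨ha, ha'⟩
        exact ⟨smulC_mem _ c ha, hHWs e c a ha'⟩ }
  have h1 : ∀ e, NoethInt (R := AA) GS (𝔞 • Submodule.span AA (We e : Set (U AA)))
      (Submodule.span AA (We e : Set (U AA))) := by
    intro e
    refine FG_one 𝔞 h𝔞 h𝔞G S e (We e) (fun f hf => ⟨hFS hf.1, hf.2⟩) fun g hg c hc f hf => ?_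
    exact ⟨hF g hg c hc f hf.1, HW_sbC hf.2 _⟩
  have h2 : ∀ e, GS (Submodule.span AA (We e : Set (U AA))) := by
    intro e
    refine GS_span _ fun g hg c hc f hf => Submodule.subset_span ?_
    exact ⟨hF g hg c hc f hf.1, HW_sbC hf.2 _⟩
  -- all weights up to `d`
  have h3 : ∀ d, NoethInt (R := AA) GS
      (𝔞 • Submodule.span AA {f : U AA | f ∈ F ∧ ∃ e ≤ d, HW e f})
      (Submodule.span AA {f : U AA | f ∈ F ∧ ∃ e ≤ d, HW e f}) := by
    intro d
    induction d with
    | zero =>
      have e1 : {f : U AA | f ∈ F ∧ ∃ e ≤ 0, HW e f} = (We 0 : Set (U AA)) := by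
        ext f
        constructor
        · rintro ⟨hf, e, he, hfe⟩
          obtain rfl : e = 0 := by omega
          exact ⟨hf, hfe⟩
        · rintro ⟨hf, hfe⟩
          exact ⟨hf, 0, le_rfl, hfe⟩
      rw [e1]
      exact h1 0
    | succ d ih =>
      have e1 : Submodule.span AA {f : U AA | f ∈ F ∧ ∃ e ≤ d + 1, HW e f} =
          Submodule.span AA {f : U AA | f ∈ F ∧ ∃ e ≤ d, HW e f} ⊔
            Submodule.span AA (We (d + 1) : Set (U AA)) := by
        rw [← Submodule.span_union]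
        congr 1
        ext f
        constructor
        · rintro ⟨hf, e, he, hfe⟩
          rcases Nat.lt_or_ge d e with h | h
          · obtain rfl : e = d + 1 := by omega
            exact Or.inr ⟨hf, hfe⟩
          · exact Or.inl ⟨hf, e, h, hfe⟩
        · rintro (⟨hf, e, he, hfe⟩ | ⟨hf, hfe⟩)
          · exact ⟨hf, e, by omega, hfe⟩
          · exact ⟨hf, d + 1, le_rfl, hfe⟩
      rw [e1, Submodule.smul_sup]
      refine NoethInt_sup ?_ (h2 (d + 1)) Submodule.smul_le_right Submodule.smul_le_right ih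
        (h1 (d + 1))
      refine GS_span _ fun g hg c hc f hf => Submodule.subset_span ?_
      obtain ⟨hf1, e, he, hfe⟩ := hf
      exact ⟨hF g hg c hc f hf1, e, he, HW_sbC hfe _⟩
  have h4 := h3 d
  rw [← hgen] at h4
  exact h4

end MP50e386O
end
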