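import Mathlib
import Pool.Agent.Lib.MP_50e386_al.B.Xa

section
/-! The key identity on isotropic vectors. -/

namespace MP50e386O

open MvPolynomial Pool.Agent.Lib.MP50e386 MP50e386N

private theorem x12_al (x y z : V) : om (x + y) z = om x z + om y z := by
  rw [T5.om_eq, T5.om_eq, T5.om_eq, T5.B_al]

private theorem x12_sl (c : ℂ) (x z : V) : om (c • x) z = c * om x z := by
  rw [T5.om_eq, T5.om_eq, T5.B_sl]

private theorem x12_ar (x y z : V) : om x (y + z) = om x y + om x z := by
  rw [T5.om_eq, T5.om_eq, T5.om_eq, T5.B_ar]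

private theorem x12_sr (c : ℂ) (x z : V) : om x (c • z) = c * om x z := by
  rw [T5.om_eq, T5.om_eq, T5.B_sr]

private theorem x12_xsl (a : ℂ) (y y' : VR AA) :
    (xf (a • y) y' : AA) = algebraMap ℂ AA a * xf y y' := by
  rw [← algebraMap_smul AA a y, map_smul, LinearMap.smul_apply, smul_eq_mul]

private theorem x12_xsr (a : ℂ) (y y' : VR AA) :
    (xf y (a • y') : AA) = algebraMap ℂ AA a * xf y y' := by
  rw [← algebraMap_smul AA a y', map_smul, smul_eq_mul]

private theorem x12_pow (r s : ℕ) (u : Fin r → V) (c : V) (hu : ∀ i j, om (u i) (u j) = 0)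
    (hc : ∀ i, om (u i) c = 0) (hcc : om c c = 0) :
    (Dl1 u c : AA) ^ (s + 1) ∈ nnI (Jd r s) := by
  have h := nnI_detIdeal (r + 1) (s + 1)
  unfold Jd
  rw [h]
  apply Ideal.subset_span
  refine ⟨Fin.snoc u c, ?_, rfl⟩
  intro i j
  refine Fin.lastCases ?_ (fun i' => ?_) i <;> refine Fin.lastCases ?_ (fun j' => ?_) j
  · rw [Fin.snoc_last]; exact hcc
  · rw [Fin.snoc_last, Fin.snoc_castSucc]
    exact (osf_comm _ _).trans (hc j')
  · rw [Fin.snoc_last, Fin.snoc_castSucc]
    exact hc i'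
  · rw [Fin.snoc_castSucc, Fin.snoc_castSucc]
    exact hu i' j'

private theorem x12_unit {J : Ideal AA} (z : ℂ) (hz : z ≠ 0) (x : AA)
    (h : algebraMap ℂ AA z * x ∈ J) : x ∈ J := by
  have h1 : x = algebraMap ℂ AA z⁻¹ * (algebraMap ℂ AA z * x) := by
    rw [← mul_assoc, ← map_mul, inv_mul_cancel₀ hz, map_one, one_mul]
  rw [h1]
  exact Ideal.mul_mem_left _ _ h

private theorem x12_coef {J : Ideal AA} (P : Polynomial AA)
    (h : ∀ t : ℂ, P.eval (algebraMap ℂ AA t) ∈ J) : P.derivative.eval 0 ∈ J := by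
  have h5 : P.coeff 1 ∈ (J.restrictScalars ℂ : Submodule ℂ AA) := by
    apply vand_poly
    have : {t : ℂ | P.eval (algebraMap ℂ AA t) ∈ (J.restrictScalars ℂ : Submodule ℂ AA)} =
        Set.univ := by
      ext t
      simp only [Set.mem_univ, iff_true]
      exact h t
    rw [this]
    exact Set.infinite_univ
  have h7 := Polynomial.coeff_derivative P 0
  rw [Nat.cast_zero, zero_add, zero_add, mul_one] at h7
  rw [← Polynomial.coeff_zero_eq_eval_zero, h7]
  exact h5

/-- the key identity on isotropic vectors -/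
theorem KI_iso (r s : ℕ) (u : Fin r → V) (a b : V) (hu : ∀ i j, om (u i) (u j) = 0)
    (hua : ∀ i, om (u i) a = 0) (hub : ∀ i, om (u i) b = 0) (haa : om a a = 0)
    (hab : om a b = 0) (hbb : om b b = 0) :
    (Dl1 u a : AA) ^ s * xf (til u a) (cst b) ∈ nnI (Jd r s) := by
  set A : AA := Dl1 u a with hA
  set B : AA := xf (til u a) (cst b) with hB
  set D : AA := Dl1 u b with hD
  set Q : Polynomial AA := Polynomial.C A + Polynomial.C (2 * B) * Polynomial.X +
    Polynomial.C D * Polynomial.X ^ 2 with hQ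
  have h2 : ∀ t : ℂ, (Q ^ (s + 1)).eval (algebraMap ℂ AA t) ∈ nnI (Jd r s) := by
    intro t
    have h3 := x12_pow r s u (a + t • b) hu
      (fun i => by rw [x12_ar, x12_sr, hua, hub, mul_zero, add_zero])
      (by
        rw [x12_ar, x12_al, x12_al, x12_sr, x12_sr, x12_sl, x12_sl, haa, hab, hbb,
          show om b a = 0 from (osf_comm _ _).trans hab]
        ring)
    rw [Dl1_add] at h3
    rw [Polynomial.eval_pow]
    have h4 : Q.eval (algebraMap ℂ AA t) =
        Dl1 u a + (2 * t) • (xf (til u a) (cst b) : AA) + t ^ 2 • Dl1 u b := by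
      rw [hQ]
      simp only [Polynomial.eval_add, Polynomial.eval_mul, Polynomial.eval_C, Polynomial.eval_X,
        Polynomial.eval_pow, Polynomial.eval_ofNat, Algebra.smul_def, map_mul, map_pow, map_ofNat]
      rw [hA, hB, hD]
      ring
    rw [h4]
    exact h3
  have h5 := x12_coef (Q ^ (s + 1)) h2
  have h8 : Q.eval 0 = A := by
    rw [hQ]; simp
  have h9 : Q.derivative.eval 0 = 2 * B := by
    rw [hQ]; simp
  rw [Polynomial.derivative_pow_succ, Polynomial.eval_mul, Polynomial.eval_mul,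
    Polynomial.eval_pow, h8, h9, Polynomial.eval_C] at h5
  refine x12_unit (((s : ℂ) + 1) * 2) ?_ _ ?_
  · have : ((s : ℂ) + 1) ≠ 0 := Nat.cast_add_one_ne_zero s
    exact mul_ne_zero this (by norm_num)
  · have h10 : algebraMap ℂ AA (((s : ℂ) + 1) * 2) * (A ^ s * B) =
        ((s + 1 : ℕ) : AA) * A ^ s * (2 * B) := by
      rw [map_mul, map_add, map_natCast, map_one, map_ofNat]
      push_cast
      ring
    rw [h10]
    exact_mod_cast h5

/-- the hyperbolic pairs give the same value -/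
theorem KI_hyp (r s : ℕ) (u : Fin r → V) (a a' b b' : V) (hu : ∀ i j, om (u i) (u j) = 0)
    (h1 : ∀ i, om (u i) a = 0) (h1' : ∀ i, om (u i) a' = 0) (h2 : ∀ i, om (u i) b = 0)
    (h2' : ∀ i, om (u i) b' = 0) (haa : om a a = 0) (ha'a' : om a' a' = 0) (hbb : om b b = 0)
    (hb'b' : om b' b' = 0) (haa' : om a a' = 1) (hbb' : om b b' = 1) (hab : om a b = 0)
    (hab' : om a b' = 0) (ha'b : om a' b = 0) (ha'b' : om a' b' = 0) :
    (Dl1 u a : AA) ^ s * Dl1 u b ^ s * (xf (til u a) (cst a') - xf (til u b) (cst b')) ∈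
      nnI (Jd r s) := by
  have hba : om b a = 0 := (osf_comm _ _).trans hab
  have hba' : om b a' = 0 := (osf_comm _ _).trans ha'b
  have hb'a' : om b' a' = 0 := (osf_comm _ _).trans ha'b'
  set A : AA := Dl1 u a with hA
  set E : AA := xf (til u a) (cst b) with hE
  set G : AA := Dl1 u b with hG
  set x1 : AA := xf (til u a) (cst a') with hx1
  set x2 : AA := xf (til u b) (cst b') with hx2
  set x3 : AA := xf (til u a) (cst b') with hx3
  set x4 : AA := xf (til u b) (cst a') with hx4
  set Q : Polynomial AA := Polynomial.C A + Polynomial.C (2 * E) * Polynomial.X +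
    Polynomial.C G * Polynomial.X ^ 2 with hQ
  set L : Polynomial AA := Polynomial.C (-x3) + Polynomial.C (x1 - x2) * Polynomial.X +
    Polynomial.C x4 * Polynomial.X ^ 2 with hL
  have hv : ∀ t : ℂ, (Q ^ s * L).eval (algebraMap ℂ AA t) ∈ nnI (Jd r s) := by
    intro t
    have h3 := KI_iso r s u (a + t • b) (t • a' + (-1 : ℂ) • b') hu
      (fun i => by rw [x12_ar, x12_sr, h1, h2, mul_zero, add_zero])
      (fun i => by rw [x12_ar, x12_sr, x12_sr, h1', h2', mul_zero, mul_zero, add_zero])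
      (by
        rw [x12_ar, x12_al, x12_al, x12_sr, x12_sr, x12_sl, x12_sl, haa, hab, hbb, hba]
        ring)
      (by
        simp only [x12_ar, x12_al, x12_sr, x12_sl]
        rw [haa', hbb', hab', hba']
        ring)
      (by
        simp only [x12_ar, x12_al, x12_sr, x12_sl]
        rw [ha'a', hb'b', ha'b', hb'a']
        ring)
    rw [Dl1_add, til_add, til_smul] at h3
    have h4 : Q.eval (algebraMap ℂ AA t) =
        Dl1 u a + (2 * t) • (xf (til u a) (cst b) : AA) + t ^ 2 • Dl1 u b := by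
      rw [hQ]
      simp only [Polynomial.eval_add, Polynomial.eval_mul, Polynomial.eval_C, Polynomial.eval_X,
        Polynomial.eval_pow, Polynomial.eval_ofNat, Algebra.smul_def, map_mul, map_pow, map_ofNat]
      rw [hA, hE, hG]
      ring
    have h5 : L.eval (algebraMap ℂ AA t) =
        xf (til u a + t • til u b) (cst (t • a' + (-1 : ℂ) • b')) := by
      rw [hL]
      rw [map_add (cst : V →ₗ[ℂ] VR AA), map_smul (cst : V →ₗ[ℂ] VR AA),
        map_smul (cst : V →ₗ[ℂ] VR AA)]
      simp only [Polynomial.eval_add, Polynomial.eval_mul, Polynomial.eval_C, Polynomial.eval_X,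
        Polynomial.eval_pow, Polynomial.eval_neg, map_add, LinearMap.add_apply, x12_xsl, x12_xsr,
        map_neg, map_one]
      rw [hx1, hx2, hx3, hx4]
      ring
    rw [Polynomial.eval_mul, Polynomial.eval_pow, h4, h5]
    exact h3
  have h5 := x12_coef (Q ^ s * L) hv
  have h8 : Q.eval 0 = A := by
    rw [hQ]; simp
  have h9 : Q.derivative.eval 0 = 2 * E := by
    rw [hQ]; simp
  have h10 : L.eval 0 = -x3 := by
    rw [hL]; simp
  have h11 : L.derivative.eval 0 = x1 - x2 := by
    rw [hL]; simp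
  rw [Polynomial.derivative_mul, Polynomial.derivative_pow, Polynomial.eval_add,
    Polynomial.eval_mul, Polynomial.eval_mul, Polynomial.eval_mul, Polynomial.eval_mul,
    Polynomial.eval_pow, Polynomial.eval_pow, h8, h9, h10, h11, Polynomial.eval_C] at h5
  have h12 : G ^ s * E ∈ nnI (Jd r s) := by
    have h13 := KI_iso r s u b a hu h2 h1 hbb hba haa
    rw [xf_til_comm u b a] at h13
    exact h13
  have h14 : A ^ s * G ^ s * (x1 - x2) =
      G ^ s * ((s : AA) * A ^ (s - 1) * (2 * E) * -x3 + A ^ s * (x1 - x2)) +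
        (s : AA) * A ^ (s - 1) * 2 * x3 * (G ^ s * E) := by ring
  rw [h14]
  exact Ideal.add_mem _ (Ideal.mul_mem_left _ _ h5) (Ideal.mul_mem_left _ _ h12)

end MP50e386O
end

section
/-! Claim 0 for `K_J`. -/

namespace MP50e386O

open MvPolynomial Pool.Agent.Lib.MP50e386 MP50e386N

private theorem c0k_om_span {s : Set V} (h : ∀ v ∈ s, ∀ w ∈ s, om v w = 0) :
    ∀ v ∈ Submodule.span ℂ s, ∀ w ∈ Submodule.span ℂ s, om v w = 0 := by
  intro v hv w hw
  rw [T5.om_eq]
  induction hv using Submodule.span_induction with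
  | mem v hv =>
    induction hw using Submodule.span_induction with
    | mem w hw => rw [← T5.om_eq]; exact h v hv w hw
    | zero => rw [map_zero]
    | add a b _ _ ha hb => rw [T5.B_ar, ha, hb, add_zero]
    | smul c a _ ha => rw [T5.B_sr, ha, mul_zero]
  | zero => rw [map_zero, LinearMap.zero_apply]
  | add a b _ _ ha hb => rw [T5.B_al, ha, hb, add_zero]
  | smul c a _ ha => rw [T5.B_sl, ha, mul_zero]

private theorem c0k_om_div {i j : ℕ} (h : i / 2 ≠ j / 2) : om (ee i) (ee j) = 0 := by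
  rw [T5.om_eq, T5.B_ee]
  unfold _root_.MP50e386.gam _root_.MP50e386.pis
  rw [if_neg]
  split_ifs with hi
  · obtain ⟨k, hk⟩ := hi
    omega
  · rw [Nat.not_even_iff_odd] at hi
    obtain ⟨k, hk⟩ := hi
    omega

private theorem c0k_cases (i j : ℕ) : om (ee i) (ee j) = 0 ∨
    (om (ee i) (ee j) = 1 ∧ i / 2 = j / 2 ∧ i ≠ j) := by
  by_cases h : i / 2 = j / 2
  · by_cases hij : i = j
    · left
      rw [hij]
      exact osf_self j
    · right
      refine ⟨?_, h, hij⟩
      rw [T5.om_eq, T5.B_ee]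
      unfold _root_.MP50e386.gam _root_.MP50e386.pis sio
      rw [if_pos]
      split_ifs with hi
      · obtain ⟨k, hk⟩ := hi
        omega
      · rw [Nat.not_even_iff_odd] at hi
        obtain ⟨k, hk⟩ := hi
        omega
  · exact Or.inl (c0k_om_div h)

private noncomputable def c0k_wt (n : ℕ) (s : Sym2 ℕ) : ℕ :=
  Sym2.lift ⟨fun i j => (if i < 2 * n then 1 else 0) + (if j < 2 * n then 1 else 0),
    fun _ _ => add_comm _ _⟩ s

private noncomputable def c0k_Phi (n : ℕ) : AA →ₐ[ℂ] Polynomial AA :=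
  aeval (fun s => Polynomial.C (X s) * Polynomial.X ^ c0k_wt n s)

private noncomputable def c0k_psi (n : ℕ) (a : AA) (i : ℕ) : VR AA :=
  if i < 2 * n then a • cst (ee i) else cst (ee i)

private theorem c0k_xf (i j : ℕ) : (xf (cst (ee i)) (cst (ee j)) : AA) = X s(i, j) :=
  xv_ee (R := AA) i j

private theorem c0k_eval (n : ℕ) (a g : AA) :
    (c0k_Phi n g).eval a = GLRing.sb (c0k_psi n a) g := by
  induction g using MvPolynomial.induction_on with
  | C c =>
    have h1 : c0k_Phi n (C c) = Polynomial.C (C c) := (c0k_Phi n).commutes c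
    have h2 : GLRing.sb (c0k_psi n a) (C c : AA) = C c :=
      (GLRing.sb (c0k_psi n a) : AA →ₐ[ℂ] AA).commutes c
    rw [h1, h2, Polynomial.eval_C]
  | add p q hp hq => rw [map_add, map_add, Polynomial.eval_add, hp, hq]
  | mul_X p s hp =>
    rw [map_mul, map_mul, Polynomial.eval_mul, hp]
    refine congrArg (fun z : AA => GLRing.sb (c0k_psi n a) p * z) ?_
    induction s using Sym2.ind with
    | _ i j =>
      have h1 : c0k_Phi n (X s(i, j)) = Polynomial.C (X s(i, j)) * Polynomial.X ^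
          ((if i < 2 * n then 1 else 0) + (if j < 2 * n then 1 else 0)) := by
        unfold c0k_Phi
        rw [aeval_X]
        rfl
      have h2 : GLRing.sb (c0k_psi n a) (X s(i, j) : AA) =
          xf (c0k_psi n a i) (c0k_psi n a j) := sb_x' (R := AA) _ i j
      rw [h1, h2, Polynomial.eval_mul, Polynomial.eval_pow, Polynomial.eval_C, Polynomial.eval_X]
      unfold c0k_psi
      by_cases hi : i < 2 * n <;> by_cases hj : j < 2 * n
      · simp only [if_pos hi, if_pos hj, map_smul, LinearMap.smul_apply, smul_eq_mul, c0k_xf]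
        ring
      · simp only [if_pos hi, if_neg hj, map_smul, LinearMap.smul_apply, smul_eq_mul, c0k_xf]
        ring
      · simp only [if_neg hi, if_pos hj, map_smul, smul_eq_mul, c0k_xf]
        ring
      · simp only [if_neg hi, if_neg hj, c0k_xf]
        ring

private theorem c0k_scale (n D : ℕ) (f : AA)
    (hdeg : ∀ c : ℂ, sbC (scT n c) (C f : U AA) = c ^ D • (C f : U AA)) (a : AA) :
    GLRing.sb (c0k_psi n a) f = a ^ D * f := by
  have h1 : ∀ c : ℂ, GLRing.sb (c0k_psi n (algebraMap ℂ AA c)) f = (algebraMap ℂ AA c) ^ D * f := by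
    intro c
    have h2 := hdeg c
    rw [sbC_C] at h2
    have h3 : (c ^ D • (C f : U AA)) = C (c ^ D • f) := by
      rw [← algebraMap_smul AA (c ^ D) (C f : U AA),
        ← algebraMap_smul AA (c ^ D) f, smul_eq_mul, smul_eq_C_mul, ← map_mul]
    rw [h3] at h2
    have h4 := C_injective _ _ h2
    have h5 : (fun i => (cst (scT n c i) : VR AA)) = c0k_psi n (algebraMap ℂ AA c) := by
      funext i
      unfold scT c0k_psi
      split_ifs with hi
      · rw [map_smul, algebraMap_smul]
      · rfl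
    have h6 : sbR (scT n c) f = GLRing.sb (fun i => (cst (scT n c i) : VR AA)) f := rfl
    rw [h6, h5] at h4
    rw [h4, Algebra.smul_def, map_pow]
  have hP : c0k_Phi n f - Polynomial.C f * Polynomial.X ^ D = 0 := by
    apply Polynomial.ext
    intro k
    rw [Polynomial.coeff_zero]
    have h7 := vand_poly (⊥ : Submodule ℂ AA) (c0k_Phi n f - Polynomial.C f * Polynomial.X ^ D) (by
      refine Set.infinite_univ.mono fun t _ => ?_
      show Polynomial.eval _ _ ∈ (⊥ : Submodule ℂ AA)
      rw [Submodule.mem_bot, Polynomial.eval_sub, c0k_eval, h1, Polynomial.eval_mul,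
        Polynomial.eval_C, Polynomial.eval_pow, Polynomial.eval_X, mul_comm, sub_self]) k
    exact (Submodule.mem_bot ℂ).1 h7
  have h8 := congrArg (Polynomial.eval a) hP
  rw [Polynomial.eval_sub, c0k_eval, Polynomial.eval_mul, Polynomial.eval_C, Polynomial.eval_pow,
    Polynomial.eval_X, Polynomial.eval_zero, sub_eq_zero] at h8
  rw [h8, mul_comm]

private theorem c0k_til_pit {r : ℕ} (u : Fin r → V) (a b : V) :
    (xf (til u a) (pit u b) : AA) = 0 := by
  unfold pit
  rw [map_sum]
  refine Finset.sum_eq_zero fun k _ => ?_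
  rw [map_smul, xf_til_comm, til_self, map_zero, LinearMap.zero_apply, smul_zero]

private theorem c0k_pit {r : ℕ} (u : Fin r → V) (a : V) :
    (pit u a : VR AA) = (Dl u : AA) • cst a - til u a := by
  unfold til
  abel

private theorem c0k_pit_cst {r : ℕ} (u : Fin r → V) (a b : V) :
    (xf (pit u a) (cst b) : AA) = Dl u * xf (cst a) (cst b) - xf (til u a) (cst b) := by
  rw [c0k_pit, map_sub, LinearMap.sub_apply, map_smul, LinearMap.smul_apply, smul_eq_mul]

private theorem c0k_pit_pit {r : ℕ} (u : Fin r → V) (a b : V) :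
    (xf (pit u a) (pit u b) : AA) =
      (Dl u) ^ 2 * xf (cst a) (cst b) - Dl u * xf (til u a) (cst b) := by
  have h1 : (xf (pit u a) (pit u b) : AA) = Dl u * xf (cst a) (pit u b) := by
    conv_lhs => rw [c0k_pit u a]
    rw [map_sub, LinearMap.sub_apply, c0k_til_pit, sub_zero, map_smul, LinearMap.smul_apply,
      smul_eq_mul]
  rw [h1, xf_comm, c0k_pit_cst, xf_comm (cst b) (cst a), xf_til_comm u b a]
  ring

private theorem c0k_dvd1 {S : Type} [CommRing S] {m : ℕ} (g : Fin m → S) (i : Fin m) :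
    g i ∣ ∏ j, g j := Finset.dvd_prod_of_mem g (Finset.mem_univ i)

private theorem c0k_dvd2 {S : Type} [CommRing S] {m : ℕ} (g : Fin m → S) (i j : Fin m)
    (h : i ≠ j) : g i * g j ∣ ∏ j, g j := by
  have h1 := Finset.prod_dvd_prod_of_subset ({i, j} : Finset (Fin m)) Finset.univ g
    (Finset.subset_univ _)
  rwa [Finset.prod_pair h] at h1

/-- claim 0 -/
theorem claim0K (r s n D : ℕ) (Z : Set ℕ) (hZf : Z.Finite) (hZ : ∀ z ∈ Z, 2 * n ≤ z)
    (hZi : ∀ z ∈ Z, ∀ z' ∈ Z, om (ee z) (ee z') = 0) (f : AA) (hf : f ∈ KK (Jd r s))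
    (hfT : (C f : U AA) ∈ MP50e386N.LT AA (Set.Iio (2 * n) ∪ Z))
    (hdeg : ∀ c : ℂ, sbC (scT n c) (C f : U AA) = c ^ D • (C f : U AA))
    (u : Fin r → V) (hu : ∀ i j, om (u i) (u j) = 0)
    (huT : ∀ i, ∀ z ∈ Set.Iio (2 * n) ∪ Z, om (u i) (ee z) = 0) :
    (Ek s u (fun i : Fin (2 * n) => ee (i : ℕ)) : AA) * Dl u ^ D * f ∈ nnI (Jd r s) := by
  classical
  obtain ⟨E, hE⟩ : ∃ E : AA, E = Ek s u (fun i : Fin (2 * n) => ee (i : ℕ)) := ⟨_, rfl⟩
  obtain ⟨tt, htt⟩ : ∃ tt : AA, tt = xf (til u (ee 0)) (cst (ee 1)) := ⟨_, rfl⟩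
  obtain ⟨g, hg⟩ : ∃ g : Fin (2 * n) → AA, ∀ j, g j = (Dl1 u (ee (j : ℕ)) : AA) ^ s :=
    ⟨_, fun _ => rfl⟩
  have hEg : E = ∏ j, g j := by
    rw [hE]
    unfold Ek
    exact Finset.prod_congr rfl fun j _ => (hg j).symm
  have hE1 : ∀ i < 2 * n, (Dl1 u (ee i) : AA) ^ s ∣ E := by
    intro i hi
    have h1 := c0k_dvd1 g ⟨i, hi⟩
    rw [hg, ← hEg] at h1
    exact h1
  have hE2 : ∀ i < 2 * n, ∀ j < 2 * n, i ≠ j →
      (Dl1 u (ee i) : AA) ^ s * (Dl1 u (ee j) : AA) ^ s ∣ E := by
    intro i hi j hj hij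
    have h1 := c0k_dvd2 g ⟨i, hi⟩ ⟨j, hj⟩ (by intro h; exact hij (Fin.mk.inj_iff.1 h))
    rw [hg, hg, ← hEg] at h1
    exact h1
  have hmul : ∀ x y z : AA, x ∣ E → x * y ∈ nnI (Jd r s) → z = y → E * z ∈ nnI (Jd r s) := by
    rintro x y z ⟨w, hw⟩ h rfl
    rw [hw, mul_right_comm]
    exact Ideal.mul_mem_right _ _ h
  -- the key congruence
  have key : ∀ i < 2 * n, ∀ j ∈ Set.Iio (2 * n) ∪ Z,
      E * (xf (til u (ee i)) (cst (ee j)) - C (om (ee i) (ee j)) * tt) ∈ nnI (Jd r s) := by
    intro i hi j hj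
    have hiT : i ∈ Set.Iio (2 * n) ∪ Z := Or.inl hi
    rcases c0k_cases i j with h | ⟨h, h2, h3⟩
    · refine hmul _ _ _ (hE1 i hi) (KI_iso r s u (ee i) (ee j) hu (fun k => huT k i hiT)
        (fun k => huT k j hj) (osf_self i) h (osf_self j)) ?_
      rw [h, map_zero, zero_mul, sub_zero]
    · have hjn : j < 2 * n := by omega
      rw [h, map_one, one_mul]
      by_cases hi0 : i = 0
      · have hj1 : j = 1 := by omega
        subst hi0 hj1
        rw [htt, sub_self, mul_zero]
        exact Ideal.zero_mem _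
      by_cases hi1 : i = 1
      · have hj0 : j = 0 := by omega
        subst hi1 hj0
        rw [htt, xf_til_comm, sub_self, mul_zero]
        exact Ideal.zero_mem _
      have h0T : 0 ∈ Set.Iio (2 * n) ∪ Z := Or.inl (by simp only [Set.mem_Iio]; omega)
      have h1T : 1 ∈ Set.Iio (2 * n) ∪ Z := Or.inl (by simp only [Set.mem_Iio]; omega)
      have h01 : om (ee 0) (ee 1) = 1 := by
        rcases c0k_cases 0 1 with h4 | h4
        · exfalso
          rw [T5.om_eq, T5.B_ee] at h4
          unfold _root_.MP50e386.gam _root_.MP50e386.pis sio at h4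
          simp at h4
        · exact h4.1
      refine hmul _ _ _ (hE2 i hi 0 (by omega) hi0) (KI_hyp r s u (ee i) (ee j) (ee 0) (ee 1) hu
        (fun k => huT k i hiT) (fun k => huT k j hj) (fun k => huT k 0 h0T)
        (fun k => huT k 1 h1T) (osf_self i) (osf_self j) (osf_self 0) (osf_self 1) h h01
        (c0k_om_div (by omega)) (c0k_om_div (by omega)) (c0k_om_div (by omega))
        (c0k_om_div (by omega))) ?_
      rw [htt]
  -- the two homomorphisms
  obtain ⟨ψ', hψ'⟩ : ∃ ψ' : ℕ → VR AA, ψ' = fun i => if i < 2 * n then pit u (ee i) else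
    if i ∈ Z then cst (ee i) else 0 := ⟨_, rfl⟩
  obtain ⟨θ, hθ⟩ : ∃ θ : AA →+* AA, θ = (Polynomial.eval₂RingHom
    ((GLRing.sb ψ' : AA →ₐ[ℂ] AA) : AA →+* AA) (Dl u * tt)).comp
      (tauA : AA →+* Polynomial AA) := ⟨_, rfl⟩
  have hθ' : ∀ a, θ a = (tauA a).eval₂ ((GLRing.sb ψ' : AA →ₐ[ℂ] AA) : AA →+* AA)
      (Dl u * tt) := by
    intro a
    rw [hθ]
    rfl
  have hψ0 : ∀ i, ψ' i ∈ Submodule.span AA ((fun v => (cst v : VR AA)) ''
      (Submodule.span ℂ (Set.range u ∪ ee '' Z) : Set V)) := by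
    intro i
    rw [hψ']
    beta_reduce
    split_ifs with h1 h2
    · refine Submodule.span_mono (Set.image_mono ?_) (pit_mem_span u (ee i))
      exact Set.subset_union_left.trans Submodule.subset_span
    · exact Submodule.subset_span ⟨ee i, Submodule.subset_span (Or.inr ⟨i, h2, rfl⟩), rfl⟩
    · exact Submodule.zero_mem _
  have hW : ∀ v ∈ Submodule.span ℂ (Set.range u ∪ ee '' Z),
      ∀ w ∈ Submodule.span ℂ (Set.range u ∪ ee '' Z), om v w = 0 := by
    apply c0k_om_span
    rintro v (⟨i, rfl⟩ | ⟨z, hz, rfl⟩) w (⟨j, rfl⟩ | ⟨z', hz', rfl⟩)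
    · exact hu i j
    · exact huT i z' (Or.inr hz')
    · exact (osf_comm _ _).trans (huT j z (Or.inr hz))
    · exact hZi z hz z' hz'
  have hθf : θ f ∈ nnI (Jd r s) := by
    rw [hθ', Polynomial.eval₂_eq_sum_range]
    refine Ideal.sum_mem _ fun k _ => Ideal.mul_mem_right _ _ ?_
    exact rc_nnI ((mem_KK _ _).1 hf k) _ hW ψ' hψ0
  have hgen : ∀ i ∈ Set.Iio (2 * n) ∪ Z, ∀ j ∈ Set.Iio (2 * n) ∪ Z,
      E * (GLRing.sb (c0k_psi n (Dl u)) (X s(i, j) : AA) - θ (X s(i, j))) ∈ nnI (Jd r s) := by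
    intro i hi j hj
    have e1 : GLRing.sb (c0k_psi n (Dl u)) (X s(i, j) : AA) =
        xf (c0k_psi n (Dl u) i) (c0k_psi n (Dl u) j) := sb_x' (R := AA) _ i j
    have e2 : GLRing.sb ψ' (X s(i, j) : AA) = xf (ψ' i) (ψ' j) := sb_x' (R := AA) _ i j
    have e3 : GLRing.sb ψ' (C (omS s(i, j)) : AA) = C (om (ee i) (ee j)) :=
      (GLRing.sb ψ' : AA →ₐ[ℂ] AA).commutes _
    have e4 : θ (X s(i, j)) = xf (ψ' i) (ψ' j) + C (om (ee i) (ee j)) * (Dl u * tt) := by
      rw [hθ', tauA_X, Polynomial.eval₂_add, Polynomial.eval₂_mul, Polynomial.eval₂_C,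
        Polynomial.eval₂_C, Polynomial.eval₂_X, RingHom.coe_coe, e2, e3]
    rw [e1, e4]
    have hout : ∀ k ∈ Z, ψ' k = cst (ee k) := by
      intro k hk
      have h1 := hZ k hk
      rw [hψ']
      beta_reduce
      rw [if_neg (by omega), if_pos hk]
    have hin : ∀ k < 2 * n, ψ' k = pit u (ee k) := by
      intro k hk
      rw [hψ']
      beta_reduce
      rw [if_pos hk]
    have pin : ∀ k < 2 * n, c0k_psi n (Dl u) k = (Dl u : AA) • cst (ee k) := by
      intro k hk
      unfold c0k_psi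
      rw [if_pos hk]
    have pout : ∀ k ∈ Z, c0k_psi n (Dl u) k = cst (ee k) := by
      intro k hk
      have h1 := hZ k hk
      unfold c0k_psi
      rw [if_neg (by omega)]
    rcases hi with hi | hi <;> rcases hj with hj | hj
    · rw [hin i hi, hin j hj, pin i hi, pin j hj, c0k_pit_pit]
      have h1 := Ideal.mul_mem_left _ (Dl u : AA) (key i hi j (Or.inl hj))
      have h2 : E * (xf ((Dl u : AA) • cst (ee i)) ((Dl u : AA) • cst (ee j)) -
          (Dl u ^ 2 * xf (cst (ee i)) (cst (ee j)) - Dl u * xf (til u (ee i)) (cst (ee j)) +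
            C (om (ee i) (ee j)) * (Dl u * tt))) =
          Dl u * (E * (xf (til u (ee i)) (cst (ee j)) - C (om (ee i) (ee j)) * tt)) := by
        rw [map_smul, map_smul, LinearMap.smul_apply, smul_eq_mul, smul_eq_mul]
        ring
      rw [h2]
      exact h1
    · rw [hin i hi, hout j hj, pin i hi, pout j hj, c0k_pit_cst]
      have h1 := key i hi j (Or.inr hj)
      have h0 : om (ee i) (ee j) = 0 := c0k_om_div (by
        have := hZ j hj
        have := Set.mem_Iio.1 hi
        omega)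
      rw [h0, map_zero, zero_mul, sub_zero] at h1
      rw [h0, map_zero, zero_mul, add_zero, map_smul, LinearMap.smul_apply, smul_eq_mul,
        sub_sub_cancel]
      exact h1
    · rw [hout i hi, hin j hj, pout i hi, pin j hj, xf_comm _ (pit u (ee j)),
        xf_comm _ ((Dl u : AA) • cst (ee j)), c0k_pit_cst]
      have h1 := key j hj i (Or.inr hi)
      have h0 : om (ee j) (ee i) = 0 := c0k_om_div (by
        have := hZ i hi
        have := Set.mem_Iio.1 hj
        omega)
      have h0' : om (ee i) (ee j) = 0 := (osf_comm _ _).trans h0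
      rw [h0, map_zero, zero_mul, sub_zero] at h1
      rw [h0', map_zero, zero_mul, add_zero, map_smul, LinearMap.smul_apply, smul_eq_mul,
        sub_sub_cancel]
      exact h1
    · rw [hout i hi, hout j hj, pout i hi, pout j hj, hZi i hi j hj, map_zero, zero_mul,
        add_zero, sub_self, mul_zero]
      exact Ideal.zero_mem _
  have hall : ∀ F ∈ MP50e386N.LT AA (Set.Iio (2 * n) ∪ Z),
      E * (GLRing.sb (c0k_psi n (Dl u)) (constantCoeff F : AA) - θ (constantCoeff F)) ∈
        nnI (Jd r s) := by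
    intro F hF
    unfold MP50e386N.LT at hF
    induction hF using Algebra.adjoin_induction with
    | mem x hx =>
      rcases hx with ⟨i, hi, j, hj, rfl⟩ | ⟨a, i, hi, rfl⟩
      · rw [constantCoeff_C]
        exact hgen i hi j hj
      · rw [constantCoeff_X, map_zero, map_zero, sub_zero, mul_zero]
        exact Ideal.zero_mem _
    | algebraMap c =>
      have h2 : constantCoeff (algebraMap ℂ (U AA) c) = algebraMap ℂ AA c := by
        rw [IsScalarTower.algebraMap_apply ℂ AA (U AA), MvPolynomial.algebraMap_eq,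
          constantCoeff_C]
      have h3 : θ (algebraMap ℂ AA c) = algebraMap ℂ AA c := by
        rw [hθ']
        have h4 : tauA (algebraMap ℂ AA c) = Polynomial.C (algebraMap ℂ AA c) :=
          tauA.commutes c
        rw [h4, Polynomial.eval₂_C, RingHom.coe_coe, AlgHom.commutes]
      rw [h2, h3, AlgHom.commutes, sub_self, mul_zero]
      exact Ideal.zero_mem _
    | add x y _ _ hx hy =>
      rw [map_add, map_add, map_add]
      have h2 := Ideal.add_mem _ hx hy
      rw [← mul_add] at h2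
      rw [add_sub_add_comm]
      exact h2
    | mul x y _ _ hx hy =>
      rw [map_mul, map_mul, map_mul]
      have h2 : ∀ a b a' b' : AA, E * (a * b - a' * b') =
          b * (E * (a - a')) + a' * (E * (b - b')) := by
        intro a b a' b'
        ring
      rw [h2]
      exact Ideal.add_mem _ (Ideal.mul_mem_left _ _ hx) (Ideal.mul_mem_left _ _ hy)
  have hfin := hall _ hfT
  rw [constantCoeff_C, c0k_scale n D f hdeg] at hfin
  have h9 : E * Dl u ^ D * f = E * (Dl u ^ D * f - θ f) + E * θ f := by ring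
  rw [← hE, h9]
  exact Ideal.add_mem _ hfin (Ideal.mul_mem_left _ _ hθf)

end MP50e386O
end
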