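import Mathlib
import Pool.Agent.Lib.MP_50e386_al.B.Xa
import Pool.Agent.Lib.MP_50e386_al.B.Kd

section
/-! From fresh isotropic letters to arbitrary isotropic vectors (general form of paper 5.5). -/

namespace MP50e386O

open MvPolynomial Pool.Agent.Lib.MP50e386 MP50e386N

section

variable {R : Type} [CommRing R] [Algebra ℂ R] [GLRing R]

private theorem x10_congr {a : R} {T : Set ℕ} (ha : (C a : U R) ∈ MP50e386N.LT R T)
    (φ φ' : ℕ → V) (h : ∀ i ∈ T, φ i = φ' i) : sbR φ a = sbR φ' a := by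
  have h1 := sbC_congr ha φ φ' h
  rw [sbC_C, sbC_C] at h1
  exact C_injective _ _ h1

private theorem x10_expand (n J : ℕ) (f : U R) (hTD : TD n J f) (v : ℕ → V)
    (hv : ∀ i, ∀ l < 2 * n, v i l = 0) :
    ∃ f' : ℕ → U R, f' 0 = f ∧
      (∀ τ : ℂ, sbC (fun i => if i < 2 * n then ee i + τ • v i else ee i) f =
        ∑ d ∈ Finset.range (J + 1), τ ^ d • f' d) ∧
      ∀ d ≤ J, TD n (J - d) (f' d) := by
  obtain ⟨g, hg1, hg2⟩ := hTD
  have hex := fun e => MP50e386N.C8.expand n e (g e) (hg2 e) v hv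
  choose F hF0 hF1 hF2 using hex
  refine ⟨fun d => ∑ e ∈ Finset.range (J - d + 1), F (d + e) d, ?_, ?_, ?_⟩
  · beta_reduce
    rw [Nat.sub_zero, hg1]
    apply Finset.sum_congr rfl
    intro e _
    rw [zero_add, hF0]
  · intro τ
    have e1 : sbC (fun i => if i < 2 * n then ee i + τ • v i else ee i) f =
        ∑ e ∈ Finset.range (J + 1), ∑ d ∈ Finset.range (e + 1), τ ^ d • F e d := by
      conv_lhs => rw [hg1]
      rw [map_sum]
      exact Finset.sum_congr rfl fun e _ => hF1 e τ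
    rw [e1, Finset.sum_comm' (s' := fun d => Finset.Ico d (J + 1)) (t' := Finset.range (J + 1))
      (by
        intro x y
        rw [Finset.mem_range, Finset.mem_range, Finset.mem_Ico, Finset.mem_range]
        omega)]
    apply Finset.sum_congr rfl
    intro d hd
    have hd' := Finset.mem_range.1 hd
    rw [← Finset.smul_sum, Finset.sum_Ico_eq_sum_range, show J + 1 - d = J - d + 1 by omega]
  · intro d _
    refine ⟨fun e => F (d + e) d, rfl, fun e c => ?_⟩
    have h1 := hF2 (d + e) d c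
    rw [Nat.add_sub_cancel_left] at h1
    exact h1

private theorem x10_level (n N J : ℕ) (Z : Set ℕ) (hZf : Z.Finite) (w : ℕ → ℕ → V)
    (hwN : ∀ i l, N ≤ l → w i l = 0) :
    ∃ L : ℕ, (∀ i ∈ Set.Iio (2 * n) ∪ Z, i < 2 * L) ∧ ∀ i ≤ J, ∀ a l, 2 * L ≤ l → w i a l = 0 := by
  classical
  set T : Finset ℕ := (Finset.range (2 * n) ∪ hZf.toFinset) ∪
    (Finset.range (J + 1)).biUnion (fun i => (Finset.range N).biUnion
      (fun a => (w i a).support)) with hT
  refine ⟨T.sup id + 1, ?_, ?_⟩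
  · intro i hi
    have h1 : i ∈ T := by
      rw [hT, Finset.mem_union, Finset.mem_union, Finset.mem_range, hZf.mem_toFinset]
      rcases hi with hi | hi
      · exact Or.inl (Or.inl hi)
      · exact Or.inl (Or.inr hi)
    have h2 := Finset.le_sup (f := id) h1
    simp only [id] at h2
    omega
  · intro i hiJ a l hl
    by_cases haN : N ≤ a
    · rw [hwN i a haN]
      rfl
    by_contra hne
    have h1 : l ∈ T := by
      rw [hT, Finset.mem_union, Finset.mem_biUnion]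
      refine Or.inr ⟨i, Finset.mem_range.2 (by omega), ?_⟩
      rw [Finset.mem_biUnion]
      exact ⟨a, Finset.mem_range.2 (by omega), Finsupp.mem_support_iff.2 hne⟩
    have h2 := Finset.le_sup (f := id) h1
    simp only [id] at h2
    omega

/-- the base case -/
private theorem x10_base {𝔪 𝔫 : Ideal R} (h𝔫 : GSI 𝔫) (n N : ℕ) (H0 : R)
    (hN : (C H0 : U R) ∈ MP50e386N.LT R (Set.Iio N))
    (Z : Set ℕ) (hZf : Z.Finite) (_hZ : ∀ z ∈ Z, 2 * n ≤ z)
    (hF : ∀ f ∈ 𝔪, (C f : U R) ∈ MP50e386N.LT R (Set.Iio (2 * n) ∪ Z) → TD n 0 (C f : U R) →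
        ∀ w : ℕ → V, Iso w → (∀ i, ∀ z ∈ Set.Iio (2 * n) ∪ Z, om (w i) (ee z) = 0) →
          sbR w H0 * f ∈ 𝔫)
    (f : R) (hf : f ∈ 𝔪) (hfT : (C f : U R) ∈ MP50e386N.LT R (Set.Iio (2 * n) ∪ Z))
    (hTD : TD n 0 (C f : U R)) (a : ℕ → V) (ha : Iso a) (L : ℕ)
    (hL1 : ∀ i ∈ Set.Iio (2 * n) ∪ Z, i < 2 * L)
    (haZ : ∀ l, ∀ z ∈ Z, om (a l) (ee z) = 0) : sbR a H0 * f ∈ 𝔫 := by
  classical
  set y : ℕ → ℕ := fun l => 2 * L + 2 * l with hy
  have y_inj : Function.Injective y := by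
    intro a b h
    simp only [hy] at h
    omega
  have hlow : ∀ i ∈ Set.Iio (2 * n) ∪ Z, ∀ l, 2 * L ≤ l → (ee i : V) l = 0 := by
    intro i hi l hl
    have := hL1 i hi
    exact Finsupp.single_eq_of_ne (by omega)
  have Bye : ∀ l, ∀ i ∈ Set.Iio (2 * n) ∪ Z, T5.B (ee (y l)) (ee i) = 0 := fun l i hi =>
    T5.B_far (ee i) (hlow i hi) (by simp only [hy]; omega)
  have Byy : ∀ l l', T5.B (ee (y l)) (ee (y l')) = 0 := fun l l' => T5.B_bb L l l'
  -- letters of `f`
  have hfZ : (C f : U R) ∈ MP50e386N.LT R ((Set.Iio (2 * n) ∪ Z) \ Set.Iio (2 * n)) := by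
    obtain ⟨g, hfg, hg⟩ := hTD
    rw [zero_add, Finset.sum_range_one] at hfg
    refine LT_of_TD_zero hfT (fun c => ?_)
    have h2 := hg 0 c
    rw [← hfg] at h2
    exact h2
  have hfZ' : (C f : U R) ∈ MP50e386N.LT R Z := by
    refine LT_mono ?_ hfZ
    rintro i ⟨hi, hi2⟩
    exact hi.resolve_left hi2
  have h1 : sbR (fun l => ee (y l)) H0 * f ∈ 𝔫 := by
    refine hF f hf hfT hTD _ ?_ ?_
    · intro l l'
      rw [T5.om_eq, Byy]
    · intro l z hz
      rw [T5.om_eq, Bye l z hz]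
  set Φ : ℕ → V := Function.extend y a ee with hΦ
  have Φy : ∀ l, Φ (y l) = a l := fun l => by rw [hΦ, y_inj.extend_apply]
  have Φe : ∀ i ∈ Z, Φ i = ee i := by
    intro i hi
    have h1 : ¬ ∃ l, y l = i := by
      rintro ⟨l, hl⟩
      have h2 := hL1 i (Or.inr hi)
      simp only [hy] at hl
      omega
    rw [hΦ, Function.extend_apply' _ _ _ h1]
  have h2 := witt1I h𝔫 h1 (T := Z ∪ y '' Set.Iio N) (hZf.union ((Set.finite_Iio N).image y)) (by
    rw [map_mul]
    refine Subalgebra.mul_mem _ ?_ (LT_mono Set.subset_union_left hfZ')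
    rw [← sbC_C]
    refine sbC_LT hN _ ?_
    intro i hi j hj
    refine Or.inr ⟨i, hi, ?_⟩
    by_contra hne
    exact hj (Finsupp.single_eq_of_ne (Ne.symm hne))) Φ (by
    rintro i (hi | ⟨l, -, rfl⟩) i' (hi' | ⟨l', -, rfl⟩)
    · rw [Φe i hi, Φe i' hi']
    · rw [Φe i hi, Φy, T5.om_eq, T5.om_eq, T5.B_anti, T5.B_anti (ee i), Bye l' i (Or.inr hi),
        ← T5.om_eq, haZ l' i hi]
    · rw [Φe i' hi', Φy, haZ l i' hi', T5.om_eq, Bye l i' (Or.inr hi')]
    · rw [Φy, Φy, ha l l', T5.om_eq, Byy])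
  rw [map_mul, sbR_sbR] at h2
  have h3 : (fun i => linC Φ (ee (y i))) = a := by
    funext i
    rw [linC_ee, Φy]
  have h4 : sbR Φ f = f := by
    rw [x10_congr hfZ' Φ ee Φe, sbR_id]
  rw [h3, h4] at h2
  exact h2

/-- the step -/
private theorem x10_step {𝔪 𝔫 : Ideal R} (h𝔪 : GSI 𝔪) (h𝔫 : GSI 𝔫) (n N : ℕ) (HJ : R)
    (hN : (C HJ : U R) ∈ MP50e386N.LT R (Set.Iio N)) (J : ℕ)
    (Z : Set ℕ) (hZf : Z.Finite) (_hZ : ∀ z ∈ Z, 2 * n ≤ z)
    (_hZi : ∀ z ∈ Z, ∀ z' ∈ Z, om (ee z) (ee z') = 0)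
    (hF : ∀ f ∈ 𝔪, (C f : U R) ∈ MP50e386N.LT R (Set.Iio (2 * n) ∪ Z) → TD n J (C f : U R) →
        ∀ w : ℕ → V, Iso w → (∀ i, ∀ z ∈ Set.Iio (2 * n) ∪ Z, om (w i) (ee z) = 0) →
          sbR w HJ * f ∈ 𝔫)
    (f : R) (hf : f ∈ 𝔪) (hfT : (C f : U R) ∈ MP50e386N.LT R (Set.Iio (2 * n) ∪ Z))
    (hTD : TD n J (C f : U R)) (a : ℕ → V) (ha : Iso a) (L : ℕ)
    (hL1 : ∀ i ∈ Set.Iio (2 * n) ∪ Z, i < 2 * L) (hL2 : ∀ l m, 2 * L ≤ m → a l m = 0)
    (haZ : ∀ l, ∀ z ∈ Z, om (a l) (ee z) = 0) :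
    ∃ (P : ℕ → R) (f' : ℕ → R), P 0 = sbR a HJ ∧ f' 0 = f ∧
      ∑ d ∈ Finset.range (J + 1), P d * f' d ∈ 𝔫 ∧
      ∀ d ≤ J, f' d ∈ 𝔪 ∧ TD n (J - d) (C (f' d) : U R) ∧
        (C (f' d) : U R) ∈ MP50e386N.LT R (Set.Iio (2 * n) ∪
          (Z ∪ (fun l => 2 * L + 2 * l + 1) '' Set.Iio N)) := by
  classical
  set y : ℕ → ℕ := fun l => 2 * L + 2 * l with hy
  set yd : ℕ → ℕ := fun l => 2 * L + 2 * l + 1 with hyd
  have hnL : n ≤ L := by
    rcases Nat.eq_zero_or_pos n with h | h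
    · omega
    · have := hL1 (2 * n - 1) (Or.inl (by rw [Set.mem_Iio]; omega))
      omega
  have y_inj : Function.Injective y := by
    intro a b h
    simp only [hy] at h
    omega
  -- the form on the vectors
  have Baa : ∀ l l', T5.B (a l) (a l') = 0 := fun l l' => by rw [← T5.om_eq]; exact ha l l'
  have Bya : ∀ l l', T5.B (ee (y l)) (a l') = 0 := fun l l' =>
    T5.B_far (a l') (hL2 l') (by simp only [hy]; omega)
  have Bda : ∀ l l', T5.B (ee (yd l)) (a l') = 0 := fun l l' =>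
    T5.B_far (a l') (hL2 l') (by simp only [hyd]; omega)
  have hlow : ∀ i ∈ Set.Iio (2 * n) ∪ Z, ∀ l, 2 * L ≤ l → (ee i : V) l = 0 := by
    intro i hi l hl
    have := hL1 i hi
    exact Finsupp.single_eq_of_ne (by omega)
  have Bye : ∀ l, ∀ i ∈ Set.Iio (2 * n) ∪ Z, T5.B (ee (y l)) (ee i) = 0 := fun l i hi =>
    T5.B_far (ee i) (hlow i hi) (by simp only [hy]; omega)
  have Bde : ∀ l, ∀ i ∈ Set.Iio (2 * n) ∪ Z, T5.B (ee (yd l)) (ee i) = 0 := fun l i hi =>
    T5.B_far (ee i) (hlow i hi) (by simp only [hyd]; omega)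
  have Byy : ∀ l l', T5.B (ee (y l)) (ee (y l')) = 0 := fun l l' => T5.B_bb L l l'
  have Bdd : ∀ l l', T5.B (ee (yd l)) (ee (yd l')) = 0 := fun l l' => T5.B_ss L l l'
  have Bdy : ∀ l l', T5.B (ee (yd l)) (ee (y l')) = if l' = l then 1 else 0 := by
    intro l l'
    have h1 := T5.B_sb L l l'
    simp only [hyd, hy]
    rw [h1]
  -- the replacement vectors
  set v : ℕ → V := fun i => ∑ l ∈ Finset.range N, (- om (a l) (ee i)) • ee (yd l) with hv
  have hvlow : ∀ i, ∀ l < 2 * n, v i l = 0 := by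
    intro i l hl
    simp only [hv]
    rw [Finsupp.finsetSum_apply]
    apply Finset.sum_eq_zero
    intro l' _
    rw [Finsupp.smul_apply, Finsupp.single_eq_of_ne (by simp only [hyd]; omega), smul_zero]
  have hvZ : ∀ z ∈ Z, v z = 0 := by
    intro z hz
    simp only [hv]
    apply Finset.sum_eq_zero
    intro l _
    rw [haZ l z hz, neg_zero, zero_smul]
  have Bve : ∀ i, ∀ i' ∈ Set.Iio (2 * n) ∪ Z, T5.B (v i) (ee i') = 0 := by
    intro i i' hi'
    simp only [hv]
    rw [T5.B_suml]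
    exact Finset.sum_eq_zero fun l _ => by rw [T5.B_sl, Bde l i' hi', mul_zero]
  have Bvv : ∀ i i', T5.B (v i) (v i') = 0 := by
    intro i i'
    simp only [hv]
    rw [T5.B_suml]
    refine Finset.sum_eq_zero fun l _ => ?_
    rw [T5.B_sl, T5.B_sumr, Finset.sum_eq_zero, mul_zero]
    intro l' _
    rw [T5.B_sr, Bdd, mul_zero]
  have Bva : ∀ i l, T5.B (v i) (a l) = 0 := by
    intro i l
    simp only [hv]
    rw [T5.B_suml]
    exact Finset.sum_eq_zero fun l' _ => by rw [T5.B_sl, Bda l' l, mul_zero]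
  have Bvy : ∀ i, ∀ l < N, T5.B (v i) (ee (y l)) = - T5.B (a l) (ee i) := by
    intro i l hl
    simp only [hv]
    rw [T5.B_suml, Finset.sum_eq_single l]
    · rw [T5.B_sl, Bdy, if_pos rfl, T5.om_eq]
      ring
    · intro l' _ hl'
      rw [T5.B_sl, Bdy, if_neg (Ne.symm hl'), mul_zero]
    · intro h
      exact absurd (Finset.mem_range.2 hl) h
  -- expansion
  obtain ⟨F, hF0, hF1, hF2⟩ := x10_expand n J (C f) hTD v hvlow
  have hψgen : ∀ τ : ℂ, ∀ i ∈ Set.Iio (2 * n) ∪ Z,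
      (if i < 2 * n then (ee i : V) + τ • v i else ee i) = ee i + τ • v i := by
    intro τ i hi
    split_ifs with h
    · rfl
    · have hz : i ∈ Z := hi.resolve_left h
      rw [hvZ i hz, smul_zero, add_zero]
  have hτinf : ∀ P : ℂ → Prop, (∀ τ, P τ) → {τ : ℂ | P τ}.Infinite := by
    intro P hP
    have : {τ : ℂ | P τ} = Set.univ := Set.eq_univ_of_forall hP
    rw [this]
    exact Set.infinite_univ
  have hpres : ∀ τ : ℂ, ∀ i ∈ Set.Iio (2 * n) ∪ Z, ∀ i' ∈ Set.Iio (2 * n) ∪ Z,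
      om (if i < 2 * n then (ee i : V) + τ • v i else ee i)
        (if i' < 2 * n then (ee i' : V) + τ • v i' else ee i') = om (ee i) (ee i') := by
    intro τ i hi i' hi'
    rw [hψgen τ i hi, hψgen τ i' hi', T5.om_eq, T5.om_eq, T5.B_al, T5.B_ar, T5.B_ar, T5.B_sl,
      T5.B_sl, T5.B_sr, T5.B_sr, Bvv, Bve i i' hi', T5.B_anti (ee i) (v i'), Bve i' i hi]
    ring
  have hmemM : ∀ d < J + 1, F d ∈ (ofI 𝔪 : Submodule R (U R)) := by
    intro d hd
    refine vand1 ((ofI 𝔪 : Submodule R (U R)).restrictScalars ℂ) (J + 1) F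
      (hτinf _ fun τ => ?_) d hd
    rw [← hF1 τ, sbC_C]
    exact (C_mem_ofI 𝔪 _).2 (witt1I h𝔪 hf ((Set.finite_Iio _).union hZf) hfT _ (hpres τ))
  have hLT' : ∀ d < J + 1, F d ∈ MP50e386N.LT R (Set.Iio (2 * n) ∪ (Z ∪ yd '' Set.Iio N)) := by
    intro d hd
    refine vand1 (Subalgebra.toSubmodule (MP50e386N.LT R (Set.Iio (2 * n) ∪
      (Z ∪ yd '' Set.Iio N)))) (J + 1) F (hτinf _ fun τ => ?_) d hd
    rw [← hF1 τ]
    refine sbC_LT hfT _ ?_
    intro i hi l hil
    rw [hψgen τ i hi, Finsupp.add_apply, Finsupp.smul_apply] at hil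
    by_cases h1 : i = l
    · rw [← h1]
      rcases hi with hi | hi
      · exact Or.inl hi
      · exact Or.inr (Or.inl hi)
    · rw [Finsupp.single_eq_of_ne (Ne.symm h1), zero_add] at hil
      have h2 : v i l ≠ 0 := fun h => hil (by rw [h, smul_zero])
      simp only [hv] at h2
      rw [Finsupp.finsetSum_apply] at h2
      obtain ⟨l', hl'N, hl'⟩ := Finset.exists_ne_zero_of_sum_ne_zero h2
      rw [Finsupp.smul_apply] at hl'
      by_cases h3 : yd l' = l
      · exact Or.inr (Or.inr ⟨l', Finset.mem_range.1 hl'N, h3⟩)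
      · rw [Finsupp.single_eq_of_ne (Ne.symm h3), smul_zero] at hl'
        exact absurd rfl hl'
  -- (F)
  have hFf : sbR (fun l => ee (y l)) HJ * f ∈ 𝔫 := by
    refine hF f hf hfT hTD _ ?_ ?_
    · intro l l'
      rw [T5.om_eq, Byy]
    · intro l z hz
      rw [T5.om_eq, Bye l z hz]
  have hELT : (C (sbR (fun l => ee (y l)) HJ * f) : U R) ∈
      MP50e386N.LT R ((Set.Iio (2 * n) ∪ Z) ∪ y '' Set.Iio N) := by
    rw [map_mul]
    refine Subalgebra.mul_mem _ ?_ (LT_mono Set.subset_union_left hfT)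
    rw [← sbC_C]
    refine sbC_LT hN _ ?_
    intro i hi j hj
    refine Or.inr ⟨i, hi, ?_⟩
    by_contra hne
    exact hj (Finsupp.single_eq_of_ne (Ne.symm hne))
  -- the polynomial
  obtain ⟨P, hP⟩ := MP50e386N.C8.sbR_poly (R := R) (fun l => ee (y l)) a HJ
  have hP0 : P.coeff 0 = sbR a HJ := by
    have h1 := hP 0
    rw [map_zero, ← Polynomial.coeff_zero_eq_eval_zero] at h1
    rw [← h1]
    congr 1
    congr 1
    funext i
    rw [zero_smul, zero_add]
  -- the main family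
  have hmain : ∀ t : ℂ, t ≠ 0 →
      (P.eval (algebraMap ℂ R t)) • ∑ d ∈ Finset.range (J + 1), t ^ (J - d) • F d ∈
        (ofI 𝔫 : Submodule R (U R)) := by
    intro t ht
    set Φ : ℕ → V := Function.extend y (fun l => t • ee (y l) + a l)
      (fun i => if i < 2 * n then ee i + t⁻¹ • v i else ee i) with hΦ
    have Φy : ∀ l, Φ (y l) = t • ee (y l) + a l := fun l => by rw [hΦ, y_inj.extend_apply]
    have Φe : ∀ i ∈ Set.Iio (2 * n) ∪ Z, Φ i = ee i + t⁻¹ • v i := by
      intro i hi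
      have h1 : ¬ ∃ l, y l = i := by
        rintro ⟨l, hl⟩
        have h2 := hL1 i hi
        simp only [hy] at hl
        omega
      rw [hΦ, Function.extend_apply' _ _ _ h1]
      exact hψgen _ i hi
    have h1 := witt1I h𝔫 hFf (T := (Set.Iio (2 * n) ∪ Z) ∪ y '' Set.Iio N)
      (((Set.finite_Iio _).union hZf).union ((Set.finite_Iio N).image y)) hELT Φ (by
        have hmix : ∀ i ∈ Set.Iio (2 * n) ∪ Z, ∀ l < N, T5.B (Φ i) (Φ (y l)) = 0 := by
          intro i hi l hl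
          rw [Φe i hi, Φy, T5.B_al, T5.B_ar, T5.B_ar, T5.B_sl, T5.B_sl, T5.B_sr, T5.B_sr, Bva,
            Bvy i l hl, T5.B_anti (ee i) (ee (y l)), Bye l i hi, T5.B_anti (ee i) (a l)]
          field_simp
          ring
        rintro i (hi | ⟨l, hl, rfl⟩) i' (hi' | ⟨l', hl', rfl⟩)
        · rw [Φe i hi, Φe i' hi', T5.om_eq, T5.om_eq, T5.B_al, T5.B_ar, T5.B_ar, T5.B_sl,
            T5.B_sl, T5.B_sr, T5.B_sr, Bvv, Bve i i' hi', T5.B_anti (ee i) (v i'), Bve i' i hi]
          ring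
        · rw [T5.om_eq, T5.om_eq, hmix i hi l' hl', T5.B_anti, Bye l' i hi]
        · rw [T5.om_eq, T5.om_eq, T5.B_anti, hmix i' hi' l hl, Bye l i' hi']
        · rw [Φy, Φy, T5.om_eq, T5.om_eq, T5.B_al, T5.B_ar, T5.B_ar, T5.B_sl, T5.B_sl, T5.B_sr,
            T5.B_sr, Byy, Bya, T5.B_anti (a l) (ee (y l')), Bya, Baa]
          ring)
    rw [map_mul, sbR_sbR] at h1
    have h2 : (C (sbR Φ f) : U R) = ∑ d ∈ Finset.range (J + 1), t⁻¹ ^ d • F d := by
      rw [← sbC_C, ← hF1 t⁻¹]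
      apply sbC_congr hfT
      intro i hi
      rw [Φe i hi, hψgen _ i hi]
    have h3 : ∑ d ∈ Finset.range (J + 1), t ^ (J - d) • F d = t ^ J • (C (sbR Φ f) : U R) := by
      rw [h2, Finset.smul_sum]
      apply Finset.sum_congr rfl
      intro d hd
      have hd' : d ≤ J := by
        have := Finset.mem_range.1 hd
        omega
      rw [smul_smul]
      congr 1
      rw [inv_pow, ← div_eq_mul_inv, pow_sub₀ _ ht hd', div_eq_mul_inv]
    have h4 : (fun i => linC Φ (ee (y i))) = fun i => t • (ee (y i) : V) + a i := by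
      funext i
      rw [linC_ee, Φy]
    rw [h4] at h1
    rw [h3, ← hP, smul_comm]
    refine smulC_mem _ _ ?_
    rw [smul_eq_C_mul, ← map_mul]
    exact (C_mem_ofI 𝔫 _).2 h1
  -- the coefficient of `t ^ J`
  have hcoef : ∑ d ∈ Finset.range (J + 1), P.coeff d • F d ∈ (ofI 𝔫 : Submodule R (U R)) := by
    set Q : Polynomial (U R) := (P.map (C : R →+* U R)) *
      ∑ d ∈ Finset.range (J + 1), Polynomial.C (F d) * Polynomial.X ^ (J - d) with hQ
    have h1 := vand_poly ((ofI 𝔫 : Submodule R (U R)).restrictScalars ℂ) Q (by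
      refine Set.Infinite.mono (s := {t : ℂ | t ≠ 0}) ?_ ?_
      · intro t ht
        have h2 := hmain t ht
        have h3 : Q.eval (algebraMap ℂ (U R) t) =
            (P.eval (algebraMap ℂ R t)) • ∑ d ∈ Finset.range (J + 1), t ^ (J - d) • F d := by
          rw [hQ, Polynomial.eval_mul, smul_eq_C_mul]
          congr 1
          · have h4 : (algebraMap ℂ (U R) t) = (C : R →+* U R) (algebraMap ℂ R t) := rfl
            rw [h4, Polynomial.eval_map_apply]
          · rw [Polynomial.eval_finsetSum]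
            apply Finset.sum_congr rfl
            intro d _
            rw [Polynomial.eval_mul, Polynomial.eval_C, Polynomial.eval_pow, Polynomial.eval_X,
              ← map_pow, Algebra.smul_def, mul_comm]
        change Q.eval (algebraMap ℂ (U R) t) ∈
          (ofI 𝔫 : Submodule R (U R)).restrictScalars ℂ
        rw [h3]
        exact h2
      · exact (Set.finite_singleton (0 : ℂ)).infinite_compl) J
    have h2 : Q.coeff J = ∑ d ∈ Finset.range (J + 1), P.coeff d • F d := by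
      rw [hQ, Finset.mul_sum, Polynomial.finsetSum_coeff]
      apply Finset.sum_congr rfl
      intro d hd
      have hd' : d ≤ J := by
        have := Finset.mem_range.1 hd
        omega
      rw [← mul_assoc, Polynomial.coeff_mul_X_pow', if_pos (by omega), Polynomial.coeff_mul_C,
        Polynomial.coeff_map, smul_eq_C_mul]
      congr 3
      omega
    rw [h2] at h1
    exact h1
  -- the elements of `A`
  have hex : ∀ d, ∃ b : R, d ≤ J → b ∈ 𝔪 ∧ F d = C b := by
    intro d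
    by_cases hd : d ≤ J
    · obtain ⟨b, hb, hb2⟩ := (mem_ofI 𝔪 (F d)).1 (hmemM d (by omega))
      exact ⟨b, fun _ => ⟨hb, hb2⟩⟩
    · exact ⟨0, fun h => absurd h hd⟩
  choose f' hf' using hex
  refine ⟨P.coeff, f', hP0, ?_, ?_, ?_⟩
  · have h1 := (hf' 0 (Nat.zero_le _)).2
    rw [hF0] at h1
    exact (C_injective _ _ h1).symm
  · rw [← C_mem_ofI 𝔫, map_sum]
    have h1 : ∑ d ∈ Finset.range (J + 1), (C (P.coeff d * f' d) : U R) =
        ∑ d ∈ Finset.range (J + 1), P.coeff d • F d := by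
      apply Finset.sum_congr rfl
      intro d hd
      have hd' : d ≤ J := by
        have := Finset.mem_range.1 hd
        omega
      rw [map_mul, smul_eq_C_mul, (hf' d hd').2]
    rw [h1]
    exact hcoef
  · intro d hd
    refine ⟨(hf' d hd).1, ?_, ?_⟩
    · rw [← (hf' d hd).2]
      exact hF2 d hd
    · rw [← (hf' d hd).2]
      exact hLT' d (by omega)

private theorem x10_claim {𝔪 𝔫 : Ideal R} (h𝔪 : GSI 𝔪) (h𝔫 : GSI 𝔫) (n D : ℕ) (H : ℕ → R)
    (hF : ∀ j ≤ D, ∀ Z : Set ℕ, Z.Finite → (∀ z ∈ Z, 2 * n ≤ z) →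
      (∀ z ∈ Z, ∀ z' ∈ Z, om (ee z) (ee z') = 0) →
      ∀ f ∈ 𝔪, (C f : U R) ∈ MP50e386N.LT R (Set.Iio (2 * n) ∪ Z) → TD n j (C f : U R) →
        ∀ w : ℕ → V, Iso w → (∀ i, ∀ z ∈ Set.Iio (2 * n) ∪ Z, om (w i) (ee z) = 0) →
          sbR w (H j) * f ∈ 𝔫) (N : ℕ)
    (hN : ∀ i ≤ D, (C (H i) : U R) ∈ MP50e386N.LT R (Set.Iio N)) (j : ℕ) (hj : j ≤ D)
    (Z : Set ℕ) (hZf : Z.Finite) (hZ : ∀ z ∈ Z, 2 * n ≤ z)
    (hZi : ∀ z ∈ Z, ∀ z' ∈ Z, om (ee z) (ee z') = 0)
    (f : R) (hf : f ∈ 𝔪) (hfT : (C f : U R) ∈ MP50e386N.LT R (Set.Iio (2 * n) ∪ Z))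
    (hTD : TD n j (C f : U R)) (w : ℕ → ℕ → V) (hw : ∀ i, Iso (w i))
    (hwN : ∀ i l, N ≤ l → w i l = 0) (hwZ : ∀ i ≤ j, ∀ l, ∀ z ∈ Z, om (w i l) (ee z) = 0) :
    (∏ i ∈ Finset.range (j + 1), sbR (w i) (H i)) * f ∈ 𝔫 := by
  induction j generalizing Z f with
  | zero =>
    obtain ⟨L, hL1, -⟩ := x10_level n N 0 Z hZf w hwN
    rw [zero_add, Finset.prod_range_one]
    exact x10_base h𝔫 n N (H 0) (hN 0 (Nat.zero_le _)) Z hZf hZ
      (fun f hf hfT hTD w hw hwT => hF 0 (Nat.zero_le _) Z hZf hZ hZi f hf hfT hTD w hw hwT)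
      f hf hfT hTD (w 0) (hw 0) L hL1 (fun l z hz => hwZ 0 le_rfl l z hz)
  | succ j IH =>
    obtain ⟨L, hL1, hL2⟩ := x10_level n N (j + 1) Z hZf w hwN
    obtain ⟨P, f', hP0, hf'0, hsum, hf'⟩ := x10_step h𝔪 h𝔫 n N (H (j + 1)) (hN (j + 1) hj)
      (j + 1) Z hZf hZ hZi (fun f hf hfT hTD w hw hwT =>
        hF (j + 1) hj Z hZf hZ hZi f hf hfT hTD w hw hwT) f hf hfT hTD (w (j + 1)) (hw (j + 1)) L
      hL1 (fun l m hm => hL2 (j + 1) le_rfl l m hm) (fun l z hz => hwZ (j + 1) le_rfl l z hz)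
    have hnL : n ≤ L := by
      rcases Nat.eq_zero_or_pos n with h | h
      · omega
      · have := hL1 (2 * n - 1) (Or.inl (by rw [Set.mem_Iio]; omega))
        omega
    set Pi : R := ∏ i ∈ Finset.range (j + 1), sbR (w i) (H i) with hPi
    have hIH : ∀ d ∈ Finset.range (j + 1), Pi * f' (d + 1) ∈ 𝔫 := by
      intro d hd
      have hd' := Finset.mem_range.1 hd
      obtain ⟨h1, h2, h3⟩ := hf' (d + 1) (by omega)
      refine IH (by omega) (Z ∪ (fun l => 2 * L + 2 * l + 1) '' Set.Iio N)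
        (hZf.union ((Set.finite_Iio N).image _)) ?_ ?_ _ h1 h3
        (MP50e386N.TD_mono (by omega) h2) ?_
      · rintro z (hz | ⟨l, -, rfl⟩)
        · exact hZ z hz
        · beta_reduce
          omega
      · have Bde : ∀ l, ∀ i ∈ Z, T5.B (ee (2 * L + 2 * l + 1)) (ee i) = 0 := fun l i hi =>
          T5.B_far (n := L) (ee i) (fun m hm => by
            have := hL1 i (Or.inr hi)
            exact Finsupp.single_eq_of_ne (by omega)) (by omega)
        rintro z (hz | ⟨l, -, rfl⟩) z' (hz' | ⟨l', -, rfl⟩)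
        · exact hZi z hz z' hz'
        · beta_reduce
          rw [T5.om_eq, T5.B_anti, Bde l' z hz]
        · beta_reduce
          rw [T5.om_eq, Bde l z' hz']
        · beta_reduce
          rw [T5.om_eq, T5.B_ss]
      · rintro i hi l z (hz | ⟨l', -, rfl⟩)
        · exact hwZ i (by omega) l z hz
        · beta_reduce
          rw [T5.om_eq, T5.B_anti, T5.B_far (w i l) (fun m hm => hL2 i (by omega) l m hm)
            (by omega)]
    rw [Finset.sum_range_succ', hP0, hf'0] at hsum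
    have h4 := 𝔫.mul_mem_left Pi hsum
    rw [mul_add, Finset.mul_sum] at h4
    have h6 : ∑ d ∈ Finset.range (j + 1), Pi * (P (d + 1) * f' (d + 1)) ∈ 𝔫 := by
      apply Ideal.sum_mem
      intro d hd
      rw [mul_left_comm]
      exact 𝔫.mul_mem_left _ (hIH d hd)
    have h7 := (Submodule.add_mem_iff_right _ h6).1 h4
    rw [Finset.prod_range_succ, ← hPi, mul_assoc]
    exact h7

end

theorem A_gen {𝔪 𝔫 : Ideal AA} (h𝔪 : GSI 𝔪) (h𝔫 : GSI 𝔫) (n D : ℕ) (H : ℕ → AA)
    (hF : ∀ j ≤ D, ∀ Z : Set ℕ, Z.Finite → (∀ z ∈ Z, 2 * n ≤ z) →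
      (∀ z ∈ Z, ∀ z' ∈ Z, om (ee z) (ee z') = 0) →
      ∀ f ∈ 𝔪, (C f : U AA) ∈ MP50e386N.LT AA (Set.Iio (2 * n) ∪ Z) → TD n j (C f : U AA) →
        ∀ w : ℕ → V, Iso w → (∀ i, ∀ z ∈ Set.Iio (2 * n) ∪ Z, om (w i) (ee z) = 0) →
          sbR w (H j) * f ∈ 𝔫)
    (f : AA) (hf : f ∈ 𝔪) (hfT : (C f : U AA) ∈ MP50e386N.LT AA (Set.Iio (2 * n)))
    (hTD : TD n D (C f : U AA)) (w : ℕ → ℕ → V) (hw : ∀ j, Iso (w j)) :
    (∏ j ∈ Finset.range (D + 1), sbR (w j) (H j)) * f ∈ 𝔫 := by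
  classical
  have hex : ∀ i, ∃ m, (C (H i) : U AA) ∈ MP50e386N.LT AA (Set.Iio m) := fun i => exists_LT _
  choose m hm using hex
  set N : ℕ := (Finset.range (D + 1)).sup m with hNdef
  have hN : ∀ i ≤ D, (C (H i) : U AA) ∈ MP50e386N.LT AA (Set.Iio N) := by
    intro i hi
    refine LT_mono ?_ (hm i)
    apply Set.Iio_subset_Iio
    exact Finset.le_sup (f := m) (Finset.mem_range.2 (by omega))
  set w' : ℕ → ℕ → V := fun i l => if l < N then w i l else 0 with hw'
  have h1 : ∀ j ∈ Finset.range (D + 1), sbR (w j) (H j) = sbR (w' j) (H j) := by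
    intro j hj
    have hj' := Finset.mem_range.1 hj
    apply x10_congr (hN j (by omega))
    intro l hl
    rw [hw']
    beta_reduce
    rw [if_pos (Set.mem_Iio.1 hl)]
  rw [Finset.prod_congr rfl h1]
  have B0l : ∀ x : V, T5.B 0 x = 0 := by
    intro x
    have h := T5.B_sl 0 0 x
    rwa [zero_smul, zero_mul] at h
  have B0r : ∀ x : V, T5.B x 0 = 0 := by
    intro x
    rw [T5.B_anti, B0l]
  refine x10_claim h𝔪 h𝔫 n D H hF N hN D le_rfl ∅ Set.finite_empty
    (fun _ h => absurd h (Set.notMem_empty _)) (fun _ h => absurd h (Set.notMem_empty _)) f hf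
    (LT_mono Set.subset_union_left hfT) hTD w' ?_ ?_
    (fun _ _ _ _ h => absurd h (Set.notMem_empty _))
  · intro i l l'
    rw [hw']
    beta_reduce
    split_ifs
    · exact hw i l l'
    · rw [T5.om_eq, B0r]
    · rw [T5.om_eq, B0l]
    · rw [T5.om_eq, B0l]
  · intro i l hl
    rw [hw']
    beta_reduce
    rw [if_neg (by omega)]

end MP50e386O
end

section
/-! Products of the ideals `nn(J)`. -/

namespace MP50e386O

open MvPolynomial Pool.Agent.Lib.MP50e386 MP50e386N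

/-- products of elements of a generating set kill `f` -/
theorem span_pow_mul_mem {𝔫 : Ideal AA} (s : Set AA) (f : AA) (D : ℕ)
    (h : ∀ x : ℕ → AA, (∀ j < D, x j ∈ s) → (∏ j ∈ Finset.range D, x j) * f ∈ 𝔫) :
    ∀ c ∈ Ideal.span s ^ D, c * f ∈ 𝔫 := by
  classical
  induction D generalizing f with
  | zero =>
    intro c _
    have h1 := h (fun _ => 0) (fun j hj => absurd hj (Nat.not_lt_zero j))
    rw [Finset.range_zero, Finset.prod_empty, one_mul] at h1
    exact Ideal.mul_mem_left _ _ h1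
  | succ D ih =>
    intro c hc
    rw [pow_succ] at hc
    refine Submodule.mul_induction_on hc ?_ ?_
    · intro a ha b hb
      rw [mul_assoc]
      refine ih (b * f) ?_ a ha
      intro x hx
      have hb' : b ∈ Submodule.span AA s := hb
      induction hb' using Submodule.span_induction with
      | mem b hb1 =>
        have h1 := h (fun j => if j < D then x j else b) (by
          intro j hj
          by_cases hjD : j < D
          · simp only [if_pos hjD]
            exact hx j hjD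
          · simp only [if_neg hjD]
            exact hb1)
        rw [Finset.prod_range_succ, if_neg (lt_irrefl D)] at h1
        have h2 : ∏ j ∈ Finset.range D, (if j < D then x j else b) = ∏ j ∈ Finset.range D, x j := by
          refine Finset.prod_congr rfl fun j hj => ?_
          rw [if_pos (Finset.mem_range.1 hj)]
        rw [h2, mul_assoc] at h1
        exact h1
      | zero => rw [zero_mul, mul_zero]; exact 𝔫.zero_mem
      | add b b' _ _ h1 h2 =>
        rw [add_mul, mul_add]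
        exact 𝔫.add_mem (h1 ‹_›) (h2 ‹_›)
      | smul r b _ h1 =>
        have e : (∏ j ∈ Finset.range D, x j) * (r • b * f) = r * ((∏ j ∈ Finset.range D, x j) * (b * f)) := by
          rw [smul_eq_mul]; ring
        rw [e]
        exact Ideal.mul_mem_left _ _ (h1 ‹_›)
    · intro a b ha hb
      rw [add_mul]
      exact 𝔫.add_mem ha hb

/-! ### helpers -/

private theorem x11_congr {T : Set ℕ} {a : AA} (ha : (C a : U AA) ∈ MP50e386N.LT AA T) (φ φ' : ℕ → V)
    (h : ∀ i ∈ T, φ i = φ' i) : sbR φ a = sbR φ' a := by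
  have h1 := sbC_congr ha φ φ' h
  rw [sbC_C, sbC_C] at h1
  exact C_injective _ _ h1

private theorem x11_even {i j : ℕ} (hi : Even i) (hj : Even j) : om (ee i) (ee j) = 0 := by
  change osf (ee i) (ee j) = 0
  unfold osf
  rw [Finsupp.sum_single_index (by simp)]
  rw [if_pos hi, one_mul, Finsupp.single_eq_of_ne]
  intro h
  have h1 : ¬ Even (i + 1) := by
    rw [Nat.even_add_one]
    exact not_not.2 hi
  exact h1 (h ▸ hj)

private theorem x11_evenl (v : V) {i : ℕ} (hi : Even i) (h : v (i + 1) = 0) : om (ee i) v = 0 := by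
  change osf (ee i) v = 0
  unfold osf
  rw [Finsupp.sum_single_index (by simp), if_pos hi, one_mul, h]

private theorem x11_evenr (v : V) {i : ℕ} (hi : Even i) (h : v (i + 1) = 0) : om v (ee i) = 0 :=
  (osf_comm v (ee i)).trans (x11_evenl v hi h)

/-- far even letters -/
private theorem x11_far {F₁ F₂ : Ideal AA} (h₂ : GLSI F₂) {H : AA} (hH : H ∈ F₂) {f : AA}
    (hf : f ∈ nnI F₁) : ∃ N : ℕ, ∀ y : ℕ → ℕ, (∀ l, Even (y l) ∧ N ≤ y l) →
      sbR (fun l => ee (y l)) H * f ∈ nnI (F₁ * F₂) := by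
  classical
  have hf' : f ∈ Submodule.span AA {f | ∃ φ : ℕ → V, Iso φ ∧ ∃ g ∈ F₁, f = sbR φ g} := hf
  induction hf' using Submodule.span_induction with
  | mem f hf1 =>
    obtain ⟨φ, hφ, g, hg, rfl⟩ := hf1
    obtain ⟨m, hm⟩ := exists_LT (C g : U AA)
    refine ⟨(Finset.range m).sup (fun i => (φ i).support.sup id) + 1, fun y hy => ?_⟩
    have hsupp : ∀ i < m, ∀ l, φ i (y l + 1) = 0 := by
      intro i hi l
      by_contra hne
      have h1 : y l + 1 ∈ (φ i).support := Finsupp.mem_support_iff.2 hne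
      have h2 : y l + 1 ≤ (φ i).support.sup id := Finset.le_sup (f := id) h1
      have h3 : (φ i).support.sup id ≤ (Finset.range m).sup (fun i => (φ i).support.sup id) :=
        Finset.le_sup (f := fun i => (φ i).support.sup id) (Finset.mem_range.2 hi)
      have h4 := (hy l).2
      omega
    set θ : ℕ → V := fun i => if i < m then φ i else ee (y (i - m)) with hθ
    have hθ1 : ∀ i, i < m → θ i = φ i := fun i hi => by simp only [hθ, if_pos hi]
    have hθ2 : ∀ l, θ (m + l) = ee (y l) := fun l => by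
      have : ¬ (m + l < m) := by omega
      simp only [hθ, if_neg this, Nat.add_sub_cancel_left]
    have hIso : Iso θ := by
      intro i j
      rcases lt_or_ge i m with hi | hi
      · rcases lt_or_ge j m with hj | hj
        · rw [hθ1 i hi, hθ1 j hj]; exact hφ i j
        · obtain ⟨l, rfl⟩ := Nat.exists_eq_add_of_le hj
          rw [hθ1 i hi, hθ2]
          exact x11_evenr _ (hy l).1 (hsupp i hi l)
      · obtain ⟨k, rfl⟩ := Nat.exists_eq_add_of_le hi
        rcases lt_or_ge j m with hj | hj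
        · rw [hθ1 j hj, hθ2]
          exact x11_evenl _ (hy k).1 (hsupp j hj k)
        · obtain ⟨l, rfl⟩ := Nat.exists_eq_add_of_le hj
          rw [hθ2, hθ2]
          exact x11_even (hy k).1 (hy l).1
    have e0 : (fun l => linC θ (ee (m + l))) = fun l => ee (y l) := by
      funext l
      rw [linC_ee, hθ2]
    have e1 : sbR θ (sbR (fun l => ee (m + l)) H) = sbR (fun l => ee (y l)) H := by
      rw [sbR_sbR, e0]
    have e2 : sbR θ g = sbR φ g := x11_congr hm θ φ (fun i hi => hθ1 i hi)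
    have e3 : sbR (fun l => ee (y l)) H * sbR φ g = sbR θ (g * sbR (fun l => ee (m + l)) H) := by
      rw [map_mul, e1, e2, mul_comm]
    rw [e3]
    exact Ideal.subset_span ⟨θ, hIso, _, Ideal.mul_mem_mul hg (h₂ _ _ hH), rfl⟩
  | zero => exact ⟨0, fun y _ => by rw [mul_zero]; exact Ideal.zero_mem _⟩
  | add f f' _ _ h1 h2 =>
    obtain ⟨N, hN⟩ := h1 ‹_›
    obtain ⟨N', hN'⟩ := h2 ‹_›
    refine ⟨max N N', fun y hy => ?_⟩
    rw [mul_add]
    exact Ideal.add_mem _ (hN y fun l => ⟨(hy l).1, (le_max_left _ _).trans (hy l).2⟩)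
      (hN' y fun l => ⟨(hy l).1, (le_max_right _ _).trans (hy l).2⟩)
  | smul r f _ h1 =>
    obtain ⟨N, hN⟩ := h1 ‹_›
    refine ⟨N, fun y hy => ?_⟩
    rw [smul_eq_mul, mul_left_comm]
    exact Ideal.mul_mem_left _ _ (hN y hy)

private theorem x11_mulI {F₁ F₂ : Ideal AA} (h₁ : GLSI F₁) (h₂ : GLSI F₂) : GLSI (F₁ * F₂) :=
  GLSI.mul h₁ h₂

/-- the hypothesis of `A_gen` -/
private theorem x11_key {F₁ F₂ : Ideal AA} (h₁ : GLSI F₁) (h₂ : GLSI F₂) {H : AA} (hH : H ∈ F₂)
    {f : AA} (hf : f ∈ nnI F₁) {T : Set ℕ} (hT : T.Finite)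
    (hfT : (C f : U AA) ∈ MP50e386N.LT AA T) (w : ℕ → V) (hw : Iso w)
    (hwT : ∀ i, ∀ z ∈ T, om (w i) (ee z) = 0) : sbR w H * f ∈ nnI (F₁ * F₂) := by
  classical
  obtain ⟨N, hN⟩ := x11_far h₂ hH hf
  obtain ⟨m, hm⟩ := exists_LT (C H : U AA)
  obtain ⟨b, hb⟩ := hT.bddAbove
  set K : ℕ := N + b + 1 with hK
  set y : ℕ → ℕ := fun l => 2 * (K + l) with hy
  have hyE : ∀ l, Even (y l) ∧ N ≤ y l := fun l => ⟨even_two_mul _, by simp only [hy, hK]; omega⟩
  have hyT : ∀ l, ∀ z ∈ T, z < y l := by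
    intro l z hz
    have := hb hz
    simp only [hy, hK]
    omega
  have hmem := hN y hyE
  -- the substitution
  set φ : ℕ → V := fun i => if i ∈ T then ee i else w (i / 2 - K) with hφ
  have hφT : ∀ i ∈ T, φ i = ee i := fun i hi => by simp only [hφ, if_pos hi]
  have hφy : ∀ l, φ (y l) = w l := by
    intro l
    have h1 : y l ∉ T := fun h => lt_irrefl _ (hyT l _ h)
    simp only [hφ, if_neg h1]
    congr 1
    simp only [hy]
    omega
  have hL1 : (C (sbR (fun l => ee (y l)) H) : U AA) ∈ MP50e386N.LT AA (y '' Set.Iio m) := by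
    rw [← sbC_C]
    refine sbC_LT hm _ ?_
    intro i hi j hj
    have h1 : (ee (y i) : V) j ≠ 0 := hj
    by_cases h2 : j = y i
    · exact ⟨i, hi, h2.symm⟩
    · exact absurd (Finsupp.single_eq_of_ne h2) h1
  have hL2 : (C (sbR (fun l => ee (y l)) H * f) : U AA) ∈
      MP50e386N.LT AA (y '' Set.Iio m ∪ T) := by
    rw [C_mul]
    exact mul_mem (LT_mono Set.subset_union_left hL1) (LT_mono Set.subset_union_right hfT)
  have hfin : (y '' Set.Iio m ∪ T).Finite := ((Set.finite_Iio m).image y).union hT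
  have hfar : ∀ l, ∀ z ∈ T, om (ee (y l)) (ee z) = 0 := by
    intro l z hz
    refine x11_evenl _ (hyE l).1 (Finsupp.single_eq_of_ne ?_)
    have := hyT l z hz
    omega
  have hres := witt1I (nnI_GSI (x11_mulI h₁ h₂)) hmem hfin hL2 φ (by
    rintro i (⟨l, -, rfl⟩ | hi) j (⟨l', -, rfl⟩ | hj)
    · rw [hφy, hφy, hw l l', x11_even (hyE l).1 (hyE l').1]
    · rw [hφy, hφT j hj, hwT l j hj, hfar l j hj]
    · rw [hφy, hφT i hi]
      exact (osf_comm _ _).trans ((hwT l' i hi).trans ((hfar l' i hi).symm.trans (osf_comm _ _)))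
    · rw [hφT i hi, hφT j hj])
  rw [map_mul, sbR_sbR] at hres
  have e1 : (fun i => linC φ (ee (y i))) = w := by
    funext l
    rw [linC_ee, hφy]
  have e2 : sbR φ f = f := by
    rw [x11_congr hfT φ ee hφT, sbR_id]
  rw [e1, e2] at hres
  exact hres

/-- `nn(F₂)^(D+1) f ⊆ nn(F₁ F₂)` for `f ∈ nn(F₁)` of weight at most `D` -/
theorem nn_prod_one {F₁ F₂ : Ideal AA} (h₁ : GLSI F₁) (h₂ : GLSI F₂) (D : ℕ) (f : AA)
    (hf : f ∈ nnI F₁) (hD : ∃ e ≤ D, HW e (C f : U AA)) :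
    ∀ c ∈ nnI F₂ ^ (D + 1), c * f ∈ nnI (F₁ * F₂) := by
  classical
  obtain ⟨e, heD, hHW⟩ := hD
  obtain ⟨n, hn⟩ := exists_LT (C f : U AA)
  have hn2 : (C f : U AA) ∈ MP50e386N.LT AA (Set.Iio (2 * n)) :=
    LT_mono (Set.Iio_subset_Iio (by omega)) hn
  have hTD : TD n D (C f : U AA) := TD_mono heD (TD_of_HW hHW)
  refine span_pow_mul_mem _ f (D + 1) ?_
  intro x hx
  have hx' : ∀ j, ∃ (w : ℕ → V) (H : AA), Iso w ∧ H ∈ F₂ ∧ (j < D + 1 → x j = sbR w H) := by
    intro j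
    by_cases hj : j < D + 1
    · obtain ⟨w, hw, H, hH, h⟩ := hx j hj
      exact ⟨w, H, hw, hH, fun _ => h⟩
    · refine ⟨fun _ => 0, 0, fun _ _ => ?_, F₂.zero_mem, fun h => absurd h hj⟩
      simp [osf]
  choose w H hw hH hxe using hx'
  have hprod : ∏ j ∈ Finset.range (D + 1), x j = ∏ j ∈ Finset.range (D + 1), sbR (w j) (H j) :=
    Finset.prod_congr rfl fun j hj => hxe j (Finset.mem_range.1 hj)
  rw [hprod]
  refine A_gen (nnI_GSI h₁) (nnI_GSI (x11_mulI h₁ h₂)) n D H ?_ f hf hn2 hTD w hw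
  intro j _ Z hZ _ _ f' hf' hf'T _ w' hw' hw'T
  exact x11_key h₁ h₂ (hH j) hf' ((Set.finite_Iio _).union hZ) hf'T w' hw' hw'T

private theorem x11_det_GLSI (M N0 : ℕ) : GLSI (MP50e386.detIdeal M N0) := by
  intro φ f hf
  rw [sbR_eq_sub]
  exact MP50e386.detIdeal_stable M N0 φ f hf

private theorem x11_linC_smul (c : ℂ) (v : V) : linC (fun i => c • ee i) v = c • v := by
  conv_rhs => rw [← linC_id v]
  unfold linC
  rw [Finsupp.linearCombination_apply, Finsupp.linearCombination_apply, Finsupp.smul_sum]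
  refine Finsupp.sum_congr fun i _ => ?_
  rw [smul_comm]

private theorem x11_HW_Dl (M : ℕ) (w : Fin M → V) : HW (2 * M) (C (Dl w : AA) : U AA) := by
  intro c
  rw [sbC_C, sbR_Dl]
  have h1 := Dl_mat (R := AA) (c • (1 : Matrix (Fin M) (Fin M) ℂ)) w
  have h2 : (fun j => ∑ i, (c • (1 : Matrix (Fin M) (Fin M) ℂ)) i j • w i) = fun j => c • w j := by
    funext j
    rw [Finset.sum_eq_single j]
    · rw [Matrix.smul_apply, Matrix.one_apply_eq, smul_eq_mul, mul_one]
    · intro i _ hij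
      rw [Matrix.smul_apply, Matrix.one_apply_ne hij, smul_zero, zero_smul]
    · intro h
      exact absurd (Finset.mem_univ j) h
  rw [h2, Matrix.det_smul, Matrix.det_one, mul_one, Fintype.card_fin] at h1
  have h3 : (fun i => linC (fun i => c • ee i) (w i)) = fun j => c • w j := by
    funext j
    exact x11_linC_smul c (w j)
  rw [h3, h1, C_mul]
  rw [← pow_mul, mul_comm M 2, Algebra.smul_def]
  rfl

private theorem x11_HW_pow {d : ℕ} {a : AA} (h : HW d (C a : U AA)) (k : ℕ) :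
    HW (d * k) (C (a ^ k) : U AA) := by
  intro c
  have h1 := h c
  rw [sbC_C] at h1 ⊢
  rw [map_pow, C_pow, h1, smul_pow, ← pow_mul, C_pow]

/-- `nn(detIdeal) nn(F)^(D+1) ≤ nn(detIdeal · F)` -/
theorem nn_prod_det (M N0 : ℕ) {F : Ideal AA} (h : GLSI F) :
    nnI (MP50e386.detIdeal M N0) * nnI F ^ (2 * M * N0 + 1) ≤
      nnI (MP50e386.detIdeal M N0 * F) := by
  rw [Ideal.mul_le]
  intro x hx c hc
  have hx' : x ∈ Submodule.span AA {f | ∃ w : Fin M → V, Iso w ∧ f = (Dl w : AA) ^ N0} := by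
    rw [nnI_detIdeal] at hx
    exact hx
  induction hx' using Submodule.span_induction with
  | mem x hx1 =>
    obtain ⟨w, hw, rfl⟩ := hx1
    rw [mul_comm ((Dl w : AA) ^ N0) c]
    exact nn_prod_one (x11_det_GLSI M N0) h (2 * M * N0) _ hx
      ⟨2 * M * N0, le_rfl, x11_HW_pow (x11_HW_Dl M w) N0⟩ c hc
  | zero => rw [zero_mul]; exact Ideal.zero_mem _
  | add x x' hx1 hx2 h1 h2 =>
    rw [add_mul]
    refine Ideal.add_mem _ (h1 ?_) (h2 ?_)
    · rw [nnI_detIdeal]; exact hx1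
    · rw [nnI_detIdeal]; exact hx2
  | smul r x hx1 h1 =>
    rw [smul_eq_mul, mul_assoc]
    refine Ideal.mul_mem_left _ _ (h1 ?_)
    rw [nnI_detIdeal]; exact hx1

theorem nn_prod (r s a : ℕ) : ∃ b : ℕ,
    (nnI (MP50e386.detIdeal r (s + 1)) * nnI (MP50e386.detIdeal (r + 1) s)) ^ b ≤
      nnI ((MP50e386.detIdeal r (s + 1) * MP50e386.detIdeal (r + 1) s) ^ a) := by
  set J' := MP50e386.detIdeal r (s + 1) with hJ'
  set J'' := MP50e386.detIdeal (r + 1) s with hJ''
  have g' : GLSI J' := x11_det_GLSI _ _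
  have g'' : GLSI J'' := x11_det_GLSI _ _
  induction a with
  | zero => exact ⟨0, by rw [pow_zero, pow_zero, Ideal.one_eq_top, nnI_top]⟩
  | succ a ih =>
    obtain ⟨b, hb⟩ := ih
    have gF : GLSI ((J' * J'') ^ a) := GLSI.pow (x11_mulI g' g'') a
    have h1 := nn_prod_det (r + 1) s gF
    have h2 := nn_prod_det r (s + 1) (x11_mulI g'' gF)
    set K' := 2 * (r + 1) * s + 1 with hK'
    set K := 2 * r * (s + 1) + 1 with hK
    set PQ := nnI J' * nnI J'' with hPQ
    have hP : PQ ≤ nnI J' := Ideal.mul_le_left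
    have hQ : PQ ≤ nnI J'' := Ideal.mul_le_right
    refine ⟨1 + K * (1 + b * K'), ?_⟩
    have e : (J' * J'') ^ (a + 1) = J' * (J'' * (J' * J'') ^ a) := by
      rw [pow_succ']; ring
    rw [e]
    refine le_trans ?_ h2
    have h3 : PQ ^ (1 + b * K') ≤ nnI (J'' * (J' * J'') ^ a) := by
      refine le_trans ?_ h1
      rw [pow_add, pow_one, pow_mul]
      exact Ideal.mul_mono hQ (Ideal.pow_right_mono hb K')
    rw [pow_add, pow_one, mul_comm K, pow_mul]
    exact Ideal.mul_mono hP (Ideal.pow_right_mono h3 K)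

end MP50e386O
end

section
/-! `t` times a Gram determinant expression lies in `τ(A)`. -/

namespace MP50e386O

open MvPolynomial Pool.Agent.Lib.MP50e386 MP50e386N

private theorem x9a_om_comm (v w : V) : om v w = om w v := osf_comm v w

private theorem x9a_xv {v w : V} (h : om v w = 0) :
    tauA (xv v w : AA) = Polynomial.C (xv v w : AA) := by
  rw [tauA_xv, h, map_zero, map_zero, zero_mul, add_zero]

private theorem x9a_gram {m : ℕ} {w : Fin m → V} (h : ∀ i j, om (w i) (w j) = 0) :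
    (tauA : AA →+* Polynomial AA).mapMatrix (gramM w : Matrix (Fin m) (Fin m) AA) =
      (Polynomial.C : AA →+* Polynomial AA).mapMatrix (gramM w) := by
  ext1 i j
  exact x9a_xv (h i j)

private theorem x9a_Dl {m : ℕ} {w : Fin m → V} (h : ∀ i j, om (w i) (w j) = 0) :
    tauA (Dl w : AA) = Polynomial.C (Dl w : AA) := by
  have h1 : (tauA : AA →+* Polynomial AA) (Dl w : AA) = Polynomial.C (Dl w : AA) := by
    unfold Dl
    rw [RingHom.map_det, x9a_gram h, RingHom.map_det]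
  exact h1

private theorem x9a_adj {m : ℕ} {w : Fin m → V} (h : ∀ i j, om (w i) (w j) = 0) (l k : Fin m) :
    tauA ((gramM w : Matrix (Fin m) (Fin m) AA).adjugate l k) =
      Polynomial.C ((gramM w : Matrix (Fin m) (Fin m) AA).adjugate l k) := by
  have h1 : (tauA : AA →+* Polynomial AA).mapMatrix
      ((gramM w : Matrix (Fin m) (Fin m) AA).adjugate) =
      (Polynomial.C : AA →+* Polynomial AA).mapMatrix
      ((gramM w : Matrix (Fin m) (Fin m) AA).adjugate) := by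
    rw [RingHom.map_adjugate, RingHom.map_adjugate, x9a_gram h]
  exact congrFun (congrFun h1 l) k

private theorem x9a_xf_til {r : ℕ} (v : Fin r → V) (c y : V) :
    (xf (til v c) (cst y) : AA) = Dl v * xv c y - ∑ k, (∑ l, (xv c (v l) : AA) *
      (gramM v : Matrix (Fin r) (Fin r) AA).adjugate l k) * xv (v k) y := by
  unfold til pit
  rw [map_sub, LinearMap.sub_apply, map_smul, LinearMap.smul_apply, smul_eq_mul, map_sum,
    LinearMap.sum_apply]
  congr 1
  refine Finset.sum_congr rfl fun k _ => ?_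
  rw [map_smul, LinearMap.smul_apply, smul_eq_mul]
  rfl

private theorem x9a_mk_xv {J : Ideal AA} [GLIdeal J] (v w : V) :
    Ideal.Quotient.mk J (xv v w : AA) = (xv v w : AA ⧸ J) := by
  rw [xv_mk, xv_A]

private theorem x9a_mk_Dl {J : Ideal AA} [GLIdeal J] {m : ℕ} (w : Fin m → V) :
    Ideal.Quotient.mk J (Dl w : AA) = (Dl w : AA ⧸ J) := by
  unfold Dl
  rw [RingHom.map_det]
  congr 1
  ext1 i j
  exact x9a_mk_xv (w i) (w j)

private theorem x9a_mk_xf {J : Ideal AA} [GLIdeal J] {m : ℕ} (w : Fin m → V) (c y : V) :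
    Ideal.Quotient.mk J (xf (til w c) (cst y) : AA) = (xf (til w c) (cst y) : AA ⧸ J) := by
  rw [← det_border, ← det_border, RingHom.map_det]
  congr 1
  ext1 i j
  exact x9a_mk_xv _ _

/-- `t · Δ(u,c)^s Δ(u)` lies in `τ(A)` modulo `J[t]`, for letters `u, c` and a partner `c'` of `c` -/
theorem cond_letters (r s : ℕ) (u : Fin r → V) (c c' : V) (hu : ∀ i j, om (u i) (u j) = 0)
    (huc : ∀ i, om (u i) c = 0) (huc' : ∀ i, om (u i) c' = 0) (hcc : om c c = 0)
    (hcc' : om c c' = 1) :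
    ∃ f' : AA, tauA f' - Polynomial.X * Polynomial.C ((Dl1 u c : AA) ^ s * Dl u) ∈
      Ideal.map Polynomial.C (Jd r s) := by
  have hB : tauA (xf (til u c) (cst c') : AA) =
      Polynomial.C (xf (til u c) (cst c') : AA) + Polynomial.C (Dl u : AA) * Polynomial.X := by
    rw [x9a_xf_til]
    simp only [map_sub, map_mul, map_sum]
    rw [x9a_Dl hu, tauA_xv c c', hcc']
    have h1 : ∀ k l, tauA (xv c (u l) : AA) *
        tauA ((gramM u : Matrix (Fin r) (Fin r) AA).adjugate l k) =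
        Polynomial.C (xv c (u l) : AA) *
          Polynomial.C ((gramM u : Matrix (Fin r) (Fin r) AA).adjugate l k) := by
      intro k l
      rw [x9a_adj hu, x9a_xv (by rw [x9a_om_comm]; exact huc l)]
    have h2 : ∀ k, tauA (xv (u k) c' : AA) = Polynomial.C (xv (u k) c' : AA) :=
      fun k => x9a_xv (huc' k)
    simp only [h1, h2]
    simp only [map_one, one_mul]
    ring
  have hD : tauA (Dl1 u c : AA) = Polynomial.C (Dl1 u c : AA) := by
    unfold Dl1
    refine x9a_Dl fun i j => ?_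
    refine Fin.lastCases ?_ (fun i => ?_) i <;> refine Fin.lastCases ?_ (fun j => ?_) j
    · rw [Fin.snoc_last]
      exact hcc
    · rw [Fin.snoc_last, Fin.snoc_castSucc, x9a_om_comm]
      exact huc j
    · rw [Fin.snoc_last, Fin.snoc_castSucc]
      exact huc i
    · rw [Fin.snoc_castSucc, Fin.snoc_castSucc]
      exact hu i j
  have hJ : (Dl1 u c : AA) ^ s * xf (til u c) (cst c') ∈ Jd r s := by
    rw [← Ideal.Quotient.eq_zero_iff_mem, map_mul, map_pow]
    have h1 := KI (Rrs_P1 r s) u c (cst c')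
    have h2 : Ideal.Quotient.mk (Jd r s) (Dl1 u c : AA) = (Dl1 u c : Rrs r s) := x9a_mk_Dl _
    rw [h2, x9a_mk_xf]
    exact h1
  refine ⟨(Dl1 u c : AA) ^ s * xf (til u c) (cst c'), ?_⟩
  have h3 : tauA ((Dl1 u c : AA) ^ s * xf (til u c) (cst c')) -
      Polynomial.X * Polynomial.C ((Dl1 u c : AA) ^ s * Dl u) =
      Polynomial.C ((Dl1 u c : AA) ^ s * xf (til u c) (cst c')) := by
    rw [map_mul, map_pow, hD, hB, map_mul, map_mul, map_pow]
    ring
  rw [h3]
  exact Ideal.mem_map_of_mem _ hJ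

end MP50e386O
end
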