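import Mathlib
import Pool.Agent.Lib.MP_50e386_al.B.Xb
import Pool.Agent.Lib.MP_50e386_al.B.Xc

section
/-! Products. -/

namespace MP50e386O

open MvPolynomial Pool.Agent.Lib.MP50e386 MP50e386N

theorem NI_mono {𝔞 𝔟 : Ideal AA} (h : 𝔞 ≤ 𝔟) (h𝔞 : NI 𝔞) : NI 𝔟 := by
  intro S
  exact NoethInt.mono (Submodule.smul_mono_left h) le_rfl (h𝔞 S)

private theorem x7_HW_one : HW 0 (1 : U AA) := by
  intro c
  rw [map_one, pow_zero, one_smul]

private theorem x7_HW_X (p : ℕ × ℕ) : HW 1 (X p : U AA) := by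
  intro c
  obtain ⟨a, i⟩ := p
  have h1 : (cst (ee i) : VR AA) = Finsupp.single i 1 := by
    unfold cst
    rw [Finsupp.mapRange.linearMap_apply, Finsupp.mapRange_single, Algebra.linearMap_apply,
      map_one]
  rw [sbC_X, map_smul, LinearMap.map_smul_of_tower, h1, zf_single, one_smul, pow_one]

private theorem x7_HW_pow {d : ℕ} {f : U AA} (hf : HW d f) (k : ℕ) : HW (k * d) (f ^ k) := by
  induction k with
  | zero => rw [Nat.zero_mul, pow_zero]; exact x7_HW_one
  | succ k ih => rw [pow_succ, Nat.succ_mul]; exact HW_mul ih hf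

private theorem x7_HW_monomial (μ : ℕ × ℕ →₀ ℕ) : HW μ.degree (monomial μ (1 : AA)) := by
  classical
  rw [monomial_eq, C_1, one_mul]
  unfold Finsupp.prod Finsupp.degree
  have key : ∀ s : Finset (ℕ × ℕ), HW (∑ i ∈ s, μ i) (∏ a ∈ s, (X a : U AA) ^ μ a) := by
    intro s
    induction s using Finset.induction_on with
    | empty => rw [Finset.sum_empty, Finset.prod_empty]; exact x7_HW_one
    | insert a s ha ih =>
      rw [Finset.sum_insert ha, Finset.prod_insert ha]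
      have h1 := x7_HW_pow (x7_HW_X a) (μ a)
      rw [Nat.mul_one] at h1
      exact HW_mul h1 ih
  exact key _

/-- `F = 𝔟 M_S` is generated in bounded weight -/
theorem bd_smul_MS (𝔟 : Ideal AA) (h𝔟G : GSI 𝔟) (d : ℕ)
    (hd : 𝔟 = Ideal.span {f | f ∈ 𝔟 ∧ ∃ e ≤ d, f.IsHomogeneous e}) (S : Finset ℕ) :
    𝔟 • MS AA S = Submodule.span AA {f | f ∈ 𝔟 • MS AA S ∧ ∃ e ≤ 2 * d + S.card, HW e f} := by
  apply le_antisymm
  · set T : Submodule AA (U AA) :=
      Submodule.span AA {f | f ∈ 𝔟 • MS AA S ∧ ∃ e ≤ 2 * d + S.card, HW e f} with hT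
    rw [Submodule.smul_le]
    intro b hb n hn
    have hL : ∀ a ∈ S, a < S.sup id + 1 := fun a ha =>
      Nat.lt_succ_of_le (Finset.le_sup (f := id) ha)
    -- monomials
    have key : ∀ μ : ℕ × ℕ →₀ ℕ, monomial μ (1 : AA) ∈ MS AA S → b • monomial μ (1 : AA) ∈ T := by
      intro μ hμ
      have hdeg : μ.degree ≤ S.card := by
        have h1 := MS_le_BD S (S.sup id + 1) hL hμ
        rcases (monomial_mem_restrictSupport _).1 h1 with h2 | h2
        · exact h2.2
        · exact absurd h2 one_ne_zero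
      have h2 : 𝔟 ≤ T.comap (LinearMap.toSpanSingleton AA (U AA) (monomial μ (1 : AA))) := by
        conv_lhs => rw [hd]
        rw [Ideal.span_le]
        rintro f ⟨hf, e, he, hfe⟩
        rw [SetLike.mem_coe, Submodule.mem_comap, LinearMap.toSpanSingleton_apply, hT]
        refine Submodule.subset_span ⟨Submodule.smul_mem_smul hf hμ, 2 * e + μ.degree,
          by omega, ?_⟩
        rw [smul_eq_C_mul]
        exact HW_mul (HW_of_homog hfe) (x7_HW_monomial μ)
      exact h2 hb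
    rw [n.as_sum, Finset.smul_sum]
    refine Submodule.sum_mem _ fun μ hμ => ?_
    have h3 : monomial μ (1 : AA) ∈ MS AA S :=
      (monomial_mem_restrictSupport _).2 (Or.inl ((mem_restrictSupport_iff _).1 hn hμ))
    have h4 : b • monomial μ (coeff μ n) = coeff μ n • (b • monomial μ (1 : AA)) := by
      rw [smul_monomial, smul_monomial, smul_monomial, smul_eq_mul, smul_eq_mul, smul_eq_mul,
        mul_one, mul_comm]
    rw [h4]
    exact Submodule.smul_mem _ _ (key μ h3)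
  · rw [Submodule.span_le]
    rintro f ⟨hf, -⟩
    exact hf

theorem NI_mul {𝔞 𝔟 : Ideal AA} (h𝔞 : NI 𝔞) (h𝔞G : GSI 𝔞) (h𝔟 : NI 𝔟) (h𝔟G : GSI 𝔟) :
    NI (𝔞 * 𝔟) := by
  intro S
  have hY : GS (𝔟 • MS AA S) := GS.smul h𝔟G (gs_of_gls (GLS_MS S))
  obtain ⟨d, hd⟩ := bdgen 𝔟 h𝔟 h𝔟G
  have h1 : NoethInt (R := AA) GS (𝔞 • (𝔟 • MS AA S)) (𝔟 • MS AA S) :=
    FG 𝔞 h𝔞 h𝔞G S (𝔟 • MS AA S) hY Submodule.smul_le_right (2 * d + S.card)
      (bd_smul_MS 𝔟 h𝔟G d hd S)
  have h2 : (𝔞 * 𝔟) • MS AA S = 𝔞 • (𝔟 • MS AA S) := Submodule.mul_smul _ _ _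
  rw [h2]
  exact NoethInt.trans (fun _ _ => GS.sup) (fun _ _ => GS.inf) hY Submodule.smul_le_right
    Submodule.smul_le_right h1 (h𝔟 S)

theorem NI_pow {𝔞 : Ideal AA} (h𝔞 : NI 𝔞) (h𝔞G : GSI 𝔞) (k : ℕ) : NI (𝔞 ^ k) := by
  induction k with
  | zero =>
    intro S
    rw [pow_zero, Ideal.one_eq_top, Submodule.top_smul]
    exact NoethInt.refl _ _
  | succ k ih =>
    rw [pow_succ]
    exact NI_mul ih (h𝔞G.pow k) h𝔞 h𝔞G

end MP50e386O
end

section
/-! `A / K_J` is noetherian. -/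

namespace MP50e386O

open MvPolynomial Pool.Agent.Lib.MP50e386 MP50e386N

/-- `t`-polynomials over `A` inside `U_A[t]` -/

private theorem x8_csmul (c : ℂ) (P : Polynomial (U AA)) :
    c • P = Polynomial.map (C : AA →+* U AA) (Polynomial.C (algebraMap ℂ AA c)) * P := by
  have h : Polynomial.map (C : AA →+* U AA) (Polynomial.C (algebraMap ℂ AA c)) = algebraMap ℂ (Polynomial (U AA)) c := by
    rw [Polynomial.map_C, IsScalarTower.algebraMap_apply ℂ (U AA) (Polynomial (U AA)) c]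
    rfl
  rw [h, ← Algebra.smul_def]

private theorem x8_tauU_csmul (c : ℂ) (f : U AA) : tauU (c • f) = c • tauU f := by
  rw [← algebraMap_smul AA c f, tauU_smul, x8_csmul]
  congr 2
  rw [AlgHom.commutes]
  rfl

/-- `f ↦ t^k τ(f)` -/
private noncomputable def x8t (k : ℕ) : U AA →ₗ[ℂ] Polynomial (U AA) where
  toFun f := Polynomial.X ^ k * tauU f
  map_add' f g := by rw [map_add, mul_add]
  map_smul' c f := by rw [x8_tauU_csmul, RingHom.id_apply, mul_smul_comm]

private theorem x8t_apply (k : ℕ) (f : U AA) : x8t k f = Polynomial.X ^ k * tauU f := rfl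

private theorem x8t_smul (k : ℕ) (a : AA) (f : U AA) :
    x8t k (a • f) = Polynomial.map (C : AA →+* U AA) (tauA a) * x8t k f := by
  rw [x8t_apply, x8t_apply, tauU_smul]
  ring

/-- the image of `N` under `t^k τ` -/
private noncomputable def x8I (N : Submodule AA (U AA)) (k : ℕ) : Submodule ℂ (Polynomial (U AA)) :=
  (N.restrictScalars ℂ).map (x8t k)

private theorem mem_x8I {N : Submodule AA (U AA)} {k : ℕ} {P : Polynomial (U AA)} :
    P ∈ x8I N k ↔ ∃ f ∈ N, x8t k f = P := Iff.rfl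

/-- polynomials with coefficients in `J M_S` -/
private noncomputable def x8B (J : Ideal AA) (S : Finset ℕ) :
    Submodule ℂ (Polynomial (U AA)) where
  carrier := {P | ∀ k, P.coeff k ∈ J • MS AA S}
  zero_mem' := fun k => by rw [Polynomial.coeff_zero]; exact Submodule.zero_mem _
  add_mem' := by
    intro a b ha hb k
    rw [Polynomial.coeff_add]
    exact Submodule.add_mem _ (ha k) (hb k)
  smul_mem' := by
    intro c a ha k
    rw [Polynomial.coeff_smul]
    exact smulC_mem _ c (ha k)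

private theorem mem_x8B {J : Ideal AA} {S : Finset ℕ} {P : Polynomial (U AA)} :
    P ∈ x8B J S ↔ ∀ k, P.coeff k ∈ J • MS AA S := Iff.rfl

private theorem x8B_mul {J : Ideal AA} {S : Finset ℕ} {P : Polynomial (U AA)} (q : Polynomial AA)
    (hP : P ∈ x8B J S) : Polynomial.map (C : AA →+* U AA) q * P ∈ x8B J S := by
  intro k
  rw [Polynomial.coeff_mul]
  refine Submodule.sum_mem _ fun i _ => ?_
  rw [Polynomial.coeff_map, ← MvPolynomial.smul_eq_C_mul]
  exact Submodule.smul_mem _ _ (hP _)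

/-- `J[t] τ(M_S)` -/
private theorem x8B_J {J : Ideal AA} {S : Finset ℕ} {q : Polynomial AA}
    (hq : q ∈ Ideal.map Polynomial.C J) {f : U AA} (hf : f ∈ MS AA S) :
    Polynomial.map (C : AA →+* U AA) q * tauU f ∈ x8B J S := by
  intro k
  rw [Polynomial.coeff_mul]
  refine Submodule.sum_mem _ fun i _ => ?_
  rw [Polynomial.coeff_map, ← MvPolynomial.smul_eq_C_mul]
  exact Submodule.smul_mem_smul (Ideal.mem_map_C_iff.1 hq _) (tauU_MS S f hf _)

/-- `t^k τ(N)`, `k < l`, modulo `J M_S` -/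
private noncomputable def x8Y (J : Ideal AA) (S : Finset ℕ) (N : Submodule AA (U AA)) (l : ℕ) :
    Submodule ℂ (Polynomial (U AA)) :=
  Nat.rec (x8B J S) (fun k Z => Z ⊔ x8I N k) l

private theorem x8Y_zero (J : Ideal AA) (S : Finset ℕ) (N : Submodule AA (U AA)) :
    x8Y J S N 0 = x8B J S := rfl

private theorem x8Y_succ (J : Ideal AA) (S : Finset ℕ) (N : Submodule AA (U AA)) (l : ℕ) :
    x8Y J S N (l + 1) = x8Y J S N l ⊔ x8I N l := rfl

private theorem x8Y_mono (J : Ideal AA) (S : Finset ℕ) (N : Submodule AA (U AA)) :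
    Monotone (x8Y J S N) := by
  refine monotone_nat_of_le_succ fun l => ?_
  rw [x8Y_succ]
  exact le_sup_left

private theorem x8Y_B (J : Ideal AA) (S : Finset ℕ) (N : Submodule AA (U AA)) (l : ℕ) :
    x8B J S ≤ x8Y J S N l := by
  rw [← x8Y_zero J S N]
  exact x8Y_mono J S N (Nat.zero_le l)

private theorem x8Y_mem (J : Ideal AA) (S : Finset ℕ) {N : Submodule AA (U AA)} {k l : ℕ}
    (h : k < l) {f : U AA} (hf : f ∈ N) : x8t k f ∈ x8Y J S N l := by
  refine x8Y_mono J S N h ?_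
  rw [x8Y_succ]
  exact Submodule.mem_sup_right ⟨f, hf, rfl⟩

/-- induction principle -/
private theorem x8Y_le {J : Ideal AA} {S : Finset ℕ} {N : Submodule AA (U AA)} {l : ℕ}
    {Z : Submodule ℂ (Polynomial (U AA))} (h0 : x8B J S ≤ Z)
    (h1 : ∀ k < l, ∀ f ∈ N, x8t k f ∈ Z) : x8Y J S N l ≤ Z := by
  induction l with
  | zero => exact h0
  | succ l ih =>
    rw [x8Y_succ]
    refine sup_le (ih fun k hk => h1 k (by omega)) ?_
    rintro P ⟨f, hf, rfl⟩
    exact h1 l (Nat.lt_succ_self l) f hf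

private theorem x8Y_mul {J : Ideal AA} {S : Finset ℕ} {N : Submodule AA (U AA)} {l : ℕ} (a : AA)
    {P : Polynomial (U AA)} (hP : P ∈ x8Y J S N l) : Polynomial.map (C : AA →+* U AA) (tauA a) * P ∈ x8Y J S N l := by
  have h : x8Y J S N l ≤ (x8Y J S N l).comap (LinearMap.mulLeft ℂ (Polynomial.map (C : AA →+* U AA) (tauA a))) := by
    refine x8Y_le (fun Q hQ => ?_) (fun k hk f hf => ?_)
    · exact x8Y_B J S N l (x8B_mul _ hQ)
    · rw [Submodule.mem_comap, LinearMap.mulLeft_apply, ← x8t_smul]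
      exact x8Y_mem J S hk (N.smul_mem a hf)
  exact h hP

private theorem x8I_mul {N : Submodule AA (U AA)} {l : ℕ} (a : AA)
    {P : Polynomial (U AA)} (hP : P ∈ x8I N l) : Polynomial.map (C : AA →+* U AA) (tauA a) * P ∈ x8I N l := by
  obtain ⟨f, hf, rfl⟩ := hP
  exact ⟨a • f, N.smul_mem a hf, x8t_smul l a f⟩

/-- the action as a linear map -/
private noncomputable def x8A (φ : ℕ → V) (μ : ℂ) : Polynomial (U AA) →ₗ[ℂ] Polynomial (U AA) where
  toFun := actP φ μ
  map_add' := map_add _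
  map_smul' c P := by
    refine Polynomial.ext fun k => ?_
    rw [RingHom.id_apply, actP_coeff, Polynomial.coeff_smul, Polynomial.coeff_smul, actP_coeff,
      sbC_smulC, smul_comm]

private theorem x8_om {g : Cinf ≃ₗ[ℂ] Cinf} (hg : IsSo g) (c : ℂ) (i j : ℕ) :
    om (c • g (ee i)) (c • g (ee j)) = c ^ 2 * om (ee i) (ee j) := by
  have h : om (g (ee i)) (g (ee j)) = om (ee i) (ee j) := hg.2 (ee i) (ee j)
  rw [← h]
  simp only [T5.om_eq, T5.B_sl, T5.B_sr]
  ring

private theorem x8_act_t {g : Cinf ≃ₗ[ℂ] Cinf} (hg : IsSo g) (c : ℂ) (k : ℕ) (f : U AA) :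
    actP (fun i => c • g (ee i)) (c ^ 2) (x8t k f) =
      (c ^ 2) ^ k • x8t k (sbC (fun i => c • g (ee i)) f) := by
  rw [x8t_apply, x8t_apply, tauU_sbC _ (c ^ 2) (x8_om hg c), map_mul]
  have h : actP (fun i => c • g (ee i)) (c ^ 2) (Polynomial.X ^ k) =
      (c ^ 2) ^ k • (Polynomial.X ^ k : Polynomial (U AA)) := by
    refine Polynomial.ext fun n => ?_
    rw [actP_coeff, Polynomial.coeff_smul, Polynomial.coeff_X_pow]
    by_cases hn : n = k
    · rw [if_pos hn, map_one, hn]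
    · rw [if_neg hn, map_zero, smul_zero, smul_zero]
  rw [h, smul_mul_assoc]

private theorem x8B_act {J : Ideal AA} (hJG : GSI J) {S : Finset ℕ} {g : Cinf ≃ₗ[ℂ] Cinf}
    (hg : IsSo g) {c : ℂ} (hc : c ≠ 0) {P : Polynomial (U AA)} (hP : P ∈ x8B J S) :
    actP (fun i => c • g (ee i)) (c ^ 2) P ∈ x8B J S := by
  intro k
  rw [actP_coeff]
  exact smulC_mem _ _ (GS.smul hJG (gs_of_gls (GLS_MS S)) g hg c hc _ (hP k))

private theorem x8Y_act {J : Ideal AA} (hJG : GSI J) {S : Finset ℕ} {N : Submodule AA (U AA)}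
    (hN : GS N) {l : ℕ} {g : Cinf ≃ₗ[ℂ] Cinf}
    (hg : IsSo g) {c : ℂ} (hc : c ≠ 0) {P : Polynomial (U AA)} (hP : P ∈ x8Y J S N l) :
    actP (fun i => c • g (ee i)) (c ^ 2) P ∈ x8Y J S N l := by
  have h : x8Y J S N l ≤ (x8Y J S N l).comap (x8A (fun i => c • g (ee i)) (c ^ 2)) := by
    refine x8Y_le (fun Q hQ => ?_) (fun k hk f hf => ?_)
    · exact x8Y_B J S N l (x8B_act hJG hg hc hQ)
    · change actP (fun i => c • g (ee i)) (c ^ 2) (x8t k f) ∈ x8Y J S N l
      rw [x8_act_t hg]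
      exact Submodule.smul_mem _ _ (x8Y_mem J S hk (hN g hg c hc f hf))
  exact h hP

private theorem x8I_act {N : Submodule AA (U AA)}
    (hN : GS N) {l : ℕ} {g : Cinf ≃ₗ[ℂ] Cinf}
    (hg : IsSo g) {c : ℂ} (hc : c ≠ 0) {P : Polynomial (U AA)} (hP : P ∈ x8I N l) :
    actP (fun i => c • g (ee i)) (c ^ 2) P ∈ x8I N l := by
  obtain ⟨f, hf, rfl⟩ := hP
  rw [x8_act_t hg]
  exact Submodule.smul_mem _ _ ⟨_, hN g hg c hc f hf, rfl⟩

/-- the whole `t`-polynomial module -/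
private noncomputable def x8Z (J : Ideal AA) (S : Finset ℕ) (N : Submodule AA (U AA)) :
    Submodule ℂ (Polynomial (U AA)) := ⨆ l, x8Y J S N l

private theorem mem_x8Z {J : Ideal AA} {S : Finset ℕ} {N : Submodule AA (U AA)}
    {P : Polynomial (U AA)} : P ∈ x8Z J S N ↔ ∃ l, P ∈ x8Y J S N l :=
  Submodule.mem_iSup_of_directed _ (x8Y_mono J S N).directed_le

private theorem x8Z_le {J : Ideal AA} {S : Finset ℕ} {N : Submodule AA (U AA)}
    {Z : Submodule ℂ (Polynomial (U AA))} (h0 : x8B J S ≤ Z)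
    (h1 : ∀ k, ∀ f ∈ N, x8t k f ∈ Z) : x8Z J S N ≤ Z :=
  iSup_le fun _ => x8Y_le h0 fun k _ => h1 k

private theorem x8Z_t {J : Ideal AA} {S : Finset ℕ} {N : Submodule AA (U AA)} (k : ℕ) {f : U AA}
    (hf : f ∈ N) : x8t k f ∈ x8Z J S N :=
  mem_x8Z.2 ⟨k + 1, x8Y_mem J S (Nat.lt_succ_self k) hf⟩

private theorem x8Z_B {J : Ideal AA} {S : Finset ℕ} {N : Submodule AA (U AA)} :
    x8B J S ≤ x8Z J S N := fun _ hP => mem_x8Z.2 ⟨0, hP⟩

private theorem x8Z_mono {J : Ideal AA} {S : Finset ℕ} {N N' : Submodule AA (U AA)}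
    (h : N ≤ N') : x8Z J S N ≤ x8Z J S N' :=
  x8Z_le x8Z_B fun k _ hf => x8Z_t k (h hf)

private theorem x8Z_X {J : Ideal AA} {S : Finset ℕ} {N : Submodule AA (U AA)}
    {P : Polynomial (U AA)} (hP : P ∈ x8Z J S N) : Polynomial.X * P ∈ x8Z J S N := by
  have h : x8Z J S N ≤ (x8Z J S N).comap (LinearMap.mulLeft ℂ Polynomial.X) := by
    refine x8Z_le (fun Q hQ => ?_) (fun k f hf => ?_)
    · have h1 := x8B_mul (Polynomial.X : Polynomial AA) hQ
      rw [Polynomial.map_X] at h1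
      exact x8Z_B h1
    · have h1 : Polynomial.X * x8t k f = x8t (k + 1) f := by
        rw [x8t_apply, x8t_apply]
        ring
      rw [Submodule.mem_comap, LinearMap.mulLeft_apply, h1]
      exact x8Z_t _ hf
  exact h hP

private theorem x8Z_Xk {J : Ideal AA} {S : Finset ℕ} {N : Submodule AA (U AA)} (k : ℕ)
    {P : Polynomial (U AA)} (hP : P ∈ x8Z J S N) : Polynomial.X ^ k * P ∈ x8Z J S N := by
  induction k with
  | zero => rw [pow_zero, one_mul]; exact hP
  | succ k ih =>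
    rw [pow_succ', mul_assoc]
    exact x8Z_X ih

private theorem x8Z_GX {J : Ideal AA} (hJG : GSI J) {S : Finset ℕ} {N : Submodule AA (U AA)}
    (hN : GS N) : GX (x8Z J S N) := by
  refine ⟨fun a P hP => ?_, fun P hP => x8Z_X hP, fun g hg c hc P hP => ?_⟩
  · obtain ⟨n, p, hp⟩ := C_eq_sum_tau a
    have h1 : (Polynomial.C (C a) : Polynomial (U AA)) = Polynomial.map (C : AA →+* U AA) (Polynomial.C a) :=
      (Polynomial.map_C _).symm
    have h2 : Polynomial.C (C a) * P =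
        ∑ k ∈ Finset.range n, Polynomial.X ^ k * (Polynomial.map (C : AA →+* U AA) (tauA (p k)) * P) := by
      rw [h1, hp, Polynomial.map_sum, Finset.sum_mul]
      refine Finset.sum_congr rfl fun k _ => ?_
      rw [Polynomial.map_mul, Polynomial.map_pow, Polynomial.map_X, mul_assoc]
    rw [h2]
    refine Submodule.sum_mem _ fun k _ => x8Z_Xk k ?_
    obtain ⟨l, hl⟩ := mem_x8Z.1 hP
    exact mem_x8Z.2 ⟨l, x8Y_mul _ hl⟩
  · obtain ⟨l, hl⟩ := mem_x8Z.1 hP
    exact mem_x8Z.2 ⟨l, x8Y_act hJG hN hg hc hl⟩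

private theorem x8Z_up {J : Ideal AA} {S : Finset ℕ} {N : Submodule AA (U AA)}
    (hN : N ≤ MS AA S) {P : Polynomial (U AA)} (hP : P ∈ x8Z J S N) (k : ℕ) :
    P.coeff k ∈ MS AA S := by
  let Z : Submodule ℂ (Polynomial (U AA)) :=
    ((MS AA S).restrictScalars ℂ).comap ((Polynomial.lcoeff (U AA) k).restrictScalars ℂ)
  have h : x8Z J S N ≤ Z := by
    refine x8Z_le (fun Q hQ => ?_) (fun l f hf => ?_)
    · change Q.coeff k ∈ MS AA S
      exact Submodule.smul_le_right (hQ k)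
    · change (x8t l f).coeff k ∈ MS AA S
      rw [x8t_apply, Polynomial.coeff_X_pow_mul']
      split_ifs
      · exact tauU_MS S f (hN hf) _
      · exact Submodule.zero_mem _
  exact h hP

/-- Hilbert's basis theorem for the modules `x8Z` -/
private theorem x8_hilbert {J : Ideal AA} (hJ : NI J) (hJG : GSI J) {S : Finset ℕ}
    (N : ℕ → Submodule AA (U AA)) (hmono : Monotone N) (hN : ∀ i, GS (N i))
    (hNS : ∀ i, N i ≤ MS AA S) :
    ∃ n0, ∀ n ≥ n0, x8Z J S (N n) = x8Z J S (N n0) :=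
  hilbert J hJ S (fun i => x8Z J S (N i)) (fun _ _ hij => x8Z_mono (hmono hij))
    (fun i => x8Z_GX hJG (hN i)) (fun _ _ hP => x8Z_B hP) (fun i _ hP k => x8Z_up (hNS i) hP k)

/-- reduction to `m` powers of `t` -/
private theorem x8Z_int {J : Ideal AA} {m : ℕ} (hint : IntP J m) {S : Finset ℕ}
    {F : Submodule AA (U AA)} (hF : F ≤ MS AA S) : x8Z J S F ≤ x8Y J S F m := by
  refine x8Z_le (x8Y_B J S F m) fun k f hf => ?_
  obtain ⟨p, hp⟩ := hint.pow k
  have h1 := x8B_J (S := S) hp (hF hf)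
  have h2 : x8t k f = Polynomial.map (C : AA →+* U AA) (Polynomial.X ^ k - ∑ l ∈ Finset.range m,
      Polynomial.X ^ l * tauA (p l)) * tauU f + ∑ l ∈ Finset.range m, x8t l (p l • f) := by
    rw [Polynomial.map_sub, Polynomial.map_sum, Polynomial.map_pow, Polynomial.map_X, sub_mul,
      Finset.sum_mul, x8t_apply]
    have h3 : ∑ l ∈ Finset.range m, x8t l (p l • f) = ∑ l ∈ Finset.range m,
        Polynomial.map (C : AA →+* U AA) (Polynomial.X ^ l * tauA (p l)) * tauU f := by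
      refine Finset.sum_congr rfl fun l _ => ?_
      rw [x8t_smul, x8t_apply, Polynomial.map_mul, Polynomial.map_pow, Polynomial.map_X]
      ring
    rw [h3, sub_add_cancel]
  rw [h2]
  refine Submodule.add_mem _ (x8Y_B J S F m h1) (Submodule.sum_mem _ fun l hl => ?_)
  exact x8Y_mem J S (Finset.mem_range.1 hl) (F.smul_mem _ hf)

/-- `N^(l)` -/
private noncomputable def x8L (J : Ideal AA) (S : Finset ℕ) (F N : Submodule AA (U AA)) (l : ℕ) :
    Submodule AA (U AA) where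
  carrier := {f | f ∈ F ∧ x8t l f ∈ x8I N 0 ⊔ x8Y J S F l}
  zero_mem' := ⟨F.zero_mem, by rw [map_zero]; exact Submodule.zero_mem _⟩
  add_mem' := by
    rintro a b ⟨ha, ha'⟩ ⟨hb, hb'⟩
    refine ⟨F.add_mem ha hb, ?_⟩
    rw [map_add]
    exact Submodule.add_mem _ ha' hb'
  smul_mem' := by
    rintro a f ⟨hf, hf'⟩
    refine ⟨F.smul_mem a hf, ?_⟩
    obtain ⟨y, hy, z, hz, h⟩ := Submodule.mem_sup.1 hf'
    rw [x8t_smul, ← h, mul_add]
    exact Submodule.add_mem_sup (x8I_mul a hy) (x8Y_mul a hz)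

private theorem mem_x8L {J : Ideal AA} {S : Finset ℕ} {F N : Submodule AA (U AA)} {l : ℕ}
    {f : U AA} : f ∈ x8L J S F N l ↔ f ∈ F ∧ x8t l f ∈ x8I N 0 ⊔ x8Y J S F l := Iff.rfl

private theorem x8L_GS {J : Ideal AA} (hJG : GSI J) {S : Finset ℕ} {F N : Submodule AA (U AA)}
    (hF : GS F) (hN : GS N) (l : ℕ) : GS (x8L J S F N l) := by
  rintro g hg c hc f ⟨hf, hf'⟩
  refine mem_x8L.2 ⟨hF g hg c hc f hf, ?_⟩
  obtain ⟨y, hy, z, hz, h⟩ := Submodule.mem_sup.1 hf'
  have hne : (c ^ 2) ^ l ≠ 0 := pow_ne_zero _ (pow_ne_zero _ hc)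
  have h1 : x8t l (sbC (fun i => c • g (ee i)) f) =
      ((c ^ 2) ^ l)⁻¹ • actP (fun i => c • g (ee i)) (c ^ 2) (x8t l f) := by
    rw [x8_act_t hg, smul_smul, inv_mul_cancel₀ hne, one_smul]
  rw [h1, ← h, map_add]
  exact Submodule.smul_mem _ _ (Submodule.add_mem_sup (x8I_act hN hg hc hy)
    (x8Y_act hJG hF hg hc hz))

private theorem x8L_mono {J : Ideal AA} {S : Finset ℕ} {F N N' : Submodule AA (U AA)} {l : ℕ}
    (h : N ≤ N') : x8L J S F N l ≤ x8L J S F N' l := by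
  rintro f ⟨hf, hf'⟩
  refine mem_x8L.2 ⟨hf, ?_⟩
  have h1 : x8I N 0 ≤ x8I N' 0 := by
    rintro P ⟨f, hf, rfl⟩
    exact ⟨f, h hf, rfl⟩
  exact sup_le_sup_right h1 _ hf'

private theorem x8L_low {J : Ideal AA} {S : Finset ℕ} {F N : Submodule AA (U AA)} {l : ℕ}
    (hFS : F ≤ MS AA S) (hFN : F ≤ N) {𝔞 : Ideal AA} (hc : ∀ c ∈ 𝔞, CondP J c) :
    𝔞 • F ≤ x8L J S F N l := by
  rw [Submodule.smul_le]
  intro c hc' f hf
  refine mem_x8L.2 ⟨F.smul_mem c hf, ?_⟩
  obtain ⟨c', h⟩ := hc c hc' l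
  have h1 := x8B_J (S := S) h (hFS hf)
  have h2 : x8t l (c • f) = x8t 0 (c' • f) +
      (-(Polynomial.map (C : AA →+* U AA) (tauA c' - Polynomial.X ^ l * tauA c) * tauU f)) := by
    rw [x8t_smul, x8t_smul, x8t_apply, x8t_apply, Polynomial.map_sub, Polynomial.map_mul,
      Polynomial.map_pow, Polynomial.map_X]
    ring
  rw [h2]
  exact Submodule.add_mem_sup ⟨c' • f, hFN (F.smul_mem c' hf), rfl⟩
    (Submodule.neg_mem _ (x8Y_B J S F l h1))

theorem NI_KK (J : Ideal AA) (hJ : NI J) (hJG : GSI J) (m : ℕ) (hint : IntP J m)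
    (𝔞 : Ideal AA) (h𝔞 : NI 𝔞) (h𝔞G : GSI 𝔞) (hc : ∀ c ∈ 𝔞, CondP J c) : NI (KK J) := by
  classical
  intro S N hmono hN
  have hNS : ∀ i, N i ≤ MS AA S := fun i => (hN i).2.2
  have hNG : ∀ i, GS (N i) := fun i => (hN i).1
  -- the modules `Y(N_i)` are eventually constant
  obtain ⟨i0, hi0⟩ := x8_hilbert hJ hJG N hmono hNG hNS
  -- the submodule generated in bounded weight
  let s : ℕ → Set (U AA) := fun d => {f | f ∈ N i0 ∧ ∃ e ≤ d, HW e f}
  let G : ℕ → Submodule AA (U AA) := fun d => Submodule.span AA (s d)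
  have hGN : ∀ d, G d ≤ N i0 := fun d => Submodule.span_le.2 fun f hf => hf.1
  have hGmono : Monotone G := by
    intro d d' hdd'
    refine Submodule.span_mono ?_
    rintro f ⟨hf, e, he, hfe⟩
    exact ⟨hf, e, he.trans hdd', hfe⟩
  have hGG : ∀ d, GS (G d) := by
    intro d
    refine GS_span _ ?_
    rintro g hg c hc f ⟨hf, e, he, hfe⟩
    exact Submodule.subset_span ⟨hNG i0 g hg c hc f hf, e, he, HW_sbC hfe _⟩
  have hGS : ∀ d, G d ≤ MS AA S := fun d => (hGN d).trans (hNS i0)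
  have hGU : ∀ f ∈ N i0, ∃ d, f ∈ G d := by
    intro f hf
    obtain ⟨n, g, hg, hg'⟩ := exists_HW_decomp f
    rw [hg] at hf
    refine ⟨n, ?_⟩
    rw [hg]
    refine Submodule.sum_mem _ fun d hd => Submodule.subset_span ?_
    have hd' := Finset.mem_range.1 hd
    exact ⟨GS_HW_comp (hNG i0) n g hg' hf d hd', d, hd'.le, hg' d⟩
  obtain ⟨d1, hd1⟩ := x8_hilbert hJ hJG G hGmono hGG hGS
  set F := G d1 with hFdef
  have hFN : F ≤ N i0 := hGN d1
  have hFS : F ≤ MS AA S := hGS d1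
  have hFG : GS F := hGG d1
  have hYF : x8Z J S (N i0) ≤ x8Y J S F m := by
    refine le_trans (x8Z_le x8Z_B fun k f hf => ?_) (x8Z_int hint hFS)
    obtain ⟨d, hd⟩ := hGU f hf
    have h1 : f ∈ G (max d d1) := hGmono (le_max_left _ _) hd
    have h2 : x8t k f ∈ x8Z J S (G (max d d1)) := x8Z_t k h1
    rw [hd1 _ (le_max_right _ _)] at h2
    exact h2
  have hFgen : F = Submodule.span AA {f | f ∈ F ∧ ∃ e ≤ d1, HW e f} := by
    apply le_antisymm
    · refine Submodule.span_le.2 ?_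
      rintro f ⟨hf, e, he, hfe⟩
      exact Submodule.subset_span ⟨Submodule.subset_span ⟨hf, e, he, hfe⟩, e, he, hfe⟩
    · exact Submodule.span_le.2 fun f hf => hf.1
  have hFGth := FG 𝔞 h𝔞 h𝔞G S F hFG hFS d1 hFgen
  -- the modules `N_i^(l)` are eventually constant
  have hL : ∀ l : ℕ, ∃ n0, ∀ n ≥ n0, x8L J S F (N (i0 + n)) l = x8L J S F (N (i0 + n0)) l := by
    intro l
    refine hFGth (fun i => x8L J S F (N (i0 + i)) l)
      (fun i j hij => x8L_mono (hmono (Nat.add_le_add_left hij i0))) (fun i => ⟨?_, ?_, ?_⟩)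
    · exact x8L_GS hJG hFG (hNG _) l
    · exact x8L_low hFS (hFN.trans (hmono (Nat.le_add_right i0 i))) hc
    · exact fun f hf => hf.1
  choose n0 hn0 using hL
  set i1 := (Finset.range m).sup n0 with hi1
  refine ⟨i0 + i1, fun j hj => le_antisymm (fun f hf => ?_) (hmono hj)⟩
  have key : ∀ l ≤ m, x8t 0 f ∈ x8I (N (i0 + i1)) 0 ⊔ x8Y J S F l := by
    intro l hl
    induction hk : m - l generalizing l with
    | zero =>
      have hlm : l = m := by omega
      rw [hlm]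
      refine Submodule.mem_sup_right (hYF ?_)
      rw [← hi0 j (by omega)]
      exact x8Z_t 0 hf
    | succ k ih =>
      have h1 := ih (l + 1) (by omega) (by omega)
      obtain ⟨y, hy, z, hz, h⟩ := Submodule.mem_sup.1 h1
      rw [x8Y_succ] at hz
      obtain ⟨w, hw, v, hv, h'⟩ := Submodule.mem_sup.1 hz
      obtain ⟨a, ha, rfl⟩ := hv
      obtain ⟨n, hn, rfl⟩ := hy
      have hn' : n ∈ N (i0 + i1) := hn
      have ha' : a ∈ F := ha
      have hfn : f - n ∈ N j := Submodule.sub_mem _ hf (hmono hj hn')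
      have e1 : x8t l a = x8t 0 (f - n) + (-w) := by
        rw [map_sub, ← h, ← h']
        abel
      have h2 : a ∈ x8L J S F (N (i0 + (j - i0))) l := by
        rw [show i0 + (j - i0) = j by omega]
        refine mem_x8L.2 ⟨ha', ?_⟩
        rw [e1]
        exact Submodule.add_mem_sup ⟨f - n, hfn, rfl⟩ (Submodule.neg_mem _ hw)
      have hle : n0 l ≤ i1 := Finset.le_sup (f := n0) (Finset.mem_range.2 (by omega))
      rw [hn0 l (j - i0) (by omega), ← hn0 l i1 hle] at h2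
      have h3 := h2.2
      rw [← h, ← h', add_comm w, ← add_assoc]
      refine Submodule.add_mem _ (Submodule.add_mem _ (Submodule.mem_sup_left ⟨n, hn, rfl⟩) h3)
        (Submodule.mem_sup_right hw)
  have h0 := key 0 (Nat.zero_le m)
  rw [x8Y_zero] at h0
  obtain ⟨y, hy, z, hz, h⟩ := Submodule.mem_sup.1 h0
  obtain ⟨n, hn, rfl⟩ := hy
  have hn' : n ∈ N (i0 + i1) := hn
  have hfn : f - n ∈ MS AA S :=
    Submodule.sub_mem _ (hNS _ hf) (hNS _ hn')
  have e1 : tauU (f - n) = z := by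
    have e2 : x8t 0 (f - n) = z := by
      rw [map_sub, ← h]
      abel
    rw [x8t_apply, pow_zero, one_mul] at e2
    exact e2
  have h4 : f - n ∈ KK J • MS AA S := by
    rw [KK_smul_MS J S _ hfn, e1]
    exact hz
  have h5 : f - n ∈ N (i0 + i1) := (hN _).2.1 h4
  have h6 : f = (f - n) + n := by abel
  rw [h6]
  exact Submodule.add_mem _ h5 hn'

end MP50e386O
end
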