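import Mathlib
import Pool.Agent.Lib.MP_50e386_al.B.Oa

section
/-! From the standard symmetric form to the split symmetric form. -/

namespace MP50e386O

open MvPolynomial Pool.Agent.Lib.MP50e386 MP50e386N

/-- the images of the basis vectors -/
noncomputable def thv (i : ℕ) : V :=
  if Even i then ee i + Complex.I • ee (i + 1)
  else (2⁻¹ : ℂ) • ee (i - 1) - (2⁻¹ * Complex.I : ℂ) • ee i

/-- the images of the basis vectors under the inverse -/
noncomputable def thw (i : ℕ) : V :=
  if Even i then (2⁻¹ : ℂ) • ee i + ee (i + 1)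
  else Complex.I • ee i - (2⁻¹ * Complex.I : ℂ) • ee (i - 1)

private theorem x17_even (k : ℕ) : Even (2 * k) := even_two_mul k
private theorem x17_odd (k : ℕ) : ¬ Even (2 * k + 1) := by
  rw [Nat.not_even_iff_odd]
  exact odd_two_mul_add_one k

theorem thv_even (k : ℕ) : thv (2 * k) = ee (2 * k) + Complex.I • ee (2 * k + 1) := by
  rw [thv, if_pos (x17_even k)]

theorem thv_odd (k : ℕ) : thv (2 * k + 1) = (2⁻¹ : ℂ) • ee (2 * k) -
    (2⁻¹ * Complex.I : ℂ) • ee (2 * k + 1) := by
  rw [thv, if_neg (x17_odd k), Nat.add_sub_cancel]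

theorem thw_even (k : ℕ) : thw (2 * k) = (2⁻¹ : ℂ) • ee (2 * k) + ee (2 * k + 1) := by
  rw [thw, if_pos (x17_even k)]

theorem thw_odd (k : ℕ) : thw (2 * k + 1) = Complex.I • ee (2 * k + 1) -
    (2⁻¹ * Complex.I : ℂ) • ee (2 * k) := by
  rw [thw, if_neg (x17_odd k), Nat.add_sub_cancel]

private theorem x17_vw (i : ℕ) : linC thv (thw i) = ee i := by
  have hI : Complex.I * Complex.I = -1 := Complex.I_mul_I
  obtain ⟨k, rfl | rfl⟩ : ∃ k, i = 2 * k ∨ i = 2 * k + 1 := ⟨i / 2, by omega⟩
  · rw [thw_even, map_add, map_smul, linC_ee, linC_ee, thv_even, thv_odd]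
    module
  · rw [thw_odd, map_sub, map_smul, map_smul, linC_ee, linC_ee, thv_even, thv_odd]
    have e1 : Complex.I • ((2⁻¹ : ℂ) • ee (2 * k) - (2⁻¹ * Complex.I) • ee (2 * k + 1)) -
        (2⁻¹ * Complex.I) • (ee (2 * k) + Complex.I • ee (2 * k + 1)) =
        (-(Complex.I * Complex.I)) • (ee (2 * k + 1) : V) := by module
    rw [e1, hI, neg_neg, one_smul]

private theorem x17_wv (i : ℕ) : linC thw (thv i) = ee i := by
  have hI : Complex.I * Complex.I = -1 := Complex.I_mul_I
  obtain ⟨k, rfl | rfl⟩ : ∃ k, i = 2 * k ∨ i = 2 * k + 1 := ⟨i / 2, by omega⟩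
  · rw [thv_even, map_add, map_smul, linC_ee, linC_ee, thw_even, thw_odd]
    have e1 : (2⁻¹ : ℂ) • ee (2 * k) + ee (2 * k + 1) + Complex.I • (Complex.I • ee (2 * k + 1) -
        (2⁻¹ * Complex.I : ℂ) • ee (2 * k)) =
        (2⁻¹ - 2⁻¹ * (Complex.I * Complex.I)) • (ee (2 * k) : V) +
          (1 + Complex.I * Complex.I) • (ee (2 * k + 1) : V) := by module
    rw [e1, hI]
    module
  · rw [thv_odd, map_sub, map_smul, map_smul, linC_ee, linC_ee, thw_even, thw_odd]
    have e1 : (2⁻¹ : ℂ) • ((2⁻¹ : ℂ) • ee (2 * k) + ee (2 * k + 1)) -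
        (2⁻¹ * Complex.I) • (Complex.I • ee (2 * k + 1) - (2⁻¹ * Complex.I) • ee (2 * k)) =
        (2⁻¹ * 2⁻¹ + 2⁻¹ * 2⁻¹ * (Complex.I * Complex.I)) • (ee (2 * k) : V) +
          (2⁻¹ - 2⁻¹ * (Complex.I * Complex.I)) • (ee (2 * k + 1) : V) := by module
    rw [e1, hI]
    module

/-- the change of basis from the split form to the standard form -/
noncomputable def theta : Cinf ≃ₗ[ℂ] Cinf :=
  LinearEquiv.ofLinear (linC thv) (linC thw)
    (by
      apply Finsupp.lhom_ext'
      intro i
      apply LinearMap.ext_ring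
      exact (congrArg (linC thv) (linC_ee thw i)).trans (x17_vw i))
    (by
      apply Finsupp.lhom_ext'
      intro i
      apply LinearMap.ext_ring
      exact (congrArg (linC thw) (linC_ee thv i)).trans (x17_wv i))

theorem theta_ee (i : ℕ) : theta (ee i) = thv i := linC_ee thv i

theorem theta_symm_ee (i : ℕ) : theta.symm (ee i) = thw i := linC_ee thw i

theorem symmForm_theta (x y : Cinf) : symmForm (theta x) (theta y) = osf x y := by
  rw [_root_.MP50e386.symmForm_eq, osf_eq]
  have : (_root_.MP50e386.frm id (fun _ => 1)).compl₁₂ (theta : Cinf →ₗ[ℂ] Cinf)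
      (theta : Cinf →ₗ[ℂ] Cinf) = _root_.MP50e386.frm _root_.MP50e386.pis sio := by
    apply Finsupp.lhom_ext'
    intro i
    apply LinearMap.ext_ring
    apply Finsupp.lhom_ext'
    intro j
    apply LinearMap.ext_ring
    show _root_.MP50e386.frm id (fun _ => 1) (theta (ee i)) (theta (ee j)) =
      _root_.MP50e386.frm _root_.MP50e386.pis sio (ee i) (ee j)
    rw [theta_ee, theta_ee, _root_.MP50e386.frm_ee]
    have hI : Complex.I * Complex.I = -1 := Complex.I_mul_I
    have hg : ∀ a b : ℕ, _root_.MP50e386.frm id (fun _ => 1) (ee a) (ee b) =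
        if a = b then 1 else 0 := by
      intro a b
      rw [_root_.MP50e386.frm_ee]
      unfold _root_.MP50e386.gam
      by_cases h : a = b
      · subst h; simp
      · rw [if_neg h, if_neg]
        simpa [eq_comm] using h
    have hgam : ∀ a b : ℕ, _root_.MP50e386.gam _root_.MP50e386.pis sio a b =
        if b = _root_.MP50e386.pis a then 1 else 0 := by
      intro a b
      unfold _root_.MP50e386.gam sio
      rfl
    rw [hgam]
    obtain ⟨k, hk⟩ : ∃ k, i = 2 * k ∨ i = 2 * k + 1 := ⟨i / 2, by omega⟩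
    obtain ⟨l, hl⟩ : ∃ l, j = 2 * l ∨ j = 2 * l + 1 := ⟨j / 2, by omega⟩
    have hp0 : _root_.MP50e386.pis (2 * k) = 2 * k + 1 := by
      unfold _root_.MP50e386.pis
      rw [if_pos (x17_even k)]
    have hp1 : _root_.MP50e386.pis (2 * k + 1) = 2 * k := by
      unfold _root_.MP50e386.pis
      rw [if_neg (x17_odd k), Nat.add_sub_cancel]
    by_cases hkl : k = l
    · subst hkl
      have e1 : (2 * k = 2 * k + 1) = False := by simp
      have e2 : (2 * k + 1 = 2 * k) = False := by simp
      rcases hk with rfl | rfl <;> rcases hl with rfl | rfl <;>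
        simp only [thv_even, thv_odd, map_add, map_sub, map_smul, LinearMap.add_apply,
          LinearMap.sub_apply, LinearMap.smul_apply, hg, hp0, hp1, e1, e2, if_true, if_false,
          smul_eq_mul] <;> linear_combination (norm := ring_nf) (0 : ℂ)
      all_goals simp [Complex.I_sq]
      all_goals norm_num
    · have e1 : (2 * k = 2 * l) = False := by simp; omega
      have e2 : (2 * k = 2 * l + 1) = False := by simp; omega
      have e3 : (2 * k + 1 = 2 * l) = False := by simp; omega
      have e4 : (2 * k + 1 = 2 * l + 1) = False := by simp; omega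
      have e5 : (2 * l = 2 * k) = False := by simp; omega
      have e6 : (2 * l = 2 * k + 1) = False := by simp; omega
      have e7 : (2 * l + 1 = 2 * k) = False := by simp; omega
      have e8 : (2 * l + 1 = 2 * k + 1) = False := by simp; omega
      rcases hk with rfl | rfl <;> rcases hl with rfl | rfl <;>
        simp only [thv_even, thv_odd, map_add, map_sub, map_smul, LinearMap.add_apply,
          LinearMap.sub_apply, LinearMap.smul_apply, hg, hp0, hp1, e1, e2, e3, e4, e5, e6, e7, e8,
          if_true, if_false, smul_eq_mul, mul_zero, add_zero, sub_zero]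
  exact congrArg (fun F => F x y) this

end MP50e386O
end
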