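import Mathlib
import Pool.Agent.Lib.MP_50e386_al.B.Og
import Pool.Agent.Lib.MP_50e386_al.B.Xf
import Pool.Agent.Lib.MP_50e386_al.B.Xe
import Pool.Agent.Lib.MP_50e386_al.B.Xg
import Pool.Agent.Lib.MP_50e386_al.B.Xh

section
/-! The conductor of `A / K` in `R_{r|s}[t]`. -/

namespace MP50e386O

open MvPolynomial Pool.Agent.Lib.MP50e386 MP50e386N

private theorem x9_GLSI_det (M N0 : ℕ) : GLSI (MP50e386.detIdeal M N0) := by
  intro φ f hf
  rw [sbR_eq_sub]
  exact MP50e386.detIdeal_stable M N0 φ f hf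

/-- the conductor -/
private noncomputable def x9_CR (J : Ideal AA) : Ideal AA where
  carrier := {b | ∀ k : ℕ, ∃ c' : AA, tauA c' - Polynomial.X ^ k * Polynomial.C b ∈
    Ideal.map Polynomial.C J}
  zero_mem' := by
    intro k
    refine ⟨0, ?_⟩
    rw [map_zero, map_zero, mul_zero, sub_zero]
    exact Ideal.zero_mem _
  add_mem' := by
    intro a b ha hb k
    obtain ⟨a', ha'⟩ := ha k
    obtain ⟨b', hb'⟩ := hb k
    refine ⟨a' + b', ?_⟩
    have e : tauA (a' + b') - Polynomial.X ^ k * Polynomial.C (a + b) =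
      (tauA a' - Polynomial.X ^ k * Polynomial.C a) +
        (tauA b' - Polynomial.X ^ k * Polynomial.C b) := by
      rw [map_add, map_add]; ring
    rw [e]
    exact Ideal.add_mem _ ha' hb'
  smul_mem' := by
    intro a b hb k
    choose b' hb' using hb
    obtain ⟨n, p, hp⟩ := C_eq_sum_tau a
    refine ⟨∑ j ∈ Finset.range n, p j * b' (k + j), ?_⟩
    have e : tauA (∑ j ∈ Finset.range n, p j * b' (k + j)) -
        Polynomial.X ^ k * Polynomial.C (a • b) =
        ∑ j ∈ Finset.range n, tauA (p j) *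
          (tauA (b' (k + j)) - Polynomial.X ^ (k + j) * Polynomial.C b) := by
      rw [smul_eq_mul, Polynomial.C_mul, hp, map_sum, Finset.sum_mul, Finset.mul_sum,
        ← Finset.sum_sub_distrib]
      refine Finset.sum_congr rfl fun j _ => ?_
      rw [map_mul, pow_add]
      ring
    rw [e]
    exact Ideal.sum_mem _ fun j _ => Ideal.mul_mem_left _ _ (hb' _)

private theorem x9_mem_CR {J : Ideal AA} {b : AA} : b ∈ x9_CR J ↔
    ∀ k : ℕ, ∃ c' : AA, tauA c' - Polynomial.X ^ k * Polynomial.C b ∈ Ideal.map Polynomial.C J :=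
  Iff.rfl

private theorem x9_le_CR (J : Ideal AA) : J ≤ x9_CR J := by
  intro b hb
  rw [x9_mem_CR]
  intro k
  refine ⟨0, ?_⟩
  rw [map_zero, zero_sub]
  exact Ideal.neg_mem_iff _ |>.2 (Ideal.mul_mem_left _ _ (Ideal.mem_map_of_mem _ hb))

private theorem x9_om_smul (g : Cinf ≃ₗ[ℂ] Cinf) (hg : IsSo g) (c : ℂ) (i j : ℕ) :
    om (c • g (ee i)) (c • g (ee j)) = c ^ 2 * om (ee i) (ee j) := by
  have h := hg.2 (ee i) (ee j)
  change om (g (ee i)) (g (ee j)) = om (ee i) (ee j) at h
  rw [← h, T5.om_eq, T5.om_eq, T5.B_sl, T5.B_sr]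
  ring

private theorem x9_CR_GSI (J : Ideal AA) (hJ : GLSI J) : GSI (x9_CR J) := by
  intro g hg c hc b hb
  rw [x9_mem_CR] at hb ⊢
  intro k
  obtain ⟨c', hc'⟩ := hb k
  set φ : ℕ → V := fun i => c • g (ee i) with hφ
  have hμ : ∀ i j, om (φ i) (φ j) = c ^ 2 * om (ee i) (ee j) :=
    fun i j => x9_om_smul g hg c i j
  have hμ0 : (c ^ 2) ^ k ≠ 0 := pow_ne_zero _ (pow_ne_zero _ hc)
  refine ⟨((c ^ 2) ^ k)⁻¹ • sbR φ c', ?_⟩
  rw [Ideal.mem_map_C_iff] at hc' ⊢
  intro l
  have h1 := hJ φ _ (hc' l)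
  have e : ∀ y : AA, (Polynomial.X ^ k * Polynomial.C y : Polynomial AA).coeff l =
      if k = l then y else 0 := by
    intro y
    rw [mul_comm, Polynomial.C_mul_X_pow_eq_monomial, Polynomial.coeff_monomial]
  rw [Polynomial.coeff_sub, e, map_sub] at h1
  rw [map_smul, Polynomial.coeff_sub, Polynomial.coeff_smul, tauA_sbR φ (c ^ 2) hμ, e]
  by_cases hkl : k = l
  · subst hkl
    rw [if_pos rfl] at h1 ⊢
    rw [smul_smul, inv_mul_cancel₀ hμ0, one_smul]
    exact h1
  · rw [if_neg hkl] at h1 ⊢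
    rw [map_zero, sub_zero] at h1
    rw [sub_zero, smul_smul]
    exact Submodule.smul_of_tower_mem J _ h1

private theorem x9_tau_Dl {n : ℕ} (w : Fin n → V) (hw : Iso w) :
    tauA (Dl w : AA) = Polynomial.C (Dl w : AA) := by
  unfold Dl
  rw [AlgHom.map_det, RingHom.map_det]
  congr 1
  apply Matrix.ext
  intro i j
  rw [AlgHom.mapMatrix_apply, RingHom.mapMatrix_apply, Matrix.map_apply, Matrix.map_apply]
  unfold gramM
  rw [Matrix.of_apply, tauA_xv, hw i j, map_zero, map_zero, zero_mul, add_zero]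

private theorem x9_om_ee (a b : ℕ) : om (ee (2 * a)) (ee b) = if b = 2 * a + 1 then 1 else 0 := by
  change osf (Finsupp.single (2 * a) 1) (Finsupp.single b 1) = _
  unfold osf
  rw [Finsupp.sum_single_index]
  · rw [if_pos (even_two_mul a), one_mul, Finsupp.single_apply]
  · split_ifs <;> simp

private theorem x9_om_even (a b : ℕ) : om (ee (2 * a)) (ee (2 * b)) = 0 := by
  rw [x9_om_ee, if_neg (by omega)]

private theorem x9_mk_Dl (J : Ideal AA) [GLIdeal J] {n : ℕ} (w : Fin n → V) :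
    Ideal.Quotient.mk J (Dl w : AA) = (Dl w : AA ⧸ J) := by
  rw [Dl_mk]
  congr 1
  unfold Dl gramM
  congr 1
  apply Matrix.ext
  intro i j
  rw [Matrix.of_apply, Matrix.of_apply]
  exact xv_A _ _

/-- fixed elements of `I` -/
private def x9_G (I : Ideal AA) : Set AA := {y | y ∈ I ∧ tauA y = Polynomial.C y}

private theorem x9_G_mul (I I' : Ideal AA) :
    Ideal.span (x9_G I) * Ideal.span (x9_G I') ≤ Ideal.span (x9_G (I * I')) := by
  rw [Ideal.span_mul_span']
  apply Ideal.span_mono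
  rintro _ ⟨a, ha, b, hb, rfl⟩
  refine ⟨Ideal.mul_mem_mul ha.1 hb.1, ?_⟩
  change tauA (a * b) = Polynomial.C (a * b)
  rw [map_mul, ha.2, hb.2, Polynomial.C_mul]

private theorem x9_G_pow (I : Ideal AA) (q : ℕ) :
    Ideal.span (x9_G I) ^ q ≤ Ideal.span (x9_G (I ^ q)) := by
  induction q with
  | zero =>
    have h1 : (1 : AA) ∈ Ideal.span (x9_G (I ^ 0)) := by
      apply Ideal.subset_span
      refine ⟨?_, ?_⟩
      · rw [pow_zero, Ideal.one_eq_top]
        trivial
      · rw [map_one, map_one]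
    rw [(Ideal.eq_top_iff_one _).2 h1]
    exact le_top
  | succ q ih =>
    rw [pow_succ, pow_succ]
    exact (Ideal.mul_mono ih le_rfl).trans (x9_G_mul _ _)

private theorem x9_nnI_le (J : Ideal AA) (hJ : GLSI J) : nnI J ≤ Ideal.span (x9_G J) := by
  unfold nnI
  apply Ideal.span_mono
  rintro f ⟨φ, hφ, g, hg, rfl⟩
  exact ⟨hJ φ g hg, tauA_iso hφ g⟩

/-- the elements satisfying `CondP` -/
private noncomputable def x9_CP (J : Ideal AA) : Ideal AA where
  carrier := {b | CondP J b}
  zero_mem' := by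
    intro k
    refine ⟨0, ?_⟩
    rw [map_zero, mul_zero, sub_zero]
    exact Ideal.zero_mem _
  add_mem' := by
    intro a b ha hb k
    obtain ⟨a', ha'⟩ := ha k
    obtain ⟨b', hb'⟩ := hb k
    refine ⟨a' + b', ?_⟩
    have e : tauA (a' + b') - Polynomial.X ^ k * tauA (a + b) =
      (tauA a' - Polynomial.X ^ k * tauA a) + (tauA b' - Polynomial.X ^ k * tauA b) := by
      rw [map_add, map_add]; ring
    rw [e]
    exact Ideal.add_mem _ ha' hb'
  smul_mem' := by
    intro a b hb k
    obtain ⟨b', hb'⟩ := hb k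
    refine ⟨a * b', ?_⟩
    have e : tauA (a * b') - Polynomial.X ^ k * tauA (a • b) =
        tauA a * (tauA b' - Polynomial.X ^ k * tauA b) := by
      rw [smul_eq_mul, map_mul, map_mul]
      ring
    rw [e]
    exact Ideal.mul_mem_left _ _ hb'

/-- the element of the conductor -/
private theorem x9_elt (r s : ℕ) (P : Pkg (Rrs r s) r s (hrs r s)) :
    ∃ F : AA, F ∈ x9_CR (Jd r s) ∧ Ideal.Quotient.mk (Jd r s) F ≠ 0 := by
  classical
  set J : Ideal AA := Jd r s with hJ
  set m : ℕ := (r + 1) * (s + 1) with hm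
  let v : ℕ → Fin r → ℕ := fun j i => 2 * (j * (r + 1) + (i : ℕ))
  let c : ℕ → ℕ := fun j => 2 * (j * (r + 1) + r)
  let u : ℕ → Fin r → V := fun j i => ee (v j i)
  have huu : ∀ j i i', om (u j i) (u j i') = 0 := fun j i i' => x9_om_even _ _
  have huc : ∀ j i, om (u j i) (ee (c j)) = 0 := fun j i => x9_om_even _ _
  have hcu : ∀ j i, om (ee (c j)) (u j i) = 0 := fun j i => x9_om_even _ _
  have hcc : ∀ j, om (ee (c j)) (ee (c j)) = 0 := fun j => x9_om_even _ _
  have huc' : ∀ j i, om (u j i) (ee (c j + 1)) = 0 := by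
    intro j i
    change om (ee (2 * (j * (r + 1) + (i : ℕ)))) (ee (2 * (j * (r + 1) + r) + 1)) = 0
    have hi := i.2
    rw [x9_om_ee, if_neg (by omega)]
  have hcc' : ∀ j, om (ee (c j)) (ee (c j + 1)) = 1 := by
    intro j
    change om (ee (2 * (j * (r + 1) + r))) (ee (2 * (j * (r + 1) + r) + 1)) = 1
    rw [x9_om_ee, if_pos rfl]
  let f : ℕ → AA := fun j => (Dl1 (u j) (ee (c j)) : AA) ^ s * Dl (u j)
  choose f' hf' using fun j => cond_letters r s (u j) (ee (c j)) (ee (c j + 1)) (huu j) (huc j)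
    (huc' j) (hcc j) (hcc' j)
  have hsn : ∀ j, Iso (Fin.snoc (u j) (ee (c j)) : Fin (r + 1) → V) := by
    intro j a b
    refine Fin.lastCases ?_ (fun a => ?_) a
    · refine Fin.lastCases ?_ (fun b => ?_) b
      · rw [Fin.snoc_last]
        exact hcc j
      · rw [Fin.snoc_last, Fin.snoc_castSucc]
        exact hcu j b
    · refine Fin.lastCases ?_ (fun b => ?_) b
      · rw [Fin.snoc_last, Fin.snoc_castSucc]
        exact huc j a
      · rw [Fin.snoc_castSucc, Fin.snoc_castSucc]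
        exact huu j a b
  have hft : ∀ j, tauA (f j) = Polynomial.C (f j) := by
    intro j
    change tauA ((Dl1 (u j) (ee (c j)) : AA) ^ s * Dl (u j)) =
      Polynomial.C ((Dl1 (u j) (ee (c j)) : AA) ^ s * Dl (u j))
    rw [map_mul, map_pow, Polynomial.C_mul, Polynomial.C_pow]
    unfold Dl1
    rw [x9_tau_Dl _ (hsn j), x9_tau_Dl _ (huu j)]
  let F : AA := ∏ j ∈ Finset.range m, f j
  let G : ℕ → AA := fun k => (∏ j ∈ Finset.range k, f' j) * ∏ j ∈ Finset.Ico k m, f j
  set q := Ideal.Quotient.mk (Ideal.map Polynomial.C J : Ideal (Polynomial AA)) with hq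
  have hG : ∀ k ≤ m, tauA (G k) - Polynomial.X ^ k * Polynomial.C F ∈
      (Ideal.map Polynomial.C J : Ideal (Polynomial AA)) := by
    intro k hk
    rw [← Ideal.Quotient.eq, ← hq]
    have h1 : ∀ j, q (tauA (f' j)) = q Polynomial.X * q (Polynomial.C (f j)) := by
      intro j
      rw [← map_mul]
      exact Ideal.Quotient.eq.2 (hf' j)
    have h2 : Polynomial.C F = (∏ j ∈ Finset.range k, Polynomial.C (f j)) *
        ∏ j ∈ Finset.Ico k m, Polynomial.C (f j) := by
      rw [Finset.prod_range_mul_prod_Ico _ hk, ← map_prod]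
    have h3 : tauA (G k) = (∏ j ∈ Finset.range k, tauA (f' j)) *
        ∏ j ∈ Finset.Ico k m, Polynomial.C (f j) := by
      change tauA ((∏ j ∈ Finset.range k, f' j) * ∏ j ∈ Finset.Ico k m, f j) = _
      rw [map_mul, map_prod, map_prod]
      congr 1
      exact Finset.prod_congr rfl fun j _ => hft j
    rw [h2, h3, map_mul, map_mul, map_mul, map_pow, map_prod, map_prod,
      Finset.prod_congr rfl (fun j _ => h1 j), Finset.prod_mul_distrib, Finset.prod_const,
      Finset.card_range, map_prod, mul_assoc]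
  refine ⟨F, ?_, ?_⟩
  · rw [x9_mem_CR]
    intro k
    obtain ⟨p, hp⟩ := (int_det r s).pow k
    refine ⟨∑ l ∈ Finset.range m, p l * G l, ?_⟩
    have e : tauA (∑ l ∈ Finset.range m, p l * G l) - Polynomial.X ^ k * Polynomial.C F =
        ∑ l ∈ Finset.range m, tauA (p l) * (tauA (G l) - Polynomial.X ^ l * Polynomial.C F) -
        (Polynomial.X ^ k - ∑ l ∈ Finset.range m, Polynomial.X ^ l * tauA (p l)) *
          Polynomial.C F := by
      rw [map_sum, sub_mul, Finset.sum_mul]
      have e2 : ∑ l ∈ Finset.range m, tauA (p l) *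
          (tauA (G l) - Polynomial.X ^ l * Polynomial.C F) =
          ∑ l ∈ Finset.range m, tauA (p l * G l) -
          ∑ l ∈ Finset.range m, Polynomial.X ^ l * tauA (p l) * Polynomial.C F := by
        rw [← Finset.sum_sub_distrib]
        refine Finset.sum_congr rfl fun l _ => ?_
        rw [map_mul tauA (p l) (G l)]
        ring
      rw [e2]
      ring
    rw [e]
    refine Ideal.sub_mem _ (Ideal.sum_mem _ fun l hl => Ideal.mul_mem_left _ _
      (hG l (Finset.mem_range.1 hl).le)) (Ideal.mul_mem_right _ _ hp)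
  · have hinj : Function.Injective (fun p : Fin m × (Fin r ⊕ Fin 1) =>
        Sum.elim ((fun (j : Fin m) (i : Fin r) => v j i) p.1)
          ((fun (j : Fin m) (_ : Fin 1) => c j) p.1) p.2) := by
      have key : ∀ j j' a a' : ℕ, a < r + 1 → a' < r + 1 →
          2 * (j * (r + 1) + a) = 2 * (j' * (r + 1) + a') → j = j' ∧ a = a' := by
        intro j j' a a' ha ha' h
        have h1 : a + (r + 1) * j = a' + (r + 1) * j' := by
          have := Nat.eq_of_mul_eq_mul_left two_pos h
          linarith [this, mul_comm j (r + 1), mul_comm j' (r + 1)]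
        have h2 : (a + (r + 1) * j) / (r + 1) = j := by
          rw [Nat.add_mul_div_left _ _ (Nat.succ_pos r), Nat.div_eq_of_lt ha, zero_add]
        have h3 : (a' + (r + 1) * j') / (r + 1) = j' := by
          rw [Nat.add_mul_div_left _ _ (Nat.succ_pos r), Nat.div_eq_of_lt ha', zero_add]
        have h4 : j = j' := by rw [← h2, ← h3, h1]
        subst h4
        exact ⟨rfl, by omega⟩
      rintro ⟨d, a⟩ ⟨d', a'⟩ hp
      rcases a with i | j <;> rcases a' with i' | j'
      · obtain ⟨h1, h2⟩ := key _ _ _ _ (by omega) (by omega) hp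
        have h3 : d = d' := Fin.ext h1
        have h4 : i = i' := Fin.ext h2
        rw [h3, h4]
      · obtain ⟨h1, h2⟩ := key _ _ _ _ (by omega) (by omega) hp
        have := i.2
        omega
      · obtain ⟨h1, h2⟩ := key _ _ _ _ (by omega) (by omega) hp
        have := i'.2
        omega
      · obtain ⟨h1, h2⟩ := key _ _ _ _ (by omega) (by omega) hp
        have h3 : d = d' := Fin.ext h1
        rw [h3, Subsingleton.elim j j']
    have h1 := P.p3 m 1 1 (fun j i => v j i) (fun j _ => c j) hinj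
    intro h2
    apply h1
    rw [← h2]
    change _ = Ideal.Quotient.mk J (∏ j ∈ Finset.range m, f j)
    rw [map_prod, Finset.prod_range]
    refine Finset.prod_congr rfl fun j _ => ?_
    change _ = Ideal.Quotient.mk J ((Dl1 (u j) (ee (c j)) : AA) ^ s * Dl (u j))
    unfold hh Ek Dl1
    rw [map_mul, map_pow, x9_mk_Dl, x9_mk_Dl, pow_one, Fin.prod_univ_one]

/-- the conductor contains the products of the isotropic parts -/
theorem exists_cond (r s : ℕ) (P : Pkg (Rrs r s) r s (hrs r s)) :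
    ∃ a : ℕ, ∀ c ∈ (nnI (MP50e386.detIdeal r (s + 1)) * nnI (MP50e386.detIdeal (r + 1) s)) ^ a,
      CondP (Jd r s) c := by
  obtain ⟨F, hF, hF0⟩ := x9_elt r s P
  have hCG := x9_CR_GSI (Jd r s) (x9_GLSI_det _ _)
  obtain ⟨q, hq⟩ := TL P (Ideal.map (Ideal.Quotient.mk (Jd r s)) (x9_CR (Jd r s))) (by
    intro g hg c hc f hf
    obtain ⟨a, ha, rfl⟩ := (Ideal.mem_map_iff_of_surjective _
      Ideal.Quotient.mk_surjective).1 hf
    have h2 : sbR (fun i => c • g (ee i)) (Ideal.Quotient.mk (Jd r s) a) =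
      Ideal.Quotient.mk (Jd r s) (sbR (fun i => c • g (ee i)) a) := sbR_mk (Jd r s) _ a
    rw [h2]
    exact Ideal.mem_map_of_mem _ (hCG g hg c hc a ha)) (by
    intro h
    apply hF0
    have h1 := Ideal.mem_map_of_mem (Ideal.Quotient.mk (Jd r s)) hF
    rw [h] at h1
    exact h1)
  have hle : (MP50e386.detIdeal r (s + 1) * MP50e386.detIdeal (r + 1) s) ^ q ≤
      x9_CR (Jd r s) := by
    intro y hy
    have h1 : Ideal.Quotient.mk (Jd r s) y ∈ hrs r s ^ q := by
      unfold hrs
      rw [← Ideal.map_pow]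
      exact Ideal.mem_map_of_mem _ hy
    obtain ⟨b, hb, hby⟩ := (Ideal.mem_map_iff_of_surjective _
      Ideal.Quotient.mk_surjective).1 (hq h1)
    have h2 : b - y ∈ Jd r s := Ideal.Quotient.eq.1 hby
    have h3 := Ideal.sub_mem _ hb (x9_le_CR _ h2)
    rwa [sub_sub_cancel] at h3
  refine ⟨q, fun c hc => ?_⟩
  have h1 : (nnI (MP50e386.detIdeal r (s + 1)) * nnI (MP50e386.detIdeal (r + 1) s)) ^ q ≤
      Ideal.span (x9_G ((MP50e386.detIdeal r (s + 1) * MP50e386.detIdeal (r + 1) s) ^ q)) := by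
    refine le_trans (Ideal.pow_right_mono ?_ q) (x9_G_pow _ q)
    exact (Ideal.mul_mono (x9_nnI_le _ (x9_GLSI_det _ _)) (x9_nnI_le _ (x9_GLSI_det _ _))).trans
      (x9_G_mul _ _)
  have h2 : Ideal.span (x9_G ((MP50e386.detIdeal r (s + 1) * MP50e386.detIdeal (r + 1) s) ^ q)) ≤
      x9_CP (Jd r s) := by
    rw [Ideal.span_le]
    rintro y ⟨hy, hty⟩ k
    obtain ⟨c', hc'⟩ := x9_mem_CR.1 (hle hy) k
    refine ⟨c', ?_⟩
    rw [hty]
    exact hc'
  exact h2 (h1 hc)

end MP50e386O
end

section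
/-! Elementwise torsion of `K_J / nn(J)`. -/

namespace MP50e386O

open MvPolynomial Pool.Agent.Lib.MP50e386 MP50e386N

private theorem x14_GLSI_det (M N0 : ℕ) : GLSI (MP50e386.detIdeal M N0) := by
  intro φ f hf
  rw [sbR_eq_sub]
  exact MP50e386.detIdeal_stable M N0 φ f hf

private theorem x14_Dl_mk (J : Ideal AA) [GLIdeal J] {r : ℕ} (v : Fin r → V) :
    (Dl v : AA ⧸ J) = Ideal.Quotient.mk J (Dl v : AA) := by
  rw [Dl_mk]
  congr 1
  unfold Dl gramM
  congr 1
  ext i j
  rw [Matrix.of_apply, Matrix.of_apply, xv_A]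

private theorem x14_hh_mk (J : Ideal AA) [GLIdeal J] (s q : ℕ) {r k : ℕ} (u : Fin r → V)
    (b : Fin k → V) : (hh s q u b : AA ⧸ J) = Ideal.Quotient.mk J (hh s q u b : AA) := by
  unfold hh Ek Dl1
  rw [map_mul, map_prod, map_pow, x14_Dl_mk]
  congr 1
  refine Finset.prod_congr rfl fun j _ => ?_
  rw [map_pow, x14_Dl_mk]

private theorem x14_hh_not_mem (r s k q : ℕ) :
    (hh s q (fun i : Fin r => ee (i : ℕ)) (fun j : Fin k => ee (r + (j : ℕ))) : AA) ∉ Jd r s := by
  intro h0
  have h1 := Rrs_P3 r s 1 k q (fun _ i => (i : ℕ)) (fun _ j => r + (j : ℕ)) (by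
    rintro ⟨d, p⟩ ⟨d', p'⟩ h
    have hd : d = d' := Subsingleton.elim _ _
    subst hd
    rcases p with i | i <;> rcases p' with j | j <;> simp only [Sum.elim_inl, Sum.elim_inr] at h
    · rw [Fin.ext h]
    · exact absurd h (by have := i.2; omega)
    · exact absurd h (by have := j.2; omega)
    · rw [Fin.ext (Nat.add_left_cancel h)])
  apply h1
  rw [Fin.prod_univ_one]
  rw [x14_hh_mk, Ideal.Quotient.eq_zero_iff_mem]
  exact h0

private theorem x14_P5 (r s k q : ℕ) : ∃ a : ℕ,
    (MP50e386.detIdeal r (s + 1) * MP50e386.detIdeal (r + 1) s) ^ a ≤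
      Ideal.span {f | ∃ (u : Fin r → V) (b : Fin k → V), f = (hh s q u b : AA)} ⊔ Jd r s := by
  refine KP5 r s _ ?_ le_sup_right ?_
  · intro w f hf
    obtain ⟨f1, hf1, f2, hf2, rfl⟩ := Submodule.mem_sup.1 hf
    rw [map_add]
    refine add_mem (Ideal.mem_sup_left ?_) (Ideal.mem_sup_right ?_)
    · have h1 : Ideal.span {f | ∃ (u : Fin r → V) (b : Fin k → V), f = (hh s q u b : AA)} ≤
          Ideal.comap (MP50e386.sub w : AA →ₐ[ℂ] AA)
            (Ideal.span {f | ∃ (u : Fin r → V) (b : Fin k → V), f = (hh s q u b : AA)}) := by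
        rw [Ideal.span_le]
        rintro _ ⟨u, b, rfl⟩
        show MP50e386.sub w (hh s q u b : AA) ∈
          Ideal.span {f | ∃ (u : Fin r → V) (b : Fin k → V), f = (hh s q u b : AA)}
        rw [← sbR_eq_sub, sbR_hh]
        exact Ideal.subset_span ⟨_, _, rfl⟩
      exact h1 hf1
    · exact MP50e386.detIdeal_stable _ _ w f2 hf2
  · intro h
    apply x14_hh_not_mem r s k q
    have h1 : (hh s q (fun i : Fin r => ee (i : ℕ)) (fun j : Fin k => ee (r + (j : ℕ))) : AA) ∈
        Ideal.span {f | ∃ (u : Fin r → V) (b : Fin k → V), f = (hh s q u b : AA)} ⊔ Jd r s :=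
      Ideal.mem_sup_left (Ideal.subset_span ⟨_, _, rfl⟩)
    rw [h] at h1
    exact h1

/-- the ideal generated by the `h(w)`, `w` isotropic, contains a power modulo `nn(J)` -/
theorem pow_le_hh (r s k q : ℕ) : ∃ a : ℕ,
    nnI ((MP50e386.detIdeal r (s + 1) * MP50e386.detIdeal (r + 1) s) ^ a) ≤
      Ideal.span {f | ∃ (u : Fin r → V) (b : Fin k → V), Iso (Sum.elim u b) ∧
        f = (hh s q u b : AA)} ⊔ nnI (Jd r s) := by
  obtain ⟨a, ha⟩ := x14_P5 r s k q
  refine ⟨a, nnI_le_of _ _ ?_⟩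
  intro φ hφ g hg
  obtain ⟨g1, hg1, g2, hg2, rfl⟩ := Submodule.mem_sup.1 (ha hg)
  rw [map_add]
  refine add_mem (Ideal.mem_sup_left ?_) (Ideal.mem_sup_right ?_)
  · have h1 : Ideal.span {f | ∃ (u : Fin r → V) (b : Fin k → V), f = (hh s q u b : AA)} ≤
        Ideal.comap (sbR φ : AA →ₐ[ℂ] AA)
          (Ideal.span {f | ∃ (u : Fin r → V) (b : Fin k → V), Iso (Sum.elim u b) ∧
            f = (hh s q u b : AA)}) := by
      rw [Ideal.span_le]
      rintro _ ⟨u, b, rfl⟩
      show sbR φ (hh s q u b : AA) ∈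
        Ideal.span {f | ∃ (u : Fin r → V) (b : Fin k → V), Iso (Sum.elim u b) ∧
            f = (hh s q u b : AA)}
      rw [sbR_hh]
      refine Ideal.subset_span ⟨_, _, ?_, rfl⟩
      intro i j
      have h2 : ∀ i : Fin r ⊕ Fin k, (Sum.elim (fun i => linC φ (u i)) (fun j => linC φ (b j))
          : Fin r ⊕ Fin k → V) i = linC φ (Sum.elim u b i) := by
        rintro (i | i) <;> rfl
      rw [h2, h2]
      have h3 := Iso.lin hφ (fun n : ℕ => if n = 0 then Sum.elim u b i else Sum.elim u b j)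
      have h4 := h3 0 1
      simpa using h4
    exact h1 hg1
  · exact Ideal.subset_span ⟨φ, hφ, g2, hg2, rfl⟩

private theorem x14_sup_pow (I K : Ideal AA) (n : ℕ) : (I ⊔ K) ^ n ≤ I ^ n ⊔ K := by
  induction n with
  | zero => rw [pow_zero, pow_zero]; exact le_sup_left
  | succ n ih =>
    rw [pow_succ, pow_succ]
    refine (Ideal.mul_mono ih le_rfl).trans ?_
    rw [Ideal.sup_mul, Ideal.mul_sup]
    refine sup_le (sup_le le_sup_left (le_trans ?_ le_sup_right)) (le_trans ?_ le_sup_right)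
    · exact Ideal.mul_le.2 fun a _ b hb => Ideal.mul_mem_left _ _ hb
    · exact Ideal.mul_le.2 fun a ha b _ => Ideal.mul_mem_right _ _ ha

theorem torsK (r s : ℕ) (f : AA) (hf : f ∈ KK (Jd r s)) : ∃ a : ℕ,
    ∀ c ∈ (nnI (MP50e386.detIdeal r (s + 1)) * nnI (MP50e386.detIdeal (r + 1) s)) ^ a,
      c * f ∈ nnI (Jd r s) := by
  obtain ⟨n, hn⟩ := exists_LT (C f : U AA)
  have hfT : (C f : U AA) ∈ MP50e386N.LT AA (Set.Iio (2 * n)) :=
    LT_mono (Set.Iio_subset_Iio (by omega)) hn
  obtain ⟨D, hD⟩ := exists_TD n (C f : U AA)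
  obtain ⟨k, q, hkq⟩ := FK r s n D
  have hJ : GLSI (Jd r s) := x14_GLSI_det _ _
  set Sx : Set AA := {f | ∃ (u : Fin r → V) (b : Fin k → V), Iso (Sum.elim u b) ∧
        f = (hh s q u b : AA)} with hSx
  set H : ℕ → AA := fun _ => hh s q (fun i : Fin r => ee (i : ℕ))
    (fun j : Fin k => ee (r + (j : ℕ))) with hH
  have hHw : ∀ (w : ℕ → V) (j : ℕ), sbR w (H j) =
      hh s q (fun i : Fin r => w (i : ℕ)) (fun j : Fin k => w (r + (j : ℕ))) := by
    intro w j
    rw [hH]
    simp only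
    rw [sbR_hh]
    simp only [linC_ee]
  have key := A_gen (𝔪 := KK (Jd r s)) (𝔫 := nnI (Jd r s)) (KK_GSI (gsi_of_glsi hJ))
    (nnI_GSI hJ) n D H (by
      intro j hj Z hZ hZ2 hZi g hg hgT hgD w hw hwT
      rw [hHw w j]
      refine hkq Z hZ hZ2 hZi g hg hgT (TD_mono hj hgD) _ _ ?_ ?_
      · intro a b
        rcases a with a | a <;> rcases b with b | b <;> exact hw _ _
      · intro a z hz
        rcases a with a | a <;> exact hwT _ z hz) f hf hfT hD
  have h1 : ∀ c ∈ Ideal.span Sx ^ (D + 1), c * f ∈ nnI (Jd r s) := by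
    refine span_pow_mul_mem Sx f (D + 1) ?_
    intro x hx
    have h2 : ∀ j : ℕ, ∃ w : ℕ → V, Iso w ∧ (j < D + 1 → sbR w (H j) = x j) := by
      intro j
      by_cases hj : j < D + 1
      · obtain ⟨u, b, hub, hxj⟩ := hx j hj
        refine ⟨fun i => if h : i < r then u ⟨i, h⟩ else
          if h' : i - r < k then b ⟨i - r, h'⟩ else 0, ?_, ?_⟩
        · have h3 : ∀ i : ℕ, (if h : i < r then u ⟨i, h⟩ else
              if h' : i - r < k then b ⟨i - r, h'⟩ else 0) = 0 ∨
              ∃ p, (if h : i < r then u ⟨i, h⟩ else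
                if h' : i - r < k then b ⟨i - r, h'⟩ else 0) = Sum.elim u b p := by
            intro i
            by_cases h : i < r
            · exact Or.inr ⟨Sum.inl ⟨i, h⟩, by rw [dif_pos h]; rfl⟩
            · by_cases h' : i - r < k
              · exact Or.inr ⟨Sum.inr ⟨i - r, h'⟩, by rw [dif_neg h, dif_pos h']; rfl⟩
              · exact Or.inl (by rw [dif_neg h, dif_neg h'])
          intro i j
          show om (if h : i < r then u ⟨i, h⟩ else if h' : i - r < k then b ⟨i - r, h'⟩ else 0)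
            (if h : j < r then u ⟨j, h⟩ else if h' : j - r < k then b ⟨j - r, h'⟩ else 0) = 0
          have hz1 : ∀ v : V, om 0 v = 0 := fun v => by
            show osf 0 v = 0
            unfold osf
            exact Finsupp.sum_zero_index
          have hz2 : ∀ v : V, om v 0 = 0 := fun v => by
            show osf v 0 = 0
            rw [osf_comm]
            exact hz1 v
          rcases h3 i with hi | ⟨p, hi⟩
          · rw [hi]
            exact hz1 _
          · rcases h3 j with hj | ⟨p', hj⟩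
            · rw [hj]
              exact hz2 _
            · rw [hi, hj]
              exact hub p p'
        · intro _
          rw [hHw _ j, hxj]
          congr 1
          · funext i
            rw [dif_pos i.2]
          · funext i
            rw [dif_neg (by omega : ¬ r + (i : ℕ) < r)]
            have h4 : r + (i : ℕ) - r = i := by omega
            rw [dif_pos (by rw [h4]; exact i.2)]
            congr 1
            exact Fin.ext h4
      · refine ⟨fun _ => 0, ?_, fun h => absurd h hj⟩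
        intro i j
        show osf 0 0 = 0
        unfold osf
        exact Finsupp.sum_zero_index
    choose w hw hwx using h2
    have h5 := key w hw
    have h6 : ∏ j ∈ Finset.range (D + 1), sbR (w j) (H j) = ∏ j ∈ Finset.range (D + 1), x j :=
      Finset.prod_congr rfl fun j hj => hwx j (Finset.mem_range.1 hj)
    rw [← h6]
    exact h5
  obtain ⟨a, ha⟩ := pow_le_hh r s k q
  obtain ⟨b, hb⟩ := nn_prod r s a
  refine ⟨b * (D + 1), ?_⟩
  intro c hc
  rw [pow_mul] at hc
  have h7 := x14_sup_pow (Ideal.span Sx) (nnI (Jd r s)) (D + 1)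
    (Ideal.pow_right_mono (hb.trans ha) (D + 1) hc)
  obtain ⟨c1, hc1, c2, hc2, rfl⟩ := Submodule.mem_sup.1 h7
  rw [add_mul]
  exact add_mem (h1 c1 hc1) (Ideal.mul_mem_right _ _ hc2)

end MP50e386O
end

section
/-! The isotropic parts `nn(J_{r|s})` of the determinantal ideals have noetherian quotients. -/

namespace MP50e386O

open MvPolynomial Pool.Agent.Lib.MP50e386 MP50e386N

theorem glsi_det (M N0 : ℕ) : GLSI (R := AA) (MP50e386.detIdeal M N0) := by
  intro φ f hf
  rw [sbR_eq_sub]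
  exact GLIdeal.st φ f hf

/-- the transporter of `𝔥` into `𝔫` inside `K` -/
def trn (K 𝔥 𝔫 : Ideal AA) : Ideal AA where
  carrier := {f | f ∈ K ∧ ∀ c ∈ 𝔥, c * f ∈ 𝔫}
  add_mem' := by
    rintro a b ⟨ha, ha'⟩ ⟨hb, hb'⟩
    refine ⟨K.add_mem ha hb, fun c hc => ?_⟩
    rw [mul_add]
    exact 𝔫.add_mem (ha' c hc) (hb' c hc)
  zero_mem' := ⟨K.zero_mem, fun c _ => by rw [mul_zero]; exact 𝔫.zero_mem⟩
  smul_mem' := by
    rintro a b ⟨hb, hb'⟩
    refine ⟨K.mul_mem_left a hb, fun c hc => ?_⟩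
    rw [smul_eq_mul, mul_left_comm]
    exact 𝔫.mul_mem_left a (hb' c hc)

theorem mem_trn (K 𝔥 𝔫 : Ideal AA) (f : AA) : f ∈ trn K 𝔥 𝔫 ↔ f ∈ K ∧ ∀ c ∈ 𝔥, c * f ∈ 𝔫 :=
  Iff.rfl

theorem trn_GSI {K 𝔥 𝔫 : Ideal AA} (hK : GSI K) (h𝔥 : GSI 𝔥) (h𝔫 : GSI 𝔫) :
    GSI (trn K 𝔥 𝔫) := by
  intro g hg c hc f hf
  refine ⟨hK g hg c hc f hf.1, fun a ha => ?_⟩
  have hinv : sbR (fun i => c • g (ee i)) (sbR (fun i => c⁻¹ • g.symm (ee i)) a) = a := by
    rw [sbR_sbR]
    have : (fun i => linC (fun i => c • g (ee i)) (c⁻¹ • g.symm (ee i))) = ee := by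
      funext i
      have hlin : ∀ v : V, linC (fun i => c • g (ee i)) v = c • g v := by
        intro v
        have : linC (fun i => c • g (ee i)) = c • (g : Cinf →ₗ[ℂ] Cinf) := by
          refine Finsupp.lhom_ext' fun i => LinearMap.ext_ring ?_
          simp [linC]
        rw [this]
        rfl
      rw [hlin, map_smul, smul_smul, mul_inv_cancel₀ hc, one_smul, LinearEquiv.apply_symm_apply]
    rw [this]
    exact sbR_id a
  rw [← hinv, ← map_mul]
  exact h𝔫 g hg c hc _ (hf.2 _ (h𝔥 g.symm (isSo_inv hg) c⁻¹ (inv_ne_zero hc) a ha))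

theorem NI_nn_step (r s : ℕ) (h1 : NI (nnI (MP50e386.detIdeal r (s + 1))))
    (h2 : NI (nnI (MP50e386.detIdeal (r + 1) s))) : NI (nnI (Jd r s)) := by
  set P : Ideal AA := nnI (MP50e386.detIdeal r (s + 1)) with hP
  set Q : Ideal AA := nnI (MP50e386.detIdeal (r + 1) s) with hQ
  have hPG : GSI P := nnI_GSI (glsi_det _ _)
  have hQG : GSI Q := nnI_GSI (glsi_det _ _)
  have hhG : GSI (P * Q) := hPG.mul hQG
  have hhN : NI (P * Q) := NI_mul h1 hPG h2 hQG
  have hJ : NI (Jd r s) := NI_det (r + 1) (s + 1)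
  have hJL : GLSI (Jd r s) := glsi_det _ _
  have hJG : GSI (Jd r s) := gsi_of_glsi hJL
  obtain ⟨a, ha⟩ := exists_cond r s (pkg_rs r s (NI_det r (s + 1)) (NI_det (r + 1) s))
  have hK : NI (KK (Jd r s)) := NI_KK (Jd r s) hJ hJG _ (int_det r s) ((P * Q) ^ a)
    (NI_pow hhN hhG a) (hhG.pow a) ha
  have hKG : GSI (KK (Jd r s)) := KK_GSI hJG
  obtain ⟨n, hn⟩ := N1 (KK (Jd r s)) hK hKG (fun i => trn (KK (Jd r s)) ((P * Q) ^ i) (nnI (Jd r s)))
    (fun i j hij f hf => ⟨hf.1, fun c hc => hf.2 c (Ideal.pow_le_pow_right hij hc)⟩)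
    (fun i => trn_GSI hKG (hhG.pow i) (nnI_GSI hJL)) (fun i f hf => hf.1)
    (fun f hf => by
      obtain ⟨b, hb⟩ := torsK r s f hf
      exact ⟨b, hf, hb⟩)
  obtain ⟨d, hd⟩ := bdgen (KK (Jd r s)) hK hKG
  intro S
  have hMS : GS (MS AA S) := gs_of_gls (GLS_MS S)
  have hF : GS (KK (Jd r s) • MS AA S) := GS.smul hKG hMS
  have hle : (P * Q) ^ n • (KK (Jd r s) • MS AA S) ≤ nnI (Jd r s) • MS AA S := by
    rw [← Submodule.mul_smul]
    refine Submodule.smul_mono_left ?_
    rw [Ideal.mul_le]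
    intro c hc f hf
    have hf' : f ∈ trn (KK (Jd r s)) ((P * Q) ^ n) (nnI (Jd r s)) := by
      rw [hn]
      exact hf
    exact hf'.2 c hc
  have h3 := FG ((P * Q) ^ n) (NI_pow hhN hhG n) (hhG.pow n) S (KK (Jd r s) • MS AA S) hF
    Submodule.smul_le_right (2 * d + S.card) (bd_smul_MS _ hKG d hd S)
  have hle2 : nnI (Jd r s) • MS AA S ≤ KK (Jd r s) • MS AA S :=
    Submodule.smul_mono_left (nnI_le_KK hJL)
  exact NoethInt.trans (fun _ _ => GS.sup) (fun _ _ => GS.inf) hF hle2 Submodule.smul_le_right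
    (NoethInt.mono hle le_rfl h3) (hK S)

theorem NI_nn (M N0 : ℕ) : NI (nnI (MP50e386.detIdeal M N0)) := by
  induction hm : M + N0 using Nat.strong_induction_on generalizing M N0 with
  | _ m ih =>
    rcases M with - | r
    · have : MP50e386.detIdeal 0 N0 = ⊤ := by
        rw [Ideal.eq_top_iff_one]
        refine Ideal.subset_span ⟨fun i => i.elim0, ?_⟩
        simp
      rw [this, nnI_top]
      exact NI_top
    rcases N0 with - | s
    · have : MP50e386.detIdeal (r + 1) 0 = ⊤ := by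
        rw [Ideal.eq_top_iff_one]
        refine Ideal.subset_span ⟨fun _ => 0, ?_⟩
        simp
      rw [this, nnI_top]
      exact NI_top
    · exact NI_nn_step r s (ih (r + (s + 1)) (by omega) r (s + 1) rfl)
        (ih (r + 1 + s) (by omega) (r + 1) s rfl)

end MP50e386O
end

section
/-! The final theorem for the split symmetric form. -/

namespace MP50e386O

open MvPolynomial Pool.Agent.Lib.MP50e386 MP50e386N

attribute [local instance] MvPolynomial.gradedAlgebra

private theorem l6_bil (u v : V) : (MP50e386.bil u v).IsHomogeneous 1 := by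
  unfold MP50e386.bil
  rw [Finsupp.linearCombination_apply, Finsupp.sum, LinearMap.sum_apply]
  apply IsHomogeneous.sum
  intro i _
  rw [LinearMap.smul_apply, Finsupp.linearCombination_apply, Finsupp.sum, smul_eq_C_mul]
  apply IsHomogeneous.C_mul
  apply IsHomogeneous.sum
  intro j _
  rw [smul_eq_C_mul]
  exact isHomogeneous_C_mul_X _ _

private theorem l6_sub_homog {f : MP50e386.A} {k : ℕ} (h : f.IsHomogeneous k) (w : ℕ → V) :
    (MP50e386.sub w f).IsHomogeneous k := by
  unfold MP50e386.sub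
  have h1 := IsHomogeneous.aeval h (MP50e386.Yw w) (n := 1) (by
    intro s
    induction s using Sym2.ind with
    | _ i j =>
      rw [MP50e386.Yw_mk]
      exact l6_bil _ _)
  rwa [one_mul] at h1

private theorem l6_sub_hc (f : MP50e386.A) (w : ℕ → V) (d : ℕ) :
    homogeneousComponent d (MP50e386.sub w f) = MP50e386.sub w (homogeneousComponent d f) := by
  conv_lhs => rw [← sum_homogeneousComponent f, map_sum, map_sum]
  by_cases hd : d ∈ Finset.range (f.totalDegree + 1)
  · rw [Finset.sum_eq_single_of_mem d hd]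
    · exact homogeneousComponent_eq_self
        (l6_sub_homog (homogeneousComponent_isHomogeneous d f) w)
    · intro k _ hkd
      rw [homogeneousComponent_of_mem
        (l6_sub_homog (homogeneousComponent_isHomogeneous k f) w), if_neg (Ne.symm hkd)]
  · rw [Finset.sum_eq_zero]
    · rw [Finset.mem_range, not_lt] at hd
      rw [homogeneousComponent_eq_zero _ _ (by omega), map_zero]
    · intro k hk
      rw [homogeneousComponent_of_mem
        (l6_sub_homog (homogeneousComponent_isHomogeneous k f) w), if_neg]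
      rintro rfl
      exact hd hk

theorem GSI_grI {I : Ideal MP50e386.A} (hI : IsStable IsSo I) : GSI (grI I) := by
  intro g hg c hc f hf
  rw [sbR_eq_sub]
  have key : grI I ≤ (grI I).comap (MP50e386.sub (fun i => c • g (ee i))) := by
    conv_lhs => unfold grI
    rw [Ideal.span_le]
    rintro T ⟨f0, hf0, rfl⟩
    rw [SetLike.mem_coe, Ideal.mem_comap,
      MP50e386.sub_smul_homog (homogeneousComponent_isHomogeneous _ f0) c (fun i => g (ee i)),
      ← l6_sub_hc, smul_eq_C_mul]
    apply Ideal.mul_mem_left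
    have h1 : MP50e386.sub (fun i => g (ee i)) f0 ∈ I := by
      have h2 := hI g hg f0 hf0
      rwa [MP50e386.act_eq] at h2
    set F := MP50e386.sub (fun i => g (ee i)) f0 with hF
    by_cases h0 : homogeneousComponent f0.totalDegree F = 0
    · rw [h0]
      exact Submodule.zero_mem _
    · apply Ideal.subset_span
      refine ⟨F, h1, ?_⟩
      have h3 : f0.totalDegree ≤ F.totalDegree := by
        by_contra hcon
        exact h0 (homogeneousComponent_eq_zero _ _ (by omega))
      have h4 : F.totalDegree ≤ f0.totalDegree := by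
        rw [hF]
        conv_lhs => rw [← sum_homogeneousComponent f0, map_sum]
        refine (totalDegree_finsetSum _ _).trans (Finset.sup_le fun k hk => ?_)
        have h5 := (l6_sub_homog (homogeneousComponent_isHomogeneous k f0)
          (fun i => g (ee i))).totalDegree_le
        rw [Finset.mem_range] at hk
        omega
      rw [le_antisymm h4 h3]
  exact key hf


/-- the substitutions into isotropic vectors -/
def mOne (I : Ideal AA) : Ideal AA where
  carrier := {f | ∀ φ : ℕ → V, Iso φ → sbR φ f ∈ I}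
  add_mem' := by
    intro a b ha hb φ hφ
    rw [map_add]
    exact I.add_mem (ha φ hφ) (hb φ hφ)
  zero_mem' := by
    intro φ _
    rw [map_zero]
    exact I.zero_mem
  smul_mem' := by
    intro a b hb φ hφ
    rw [smul_eq_mul, map_mul]
    exact I.mul_mem_left _ (hb φ hφ)

theorem mOne_GLSI (I : Ideal AA) : GLSI (mOne I) := by
  intro ψ f hf φ hφ
  rw [sbR_sbR]
  exact hf _ (Iso.lin hφ ψ)

theorem exists_nn_le {I : Ideal AA} (hI : GSI I) (hne : I ≠ ⊥) :
    ∃ M N0 : ℕ, nnI (MP50e386.detIdeal M N0) ≤ I := by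
  have h1 : I ≤ mOne I := fun f hf φ hφ => witt2I hI hf φ hφ
  obtain ⟨M, N0, h⟩ := MP50e386.main_sp (mOne I) (fun h0 => hne (le_bot_iff.1 (h0 ▸ h1)))
    (fun g _ _ f hf => by
      have := mOne_GLSI I (fun i => g (ee i)) f hf
      rwa [sbR_eq_sub] at this)
  exact ⟨M, N0, nnI_le_of _ _ fun φ hφ g hg => h hg φ hφ⟩

theorem grI_bot : grI ⊥ = ⊥ := by
  unfold grI
  rw [Ideal.span_eq_bot]
  rintro g ⟨f, hf, rfl⟩
  rw [Ideal.mem_bot] at hf
  rw [hf, map_zero]

theorem so_noetherian (I : ℕ → Ideal SymSym) (hmono : Monotone I)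
    (hI : ∀ n, IsStable IsSo (I n)) : ∃ n0, ∀ n ≥ n0, I n = I n0 := by
  by_cases hbot : ∀ n, I n = ⊥
  · exact ⟨0, fun n _ => by rw [hbot n, hbot 0]⟩
  push Not at hbot
  obtain ⟨n1, hn1⟩ := hbot
  have hgr : grI (I n1) ≠ ⊥ := fun h => hn1 (eq_of_grI bot_le (grI_bot.trans h.symm)).symm
  obtain ⟨M, N0, hle⟩ := exists_nn_le (GSI_grI (hI n1)) hgr
  have hleN : ∀ i, nnI (MP50e386.detIdeal M N0) ≤ grI (I (n1 + i)) := fun i =>
    hle.trans (grI_mono (hmono (Nat.le_add_right n1 i)))
  obtain ⟨n0, hn0⟩ := NI_nn M N0 ∅ (fun i => ofI (grI (I (n1 + i))))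
    (fun i j hij => (ofI_le _ _).2 (grI_mono (hmono (Nat.add_le_add_left hij n1))))
    (fun i => by
      refine ⟨(GS_ofI _).2 (GSI_grI (hI _)), ?_, ?_⟩
      · rw [MS_empty, ofI_smul, Ideal.mul_top, ofI_le]
        exact hleN i
      · rw [MS_empty, ofI_le]
        exact le_top)
  refine ⟨n1 + n0, fun n hn => ?_⟩
  obtain ⟨j, rfl⟩ := Nat.exists_eq_add_of_le (le_trans (Nat.le_add_right n1 n0) hn)
  have hj : n0 ≤ j := by omega
  have h1 := hn0 j hj
  have h2 : grI (I (n1 + j)) = grI (I (n1 + n0)) :=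
    le_antisymm ((ofI_le _ _).1 h1.le) ((ofI_le _ _).1 h1.ge)
  exact (eq_of_grI (hmono hn) h2.symm).symm

end MP50e386O
end

section
/-! The final theorem for the standard symmetric form. -/

namespace MP50e386O

open MvPolynomial Pool.Agent.Lib.MP50e386 MP50e386N

private theorem x18_act_act (g g' : Cinf ≃ₗ[ℂ] Cinf) (f : SymSym) :
    act g' (act g f) = act (g.trans g') f := by
  rw [_root_.MP50e386.act_eq, _root_.MP50e386.act_eq, _root_.MP50e386.act_eq,
    _root_.MP50e386.sub_sub]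
  congr 2
  funext i
  have : _root_.MP50e386.lin (fun i => g' (ee i)) = (g' : Cinf →ₗ[ℂ] Cinf) := by
    apply Finsupp.lhom_ext'
    intro i
    apply LinearMap.ext_ring
    exact _root_.MP50e386.lin_ee _ i
  exact congrArg (fun F => F (g (ee i))) this

private theorem x18_act_refl (f : SymSym) : act (LinearEquiv.refl ℂ Cinf) f = f := by
  rw [_root_.MP50e386.act_eq, ← sbR_eq_sub]
  exact sbR_id f

/-- vectors supported below `n` are mapped to vectors supported below `n` -/
private theorem x18_low (w : ℕ → V) (n : ℕ) (hw : ∀ i < n, ∀ j, n ≤ j → w i j = 0) (x : V)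
    (hx : ∀ j, n ≤ j → x j = 0) (j : ℕ) (hj : n ≤ j) : linC w x j = 0 := by
  rw [linC, Finsupp.linearCombination_apply, Finsupp.sum, Finset.sum_apply']
  apply Finset.sum_eq_zero
  intro i hi
  rw [Finsupp.mem_support_iff] at hi
  have hin : i < n := by
    by_contra h
    exact hi (hx i (not_lt.1 h))
  rw [Finsupp.smul_apply, hw i hin j hj, smul_zero]

private theorem x18_lin (g : Cinf ≃ₗ[ℂ] Cinf) (x : V) : linC (fun i => g (ee i)) x = g x := by
  have : linC (fun i => g (ee i)) = (g : Cinf →ₗ[ℂ] Cinf) := by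
    apply Finsupp.lhom_ext'
    intro i
    apply LinearMap.ext_ring
    exact linC_ee _ i
  exact congrArg (fun F => F x) this

private theorem x18_thv (n i j : ℕ) (hi : i < 2 * n) (hj : 2 * n ≤ j) : thv i j = 0 := by
  obtain ⟨k, rfl | rfl⟩ : ∃ k, i = 2 * k ∨ i = 2 * k + 1 := ⟨i / 2, by omega⟩
  · rw [thv_even, Finsupp.add_apply, Finsupp.smul_apply, Finsupp.single_eq_of_ne (by omega),
      Finsupp.single_eq_of_ne (by omega), smul_zero, add_zero]
  · rw [thv_odd, Finsupp.sub_apply, Finsupp.smul_apply, Finsupp.smul_apply,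
      Finsupp.single_eq_of_ne (by omega),
      Finsupp.single_eq_of_ne (by omega), smul_zero, smul_zero, sub_zero]

private theorem x18_thw (n i j : ℕ) (hi : i < 2 * n) (hj : 2 * n ≤ j) : thw i j = 0 := by
  obtain ⟨k, rfl | rfl⟩ : ∃ k, i = 2 * k ∨ i = 2 * k + 1 := ⟨i / 2, by omega⟩
  · rw [thw_even, Finsupp.add_apply, Finsupp.smul_apply, Finsupp.single_eq_of_ne (by omega),
      Finsupp.single_eq_of_ne (by omega), smul_zero, add_zero]
  · rw [thw_odd, Finsupp.sub_apply, Finsupp.smul_apply, Finsupp.smul_apply,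
      Finsupp.single_eq_of_ne (by omega),
      Finsupp.single_eq_of_ne (by omega), smul_zero, smul_zero, sub_zero]

private theorem x18_high (n : ℕ) (g : Cinf ≃ₗ[ℂ] Cinf)
    (hg : ∀ i, n ≤ i → g (Finsupp.single i 1) = Finsupp.single i 1) (i : ℕ) (hi : 2 * n ≤ i) :
    g (thw i) = thw i := by
  obtain ⟨k, rfl | rfl⟩ : ∃ k, i = 2 * k ∨ i = 2 * k + 1 := ⟨i / 2, by omega⟩
  · rw [thw_even, map_add, map_smul, hg _ (by omega), hg _ (by omega)]
  · rw [thw_odd, map_sub, map_smul, map_smul, hg _ (by omega), hg _ (by omega)]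

/-- the conjugate of `g` by `θ` -/
theorem isO_conj {g : Cinf ≃ₗ[ℂ] Cinf} (hg : IsSo g) : IsO ((theta.symm.trans g).trans theta) := by
  obtain ⟨⟨n, h1, h2⟩, h3⟩ := hg
  refine ⟨⟨2 * n, fun i hi => ?_, fun i hi j hj => ?_⟩, fun x y => ?_⟩
  · show theta (g (theta.symm (ee i))) = ee i
    rw [theta_symm_ee, x18_high n g h1 i hi, ← theta_symm_ee, LinearEquiv.apply_symm_apply]
  · show theta (g (theta.symm (ee i))) j = 0
    rw [theta_symm_ee]
    refine x18_low thv (2 * n) (fun i hi j hj => x18_thv n i j hi hj) _ ?_ j hj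
    intro l hl
    rw [← x18_lin g]
    refine x18_low _ (2 * n) ?_ _ (fun m hm => x18_thw n i m hi hm) l hl
    intro a ha b hb
    rcases lt_or_ge a n with h | h
    · exact h2 a h b (by omega)
    · rw [h1 a h]
      exact Finsupp.single_eq_of_ne (by omega)
  · show symmForm (theta (g (theta.symm x))) (theta (g (theta.symm y))) = symmForm x y
    rw [symmForm_theta, h3, ← symmForm_theta, LinearEquiv.apply_symm_apply,
      LinearEquiv.apply_symm_apply]

/-- `A = Sym(Sym^2(ℂ^∞))` is `O_∞`-noetherian -/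
theorem o_noetherian (I : ℕ → Ideal SymSym) (hmono : Monotone I)
    (hI : ∀ n, IsStable IsO (I n)) : ∃ n0, ∀ n ≥ n0, I n = I n0 := by
  have hsurj : Function.Surjective (act theta : SymSym →ₐ[ℂ] SymSym) := fun f =>
    ⟨act theta.symm f, by
      rw [x18_act_act, LinearEquiv.symm_trans_self, x18_act_refl]⟩
  obtain ⟨n0, hn0⟩ := so_noetherian (fun n => (I n).comap (act theta))
    (fun i j hij => Ideal.comap_mono (hmono hij))
    (fun n g hg f hf => by
      rw [Ideal.mem_comap] at hf ⊢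
      have h1 := hI n _ (isO_conj hg) _ hf
      rw [x18_act_act] at h1 ⊢
      have e : theta.trans ((theta.symm.trans g).trans theta) = g.trans theta := by
        ext x : 1
        simp
      rwa [e] at h1)
  refine ⟨n0, fun n hn => ?_⟩
  exact Ideal.comap_injective_of_surjective _ hsurj (hn0 n hn)

end MP50e386O
end
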